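import Pool.Agent.Work.MP_66fdf3_co.Full.CertNodes

/-! Generated certificates, checked by kernel evaluation. -/

namespace Pool.Agent.Work.MP_66fdf3_co.Full

theorem ex45a : win2Chk 45 11 38 nodesA (1 / 2 : ℚ) (871 / 2500 : ℚ) ⟨(3 / 25 : ℚ), (76687 / 100000 : ℚ), (153027 / 100000 : ℚ), (14581 / 25000 : ℚ)⟩
    ⟨45, 11744051, 34393293, true, 212360, 1, 0, 20316890⟩ [(1, [4, 6, 11, 32, 44]), (2, [6, 7, 9, 14, 22]), (3, [9, 10, 12, 14])]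
    ⟨45, 16777216, 43620762, true, 212360, 1, 300, 18370217⟩ [(1, [4, 6, 11, 36, 44]), (2, [6, 7, 10, 17, 22]), (3, [9, 10, 11, 13, 14])] = true := by
  rw [win2Chk, cf_eps]; decide +kernel

theorem ex45b : win1Chk 45 39 45 nodesA 0 (133 / 1250 : ℚ) ⟨(0 : ℚ), (13837 / 25000 : ℚ), (221253 / 100000 : ℚ), (55349 / 100000 : ℚ)⟩
    ⟨45, 21307064, 7717519, true, 0, 1, 1, 19655282⟩ [(1, [6, 16, 44]), (2, [6, 8, 12, 22]), (3, [9, 10, 12, 14])] = true := by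
  rw [win1Chk, cf_eps]; decide +kernel

theorem ex45c : spQ 45 10 + (871 / 2500 : ℚ) + (133 / 1250 : ℚ) < 1 := by decide +kernel

theorem ex47a : win2Chk 47 12 40 (nodesB 0) (1 / 2 : ℚ) (2053 / 10000 : ℚ) ⟨(3 / 25 : ℚ), (76687 / 100000 : ℚ), (153027 / 100000 : ℚ), (14581 / 25000 : ℚ)⟩
    ⟨47, 12079596, 36238787, true, 227023, 1, 0, 19405644⟩ [(1, [4, 6, 11, 33, 46]), (2, [6, 7, 9, 14, 23]), (3, [9, 10, 12, 15])]
    ⟨47, 17280532, 43452989, true, 227023, 1, 1000, 18935077⟩ [(1, [4, 6, 11, 36, 46]), (2, [6, 7, 9, 14, 23]), (3, [9, 10, 12, 14, 15])] = true := by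
  rw [win2Chk, cf_eps]; decide +kernel

theorem ex47b : win1Chk 47 41 47 (nodesB 0) 0 (267 / 5000 : ℚ) ⟨(0 : ℚ), (13837 / 25000 : ℚ), (221253 / 100000 : ℚ), (55349 / 100000 : ℚ)⟩
    ⟨47, 21474836, 7549747, true, 0, 1, 1, 19450232⟩ [(1, [6, 16, 46]), (2, [6, 8, 12, 22, 23]), (3, [9, 10, 12, 15])] = true := by
  rw [win1Chk, cf_eps]; decide +kernel

theorem ex47c : spQ 47 11 + (2053 / 10000 : ℚ) + (267 / 5000 : ℚ) < 1 := by decide +kernel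

theorem ex49a : win2Chk 49 12 42 (nodesB 0) (1 / 2 : ℚ) (2051 / 10000 : ℚ) ⟨(3 / 25 : ℚ), (76687 / 100000 : ℚ), (153027 / 100000 : ℚ), (14581 / 25000 : ℚ)⟩
    ⟨49, 11744051, 37748736, true, 227023, 1, 0, 19623926⟩ [(1, [4, 6, 11, 32, 48]), (2, [6, 7, 9, 14, 24]), (3, [9, 10, 12, 16])]
    ⟨49, 16777216, 45298483, true, 227023, 1, 1000, 19064041⟩ [(1, [4, 6, 11, 35, 48]), (2, [6, 7, 9, 14, 24]), (3, [9, 10, 12, 15, 16])] = true := by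
  rw [win2Chk, cf_eps]; decide +kernel

theorem ex49b : win1Chk 49 43 49 (nodesB 0) 0 (29 / 1000 : ℚ) ⟨(0 : ℚ), (13837 / 25000 : ℚ), (221253 / 100000 : ℚ), (55349 / 100000 : ℚ)⟩
    ⟨49, 21474836, 7549747, true, 0, 1, 1, 20537954⟩ [(1, [6, 16, 48]), (2, [6, 8, 12, 22, 24]), (3, [9, 10, 12, 15, 16])] = true := by
  rw [win1Chk, cf_eps]; decide +kernel

theorem ex49c : spQ 49 11 + (2051 / 10000 : ℚ) + (29 / 1000 : ℚ) < 1 := by decide +kernel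

theorem ex51a : win2Chk 51 12 44 (nodesB 0) (1 / 2 : ℚ) (927 / 5000 : ℚ) ⟨(3 / 25 : ℚ), (76687 / 100000 : ℚ), (153027 / 100000 : ℚ), (14581 / 25000 : ℚ)⟩
    ⟨51, 11744051, 37748736, true, 227023, 1, 0, 19623926⟩ [(1, [4, 6, 11, 32, 50]), (2, [6, 7, 9, 14, 25]), (3, [9, 10, 12, 16])]
    ⟨51, 16441672, 46472888, true, 227023, 1, 1000, 19168071⟩ [(1, [4, 6, 11, 34, 50]), (2, [6, 7, 9, 14, 25]), (3, [9, 10, 12, 15, 16])] = true := by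
  rw [win2Chk, cf_eps]; decide +kernel

theorem ex51b : win1Chk 51 45 51 (nodesB 0) 0 (67 / 5000 : ℚ) ⟨(0 : ℚ), (13837 / 25000 : ℚ), (221253 / 100000 : ℚ), (55349 / 100000 : ℚ)⟩
    ⟨51, 21810381, 7214203, true, 0, 1, 1, 18950970⟩ [(1, [6, 16, 50]), (2, [6, 8, 13, 25]), (3, [9, 10, 12, 15, 16])] = true := by
  rw [win1Chk, cf_eps]; decide +kernel

theorem ex51c : spQ 51 11 + (927 / 5000 : ℚ) + (67 / 5000 : ℚ) < 1 := by decide +kernel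

theorem ex53a : win1Chk 53 13 47 (nodesB 0) (3 / 5 : ℚ) (1663 / 5000 : ℚ) ⟨(9 / 50 : ℚ), (8549 / 10000 : ℚ), (35341 / 25000 : ℚ), (12009 / 20000 : ℚ)⟩
    ⟨53, 12582912, 47479521, true, 0, 1, 1, 18090438⟩ [(1, [4, 7, 18, 52]), (2, [7, 11, 18, 26]), (3, [9, 10, 11, 12, 13, 14, 16, 17])] = true := by
  rw [win1Chk, cf_eps]; decide +kernel

theorem ex53b : win1Chk 53 48 53 (nodesB 0) 0 (61 / 10000 : ℚ) ⟨(0 : ℚ), (13837 / 25000 : ℚ), (221253 / 100000 : ℚ), (55349 / 100000 : ℚ)⟩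
    ⟨53, 21810381, 5368709, true, 0, 1, 1, 19897192⟩ [(1, [6, 16, 52]), (2, [6, 8, 12, 22, 26]), (3, [9, 10, 12, 15, 17])] = true := by
  rw [win1Chk, cf_eps]; decide +kernel

theorem ex53c : spQ 53 12 + (1663 / 5000 : ℚ) + (61 / 10000 : ℚ) < 1 := by decide +kernel

theorem ex55a : win1Chk 55 13 49 (nodesB 0) (3 / 5 : ℚ) (2947 / 10000 : ℚ) ⟨(9 / 50 : ℚ), (8549 / 10000 : ℚ), (35341 / 25000 : ℚ), (12009 / 20000 : ℚ)⟩
    ⟨55, 12582912, 47479521, true, 0, 1, 1, 18140892⟩ [(1, [4, 7, 18, 54]), (2, [7, 11, 18, 27]), (3, [9, 10, 11, 12, 13, 14, 16, 18])] = true := by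
  rw [win1Chk, cf_eps]; decide +kernel

theorem ex55b : win1Chk 55 50 55 (nodesB 0) 0 (7 / 2500 : ℚ) ⟨(0 : ℚ), (13837 / 25000 : ℚ), (221253 / 100000 : ℚ), (55349 / 100000 : ℚ)⟩
    ⟨55, 22145925, 5033165, true, 0, 1, 1, 18402767⟩ [(1, [6, 16, 54]), (2, [6, 8, 13, 25, 27]), (3, [9, 10, 12, 15, 18])] = true := by
  rw [win1Chk, cf_eps]; decide +kernel

theorem ex55c : spQ 55 12 + (2947 / 10000 : ℚ) + (7 / 2500 : ℚ) < 1 := by decide +kernel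

theorem ex57a : win1Chk 57 13 51 (nodesB 0) (3 / 5 : ℚ) (2697 / 10000 : ℚ) ⟨(9 / 50 : ℚ), (8549 / 10000 : ℚ), (35341 / 25000 : ℚ), (12009 / 20000 : ℚ)⟩
    ⟨57, 12582912, 47815066, true, 0, 1, 1, 18012458⟩ [(1, [4, 6, 14, 45, 56]), (2, [7, 11, 18, 28]), (3, [9, 10, 11, 12, 13, 14, 16, 18])] = true := by
  rw [win1Chk, cf_eps]; decide +kernel

theorem ex57b : win1Chk 57 52 57 (nodesB 0) 0 (13 / 10000 : ℚ) ⟨(0 : ℚ), (13837 / 25000 : ℚ), (221253 / 100000 : ℚ), (55349 / 100000 : ℚ)⟩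
    ⟨57, 22145925, 5033165, true, 0, 1, 1, 19160717⟩ [(1, [6, 16, 56]), (2, [6, 8, 13, 25, 28]), (3, [9, 10, 12, 15, 18])] = true := by
  rw [win1Chk, cf_eps]; decide +kernel

theorem ex57c : spQ 57 12 + (2697 / 10000 : ℚ) + (13 / 10000 : ℚ) < 1 := by decide +kernel

theorem ex59a : win1Chk 59 13 53 (nodesB 0) (3 / 5 : ℚ) (599 / 2500 : ℚ) ⟨(9 / 50 : ℚ), (8549 / 10000 : ℚ), (35341 / 25000 : ℚ), (12009 / 20000 : ℚ)⟩
    ⟨59, 12582912, 47815066, true, 0, 1, 1, 18012458⟩ [(1, [4, 6, 14, 45, 58]), (2, [7, 11, 18, 29]), (3, [9, 10, 11, 12, 13, 14, 16, 18, 19])] = true := by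
  rw [win1Chk, cf_eps]; decide +kernel

theorem ex59b : win1Chk 59 54 59 (nodesB 0) 0 (3 / 5000 : ℚ) ⟨(0 : ℚ), (13837 / 25000 : ℚ), (221253 / 100000 : ℚ), (55349 / 100000 : ℚ)⟩
    ⟨59, 22313697, 4865393, true, 0, 1, 1, 18795938⟩ [(1, [5, 12, 44, 58]), (2, [6, 8, 13, 25, 29]), (3, [9, 10, 12, 15, 19])] = true := by
  rw [win1Chk, cf_eps]; decide +kernel

theorem ex59c : spQ 59 12 + (599 / 2500 : ℚ) + (3 / 5000 : ℚ) < 1 := by decide +kernel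

theorem ex61a : win1Chk 61 14 55 (nodesB 1) (3 / 5 : ℚ) (411 / 2500 : ℚ) ⟨(9 / 50 : ℚ), (8549 / 10000 : ℚ), (35341 / 25000 : ℚ), (12009 / 20000 : ℚ)⟩
    ⟨61, 12247368, 48989471, true, 0, 1, 1, 18224154⟩ [(1, [4, 7, 18, 58, 60]), (2, [7, 11, 18, 30]), (3, [9, 10, 11, 12, 13, 14, 15, 17, 19, 20])] = true := by
  rw [win1Chk, cf_eps]; decide +kernel

theorem ex61b : win1Chk 61 56 61 (nodesB 1) 0 (1 / 2500 : ℚ) ⟨(0 : ℚ), (13837 / 25000 : ℚ), (221253 / 100000 : ℚ), (55349 / 100000 : ℚ)⟩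
    ⟨61, 22649242, 4529848, true, 0, 1, 1, 18307798⟩ [(1, [6, 17, 60]), (2, [6, 8, 13, 24, 30]), (3, [9, 10, 12, 15, 20])] = true := by
  rw [win1Chk, cf_eps]; decide +kernel

theorem ex61c : spQ 61 13 + (411 / 2500 : ℚ) + (1 / 2500 : ℚ) < 1 := by decide +kernel


end Pool.Agent.Work.MP_66fdf3_co.Full
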