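import Pool.Agent.Work.MP_66fdf3_co.Full.CertNodes

/-! Generated certificates, checked by kernel evaluation. -/

namespace Pool.Agent.Work.MP_66fdf3_co.Full

theorem ex63a : win1Chk 63 14 57 (nodesB 1) (3 / 5 : ℚ) (1529 / 10000 : ℚ) ⟨(9 / 50 : ℚ), (8549 / 10000 : ℚ), (35341 / 25000 : ℚ), (12009 / 20000 : ℚ)⟩
    ⟨63, 12582912, 48653926, true, 0, 1, 1, 18088597⟩ [(1, [4, 7, 18, 59, 62]), (2, [7, 11, 18, 30, 31]), (3, [9, 10, 11, 12, 13, 14, 15, 17, 19, 20])] = true := by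
  rw [win1Chk, cf_eps]; decide +kernel

theorem ex63b : win1Chk 63 58 63 (nodesB 1) 0 (1 / 5000 : ℚ) ⟨(0 : ℚ), (13837 / 25000 : ℚ), (221253 / 100000 : ℚ), (55349 / 100000 : ℚ)⟩
    ⟨63, 22649242, 4529848, true, 0, 1, 1, 19358596⟩ [(1, [6, 17, 62]), (2, [6, 8, 13, 24, 31]), (3, [9, 10, 12, 15, 20])] = true := by
  rw [win1Chk, cf_eps]; decide +kernel

theorem ex63c : spQ 63 13 + (1529 / 10000 : ℚ) + (1 / 5000 : ℚ) < 1 := by decide +kernel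

theorem ex65a : win1Chk 65 15 55 (nodesB 1) (3 / 5 : ℚ) (741 / 2000 : ℚ) ⟨(9 / 50 : ℚ), (8549 / 10000 : ℚ), (35341 / 25000 : ℚ), (12009 / 20000 : ℚ)⟩
    ⟨65, 14260634, 54525952, true, 0, 1, 1, 17237998⟩ [(1, [4, 7, 24, 64]), (3, [6, 7, 9, 12, 16, 32]), (4, [12, 13, 14, 15, 16])] = true := by
  rw [win1Chk, cf_eps]; decide +kernel

theorem ex65b : win1Chk 65 56 65 (nodesB 1) 0 (29 / 10000 : ℚ) ⟨(0 : ℚ), (13837 / 25000 : ℚ), (221253 / 100000 : ℚ), (55349 / 100000 : ℚ)⟩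
    ⟨65, 23823647, 10569646, true, 0, 1, 1, 19895434⟩ [(1, [7, 24, 64]), (2, [8, 15, 32]), (3, [10, 13, 19, 21]), (4, [12, 13, 15, 16])] = true := by
  rw [win1Chk, cf_eps]; decide +kernel

theorem ex65c : spQ 65 14 + (741 / 2000 : ℚ) + (29 / 10000 : ℚ) < 1 := by decide +kernel

theorem ex67a : win1Chk 67 15 59 (nodesB 1) (3 / 5 : ℚ) (1581 / 5000 : ℚ) ⟨(9 / 50 : ℚ), (8549 / 10000 : ℚ), (35341 / 25000 : ℚ), (12009 / 20000 : ℚ)⟩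
    ⟨67, 13757317, 55532585, true, 0, 1, 1, 17331827⟩ [(1, [4, 7, 23, 66]), (3, [6, 7, 9, 12, 16, 33]), (4, [12, 13, 14, 15, 16])] = true := by
  rw [win1Chk, cf_eps]; decide +kernel

theorem ex67b : win1Chk 67 60 67 (nodesB 1) 0 (11 / 10000 : ℚ) ⟨(0 : ℚ), (13837 / 25000 : ℚ), (221253 / 100000 : ℚ), (55349 / 100000 : ℚ)⟩
    ⟨67, 23991419, 7046431, true, 0, 1, 1, 19591600⟩ [(1, [7, 24, 66]), (2, [8, 15, 33]), (3, [10, 13, 19, 22]), (4, [12, 13, 15, 16])] = true := by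
  rw [win1Chk, cf_eps]; decide +kernel

theorem ex67c : spQ 67 14 + (1581 / 5000 : ℚ) + (11 / 10000 : ℚ) < 1 := by decide +kernel

theorem ex69a : win1Chk 69 15 61 (nodesB 1) (3 / 5 : ℚ) (589 / 2000 : ℚ) ⟨(9 / 50 : ℚ), (8549 / 10000 : ℚ), (35341 / 25000 : ℚ), (12009 / 20000 : ℚ)⟩
    ⟨69, 13925089, 55197041, true, 0, 1, 1, 17346786⟩ [(1, [4, 7, 23, 68]), (3, [6, 7, 9, 12, 16, 34]), (4, [12, 13, 14, 15, 16, 17])] = true := by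
  rw [win1Chk, cf_eps]; decide +kernel

theorem ex69b : win1Chk 69 62 69 (nodesB 1) 0 (3 / 5000 : ℚ) ⟨(0 : ℚ), (13837 / 25000 : ℚ), (221253 / 100000 : ℚ), (55349 / 100000 : ℚ)⟩
    ⟨69, 24326963, 6710886, true, 0, 1, 1, 18224764⟩ [(1, [7, 24, 68]), (2, [8, 15, 34]), (3, [10, 13, 19, 22]), (4, [12, 13, 15, 17])] = true := by
  rw [win1Chk, cf_eps]; decide +kernel

theorem ex69c : spQ 69 14 + (589 / 2000 : ℚ) + (3 / 5000 : ℚ) < 1 := by decide +kernel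

theorem ex71a : win1Chk 71 15 65 (nodesB 1) (3 / 5 : ℚ) (1281 / 5000 : ℚ) ⟨(9 / 50 : ℚ), (8549 / 10000 : ℚ), (35341 / 25000 : ℚ), (12009 / 20000 : ℚ)⟩
    ⟨71, 13589545, 55868129, true, 0, 1, 1, 17400948⟩ [(1, [4, 7, 23, 70]), (2, [9, 18, 35]), (3, [11, 15, 21, 23]), (4, [12, 13, 14, 15, 16, 17])] = true := by
  rw [win1Chk, cf_eps]; decide +kernel

theorem ex71b : win1Chk 71 66 71 (nodesB 1) 0 (1 / 5000 : ℚ) ⟨(0 : ℚ), (13837 / 25000 : ℚ), (221253 / 100000 : ℚ), (55349 / 100000 : ℚ)⟩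
    ⟨71, 24326963, 2684355, true, 0, 1, 1, 18855723⟩ [(1, [7, 24, 70]), (2, [8, 15, 35]), (3, [10, 13, 19, 23]), (4, [12, 13, 15, 17])] = true := by
  rw [win1Chk, cf_eps]; decide +kernel

theorem ex71c : spQ 71 14 + (1281 / 5000 : ℚ) + (1 / 5000 : ℚ) < 1 := by decide +kernel

theorem ex73a : win1Chk 73 16 67 (nodesB 1) (3 / 5 : ℚ) (811 / 5000 : ℚ) ⟨(9 / 50 : ℚ), (8549 / 10000 : ℚ), (35341 / 25000 : ℚ), (12009 / 20000 : ℚ)⟩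
    ⟨73, 13589545, 55868129, true, 0, 1, 1, 17412988⟩ [(1, [4, 7, 23, 72]), (2, [9, 18, 36]), (3, [11, 15, 21, 24]), (4, [12, 13, 14, 15, 16, 17, 18])] = true := by
  rw [win1Chk, cf_eps]; decide +kernel

theorem ex73b : win1Chk 73 68 73 (nodesB 1) 0 (1 / 10000 : ℚ) ⟨(0 : ℚ), (13837 / 25000 : ℚ), (221253 / 100000 : ℚ), (55349 / 100000 : ℚ)⟩
    ⟨73, 24326963, 2684355, true, 0, 1, 1, 19578645⟩ [(1, [6, 19, 72]), (2, [7, 12, 25, 36]), (3, [10, 13, 19, 24]), (4, [12, 13, 15, 18])] = true := by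
  rw [win1Chk, cf_eps]; decide +kernel

theorem ex73c : spQ 73 15 + (811 / 5000 : ℚ) + (1 / 10000 : ℚ) < 1 := by decide +kernel

theorem ex75a : win1Chk 75 16 69 (nodesB 1) (3 / 5 : ℚ) (721 / 5000 : ℚ) ⟨(9 / 50 : ℚ), (8549 / 10000 : ℚ), (35341 / 25000 : ℚ), (12009 / 20000 : ℚ)⟩
    ⟨75, 13589545, 55868129, true, 0, 1, 1, 17412894⟩ [(1, [4, 7, 23, 74]), (2, [9, 18, 37]), (3, [11, 15, 21, 24]), (4, [12, 13, 14, 15, 16, 17, 18])] = true := by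
  rw [win1Chk, cf_eps]; decide +kernel

theorem ex75b : win1Chk 75 70 75 (nodesB 1) 0 (1 / 10000 : ℚ) ⟨(0 : ℚ), (13837 / 25000 : ℚ), (221253 / 100000 : ℚ), (55349 / 100000 : ℚ)⟩
    ⟨75, 24662508, 2348810, true, 0, 1, 1, 18082963⟩ [(1, [6, 19, 74]), (2, [7, 12, 26, 37]), (3, [10, 13, 20, 24]), (4, [12, 13, 15, 18])] = true := by
  rw [win1Chk, cf_eps]; decide +kernel

theorem ex75c : spQ 75 15 + (721 / 5000 : ℚ) + (1 / 10000 : ℚ) < 1 := by decide +kernel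

theorem ex77a : win1Chk 77 16 71 (nodesB 1) (3 / 5 : ℚ) (1317 / 10000 : ℚ) ⟨(9 / 50 : ℚ), (8549 / 10000 : ℚ), (35341 / 25000 : ℚ), (12009 / 20000 : ℚ)⟩
    ⟨77, 13589545, 55868129, true, 0, 1, 1, 17414052⟩ [(1, [4, 7, 23, 76]), (2, [9, 18, 38]), (3, [11, 15, 21, 25]), (4, [12, 13, 14, 15, 16, 17, 18, 19])] = true := by
  rw [win1Chk, cf_eps]; decide +kernel

theorem ex77b : win1Chk 77 72 77 (nodesB 1) 0 (1 / 10000 : ℚ) ⟨(0 : ℚ), (13837 / 25000 : ℚ), (221253 / 100000 : ℚ), (55349 / 100000 : ℚ)⟩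
    ⟨77, 24662508, 2348810, true, 0, 1, 1, 18604285⟩ [(1, [6, 19, 76]), (2, [7, 12, 26, 38]), (3, [10, 13, 20, 25]), (4, [12, 13, 15, 19])] = true := by
  rw [win1Chk, cf_eps]; decide +kernel

theorem ex77c : spQ 77 15 + (1317 / 10000 : ℚ) + (1 / 10000 : ℚ) < 1 := by decide +kernel

theorem ex79a : win1Chk 79 16 73 (nodesB 1) (3 / 5 : ℚ) (297 / 2500 : ℚ) ⟨(9 / 50 : ℚ), (8549 / 10000 : ℚ), (35341 / 25000 : ℚ), (12009 / 20000 : ℚ)⟩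
    ⟨79, 13589545, 55868129, true, 0, 1, 1, 17415308⟩ [(1, [4, 7, 23, 78]), (3, [6, 7, 9, 12, 16, 22, 39]), (4, [12, 13, 14, 15, 16, 17, 18, 19])] = true := by
  rw [win1Chk, cf_eps]; decide +kernel

theorem ex79b : win1Chk 79 74 79 (nodesB 1) 0 (1 / 10000 : ℚ) ⟨(0 : ℚ), (13837 / 25000 : ℚ), (221253 / 100000 : ℚ), (55349 / 100000 : ℚ)⟩
    ⟨79, 24662508, 2348810, true, 0, 1, 1, 19203406⟩ [(1, [6, 19, 78]), (2, [7, 12, 26, 39]), (3, [10, 13, 19, 26]), (4, [12, 13, 15, 19])] = true := by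
  rw [win1Chk, cf_eps]; decide +kernel

theorem ex79c : spQ 79 15 + (297 / 2500 : ℚ) + (1 / 10000 : ℚ) < 1 := by decide +kernel


end Pool.Agent.Work.MP_66fdf3_co.Full
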