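import Pool.Agent.Work.MP_66fdf3_co.Full.N6

/-! Generated certificates, checked by kernel evaluation. -/

namespace Pool.Agent.Work.MP_66fdf3_co.Full

def nodesA : List Nd :=
  [⟨16257, 653196984183, 42⟩,
   ⟨37334, 585547868950, 41⟩,
   ⟨58576, 574466386569, 41⟩,
   ⟨79914, 791274159982, 42⟩,
   ⟨101354, 816346764709, 43⟩,
   ⟨122918, 646262897817, 44⟩,
   ⟨144634, 792393522291, 46⟩,
   ⟨166531, 753660549429, 48⟩,
   ⟨188645, 554381486811, 50⟩,
   ⟨211012, 626599317430, 53⟩,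
   ⟨233679, 1077457247030, 57⟩,
   ⟨256695, 695284579471, 60⟩,
   ⟨280122, 661931839114, 64⟩,
   ⟨304032, 909380942651, 69⟩,
   ⟨328515, 876296969631, 74⟩,
   ⟨353684, 571030814237, 79⟩,
   ⟨379685, 959203269903, 86⟩,
   ⟨406717, 972641394523, 93⟩,
   ⟨435062, 1085577144626, 101⟩,
   ⟨465146, 580449386436, 109⟩,
   ⟨497679, 947659381340, 120⟩,
   ⟨534040, 768094673583, 132⟩,
   ⟨577845, 836586503876, 148⟩]

def nodesG : List Nd :=
  [⟨14270, 1020734575313, 43⟩,
   ⟨32764, 971313518684, 42⟩,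
   ⟨51388, 1061687669504, 42⟩,
   ⟨70072, 856021560399, 42⟩,
   ⟨88812, 1088326656336, 43⟩,
   ⟨107618, 560124475667, 43⟩,
   ⟨126501, 945068956502, 45⟩,
   ⟨145474, 657108320981, 46⟩,
   ⟨164553, 754549095058, 48⟩,
   ⟨183755, 715091819227, 50⟩,
   ⟨203096, 558029590266, 52⟩,
   ⟨222597, 714407393800, 55⟩,
   ⟨242278, 746329592293, 58⟩,
   ⟨262163, 632018388751, 61⟩,
   ⟨282278, 860662789369, 65⟩,
   ⟨302655, 933107490035, 69⟩,
   ⟨323326, 795952898917, 73⟩,
   ⟨344333, 1053325350601, 78⟩,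
   ⟨365722, 1062905046927, 83⟩,
   ⟨387549, 801043970536, 88⟩,
   ⟨409881, 879004387543, 94⟩,
   ⟨432804, 680210956419, 100⟩,
   ⟨456425, 712958645170, 107⟩,
   ⟨480882, 960122065136, 115⟩,
   ⟨506366, 773566935180, 123⟩,
   ⟨533145, 674657269406, 132⟩,
   ⟨561630, 1096346457124, 143⟩,
   ⟨592501, 649071957363, 154⟩,
   ⟨627083, 702870710863, 168⟩,
   ⟨668845, 857803265633, 186⟩]

def nodesS : List (Nd × ℕ) :=
  [(⟨591326, 919486003681, 148⟩, 105),
   (⟨761029, 1356144817540, 225⟩, 166),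
   (⟨935549, 1463640316515, 324⟩, 243),
   (⟨1113630, 1298406044655, 446⟩, 336),
   (⟨1293781, 1005293851295, 591⟩, 445),
   (⟨1475935, 1835138986155, 761⟩, 571),
   (⟨1660107, 1101250814867, 954⟩, 714),
   (⟨1845690, 883211172756, 1172⟩, 874),
   (⟨2032294, 958167196550, 1415⟩, 1051),
   (⟨2219661, 707349584319, 1682⟩, 1245),
   (⟨2407612, 714126830822, 1974⟩, 1456),
   (⟨2596019, 990104644723, 2291⟩, 1684),
   (⟨2785167, 1196368418924, 2633⟩, 1930),
   (⟨2974930, 1152067512959, 3000⟩, 2193),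
   (⟨3164852, 1528412272713, 3392⟩, 2473),
   (⟨3355217, 884266917310, 3808⟩, 2771),
   (⟨3545968, 822614273794, 4250⟩, 3086),
   (⟨3737034, 1329123214912, 4718⟩, 3419),
   (⟨3928378, 870935470261, 5210⟩, 3769),
   (⟨4119953, 989367868455, 5728⟩, 4137),
   (⟨4311737, 912917449832, 6271⟩, 4522),
   (⟨4503695, 1458147796146, 6840⟩, 4925),
   (⟨4696038, 592492655318, 7433⟩, 5346),
   (⟨4888503, 1577960509875, 8054⟩, 5784),
   (⟨5082324, 837516218635, 8702⟩, 6246),
   (⟨5281405, 1205807981400, 9395⟩, 6745),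
   (⟨5488331, 1237494902947, 10143⟩, 7284),
   (⟨5703377, 1441966147908, 10951⟩, 7866),
   (⟨5926927, 937818253712, 11823⟩, 8495),
   (⟨6159277, 640773524151, 12765⟩, 9174),
   (⟨6400640, 911893782465, 13783⟩, 9907),
   (⟨6651488, 975169518284, 14882⟩, 10699)]

def nodesB (k : ℕ) : List Nd := nodesG ++ (nodesS.take k).map Prod.fst

/-- `bprod` with an early exit. -/
noncomputable def cfB (A D M n : ℕ) : ℕ :=
  Nat.rec 1 (fun i r =>
    cond (Nat.ble A (Nat.succ (Nat.div (Nat.mul (Nat.sub M i) 4722366482869645213696) D)))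
      (Nat.pow (max 16777216 A) (Nat.succ i))
      (Nat.mul (max 16777216
        (Nat.succ (Nat.div (Nat.mul (Nat.sub M i) 4722366482869645213696) D))) r)) n

/-- `bprod` without the trivial factors. -/
noncomputable def cfP (A D M n : ℕ) : ℕ :=
  cond (Nat.ble (Nat.succ (Nat.div (Nat.mul (Nat.sub M n) 4722366482869645213696) D)) 16777216)
    (Nat.mul (Nat.pow 16777216 (Nat.sub M n)) (cfB A D M n)) (cfB A D M M)

theorem cf_mono (M D : ℕ) {i j : ℕ} (h : i ≤ j) :
    (M - j) * 16777216 ^ 3 / D + 1 ≤ (M - i) * 16777216 ^ 3 / D + 1 :=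
  Nat.succ_le_succ (Nat.div_le_div_right (Nat.mul_le_mul_right _ (Nat.sub_le_sub_left h M)))

theorem cf_top (P : EP) (η n : ℕ)
    (h : 16777216 ^ 3 / (P.Y * η) + 1 ≤ (P.M - n) * 16777216 ^ 3 / (P.M * P.T * η) + 1) :
    bprod P η (n + 1) = max 16777216 (16777216 ^ 3 / (P.Y * η) + 1) ^ (n + 1) := by
  induction n with
  | zero => rw [bprod, min_eq_left h, bprod, mul_one, zero_add, pow_one]
  | succ n ih => rw [bprod, min_eq_left h, ih (h.trans (cf_mono _ _ n.le_succ)), ← pow_succ']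

theorem cf_low (P : EP) (η n k : ℕ)
    (h : (P.M - n) * 16777216 ^ 3 / (P.M * P.T * η) + 1 ≤ 16777216) :
    bprod P η (n + k) = 16777216 ^ k * bprod P η n := by
  induction k with
  | zero => simp
  | succ k ih =>
    rw [← add_assoc, bprod, ih, max_eq_left ((min_le_right _ _).trans
      ((cf_mono _ _ (n.le_add_right k)).trans h)), pow_succ', mul_assoc]

theorem cfB_eq (P : EP) (η n : ℕ) :
    cfB (16777216 ^ 3 / (P.Y * η) + 1) (P.M * P.T * η) P.M n = bprod P η n := by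
  induction n with
  | zero => rfl
  | succ n ih =>
    change cond (Nat.ble _ ((P.M - n) * 16777216 ^ 3 / (P.M * P.T * η) + 1)) (_ ^ (n + 1))
      (max 16777216 ((P.M - n) * 16777216 ^ 3 / (P.M * P.T * η) + 1) * cfB _ _ _ n) = _
    rw [Bool.cond_eq_ite]
    split_ifs with h <;> rw [Nat.ble_eq] at h
    · exact (cf_top P η n h).symm
    · rw [bprod, min_eq_right (not_le.1 h).le, ih]

theorem cfP_eq (P : EP) (η k : ℕ) :
    cfP (16777216 ^ 3 / (P.Y * η) + 1) (P.M * P.T * η) P.M (P.M - k) = bprod P η P.M := by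
  change cond (Nat.ble ((P.M - (P.M - k)) * 16777216 ^ 3 / (P.M * P.T * η) + 1) _)
    (16777216 ^ (P.M - (P.M - k)) * cfB _ _ _ _) _ = _
  rw [Bool.cond_eq_ite, cfB_eq, cfB_eq]
  split_ifs with h
  · rw [← cf_low P η _ _ (Nat.le_of_ble_eq_true h), Nat.add_sub_cancel' (Nat.sub_le _ _)]
  · rfl

/-- A Newton step. -/
def cfN (n x : ℕ) : ℕ := Nat.div (Nat.add x (Nat.div n x)) 2

/-- `isq`, unrolled. -/
def cfQ (n : ℕ) : ℕ := cfN n (cfN n (cfN n (cfN n (cfN n (cfN n (cfN n
  (Nat.pow 2 (Nat.succ (Nat.div (Nat.log2 n) 2)))))))))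

/-- The first case of `etaOf`. -/
def cfV (T U V : ℕ) : ℕ := Nat.div (Nat.mul (Nat.div 562949953421312
  (Nat.add V (cfQ (Nat.sub (Nat.pow V 2) (Nat.mul (Nat.mul 4 U) 16777216))))) 16777216) T

/-- `etaOf` with shared parts. -/
def cfE (P : EP) (w X U : ℕ) : ℕ :=
  min (Nat.succ (Nat.div 281474976710656 P.Y))
    (if P.mode then cfV P.T U (Nat.add (Nat.add 16777216 U) (Nat.div (Nat.mul w U) P.M))
    else P.M * 16777216 ^ 2 / (X * (P.M + w)))

/-- `termAux` with `cfP`. -/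
noncomputable def cfT (P : EP) (w : ℕ) (n : Nd) (X eta : ℕ) : ℕ :=
  if 281474976710656 ≤ Nat.mul eta P.Y then
    Nat.succ (Nat.div (Nat.mul (Nat.mul n.mant 16777216) (Nat.pow (Nat.succ
      (Nat.div 4722366482869645213696 (Nat.sub 281474976710656 (Nat.mul eta X)))) (Nat.mul 2 w)))
      (Nat.pow 2 (Nat.add n.e (Nat.mul 48 w))))
  else
    Nat.succ (Nat.div (Nat.mul (Nat.mul (Nat.mul n.mant 16777216) (Nat.pow
      (if P.mode then cfP (16777216 ^ 3 / (P.Y * eta) + 1) (P.M * P.T * eta) P.M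
        (P.M - (P.M * P.T * eta - 1) / 16777216 ^ 2)
        else (16777216 ^ 3 / (eta * P.Y) + 1) ^ P.M) 2)) (Nat.pow (Nat.succ
      (Nat.div 4722366482869645213696 (Nat.sub 281474976710656 (Nat.mul eta X)))) (Nat.mul 2 w)))
      (Nat.pow 2 (Nat.add n.e (Nat.mul 48 (Nat.add P.M w)))))

theorem cfT_eq : cfT = termAux := by
  funext P w n X eta
  rw [cfT, termAux, cfP_eq]
  rfl

/-- The last case of `cellSum`. -/
noncomputable def cfU (P : EP) (w : ℕ) (n : Nd) (g : ℕ → Option ℕ) (acc X η : ℕ) : Option ℕ :=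
  if 0 < η ∧ Nat.mul η X < 281474976710656 then
    g (Nat.add acc (Nat.mul (P.wt n) (cfT P w n X η)))
  else none

/-- A step of `cellSum`. -/
noncomputable def cfW (P : EP) (w : ℕ) (n : Nd) (g : ℕ → Option ℕ) (acc Z : ℕ) : Option ℕ :=
  if P.wt n = 0 then g acc
  else if Z ≤ P.T then g (Nat.add acc (Nat.mul (P.wt n)
    (Nat.succ (Nat.div (Nat.mul n.mant 16777216) (Nat.pow 2 n.e)))))
  else cfU P w n g acc (Nat.sub Z P.T)
    (cfE P w (Nat.sub Z P.T) (Nat.div (Nat.mul (Nat.sub Z P.T) 16777216) P.T))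

/-- `cellSum` with `cfT`. -/
noncomputable def cfS (P : EP) (r w : ℕ) (l : List Nd) : ℕ → Option ℕ :=
  List.rec some (fun n _ g acc => cfW P w n g acc (Nat.succ (Nat.div (Nat.mul n.s r) 65536))) l

theorem cfS_eq (P : EP) (r w : ℕ) (l : List Nd) (acc : ℕ) :
    cfS P r w l acc = cellSum P r w l acc := by
  induction l generalizing acc with
  | nil => rfl
  | cons n l ih => rw [cellSum, ← ih, ← ih, ← ih, ← cfT_eq]; rfl

/-- `coverD` with `cfS`. -/
noncomputable def cfD (P : EP) (l : List Nd) (μ1 μ2 : ℕ) (ds : List ℕ) : ℕ → Bool :=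
  List.rec (fun d1 => decide (P.M ≤ μ1 * d1)) (fun d2 _ g d1 =>
    (decide (16777216 ^ 2 ≤ (isq (16777216 ^ 2 / d1) + 1) ^ 2 * d1) &&
      match cfS P (isq (16777216 ^ 2 / d1) + 1) (min (μ2 * d2) (P.M - 1)) l 0 with
      | none => false
      | some s => decide (s * 16777216 ^ (μ1 * μ1) ≤ P.An ^ (μ1 * μ1) * 16777216)) &&
    g (d2 + 1)) ds

theorem cfD_eq (P : EP) (l : List Nd) (μ1 μ2 : ℕ) (ds : List ℕ) (d1 : ℕ) :
    cfD P l μ1 μ2 ds d1 = coverD P l μ1 μ2 ds d1 := by
  induction ds generalizing d1 with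
  | nil => rfl
  | cons d ds ih => rw [coverD, cellOK, ← ih, ← cfS_eq]; rfl

/-- `coverM` with `cfD`. -/
noncomputable def cfM (P : EP) (l : List Nd) (gs : List (ℕ × List ℕ)) : ℕ → Bool :=
  List.rec (fun μ1 => decide (P.M ≤ 4 * (μ1 * μ1)))
    (fun g _ k μ1 => cfD P l μ1 g.1 g.2 (max 4 (3 * μ1)) && k (g.1 + 1)) gs

theorem cfM_eq (P : EP) (l : List Nd) (gs : List (ℕ × List ℕ)) (μ : ℕ) :
    coverM P l gs μ = cfM P l gs μ := by
  induction gs generalizing μ with
  | nil => rfl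
  | cons g gs ih => rw [coverM, ih, ← cfD_eq]; rfl

theorem cf_eps : epsChk = fun P l gs => decide (0 < P.T) && decide (0 < P.Y) && decide (0 < P.M) &&
    decide (16777216 ≤ P.An) && cfM P l gs 1 := by
  funext P l gs
  rw [epsChk, cfM_eq]

theorem momA : momChk nodesA 45 148 [] 45 = true := by decide +kernel

theorem momB0 : momChk nodesG 59 186 (nodesS.take 0) 59 = true := by decide +kernel

theorem momB1 : momChk nodesG 59 186 (nodesS.take 1) 100 = true := by decide +kernel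

theorem momB2 : momChk nodesG 59 186 (nodesS.take 2) 144 = true := by decide +kernel

theorem momB3 : momChk nodesG 59 186 (nodesS.take 3) 230 = true := by decide +kernel

theorem momB4 : momChk nodesG 59 186 (nodesS.take 4) 299 = true := by decide +kernel

theorem momB5 : momChk nodesG 59 186 (nodesS.take 5) 420 = true := by decide +kernel

theorem momB7 : momChk nodesG 59 186 (nodesS.take 7) 600 = true := by decide +kernel

theorem momB9 : momChk nodesG 59 186 (nodesS.take 9) 900 = true := by decide +kernel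

theorem momB12 : momChk nodesG 59 186 (nodesS.take 12) 1499 = true := by decide +kernel

theorem momB15 : momChk nodesG 59 186 (nodesS.take 15) 2400 = true := by decide +kernel

theorem momB20 : momChk nodesG 59 186 (nodesS.take 20) 3900 = true := by decide +kernel

theorem momB26 : momChk nodesG 59 186 (nodesS.take 26) 6300 = true := by decide +kernel

theorem momB32 : momChk nodesG 59 186 (nodesS.take 32) 10000 = true := by decide +kernel


end Pool.Agent.Work.MP_66fdf3_co.Full
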