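import Pool.Agent.Work.MP_66fdf3_co.Full.N9

/-!
Executable layered evaluation of the signed counts, and its values.
-/

namespace Pool.Agent.Work.MP_66fdf3_co.Full

open Finset

def okL : List (List ℕ) → List ℕ → Bool
  | r :: a, k :: σ => decide (0 < r.getD k 0) && okL a σ
  | _, _ => true

def subL (a : List (List ℕ)) (σ : List ℕ) : List (List ℕ) :=
  List.zipWith (fun r k => r.set k (r.getD k 0 - 1)) a σ

def insL (a : List (List ℕ)) (c : ℤ) : List (List (List ℕ) × ℤ) → List (List (List ℕ) × ℤ)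
  | [] => [(a, c)]
  | x :: l => if a = x.1 then (x.1, x.2 + c) :: l else x :: insL a c l

def expL (a : List (List ℕ)) (c : ℤ) : List (List ℕ × ℤ) → List (List (List ℕ) × ℤ) →
    List (List (List ℕ) × ℤ)
  | [], acc => acc
  | q :: l, acc => if okL a q.1 then expL a c l (insL (subL a q.1) (c * q.2) acc) else expL a c l acc

def layer (P : List (List ℕ × ℤ)) : List (List (List ℕ) × ℤ) → List (List (List ℕ) × ℤ) →
    List (List (List ℕ) × ℤ)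
  | [], acc => acc
  | x :: l, acc => layer P l (expL x.1 x.2 P acc)

def runL (PJ : List (List (List ℕ × ℤ))) : List ℕ → List (List (List ℕ) × ℤ) → ℤ
  | [], l => (l.map fun x => if x.1.all (fun r => r.all (· == 0)) then x.2 else 0).sum
  | j :: js, l => runL PJ js (layer (PJ.getD j []) l [])

def PJ3 : List (List (List ℕ × ℤ)) :=
  [[([0, 1, 2], 1), ([0, 2, 1], -1)],
   [([1, 0, 2], -1), ([1, 2, 0], 1)],
   [([2, 0, 1], 1), ([2, 1, 0], -1)]]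

def PJ5 : List (List (List ℕ × ℤ)) :=
  [[([0, 1, 2, 3, 4], 1), ([0, 1, 2, 4, 3], -1), ([0, 1, 3, 2, 4], -1), ([0, 1, 3, 4, 2], 1), ([0, 1, 4, 2, 3], 1), ([0, 1, 4, 3, 2], -1), ([0, 2, 1, 3, 4], -1), ([0, 2, 1, 4, 3], 1), ([0, 2, 3, 1, 4], 1), ([0, 2, 3, 4, 1], -1), ([0, 2, 4, 1, 3], -1), ([0, 2, 4, 3, 1], 1), ([0, 3, 1, 2, 4], 1), ([0, 3, 1, 4, 2], -1), ([0, 3, 2, 1, 4], -1), ([0, 3, 2, 4, 1], 1), ([0, 3, 4, 1, 2], 1), ([0, 3, 4, 2, 1], -1), ([0, 4, 1, 2, 3], -1), ([0, 4, 1, 3, 2], 1), ([0, 4, 2, 1, 3], 1), ([0, 4, 2, 3, 1], -1), ([0, 4, 3, 1, 2], -1), ([0, 4, 3, 2, 1], 1)],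
   [([1, 0, 2, 3, 4], -1), ([1, 0, 2, 4, 3], 1), ([1, 0, 3, 2, 4], 1), ([1, 0, 3, 4, 2], -1), ([1, 0, 4, 2, 3], -1), ([1, 0, 4, 3, 2], 1), ([1, 2, 0, 3, 4], 1), ([1, 2, 0, 4, 3], -1), ([1, 2, 3, 0, 4], -1), ([1, 2, 3, 4, 0], 1), ([1, 2, 4, 0, 3], 1), ([1, 2, 4, 3, 0], -1), ([1, 3, 0, 2, 4], -1), ([1, 3, 0, 4, 2], 1), ([1, 3, 2, 0, 4], 1), ([1, 3, 2, 4, 0], -1), ([1, 3, 4, 0, 2], -1), ([1, 3, 4, 2, 0], 1), ([1, 4, 0, 2, 3], 1), ([1, 4, 0, 3, 2], -1), ([1, 4, 2, 0, 3], -1), ([1, 4, 2, 3, 0], 1), ([1, 4, 3, 0, 2], 1), ([1, 4, 3, 2, 0], -1)],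
   [([2, 0, 1, 3, 4], 1), ([2, 0, 1, 4, 3], -1), ([2, 0, 3, 1, 4], -1), ([2, 0, 3, 4, 1], 1), ([2, 0, 4, 1, 3], 1), ([2, 0, 4, 3, 1], -1), ([2, 1, 0, 3, 4], -1), ([2, 1, 0, 4, 3], 1), ([2, 1, 3, 0, 4], 1), ([2, 1, 3, 4, 0], -1), ([2, 1, 4, 0, 3], -1), ([2, 1, 4, 3, 0], 1), ([2, 3, 0, 1, 4], 1), ([2, 3, 0, 4, 1], -1), ([2, 3, 1, 0, 4], -1), ([2, 3, 1, 4, 0], 1), ([2, 3, 4, 0, 1], 1), ([2, 3, 4, 1, 0], -1), ([2, 4, 0, 1, 3], -1), ([2, 4, 0, 3, 1], 1), ([2, 4, 1, 0, 3], 1), ([2, 4, 1, 3, 0], -1), ([2, 4, 3, 0, 1], -1), ([2, 4, 3, 1, 0], 1)],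
   [([3, 0, 1, 2, 4], -1), ([3, 0, 1, 4, 2], 1), ([3, 0, 2, 1, 4], 1), ([3, 0, 2, 4, 1], -1), ([3, 0, 4, 1, 2], -1), ([3, 0, 4, 2, 1], 1), ([3, 1, 0, 2, 4], 1), ([3, 1, 0, 4, 2], -1), ([3, 1, 2, 0, 4], -1), ([3, 1, 2, 4, 0], 1), ([3, 1, 4, 0, 2], 1), ([3, 1, 4, 2, 0], -1), ([3, 2, 0, 1, 4], -1), ([3, 2, 0, 4, 1], 1), ([3, 2, 1, 0, 4], 1), ([3, 2, 1, 4, 0], -1), ([3, 2, 4, 0, 1], -1), ([3, 2, 4, 1, 0], 1), ([3, 4, 0, 1, 2], 1), ([3, 4, 0, 2, 1], -1), ([3, 4, 1, 0, 2], -1), ([3, 4, 1, 2, 0], 1), ([3, 4, 2, 0, 1], 1), ([3, 4, 2, 1, 0], -1)],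
   [([4, 0, 1, 2, 3], 1), ([4, 0, 1, 3, 2], -1), ([4, 0, 2, 1, 3], -1), ([4, 0, 2, 3, 1], 1), ([4, 0, 3, 1, 2], 1), ([4, 0, 3, 2, 1], -1), ([4, 1, 0, 2, 3], -1), ([4, 1, 0, 3, 2], 1), ([4, 1, 2, 0, 3], 1), ([4, 1, 2, 3, 0], -1), ([4, 1, 3, 0, 2], -1), ([4, 1, 3, 2, 0], 1), ([4, 2, 0, 1, 3], 1), ([4, 2, 0, 3, 1], -1), ([4, 2, 1, 0, 3], -1), ([4, 2, 1, 3, 0], 1), ([4, 2, 3, 0, 1], 1), ([4, 2, 3, 1, 0], -1), ([4, 3, 0, 1, 2], -1), ([4, 3, 0, 2, 1], 1), ([4, 3, 1, 0, 2], 1), ([4, 3, 1, 2, 0], -1), ([4, 3, 2, 0, 1], -1), ([4, 3, 2, 1, 0], 1)]]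

def ddL (PJ : List (List (List ℕ × ℤ))) : List ℕ → List (List ℕ) → ℤ
  | [], a => if a.all (fun r => r.all (· == 0)) then 1 else 0
  | j :: js, a =>
    ((PJ.getD j []).map fun q => if okL a q.1 then q.2 * ddL PJ js (subL a q.1) else 0).sum

theorem run5 : runL PJ3 [0, 0, 0, 1, 1] [([[3, 2, 0], [2, 0, 3], [0, 3, 2]], 1)] = -1 := by
  decide +kernel

theorem run7 : runL PJ3 [0, 1, 1, 1, 2, 2, 2] [([[1, 3, 3], [3, 0, 4], [3, 4, 0]], 1)] = -1 := by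
  decide +kernel

theorem run11 : runL PJ3 [0, 1, 1, 1, 1, 1, 1, 2, 2, 2, 2]
    [([[1, 6, 4], [6, 2, 3], [4, 3, 4]], 1)] = -10 := by decide +kernel

theorem run13 : runL PJ3 [0, 0, 0, 1, 1, 1, 1, 1, 1, 1, 2, 2, 2]
    [([[3, 7, 3], [7, 0, 6], [3, 6, 4]], 1)] = -35 := by decide +kernel

/-- A key that separates most tables. -/
noncomputable def dfH (a : List (List ℕ)) : ℕ :=
  List.rec 0 (fun r _ h => List.rec h (fun x _ k => Nat.add (Nat.mul 4 k) x) r) a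

/-- `insL` with a comparison of keys first. -/
noncomputable def dfI (a : List (List ℕ)) (c : ℤ) (l : List (List (List ℕ) × ℤ)) :
    List (List (List ℕ) × ℤ) :=
  List.rec [(a, c)] (fun x l r => cond (Nat.beq (dfH a) (dfH x.1))
    (if a = x.1 then (x.1, x.2 + c) :: l else x :: r) (x :: r)) l

/-- `expL` with `dfI`. -/
noncomputable def dfE (a : List (List ℕ)) (c : ℤ) (P : List (List ℕ × ℤ)) :
    List (List (List ℕ) × ℤ) → List (List (List ℕ) × ℤ) :=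
  List.rec (fun acc => acc)
    (fun q _ k acc => cond (okL a q.1) (k (dfI (subL a q.1) (c * q.2) acc)) (k acc)) P

/-- `layer` with `dfI`. -/
noncomputable def dfL (P : List (List ℕ × ℤ)) (l : List (List (List ℕ) × ℤ)) :
    List (List (List ℕ) × ℤ) → List (List (List ℕ) × ℤ) :=
  List.rec (fun acc => acc) (fun x _ k acc => k (dfE x.1 x.2 P acc)) l

/-- `runL` with `dfI`. -/
noncomputable def dfR (PJ : List (List (List ℕ × ℤ))) (js : List ℕ) :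
    List (List (List ℕ) × ℤ) → ℤ :=
  List.rec (runL PJ []) (fun j _ g l => g (dfL (PJ.getD j []) l [])) js

theorem dfI_eq (a : List (List ℕ)) (c : ℤ) (l : List (List (List ℕ) × ℤ)) :
    dfI a c l = insL a c l := by
  induction l with
  | nil => rfl
  | cons x l ih =>
    rw [insL, ← ih]
    change cond (Nat.beq (dfH a) (dfH x.1)) (if a = x.1 then _ else x :: dfI a c l)
      (x :: dfI a c l) = _
    cases e : Nat.beq (dfH a) (dfH x.1)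
    · exact (if_neg fun h => by rw [h, Nat.beq_refl] at e; cases e).symm
    · rfl

theorem dfE_eq (a : List (List ℕ)) (c : ℤ) (P : List (List ℕ × ℤ))
    (l : List (List (List ℕ) × ℤ)) : dfE a c P l = expL a c P l := by
  induction P generalizing l with
  | nil => rfl
  | cons q P ih =>
    rw [expL, ← ih, ← ih, ← dfI_eq]
    exact Bool.cond_eq_ite _ _ _

theorem dfL_eq (P : List (List ℕ × ℤ)) (l acc : List (List (List ℕ) × ℤ)) :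
    dfL P l acc = layer P l acc := by
  induction l generalizing acc with
  | nil => rfl
  | cons x l ih => rw [layer, ← ih, ← dfE_eq]; rfl

theorem dfR_eq (PJ : List (List (List ℕ × ℤ))) (js : List ℕ) (l : List (List (List ℕ) × ℤ)) :
    dfR PJ js l = runL PJ js l := by
  induction js generalizing l with
  | nil => rfl
  | cons j js ih => rw [runL, ← ih, ← dfL_eq]; rfl

theorem run35 : runL PJ5 [0, 0, 0, 1, 2, 3, 4] [([[3, 1, 1, 1, 1], [1, 0, 2, 2, 2], [1, 2, 0, 2, 2],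
    [1, 2, 2, 0, 2], [1, 2, 2, 2, 0]], 1)] = -3240 := (dfR_eq _ _ _).symm.trans (by decide +kernel)

theorem tab3 : ∀ j : Fin 3, ((univ.filter fun σ : Equiv.Perm (Fin 3) => σ 0 = j).val.map
    fun σ => (List.ofFn (fun i => (σ i).val), (Equiv.Perm.sign σ : ℤ))) =
      (PJ3.getD j.val [] : Multiset _) := by decide +kernel

theorem tab5 : ∀ j : Fin 5, ((univ.filter fun σ : Equiv.Perm (Fin 5) => σ 0 = j).val.map
    fun σ => (List.ofFn (fun i => (σ i).val), (Equiv.Perm.sign σ : ℤ))) =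
      (PJ5.getD j.val [] : Multiset _) := by decide +kernel

end Pool.Agent.Work.MP_66fdf3_co.Full
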