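import Pool.Agent.Work.MP_66fdf3_co.Full.N9

/-!
Kernel evaluation of the marriage checks.
-/

namespace Pool.Agent.Work.MP_66fdf3_co.Full

open Finset

/-- Number of the listed bits. -/
noncomputable def hvC (n : ℕ) (l : List ℕ) : ℕ :=
  List.rec 0 (fun b _ a => Nat.add a (Nat.mod (Nat.shiftRight n b) 2)) l

/-- Some row is too full. -/
noncomputable def hvQ (k n : ℕ) (R : List (List ℕ)) : Bool :=
  List.rec false (fun r _ a => cond (Nat.blt k (Nat.mul 7 (hvC n r))) true a) R

/-- Search with pruning by the least and the largest completion of the known bits. -/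
noncomputable def hvP (f : ℕ → Bool) (sb : List ℕ) (R : List (List ℕ)) (d : ℕ) : ℕ → Bool :=
  Nat.rec f (fun d g n =>
    cond (hvQ (Nat.pred (Nat.mul 2 (hvC (Nat.pred (Nat.shiftLeft (Nat.succ n) (Nat.succ d))) sb)))
      (Nat.shiftLeft n (Nat.succ d)) R) true
      (cond (g (Nat.mul 2 n)) (g (Nat.succ (Nat.mul 2 n))) false)) d

theorem hv_mono {a b : ℕ} (h : ∀ i, a.testBit i = true → b.testBit i = true) (l : List ℕ) :
    hvC a l ≤ cntN b l ∧ cntN a l ≤ hvC b l := by
  have e : ∀ n i : ℕ, Nat.mod (Nat.shiftRight n i) 2 = (n.testBit i).toNat := fun n i => by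
    rw [Nat.toNat_testBit, ← Nat.shiftRight_eq_div_pow]; rfl
  induction l with
  | nil => exact ⟨le_rfl, le_rfl⟩
  | cons i l ih =>
    have := h i
    show hvC a l + Nat.mod _ _ ≤ _ ∧ _ ≤ hvC b l + Nat.mod _ _
    rw [cntN, cntN, e, e, HallS_bit, HallS_bit]
    revert this
    cases a.testBit i <;> cases b.testBit i <;> simp <;> omega

theorem hv_quick {a b k k' : ℕ} (h : ∀ i, a.testBit i = true → b.testBit i = true) (hk : k' ≤ k)
    (R : List (List ℕ)) (hq : hvQ k a R = true) : quick 7 k' b R = true := by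
  induction R with
  | nil => exact hq
  | cons r R ih =>
    rw [quick, Bool.or_eq_true, Nat.blt_eq]
    change cond (Nat.blt k (7 * hvC a r)) true (hvQ k a R) = true at hq
    cases e : Nat.blt k (7 * hvC a r) <;> rw [e] at hq
    · exact Or.inr (ih hq)
    · have := (hv_mono h r).1
      rw [Nat.blt_eq] at e
      exact Or.inl (show k' < 7 * cntN b r by omega)

theorem hv_all (f : ℕ → Bool) (d n : ℕ) (h : ∀ r < 2 ^ d, f (2 ^ d * n + r) = true) :
    allN f d n = true := by
  induction d generalizing n with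
  | zero => simpa [allN] using h
  | succ d ih =>
    rw [allN, ih, ih]
    · rfl
    · intro r hr
      rw [← h (2 ^ d + r) (by omega)]
      exact congrArg f (show 2 ^ d * (2 * n + 1) + r = _ by ring)
    · intro r hr
      rw [← h r (by omega)]
      exact congrArg f (show 2 ^ d * (2 * n) + r = _ by ring)

theorem hv_sound {s : ℕ} (sb : List ℕ) (R : List (List ℕ)) (d n : ℕ)
    (h : hvP (hallF (s := s) 7 sb R) sb R d n = true) : allN (hallF (s := s) 7 sb R) d n = true := by
  induction d generalizing n with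
  | zero => exact h
  | succ d ih =>
    change cond (hvQ (2 * hvC ((n + 1) <<< (d + 1) - 1) sb - 1) (n <<< (d + 1)) R) true
      (cond (hvP _ sb R d (2 * n)) (hvP _ sb R d (2 * n + 1)) false) = true at h
    cases e : hvQ (2 * hvC ((n + 1) <<< (d + 1) - 1) sb - 1) (n <<< (d + 1)) R <;> rw [e] at h
    · cases e' : hvP (hallF (s := s) 7 sb R) sb R d (2 * n) <;> rw [e'] at h
      · cases h
      · rw [allN, Bool.and_eq_true]
        exact ⟨ih _ e', ih _ h⟩
    · refine hv_all _ _ _ fun r hr => ?_
      have p := Nat.two_pow_pos (d + 1)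
      have e1 : (n + 1) <<< (d + 1) - 1 = 2 ^ (d + 1) * n + (2 ^ (d + 1) - 1) := by
        rw [Nat.shiftLeft_eq, add_mul, mul_comm]; omega
      have e2 : n <<< (d + 1) = 2 ^ (d + 1) * n + 0 := by rw [Nat.shiftLeft_eq, mul_comm]; rfl
      rw [e1, e2] at e
      refine Bool.or_eq_true_iff.2 (Or.inl (hv_quick (fun i => ?_) (Nat.pred_le_pred
        (Nat.mul_le_mul_left 2 (hv_mono (fun i => ?_) sb).2)) R e))
      · rw [Nat.testBit_two_pow_mul_add _ p, Nat.testBit_two_pow_mul_add _ hr]
        split_ifs <;> simp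
      · rw [Nat.testBit_two_pow_mul_add _ (Nat.sub_lt p one_pos), Nat.testBit_two_pow_mul_add _ hr]
        split_ifs with hi <;> simp [hi]

/-- The slot bits of `sl35`. -/
def hvS : List ℕ := [0, 1, 3, 6, 10, 4, 4, 7, 7, 11, 11, 8, 8, 12, 12, 13, 13]

/-- The bits of the rows. -/
def hvR : List (List ℕ) :=
  [[0, 1, 3, 6, 10], [1, 2, 4, 7, 11], [3, 4, 5, 8, 12], [6, 7, 8, 9, 13], [10, 11, 12, 13, 14]]

theorem hv_35 (q : ℕ) (h : hvP (hallF (s := 5) 7 hvS hvR) hvS hvR 13 q = true) :
    hallChk 7 sl35 13 q = true := by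
  have e1 : (sl35.map fun q => triN q.1.val q.2.val) = hvS := by decide +kernel
  have e2 : ((List.finRange 5).map fun i => (List.finRange 5).map fun j => triN i.val j.val) =
      hvR := by decide +kernel
  rw [hallChk, e1, e2]
  exact hv_sound _ _ _ _ h

theorem c35_0 : hallChk 7 sl35 13 0 = true := hv_35 0 (by decide +kernel)

theorem c35_1 : hallChk 7 sl35 13 1 = true := hv_35 1 (by decide +kernel)

theorem c5 : hallChk 5 sl5 6 0 = true := by decide +kernel

theorem c7 : hallChk 7 sl7 6 0 = true := by decide +kernel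

theorem c11 : hallChk 11 sl11 6 0 = true := by decide +kernel

theorem c13 : hallChk 13 sl13 6 0 = true := by decide +kernel

end Pool.Agent.Work.MP_66fdf3_co.Full
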