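import Pool.Agent.Work.MP_66fdf3_co.Full.N9
import Pool.Agent.Work.MP_66fdf3_co.Full.HallVa

/-!
Kernel evaluation of the marriage checks.
-/

namespace Pool.Agent.Work.MP_66fdf3_co.Full

open Finset

theorem c35_2 : hallChk 7 sl35 13 2 = true := hv_35 2 (by decide +kernel)

theorem c35_3 : hallChk 7 sl35 13 3 = true := hv_35 3 (by decide +kernel)

end Pool.Agent.Work.MP_66fdf3_co.Full
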