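import Pool.Agent.Work.MP_66fdf3_co.Full.N9
import Pool.Agent.Work.MP_66fdf3_co.Full.HallVa
import Pool.Agent.Work.MP_66fdf3_co.Full.HallVb

/-!
The five marriage conditions.
-/

namespace Pool.Agent.Work.MP_66fdf3_co.Full

open Finset

theorem hall5 : HallProp 5 sl5 :=
  hallProp_of_chk (D := 6) _ _ (by decide) (by decide) fun n hn => by
    simpa using allN_sound _ _ _ c5 hn

theorem hall7 : HallProp 7 sl7 :=
  hallProp_of_chk (D := 6) _ _ (by decide) (by decide) fun n hn => by
    simpa using allN_sound _ _ _ c7 hn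

theorem hall11 : HallProp 11 sl11 :=
  hallProp_of_chk (D := 6) _ _ (by decide) (by decide) fun n hn => by
    simpa using allN_sound _ _ _ c11 hn

theorem hall13 : HallProp 13 sl13 :=
  hallProp_of_chk (D := 6) _ _ (by decide) (by decide) fun n hn => by
    simpa using allN_sound _ _ _ c13 hn

theorem hall35 : HallProp 7 sl35 :=
  hallProp_of_chk (D := 15) _ _ (by decide) (by decide +kernel) fun n hn => by
    have h : n / 2 ^ 13 * 2 ^ 13 + n % 2 ^ 13 = n := Nat.div_add_mod' n _
    have hr : n % 2 ^ 13 < 2 ^ 13 := Nat.mod_lt _ (by norm_num)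
    have hq : n / 2 ^ 13 < 4 := by omega
    rw [← h]
    generalize n / 2 ^ 13 = q at hq
    interval_cases q
    · exact allN_sound _ _ _ c35_0 hr
    · exact allN_sound _ _ _ c35_1 hr
    · exact allN_sound _ _ _ c35_2 hr
    · exact allN_sound _ _ _ c35_3 hr

end Pool.Agent.Work.MP_66fdf3_co.Full
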