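import Mathlib

-- merged part: Pool.Agent.Work.MP_66fdf3_co.Full.SP5
section
-- merged part: Pool.Agent.Work.MP_66fdf3_co.Full.NumDefs
section
/-!
Numerical side of the balanced permutation theorem: definitions only.
-/

namespace Pool.Agent.Work.MP_66fdf3_co.Full

open Finset

/-- Truncated exponential sum. -/
def Gs {K : Type} [Field K] (m : ℕ) (a b : K) : K :=
  ∑ k ∈ range (m + 1), ((m : K) * a) ^ k * b ^ (m - k) / (k.factorial : K)

/-- `i! / q ^ i`. -/
def Cf {K : Type} [Field K] (i : ℕ) (q : K) : K := (i.factorial : K) / q ^ i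

/-- Normalised mass of the level `j` part of the indicator of injective tuples. -/
noncomputable def nuS (m : ℕ) : ℕ → ℝ
  | 0 => 1
  | 1 => 0
  | j + 2 => ((j : ℝ) + 1) * (2 * nuS m (j + 1) + nuS m j) / ((m : ℝ) - ((j : ℝ) + 1))

/-- Weighted derangement numbers: sum over derangements of `a ^ cycles`. -/
noncomputable def dS (a : ℝ) : ℕ → ℝ
  | 0 => 1
  | 1 => 0
  | j + 2 => ((j : ℝ) + 1) * (dS a (j + 1) + a * dS a j)

/-- Total of the sparse levels `1 .. J`, relative to the main term. -/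
noncomputable def sparseS (m J : ℕ) : ℝ :=
  3 / 4 * ∑ j ∈ Icc 1 J, nuS m j * dS ((m : ℝ) / 3) j / (j.factorial : ℝ)

noncomputable def Rho (M : ℕ) (τ y : ℝ) (N : ℕ) : ℝ :=
  ∏ i ∈ range N, min (1 / y) (((M : ℝ) - i) / ((M : ℝ) * τ))

/-- `Ψ` is an admissible growth factor for a class of weight `w` at excess `x`. -/
def PsiOK (M : ℕ) (τ y : ℝ) (w : ℕ) (x Ψ : ℝ) : Prop :=
  ∃ B η : ℝ, 0 ≤ η ∧ η * x < 1 ∧ (∀ N, N ≤ M → Rho M τ y N ≤ B * η ^ N) ∧
    B * ((1 - η * x)⁻¹) ^ w ≤ Ψ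

/-- A finite measure whose moments dominate the factorials up to `M`. -/
def MomDom (M : ℕ) {C : Type} [Fintype C] (p z : C → ℝ) : Prop :=
  (∀ c, 0 ≤ p c) ∧ (∀ c, 0 ≤ z c) ∧ ∀ n, n ≤ M → (n.factorial : ℝ) ≤ ∑ c, p c * z c ^ n

/-- Every admissible class `(μ, d)` contributes a factor at most `A ^ (μ ^ 2)`. -/
def EpsOK (M : ℕ) {C : Type} [Fintype C] (p z : C → ℝ) (τ y : ℝ) (wt : C → ℝ) (A : ℝ) : Prop :=
  ∀ μ d : ℕ, 1 ≤ μ → 4 ≤ d → 3 * μ ≤ d → 4 * μ ^ 2 + 1 ≤ M → μ * d + 1 ≤ M →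
    ∃ Ψ : C → ℝ, (∀ c, wt c ≠ 0 → PsiOK M τ y (μ * d) (max (√(z c / d) - τ) 0) (Ψ c)) ∧
      ∑ c, p c * wt c * Ψ c ^ 2 ≤ A ^ (μ ^ 2)

/-- Homogenised rook polynomial of a block of size `k`. -/
noncomputable def gk (k : ℕ) (u : ℝ) : ℝ :=
  ∑ i ∈ range (k + 1), (k.choose i : ℝ) ^ 2 * (i.factorial : ℝ) / (k : ℝ) ^ i * u ^ (k - i)

def Tang (α β : ℝ) : Prop := 0 < α ∧ 0 < β ∧ ∀ u, 0 ≤ u → gk 4 u ≤ (α * u + β) ^ 4

/-- Numerical certificate for the window of levels `j1 .. j2`. -/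
def NumWin (m j1 j2 : ℕ) (D : ℝ) : Prop :=
  0 ≤ D ∧ ∃ (C : Type) (_ : Fintype C) (p z : C → ℝ) (c α β : ℝ) (T : Type) (_ : Fintype T)
    (τ y coef A : T → ℝ) (wt : T → C → ℝ),
    MomDom m p z ∧ 0 ≤ c ∧ Tang α β ∧
    (∀ t, 0 < τ t ∧ 0 < y t ∧ 0 ≤ coef t ∧ 1 ≤ A t ∧ (∀ c, 0 ≤ wt t c) ∧
      EpsOK m p z (τ t) (y t) (wt t) (A t)) ∧
    (∀ (X : Type) [Fintype X] (f : X → C), ∃ t, 1 ≤ coef t * ∏ χ, wt t (f χ)) ∧
    Gs m β (α * c) / min α β * ∑ t, coef t *
      max (Cf (m - j1) ((1 + c) * (τ t + y t) ^ 2)) (Cf (m - j2) ((1 + c) * (τ t + y t) ^ 2)) *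
      Gs m (τ t) (y t) ^ 2 * A t ^ ((m - 1) / 4) / (m.factorial : ℝ) ≤ D ^ 2

/-- The numerical condition under which the main term wins. -/
def Good (m : ℕ) : Prop :=
  ∃ (J k : ℕ) (D1 D2 : ℝ), J < k ∧ k ≤ m ∧ NumWin m (J + 1) k D1 ∧
    ((k = m ∧ D2 = 0) ∨ (k < m ∧ NumWin m (k + 1) m D2)) ∧ sparseS m J + D1 + D2 < 1

end Pool.Agent.Work.MP_66fdf3_co.Full
end

-- merged part: Pool.Agent.Work.MP_66fdf3_co.Full.Defs
section
/-!
Definitions for the balanced permutation theorem (write-up: /team-store/h3_66fdf3_full.md).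
-/

namespace Pool.Agent.Work.MP_66fdf3_co.Full

open Finset Matrix

section Groups

variable (G : Type) {Ω : Type} [Group G] [MulAction G Ω]

/-- Balanced pair of permutations. -/
def BP (ω : Ω) : Prop :=
  ∃ σ π : Equiv.Perm Ω, ∀ b, ∃ g : G, g • ω = σ b ∧ g • b = π b

/-- The pairs `(x, y)` and `(x', y')` have the same colour. -/
def Col (x y x' y' : Ω) : Prop := ∃ g : G, g • x = x' ∧ g • y = y'

/-- Subdegree of the pair `(x, y)`. -/
noncomputable def kd (x y : Ω) : ℕ := Nat.card {z : Ω // Col G x y x z}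

/-- Matrices commuting with the action. -/
def Inv (M : Matrix Ω Ω ℂ) : Prop := ∀ (g : G) (x y : Ω), M (g • x) (g • y) = M x y

open Classical in
/-- Normalised orbital matrix. -/
noncomputable def Hr (ω b x y : Ω) : ℝ := if Col G ω b x y then ((kd G ω b : ℕ) : ℝ)⁻¹ else 0

open Classical in
/-- The suborbit of `x`. -/
noncomputable def blk [Fintype Ω] (ω x : Ω) : Finset Ω := univ.filter fun z => Col G ω x ω z

end Groups

/-- Primitive action of odd degree with even subdegrees. -/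
structure Prim0 (G Ω : Type) [Group G] [MulAction G Ω] : Prop where
  trans : ∀ x y : Ω, ∃ g : G, g • x = y
  max : ∀ (x : Ω) (H : Subgroup G), MulAction.stabilizer G x ≤ H → ∀ h ∈ H, h • x ≠ x → H = ⊤
  even : ∀ x y : Ω, x ≠ y → Even (kd G x y)
  odd : Odd (Nat.card Ω)

/-- The same, faithful. -/
structure Prim (G Ω : Type) [Group G] [MulAction G Ω] : Prop extends Prim0 G Ω where
  faith : ∀ g : G, (∀ x : Ω, g • x = x) → g = 1

/-- Number of occurrences of the letter `e` in the word `a`. -/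
def cnt {ι E : Type} [Fintype ι] [DecidableEq E] (a : ι → E) (e : E) : ℕ :=
  (univ.filter fun i => a i = e).card

noncomputable def ip {ι : Type} [Fintype ι] (v w : ι → ℂ) : ℂ := ∑ x, (starRingEnd ℂ) (v x) * w x

noncomputable def nsq {ι : Type} [Fintype ι] (v : ι → ℂ) : ℝ := ∑ x, ‖v x‖ ^ 2

section Tensor

variable {Ω : Type} [Fintype Ω] [DecidableEq Ω]

noncomputable def tens (K : Ω → Matrix Ω Ω ℂ) : Matrix (Ω → Ω) (Ω → Ω) ℂ :=
  Matrix.of fun x y => ∏ i, K i (x i) (y i)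

/-- Indicator of the bijections. -/
noncomputable def ub (Ω : Type) [Fintype Ω] [DecidableEq Ω] : (Ω → Ω) → ℂ :=
  fun x => if Function.Bijective x then 1 else 0

noncomputable def br (K : Ω → Matrix Ω Ω ℂ) : ℂ :=
  ∑ σ : Equiv.Perm Ω, ∑ π : Equiv.Perm Ω, ∏ i, K i (σ i) (π i)

/-- The matrix with all entries `1 / m`. -/
noncomputable def E0 (Ω : Type) [Fintype Ω] : Matrix Ω Ω ℂ :=
  Matrix.of fun _ _ => (Fintype.card Ω : ℂ)⁻¹

/-- `K` acting in the position `i`. -/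
noncomputable def lift (i : Ω) (K : Matrix Ω Ω ℂ) : Matrix (Ω → Ω) (Ω → Ω) ℂ :=
  tens fun j => if j = i then K else 1

/-- Functions that are injective on `S` and equal to `ω` outside. -/
def Inj (ω : Ω) (S : Finset Ω) : Finset (Ω → Ω) :=
  univ.filter fun f => (∀ i, i ∉ S → f i = ω) ∧ ∀ i ∈ S, ∀ j ∈ S, f i = f j → i = j

noncomputable def Dop (H : Ω → Matrix Ω Ω ℂ) (ω : Ω) (S : Finset Ω) :
    Matrix (Ω → Ω) (Ω → Ω) ℂ :=
  ∑ f ∈ Inj ω S, tens fun i => if i ∈ S then H (f i) else 1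

noncomputable def Gop (H : Ω → Matrix Ω Ω ℂ) (ω : Ω) (A S : Finset Ω) :
    Matrix (Ω → Ω) (Ω → Ω) ℂ :=
  ∑ b, ∑ f ∈ (Inj ω S).filter (fun f => ∀ i ∈ S, f i ≠ b),
    tens fun i => if i ∈ A then H b else if i ∈ S then H (f i) else 1

noncomputable def vS (S : Finset Ω) : (Ω → Ω) → ℂ :=
  tens (fun i => if i ∈ S then 1 - E0 Ω else E0 Ω) *ᵥ ub Ω

end Tensor

/-- Spectral data: matrix units `U a b` of the commutant, atoms `A`, classes `X`. -/
structure Spec (Ω A X : Type) [Fintype Ω] [DecidableEq Ω] [Fintype A] where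
  cl : A → X
  d : X → ℕ
  a0 : A
  U : A → A → Matrix Ω Ω ℂ
  surj : Function.Surjective cl
  cl0 : ∀ a, cl a = cl a0 → a = a0
  U0 : U a0 a0 = E0 Ω
  dpos : ∀ χ, 0 < d χ
  star : ∀ a b, (U a b)ᴴ = U b a
  zero : ∀ a b, cl a ≠ cl b → U a b = 0
  mul : ∀ a b c, cl a = cl b → U a b * U b c = U a c
  orth : ∀ a b c e, b ≠ c → U a b * U c e = 0
  sum : ∑ a, U a a = 1
  diag : ∀ a x, U a a x x = (d (cl a) : ℂ) / (Fintype.card Ω : ℂ)
  diag0 : ∀ a b x, a ≠ b → U a b x x = 0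

namespace Spec

variable {Ω A X : Type} [Fintype Ω] [DecidableEq Ω] [Fintype A] [DecidableEq A] [Fintype X]
  [DecidableEq X] (S : Spec Ω A X)

def x0 : X := S.cl S.a0

def mu (χ : X) : ℕ := cnt S.cl χ

noncomputable def Hh (ω b : Ω) : Matrix Ω Ω ℂ :=
  ∑ a, ∑ c, ((Fintype.card Ω : ℂ) / (S.d (S.cl a) : ℂ) * (starRingEnd ℂ) (S.U a c ω b)) • S.U a c

noncomputable def H (ω b : Ω) : Matrix Ω Ω ℂ := S.Hh ω b - E0 Ω

noncomputable def F (χ : X) : Matrix Ω Ω ℂ := ∑ a ∈ univ.filter (fun a => S.cl a = χ), S.U a a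

/-- The operator `m Λ`. -/
noncomputable def Lam : Matrix Ω Ω ℂ :=
  ∑ a ∈ univ.erase S.a0,
    ((Fintype.card Ω : ℂ) * (S.mu (S.cl a) : ℂ) / (S.d (S.cl a) : ℂ)) • S.U a a

noncomputable def Lev (ω : Ω) (T : Finset Ω) : ℂ :=
  ∑ f : Equiv.Perm Ω, br fun i => if i ∈ T then S.H ω (f i) else E0 Ω

noncomputable def Win (ω : Ω) (j1 j2 : ℕ) : ℂ :=
  ∑ T ∈ univ.filter (fun T : Finset Ω => j1 ≤ T.card ∧ T.card ≤ j2), S.Lev ω T

/-- Level of a class word. -/
def lev (w : Ω → X) : ℕ := (univ.filter fun i => w i ≠ S.x0).card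

/-- Mass of a class word. -/
noncomputable def Mw (w : Ω → X) : ℝ := (br fun i => S.F (w i)).re

noncomputable def Zf (t : X → ℝ) : ℝ := ∑ w : Ω → X, S.Mw w * ∏ i, t (w i)

noncomputable def cw (a : Ω → A) : ℝ := ∏ i, (Fintype.card Ω : ℝ) / (S.d (S.cl (a i)) : ℝ)

noncomputable def Aw (ω : Ω) (a b : Ω → A) : ℂ :=
  ∑ f : Equiv.Perm Ω, ∏ i, (starRingEnd ℂ) (S.U (a i) (b i) ω (f i))

noncomputable def Bw (a b : Ω → A) : ℂ := br fun i => S.U (a i) (b i)

/-- Hypotheses of the analytic theorem. -/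
structure Hyp (ω : Ω) {Bk : Type} [DecidableEq Bk] (bl : Ω → Bk) (R : Ω → Ω → Ω → ℝ) : Prop where
  eq : ∀ b x y, S.Hh ω b x y = (R b x y : ℂ)
  nonneg : ∀ b x y, 0 ≤ R b x y
  row : ∀ b x, ∑ y, R b x y = 1
  col : ∀ b y, ∑ x, R b x y = 1
  blk : ∀ x y, R y ω x = if bl x = bl y then ((cnt bl (bl y) : ℕ) : ℝ)⁻¹ else 0
  k1 : cnt bl (bl ω) = 1
  k4 : ∀ y, y ≠ ω → Even (cnt bl (bl y)) ∧ 4 ≤ cnt bl (bl y)
  d4 : ∀ χ, χ ≠ S.x0 → 4 ≤ S.d χ ∧ 3 * S.mu χ ≤ S.d χ

end Spec

/-- Main term. -/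
noncomputable def mainT (m : ℕ) : ℝ := (m.factorial : ℝ) ^ 3 / (m : ℝ) ^ m

/-- Coefficients of the permanent bound. -/
noncomputable def cN (m : ℕ) (τ y : ℝ) (N : ℕ) : ℝ :=
  if N ≤ m then
    ∑ i ∈ range (m - N + 1), ((m : ℝ) * τ) ^ (m - N - i) * y ^ i / ((m - N - i).factorial : ℝ)
  else 0

section Small

/-- Signed count of sequences of permutations with the pattern `a`. -/
def delta (V : Type) [Fintype V] [DecidableEq V] {s : ℕ} (a : Fin s → Fin s → ℕ) : ℤ :=
  ∑ σ : V → Equiv.Perm (Fin s),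
    if ∀ i j, cnt (fun v => σ v i) j = a i j then ∏ v, (Equiv.Perm.sign (σ v) : ℤ) else 0

open Classical in
/-- Sign of a latin colouring `u` of the typed set `T`, zero for other functions. -/
noncomputable def epsU {T V : Type} [Fintype V] [DecidableEq V] {s : ℕ} (I J : T → Fin s)
    (u : T → V) : ℤ :=
  if h : Function.Bijective (fun t => (I t, u t)) ∧ Function.Bijective (fun t => (J t, u t)) then
    (Equiv.Perm.sign ((Equiv.ofBijective _ h.1).symm.trans (Equiv.ofBijective _ h.2)) : ℤ)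
  else 0

variable {s : ℕ}

def cW (W : Fin s → Fin s → Bool) (i : Fin s) : ℕ := (univ.filter fun l => W i l = true).card

def ubW (p k : ℕ) (W : Fin s → Fin s → Bool) (u l : Fin s) : ℕ :=
  if W u l = true then p else min (p - 1) (min (k - p * cW W u) (k - p * cW W l))

def bdW (p k : ℕ) (W : Fin s → Fin s → Bool) (u v : Fin s) : ℕ :=
  min (p * (univ.filter fun l => W u l = true ∧ W v l = true).card + (k - p * cW W u) +
      (k - p * cW W v))
    (∑ l, min (ubW p k W u l) (ubW p k W v l))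

/-- The finite condition behind the marriage argument. -/
def HallProp (p : ℕ) (sl : List (Fin s × Fin s)) : Prop :=
  ∀ (W : Fin s → Fin s → Bool) (k : ℕ), (∀ i j, W i j = W j i) → Odd k → 5 ≤ k → k + 4 ≤ s * p →
    (∀ i, p * cW W i + (if W i i = true then 0 else 1) ≤ k) →
    (∀ i0, 0 < cW W i0 → ∀ Z : Finset (Fin s), Z.Nonempty → Z ≠ univ →
      ∃ u ∈ Z, ∃ v, v ∉ Z ∧ p * cW W i0 ≤ bdW p k W u v) →
    2 * (sl.filter fun q => W q.1 q.2).length + 1 ≤ k

/-- Pattern of a slot list, with the fixed point in the cell `(i0, i0)`. -/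
def patOf (i0 : Fin s) (sl : List (Fin s × Fin s)) (i j : Fin s) : ℕ :=
  (if i = i0 ∧ j = i0 then 1 else 0) + sl.count (i, j) + sl.count (j, i)

def sl5 : List (Fin 3 × Fin 3) :=
  [(0, 0), (0, 1), (0, 1), (1, 2), (1, 2), (1, 2), (2, 2)]
def sl7 : List (Fin 3 × Fin 3) :=
  [(0, 1), (0, 1), (0, 1), (0, 2), (0, 2), (0, 2), (1, 2), (1, 2), (1, 2), (1, 2)]
def sl11 : List (Fin 3 × Fin 3) :=
  [(0, 1), (0, 1), (0, 1), (0, 1), (0, 1), (0, 1), (0, 2), (0, 2), (0, 2), (0, 2), (1, 1),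
   (1, 2), (1, 2), (1, 2), (2, 2), (2, 2)]
def sl13 : List (Fin 3 × Fin 3) :=
  [(0, 0), (0, 1), (0, 1), (0, 1), (0, 1), (0, 1), (0, 1), (0, 1), (0, 2), (0, 2), (0, 2),
   (1, 2), (1, 2), (1, 2), (1, 2), (1, 2), (1, 2), (2, 2), (2, 2)]
def sl35 : List (Fin 5 × Fin 5) :=
  [(0, 0), (0, 1), (0, 2), (0, 3), (0, 4), (1, 2), (1, 2), (1, 3), (1, 3), (1, 4), (1, 4),
   (2, 3), (2, 3), (2, 4), (2, 4), (3, 4), (3, 4)]

end Small

end Pool.Agent.Work.MP_66fdf3_co.Full
end

-- merged part: Pool.Agent.Work.MP_66fdf3_co.Full.FC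
section
/-!
Counting lemmas.
`card_equiv_fib`: if the set is nonempty, pick `e0`; `e ↦ e0.symm.trans e` (or similar) is a bijection
onto the permutations `g` with `f ∘ g = f`, counted by `DomMulAct.stabilizer_card`
(`Fintype.card {g : Perm α // f ∘ g = f} = ∏ i, (Fintype.card {a // f a = i})!`). An equivalence exists
iff all fibres have the same size (`Equiv.ofFiberEquiv`, `Fintype.equivOfCardEq`).
`card_perm_ext`: extend `f` on `S` to one permutation (`Equiv.extendSubtype` or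
`Finset.exists_equiv_extend_of_card_eq`), then count permutations fixing `S` pointwise
(`Equiv.Perm.subtypeEquivSubtypePerm`), or use `card_equiv_fib` with labels in `Option Ω`.
`sum_perm_eq_inj`: `Finset.sum_fiberwise_of_maps_to` along `σ ↦ fun i => if i ∈ S then σ i else ω`.
-/

namespace Pool.Agent.Work.MP_66fdf3_co.Full

open Finset Matrix

theorem cnt_eq_card_FC {ι E : Type} [Fintype ι] [DecidableEq E] (a : ι → E) (e : E) :
    cnt a e = Fintype.card {i // a i = e} := by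
  unfold cnt
  rw [Fintype.card_subtype]

theorem exists_equiv_fib {α β K : Type} [Fintype α] [Fintype β] [DecidableEq K]
    (f : α → K) (g : β → K) (h : ∀ k, cnt f k = cnt g k) :
    ∃ e : α ≃ β, ∀ a, g (e a) = f a := by
  have h' : ∀ k, Fintype.card {a // f a = k} = Fintype.card {b // g b = k} := fun k => by
    rw [← cnt_eq_card_FC, ← cnt_eq_card_FC, h k]
  refine ⟨Equiv.ofFiberEquiv (f := f) (g := g) fun k => Fintype.equivOfCardEq (h' k), fun a => ?_⟩
  exact Equiv.ofFiberEquiv_map _ a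

theorem cnt_eq_of_equiv_FC {α β K : Type} [Fintype α] [Fintype β] [DecidableEq K]
    (f : α → K) (g : β → K) (e : α ≃ β) (he : ∀ a, g (e a) = f a) (k : K) :
    cnt f k = cnt g k := by
  unfold cnt
  refine Finset.card_bij (fun a _ => e a) ?_ ?_ ?_
  · intro a ha
    simp only [mem_filter, mem_univ, true_and] at ha ⊢
    rw [he, ha]
  · intro a _ b _ hab
    exact e.injective hab
  · intro b hb
    simp only [mem_filter, mem_univ, true_and] at hb
    refine ⟨e.symm b, ?_, by simp⟩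
    simp only [mem_filter, mem_univ, true_and]
    rw [← he, Equiv.apply_symm_apply, hb]

theorem card_equiv_fib {α β K : Type} [Fintype α] [DecidableEq α] [Fintype β] [DecidableEq β]
    [Fintype K] [DecidableEq K] (f : α → K) (g : β → K) :
    (univ.filter fun e : α ≃ β => ∀ a, g (e a) = f a).card =
      if ∀ k, cnt f k = cnt g k then ∏ k, (cnt f k).factorial else 0 := by
  split_ifs with h
  · obtain ⟨e0, he0⟩ := exists_equiv_fib f g h
    have h1 := DomMulAct.stabilizer_card (α := α) (ι := K) f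
    rw [Fintype.card_subtype] at h1
    simp only [← cnt_eq_card_FC f] at h1
    rw [← h1]
    refine Finset.card_bij (fun e _ => e.trans e0.symm) ?_ ?_ ?_
    · intro e he
      simp only [mem_filter, mem_univ, true_and] at he ⊢
      funext a
      simp only [Function.comp, Equiv.trans_apply]
      rw [← he0, Equiv.apply_symm_apply, he]
    · intro e _ e' _ hee
      ext a
      have := congrArg (fun q : α ≃ α => e0 (q a)) hee
      simpa using this
    · intro q hq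
      simp only [mem_filter, mem_univ, true_and] at hq
      refine ⟨q.trans e0, ?_, ?_⟩
      · simp only [mem_filter, mem_univ, true_and, Equiv.trans_apply]
        intro a
        rw [he0]
        exact congrFun hq a
      · ext a
        simp
  · rw [Finset.card_eq_zero, Finset.filter_eq_empty_iff]
    intro e _ he
    exact h (cnt_eq_of_equiv_FC f g e he)

theorem cnt_le {ι E : Type} [Fintype ι] [DecidableEq E] (a : ι → E) (e : E) :
    cnt a e ≤ Fintype.card ι := by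
  unfold cnt
  exact (Finset.card_filter_le _ _).trans (by simp)

theorem sum_cnt {ι E : Type} [Fintype ι] [Fintype E] [DecidableEq E] (a : ι → E) :
    ∑ e, cnt a e = Fintype.card ι := by
  unfold cnt
  rw [← Finset.card_eq_sum_card_fiberwise (f := a) (s := univ) (t := univ) (by simp)]
  simp

theorem prod_eq_prod_cnt {ι E R : Type} [Fintype ι] [Fintype E] [DecidableEq E] [CommMonoid R]
    (a : ι → E) (t : E → R) : ∏ i, t (a i) = ∏ e, t e ^ cnt a e := by
  unfold cnt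
  rw [← Finset.prod_fiberwise (s := univ) (g := a) (f := fun i => t (a i))]
  refine Finset.prod_congr rfl fun e _ => ?_
  rw [Finset.prod_congr rfl (g := fun _ => t e), Finset.prod_const]
  intro i hi
  rw [(mem_filter.1 hi).2]

theorem sum_eq_sum_cnt {ι E : Type} [Fintype ι] [Fintype E] [DecidableEq E]
    (a : ι → E) (t : E → ℂ) : ∑ i, t (a i) = ∑ e, (cnt a e : ℂ) * t e := by
  unfold cnt
  rw [← Finset.sum_fiberwise (s := univ) (g := a) (f := fun i => t (a i))]
  refine Finset.sum_congr rfl fun e _ => ?_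
  rw [Finset.sum_congr rfl (g := fun _ => t e), Finset.sum_const, nsmul_eq_mul]
  intro i hi
  rw [(mem_filter.1 hi).2]

variable {Ω : Type} [Fintype Ω] [DecidableEq Ω]

theorem card_fix_FC (S : Finset Ω) :
    (univ.filter fun σ : Equiv.Perm Ω => ∀ i ∈ S, σ i = i).card =
      (Fintype.card Ω - S.card).factorial := by
  have h1 : Fintype.card {f : Equiv.Perm Ω // ∀ a, ¬ (a ∉ S) → f a = a} =
      Fintype.card (Equiv.Perm {a // a ∉ S}) :=
    (Fintype.card_congr (Equiv.Perm.subtypeEquivSubtypePerm (fun a => a ∉ S))).symm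
  rw [Fintype.card_perm, Fintype.card_subtype_compl, Fintype.card_coe, Fintype.card_subtype] at h1
  rw [← h1]
  congr 1
  ext σ
  simp

theorem card_perm_ext (S : Finset Ω) (f : Ω → Ω) (hf : ∀ i ∈ S, ∀ j ∈ S, f i = f j → i = j) :
    (univ.filter fun σ : Equiv.Perm Ω => ∀ i ∈ S, σ i = f i).card =
      (Fintype.card Ω - S.card).factorial := by
  obtain ⟨g, hg⟩ := Finset.exists_equiv_extend_of_card_eq (α := Ω) (β := Ω) (t := univ) (s := S)
    (f := f) (by simp) (by simp) (fun i hi j hj h => hf i hi j hj h)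
  let e0 : Equiv.Perm Ω := g.trans (Equiv.subtypeUnivEquiv (fun x => mem_univ x))
  have he0 : ∀ i ∈ S, e0 i = f i := fun i hi => hg i hi
  rw [← card_fix_FC S]
  refine Finset.card_bij (fun σ _ => e0⁻¹ * σ) ?_ ?_ ?_
  · intro σ hσ
    simp only [mem_filter, mem_univ, true_and] at hσ ⊢
    intro i hi
    rw [Equiv.Perm.mul_apply, hσ i hi, ← he0 i hi]
    simp
  · intro σ _ τ _ h
    exact mul_left_cancel h
  · intro τ hτ
    simp only [mem_filter, mem_univ, true_and] at hτ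
    refine ⟨e0 * τ, ?_, by simp⟩
    simp only [mem_filter, mem_univ, true_and]
    intro i hi
    rw [Equiv.Perm.mul_apply, hτ i hi, he0 i hi]

theorem sum_perm_eq_inj {R : Type} [AddCommMonoid R] (ω : Ω) (S : Finset Ω) (φ : (Ω → Ω) → R)
    (hφ : ∀ f g : Ω → Ω, (∀ i ∈ S, f i = g i) → φ f = φ g) :
    ∑ σ : Equiv.Perm Ω, φ σ = (Fintype.card Ω - S.card).factorial • ∑ f ∈ Inj ω S, φ f := by
  have hmaps : ∀ σ ∈ (univ : Finset (Equiv.Perm Ω)),
      (fun i => if i ∈ S then σ i else ω) ∈ Inj ω S := by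
    intro σ _
    simp only [Inj, mem_filter, mem_univ, true_and]
    refine ⟨fun i hi => by simp [hi], fun i hi j hj h => ?_⟩
    simp only [hi, hj, if_true] at h
    exact σ.injective h
  rw [← Finset.sum_fiberwise_of_maps_to hmaps, Finset.smul_sum]
  refine Finset.sum_congr rfl fun f hf => ?_
  simp only [Inj, mem_filter, mem_univ, true_and] at hf
  have hfil : (univ.filter fun σ : Equiv.Perm Ω => (fun i => if i ∈ S then σ i else ω) = f) =
      univ.filter fun σ : Equiv.Perm Ω => ∀ i ∈ S, σ i = f i := by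
    ext σ
    simp only [mem_filter, mem_univ, true_and]
    constructor
    · intro h i hi
      have := congrFun h i
      simpa [hi] using this
    · intro h
      funext i
      by_cases hi : i ∈ S
      · simp [hi, h i hi]
      · simp [hi, hf.1 i hi]
  rw [hfil, Finset.sum_congr rfl (g := fun _ => φ f), Finset.sum_const, card_perm_ext S f hf.2]
  intro σ hσ
  exact hφ _ _ (mem_filter.1 hσ).2

end Pool.Agent.Work.MP_66fdf3_co.Full
end

-- merged part: Pool.Agent.Work.MP_66fdf3_co.Full.G1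
section
/-!
Basic facts on colours, subdegrees and primitive actions.
`kd_mul`: `{z // Col G x y x z}` is the orbit of `y` under `stabilizer G x`; orbit-stabiliser
(`MulAction.card_orbit_mul_card_stabilizer_eq_card_group` or `MulAction.index_stabilizer`).
`kd_symm`: `kd_mul` twice and `card_stab_eq`.
`Prim0.conn`: let `C` be the component of `a` (`Relation.ReflTransGen`); `{g | g • a ∈ C}` is a subgroup
containing the stabiliser of `a` and an element moving `a`, so it is `⊤` and `C` is everything; a path from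
a point of `Z` to a point outside crosses the boundary.
`Prim0.normal_trans`: `stabilizer x ⊔ N`, `Subgroup.mem_sup_of_normal_right` or `conn` with
`r x y := ∃ n ∈ N, n • x = y`.
`Prim0.fixed_vec`: the `g` with `∀ z, w (g • z) = w z` form a subgroup.
-/

namespace Pool.Agent.Work.MP_66fdf3_co.Full

open Finset Matrix

variable {G Ω : Type} [Group G] [MulAction G Ω]

theorem Col.refl (x y : Ω) : Col G x y x y := ⟨1, one_smul _ _, one_smul _ _⟩

theorem Col.symm {x y x' y' : Ω} (h : Col G x y x' y') : Col G x' y' x y := by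
  obtain ⟨g, h1, h2⟩ := h
  exact ⟨g⁻¹, by rw [← h1, inv_smul_smul], by rw [← h2, inv_smul_smul]⟩

theorem Col.trans {x y x' y' x'' y'' : Ω} (h : Col G x y x' y') (h' : Col G x' y' x'' y'') :
    Col G x y x'' y'' := by
  obtain ⟨g, h1, h2⟩ := h
  obtain ⟨k, h3, h4⟩ := h'
  exact ⟨k * g, by rw [mul_smul, h1, h3], by rw [mul_smul, h2, h4]⟩

theorem Col.flip {x y x' y' : Ω} (h : Col G x y x' y') : Col G y x y' x' := by
  obtain ⟨g, h1, h2⟩ := h
  exact ⟨g, h2, h1⟩

theorem Col.smul (g : G) (x y : Ω) : Col G x y (g • x) (g • y) := ⟨g, rfl, rfl⟩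

theorem Col.eq_iff {x y x' y' : Ω} (h : Col G x y x' y') : x = y ↔ x' = y' := by
  obtain ⟨g, h1, h2⟩ := h
  rw [← h1, ← h2, smul_left_cancel_iff]

theorem kd_congr {x y x' y' : Ω} (h : Col G x y x' y') : kd G x y = kd G x' y' := by
  obtain ⟨g, h1, h2⟩ := h
  have h3 : Col G x y x' y' := ⟨g, h1, h2⟩
  refine Nat.card_congr ⟨fun z => ⟨g • z.1, h3.symm.trans (z.2.trans ⟨g, h1, rfl⟩)⟩,
    fun z => ⟨g⁻¹ • z.1, h3.trans (z.2.trans ⟨g⁻¹, by rw [← h1, inv_smul_smul], rfl⟩)⟩, ?_, ?_⟩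
  · intro z
    exact Subtype.ext (inv_smul_smul _ _)
  · intro z
    exact Subtype.ext (smul_inv_smul _ _)

theorem kd_self (x : Ω) : kd G x x = 1 := by
  rw [kd, Nat.card_eq_one_iff_exists]
  exact ⟨⟨x, Col.refl x x⟩, fun z => Subtype.ext ((z.2.eq_iff).1 rfl).symm⟩

theorem kd_pos [Finite Ω] (x y : Ω) : 0 < kd G x y := by
  have : Nonempty {z : Ω // Col G x y x z} := ⟨⟨y, Col.refl x y⟩⟩
  exact Nat.card_pos

theorem kd_eq_orbit (x y : Ω) :
    kd G x y = Nat.card (MulAction.orbit (MulAction.stabilizer G x) y) := by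
  refine Nat.card_congr (Equiv.subtypeEquivRight fun z => ?_)
  constructor
  · rintro ⟨g, h1, h2⟩
    exact ⟨⟨g, h1⟩, h2⟩
  · rintro ⟨g, h2⟩
    exact ⟨g.1, g.2, h2⟩

theorem kd_mul [Finite G] (x y : Ω) :
    kd G x y * Nat.card (MulAction.stabilizer G x ⊓ MulAction.stabilizer G y : Subgroup G) =
      Nat.card (MulAction.stabilizer G x) := by
  rw [kd_eq_orbit, ← Subgroup.index_mul_card (MulAction.stabilizer (MulAction.stabilizer G x) y),
    MulAction.index_stabilizer, Nat.card_coe_set_eq]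
  congr 1
  refine Nat.card_congr ⟨fun g => ⟨⟨g.1, g.2.1⟩, g.2.2⟩, fun g => ⟨g.1.1, g.1.2, g.2⟩, ?_, ?_⟩
  · intro g
    rfl
  · intro g
    rfl

theorem card_stab_mul [Finite G] (ht : ∀ x y : Ω, ∃ g : G, g • x = y) (x : Ω) :
    Nat.card Ω * Nat.card (MulAction.stabilizer G x) = Nat.card G := by
  have h1 : MulAction.orbit G x = Set.univ := Set.eq_univ_of_forall fun y => ht x y
  rw [← Subgroup.index_mul_card (MulAction.stabilizer G x), MulAction.index_stabilizer, h1,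
    Set.ncard_univ]

theorem card_stab_eq [Finite G] (ht : ∀ x y : Ω, ∃ g : G, g • x = y) (x y : Ω) :
    Nat.card (MulAction.stabilizer G x) = Nat.card (MulAction.stabilizer G y) := by
  have h1 := card_stab_mul ht x
  have h2 := card_stab_mul ht y
  have h3 : 0 < Nat.card G := Nat.card_pos
  have h4 : 0 < Nat.card Ω := by
    rcases Nat.eq_zero_or_pos (Nat.card Ω) with h | h
    · rw [h, zero_mul] at h1
      omega
    · exact h
  exact Nat.eq_of_mul_eq_mul_left h4 (h1.trans h2.symm)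

theorem kd_symm [Finite G] (ht : ∀ x y : Ω, ∃ g : G, g • x = y) (x y : Ω) :
    kd G x y = kd G y x := by
  have h1 := kd_mul (G := G) x y
  have h2 := kd_mul (G := G) y x
  rw [inf_comm, ← card_stab_eq ht x y, ← h1] at h2
  exact (Nat.eq_of_mul_eq_mul_right Nat.card_pos h2).symm

open Classical in
theorem card_col [Fintype Ω] (ht : ∀ x y : Ω, ∃ g : G, g • x = y) (x y x' : Ω) :
    (univ.filter fun z => Col G x y x' z).card = kd G x y := by
  obtain ⟨g, rfl⟩ := ht x x'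
  rw [kd_congr (Col.smul g x y), kd, Nat.card_eq_fintype_card, Fintype.card_subtype]
  congr 1
  ext z
  simp only [mem_filter, mem_univ, true_and]
  exact ⟨fun h => (Col.smul g x y).symm.trans h, fun h => (Col.smul g x y).trans h⟩

open Classical in
theorem card_col' [Finite G] [Fintype Ω] (ht : ∀ x y : Ω, ∃ g : G, g • x = y) (x y y' : Ω) :
    (univ.filter fun z => Col G x y z y').card = kd G x y := by
  rw [kd_symm ht x y, ← card_col ht y x y']
  congr 1
  ext z
  simp only [mem_filter, mem_univ, true_and]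
  exact ⟨Col.flip, Col.flip⟩

theorem blk_eq_iff [Fintype Ω] (ω x y : Ω) : blk G ω x = blk G ω y ↔ Col G ω y ω x := by
  classical
  constructor
  · intro h
    have h1 : x ∈ blk G ω x := by
      simp only [blk, mem_filter, mem_univ, true_and]
      exact Col.refl ω x
    rw [h] at h1
    simpa only [blk, mem_filter, mem_univ, true_and] using h1
  · intro h
    ext z
    simp only [blk, mem_filter, mem_univ, true_and]
    exact ⟨fun h1 => h.trans h1, fun h1 => h.symm.trans h1⟩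

theorem cnt_blk [Fintype Ω] [DecidableEq Ω] (ω y : Ω) :
    cnt (blk G ω) (blk G ω y) = kd G ω y := by
  classical
  rw [cnt, kd, Nat.card_eq_fintype_card, Fintype.card_subtype]
  congr 1
  ext z
  simp only [mem_filter, mem_univ, true_and]
  exact blk_eq_iff ω z y

theorem BP.of_subgroup (H : Subgroup G) {ω : Ω} (h : BP H ω) : BP G ω := by
  obtain ⟨σ, π, h⟩ := h
  refine ⟨σ, π, fun b => ?_⟩
  obtain ⟨g, h1, h2⟩ := h b
  exact ⟨g.1, h1, h2⟩

theorem Prim0.move [Finite Ω] (h : Prim0 G Ω) {x y : Ω} (hne : x ≠ y) :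
    ∃ g : G, g • x = x ∧ g • y ≠ y := by
  by_contra hc
  push Not at hc
  have h1 : kd G x y = 1 := by
    rw [kd, Nat.card_eq_one_iff_exists]
    refine ⟨⟨y, Col.refl x y⟩, fun z => Subtype.ext ?_⟩
    obtain ⟨g, h2, h3⟩ := z.2
    rw [← h3]
    exact hc g h2
  have h2 := h.even x y hne
  rw [h1] at h2
  exact Nat.not_even_one h2

theorem Prim0.conn (h : Prim0 G Ω) (r : Ω → Ω → Prop) (hs : ∀ x y, r x y → r y x)
    (hi : ∀ (g : G) x y, r x y → r (g • x) (g • y)) {a b : Ω} (hab : a ≠ b) (hr : r a b)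
    (Z : Set Ω) {u0 v0 : Ω} (hu : u0 ∈ Z) (hv : v0 ∉ Z) : ∃ u ∈ Z, ∃ v, v ∉ Z ∧ r u v := by
  have hsym : ∀ x y, Relation.ReflTransGen r x y → Relation.ReflTransGen r y x := by
    intro x y hxy
    induction hxy with
    | refl => exact Relation.ReflTransGen.refl
    | tail _ h2 ih => exact Relation.ReflTransGen.head (hs _ _ h2) ih
  have hinv : ∀ (g : G) x y, Relation.ReflTransGen r x y →
      Relation.ReflTransGen r (g • x) (g • y) := by
    intro g x y hxy
    induction hxy with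
    | refl => exact Relation.ReflTransGen.refl
    | tail _ h2 ih => exact ih.tail (hi g _ _ h2)
  let H : Subgroup G :=
    { carrier := {g | Relation.ReflTransGen r a (g • a)}
      one_mem' := by
        show Relation.ReflTransGen r a ((1 : G) • a)
        rw [one_smul]
      mul_mem' := by
        intro g k hg hk
        show Relation.ReflTransGen r a ((g * k) • a)
        rw [mul_smul]
        exact Relation.ReflTransGen.trans hg (hinv g _ _ hk)
      inv_mem' := by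
        intro g hg
        have h1 := hinv g⁻¹ _ _ hg
        rw [inv_smul_smul] at h1
        exact hsym _ _ h1 }
  obtain ⟨k, hk⟩ := h.trans a b
  have hH : H = ⊤ := by
    refine h.max a H (fun g hg => ?_) k ?_ (by rw [hk]; exact hab.symm)
    · show Relation.ReflTransGen r a (g • a)
      rw [MulAction.mem_stabilizer_iff.mp hg]
    · show Relation.ReflTransGen r a (k • a)
      rw [hk]
      exact Relation.ReflTransGen.single hr
  have hall : ∀ y, Relation.ReflTransGen r a y := by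
    intro y
    obtain ⟨g, rfl⟩ := h.trans a y
    have : g ∈ H := by
      rw [hH]
      exact Subgroup.mem_top g
    exact this
  have huv : Relation.ReflTransGen r u0 v0 := (hsym _ _ (hall u0)).trans (hall v0)
  by_contra hc
  push Not at hc
  have hZ : ∀ y, Relation.ReflTransGen r u0 y → y ∈ Z := by
    intro y hy
    induction hy with
    | refl => exact hu
    | tail _ h2 ih =>
      by_contra h3
      exact hc _ ih _ h3 h2
  exact hv (hZ v0 huv)

theorem Prim0.normal_trans (h : Prim0 G Ω) (N : Subgroup G) [N.Normal] :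
    (∀ n ∈ N, ∀ x : Ω, n • x = x) ∨ ∀ x y : Ω, ∃ n ∈ N, n • x = y := by
  by_cases hc : ∀ n ∈ N, ∀ x : Ω, n • x = x
  · exact Or.inl hc
  · right
    push Not at hc
    obtain ⟨n, hn, a, ha⟩ := hc
    intro x y
    by_contra hxy
    obtain ⟨u, ⟨n1, hn1, hu⟩, v, hv, n2, hn2, huv⟩ :=
      h.conn (fun x y => ∃ n ∈ N, n • x = y)
        (by
          rintro p q ⟨m, hm, rfl⟩
          exact ⟨m⁻¹, N.inv_mem hm, inv_smul_smul _ _⟩)
        (by
          rintro g p q ⟨m, hm, rfl⟩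
          exact ⟨g * m * g⁻¹, Subgroup.Normal.conj_mem inferInstance m hm g, by
            rw [mul_smul, mul_smul, inv_smul_smul]⟩)
        ha.symm ⟨n, hn, rfl⟩ {z | ∃ n ∈ N, n • x = z} (u0 := x) (v0 := y)
        ⟨1, N.one_mem, one_smul _ _⟩ hxy
    exact hv ⟨n2 * n1, N.mul_mem hn2 hn1, by rw [mul_smul, hu, huv]⟩

theorem Prim0.fixed_vec (h : Prim0 G Ω) (w : Ω → ℂ) (x : Ω)
    (h1 : ∀ g : G, g • x = x → ∀ z, w (g • z) = w z) {k : G} (hk : k • x ≠ x)
    (h2 : ∀ z, w (k • z) = w z) (z z' : Ω) : w z = w z' := by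
  let H : Subgroup G :=
    { carrier := {g | ∀ z, w (g • z) = w z}
      one_mem' := fun z => by rw [one_smul]
      mul_mem' := by
        intro g m hg hm z
        rw [mul_smul, hg, hm]
      inv_mem' := by
        intro g hg z
        rw [← hg (g⁻¹ • z), smul_inv_smul] }
  have hH : H = ⊤ := h.max x H (fun g hg => h1 g hg) k h2 hk
  obtain ⟨g, rfl⟩ := h.trans z z'
  have : g ∈ H := by
    rw [hH]
    exact Subgroup.mem_top g
  exact (this z).symm

end Pool.Agent.Work.MP_66fdf3_co.Full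
end

-- merged part: Pool.Agent.Work.MP_66fdf3_co.Full.G2
section
/-!
Easy cases.
`hall_regular`: `Finset.all_card_le_biUnion_card_iff_exists_injective` with
`t y = image g (filter (f · = y))`; double counting `r * |s| = |f⁻¹ s| ≤ |g⁻¹ (N s)| = r * |N s|`.
`bp_of_odd`: `X = Q`, `f q = q • ω`, `g q = (q * q) • ω`; all fibres of `f` have the size of the
stabiliser, squaring is a bijection (`powCoprime` or `Function.Injective` via
`pow_left_injective`-type lemma `Nat.Coprime.pow_left_bijective`).  Take `σ = 1`, `π b = g (s b)`.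
`bp_of_frob`: if the stabiliser of `ω` in `H` has odd order then `H` has odd order (`card_stab_mul`,
`bp_of_odd`).  Otherwise Cauchy (`exists_prime_orderOf_dvd_card'`) gives an involution, conjugates give
involutions `t b ∈ H` fixing `b`; `b ↦ t b • ω` is injective (section 1b of the write-up); take
`g b = t ω * t b`.
-/

namespace Pool.Agent.Work.MP_66fdf3_co.Full

open Finset Matrix

variable {G Ω : Type} [Group G] [Finite G] [MulAction G Ω] [Fintype Ω] [DecidableEq Ω]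

theorem hall_regular {X Y : Type} [Fintype X] [Fintype Y] [DecidableEq Y] (f g : X → Y) {r : ℕ}
    (hr : 0 < r) (hf : ∀ y, cnt f y = r) (hg : ∀ y, cnt g y = r) :
    ∃ s : Y → X, (∀ y, f (s y) = y) ∧ Function.Injective fun y => g (s y) := by
  classical
  have key : ∀ (k : X → Y), (∀ y, cnt k y = r) → ∀ s : Finset Y,
      (univ.filter fun x => k x ∈ s).card = s.card * r := by
    intro k hk s
    rw [Finset.card_eq_sum_card_fiberwise (f := k) (s := univ.filter fun x => k x ∈ s) (t := s)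
      (fun x hx => mem_coe.2 (mem_filter.1 (mem_coe.1 hx)).2)]
    rw [← smul_eq_mul, ← Finset.sum_const]
    refine sum_congr rfl fun y hy => ?_
    rw [← hk y, cnt, filter_filter]
    congr 1
    ext x
    simp only [mem_filter, mem_univ, true_and]
    exact ⟨fun h => h.2, fun h => ⟨h ▸ hy, h⟩⟩
  have hall : ∀ s : Finset Y,
      s.card ≤ (s.biUnion fun y => (univ.filter fun x => f x = y).image g).card := by
    intro s
    refine Nat.le_of_mul_le_mul_right ?_ hr
    rw [← key f hf, ← key g hg]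
    refine card_le_card fun x hx => ?_
    rw [mem_filter] at hx ⊢
    exact ⟨mem_univ _, mem_biUnion.2 ⟨f x, hx.2,
      mem_image_of_mem g (mem_filter.2 ⟨mem_univ _, rfl⟩)⟩⟩
  obtain ⟨φ, hφ, hm⟩ := (Finset.all_card_le_biUnion_card_iff_exists_injective _).1 hall
  choose s hs hs' using fun y => mem_image.1 (hm y)
  refine ⟨s, fun y => (mem_filter.1 (hs y)).2, ?_⟩
  have : (fun y => g (s y)) = φ := funext hs'
  rwa [this]

theorem bp_of_odd (ω : Ω) (Q : Subgroup G) (hQ : Odd (Nat.card Q))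
    (ht : ∀ x y : Ω, ∃ q ∈ Q, q • x = y) : BP G ω := by
  classical
  have : Fintype Q := Fintype.ofFinite Q
  have hf : ∀ y, cnt (fun q : Q => (q : G) • ω) y = cnt (fun q : Q => (q : G) • ω) ω := by
    intro y
    obtain ⟨q0, hq0, he⟩ := ht y ω
    refine Finset.card_equiv (Equiv.mulLeft (⟨q0, hq0⟩ : Q)) fun q => ?_
    simp only [mem_filter, mem_univ, true_and, Equiv.coe_mulLeft, Subgroup.coe_mul, mul_smul]
    conv_rhs => rhs; rw [← he]
    rw [smul_left_cancel_iff]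
  have hr : 0 < cnt (fun q : Q => (q : G) • ω) ω :=
    card_pos.2 ⟨1, mem_filter.2 ⟨mem_univ _, by simp⟩⟩
  have hb : Function.Bijective fun q : Q => q ^ 2 :=
    Nat.Coprime.pow_left_bijective (Nat.coprime_two_right.2 hQ)
  have hg : ∀ y, cnt (fun q : Q => ((q ^ 2 : Q) : G) • ω) y =
      cnt (fun q : Q => (q : G) • ω) ω := by
    intro y
    rw [← hf y]
    exact Finset.card_bijective _ hb fun q => by simp only [mem_filter, mem_univ, true_and]
  obtain ⟨s, h1, h2⟩ := hall_regular _ _ hr hf hg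
  refine ⟨1, Equiv.ofBijective _ (Finite.injective_iff_bijective.1 h2), fun b => ⟨s b, h1 b, ?_⟩⟩
  rw [Equiv.ofBijective_apply, sq, Subgroup.coe_mul, mul_smul, h1 b]

theorem bp_of_frob (ω : Ω) (H : Subgroup G) (ht : ∀ x y : Ω, ∃ q ∈ H, q • x = y)
    (h2 : ∀ h ∈ H, ∀ x y : Ω, x ≠ y → h • x = x → h • y = y → h = 1)
    (ho : Odd (Nat.card Ω)) : BP G ω := by
  rcases Nat.even_or_odd (Nat.card (MulAction.stabilizer H ω)) with he | he
  · have : Fact (Nat.Prime 2) := ⟨Nat.prime_two⟩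
    obtain ⟨t0, ht0⟩ := exists_prime_orderOf_dvd_card' 2 he.two_dvd
    have a1 : ((t0 : H) : G) • ω = ω := t0.2
    have a2 : ((t0 : H) : G) * ((t0 : H) : G) = 1 := by
      have := pow_orderOf_eq_one t0
      rw [ht0, sq] at this
      exact congrArg (fun x : MulAction.stabilizer H ω => ((x : H) : G)) this
    have a3 : ((t0 : H) : G) ≠ 1 := by
      intro h
      have : t0 = 1 := Subtype.ext (Subtype.ext h)
      rw [this, orderOf_one] at ht0
      exact absurd ht0 (by norm_num)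
    have ex : ∀ b : Ω, ∃ t ∈ H, t • b = b ∧ t * t = 1 ∧ t ≠ 1 := by
      intro b
      obtain ⟨q, hq, hb⟩ := ht ω b
      refine ⟨q * ((t0 : H) : G) * q⁻¹, H.mul_mem (H.mul_mem hq (t0 : H).2) (H.inv_mem hq),
        ?_, ?_, ?_⟩
      · rw [← hb, mul_smul, inv_smul_smul, mul_smul, a1]
      · rw [conj_mul, a2, mul_one, mul_inv_cancel]
      · intro h
        exact a3 (by simpa using h)
    choose t tH tb tt tn using ex
    have hinj : Function.Injective fun b => t b • ω := by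
      intro b c hbc
      have hbc' : t b • ω = t c • ω := hbc
      by_contra hne
      by_cases hx : t b • ω = ω
      · have e1 : b = ω := by
          by_contra h
          exact tn b (h2 _ (tH b) b ω h (tb b) hx)
        have e2 : c = ω := by
          by_contra h
          exact tn c (h2 _ (tH c) c ω h (tb c) (hbc' ▸ hx))
        exact hne (e1.trans e2.symm)
      · have e1 : t b * t c = 1 := by
          refine h2 _ (H.mul_mem (tH b) (tH c)) _ ω hx ?_ ?_
          · rw [mul_smul, hbc', smul_smul (t c), tt c, one_smul, hbc']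
          · rw [mul_smul, ← hbc', smul_smul, tt b, one_smul]
        have e2 : t b = t c := mul_right_cancel (e1.trans (tt c).symm)
        exact tn b (h2 _ (tH b) b c hne (tb b) (e2 ▸ tb c))
    exact ⟨Equiv.ofBijective _ (Finite.injective_iff_bijective.1 hinj), 1,
      fun b => ⟨t b, rfl, tb b⟩⟩
  · refine bp_of_odd ω H ?_ ht
    rw [← card_stab_mul (G := H) (fun x y => by
      obtain ⟨q, hq, h⟩ := ht x y
      exact ⟨⟨q, hq⟩, h⟩) ω]
    exact ho.mul he

end Pool.Agent.Work.MP_66fdf3_co.Full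
end

-- merged part: Pool.Agent.Work.MP_66fdf3_co.Full.MH1
section
/-!
Determinant identity.  Fix `e : T ≃ Fin s × ZMod p` and `ψ = ZMod.stdAddChar`.
`A x = of fun t t' => if I t = (e t').1 then ψ ((e t').2 * x t) else 0`,
`B x = of fun t t' => if J t = (e t').1 then ψ (-((e t').2 * (x t + D t))) else 0`.
If no `x` works then for every `x` one of the matrices has two equal rows (`Matrix.det_zero_of_row_eq`), so
`∑ x, det (A x) * det (B x) = 0`.  Expand with `Matrix.det_apply'` (transpose first, or index the rows by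
`t` and the columns by `σ t`), exchange sums, `Finset.prod_univ_sum` and `AddChar.sum_mulShift` leave only
the pairs `(σ, τ)` with `(e (σ t)).1 = I t`, `(e (τ t)).1 = J t`, `(e (σ t)).2 = (e (τ t)).2`; they correspond
to the functions `u` with `epsU I J u ≠ 0`, and `sign σ * sign τ = epsU I J u` (`Equiv.Perm.sign_permCongr`,
`Equiv.Perm.sign_eq_sign_of_equiv`).  The total is `p ^ card T` times the sum in `h`.
-/

namespace Pool.Agent.Work.MP_66fdf3_co.Full

open Finset Matrix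

/-- Determinant of the zero-one matrix of a labelling. -/
noncomputable def sgMH1 {T K : Type} [Fintype T] [DecidableEq T] [DecidableEq K] (e : T ≃ K)
    (w : T → K) : ℂ :=
  (Matrix.of fun t t' : T => if w t = e t' then (1 : ℂ) else 0).det

theorem sgMH1_bij {T K : Type} [Fintype T] [DecidableEq T] [DecidableEq K] (e : T ≃ K)
    {w : T → K} (h : Function.Bijective w) :
    sgMH1 e w = ((Equiv.Perm.sign ((Equiv.ofBijective w h).trans e.symm) : ℤ) : ℂ) := by
  have := Matrix.det_permutation (R := ℂ) ((Equiv.ofBijective w h).trans e.symm)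
  rw [← this, sgMH1]
  congr 1
  ext t t'
  simp only [Matrix.of_apply, Equiv.Perm.permMatrix, PEquiv.toMatrix_apply, Equiv.toPEquiv_apply,
    Option.mem_def, Option.some.injEq, Equiv.trans_apply, Equiv.ofBijective_apply,
    Equiv.symm_apply_eq]

theorem sgMH1_not {T K : Type} [Fintype T] [DecidableEq T] [DecidableEq K] (e : T ≃ K)
    {w : T → K} (h : ¬ Function.Bijective w) : sgMH1 e w = 0 := by
  have : Fintype K := Fintype.ofEquiv T e
  have hi : ¬ Function.Injective w := fun hi =>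
    h ((Fintype.bijective_iff_injective_and_card w).2 ⟨hi, Fintype.card_congr e⟩)
  simp only [Function.Injective, not_forall] at hi
  obtain ⟨a, b, hab, hne⟩ := hi
  refine Matrix.det_zero_of_row_eq hne ?_
  funext t'
  simp [hab]

theorem sgMH1_mul {T V : Type} [Fintype T] [DecidableEq T] [Fintype V] [DecidableEq V] {s : ℕ}
    (e : T ≃ Fin s × V) (I J : T → Fin s) (u : T → V) :
    sgMH1 e (fun t => (I t, u t)) * sgMH1 e (fun t => (J t, u t)) = (epsU I J u : ℂ) := by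
  unfold epsU
  split_ifs with h
  · rw [sgMH1_bij e h.1, sgMH1_bij e h.2, ← Int.cast_mul, ← Units.val_mul]
    congr 2
    have h1 : ∀ f g : T ≃ Fin s × V,
        Equiv.Perm.sign (f.trans e.symm) * Equiv.Perm.sign (g.trans e.symm) =
          Equiv.Perm.sign (f.symm.trans g) := by
      intro f g
      have h2 : (f.symm.trans g : Equiv.Perm (Fin s × V)) =
          e.permCongr ((g.trans e.symm : Equiv.Perm T) * (f.trans e.symm : Equiv.Perm T)⁻¹) := by
        ext k <;> simp [Equiv.Perm.mul_apply, Equiv.Perm.inv_def]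
      rw [h2, Equiv.Perm.sign_permCongr, Equiv.Perm.sign_mul, Equiv.Perm.sign_inv, mul_comm]
    convert h1 _ _
  · rw [not_and_or] at h
    rcases h with h | h
    · rw [sgMH1_not e h]; simp
    · rw [sgMH1_not e h]; simp

theorem detMH1_expand {T V : Type} [Fintype T] [DecidableEq T] [Fintype V] [DecidableEq V] {s : ℕ}
    (e : T ≃ Fin s × V) (I : T → Fin s) (c : T → V → ℂ) :
    (Matrix.of fun t t' : T => if I t = (e t').1 then c t (e t').2 else 0).det =
      ∑ u : T → V, (∏ t, c t (u t)) * sgMH1 e (fun t => (I t, u t)) := by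
  have h1 : (Matrix.of fun t t' : T => if I t = (e t').1 then c t (e t').2 else 0) =
      fun t => ∑ v : V, c t v • (fun t' : T => if (I t, v) = e t' then (1 : ℂ) else 0) := by
    ext t t'
    simp only [Matrix.of_apply, Finset.sum_apply, Pi.smul_apply, smul_eq_mul, mul_ite, mul_one,
      mul_zero]
    rw [Finset.sum_eq_single (e t').2]
    · simp [Prod.ext_iff]
    · intro v _ hv
      simp [Prod.ext_iff, hv]
    · simp
  rw [h1]
  have h2 := (Matrix.detRowAlternating (n := T) (R := ℂ)).toMultilinearMap.map_sum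
    (fun t (v : V) => c t v • (fun t' : T => if (I t, v) = e t' then (1 : ℂ) else 0))
  refine h2.trans (Finset.sum_congr rfl fun u _ => ?_)
  rw [MultilinearMap.map_smul_univ]
  rfl

theorem orthMH1 {T : Type} [Fintype T] [DecidableEq T] {p : ℕ} [Fact p.Prime]
    (u u' : T → ZMod p) :
    ∑ x : T → ZMod p, ∏ t, ZMod.stdAddChar (x t * (u t - u' t)) =
      if u = u' then ((p : ℂ)) ^ Fintype.card T else 0 := by
  have h1 := Finset.prod_univ_sum (fun _ : T => (univ : Finset (ZMod p)))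
    (fun t y => (ZMod.stdAddChar (y * (u t - u' t)) : ℂ))
  rw [Fintype.piFinset_univ] at h1
  rw [← h1]
  have h2 : ∀ t, ∑ y : ZMod p, (ZMod.stdAddChar (y * (u t - u' t)) : ℂ) =
      if u t = u' t then (p : ℂ) else 0 := by
    intro t
    rw [AddChar.sum_mulShift _ (ZMod.isPrimitive_stdAddChar p)]
    simp [sub_eq_zero, ZMod.card]
  simp only [h2]
  split_ifs with h
  · simp [h]
  · obtain ⟨t, ht⟩ := Function.ne_iff.1 h
    exact Finset.prod_eq_zero (mem_univ t) (by simp [ht])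

theorem mapsumMH1 {T : Type} {p : ℕ} [Fact p.Prime] (S : Finset T) (f : T → ZMod p) :
    (ZMod.stdAddChar (∑ t ∈ S, f t) : ℂ) = ∏ t ∈ S, ZMod.stdAddChar (f t) := by
  classical
  induction S using Finset.induction_on with
  | empty => simp
  | insert a S ha ih => rw [Finset.sum_insert ha, Finset.prod_insert ha, AddChar.map_add_eq_mul, ih]

theorem mh_det {T : Type} [Fintype T] [DecidableEq T] {s p : ℕ} [Fact p.Prime] (I J : T → Fin s)
    (D : T → ZMod p) (hT : Fintype.card T = s * p)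
    (h : ∑ u : T → ZMod p, (epsU I J u : ℂ) * ZMod.stdAddChar (-(∑ t, u t * D t)) ≠ 0) :
    ∃ x : T → ZMod p, Function.Injective (fun t => (I t, x t)) ∧
      Function.Injective fun t => (J t, x t + D t) := by
  by_contra hno
  apply h
  let e : T ≃ Fin s × ZMod p := Fintype.equivOfCardEq (by simp [hT, ZMod.card])
  let A : (T → ZMod p) → Matrix T T ℂ := fun x => Matrix.of fun t t' =>
    if I t = (e t').1 then ZMod.stdAddChar ((e t').2 * x t) else 0
  let B : (T → ZMod p) → Matrix T T ℂ := fun x => Matrix.of fun t t' =>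
    if J t = (e t').1 then ZMod.stdAddChar (-((e t').2 * (x t + D t))) else 0
  have h0 : ∀ x, (A x).det * (B x).det = 0 := by
    intro x
    have hx : ¬ (Function.Injective (fun t => (I t, x t)) ∧
        Function.Injective fun t => (J t, x t + D t)) := fun hx => hno ⟨x, hx⟩
    rw [not_and_or] at hx
    rcases hx with hx | hx
    · simp only [Function.Injective, not_forall] at hx
      obtain ⟨a, b, hab, hne⟩ := hx
      rw [Prod.mk.injEq] at hab
      have : (A x).det = 0 := by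
        refine Matrix.det_zero_of_row_eq hne ?_
        funext t'
        simp [A, hab.1, hab.2]
      rw [this, zero_mul]
    · simp only [Function.Injective, not_forall] at hx
      obtain ⟨a, b, hab, hne⟩ := hx
      rw [Prod.mk.injEq] at hab
      have : (B x).det = 0 := by
        refine Matrix.det_zero_of_row_eq hne ?_
        funext t'
        simp only [B, Matrix.of_apply, hab.1, hab.2]
      rw [this, mul_zero]
  have h1 : ∀ x, (A x).det * (B x).det = ∑ u : T → ZMod p, ∑ u' : T → ZMod p,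
      (sgMH1 e (fun t => (I t, u t)) * sgMH1 e (fun t => (J t, u' t)) *
        ZMod.stdAddChar (-(∑ t, u' t * D t))) * ∏ t, ZMod.stdAddChar (x t * (u t - u' t)) := by
    intro x
    rw [detMH1_expand e I (fun t v => ZMod.stdAddChar (v * x t)),
      detMH1_expand e J (fun t v => ZMod.stdAddChar (-(v * (x t + D t)))), Finset.sum_mul_sum]
    refine Finset.sum_congr rfl fun u _ => Finset.sum_congr rfl fun u' _ => ?_
    have h3 : (∏ t, (ZMod.stdAddChar (u t * x t) : ℂ)) *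
        ∏ t, (ZMod.stdAddChar (-(u' t * (x t + D t))) : ℂ) =
        ZMod.stdAddChar (-(∑ t, u' t * D t)) * ∏ t, ZMod.stdAddChar (x t * (u t - u' t)) := by
      rw [← Finset.sum_neg_distrib, mapsumMH1, ← Finset.prod_mul_distrib,
        ← Finset.prod_mul_distrib]
      refine Finset.prod_congr rfl fun t _ => ?_
      rw [← AddChar.map_add_eq_mul, ← AddChar.map_add_eq_mul]
      congr 1
      ring
    linear_combination (sgMH1 e (fun t => (I t, u t)) * sgMH1 e (fun t => (J t, u' t))) * h3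
  have h2 : ∑ x : T → ZMod p, (A x).det * (B x).det = ((p : ℂ)) ^ Fintype.card T *
      ∑ u : T → ZMod p, (epsU I J u : ℂ) * ZMod.stdAddChar (-(∑ t, u t * D t)) := by
    simp only [h1]
    rw [Finset.sum_comm, Finset.mul_sum]
    refine Finset.sum_congr rfl fun u _ => ?_
    rw [Finset.sum_comm]
    simp only [← Finset.mul_sum, orthMH1, mul_ite, mul_zero]
    rw [Finset.sum_ite_eq, if_pos (mem_univ _), sgMH1_mul, mul_comm]
  simp only [h0, Finset.sum_const_zero] at h2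
  have hp : ((p : ℂ)) ^ Fintype.card T ≠ 0 :=
    pow_ne_zero _ (Nat.cast_ne_zero.2 (Fact.out : p.Prime).ne_zero)
  exact (mul_eq_zero.1 h2.symm).resolve_left hp

end Pool.Agent.Work.MP_66fdf3_co.Full
end

-- merged part: Pool.Agent.Work.MP_66fdf3_co.Full.MH2
section
/-!
`epsU_shift`: both bijections are composed with the shift `(i, v) ↦ (i, v + c)`, so the permutation is
conjugated (`Equiv.Perm.sign_permCongr` or `sign_trans_trans_symm`).
`mh_ne`: `N r = ∑ u with -(∑ t, u t * D t) = r, epsU I J u`.  If `T` is empty the only `epsU` is `0` or a sign;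
treat it directly (if it is `0` then `h` fails).  Otherwise fix `t0`; `u ↦ u + c` shows
`N r = p * ∑ u with u t0 = 0 ∧ .., epsU`.  If the sum vanishes then all `N r` are equal
(`IsPrimitiveRoot.sum_eq_zero_iff_forall_eq_int` with `ζ = stdAddChar 1`, `stdAddChar r = ζ ^ r.val`, index by
`Fin p` via `ZMod.finEquiv` or `cases p`), so `∑ u, epsU = p * N 0` is divisible by `p ^ 2`.
-/

namespace Pool.Agent.Work.MP_66fdf3_co.Full

open Finset Matrix

theorem epsU_shift {T V : Type} [Fintype V] [DecidableEq V] [AddCommGroup V] {s : ℕ}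
    (I J : T → Fin s) (u : T → V) (c : V) : epsU I J (fun t => u t + c) = epsU I J u := by
  let e : Fin s × V ≃ Fin s × V := Equiv.prodCongr (Equiv.refl _) (Equiv.addRight c)
  have hb : ∀ K : T → Fin s, Function.Bijective (fun t => (K t, u t + c)) ↔
      Function.Bijective (fun t => (K t, u t)) := fun K =>
    Equiv.comp_bijective (fun t => (K t, u t)) e
  unfold epsU
  by_cases h : Function.Bijective (fun t => (I t, u t)) ∧ Function.Bijective (fun t => (J t, u t))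
  · have h' : Function.Bijective (fun t => (I t, u t + c)) ∧
        Function.Bijective (fun t => (J t, u t + c)) := ⟨(hb I).2 h.1, (hb J).2 h.2⟩
    rw [dif_pos h, dif_pos h', ← Equiv.Perm.sign_permCongr e
      ((Equiv.ofBijective _ h.1).symm.trans (Equiv.ofBijective _ h.2))]
    have e1 : Equiv.ofBijective _ h'.1 = (Equiv.ofBijective _ h.1).trans e := Equiv.ext fun _ => rfl
    have e2 : Equiv.ofBijective _ h'.2 = (Equiv.ofBijective _ h.2).trans e := Equiv.ext fun _ => rfl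
    rw [e1, e2]
    rfl
  · rw [dif_neg h, dif_neg fun h' => h ⟨(hb I).1 h'.1, (hb J).1 h'.2⟩]

theorem MH2_dvd {T V : Type} [Fintype T] [DecidableEq T] [Fintype V] [DecidableEq V]
    [AddCommGroup V] (t0 : T) (g : (T → V) → ℤ) (hg : ∀ u c, g (fun t => u t + c) = g u) :
    (Fintype.card V : ℤ) ∣ ∑ u, g u := by
  have key : ∀ c : V, ∑ u : T → V with u t0 = c, g u = ∑ u : T → V with u t0 = 0, g u := fun c => by
    symm
    refine sum_nbij' (fun u t => u t + c) (fun u t => u t - c) ?_ ?_ ?_ ?_ fun u _ => (hg u c).symm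
    · intro u hu
      simp only [mem_filter, mem_univ, true_and] at hu ⊢
      rw [hu, zero_add]
    · intro u hu
      simp only [mem_filter, mem_univ, true_and] at hu ⊢
      rw [hu, sub_self]
    · intro u _
      funext t
      exact add_sub_cancel_right _ _
    · intro u _
      funext t
      exact sub_add_cancel _ _
  rw [← sum_fiberwise univ (fun u : T → V => u t0) g, sum_congr rfl fun c _ => key c, sum_const,
    card_univ, nsmul_eq_mul]
  exact Dvd.intro _ rfl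

theorem MH2_eq {p : ℕ} [Fact p.Prime] (N : ZMod p → ℤ)
    (h : ∑ r, (N r : ℂ) * ZMod.stdAddChar r = 0) (r : ZMod p) : N r = N 0 := by
  have hp : p.Prime := Fact.out
  have hz : ∀ n : ℕ, ZMod.stdAddChar (1 : ZMod p) ^ n = ZMod.stdAddChar (n : ZMod p) := fun n => by
    rw [← AddChar.map_nsmul_eq_pow, nsmul_one]
  have hζ : IsPrimitiveRoot (ZMod.stdAddChar (1 : ZMod p)) p := by
    refine ⟨by rw [hz, ZMod.natCast_self, AddChar.map_zero_eq_one], fun l hl => ?_⟩
    rw [hz, ← AddChar.map_zero_eq_one (ZMod.stdAddChar (N := p))] at hl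
    exact (ZMod.natCast_eq_zero_iff _ _).1 (ZMod.injective_stdAddChar hl)
  let e : Fin p ≃ ZMod p :=
    { toFun := fun i => (i.val : ZMod p)
      invFun := fun r => ⟨r.val, ZMod.val_lt r⟩
      left_inv := fun i => Fin.ext (ZMod.val_cast_of_lt i.2)
      right_inv := fun r => ZMod.natCast_zmod_val r }
  have k := (hζ.sum_eq_zero_iff_forall_eq_int hp fun i => N (e i)).1 (by
    rw [← h, ← e.sum_comp]
    exact sum_congr rfl fun i _ => by rw [hz]; rfl) (e.symm r) (e.symm 0)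
  simpa only [Equiv.apply_symm_apply] using k

theorem mh_ne {T : Type} [Fintype T] [DecidableEq T] {s p : ℕ} [Fact p.Prime] (I J : T → Fin s)
    (D : T → ZMod p) (hD : ∑ t, D t = 0) (h : ¬ (p : ℤ) ^ 2 ∣ ∑ u : T → ZMod p, epsU I J u) :
    ∑ u : T → ZMod p, (epsU I J u : ℂ) * ZMod.stdAddChar (-(∑ t, u t * D t)) ≠ 0 := by
  intro h0
  apply h
  let φ : (T → ZMod p) → ZMod p := fun u => -(∑ t, u t * D t)
  let N : ZMod p → ℤ := fun r => ∑ u with φ u = r, epsU I J u
  have hN : ∀ r, N r = N 0 := MH2_eq N (by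
    rw [← h0, ← sum_fiberwise univ φ]
    refine sum_congr rfl fun r _ => ?_
    simp only [N]
    push_cast
    rw [sum_mul]
    exact sum_congr rfl fun u hu => by rw [← (mem_filter.1 hu).2])
  have hd : (p : ℤ) ∣ N 0 := by
    rcases isEmpty_or_nonempty T with hT | ⟨⟨t0⟩⟩
    · have e : N 1 = 0 := sum_eq_zero fun u hu => by
        have := (mem_filter.1 hu).2
        simp [φ] at this
      rw [← hN 1, e]
      exact dvd_zero _
    · have k := MH2_dvd t0 (fun u => if φ u = 0 then epsU I J u else 0) fun u c => by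
        have e : φ (fun t => u t + c) = φ u := by
          simp only [φ, add_mul, sum_add_distrib, ← mul_sum, hD, mul_zero, add_zero]
        rw [e, epsU_shift]
      rw [ZMod.card, ← sum_filter] at k
      exact k
  rw [← sum_fiberwise univ φ, sum_congr rfl fun r _ => hN r, sum_const, card_univ, ZMod.card,
    nsmul_eq_mul, sq]
  exact mul_dvd_mul_left _ hd

end Pool.Agent.Work.MP_66fdf3_co.Full
end

-- merged part: Pool.Agent.Work.MP_66fdf3_co.Full.MH3
section
/-!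
`sum_epsU`: pairs `(σ, e)` with `σ : V → Perm (Fin s)`, `e : T ≃ Fin s × V` and
`((e t).1, σ (e t).2 (e t).1) = (I t, J t)` correspond to the functions `u = fun t => (e t).2` with both maps
bijective (given `u`, the permutation `π = (J, u) ∘ (I, u)⁻¹` keeps the second coordinate, so it is
`Equiv.prodCongrLeft σ`; `Equiv.Perm.sign_prodCongrLeft`).  For fixed `σ` the number of `e` is given by
`card_equiv_fib` with `f t = (I t, J t)`, `g (i, v) = (i, σ v i)`, and `cnt g (i, j) = cnt (fun v => σ v i) j`.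
`multi_hall`: `p` does not divide `∏ (a i j)!` (`Nat.Prime.dvd_factorial`), so `p ^ 2` does not divide the product.
-/

namespace Pool.Agent.Work.MP_66fdf3_co.Full

open Finset Matrix

section MH3

variable {T V : Type} [Fintype V] [DecidableEq V] {s : ℕ} {I J : T → Fin s}

theorem MH3_val {σ : V → Equiv.Perm (Fin s)} {e : T ≃ Fin s × V}
    (h : ∀ t, ((e t).1, σ (e t).2 (e t).1) = (I t, J t)) :
    epsU I J (fun t => (e t).2) = ∏ v, (Equiv.Perm.sign (σ v) : ℤ) := by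
  have h1 : (fun t => (I t, (e t).2)) = e := funext fun t =>
    Prod.ext (congrArg Prod.fst (h t)).symm rfl
  have h2 : (fun t => (J t, (e t).2)) = e.trans (Equiv.prodCongrLeft σ) := funext fun t =>
    Prod.ext (congrArg Prod.snd (h t)).symm rfl
  have h3 : Function.Bijective (fun t => (I t, (e t).2)) ∧
      Function.Bijective (fun t => (J t, (e t).2)) := ⟨h1 ▸ e.bijective, h2 ▸ Equiv.bijective _⟩
  rw [epsU, dif_pos h3, (Equiv.coe_inj.1 h1 : Equiv.ofBijective _ h3.1 = e),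
    (Equiv.coe_inj.1 h2 : Equiv.ofBijective _ h3.2 = _), ← Equiv.trans_assoc, Equiv.symm_trans_self,
    Equiv.refl_trans, Equiv.Perm.sign_prodCongrLeft, Units.coe_prod]

omit [Fintype V] [DecidableEq V] in
theorem MH3_ex {u : T → V} (h1 : Function.Bijective fun t => (I t, u t))
    (h2 : Function.Injective fun t => (J t, u t)) :
    ∃ (σ : V → Equiv.Perm (Fin s)) (e : T ≃ Fin s × V),
      (∀ t, ((e t).1, σ (e t).2 (e t).1) = (I t, J t)) ∧ (fun t => (e t).2) = u := by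
  let e := Equiv.ofBijective _ h1
  have h3 : ∀ x, u (e.symm x) = x.2 := fun x => congrArg Prod.snd (e.apply_symm_apply x)
  refine ⟨fun v => Equiv.ofBijective (fun i => J (e.symm (i, v)))
    (Finite.injective_iff_bijective.1 fun i i' hi => ?_), e, fun t => ?_, rfl⟩
  · exact congrArg Prod.fst (e.symm.injective (h2 (Prod.ext hi ((h3 (i, v)).trans (h3 (i', v)).symm))))
  · exact Prod.ext rfl (congrArg J (e.symm_apply_apply t))

omit [DecidableEq V] in
theorem MH3_cnt (σ : V → Equiv.Perm (Fin s)) (i j : Fin s) :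
    cnt (fun x : Fin s × V => (x.1, σ x.2 x.1)) (i, j) = cnt (fun v => σ v i) j := by
  refine card_nbij' (fun x => x.2) (fun v => (i, v)) ?_ ?_ ?_ fun _ _ => rfl
  · rintro ⟨a, v⟩ h
    obtain ⟨rfl, h⟩ : a = i ∧ σ v a = j := by simpa using h
    simpa using h
  · intro v h
    simpa using h
  · rintro ⟨a, v⟩ h
    obtain ⟨rfl, -⟩ : a = i ∧ σ v a = j := by simpa using h
    rfl

end MH3

theorem sum_epsU {T V : Type} [Fintype T] [DecidableEq T] [Fintype V] [DecidableEq V] {s : ℕ}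
    (I J : T → Fin s) :
    ∑ u : T → V, epsU I J u = delta V (fun i j => cnt (fun t => (I t, J t)) (i, j)) *
      ∏ i, ∏ j, ((cnt (fun t => (I t, J t)) (i, j)).factorial : ℤ) := by
  rw [← sum_of_injOn (s := univ.filter fun x : (V → Equiv.Perm (Fin s)) × (T ≃ Fin s × V) =>
      ∀ t, ((x.2 t).1, x.1 (x.2 t).2 (x.2 t).1) = (I t, J t))
    (f := fun x => ∏ v, (Equiv.Perm.sign (x.1 v) : ℤ)) (fun x t => (x.2 t).2) ?_
    (fun _ _ => mem_univ _) ?_ fun x hx => (MH3_val (mem_filter.1 hx).2).symm,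
    sum_filter, Fintype.sum_prod_type, delta, sum_mul]
  · refine sum_congr rfl fun σ _ => ?_
    dsimp only
    rw [← sum_filter, sum_const, card_equiv_fib (fun t => (I t, J t))
      fun x : Fin s × V => (x.1, σ x.2 x.1)]
    simp only [Prod.forall, MH3_cnt, eq_comm (a := cnt (fun t => (I t, J t)) _)]
    split_ifs
    · rw [nsmul_eq_mul, Fintype.prod_prod_type, mul_comm]
      push_cast
      rfl
    · simp
  · rintro ⟨σ, e⟩ h ⟨σ', e'⟩ h' he
    replace h := (mem_filter.1 h).2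
    replace h' := (mem_filter.1 h').2
    obtain rfl : e = e' := Equiv.ext fun t =>
      Prod.ext (congrArg Prod.fst ((h t).trans (h' t).symm) :) (congrFun he t)
    refine Prod.ext (funext fun v => Equiv.ext fun i => ?_) rfl
    simpa using congrArg Prod.snd ((h (e.symm (i, v))).trans (h' _).symm)
  · intro u _ hu
    refine dif_neg fun h => hu ?_
    obtain ⟨σ, e, h1, h2⟩ := MH3_ex h.1 h.2.1
    exact ⟨(σ, e), mem_filter.2 ⟨mem_univ _, h1⟩, h2⟩

theorem multi_hall {T : Type} [Fintype T] [DecidableEq T] {s p : ℕ} [Fact p.Prime] (I J : T → Fin s)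
    (D : T → ZMod p) (hT : Fintype.card T = s * p) (hD : ∑ t, D t = 0)
    (hlt : ∀ i j, cnt (fun t => (I t, J t)) (i, j) < p)
    (hδ : ¬ (p : ℤ) ^ 2 ∣ delta (ZMod p) fun i j => cnt (fun t => (I t, J t)) (i, j)) :
    ∃ x : T → ZMod p, Function.Injective (fun t => (I t, x t)) ∧
      Function.Injective fun t => (J t, x t + D t) := by
  refine mh_det I J D hT (mh_ne I J D hD fun h => hδ ?_)
  have hp : Prime (p : ℤ) := Nat.prime_iff_prime_int.1 Fact.out
  rw [sum_epsU] at h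
  refine hp.pow_dvd_of_dvd_mul_right 2 (fun h1 => ?_) h
  obtain ⟨i, -, h1⟩ := (hp.dvd_finsetProd_iff _).1 h1
  obtain ⟨j, -, h1⟩ := (hp.dvd_finsetProd_iff _).1 h1
  exact (hlt i j).not_ge ((Nat.Prime.dvd_factorial Fact.out).1 (Int.natCast_dvd_natCast.1 h1))

end Pool.Agent.Work.MP_66fdf3_co.Full
end

-- merged part: Pool.Agent.Work.MP_66fdf3_co.Full.HallD
section
/-!
Executable form of `HallProp`: definitions only.
-/

namespace Pool.Agent.Work.MP_66fdf3_co.Full

open Finset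

variable {s : ℕ}

def cL (W : Fin s → Fin s → Bool) (i : Fin s) : ℕ := ((List.finRange s).filter (W i)).length

def ubL (p k : ℕ) (W : Fin s → Fin s → Bool) (u l : Fin s) : ℕ :=
  if W u l = true then p else min (p - 1) (min (k - p * cL W u) (k - p * cL W l))

def bdL (p k : ℕ) (W : Fin s → Fin s → Bool) (u v : Fin s) : ℕ :=
  min (p * ((List.finRange s).filter fun l => W u l && W v l).length + (k - p * cL W u) +
      (k - p * cL W v))
    ((List.finRange s).map fun l => min (ubL p k W u l) (ubL p k W v l)).sum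

def grow (p k : ℕ) (W : Fin s → Fin s → Bool) (T : ℕ) : ℕ → List (Fin s) → List (Fin s)
  | 0, Z => Z
  | n + 1, Z => grow p k W T n ((List.finRange s).filter fun v =>
      decide (v ∈ Z) || Z.any fun u => decide (T ≤ bdL p k W u v))

def cutOK (p k : ℕ) (W : Fin s → Fin s → Bool) (T : ℕ) (i : Fin s) (Z : List (Fin s)) : Bool :=
  decide (i ∈ Z) && (List.finRange s).any (fun v => decide (v ∉ Z)) &&
    Z.all fun u => (List.finRange s).all fun v => decide (v ∈ Z) || decide (bdL p k W u v < T)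

def caseK (p k : ℕ) (W : Fin s → Fin s → Bool) : Bool :=
  decide (k < 5) ||
    (List.finRange s).any (fun i => decide (k < p * cL W i + if W i i = true then 0 else 1)) ||
    (List.finRange s).any fun i => decide (0 < cL W i) &&
      (List.finRange s).all (fun i' => decide (cL W i' ≤ cL W i)) &&
      cutOK p k W (p * cL W i) i (grow p k W (p * cL W i) s [i])

def triN (i j : ℕ) : ℕ :=
  cond (Nat.ble i j) (Nat.add (Nat.div (Nat.mul j (Nat.succ j)) 2) i) (Nat.add (Nat.div (Nat.mul i (Nat.succ i)) 2) j)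

def bitN (n b : ℕ) : Bool := Nat.beq (Nat.mod (Nat.shiftRight n b) 2) 1

def allN (f : ℕ → Bool) : ℕ → ℕ → Bool
  | 0, n => f n
  | d + 1, n => allN f d (Nat.mul 2 n) && allN f d (Nat.succ (Nat.mul 2 n))

def cntN (n : ℕ) : List ℕ → ℕ
  | [] => 0
  | b :: l => cond (bitN n b) (Nat.succ (cntN n l)) (cntN n l)

/-- quick test: some row is too full -/
def quick (p k n : ℕ) : List (List ℕ) → Bool
  | [] => false
  | r :: l => Nat.blt k (Nat.mul p (cntN n r)) || quick p k n l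

def hallF (p : ℕ) (sb : List ℕ) (rows : List (List ℕ)) (n : ℕ) : Bool :=
  quick p (Nat.pred (Nat.mul 2 (cntN n sb))) n rows ||
    caseK p (min (s * p - 4) (2 * cntN n sb - 1)) fun i j : Fin s => bitN n (triN i.val j.val)

def hallChk (p : ℕ) (sl : List (Fin s × Fin s)) (d n : ℕ) : Bool :=
  allN (hallF (s := s) p (sl.map fun q => triN q.1.val q.2.val)
    ((List.finRange s).map fun i => (List.finRange s).map fun j => triN i.val j.val)) d n

end Pool.Agent.Work.MP_66fdf3_co.Full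
end

-- merged part: Pool.Agent.Work.MP_66fdf3_co.Full.HallS
section
/-!
Soundness of `hallChk`.
`allN_sound`: induction on `d`.  `cL_eq`, `bdL_eq`: `List.finRange` filters and sums are `Finset.univ` cards and
sums (`Fin.sum_univ_def`, `Fin.univ_def`, `List.toFinset_card_of_nodup`).  `bdW_mono`: monotone in `k`.
`caseK_sound`: the three alternatives contradict `5 ≤ k ≤ k'`, `hlo`, and `hconn` with `Z.toFinset`
(never unfold `grow`).  `exists_mask`: `n = ∑ b ∈ B, 2 ^ b` with `B` the set of the `triN i j` with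
`W i j = true` (`Finset.testBit`-type lemmas: `Nat.testBit_lt_two_pow`, `Finset.geomSum_injective`,
`Nat.bitIndices`, or build `n` by induction on `D`: every `f : ℕ → Bool` agrees below `D` with the bits of some
`n < 2 ^ D`); `bitN n b = n.testBit b`.
`hallProp_of_chk`: if the conclusion fails then `k + 1 ≤ 2 * count` (parity), so
`k ≤ min (s p - 4) (2 * count - 1)`; `cntN n (l.map g) = (l.filter ..).length`; `quick` contradicts `hlo`.
-/

namespace Pool.Agent.Work.MP_66fdf3_co.Full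

open Finset

variable {s : ℕ}

theorem allN_sound (f : ℕ → Bool) (d n : ℕ) (h : allN f d n = true) {r : ℕ} (hr : r < 2 ^ d) :
    f (n * 2 ^ d + r) = true := by
  induction d generalizing n r with
  | zero =>
    have h0 : r = 0 := by simpa using hr
    subst h0
    simpa [allN] using h
  | succ d ih =>
    simp only [allN, Bool.and_eq_true] at h
    obtain ⟨ha, hb⟩ := h
    have e2 : 2 ^ (d + 1) = 2 * 2 ^ d := by rw [pow_succ]; ring
    by_cases hlt : r < 2 ^ d
    · have h1 := ih _ ha hlt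
      have e : n * 2 ^ (d + 1) + r = Nat.mul 2 n * 2 ^ d + r := by
        rw [e2]; show _ = 2 * n * 2 ^ d + r; ring
      rw [e]; exact h1
    · have hr' : r - 2 ^ d < 2 ^ d := by omega
      have h1 := ih _ hb hr'
      have e : n * 2 ^ (d + 1) + r = Nat.succ (Nat.mul 2 n) * 2 ^ d + (r - 2 ^ d) := by
        obtain ⟨t, rfl⟩ : ∃ t, r = 2 ^ d + t := ⟨r - 2 ^ d, by omega⟩
        rw [e2, Nat.add_sub_cancel_left]; show _ = (2 * n + 1) * 2 ^ d + t; ring
      rw [e]; exact h1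

theorem HallS_card (q : Fin s → Bool) :
    ((List.finRange s).filter q).length = (univ.filter fun l => q l = true).card := by
  rw [← List.toFinset_card_of_nodup ((List.nodup_finRange s).filter _)]
  congr 1
  ext l
  simp

theorem cL_eq (W : Fin s → Fin s → Bool) (i : Fin s) : cL W i = cW W i :=
  HallS_card (W i)

theorem HallS_ub (p k : ℕ) (W : Fin s → Fin s → Bool) (u l : Fin s) :
    ubL p k W u l = ubW p k W u l := by
  unfold ubL ubW
  rw [cL_eq, cL_eq]

theorem bdL_eq (p k : ℕ) (W : Fin s → Fin s → Bool) (u v : Fin s) : bdL p k W u v = bdW p k W u v := by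
  unfold bdL bdW
  rw [cL_eq, cL_eq, HallS_card, Fin.sum_univ_def]
  simp only [HallS_ub, Bool.and_eq_true]

theorem HallS_ub_mono (p : ℕ) {k k' : ℕ} (h : k ≤ k') (W : Fin s → Fin s → Bool) (u l : Fin s) :
    ubW p k W u l ≤ ubW p k' W u l := by
  unfold ubW
  split_ifs
  · exact le_rfl
  · exact min_le_min le_rfl (min_le_min (Nat.sub_le_sub_right h _) (Nat.sub_le_sub_right h _))

theorem bdW_mono (p : ℕ) {k k' : ℕ} (h : k ≤ k') (W : Fin s → Fin s → Bool) (u v : Fin s) :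
    bdW p k W u v ≤ bdW p k' W u v := by
  unfold bdW
  refine min_le_min ?_ (sum_le_sum fun l _ =>
    min_le_min (HallS_ub_mono p h W u l) (HallS_ub_mono p h W v l))
  exact Nat.add_le_add (Nat.add_le_add le_rfl (Nat.sub_le_sub_right h _))
    (Nat.sub_le_sub_right h _)

theorem HallS_cut {p k k' T : ℕ} {W : Fin s → Fin s → Bool} {i : Fin s} {Z : List (Fin s)}
    (h : cutOK p k' W T i Z = true) (hk : k ≤ k')
    (hc : ∀ Z : Finset (Fin s), Z.Nonempty → Z ≠ univ →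
      ∃ u ∈ Z, ∃ v, v ∉ Z ∧ T ≤ bdW p k W u v) : False := by
  unfold cutOK at h
  simp only [Bool.and_eq_true, decide_eq_true_eq, List.any_eq_true, List.all_eq_true,
    Bool.or_eq_true] at h
  obtain ⟨⟨hi, w, -, hw⟩, hall⟩ := h
  obtain ⟨u, hu, v, hv, hT⟩ := hc Z.toFinset ⟨i, List.mem_toFinset.2 hi⟩ (fun he => hw (by
    have : w ∈ Z.toFinset := by rw [he]; exact mem_univ w
    exact List.mem_toFinset.1 this))
  rcases hall u (List.mem_toFinset.1 hu) v (List.mem_finRange v) with h1 | h1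
  · exact hv (List.mem_toFinset.2 h1)
  · rw [bdL_eq] at h1
    have := bdW_mono p hk W u v
    omega

theorem caseK_sound {p k k' : ℕ} {W : Fin s → Fin s → Bool} (h : caseK p k' W = true) (hk : k ≤ k')
    (h5 : 5 ≤ k) (hlo : ∀ i, p * cW W i + (if W i i = true then 0 else 1) ≤ k)
    (hconn : ∀ i0, 0 < cW W i0 → ∀ Z : Finset (Fin s), Z.Nonempty → Z ≠ univ →
      ∃ u ∈ Z, ∃ v, v ∉ Z ∧ p * cW W i0 ≤ bdW p k W u v) : False := by
  unfold caseK at h
  rw [Bool.or_eq_true, Bool.or_eq_true, List.any_eq_true, List.any_eq_true] at h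
  rcases h with (h | ⟨i, -, h⟩) | ⟨i, -, h⟩
  · have := of_decide_eq_true h
    omega
  · have h1 := of_decide_eq_true h
    rw [cL_eq] at h1
    have := hlo i
    omega
  · rw [Bool.and_eq_true, Bool.and_eq_true] at h
    obtain ⟨⟨h0, -⟩, hc⟩ := h
    have h1 := of_decide_eq_true h0
    rw [cL_eq] at h1
    refine HallS_cut hc hk ?_
    rw [cL_eq]
    exact hconn i h1

theorem HallS_bit (n b : ℕ) : bitN n b = n.testBit b := by
  unfold bitN
  rw [Nat.testBit_eq_decide_div_mod_eq, ← Nat.shiftRight_eq_div_pow]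
  show Nat.beq ((n >>> b) % 2) 1 = decide ((n >>> b) % 2 = 1)
  by_cases h : (n >>> b) % 2 = 1
  · rw [h]; rfl
  · have h0 : (n >>> b) % 2 = 0 := by omega
    rw [h0]; rfl

theorem exists_bits (f : ℕ → Bool) (D : ℕ) : ∃ n, n < 2 ^ D ∧ ∀ b, b < D → bitN n b = f b := by
  induction D generalizing f with
  | zero => exact ⟨0, by simp, fun b hb => absurd hb (by omega)⟩
  | succ D ih =>
    obtain ⟨n, hn, hb⟩ := ih fun b => f (b + 1)
    refine ⟨Nat.bit (f 0) n, ?_, fun b hlt => ?_⟩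
    · rw [pow_succ, Nat.bit_val]
      have : (f 0).toNat ≤ 1 := Bool.toNat_le _
      omega
    · rw [HallS_bit]
      cases b with
      | zero => exact Nat.testBit_bit_zero _ _
      | succ b =>
        rw [Nat.testBit_bit_succ, ← HallS_bit]
        exact hb b (by omega)

theorem exists_mask {D : ℕ} (h1 : ∀ i j : Fin s, triN i.val j.val < D)
    (h2 : ∀ i j i' j' : Fin s, triN i.val j.val = triN i'.val j'.val →
      (i = i' ∧ j = j') ∨ (i = j' ∧ j = i'))
    (W : Fin s → Fin s → Bool) (hW : ∀ i j, W i j = W j i) :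
    ∃ n, n < 2 ^ D ∧ W = fun i j : Fin s => bitN n (triN i.val j.val) := by
  classical
  obtain ⟨n, hn, hb⟩ := exists_bits
    (fun b => decide (∃ i j : Fin s, triN i.val j.val = b ∧ W i j = true)) D
  refine ⟨n, hn, ?_⟩
  funext i j
  rw [hb _ (h1 i j)]
  cases hij : W i j with
  | true => exact (decide_eq_true ⟨i, j, rfl, hij⟩).symm
  | false =>
    refine (decide_eq_false ?_).symm
    rintro ⟨i', j', he, hw⟩
    rcases h2 i' j' i j he with ⟨rfl, rfl⟩ | ⟨rfl, rfl⟩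
    · rw [hij] at hw; exact Bool.false_ne_true hw
    · rw [hW, hij] at hw; exact Bool.false_ne_true hw

theorem HallS_cnt {α : Type} (n : ℕ) (g : α → ℕ) (l : List α) :
    cntN n (l.map g) = (l.filter fun a => bitN n (g a)).length := by
  induction l with
  | nil => rfl
  | cons a l ih =>
    rw [List.map_cons, cntN, ih, List.filter_cons]
    cases bitN n (g a) <;> rfl

theorem HallS_quick (p k n : ℕ) (rows : List (List ℕ)) (h : quick p k n rows = true) :
    ∃ r ∈ rows, k < p * cntN n r := by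
  induction rows with
  | nil => exact absurd h (by simp [quick])
  | cons r l ih =>
    rw [quick, Bool.or_eq_true] at h
    rcases h with h | h
    · exact ⟨r, List.mem_cons_self, by rw [Nat.blt_eq] at h; exact h⟩
    · obtain ⟨r', hr', hk⟩ := ih h
      exact ⟨r', List.mem_cons_of_mem _ hr', hk⟩

theorem hallProp_of_chk (p : ℕ) (sl : List (Fin s × Fin s)) {D : ℕ}
    (h1 : ∀ i j : Fin s, triN i.val j.val < D)
    (h2 : ∀ i j i' j' : Fin s, triN i.val j.val = triN i'.val j'.val →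
      (i = i' ∧ j = j') ∨ (i = j' ∧ j = i'))
    (h : ∀ n, n < 2 ^ D → hallF (s := s) p (sl.map fun q => triN q.1.val q.2.val)
      ((List.finRange s).map fun i => (List.finRange s).map fun j => triN i.val j.val) n = true) :
    HallProp p sl := by
  intro W k hW hodd h5 hsp hlo hconn
  by_contra hne
  obtain ⟨n, hn, hWn⟩ := exists_mask h1 h2 W hW
  have hc : cntN n (sl.map fun q => triN q.1.val q.2.val) =
      (sl.filter fun q => W q.1 q.2).length := by
    rw [HallS_cnt, hWn]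
  have hF := h n hn
  unfold hallF at hF
  rw [hc, ← hWn, Bool.or_eq_true] at hF
  obtain ⟨t, ht⟩ := hodd
  rcases hF with hq | hq
  · obtain ⟨r, hr, hk⟩ := HallS_quick _ _ _ _ hq
    obtain ⟨i, -, rfl⟩ := List.mem_map.1 hr
    have hi : cntN n ((List.finRange s).map fun j => triN i.val j.val) = cW W i := by
      rw [HallS_cnt, ← cL_eq, hWn]; rfl
    rw [hi] at hk
    have h3 := hlo i
    have e : Nat.pred (Nat.mul 2 (sl.filter fun q => W q.1 q.2).length) =
        2 * (sl.filter fun q => W q.1 q.2).length - 1 := rfl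
    rw [e] at hk
    omega
  · refine caseK_sound hq ?_ h5 hlo hconn
    refine le_min ?_ ?_ <;> omega

end Pool.Agent.Work.MP_66fdf3_co.Full
end

-- merged part: Pool.Agent.Work.MP_66fdf3_co.Full.Base
section
/-!
Elementary API for `ip`, `nsq`, `tens`, `br`.
Plans. `ip_cs`: Cauchy-Schwarz (`Finset.sum_mul_sq_le_sq_mul_sq` after `norm_sum_le`).
`tens_mul`: `Finset.prod_univ_sum` with `Fintype.piFinset_univ`, then `prod_mul_distrib`.
`br_eq_ip`: a sum over functions of an indicator of bijectivity is a sum over `Equiv.Perm`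
(`sum_ub`, via `Equiv.ofBijective`, `Finset.sum_bij` or `sum_nbij`).
`br_const`: substitute `σ = ρ * π`, reindex the product by `π`.
`nsq_proj_le`: `nsq v - nsq (Q v) = nsq (v - Q v)`; `nsq_stoch_le`: Schur test (Jensen in each row).
-/

namespace Pool.Agent.Work.MP_66fdf3_co.Full

open Finset Matrix

section Vec

variable {ι : Type} [Fintype ι]

theorem nsq_nonneg (v : ι → ℂ) : 0 ≤ nsq v :=
  Finset.sum_nonneg fun _ _ => sq_nonneg _

theorem ip_self (v : ι → ℂ) : ip v v = (nsq v : ℂ) := by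
  unfold ip nsq
  push_cast
  refine Finset.sum_congr rfl fun x _ => ?_
  rw [Complex.conj_mul']

theorem ip_cs (v w : ι → ℂ) : ‖ip v w‖ ^ 2 ≤ nsq v * nsq w := by
  unfold ip nsq
  have h1 : ‖∑ x, (starRingEnd ℂ) (v x) * w x‖ ≤ ∑ x, ‖v x‖ * ‖w x‖ := by
    refine (norm_sum_le _ _).trans (le_of_eq ?_)
    refine Finset.sum_congr rfl fun x _ => ?_
    rw [norm_mul, Complex.norm_conj]
  calc ‖∑ x, (starRingEnd ℂ) (v x) * w x‖ ^ 2 ≤ (∑ x, ‖v x‖ * ‖w x‖) ^ 2 :=
        pow_le_pow_left₀ (norm_nonneg _) h1 2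
    _ ≤ _ := Finset.sum_mul_sq_le_sq_mul_sq _ _ _

theorem ip_cs' (v w : ι → ℂ) : ‖ip v w‖ ≤ √(nsq v) * √(nsq w) := by
  rw [← Real.sqrt_mul (nsq_nonneg v)]
  exact Real.le_sqrt_of_sq_le (ip_cs v w)

theorem ip_mulVec (M : Matrix ι ι ℂ) (v w : ι → ℂ) : ip v (M *ᵥ w) = ip (Mᴴ *ᵥ v) w := by
  unfold ip
  simp only [Matrix.mulVec, dotProduct, Matrix.conjTranspose_apply, map_sum, map_mul,
    Finset.mul_sum, Finset.sum_mul]
  rw [Finset.sum_comm]
  refine Finset.sum_congr rfl fun x _ => Finset.sum_congr rfl fun y _ => ?_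
  simp only [RCLike.star_def, Complex.conj_conj]
  ring

theorem ip_sum_mulVec {T : Type} (s : Finset T) (M : T → Matrix ι ι ℂ) (v w : ι → ℂ) :
    ip v ((∑ t ∈ s, M t) *ᵥ w) = ∑ t ∈ s, ip v (M t *ᵥ w) := by
  unfold ip
  rw [Matrix.sum_mulVec, Finset.sum_comm]
  refine Finset.sum_congr rfl fun x _ => ?_
  rw [Finset.sum_apply, Finset.mul_sum]

theorem ip_smul_mulVec (c : ℂ) (M : Matrix ι ι ℂ) (v w : ι → ℂ) :
    ip v ((c • M) *ᵥ w) = c * ip v (M *ᵥ w) := by
  unfold ip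
  rw [Matrix.smul_mulVec, Finset.mul_sum]
  refine Finset.sum_congr rfl fun x _ => ?_
  rw [Pi.smul_apply, smul_eq_mul]
  ring

theorem ip_sub_mulVec (M N : Matrix ι ι ℂ) (v w : ι → ℂ) :
    ip v ((M - N) *ᵥ w) = ip v (M *ᵥ w) - ip v (N *ᵥ w) := by
  unfold ip
  rw [Matrix.sub_mulVec, ← Finset.sum_sub_distrib]
  refine Finset.sum_congr rfl fun x _ => ?_
  rw [Pi.sub_apply]
  ring

theorem nsq_mulVec (M : Matrix ι ι ℂ) (v : ι → ℂ) :
    (nsq (M *ᵥ v) : ℂ) = ip v ((Mᴴ * M) *ᵥ v) := by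
  rw [← ip_self, ← Matrix.mulVec_mulVec, ip_mulVec Mᴴ, Matrix.conjTranspose_conjTranspose]

/-- From a bilinear bound to an operator bound. -/
theorem nsq_le_of_ip (M : Matrix ι ι ℂ) (w : ι → ℂ) {c : ℝ} (hc : 0 ≤ c)
    (h : ∀ v, ‖ip v (M *ᵥ w)‖ ≤ c * (√(nsq v) * √(nsq w))) : nsq (M *ᵥ w) ≤ c ^ 2 * nsq w := by
  have h1 := h (M *ᵥ w)
  rw [ip_self, Complex.norm_real, Real.norm_of_nonneg (nsq_nonneg _)] at h1
  have ha := nsq_nonneg (M *ᵥ w)
  have hb := nsq_nonneg w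
  set a := nsq (M *ᵥ w)
  set b := nsq w
  have hsa := Real.sqrt_nonneg a
  have hsb := Real.sqrt_nonneg b
  have ea := Real.mul_self_sqrt ha
  have eb := Real.mul_self_sqrt hb
  have h2 : √a ≤ c * √b := by
    by_contra hlt
    push Not at hlt
    have hpos : 0 < √a := lt_of_le_of_lt (mul_nonneg hc hsb) hlt
    have : c * √b * √a < √a * √a := mul_lt_mul_of_pos_right hlt hpos
    linarith only [h1, ea, this]
  calc a = √a * √a := ea.symm
    _ ≤ (c * √b) * (c * √b) := mul_self_le_mul_self hsa h2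
    _ = c ^ 2 * (√b * √b) := by ring
    _ = c ^ 2 * b := by rw [eb]

theorem nsq_proj_le (Q : Matrix ι ι ℂ) (h1 : Qᴴ = Q) (h2 : Q * Q = Q) (v : ι → ℂ) :
    nsq (Q *ᵥ v) ≤ nsq v := by
  have e : (nsq (Q *ᵥ v) : ℂ) = ip v (Q *ᵥ v) := by rw [nsq_mulVec, h1, h2]
  have h3 := ip_cs v (Q *ᵥ v)
  rw [← e, Complex.norm_real, Real.norm_of_nonneg (nsq_nonneg _)] at h3
  have ha := nsq_nonneg (Q *ᵥ v)
  have hb := nsq_nonneg v
  by_contra hlt
  push Not at hlt
  have hpos : 0 < nsq (Q *ᵥ v) := lt_of_le_of_lt hb hlt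
  linarith only [h3, hb, hlt, mul_nonneg_of_nonpos_of_nonpos (Mathlib.Tactic.Linarith.sub_nonpos_of_le hb) (le_of_lt (Mathlib.Tactic.Linarith.sub_neg_of_lt hlt)), mul_pos_of_neg_of_neg (Mathlib.Tactic.Linarith.sub_neg_of_lt hlt) (Mathlib.Tactic.Linarith.sub_neg_of_lt hlt)]

theorem nsq_stoch_le (R : ι → ι → ℝ) (h0 : ∀ x y, 0 ≤ R x y) (h1 : ∀ x, ∑ y, R x y = 1)
    (h2 : ∀ y, ∑ x, R x y = 1) (v : ι → ℂ) :
    nsq ((Matrix.of fun x y => (R x y : ℂ)) *ᵥ v) ≤ nsq v := by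
  unfold nsq
  have key : ∀ x, ‖((Matrix.of fun x y => (R x y : ℂ)) *ᵥ v) x‖ ^ 2 ≤ ∑ y, R x y * ‖v y‖ ^ 2 := by
    intro x
    have e1 : ‖((Matrix.of fun x y => (R x y : ℂ)) *ᵥ v) x‖ ≤ ∑ y, √(R x y) * (√(R x y) * ‖v y‖) := by
      simp only [Matrix.mulVec, dotProduct, Matrix.of_apply]
      refine (norm_sum_le _ _).trans (le_of_eq ?_)
      refine Finset.sum_congr rfl fun y _ => ?_
      rw [norm_mul, Complex.norm_real, Real.norm_of_nonneg (h0 x y), ← mul_assoc,
        Real.mul_self_sqrt (h0 x y)]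
    have e2 := Finset.sum_mul_sq_le_sq_mul_sq Finset.univ (fun y => √(R x y))
      (fun y => √(R x y) * ‖v y‖)
    have e3 : ∑ y, √(R x y) ^ 2 = 1 := by
      rw [← h1 x]
      exact Finset.sum_congr rfl fun y _ => Real.sq_sqrt (h0 x y)
    have e4 : ∑ y, (√(R x y) * ‖v y‖) ^ 2 = ∑ y, R x y * ‖v y‖ ^ 2 :=
      Finset.sum_congr rfl fun y _ => by rw [mul_pow, Real.sq_sqrt (h0 x y)]
    rw [e3, e4, one_mul] at e2
    exact (pow_le_pow_left₀ (norm_nonneg _) e1 2).trans e2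
  refine (Finset.sum_le_sum fun x _ => key x).trans (le_of_eq ?_)
  rw [Finset.sum_comm]
  refine Finset.sum_congr rfl fun y _ => ?_
  rw [← Finset.sum_mul, h2, one_mul]

end Vec

variable {Ω : Type} [Fintype Ω] [DecidableEq Ω]

theorem tens_mul (K L : Ω → Matrix Ω Ω ℂ) : tens K * tens L = tens fun i => K i * L i := by
  ext x z
  simp only [tens, Matrix.mul_apply, Matrix.of_apply]
  rw [Finset.prod_univ_sum, Fintype.piFinset_univ]
  refine Finset.sum_congr rfl fun y _ => ?_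
  rw [Finset.prod_mul_distrib]

theorem tens_conjTranspose (K : Ω → Matrix Ω Ω ℂ) : (tens K)ᴴ = tens fun i => (K i)ᴴ := by
  ext x y
  simp only [tens, Matrix.conjTranspose_apply, Matrix.of_apply, star_prod]

theorem tens_one : tens (fun _ : Ω => (1 : Matrix Ω Ω ℂ)) = 1 := by
  ext x y
  simp only [tens, Matrix.of_apply, Matrix.one_apply]
  by_cases h : x = y
  · subst h
    simp
  · rw [if_neg h]
    obtain ⟨i, hi⟩ := Function.ne_iff.mp h
    exact Finset.prod_eq_zero (Finset.mem_univ i) (if_neg hi)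

theorem sum_ub (φ : (Ω → Ω) → ℂ) : ∑ x, ub Ω x * φ x = ∑ σ : Equiv.Perm Ω, φ σ := by
  have e1 : ∑ x, ub Ω x * φ x = ∑ x ∈ Finset.univ.filter (fun x : Ω → Ω => Function.Bijective x), φ x := by
    rw [Finset.sum_filter]
    refine Finset.sum_congr rfl fun x _ => ?_
    unfold ub
    split_ifs <;> simp
  rw [e1]
  symm
  refine Finset.sum_bij (fun σ _ => (σ : Ω → Ω)) ?_ ?_ ?_ ?_
  · intro σ _
    exact Finset.mem_filter.mpr ⟨Finset.mem_univ _, σ.bijective⟩
  · intro σ _ τ _ h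
    exact DFunLike.coe_injective h
  · intro x hx
    exact ⟨Equiv.ofBijective x (Finset.mem_filter.mp hx).2, Finset.mem_univ _, rfl⟩
  · intro σ _
    rfl

theorem br_eq_ip (K : Ω → Matrix Ω Ω ℂ) : br K = ip (ub Ω) (tens K *ᵥ ub Ω) := by
  unfold br ip
  have e : ∀ x, (starRingEnd ℂ) (ub Ω x) = ub Ω x := by
    intro x
    unfold ub
    split_ifs <;> simp
  simp only [e]
  rw [sum_ub]
  refine Finset.sum_congr rfl fun σ _ => ?_
  simp only [Matrix.mulVec, dotProduct]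
  rw [← sum_ub (fun y => ∏ i, K i (σ i) (y i))]
  refine Finset.sum_congr rfl fun y _ => ?_
  rw [mul_comm]
  rfl

theorem br_sum {E : Type} [Fintype E] (K : Ω → E → Matrix Ω Ω ℂ) :
    br (fun i => ∑ e, K i e) = ∑ w : Ω → E, br fun i => K i (w i) := by
  unfold br
  symm
  rw [Finset.sum_comm]
  refine Finset.sum_congr rfl fun σ _ => ?_
  rw [Finset.sum_comm]
  refine Finset.sum_congr rfl fun π _ => ?_
  simp only [Matrix.sum_apply]
  rw [Finset.prod_univ_sum, Fintype.piFinset_univ]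

theorem br_smul (c : Ω → ℂ) (K : Ω → Matrix Ω Ω ℂ) :
    br (fun i => c i • K i) = (∏ i, c i) * br K := by
  unfold br
  simp only [Matrix.smul_apply, smul_eq_mul, Finset.prod_mul_distrib, Finset.mul_sum]

theorem br_zero (K : Ω → Matrix Ω Ω ℂ) {i : Ω} (h : K i = 0) : br K = 0 := by
  unfold br
  refine Finset.sum_eq_zero fun σ _ => Finset.sum_eq_zero fun π _ => ?_
  exact Finset.prod_eq_zero (Finset.mem_univ i) (by rw [h]; rfl)

theorem br_perm (K : Ω → Matrix Ω Ω ℂ) (g : Equiv.Perm Ω) : br (fun i => K (g i)) = br K := by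
  unfold br
  symm
  rw [← Equiv.sum_comp (Equiv.mulRight g⁻¹)]
  refine Finset.sum_congr rfl fun σ _ => ?_
  rw [← Equiv.sum_comp (Equiv.mulRight g⁻¹)]
  refine Finset.sum_congr rfl fun π _ => ?_
  rw [← Equiv.prod_comp g]
  refine Finset.prod_congr rfl fun i _ => ?_
  simp

theorem br_const (M : Matrix Ω Ω ℂ) :
    br (fun _ => M) = ((Fintype.card Ω).factorial : ℂ) * M.permanent := by
  unfold br
  rw [Finset.sum_comm]
  have e : ∀ π : Equiv.Perm Ω, ∑ σ : Equiv.Perm Ω, ∏ i, M (σ i) (π i) = M.permanent := by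
    intro π
    unfold Matrix.permanent
    rw [← Equiv.sum_comp (Equiv.mulRight π)]
    refine Finset.sum_congr rfl fun σ _ => ?_
    rw [← Equiv.prod_comp π (fun i => M (σ i) i)]
    refine Finset.prod_congr rfl fun i _ => ?_
    simp
  simp only [e]
  rw [Finset.sum_const, Finset.card_univ, Fintype.card_perm, nsmul_eq_mul]

/-- A tensor product of self-adjoint idempotents has a nonnegative bracket. -/
theorem br_proj (K : Ω → Matrix Ω Ω ℂ) (h1 : ∀ i, (K i)ᴴ = K i) (h2 : ∀ i, K i * K i = K i) :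
    br K = (nsq (tens K *ᵥ ub Ω) : ℂ) := by
  rw [br_eq_ip, nsq_mulVec, tens_conjTranspose, tens_mul]
  simp only [h1, h2]

theorem lift_mul (i : Ω) (K L : Matrix Ω Ω ℂ) : lift i K * lift i L = lift i (K * L) := by
  unfold lift
  rw [tens_mul]
  congr 1
  funext j
  split_ifs <;> simp

theorem lift_conjTranspose (i : Ω) (K : Matrix Ω Ω ℂ) : (lift i K)ᴴ = lift i Kᴴ := by
  unfold lift
  rw [tens_conjTranspose]
  congr 1
  funext j
  split_ifs <;> simp

theorem lift_one (i : Ω) : lift i (1 : Matrix Ω Ω ℂ) = 1 := by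
  unfold lift
  simp only [ite_self]
  exact tens_one

theorem lift_apply_Base (i : Ω) (K : Matrix Ω Ω ℂ) (x y : Ω → Ω) :
    lift i K x y =
      K (x i) (y i) * ∏ j ∈ univ.erase i, (1 : Matrix Ω Ω ℂ) (x j) (y j) := by
  simp only [lift, tens, Matrix.of_apply]
  rw [← Finset.mul_prod_erase Finset.univ _ (Finset.mem_univ i), if_pos rfl]
  congr 1
  refine Finset.prod_congr rfl fun j hj => ?_
  rw [if_neg (Finset.ne_of_mem_erase hj)]

theorem lift_sum {T : Type} (i : Ω) (s : Finset T) (K : T → Matrix Ω Ω ℂ) :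
    lift i (∑ t ∈ s, K t) = ∑ t ∈ s, lift i (K t) := by
  ext x y
  rw [Matrix.sum_apply]
  simp only [lift_apply_Base, Matrix.sum_apply, Finset.sum_mul]

theorem lift_smul (i : Ω) (c : ℂ) (K : Matrix Ω Ω ℂ) : lift i (c • K) = c • lift i K := by
  ext x y
  simp only [lift_apply_Base, Matrix.smul_apply, smul_eq_mul, mul_assoc]

theorem E0_star : (E0 Ω)ᴴ = E0 Ω := by
  ext x y
  simp [E0, Matrix.conjTranspose_apply]

theorem E0_mul_self [Nonempty Ω] : E0 Ω * E0 Ω = E0 Ω := by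
  ext x y
  have h : (Fintype.card Ω : ℂ) ≠ 0 := Nat.cast_ne_zero.mpr Fintype.card_ne_zero
  simp only [E0, Matrix.mul_apply, Matrix.of_apply, Finset.sum_const, Finset.card_univ,
    nsmul_eq_mul]
  field_simp

end Pool.Agent.Work.MP_66fdf3_co.Full
end

-- merged part: Pool.Agent.Work.MP_66fdf3_co.Full.PM
section
/-!
Permutation matrices and the commutant.
-/

namespace Pool.Agent.Work.MP_66fdf3_co.Full

open Finset Matrix

variable {G Ω : Type} [Group G] [Finite G] [MulAction G Ω] [Fintype Ω] [DecidableEq Ω]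

noncomputable def Pm (Ω : Type) [DecidableEq Ω] [MulAction G Ω] (g : G) : Matrix Ω Ω ℂ :=
  Matrix.of fun x y => if x = g • y then 1 else 0

theorem mul_Pm_apply_PM {β : Type} (g : G) (M : Matrix β Ω ℂ) (x : β) (y : Ω) :
    (M * Pm Ω g) x y = M x (g • y) := by
  simp [Matrix.mul_apply, Pm]

theorem Pm_one : Pm Ω (1 : G) = 1 := by
  ext x y
  simp [Pm, Matrix.one_apply]

theorem Pm_mul (g h : G) : Pm Ω (g * h) = Pm Ω g * Pm Ω h := by
  ext x y
  rw [mul_Pm_apply_PM]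
  simp [Pm, mul_smul]

theorem Pm_star (g : G) : (Pm Ω g)ᴴ = Pm Ω g⁻¹ := by
  ext x y
  have h : y = g • x ↔ x = g⁻¹ • y := by rw [eq_inv_smul_iff, eq_comm]
  simp only [Pm, Matrix.conjTranspose_apply, Matrix.of_apply, h]
  split_ifs <;> simp

theorem Pm_mul_apply {β : Type} (g : G) (M : Matrix Ω β ℂ) (x : Ω) (y : β) :
    (Pm Ω g * M) x y = M (g⁻¹ • x) y := by
  have h : ∀ z : Ω, x = g • z ↔ z = g⁻¹ • x := fun z => by rw [eq_inv_smul_iff, eq_comm]
  simp [Matrix.mul_apply, Pm, h]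

theorem mul_Pm_apply {β : Type} (g : G) (M : Matrix β Ω ℂ) (x : β) (y : Ω) :
    (M * Pm Ω g) x y = M x (g • y) := mul_Pm_apply_PM g M x y

theorem inv_iff_comm (M : Matrix Ω Ω ℂ) : Inv G M ↔ ∀ g : G, Pm Ω g * M = M * Pm Ω g := by
  constructor
  · intro h g
    ext x y
    rw [Pm_mul_apply, mul_Pm_apply, ← h g, smul_inv_smul]
  · intro h g x y
    rw [← mul_Pm_apply g M (g • x) y, ← h g, Pm_mul_apply, inv_smul_smul]

theorem Inv.mul {M N : Matrix Ω Ω ℂ} (h : Inv G M) (h' : Inv G N) : Inv G (M * N) := by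
  rw [inv_iff_comm] at h h' ⊢
  intro g
  rw [← Matrix.mul_assoc, h g, Matrix.mul_assoc, h' g, Matrix.mul_assoc]

theorem Inv.add {M N : Matrix Ω Ω ℂ} (h : Inv G M) (h' : Inv G N) : Inv G (M + N) :=
  fun g x y => by rw [Matrix.add_apply, Matrix.add_apply, h g, h' g]

theorem Inv.sub {M N : Matrix Ω Ω ℂ} (h : Inv G M) (h' : Inv G N) : Inv G (M - N) :=
  fun g x y => by rw [Matrix.sub_apply, Matrix.sub_apply, h g, h' g]

theorem Inv.smul {M : Matrix Ω Ω ℂ} (c : ℂ) (h : Inv G M) : Inv G (c • M) :=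
  fun g x y => by rw [Matrix.smul_apply, Matrix.smul_apply, h g]

theorem Inv.star {M : Matrix Ω Ω ℂ} (h : Inv G M) : Inv G Mᴴ :=
  fun g x y => by rw [Matrix.conjTranspose_apply, Matrix.conjTranspose_apply, h g]

theorem inv_one : Inv G (1 : Matrix Ω Ω ℂ) :=
  fun g x y => by simp [Matrix.one_apply]

theorem inv_zero : Inv G (0 : Matrix Ω Ω ℂ) := fun _ _ _ => rfl

theorem inv_E0 : Inv G (E0 Ω) := fun _ _ _ => rfl

theorem Inv.diag (ht : ∀ x y : Ω, ∃ g : G, g • x = y) {M : Matrix Ω Ω ℂ} (h : Inv G M) (x : Ω) :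
    M x x = M.trace / (Fintype.card Ω : ℂ) := by
  have hc : (Fintype.card Ω : ℂ) ≠ 0 := Nat.cast_ne_zero.2 (Fintype.card_pos_iff.2 ⟨x⟩).ne'
  have h1 : ∀ y, M y y = M x x := fun y => by
    obtain ⟨g, rfl⟩ := ht x y
    exact h g x x
  rw [eq_div_iff hc]
  simp [Matrix.trace, h1, mul_comm]

theorem Inv.mul_E0 (ht : ∀ x y : Ω, ∃ g : G, g • x = y) {M : Matrix Ω Ω ℂ} (h : Inv G M) :
    ∃ c : ℂ, M * E0 Ω = c • E0 Ω := by
  rcases isEmpty_or_nonempty Ω with he | ⟨⟨x0⟩⟩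
  · exact ⟨0, Subsingleton.elim _ _⟩
  refine ⟨∑ z, M x0 z, ?_⟩
  ext x y
  obtain ⟨g, rfl⟩ := ht x0 x
  have h1 : ∑ z, M (g • x0) z = ∑ z, M x0 z := by
    rw [← Equiv.sum_comp (MulAction.toPerm g)]
    exact sum_congr rfl fun z _ => h g x0 z
  simp [Matrix.mul_apply, E0, ← sum_mul, h1]

theorem inv_Hr (ω b : Ω) : Inv G (Matrix.of fun x y => ((Hr G ω b x y : ℝ) : ℂ)) := by
  intro g x y
  have h : Col G ω b (g • x) (g • y) ↔ Col G ω b x y := by
    constructor
    · rintro ⟨k, h1, h2⟩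
      exact ⟨g⁻¹ * k, by rw [mul_smul, h1, inv_smul_smul], by rw [mul_smul, h2, inv_smul_smul]⟩
    · rintro ⟨k, h1, h2⟩
      exact ⟨g * k, by rw [mul_smul, h1], by rw [mul_smul, h2]⟩
  simp only [Matrix.of_apply, Hr]
  by_cases h1 : Col G ω b x y
  · rw [if_pos h1, if_pos (h.2 h1)]
  · rw [if_neg h1, if_neg fun h2 => h1 (h.1 h2)]

/-- A minimal orthogonal family of invariant projections. -/
structure MinFam (G : Type) {Ω : Type} [Group G] [MulAction G Ω] [Fintype Ω] [DecidableEq Ω] {n : ℕ}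
    (E : Fin n → Matrix Ω Ω ℂ) (a0 : Fin n) : Prop where
  e0 : E a0 = E0 Ω
  inv : ∀ a, Inv G (E a)
  star : ∀ a, (E a)ᴴ = E a
  idem : ∀ a, E a * E a = E a
  ne : ∀ a, E a ≠ 0
  orth : ∀ a b, a ≠ b → E a * E b = 0
  sum : ∑ a, E a = 1
  min : ∀ a X, Inv G X → ∃ c : ℂ, E a * X * E a = c • E a

end Pool.Agent.Work.MP_66fdf3_co.Full
end

-- merged part: Pool.Agent.Work.MP_66fdf3_co.Full.ProjB
section
/-!
Factorisation of a self-adjoint idempotent through an isometry.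
Plan: `Matrix.IsHermitian.spectral_theorem`; eigenvalues of an idempotent are `0` or `1`; keep the
columns of the unitary eigenvector matrix with eigenvalue `1` (index them by `Fin r` through
`Fintype.equivFin` of the subtype); the trace is `trace (B * Bᴴ) = trace (Bᴴ * B) = r`.
`spectral_proj`: with `Y = U D Uᴴ` take a nonzero eigenvalue `l` and `Q = U * diagonal (indicator) * Uᴴ`
(if `Z` commutes with `Y`, then `Uᴴ Z U` commutes with `D`, so its entries between different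
eigenvalues vanish); alternatively `cfc` of an indicator with `Commute.cfc_real`.
-/

namespace Pool.Agent.Work.MP_66fdf3_co.Full

open Finset Matrix

variable {Ω : Type} [Fintype Ω] [DecidableEq Ω]

theorem ProjB_spec (Y : Matrix Ω Ω ℂ) (h1 : Yᴴ = Y) :
    ∃ (U : Matrix Ω Ω ℂ) (d : Ω → ℂ), Uᴴ * U = 1 ∧ U * Uᴴ = 1 ∧ Y = U * diagonal d * Uᴴ := by
  have hY : Y.IsHermitian := h1
  refine ⟨hY.eigenvectorUnitary, RCLike.ofReal ∘ hY.eigenvalues, ?_, ?_, ?_⟩
  · exact hY.eigenvectorUnitary.2.1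
  · exact hY.eigenvectorUnitary.2.2
  · exact hY.spectral_theorem

theorem ProjB_mul {U : Matrix Ω Ω ℂ} (hU : Uᴴ * U = 1) (A B : Matrix Ω Ω ℂ) :
    U * A * Uᴴ * (U * B * Uᴴ) = U * (A * B) * Uᴴ := by
  calc U * A * Uᴴ * (U * B * Uᴴ) = U * A * (Uᴴ * U) * B * Uᴴ := by simp only [Matrix.mul_assoc]
    _ = U * (A * B) * Uᴴ := by rw [hU, Matrix.mul_one, Matrix.mul_assoc U]

theorem ProjB_inj {U : Matrix Ω Ω ℂ} (hU : Uᴴ * U = 1) {A B : Matrix Ω Ω ℂ}
    (h : U * A * Uᴴ = U * B * Uᴴ) : A = B := by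
  have key : ∀ C : Matrix Ω Ω ℂ, Uᴴ * (U * C * Uᴴ) * U = C := fun C => by
    calc Uᴴ * (U * C * Uᴴ) * U = (Uᴴ * U) * C * (Uᴴ * U) := by simp only [Matrix.mul_assoc]
      _ = C := by rw [hU, Matrix.one_mul, Matrix.mul_one]
  rw [← key A, h, key]

theorem proj_factor (E : Matrix Ω Ω ℂ) (h1 : Eᴴ = E) (h2 : E * E = E) :
    ∃ (r : ℕ) (B : Matrix Ω (Fin r) ℂ), B * Bᴴ = E ∧ Bᴴ * B = 1 ∧ E.trace = (r : ℂ) := by
  classical
  obtain ⟨U, d, u1, -, hE⟩ := ProjB_spec E h1
  have hd : ∀ i, d i * d i = d i := fun i => by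
    rw [hE, ProjB_mul u1] at h2
    have := congrFun (congrFun (ProjB_inj u1 h2) i) i
    simpa using this
  let e := (Fintype.equivFin {i // d i = 1}).symm
  let f : Fin (Fintype.card {i // d i = 1}) → Ω := fun k => (e k).1
  have hf : Function.Injective f := Subtype.val_injective.comp e.injective
  have b1 : U.submatrix id f * (U.submatrix id f)ᴴ = E := by
    ext x y
    rw [hE, Matrix.mul_apply, Matrix.mul_apply]
    simp only [submatrix_apply, id, conjTranspose_apply, mul_diagonal]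
    rw [e.sum_comp (fun t : {i // d i = 1} => U x t.1 * star (U y t.1)),
      ← Finset.sum_subtype (univ.filter fun i => d i = 1) (by simp)
        (fun i => U x i * star (U y i)), Finset.sum_filter]
    refine Finset.sum_congr rfl fun i _ => ?_
    split_ifs with h
    · rw [h, mul_one]
    · have : d i = 0 := by
        by_contra h0
        exact h (mul_left_cancel₀ h0 (by rw [hd, mul_one]))
      rw [this, mul_zero, zero_mul]
  have b2 : (U.submatrix id f)ᴴ * U.submatrix id f = 1 := by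
    rw [conjTranspose_submatrix, ← submatrix_mul _ _ _ id _ Function.bijective_id, u1,
      submatrix_one _ hf]
  refine ⟨_, U.submatrix id f, b1, b2, ?_⟩
  rw [← b1, trace_mul_comm, b2, trace_one, Fintype.card_fin]

theorem spectral_proj (Y : Matrix Ω Ω ℂ) (h1 : Yᴴ = Y) (h0 : Y ≠ 0) :
    ∃ (l : ℂ) (Q : Matrix Ω Ω ℂ), l ≠ 0 ∧ Q ≠ 0 ∧ Qᴴ = Q ∧ Q * Q = Q ∧ Y * Q = l • Q ∧
      ∀ Z : Matrix Ω Ω ℂ, Z * Y = Y * Z → Z * Q = Q * Z := by
  classical
  obtain ⟨U, d, u1, u2, hY⟩ := ProjB_spec Y h1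
  obtain ⟨i0, hi⟩ : ∃ i, d i ≠ 0 := by
    by_contra h
    push Not at h
    apply h0
    rw [hY, show d = 0 from funext h]
    simp
  let c : Ω → ℂ := fun i => if d i = d i0 then 1 else 0
  refine ⟨d i0, U * diagonal c * Uᴴ, hi, fun h => ?_, ?_, ?_, ?_, fun Z hZ => ?_⟩
  · have := congrFun (congrFun (ProjB_inj u1 (B := 0) (by simpa using h)) i0) i0
    simp [c] at this
  · rw [conjTranspose_mul, conjTranspose_mul, conjTranspose_conjTranspose, diagonal_conjTranspose,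
      ← Matrix.mul_assoc]
    congr 3
    ext i
    simp only [c, Pi.star_apply]
    split_ifs <;> simp
  · rw [ProjB_mul u1, diagonal_mul_diagonal]
    congr 3
    ext i
    simp only [c]
    split_ifs <;> simp
  · rw [hY, ProjB_mul u1, diagonal_mul_diagonal, ← Matrix.smul_mul, ← Matrix.mul_smul,
      ← diagonal_smul]
    congr 3
    ext i
    simp only [c, Pi.smul_apply, smul_eq_mul]
    split_ifs with h <;> simp [h]
  · obtain ⟨W, rfl⟩ : ∃ W, Z = U * W * Uᴴ := ⟨Uᴴ * Z * U, by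
      calc Z = (U * Uᴴ) * Z * (U * Uᴴ) := by rw [u2, Matrix.one_mul, Matrix.mul_one]
        _ = _ := by simp only [Matrix.mul_assoc]⟩
    rw [hY, ProjB_mul u1, ProjB_mul u1] at hZ
    rw [ProjB_mul u1, ProjB_mul u1]
    congr 2
    ext i j
    have := congrFun (congrFun (ProjB_inj u1 hZ) i) j
    rw [mul_diagonal, diagonal_mul] at this ⊢
    by_cases hw : W i j = 0
    · rw [hw, zero_mul, mul_zero]
    · have e : d j = d i := mul_left_cancel₀ hw (by rw [this, mul_comm])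
      simp only [c, e, mul_comm]

end Pool.Agent.Work.MP_66fdf3_co.Full
end

-- merged part: Pool.Agent.Work.MP_66fdf3_co.Full.S1a
section
/-!
Existence of a minimal family.  Let `P n` say that a family of size `n` with all properties of `MinFam`
except `min` exists.  `P 1` (if `1 - E0 = 0`) or `P 2` holds; `P n → n ≤ card Ω` (`proj_factor`: the traces
are positive integers with sum `card Ω`).  Take the largest `n` (`Nat.findGreatest`).  For `a0`, `min` follows
from `Inv.mul_E0`.  For `a ≠ a0` and self-adjoint `Y = E a * X * E a ≠ 0` use `spectral_proj`: `Q` is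
invariant (`inv_iff_comm`), `Q = l⁻¹ • Y * Q` gives `E a * Q = Q = Q * E a`; if `Q ≠ E a`, replace `E a` by `Q`
and add `E a - Q` (`Fin.cons` on top of `Function.update`), contradicting maximality; so `Y = l • E a`.
A general `X` is `(X + Xᴴ) / 2 + I • (X - Xᴴ) / (2 I)`.
-/

namespace Pool.Agent.Work.MP_66fdf3_co.Full

open Finset Matrix

variable {G Ω : Type} [Group G] [Finite G] [MulAction G Ω] [Fintype Ω] [DecidableEq Ω]

/-- An orthogonal family of nonzero invariant projections with sum `1` that contains `E0`. -/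
structure FamS1a (G : Type) {Ω : Type} [Group G] [MulAction G Ω] [Fintype Ω] [DecidableEq Ω]
    (S : Finset (Matrix Ω Ω ℂ)) : Prop where
  e0 : E0 Ω ∈ S
  inv : ∀ A ∈ S, Inv G A
  star : ∀ A ∈ S, Aᴴ = A
  idem : ∀ A ∈ S, A * A = A
  ne : ∀ A ∈ S, A ≠ 0
  orth : ∀ A ∈ S, ∀ B ∈ S, A ≠ B → A * B = 0
  sum : ∑ A ∈ S, A = 1

omit [Finite G] in
theorem cardS1a {S : Finset (Matrix Ω Ω ℂ)} (h : FamS1a G S) : S.card ≤ Fintype.card Ω := by
  have h1 : ∀ A ∈ S, ∃ r : ℕ, 1 ≤ r ∧ A.trace = (r : ℂ) := by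
    intro A hA
    obtain ⟨r, B, hB, -, hr⟩ := proj_factor A (h.star A hA) (h.idem A hA)
    refine ⟨r, ?_, hr⟩
    rcases Nat.eq_zero_or_pos r with h0 | h0
    · subst h0
      exfalso
      apply h.ne A hA
      rw [← hB]
      ext x y
      simp [Matrix.mul_apply]
    · exact h0
  choose! r hr1 hr2 using h1
  have h2 : ((∑ A ∈ S, r A : ℕ) : ℂ) = (Fintype.card Ω : ℂ) := by
    have := congrArg Matrix.trace h.sum
    rw [Matrix.trace_sum, Matrix.trace_one] at this
    rw [← this, Nat.cast_sum]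
    exact Finset.sum_congr rfl fun A hA => (hr2 A hA).symm
  have h3 : ∑ A ∈ S, r A = Fintype.card Ω := by exact_mod_cast h2
  rw [← h3, Finset.card_eq_sum_ones]
  exact Finset.sum_le_sum hr1

omit [DecidableEq Ω] in
theorem E0_neS1a [Nonempty Ω] : E0 Ω ≠ 0 := by
  intro h
  obtain ⟨x⟩ := ‹Nonempty Ω›
  have := congrFun (congrFun h x) x
  simp [E0] at this

theorem existsS1a [Nonempty Ω] : ∃ S : Finset (Matrix Ω Ω ℂ), FamS1a G S := by
  classical
  by_cases h : (1 : Matrix Ω Ω ℂ) - E0 Ω = 0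
  · refine ⟨{E0 Ω}, ⟨by simp, ?_, ?_, ?_, ?_, ?_, ?_⟩⟩
    · intro A hA
      rw [Finset.mem_singleton.1 hA]
      exact inv_E0
    · intro A hA
      rw [Finset.mem_singleton.1 hA]
      exact E0_star
    · intro A hA
      rw [Finset.mem_singleton.1 hA]
      exact E0_mul_self
    · intro A hA
      rw [Finset.mem_singleton.1 hA]
      exact E0_neS1a
    · intro A hA B hB hAB
      rw [Finset.mem_singleton.1 hA, Finset.mem_singleton.1 hB] at hAB
      exact absurd rfl hAB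
    · rw [Finset.sum_singleton]
      exact (sub_eq_zero.1 h).symm
  · have o1 : E0 Ω * (1 - E0 Ω) = 0 := by rw [mul_sub, mul_one, E0_mul_self, sub_self]
    have o2 : (1 - E0 Ω) * E0 Ω = 0 := by rw [sub_mul, one_mul, E0_mul_self, sub_self]
    have hne : E0 Ω ≠ 1 - E0 Ω := by
      intro he
      apply E0_neS1a (Ω := Ω)
      rw [← he, E0_mul_self] at o1
      exact o1
    refine ⟨{E0 Ω, 1 - E0 Ω}, ⟨by simp, ?_, ?_, ?_, ?_, ?_, ?_⟩⟩
    · intro A hA
      rcases Finset.mem_insert.1 hA with hA | hA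
      · rw [hA]
        exact inv_E0
      · rw [Finset.mem_singleton.1 hA]
        exact inv_one.sub inv_E0
    · intro A hA
      rcases Finset.mem_insert.1 hA with hA | hA
      · rw [hA]
        exact E0_star
      · rw [Finset.mem_singleton.1 hA, Matrix.conjTranspose_sub, Matrix.conjTranspose_one, E0_star]
    · intro A hA
      rcases Finset.mem_insert.1 hA with hA | hA
      · rw [hA]
        exact E0_mul_self
      · rw [Finset.mem_singleton.1 hA, mul_sub, mul_one, o2, sub_zero]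
    · intro A hA
      rcases Finset.mem_insert.1 hA with hA | hA
      · rw [hA]
        exact E0_neS1a
      · rw [Finset.mem_singleton.1 hA]
        exact h
    · intro A hA B hB hAB
      rcases Finset.mem_insert.1 hA with hA | hA <;> rcases Finset.mem_insert.1 hB with hB | hB
      · exact absurd (hA.trans hB.symm) hAB
      · rw [hA, Finset.mem_singleton.1 hB]
        exact o1
      · rw [hB, Finset.mem_singleton.1 hA]
        exact o2
      · exact absurd ((Finset.mem_singleton.1 hA).trans (Finset.mem_singleton.1 hB).symm) hAB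
    · rw [Finset.sum_pair hne]
      abel

/-- Splitting one member of a family. -/
theorem splitS1a {S : Finset (Matrix Ω Ω ℂ)} (h : FamS1a G S) {E Q : Matrix Ω Ω ℂ} (hE : E ∈ S)
    (hE0 : E ≠ E0 Ω) (q0 : Q ≠ 0) (q1 : Q ≠ E) (qi : Inv G Q) (qs : Qᴴ = Q) (qq : Q * Q = Q)
    (eq : E * Q = Q) : ∃ T : Finset (Matrix Ω Ω ℂ), FamS1a G T ∧ T.card = S.card + 1 := by
  classical
  have qe : Q * E = Q := by
    have := congrArg Matrix.conjTranspose eq
    rwa [Matrix.conjTranspose_mul, qs, h.star E hE] at this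
  have ee := h.idem E hE
  have r0 : E - Q ≠ 0 := sub_ne_zero.2 q1.symm
  have rr : (E - Q) * (E - Q) = E - Q := by
    rw [mul_sub, sub_mul, sub_mul, ee, qe, eq, qq, sub_self, sub_zero]
  have qr : Q * (E - Q) = 0 := by rw [mul_sub, qe, qq, sub_self]
  have rq : (E - Q) * Q = 0 := by rw [sub_mul, eq, qq, sub_self]
  have qa : ∀ A ∈ S.erase E, Q * A = 0 := by
    intro A hA
    rw [← qe, mul_assoc, h.orth E hE A (Finset.mem_of_mem_erase hA)
      (Finset.ne_of_mem_erase hA).symm, mul_zero]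
  have aq : ∀ A ∈ S.erase E, A * Q = 0 := by
    intro A hA
    rw [← eq, ← mul_assoc, h.orth A (Finset.mem_of_mem_erase hA) E hE
      (Finset.ne_of_mem_erase hA), zero_mul]
  have ra : ∀ A ∈ S.erase E, (E - Q) * A = 0 := by
    intro A hA
    rw [sub_mul, qa A hA, h.orth E hE A (Finset.mem_of_mem_erase hA)
      (Finset.ne_of_mem_erase hA).symm, sub_zero]
  have ar : ∀ A ∈ S.erase E, A * (E - Q) = 0 := by
    intro A hA
    rw [mul_sub, aq A hA, h.orth A (Finset.mem_of_mem_erase hA) E hE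
      (Finset.ne_of_mem_erase hA), sub_zero]
  have n1 : E - Q ∉ S.erase E := fun hm => r0 (rr.symm.trans (ra _ hm))
  have n2 : Q ∉ insert (E - Q) (S.erase E) := by
    intro hm
    rcases Finset.mem_insert.1 hm with hm | hm
    · apply q0
      rw [← hm, qq] at qr
      exact qr
    · exact q0 (qq.symm.trans (qa _ hm))
  refine ⟨insert Q (insert (E - Q) (S.erase E)), ⟨?_, ?_, ?_, ?_, ?_, ?_, ?_⟩, ?_⟩
  · exact Finset.mem_insert_of_mem (Finset.mem_insert_of_mem
      (Finset.mem_erase.2 ⟨hE0.symm, h.e0⟩))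
  · intro A hA
    rcases Finset.mem_insert.1 hA with hA | hA
    · rw [hA]
      exact qi
    rcases Finset.mem_insert.1 hA with hA | hA
    · rw [hA]
      exact (h.inv E hE).sub qi
    · exact h.inv A (Finset.mem_of_mem_erase hA)
  · intro A hA
    rcases Finset.mem_insert.1 hA with hA | hA
    · rw [hA]
      exact qs
    rcases Finset.mem_insert.1 hA with hA | hA
    · rw [hA, Matrix.conjTranspose_sub, qs, h.star E hE]
    · exact h.star A (Finset.mem_of_mem_erase hA)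
  · intro A hA
    rcases Finset.mem_insert.1 hA with hA | hA
    · rw [hA]
      exact qq
    rcases Finset.mem_insert.1 hA with hA | hA
    · rw [hA]
      exact rr
    · exact h.idem A (Finset.mem_of_mem_erase hA)
  · intro A hA
    rcases Finset.mem_insert.1 hA with hA | hA
    · rw [hA]
      exact q0
    rcases Finset.mem_insert.1 hA with hA | hA
    · rw [hA]
      exact r0
    · exact h.ne A (Finset.mem_of_mem_erase hA)
  · intro A hA B hB hAB
    simp only [Finset.mem_insert] at hA hB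
    rcases hA with hA | hA | hA <;> rcases hB with hB | hB | hB
    · exact absurd (hA.trans hB.symm) hAB
    · rw [hA, hB]
      exact qr
    · rw [hA]
      exact qa B hB
    · rw [hA, hB]
      exact rq
    · exact absurd (hA.trans hB.symm) hAB
    · rw [hA]
      exact ra B hB
    · rw [hB]
      exact aq A hA
    · rw [hB]
      exact ar A hA
    · exact h.orth A (Finset.mem_of_mem_erase hA) B (Finset.mem_of_mem_erase hB) hAB
  · rw [Finset.sum_insert n2, Finset.sum_insert n1, ← h.sum, ← Finset.add_sum_erase S _ hE]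
    abel
  · rw [Finset.card_insert_of_notMem n2, Finset.card_insert_of_notMem n1,
      Finset.card_erase_add_one hE]

theorem hermS1a {S : Finset (Matrix Ω Ω ℂ)} (h : FamS1a G S)
    (hmax : ∀ T : Finset (Matrix Ω Ω ℂ), FamS1a G T → T.card ≤ S.card) {E : Matrix Ω Ω ℂ}
    (hE : E ∈ S) (hE0 : E ≠ E0 Ω) {X : Matrix Ω Ω ℂ} (hX : Inv G X) (hs : Xᴴ = X) :
    ∃ c : ℂ, E * X * E = c • E := by
  by_cases h0 : E * X * E = 0
  · exact ⟨0, by rw [h0, zero_smul]⟩
  have ys : (E * X * E)ᴴ = E * X * E := by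
    rw [Matrix.conjTranspose_mul, Matrix.conjTranspose_mul, hs, h.star E hE, mul_assoc]
  have yi : Inv G (E * X * E) := ((h.inv E hE).mul hX).mul (h.inv E hE)
  obtain ⟨l, Q, hl, q0, qs, qq, hY, hc⟩ := spectral_proj _ ys h0
  have qi : Inv G Q := (inv_iff_comm Q).2 fun g => hc _ ((inv_iff_comm _).1 yi g)
  have eq : E * Q = Q := by
    have h1 : l • (E * Q) = l • Q := by
      rw [← Matrix.mul_smul, ← hY, ← mul_assoc, ← mul_assoc, ← mul_assoc, h.idem E hE]
    exact smul_right_injective _ hl h1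
  by_cases q1 : Q = E
  · refine ⟨l, ?_⟩
    rw [q1, mul_assoc (E * X), h.idem E hE] at hY
    exact hY
  · obtain ⟨T, hT, hc⟩ := splitS1a h hE hE0 q0 q1 qi qs qq eq
    have := hmax T hT
    omega

theorem minS1a (ht : ∀ x y : Ω, ∃ g : G, g • x = y) {S : Finset (Matrix Ω Ω ℂ)} (h : FamS1a G S)
    (hmax : ∀ T : Finset (Matrix Ω Ω ℂ), FamS1a G T → T.card ≤ S.card) {E : Matrix Ω Ω ℂ}
    (hE : E ∈ S) {X : Matrix Ω Ω ℂ} (hX : Inv G X) : ∃ c : ℂ, E * X * E = c • E := by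
  by_cases hE0 : E = E0 Ω
  · obtain ⟨c, hc⟩ := Inv.mul_E0 ht hX
    refine ⟨c, ?_⟩
    have ee := h.idem E hE
    rw [hE0] at ee ⊢
    rw [mul_assoc, hc, Matrix.mul_smul, ee]
  · obtain ⟨a, ha⟩ := hermS1a h hmax hE hE0 (X := X + Xᴴ) (hX.add hX.star)
      (by rw [Matrix.conjTranspose_add, Matrix.conjTranspose_conjTranspose, add_comm])
    obtain ⟨b, hb⟩ := hermS1a h hmax hE hE0 (X := Complex.I • (X - Xᴴ))
      ((hX.sub hX.star).smul _)
      (by
        rw [Matrix.conjTranspose_smul, Matrix.conjTranspose_sub, Matrix.conjTranspose_conjTranspose,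
          Complex.star_def, Complex.conj_I, neg_smul, ← smul_neg, neg_sub])
    refine ⟨(2 : ℂ)⁻¹ * (a - Complex.I * b), ?_⟩
    have hX' : X = (2 : ℂ)⁻¹ • ((X + Xᴴ) - Complex.I • (Complex.I • (X - Xᴴ))) := by
      rw [smul_smul, Complex.I_mul_I, neg_smul, one_smul, sub_neg_eq_add]
      ext x y
      simp only [Matrix.smul_apply, Matrix.add_apply, Matrix.sub_apply, smul_eq_mul]
      ring
    calc E * X * E
        = E * ((2 : ℂ)⁻¹ • ((X + Xᴴ) - Complex.I • (Complex.I • (X - Xᴴ)))) * E := by rw [← hX']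
      _ = (2 : ℂ)⁻¹ • (E * (X + Xᴴ) * E - Complex.I • (E * (Complex.I • (X - Xᴴ)) * E)) := by
        generalize Complex.I • (X - Xᴴ) = Z
        rw [Matrix.mul_smul, Matrix.smul_mul, mul_sub, sub_mul, Matrix.mul_smul, Matrix.smul_mul]
      _ = _ := by rw [ha, hb, smul_smul, ← sub_smul, smul_smul]

theorem exists_minFam [Nonempty Ω] (ht : ∀ x y : Ω, ∃ g : G, g • x = y) :
    ∃ (n : ℕ) (E : Fin n → Matrix Ω Ω ℂ) (a0 : Fin n), MinFam G E a0 := by
  classical
  obtain ⟨S0, hS0⟩ := existsS1a (G := G) (Ω := Ω)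
  let P : ℕ → Prop := fun n => ∃ S : Finset (Matrix Ω Ω ℂ), FamS1a G S ∧ S.card = n
  obtain ⟨S, h, hc⟩ : P (Nat.findGreatest P (Fintype.card Ω)) :=
    Nat.findGreatest_spec (P := P) (cardS1a hS0) ⟨S0, hS0, rfl⟩
  have hmax : ∀ T : Finset (Matrix Ω Ω ℂ), FamS1a G T → T.card ≤ S.card := by
    intro T hT
    rw [hc]
    exact Nat.le_findGreatest (cardS1a hT) ⟨T, hT, rfl⟩
  let e := S.equivFin
  refine ⟨S.card, fun a => (e.symm a : Matrix Ω Ω ℂ), e ⟨E0 Ω, h.e0⟩, ?_, ?_, ?_, ?_, ?_, ?_, ?_, ?_⟩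
  · simp
  · exact fun a => h.inv _ (e.symm a).2
  · exact fun a => h.star _ (e.symm a).2
  · exact fun a => h.idem _ (e.symm a).2
  · exact fun a => h.ne _ (e.symm a).2
  · intro a b hab
    exact h.orth _ (e.symm a).2 _ (e.symm b).2 fun he => hab (e.symm.injective (Subtype.ext he))
  · rw [← h.sum, ← Finset.sum_coe_sort S]
    exact e.symm.sum_comp (fun A : S => (A : Matrix Ω Ω ℂ))
  · exact fun a X hX => minS1a ht h hmax (e.symm a).2 hX

end Pool.Agent.Work.MP_66fdf3_co.Full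
end

-- merged part: Pool.Agent.Work.MP_66fdf3_co.Full.SP5
section
/-!
Reduced trace.  Let `Q j = if j ∈ S then 1 - E0 else E0` and, for a matrix `K`,
`ell K = br (fun j => if j = i then K else Q j) = ∑ x y, K x y * ρ x y` with
`ρ x y = ∑ σ π, if σ i = x ∧ π i = y then ∏ j ≠ i, Q j (σ j) (π j) else 0`.  The entries of `Q j` only depend
on whether the indices are equal, so `ρ (g x) (g y) = ρ x y` for every permutation `g` (reindex
`σ ↦ g * σ`, `π ↦ g * π`); hence `ρ x y = if x = y then r1 else r2` (two transitivity: use swaps).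
For `K` with total sum zero `ell K = (r1 - r2) * trace K`.  With `P = 1 - E0`: `ell P = nsq (vS S)`
(`br_proj`), `trace P = m - 1`; and `ip v (lift i L v) = ell (P L P) = ell L` (`ip_mulVec`, `tens_mul`).
-/

namespace Pool.Agent.Work.MP_66fdf3_co.Full

open Finset Matrix

variable {Ω : Type} [Fintype Ω] [DecidableEq Ω]

/-- The weight of the entry `(x, y)` in the position `i`. -/
noncomputable def SP5_rho (Q : Ω → Matrix Ω Ω ℂ) (i x y : Ω) : ℂ :=
  ∑ σ : Equiv.Perm Ω, ∑ π : Equiv.Perm Ω,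
    if σ i = x ∧ π i = y then ∏ j ∈ univ.erase i, Q j (σ j) (π j) else 0

theorem SP5_ell (Q : Ω → Matrix Ω Ω ℂ) (i : Ω) (K : Matrix Ω Ω ℂ) :
    br (fun j => if j = i then K else Q j) = ∑ x, ∑ y, K x y * SP5_rho Q i x y := by
  have e : ∀ σ π : Equiv.Perm Ω, ∏ j, (if j = i then K else Q j) (σ j) (π j) = ∑ x, ∑ y,
      K x y * if σ i = x ∧ π i = y then ∏ j ∈ univ.erase i, Q j (σ j) (π j) else 0 := by
    intro σ π
    rw [← mul_prod_erase univ _ (mem_univ i), if_pos rfl,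
      prod_congr rfl fun j hj => by rw [if_neg (ne_of_mem_erase hj)]]
    simp [ite_and]
  simp only [br, e, SP5_rho, mul_sum]
  refine (sum_congr rfl fun σ _ => sum_comm).trans (sum_comm.trans (sum_congr rfl fun x _ => ?_))
  exact (sum_congr rfl fun σ _ => sum_comm).trans sum_comm

theorem SP5_inv {Q : Ω → Matrix Ω Ω ℂ}
    (hQ : ∀ j (g : Equiv.Perm Ω) x y, Q j (g x) (g y) = Q j x y) (i : Ω) (g : Equiv.Perm Ω)
    (x y : Ω) : SP5_rho Q i (g x) (g y) = SP5_rho Q i x y := by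
  unfold SP5_rho
  rw [← Equiv.sum_comp (Equiv.mulLeft g)]
  refine sum_congr rfl fun σ _ => ?_
  rw [← Equiv.sum_comp (Equiv.mulLeft g)]
  simp only [Equiv.coe_mulLeft, Equiv.Perm.mul_apply, hQ, EmbeddingLike.apply_eq_iff_eq]

theorem SP5_const {Q : Ω → Matrix Ω Ω ℂ}
    (hQ : ∀ j (g : Equiv.Perm Ω) x y, Q j (g x) (g y) = Q j x y) (i : Ω) :
    ∃ c : ℂ, ∀ K : Matrix Ω Ω ℂ, K * E0 Ω = 0 →
      br (fun j => if j = i then K else Q j) = c * K.trace := by
  have h1 : ∀ x, SP5_rho Q i x x = SP5_rho Q i i i := fun x => by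
    rw [← SP5_inv hQ i (Equiv.swap i x) i i, Equiv.swap_apply_left]
  obtain ⟨r, h2⟩ : ∃ r, ∀ x y, x ≠ y → SP5_rho Q i x y = r := by
    by_cases h : ∃ x y : Ω, x ≠ y
    · obtain ⟨a, b, hab⟩ := h
      refine ⟨SP5_rho Q i a b, fun x y hxy => ?_⟩
      have h3 : a ≠ Equiv.swap x a y := fun e =>
        hxy ((Equiv.swap x a).injective ((Equiv.swap_apply_left x a).trans e))
      rw [← SP5_inv hQ i (Equiv.swap x a) x y, Equiv.swap_apply_left,
        ← SP5_inv hQ i (Equiv.swap (Equiv.swap x a y) b), Equiv.swap_apply_left,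
        Equiv.swap_apply_of_ne_of_ne h3 hab]
    · exact ⟨0, fun x y hxy => (h ⟨x, y, hxy⟩).elim⟩
  refine ⟨SP5_rho Q i i i - r, fun K hK => ?_⟩
  have hm : (Fintype.card Ω : ℂ) ≠ 0 := Nat.cast_ne_zero.2 (Fintype.card_pos_iff.2 ⟨i⟩).ne'
  rw [SP5_ell, Matrix.trace, mul_sum]
  refine sum_congr rfl fun x _ => ?_
  have h3 : ∑ y, K x y = 0 := by
    have h4 := congrFun (congrFun hK x) x
    simp only [Matrix.mul_apply, E0, Matrix.of_apply, Matrix.zero_apply, ← sum_mul] at h4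
    exact (mul_eq_zero.1 h4).resolve_right (inv_ne_zero hm)
  have h4 : ∀ y, K x y * SP5_rho Q i x y =
      K x y * r + if x = y then (SP5_rho Q i i i - r) * K x y else 0 := fun y => by
    split_ifs with h
    · rw [← h, h1]
      ring
    · rw [h2 x y h, add_zero]
  simp only [h4, sum_add_distrib, ← sum_mul, h3, zero_mul, zero_add, sum_ite_eq, mem_univ,
    if_true, Matrix.diag_apply]

theorem red_trace (S : Finset Ω) {i : Ω} (hi : i ∈ S) (L : Matrix Ω Ω ℂ) (h1 : L * E0 Ω = 0)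
    (h2 : E0 Ω * L = 0) :
    ((Fintype.card Ω : ℂ) - 1) * ip (vS S) (lift i L *ᵥ vS S) = L.trace * (nsq (vS S) : ℂ) := by
  have : Nonempty Ω := ⟨i⟩
  have hm : (Fintype.card Ω : ℂ) ≠ 0 := Nat.cast_ne_zero.2 Fintype.card_ne_zero
  have hP : (1 - E0 Ω) * E0 Ω = 0 := by rw [sub_mul, one_mul, E0_mul_self, sub_self]
  unfold vS
  generalize hQ : (fun j => if j ∈ S then 1 - E0 Ω else E0 Ω) = Q
  have q0 : Q i = 1 - E0 Ω := by rw [← hQ]; exact if_pos hi
  have q1 : ∀ j, (Q j)ᴴ = Q j := fun j => by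
    rw [← hQ]
    dsimp only
    split_ifs
    · rw [conjTranspose_sub, conjTranspose_one, E0_star]
    · exact E0_star
  have q2 : ∀ j, Q j * Q j = Q j := fun j => by
    rw [← hQ]
    dsimp only
    split_ifs
    · rw [mul_sub, mul_one, hP, sub_zero]
    · exact E0_mul_self
  obtain ⟨c, hc⟩ := SP5_const (Q := Q) (fun j g x y => by
    rw [← hQ]
    dsimp only
    split_ifs <;> simp [E0, Matrix.one_apply]) i
  have e1 : (nsq (tens Q *ᵥ ub Ω) : ℂ) = c * ((Fintype.card Ω : ℂ) - 1) := by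
    have e : (fun j => if j = i then 1 - E0 Ω else Q j) = Q := funext fun j => by
      split_ifs with h
      · rw [h, q0]
      · rfl
    have h3 := hc _ hP
    rw [e, br_proj Q q1 q2] at h3
    rw [h3, trace_sub, trace_one]
    simp [Matrix.trace, E0, hm]
  have e2 : ip (tens Q *ᵥ ub Ω) (lift i L *ᵥ tens Q *ᵥ ub Ω) = c * L.trace := by
    have e : (tens Q)ᴴ = tens Q := by rw [tens_conjTranspose]; exact congrArg tens (funext q1)
    rw [← hc L h1, br_eq_ip]
    nth_rewrite 1 [← e]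
    rw [← ip_mulVec, mulVec_mulVec, mulVec_mulVec, lift, tens_mul, tens_mul]
    congr 3
    funext j
    split_ifs with h
    · rw [h, q0, sub_mul, one_mul, h2, sub_zero, mul_sub, mul_one, h1, sub_zero]
    · rw [mul_one, q2]
  rw [e1, e2]
  ring

end Pool.Agent.Work.MP_66fdf3_co.Full
end
end

-- merged part: Pool.Agent.Work.MP_66fdf3_co.Full.N9
section
-- merged part: Pool.Agent.Work.MP_66fdf3_co.Full.SpecB
section
/-!
Basic consequences of the axioms of `Spec` (matrix units).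
`U_mul_E0`: `E0 = U a0 a0`; use `orth` if `b ≠ a0`, `zero` and `cl0` if `b = a0 ≠ a`.
`row_sum_U`: the entry `(ω, ω)` of `U a b * E0`.
`orth_row`: `∑ β, conj (U a b ω β) * U c e ω β = (U c e * U b a) ω ω`.
`H_eq`: split off the term `(a0, a0)` of `Hh` (its coefficient is `1`), the terms `(a0, c)`, `c ≠ a0`
vanish.  `sum_H_mul_star`, `sum_star_mul_H`: expand with `H_eq`, use `orth_row`, `mul`, `orth`.
`sum_mu_sq`: `∑ β, Hh ω β ω β = ∑ a c, (m / d) * (U a c * U c a) ω ω = number of pairs in a class`.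
-/

namespace Pool.Agent.Work.MP_66fdf3_co.Full

open Finset Matrix

namespace Spec

variable {Ω A X : Type} [Fintype Ω] [DecidableEq Ω] [Fintype A] [DecidableEq A] [Fintype X]
  [DecidableEq X] (S : Spec Ω A X)

omit [Fintype X] in
theorem SpecB_UU (a b c e : A) :
    S.U a b * S.U c e = if b = c ∧ S.cl a = S.cl b then S.U a e else 0 := by
  by_cases h : b = c
  · subst h
    by_cases h' : S.cl a = S.cl b
    · rw [if_pos ⟨rfl, h'⟩, S.mul _ _ _ h']
    · rw [if_neg fun e => h' e.2, S.zero _ _ h', Matrix.zero_mul]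
  · rw [if_neg fun e => h e.1, S.orth _ _ _ _ h]

omit [DecidableEq A] [Fintype X] in
theorem SpecB_cnt {M : Type} [AddCommMonoid M] (a : A) (v : M) :
    ∑ c, (if S.cl a = S.cl c then v else 0) = S.mu (S.cl a) • v := by
  rw [← sum_filter, sum_const, mu, cnt]
  simp only [eq_comm]

omit [DecidableEq A] [Fintype X] in
theorem SpecB_fil : (univ.filter fun a => S.cl a = S.x0) = {S.a0} := by
  ext a
  simp only [mem_filter, mem_univ, true_and, mem_singleton]
  exact ⟨S.cl0 a, fun e => e ▸ rfl⟩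

omit [DecidableEq A] [Fintype X] [DecidableEq X] in
theorem SpecB_d (χ : X) : (S.d χ : ℂ) ≠ 0 := Nat.cast_ne_zero.2 (S.dpos χ).ne'

omit [DecidableEq Ω] in
theorem SpecB_m (ω : Ω) : (Fintype.card Ω : ℂ) ≠ 0 :=
  Nat.cast_ne_zero.2 (Fintype.card_pos_iff.2 ⟨ω⟩).ne'

omit [DecidableEq A] in
theorem SpecB_all : ∑ a, (S.mu (S.cl a) : ℂ) = ((∑ χ, S.mu χ ^ 2 : ℕ) : ℂ) := by
  rw [sum_eq_sum_cnt S.cl fun χ => (S.mu χ : ℂ)]
  push_cast
  exact sum_congr rfl fun χ _ => (sq _).symm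

theorem ne_x0 {a : A} (h : a ≠ S.a0) : S.cl a ≠ S.x0 := by
  exact fun e => h (S.cl0 a e)

theorem d_x0 [Nonempty Ω] : S.d S.x0 = 1 := by
  obtain ⟨ω⟩ : Nonempty Ω := inferInstance
  have h := S.diag S.a0 ω
  rw [S.U0, E0, of_apply, inv_eq_one_div, div_left_inj' (SpecB_m ω)] at h
  exact_mod_cast h.symm

theorem mu_x0 : S.mu S.x0 = 1 := by
  rw [mu, cnt, SpecB_fil, card_singleton]

theorem mu_pos (χ : X) : 1 ≤ S.mu χ := by
  obtain ⟨a, ha⟩ := S.surj χ
  exact card_pos.2 ⟨a, mem_filter.2 ⟨mem_univ _, ha⟩⟩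

theorem U_mul_E0 {a b : A} (h : a ≠ S.a0 ∨ b ≠ S.a0) : S.U a b * E0 Ω = 0 := by
  rw [← S.U0, SpecB_UU, if_neg]
  rintro ⟨rfl, e⟩
  exact h.elim (fun h => h (S.cl0 a e)) fun h => h rfl

theorem E0_mul_U {a b : A} (h : a ≠ S.a0 ∨ b ≠ S.a0) : E0 Ω * S.U a b = 0 := by
  rw [← S.U0, SpecB_UU]
  split_ifs with e
  · exact S.zero _ _ (S.ne_x0 (h.resolve_left fun h => h e.1.symm)).symm
  · rfl

theorem row_sum_U {a b : A} (h : a ≠ S.a0 ∨ b ≠ S.a0) (ω : Ω) : ∑ β, S.U a b ω β = 0 := by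
  have h1 := congrFun (congrFun (S.U_mul_E0 h) ω) ω
  simp only [mul_apply, E0, of_apply, ← sum_mul, Matrix.zero_apply] at h1
  exact (mul_eq_zero.1 h1).resolve_right (inv_ne_zero (SpecB_m ω))

theorem orth_row (a b c e : A) (ω : Ω) :
    ∑ β, (starRingEnd ℂ) (S.U a b ω β) * S.U c e ω β =
      if a = c ∧ b = e ∧ S.cl a = S.cl b then (S.d (S.cl a) : ℂ) / (Fintype.card Ω : ℂ) else 0 := by
  have h1 : ∑ β, (starRingEnd ℂ) (S.U a b ω β) * S.U c e ω β = (S.U c e * S.U b a) ω ω := by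
    rw [mul_apply, ← S.star a b]
    exact sum_congr rfl fun β _ => mul_comm _ _
  rw [h1, SpecB_UU]
  by_cases h : a = c
  · subst h
    by_cases h' : b = e
    · subst h'
      simp only [true_and]
      split_ifs
      · exact S.diag a ω
      · rfl
    · rw [if_neg fun x => h' x.1.symm, if_neg fun x => h' x.2.1]
      rfl
  · rw [if_neg (c := a = c ∧ _) fun x => h x.1]
    split_ifs
    · exact S.diag0 _ _ ω (Ne.symm h)
    · rfl

theorem trace_U [Nonempty Ω] (a : A) : (S.U a a).trace = (S.d (S.cl a) : ℂ) := by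
  obtain ⟨ω⟩ : Nonempty Ω := inferInstance
  simp only [trace, diag_apply, S.diag, sum_const, card_univ, nsmul_eq_mul]
  exact mul_div_cancel₀ _ (SpecB_m ω)

theorem F_star (χ : X) : (S.F χ)ᴴ = S.F χ := by
  simp only [F, conjTranspose_sum, S.star]

theorem F_mul_self (χ : X) : S.F χ * S.F χ = S.F χ := by
  rw [F, sum_mul_sum]
  refine sum_congr rfl fun a ha => ?_
  simp only [SpecB_UU, and_true]
  rw [sum_eq_single_of_mem a ha fun b _ hb => if_neg hb.symm, if_pos rfl]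

theorem F_mul_ne {χ χ' : X} (h : χ ≠ χ') : S.F χ * S.F χ' = 0 := by
  rw [F, F, sum_mul_sum]
  refine sum_eq_zero fun a ha => sum_eq_zero fun b hb => S.orth _ _ _ _ fun e => h ?_
  rw [← (mem_filter.1 ha).2, ← (mem_filter.1 hb).2, e]

theorem F_x0 : S.F S.x0 = E0 Ω := by
  rw [F, SpecB_fil, sum_singleton, S.U0]

theorem sum_F : ∑ χ, S.F χ = 1 := by
  rw [← S.sum]
  exact sum_fiberwise univ S.cl fun a => S.U a a

theorem trace_F [Nonempty Ω] (χ : X) : (S.F χ).trace = ((S.mu χ * S.d χ : ℕ) : ℂ) := by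
  rw [F, trace_sum, sum_congr rfl fun a ha => (S.trace_U a).trans
    (congrArg (fun χ => (S.d χ : ℂ)) (mem_filter.1 ha).2), sum_const, nsmul_eq_mul, Nat.cast_mul]
  rfl

theorem sum_mu_d [Nonempty Ω] : ∑ χ, S.mu χ * S.d χ = Fintype.card Ω := by
  have h := congrArg trace S.sum_F
  simp only [trace_sum, trace_F, trace_one] at h
  exact_mod_cast h

theorem H_eq (ω b : Ω) : S.H ω b = ∑ a ∈ univ.erase S.a0, ∑ c,
    ((Fintype.card Ω : ℂ) / (S.d (S.cl a) : ℂ) * (starRingEnd ℂ) (S.U a c ω b)) • S.U a c := by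
  have : Nonempty Ω := ⟨ω⟩
  rw [H, Hh, ← add_sum_erase _ _ (mem_univ S.a0), sum_eq_single S.a0, sub_eq_iff_eq_add',
    add_left_inj, S.U0, show S.cl S.a0 = S.x0 from rfl, d_x0]
  · simp [E0]
  · intro c _ hc
    rw [S.zero _ _ (S.ne_x0 hc).symm, smul_zero]
  · exact fun h => absurd (mem_univ _) h

theorem sum_H (ω : Ω) : ∑ b, S.H ω b = 0 := by
  simp only [H_eq]
  rw [sum_comm]
  refine sum_eq_zero fun a ha => ?_
  rw [sum_comm]
  refine sum_eq_zero fun c _ => ?_
  rw [← sum_smul, ← mul_sum, ← map_sum, S.row_sum_U (Or.inl (ne_of_mem_erase ha)), map_zero,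
    mul_zero, zero_smul]

theorem H_mul_E0 (ω b : Ω) : S.H ω b * E0 Ω = 0 := by
  rw [H_eq, sum_mul]
  refine sum_eq_zero fun a ha => ?_
  rw [sum_mul]
  refine sum_eq_zero fun c _ => ?_
  rw [smul_mul_assoc, S.U_mul_E0 (Or.inl (ne_of_mem_erase ha)), smul_zero]

theorem E0_mul_H (ω b : Ω) : E0 Ω * S.H ω b = 0 := by
  rw [H_eq, mul_sum]
  refine sum_eq_zero fun a ha => ?_
  rw [mul_sum]
  refine sum_eq_zero fun c _ => ?_
  rw [mul_smul_comm, S.E0_mul_U (Or.inl (ne_of_mem_erase ha)), smul_zero]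

/-- The coefficients of `H`. -/
noncomputable def SpecBk (ω : Ω) (p : A × A) (b : Ω) : ℂ :=
  (Fintype.card Ω : ℂ) / (S.d (S.cl p.1) : ℂ) * (starRingEnd ℂ) (S.U p.1 p.2 ω b)

theorem SpecB_H (ω b : Ω) :
    S.H ω b = ∑ p ∈ univ.erase S.a0 ×ˢ univ, S.SpecBk ω p b • S.U p.1 p.2 := by
  rw [H_eq, sum_product]
  rfl

theorem SpecB_kk (ω : Ω) (p q : A × A) :
    ∑ b, S.SpecBk ω p b * Star.star (S.SpecBk ω q b) =
    if p = q then (if S.cl p.1 = S.cl p.2 then (Fintype.card Ω : ℂ) / (S.d (S.cl p.1) : ℂ) else 0)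
      else 0 := by
  have h1 : ∀ b, S.SpecBk ω p b * Star.star (S.SpecBk ω q b) =
      (Fintype.card Ω : ℂ) / (S.d (S.cl p.1) : ℂ) * ((Fintype.card Ω : ℂ) / (S.d (S.cl q.1) : ℂ)) *
        ((starRingEnd ℂ) (S.U p.1 p.2 ω b) * S.U q.1 q.2 ω b) := fun b => by
    simp only [SpecBk, star_mul', star_div₀, star_natCast, RCLike.star_def, Complex.conj_conj]
    ring
  simp only [h1]
  rw [← mul_sum, orth_row]
  by_cases h : p = q
  · subst h
    have := SpecB_m ω
    have := S.SpecB_d (S.cl p.1)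
    simp only [true_and, if_true]
    split_ifs
    · field_simp
    · exact mul_zero _
  · rw [if_neg h, if_neg fun e => h (Prod.ext e.1 e.2.1), mul_zero]

theorem SpecB_key (ω : Ω) (t : Finset (A × A)) (T : A × A → A × A → Matrix Ω Ω ℂ) :
    ∑ b, ∑ p ∈ t, ∑ q ∈ t, (S.SpecBk ω p b * Star.star (S.SpecBk ω q b)) • T p q =
      ∑ p ∈ t, if S.cl p.1 = S.cl p.2 then
        ((Fintype.card Ω : ℂ) / (S.d (S.cl p.1) : ℂ)) • T p p else 0 := by
  rw [sum_comm]
  refine sum_congr rfl fun p hp => ?_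
  rw [sum_comm]
  simp only [← sum_smul, SpecB_kk, ite_smul, zero_smul, sum_ite_eq, if_pos hp]

omit [Fintype X] in
theorem SpecB_Lam : S.Lam = ∑ a ∈ univ.erase S.a0, ∑ c, if S.cl a = S.cl c then
    ((Fintype.card Ω : ℂ) / (S.d (S.cl a) : ℂ)) • S.U a a else 0 := by
  refine sum_congr rfl fun a _ => ?_
  rw [SpecB_cnt, ← Nat.cast_smul_eq_nsmul ℂ, smul_smul]
  congr 1
  ring

theorem sum_H_mul_star (ω : Ω) : ∑ b, S.H ω b * (S.H ω b)ᴴ = S.Lam := by
  simp only [SpecB_H, conjTranspose_sum, conjTranspose_smul, S.star, sum_mul_sum,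
    smul_mul_smul_comm]
  rw [S.SpecB_key ω _ fun p q => S.U p.1 p.2 * S.U q.2 q.1, sum_product, SpecB_Lam]
  refine sum_congr rfl fun a _ => sum_congr rfl fun c _ => ?_
  split_ifs with h
  · rw [S.mul _ _ _ h]
  · rfl

theorem sum_star_mul_H (ω : Ω) : ∑ b, (S.H ω b)ᴴ * S.H ω b = S.Lam := by
  have h1 : ∀ b, (S.H ω b)ᴴ * S.H ω b = ∑ p ∈ univ.erase S.a0 ×ˢ univ,
      ∑ q ∈ univ.erase S.a0 ×ˢ univ, (S.SpecBk ω p b * Star.star (S.SpecBk ω q b)) •
        (S.U q.2 q.1 * S.U p.1 p.2) := fun b => by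
    simp only [SpecB_H, conjTranspose_sum, conjTranspose_smul, S.star, sum_mul_sum,
      smul_mul_smul_comm]
    rw [sum_comm]
    simp only [mul_comm (Star.star _ : ℂ)]
  simp only [h1]
  rw [S.SpecB_key ω _ fun p q => S.U q.2 q.1 * S.U p.1 p.2, sum_product, SpecB_Lam,
    sum_congr rfl fun a ha => (sum_erase (a := S.a0) _
      (if_neg (S.ne_x0 (ne_of_mem_erase ha)))).symm, sum_comm]
  refine sum_congr rfl fun a ha => ?_
  rw [sum_erase (a := S.a0) _ (if_neg (S.ne_x0 (ne_of_mem_erase ha)).symm)]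
  refine sum_congr rfl fun c _ => ?_
  by_cases h : S.cl a = S.cl c
  · rw [if_pos h, if_pos h.symm, S.mul _ _ _ h, h]
  · rw [if_neg h, if_neg (Ne.symm h)]

theorem Lam_mul_E0 : S.Lam * E0 Ω = 0 := by
  rw [Lam, sum_mul]
  refine sum_eq_zero fun a ha => ?_
  rw [smul_mul_assoc, S.U_mul_E0 (Or.inl (ne_of_mem_erase ha)), smul_zero]

theorem E0_mul_Lam : E0 Ω * S.Lam = 0 := by
  rw [Lam, mul_sum]
  refine sum_eq_zero fun a ha => ?_
  rw [mul_smul_comm, S.E0_mul_U (Or.inl (ne_of_mem_erase ha)), smul_zero]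

theorem trace_Lam [Nonempty Ω] : S.Lam.trace =
    (Fintype.card Ω : ℂ) * ((∑ χ ∈ univ.erase S.x0, S.mu χ ^ 2 : ℕ) : ℂ) := by
  have h := S.SpecB_all
  rw [← add_sum_erase _ _ (mem_univ S.a0), ← add_sum_erase _ _ (mem_univ S.x0),
    show S.cl S.a0 = S.x0 from rfl, mu_x0, one_pow, Nat.cast_add, add_right_inj] at h
  rw [← h, Lam, trace_sum, mul_sum]
  refine sum_congr rfl fun a _ => ?_
  rw [trace_smul, trace_U, smul_eq_mul, div_mul_cancel₀ _ (S.SpecB_d _)]

theorem sum_mu_sq (ω : Ω) : ∑ b, S.Hh ω b ω b = ((∑ χ, S.mu χ ^ 2 : ℕ) : ℂ) := by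
  simp only [Hh, Matrix.sum_apply, Matrix.smul_apply, smul_eq_mul, mul_assoc]
  rw [← SpecB_all, sum_comm]
  refine sum_congr rfl fun a _ => ?_
  rw [sum_comm, ← nsmul_one (S.mu _), ← SpecB_cnt]
  refine sum_congr rfl fun c _ => ?_
  rw [← mul_sum, orth_row]
  have := SpecB_m ω
  have := S.SpecB_d (S.cl a)
  simp only [true_and]
  split_ifs
  · field_simp
  · exact mul_zero _

theorem Hyp.mu_sq {ω : Ω} {Bk : Type} [DecidableEq Bk] {bl : Ω → Bk} {R : Ω → Ω → Ω → ℝ}
    (h : S.Hyp ω bl R) : 4 * (∑ χ ∈ univ.erase S.x0, S.mu χ ^ 2) + 1 ≤ Fintype.card Ω := by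
  have h1 := S.sum_mu_sq ω
  simp only [h.eq, h.blk, if_true] at h1
  have h2 : ∑ b, ((cnt bl (bl b) : ℕ) : ℝ)⁻¹ = ((∑ χ, S.mu χ ^ 2 : ℕ) : ℝ) := by
    exact_mod_cast h1
  have h3 := sum_le_card_nsmul (univ.erase ω) (fun b => ((cnt bl (bl b) : ℕ) : ℝ)⁻¹) 4⁻¹
    fun b hb => inv_anti₀ (by norm_num) (by exact_mod_cast (h.k4 b (ne_of_mem_erase hb)).2)
  rw [← add_sum_erase _ _ (mem_univ ω), ← add_sum_erase _ _ (mem_univ S.x0), mu_x0, h.k1,
    Nat.cast_add] at h2
  have h4 : (univ.erase ω).card + 1 = Fintype.card Ω := card_erase_add_one (mem_univ ω)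
  have h5 : 4 * ((∑ χ ∈ univ.erase S.x0, S.mu χ ^ 2 : ℕ) : ℝ) ≤ (univ.erase ω).card := by
    rw [nsmul_eq_mul] at h3
    simp only [Nat.cast_one, inv_one, one_pow] at h2
    linarith only [h3, h2]
  rw [← h4]
  exact Nat.succ_le_succ (by exact_mod_cast h5)

theorem mu_d_le [Nonempty Ω] {χ : X} (h : χ ≠ S.x0) :
    S.mu χ * S.d χ + 1 ≤ Fintype.card Ω := by
  rw [← S.sum_mu_d, ← add_sum_erase _ _ (mem_univ S.x0), mu_x0, d_x0, add_comm]
  exact Nat.add_le_add_left (single_le_sum (f := fun χ => S.mu χ * S.d χ)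
    (fun _ _ => Nat.zero_le _) (mem_erase.2 ⟨h, mem_univ _⟩)) _

end Spec

end Pool.Agent.Work.MP_66fdf3_co.Full
end

-- merged part: Pool.Agent.Work.MP_66fdf3_co.Full.NumB
section
/-!
Small real-variable lemmas.
`Cf_le_max`: the ratio `Cf (i+1) q / Cf i q = (i+1)/q` is increasing: while it is `≤ 1` the sequence
decreases, afterwards it increases.
`cN_succ_y`: `cN N = (m τ)^(m-N)/(m-N)! + y * cN (N+1)`.  `cN_succ_tau`: termwise, the `i`-th term of
`cN (N+1)` is the `i`-th term of `cN N` times `(m-N-i)/(m τ)`.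
`cN_add_le`: induction on `N'` (`prod_range_succ`), using `(m - (N+i)) ≤ m - i`; if `N + N' > m` the left
side is `0`; keep `N' ≤ m` so that all factors of `Rho` are nonnegative.
`Rho_mono`: `(m - i)/(m τ) ≤ (M - i)/(M τ)`.
-/

namespace Pool.Agent.Work.MP_66fdf3_co.Full

open Finset Matrix

theorem Cf_nonneg (i : ℕ) {q : ℝ} (hq : 0 < q) : 0 ≤ Cf i q :=
  div_nonneg (Nat.cast_nonneg _) (pow_pos hq i).le

theorem NumB_Cf_succ (i : ℕ) (q : ℝ) : Cf (i + 1) q = Cf i q * (((i : ℝ) + 1) / q) := by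
  unfold Cf
  rw [Nat.factorial_succ, pow_succ, div_mul_div_comm]
  push_cast
  rw [mul_comm ((i : ℝ) + 1)]

theorem Cf_le_max {lo i hi : ℕ} (h1 : lo ≤ i) (h2 : i ≤ hi) {q : ℝ} (hq : 0 < q) :
    Cf i q ≤ max (Cf lo q) (Cf hi q) := by
  rcases le_total (i : ℝ) q with h | h
  · refine le_max_of_le_left ?_
    clear h2
    induction i, h1 using Nat.le_induction with
    | base => exact le_rfl
    | succ j _ ih =>
      push_cast at h
      rw [NumB_Cf_succ]
      exact (mul_le_of_le_one_right (Cf_nonneg j hq) ((div_le_one hq).2 h)).trans (ih (by linarith only [h]))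
  · refine le_max_of_le_right ?_
    induction hi, h2 using Nat.le_induction with
    | base => exact le_rfl
    | succ j hj ih =>
      have hj' : (i : ℝ) ≤ j := by exact_mod_cast hj
      rw [NumB_Cf_succ]
      exact ih.trans (le_mul_of_one_le_right (Cf_nonneg j hq) ((one_le_div hq).2 (by linarith)))

theorem Gs_nonneg (m : ℕ) {a b : ℝ} (ha : 0 ≤ a) (hb : 0 ≤ b) : 0 ≤ Gs m a b :=
  sum_nonneg fun k _ => by positivity

theorem Gs_cast (m : ℕ) (a b : ℚ) : ((Gs m a b : ℚ) : ℝ) = Gs m (a : ℝ) (b : ℝ) := by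
  simp [Gs]

theorem Cf_cast (i : ℕ) (q : ℚ) : ((Cf i q : ℚ) : ℝ) = Cf i (q : ℝ) := by
  simp [Cf]

theorem Gs_le_exp (m : ℕ) {a b : ℝ} (ha : 0 ≤ a) (hb : 0 < b) :
    Gs m a b ≤ (b * Real.exp (a / b)) ^ m := by
  have h1 := Real.sum_le_exp_of_nonneg (x := m * (a / b)) (by positivity) (m + 1)
  rw [mul_pow, ← Real.exp_nat_mul]
  refine le_trans (le_of_eq ?_) (mul_le_mul_of_nonneg_left h1 (pow_pos hb m).le)
  rw [Gs, mul_sum]
  refine sum_congr rfl fun k hk => ?_
  obtain ⟨j, rfl⟩ := Nat.exists_eq_add_of_le (Nat.lt_succ_iff.1 (mem_range.1 hk))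
  rw [Nat.add_sub_cancel_left, mul_pow, mul_pow, div_pow, pow_add b]
  field_simp

/-- The functional applied to `(b r / m + a) ^ m`. -/
theorem Gs_binom {m : ℕ} (hm : 0 < m) (a b : ℝ) :
    ∑ i ∈ range (m + 1), (m.choose i : ℝ) * (b / m) ^ i * a ^ (m - i) * (i.factorial : ℝ) =
      (m.factorial : ℝ) / (m : ℝ) ^ m * Gs m a b := by
  rw [Gs, ← sum_flip (fun k => ((m : ℝ) * a) ^ k * b ^ (m - k) / (k.factorial : ℝ)), mul_sum]
  refine sum_congr rfl fun i hi => ?_
  have hi' := Nat.lt_succ_iff.1 (mem_range.1 hi)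
  have h1 : (m.choose i : ℝ) * (i.factorial : ℝ) * ((m - i).factorial : ℝ) = m.factorial := by
    exact_mod_cast Nat.choose_mul_factorial_mul_factorial hi'
  have h2 : (m : ℝ) ^ m = (m : ℝ) ^ i * (m : ℝ) ^ (m - i) := by
    rw [← pow_add, Nat.add_sub_cancel' hi']
  have h3 : (m : ℝ) ≠ 0 := by exact_mod_cast hm.ne'
  have h4 : ((m - i).factorial : ℝ) ≠ 0 := by exact_mod_cast (Nat.factorial_pos _).ne'
  rw [Nat.sub_sub_self hi', h2, ← h1, div_pow, mul_pow]
  field_simp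

/-- The sums that occur in `cN`. -/
noncomputable def NumB_S (c y : ℝ) (n : ℕ) : ℝ :=
  ∑ i ∈ range (n + 1), c ^ (n - i) * y ^ i / ((n - i).factorial : ℝ)

theorem NumB_cN {m N : ℕ} (h : N ≤ m) (τ y : ℝ) : cN m τ y N = NumB_S (m * τ) y (m - N) :=
  if_pos h

theorem NumB_cN0 {m N : ℕ} (h : m < N) (τ y : ℝ) : cN m τ y N = 0 := if_neg (not_le.2 h)

theorem NumB_y {c y : ℝ} (hc : 0 ≤ c) (n : ℕ) : NumB_S c y n * y ≤ NumB_S c y (n + 1) := by
  unfold NumB_S
  rw [sum_range_succ' _ (n + 1), sum_mul]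
  refine le_trans (le_of_eq (sum_congr rfl fun i _ => ?_)) (le_add_of_nonneg_right (by positivity))
  rw [Nat.add_sub_add_right, pow_succ]
  ring

theorem NumB_tau {c y : ℝ} (hc : 0 ≤ c) (hy : 0 ≤ y) (n : ℕ) :
    NumB_S c y n * c ≤ NumB_S c y (n + 1) * ((n : ℝ) + 1) := by
  unfold NumB_S
  rw [sum_range_succ _ (n + 1), add_mul, sum_mul, sum_mul]
  refine le_trans (sum_le_sum fun i hi => ?_) (le_add_of_nonneg_right (by positivity))
  obtain ⟨j, rfl⟩ := Nat.exists_eq_add_of_le (Nat.lt_succ_iff.1 (mem_range.1 hi))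
  rw [add_assoc, Nat.add_sub_cancel_left, Nat.add_sub_cancel_left]
  have e : c ^ j * y ^ i / (j.factorial : ℝ) * c =
      c ^ (j + 1) * y ^ i / ((j + 1).factorial : ℝ) * ((j : ℝ) + 1) := by
    have h1 : (j.factorial : ℝ) ≠ 0 := by exact_mod_cast (Nat.factorial_pos _).ne'
    rw [Nat.factorial_succ, pow_succ]
    push_cast
    field_simp
  rw [e]
  refine mul_le_mul_of_nonneg_left ?_ (by positivity)
  push_cast
  linarith only [(Nat.cast_nonneg i : (0 : ℝ) ≤ i)]

theorem cN_zero (m : ℕ) (τ y : ℝ) : cN m τ y 0 = Gs m τ y := by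
  rw [NumB_cN (Nat.zero_le m), Nat.sub_zero, Gs, NumB_S,
    ← sum_flip (fun k => ((m : ℝ) * τ) ^ k * y ^ (m - k) / (k.factorial : ℝ))]
  refine sum_congr rfl fun i hi => ?_
  rw [Nat.sub_sub_self (Nat.lt_succ_iff.1 (mem_range.1 hi))]

theorem cN_nonneg (m : ℕ) {τ y : ℝ} (hτ : 0 ≤ τ) (hy : 0 ≤ y) (N : ℕ) : 0 ≤ cN m τ y N := by
  rcases le_or_gt N m with h | h
  · rw [NumB_cN h]
    exact sum_nonneg fun i _ => by positivity
  · rw [NumB_cN0 h]

theorem cN_succ_y (m : ℕ) {τ y : ℝ} (hτ : 0 ≤ τ) (hy : 0 < y) (N : ℕ) :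
    cN m τ y (N + 1) ≤ cN m τ y N * (1 / y) := by
  rcases le_or_gt (N + 1) m with h | h
  · rw [NumB_cN h, NumB_cN (Nat.le_of_succ_le h), show m - N = m - (N + 1) + 1 by omega,
      mul_one_div, le_div_iff₀ hy]
    exact NumB_y (by positivity) _
  · rw [NumB_cN0 h]
    exact mul_nonneg (cN_nonneg m hτ hy.le N) (by positivity)

theorem cN_succ_tau {m : ℕ} {τ y : ℝ} (hτ : 0 < τ) (hy : 0 ≤ y) {N : ℕ} (hN : N < m) :
    cN m τ y (N + 1) ≤ cN m τ y N * (((m : ℝ) - N) / ((m : ℝ) * τ)) := by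
  have hm : (0 : ℝ) < m := by exact_mod_cast Nat.zero_lt_of_lt hN
  have h1 := NumB_tau (mul_pos hm hτ).le hy (m - (N + 1))
  have e : ((m - (N + 1) : ℕ) : ℝ) + 1 = (m : ℝ) - N := by
    rw [Nat.cast_sub hN]
    push_cast
    ring
  rw [e] at h1
  rw [NumB_cN hN, NumB_cN hN.le, show m - N = m - (N + 1) + 1 by omega, ← mul_div_assoc,
    le_div_iff₀ (mul_pos hm hτ)]
  exact h1

theorem NumB_min {M i : ℕ} {τ y : ℝ} (hτ : 0 < τ) (hy : 0 < y) (h : i ≤ M) :
    0 ≤ min (1 / y) (((M : ℝ) - i) / ((M : ℝ) * τ)) := by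
  have h1 : (i : ℝ) ≤ M := by exact_mod_cast h
  exact le_min (by positivity) (div_nonneg (sub_nonneg.2 h1) (by positivity))

theorem Rho_nonneg {M : ℕ} {τ y : ℝ} (hτ : 0 < τ) (hy : 0 < y) {N : ℕ} (hN : N ≤ M) :
    0 ≤ Rho M τ y N :=
  prod_nonneg fun _ hi => NumB_min hτ hy ((mem_range.1 hi).le.trans hN)

theorem cN_add_le {m : ℕ} {τ y : ℝ} (hτ : 0 < τ) (hy : 0 < y) (N : ℕ) {N' : ℕ} (hN' : N' ≤ m) :
    cN m τ y (N + N') ≤ cN m τ y N * Rho m τ y N' := by
  induction N' with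
  | zero => simp [Rho]
  | succ n ih =>
    have h0 := NumB_min hτ hy (Nat.le_of_succ_le hN')
    have h1 : cN m τ y (N + n + 1) ≤
        cN m τ y (N + n) * min (1 / y) (((m : ℝ) - n) / ((m : ℝ) * τ)) := by
      have h2 := cN_nonneg m hτ.le hy.le (N + n)
      rcases lt_or_ge (N + n) m with h | h
      · rw [mul_min_of_nonneg _ _ h2]
        refine le_min (cN_succ_y m hτ.le hy _) ((cN_succ_tau hτ hy.le h).trans ?_)
        refine mul_le_mul_of_nonneg_left (div_le_div_of_nonneg_right ?_ (by positivity)) h2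
        push_cast
        linarith only [(Nat.cast_nonneg N : (0 : ℝ) ≤ N)]
      · rw [NumB_cN0 (Nat.lt_succ_of_le h)]
        exact mul_nonneg h2 h0
    rw [Rho, prod_range_succ, ← mul_assoc]
    exact h1.trans (mul_le_mul_of_nonneg_right (ih (Nat.le_of_succ_le hN')) h0)

theorem Rho_mono {m M : ℕ} (hm : 0 < m) (h : m ≤ M) {τ y : ℝ} (hτ : 0 < τ) (hy : 0 < y) {N : ℕ}
    (hN : N ≤ m) : Rho m τ y N ≤ Rho M τ y N := by
  refine prod_le_prod (fun i hi => NumB_min hτ hy ((mem_range.1 hi).le.trans hN))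
    fun i _ => min_le_min le_rfl ?_
  have h1 : (0 : ℝ) < m := by exact_mod_cast hm
  have h2 : (m : ℝ) ≤ M := by exact_mod_cast h
  have h3 : (0 : ℝ) ≤ i * τ := by positivity
  rw [div_le_div_iff₀ (mul_pos h1 hτ) (mul_pos (h1.trans_le h2) hτ)]
  linarith only [h2, h3, mul_le_mul_of_nonneg_left h2 h3]

theorem Rho_le_pow (M : ℕ) {τ y : ℝ} (hτ : 0 < τ) (hy : 0 < y) {N : ℕ} (hN : N ≤ M) :
    Rho M τ y N ≤ (1 / y) ^ N := by
  refine (prod_le_prod (g := fun _ => 1 / y)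
    (fun i hi => NumB_min hτ hy ((mem_range.1 hi).le.trans hN)) fun i _ => min_le_left _ _).trans ?_
  rw [prod_const, card_range]

theorem NumB_B {M : ℕ} {τ y B η : ℝ} (h : ∀ N, N ≤ M → Rho M τ y N ≤ B * η ^ N) : 1 ≤ B := by
  simpa [Rho] using h 0 (Nat.zero_le M)

theorem PsiOK.one_le {M : ℕ} {τ y : ℝ} {w : ℕ} {x Ψ : ℝ} (h : PsiOK M τ y w x Ψ) (hx : 0 ≤ x) :
    1 ≤ Ψ := by
  obtain ⟨B, η, h1, h2, h3, h4⟩ := h
  have h5 : 1 ≤ (1 - η * x)⁻¹ :=
    (one_le_inv₀ (by linarith)).2 (by linarith [mul_nonneg h1 hx])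
  exact (one_le_mul_of_one_le_of_one_le (NumB_B h3) (one_le_pow₀ h5)).trans h4

theorem PsiOK.mono {M : ℕ} {τ y : ℝ} {w w' : ℕ} {x x' Ψ Ψ' : ℝ} (h : PsiOK M τ y w x Ψ)
    (hw : w' ≤ w) (hx' : 0 ≤ x') (hx : x' ≤ x) (hΨ : Ψ ≤ Ψ') : PsiOK M τ y w' x' Ψ' := by
  obtain ⟨B, η, h1, h2, h3, h4⟩ := h
  have h5 := mul_le_mul_of_nonneg_left hx h1
  have h6 : 1 ≤ (1 - η * x')⁻¹ :=
    (one_le_inv₀ (by linarith only [h2, h5])).2 (by linarith [mul_nonneg h1 hx'])
  have h7 : (1 - η * x')⁻¹ ≤ (1 - η * x)⁻¹ := inv_anti₀ (by linarith) (by linarith)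
  refine ⟨B, η, h1, h5.trans_lt h2, h3, le_trans ?_ (h4.trans hΨ)⟩
  exact mul_le_mul_of_nonneg_left
    ((pow_le_pow_right₀ h6 hw).trans (pow_le_pow_left₀ (zero_le_one.trans h6) h7 w))
    (zero_le_one.trans (NumB_B h3))

theorem PsiOK.of_le {m M : ℕ} (hm : 0 < m) (hM : m ≤ M) {τ y : ℝ} (hτ : 0 < τ) (hy : 0 < y) {w : ℕ}
    {x Ψ : ℝ} (h : PsiOK M τ y w x Ψ) : PsiOK m τ y w x Ψ := by
  obtain ⟨B, η, h1, h2, h3, h4⟩ := h
  exact ⟨B, η, h1, h2, fun N hN => (Rho_mono hm hM hτ hy hN).trans (h3 N (hN.trans hM)), h4⟩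

theorem psiOK_zero (M : ℕ) {τ y : ℝ} (hτ : 0 < τ) (hy : 0 < y) (w : ℕ) : PsiOK M τ y w 0 1 :=
  ⟨1, 1 / y, by positivity, by simp, fun N hN => by
    rw [one_mul]
    exact Rho_le_pow M hτ hy hN, by simp⟩

theorem EpsOK.of_le {m M : ℕ} (hM : m ≤ M) {C : Type} [Fintype C] {p z : C → ℝ} {τ y : ℝ}
    (hτ : 0 < τ) (hy : 0 < y) {wt : C → ℝ} {A : ℝ} (h : EpsOK M p z τ y wt A) :
    EpsOK m p z τ y wt A := by
  intro μ d h1 h2 h3 h4 h5
  obtain ⟨Ψ, h6, h7⟩ := h μ d h1 h2 h3 (h4.trans hM) (h5.trans hM)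
  exact ⟨Ψ, fun c hc => (h6 c hc).of_le (Nat.zero_lt_of_lt h5) hM hτ hy, h7⟩

theorem MomDom.of_le {m M : ℕ} (hM : m ≤ M) {C : Type} [Fintype C] {p z : C → ℝ}
    (h : MomDom M p z) : MomDom m p z :=
  ⟨h.1, h.2.1, fun n hn => h.2.2 n (hn.trans hM)⟩

theorem nuS_nonneg {m j : ℕ} (h : j ≤ m) : 0 ≤ nuS m j := by
  induction j using Nat.twoStepInduction with
  | zero => exact zero_le_one
  | one => exact le_rfl
  | more j h1 h2 =>
    have h3 := h1 (by omega)
    have h4 := h2 (by omega)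
    have h5 : ((j + 2 : ℕ) : ℝ) ≤ m := by exact_mod_cast h
    push_cast at h5
    rw [nuS]
    exact div_nonneg (by positivity) (by linarith only [h5])

theorem dS_nonneg {a : ℝ} (ha : 0 ≤ a) (j : ℕ) : 0 ≤ dS a j := by
  induction j using Nat.twoStepInduction with
  | zero => exact zero_le_one
  | one => exact le_rfl
  | more j h1 h2 =>
    rw [dS]
    positivity

end Pool.Agent.Work.MP_66fdf3_co.Full
end

-- merged part: Pool.Agent.Work.MP_66fdf3_co.Full.X1
section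
/-!
Masses of class words.
`Bw_sq_le`: if some `cl (a i) ≠ cl (b i)` then `Bw = 0`.  Otherwise
`tens (U a b) = tens (U a a) * tens (U a b)`, so `Bw = ip (tens (U a a) u) (tens (U a b) u)`; Cauchy-Schwarz,
`nsq (tens (U a b) u) = ip u (tens (U b a * U a b) u) = br (U b b)` (`nsq_mulVec`, `br_proj`).
`Mw_eq_sum`: `F χ = ∑ a, if cl a = χ then U a a else 0`, `br_sum`, `br_zero`.
`X_le_class`: group the pairs `(a, b)` by the class word `cl ∘ a` (`Finset.sum_fiberwise`), for a nonzero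
term `cl ∘ b = cl ∘ a`.
`orbit_le`: `m! * (Mw w * ∏ t) = ∑ g : Perm Ω, Mw (w ∘ g) * ∏ t (w (g i))` (`br_perm`), group by the value
`w' = w ∘ g`; the number of such `g` is at most `∏ (cnt w χ)!` by `card_equiv_fib`.
`Zf_eq`: `br_const`, `br_sum`, `br_smul`.
-/

namespace Pool.Agent.Work.MP_66fdf3_co.Full

open Finset Matrix

namespace Spec

variable {Ω A X : Type} [Fintype Ω] [DecidableEq Ω] [Fintype A] [DecidableEq A] [Fintype X]
  [DecidableEq X] (S : Spec Ω A X)

theorem Bw_self_X1 (a : Ω → A) :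
    S.Bw a a = (nsq (tens (fun i => S.U (a i) (a i)) *ᵥ ub Ω) : ℂ) :=
  br_proj _ (fun i => S.star (a i) (a i)) (fun i => S.mul (a i) (a i) (a i) rfl)

theorem Uaa_nonneg (a : Ω → A) : 0 ≤ (S.Bw a a).re := by
  rw [S.Bw_self_X1 a, Complex.ofReal_re]
  exact nsq_nonneg _

theorem Bw_eq_zero_X1 {a b : Ω → A} (h : S.cl ∘ a ≠ S.cl ∘ b) : S.Bw a b = 0 := by
  obtain ⟨i, hi⟩ := Function.ne_iff.1 h
  exact br_zero _ (i := i) (S.zero _ _ hi)

theorem Bw_sq_le (a b : Ω → A) : ‖S.Bw a b‖ ^ 2 ≤ (S.Bw a a).re * (S.Bw b b).re := by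
  by_cases h : S.cl ∘ a = S.cl ∘ b
  · have hi : ∀ i, S.cl (a i) = S.cl (b i) := fun i => congrFun h i
    have e1 : tens (fun i => S.U (a i) (b i)) =
        tens (fun i => S.U (a i) (a i)) * tens (fun i => S.U (a i) (b i)) := by
      rw [tens_mul]
      congr 1
      funext i
      exact (S.mul (a i) (a i) (b i) rfl).symm
    have e2 : (tens (fun i => S.U (a i) (a i)))ᴴ = tens (fun i => S.U (a i) (a i)) := by
      rw [tens_conjTranspose]
      congr 1
      funext i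
      exact S.star _ _
    have e3 : S.Bw a b = ip (tens (fun i => S.U (a i) (a i)) *ᵥ ub Ω)
        (tens (fun i => S.U (a i) (b i)) *ᵥ ub Ω) := by
      unfold Bw
      rw [br_eq_ip]
      conv_lhs => rw [e1, ← Matrix.mulVec_mulVec, ip_mulVec, e2]
    have e4 : (tens (fun i => S.U (a i) (b i)))ᴴ * tens (fun i => S.U (a i) (b i)) =
        tens (fun i => S.U (b i) (b i)) := by
      rw [tens_conjTranspose, tens_mul]
      congr 1
      funext i
      rw [S.star, S.mul _ _ _ (hi i).symm]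
    have e5 : (nsq (tens (fun i => S.U (a i) (b i)) *ᵥ ub Ω) : ℂ) = S.Bw b b := by
      rw [nsq_mulVec, e4]
      unfold Bw
      rw [br_eq_ip]
    rw [← e5, S.Bw_self_X1 a, Complex.ofReal_re, Complex.ofReal_re, e3]
    exact ip_cs _ _
  · rw [S.Bw_eq_zero_X1 h, norm_zero]
    have := mul_nonneg (S.Uaa_nonneg a) (S.Uaa_nonneg b)
    simpa using this

theorem Bw_eq_zero {a b : Ω → A} (h : S.cl ∘ a ≠ S.cl ∘ b) : S.Bw a b = 0 :=
  S.Bw_eq_zero_X1 h

theorem Mw_nonneg (w : Ω → X) : 0 ≤ S.Mw w := by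
  unfold Mw
  rw [br_proj _ (fun i => S.F_star (w i)) (fun i => S.F_mul_self (w i)), Complex.ofReal_re]
  exact nsq_nonneg _

theorem Mw_eq_sum (w : Ω → X) :
    S.Mw w = ∑ a ∈ univ.filter (fun a : Ω → A => S.cl ∘ a = w), (S.Bw a a).re := by
  unfold Mw
  have e1 : (fun i => S.F (w i)) =
      fun i => ∑ a : A, (if S.cl a = w i then S.U a a else 0) := by
    funext i
    unfold F
    rw [Finset.sum_filter]
  rw [e1, br_sum (fun i a => if S.cl a = w i then S.U a a else 0), Complex.re_sum,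
    Finset.sum_filter]
  refine Finset.sum_congr rfl fun a _ => ?_
  by_cases h : S.cl ∘ a = w
  · rw [if_pos h]
    unfold Bw
    congr 2
    funext i
    exact if_pos (congrFun h i)
  · rw [if_neg h]
    obtain ⟨i, hi⟩ := Function.ne_iff.1 h
    rw [br_zero _ (i := i) (if_neg hi), Complex.zero_re]

theorem X_le_class (g : (Ω → X) → ℝ) (hg : ∀ w, 0 ≤ g w) :
    ∑ a : Ω → A, ∑ b : Ω → A, g (S.cl ∘ a) * ‖S.Bw a b‖ ^ 2 ≤ ∑ w : Ω → X, g w * S.Mw w ^ 2 := by
  have h1 : ∀ a : Ω → A, ∑ b : Ω → A, g (S.cl ∘ a) * ‖S.Bw a b‖ ^ 2 ≤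
      g (S.cl ∘ a) * ((S.Bw a a).re * S.Mw (S.cl ∘ a)) := by
    intro a
    rw [← Finset.mul_sum]
    refine mul_le_mul_of_nonneg_left ?_ (hg _)
    rw [S.Mw_eq_sum, Finset.mul_sum, Finset.sum_filter]
    refine Finset.sum_le_sum fun b _ => ?_
    by_cases h : S.cl ∘ b = S.cl ∘ a
    · rw [if_pos h]
      exact S.Bw_sq_le a b
    · rw [if_neg h, S.Bw_eq_zero (fun h' => h h'.symm), norm_zero]
      simp
  refine (Finset.sum_le_sum fun a _ => h1 a).trans (le_of_eq ?_)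
  rw [← Finset.sum_fiberwise univ (fun a : Ω → A => S.cl ∘ a)]
  refine Finset.sum_congr rfl fun w _ => ?_
  have h2 : ∀ a ∈ univ.filter (fun a : Ω → A => S.cl ∘ a = w),
      g (S.cl ∘ a) * ((S.Bw a a).re * S.Mw (S.cl ∘ a)) = g w * S.Mw w * (S.Bw a a).re := by
    intro a ha
    rw [(Finset.mem_filter.1 ha).2]
    ring
  rw [Finset.sum_congr rfl h2, ← Finset.mul_sum, ← S.Mw_eq_sum]
  ring

theorem Mw_perm_X1 (w : Ω → X) (g : Equiv.Perm Ω) : S.Mw (w ∘ g) = S.Mw w := by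
  unfold Mw
  exact congrArg Complex.re (br_perm (fun i => S.F (w i)) g)

theorem orbit_le (t : X → ℝ) (ht : ∀ χ, 0 ≤ t χ) (w : Ω → X) :
    ((Fintype.card Ω).factorial : ℝ) * (S.Mw w * ∏ i, t (w i)) ≤
      (∏ χ, ((cnt w χ).factorial : ℝ)) * S.Zf t := by
  have h1 : ((Fintype.card Ω).factorial : ℝ) * (S.Mw w * ∏ i, t (w i)) =
      ∑ g : Equiv.Perm Ω, S.Mw (w ∘ g) * ∏ i, t ((w ∘ g) i) := by
    have : ∀ g : Equiv.Perm Ω, S.Mw (w ∘ g) * ∏ i, t ((w ∘ g) i) = S.Mw w * ∏ i, t (w i) := by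
      intro g
      rw [S.Mw_perm_X1]
      congr 1
      exact Equiv.prod_comp g (fun i => t (w i))
    rw [Finset.sum_congr rfl fun g _ => this g, Finset.sum_const, Finset.card_univ,
      Fintype.card_perm, nsmul_eq_mul]
  rw [h1, ← Finset.sum_fiberwise univ (fun g : Equiv.Perm Ω => w ∘ g)]
  unfold Zf
  rw [Finset.mul_sum]
  refine Finset.sum_le_sum fun w' _ => ?_
  have h2 : ∀ g ∈ univ.filter (fun g : Equiv.Perm Ω => w ∘ g = w'),
      S.Mw (w ∘ g) * ∏ i, t ((w ∘ g) i) = S.Mw w' * ∏ i, t (w' i) := by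
    intro g hg
    rw [(Finset.mem_filter.1 hg).2]
  rw [Finset.sum_congr rfl h2, Finset.sum_const, nsmul_eq_mul]
  refine mul_le_mul_of_nonneg_right ?_
    (mul_nonneg (S.Mw_nonneg _) (Finset.prod_nonneg fun i _ => ht _))
  have h3 : (univ.filter (fun g : Equiv.Perm Ω => w ∘ g = w')) =
      univ.filter (fun e : Ω ≃ Ω => ∀ a, w (e a) = w' a) := by
    ext g
    simp only [Finset.mem_filter, Finset.mem_univ, true_and]
    exact ⟨fun h a => congrFun h a, fun h => funext h⟩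
  have h4 : (univ.filter (fun g : Equiv.Perm Ω => w ∘ g = w')).card ≤
      ∏ χ, (cnt w χ).factorial := by
    rw [h3, card_equiv_fib w' w]
    split_ifs with h
    · exact le_of_eq (Finset.prod_congr rfl fun k _ => by rw [h k])
    · exact Nat.zero_le _
  exact_mod_cast h4

theorem Zf_nonneg (t : X → ℝ) (ht : ∀ χ, 0 ≤ t χ) : 0 ≤ S.Zf t :=
  Finset.sum_nonneg fun w _ =>
    mul_nonneg (S.Mw_nonneg w) (Finset.prod_nonneg fun _ _ => ht _)

theorem Zf_mono {t t' : X → ℝ} (ht : ∀ χ, 0 ≤ t χ) (h : ∀ χ, t χ ≤ t' χ) : S.Zf t ≤ S.Zf t' :=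
  Finset.sum_le_sum fun w _ =>
    mul_le_mul_of_nonneg_left (Finset.prod_le_prod (fun _ _ => ht _) (fun _ _ => h _))
      (S.Mw_nonneg w)

theorem Zf_eq (t : X → ℝ) : S.Zf t =
    ((Fintype.card Ω).factorial : ℝ) * ((∑ χ, (t χ : ℂ) • S.F χ).permanent).re := by
  have h1 := br_const (∑ χ, (t χ : ℂ) • S.F χ)
  rw [br_sum (fun _ χ => (t χ : ℂ) • S.F χ)] at h1
  have h2 := congrArg Complex.re h1
  rw [Complex.re_sum] at h2
  have h3 : (((Fintype.card Ω).factorial : ℂ) * (∑ χ, (t χ : ℂ) • S.F χ).permanent).re =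
      ((Fintype.card Ω).factorial : ℝ) * ((∑ χ, (t χ : ℂ) • S.F χ).permanent).re := by
    rw [← Complex.ofReal_natCast, Complex.re_ofReal_mul]
  rw [← h3, ← h2]
  unfold Zf Mw
  refine Finset.sum_congr rfl fun w _ => ?_
  rw [br_smul (fun i => (t (w i) : ℂ)) (fun i => S.F (w i)), ← Complex.ofReal_prod,
    Complex.re_ofReal_mul, mul_comm]

theorem lev_add_cnt (w : Ω → X) : S.lev w + cnt w S.x0 = Fintype.card Ω := by
  unfold lev cnt
  rw [add_comm, ← Finset.card_univ]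
  exact Finset.card_filter_add_card_filter_not (s := univ) (fun i => w i = S.x0)

end Spec

end Pool.Agent.Work.MP_66fdf3_co.Full
end

-- merged part: Pool.Agent.Work.MP_66fdf3_co.Full.Wick1
section
/-!
Three identities behind the Wick principle.
`per_add_smul_one`: `Matrix.permanent M = ∑ σ, ∏ i, M (σ i) i`; expand each product with
`Finset.prod_add`; for fixed `S` only the permutations fixing the complement of `S` survive and they
correspond to `Equiv.Perm S` (`Equiv.Perm.subtypeEquivSubtypePerm`, `Equiv.Perm.ofSubtype`).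
`per_gram`: expand the product of sums (`Finset.prod_univ_sum`) into words `b`; for a permutation `σ`
put `a = b ∘ σ⁻¹`; exchange the sums; the number of `σ` with `a (σ i) = b i` is `card_equiv_fib`.
`phase_avg`: write the squared norm as `g * conj g`, expand both products into words `a`, `b`; the
phase factor is `∏ e, stdAddChar (θ e * (cnt a e - cnt b e))` (`prod_eq_prod_cnt`); the sum over `θ`
factorises (`Finset.prod_univ_sum`) and `AddChar.sum_mulShift` with `ZMod.isPrimitive_stdAddChar`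
gives `N` or `0`; `cnt ≤ card ι < N` turns the congruence into an equality.
-/

namespace Pool.Agent.Work.MP_66fdf3_co.Full

open Finset Matrix

theorem per_add_smul_one {Ω : Type} [Fintype Ω] [DecidableEq Ω] (τ : ℂ) (N : Matrix Ω Ω ℂ) :
    (τ • (1 : Matrix Ω Ω ℂ) + N).permanent =
      ∑ S : Finset Ω, τ ^ (Fintype.card Ω - S.card) *
        (N.submatrix (fun i : S => (i : Ω)) (fun i : S => (i : Ω))).permanent := by
  have h1 : ∀ σ : Equiv.Perm Ω, ∏ i, (τ • (1 : Matrix Ω Ω ℂ) + N) (σ i) i =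
      ∑ S : Finset Ω, if ∀ a, a ∉ S → σ a = a then
        τ ^ (Fintype.card Ω - S.card) * ∏ a ∈ S, N (σ a) a else 0 := fun σ => by
    have h2 : ∀ i, (τ • (1 : Matrix Ω Ω ℂ) + N) (σ i) i =
        N (σ i) i + if σ i = i then τ else 0 := fun i => by
      rw [Matrix.add_apply, Matrix.smul_apply, Matrix.one_apply, smul_eq_mul, mul_ite, mul_one,
        mul_zero, add_comm]
    simp only [h2]
    rw [Fintype.prod_add]
    refine sum_congr rfl fun S _ => ?_
    rw [prod_ite_zero, prod_const, card_compl, mul_ite, mul_zero, mul_comm]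
    simp only [mem_compl]
  simp only [Matrix.permanent, h1]
  rw [sum_comm]
  refine sum_congr rfl fun S _ => ?_
  rw [← sum_filter, sum_subtype (p := fun σ : Equiv.Perm Ω => ∀ a, a ∉ S → σ a = a) _ (by simp),
    ← (Equiv.Perm.subtypeEquivSubtypePerm (fun a => a ∈ S)).sum_comp, mul_sum]
  refine sum_congr rfl fun π _ => ?_
  rw [← prod_coe_sort S]
  refine congrArg _ (prod_congr rfl fun i _ => ?_)
  rw [Matrix.submatrix_apply, ← Equiv.Perm.ofSubtype_apply_coe π i]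
  rfl

theorem per_gram {ι E : Type} [Fintype ι] [DecidableEq ι] [Fintype E] [DecidableEq E]
    (v : E → ι → ℂ) :
    (Matrix.of fun x y : ι => ∑ e, v e x * (starRingEnd ℂ) (v e y)).permanent =
      ∑ a : ι → E, ∑ b : ι → E, (if ∀ e, cnt a e = cnt b e then
        (∏ i, v (a i) i * (starRingEnd ℂ) (v (b i) i)) else 0) *
          ∏ e, ((cnt a e).factorial : ℂ) := by
  have h1 : ∀ σ : Equiv.Perm ι, ∏ i, ∑ e, v e (σ i) * (starRingEnd ℂ) (v e i) =
      ∑ a : ι → E, ∑ b : ι → E, if ∀ i, a (σ i) = b i then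
        ∏ i, v (a i) i * (starRingEnd ℂ) (v (b i) i) else 0 := fun σ => by
    rw [Fintype.prod_sum, sum_comm]
    refine sum_congr rfl fun b _ => ?_
    rw [sum_eq_single (fun i => b (σ.symm i))]
    · rw [if_pos fun i => congrArg b (σ.symm_apply_apply i), prod_mul_distrib, prod_mul_distrib,
        ← Equiv.prod_comp σ fun i => v (b (σ.symm i)) i]
      simp only [Equiv.symm_apply_apply]
    · intro a _ ha
      refine if_neg fun h => ha (funext fun i => ?_)
      rw [← h, Equiv.apply_symm_apply]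
    · exact fun h => absurd (mem_univ _) h
  simp only [Matrix.permanent, Matrix.of_apply, h1]
  rw [sum_comm]
  refine sum_congr rfl fun a _ => ?_
  rw [sum_comm]
  refine sum_congr rfl fun b _ => ?_
  rw [← sum_filter, sum_const, card_equiv_fib b a, nsmul_eq_mul]
  by_cases h : ∀ e, cnt a e = cnt b e
  · rw [if_pos h, if_pos fun e => (h e).symm, mul_comm]
    simp only [h, Nat.cast_prod]
  · rw [if_neg h, if_neg fun k => h fun e => (k e).symm, Nat.cast_zero, zero_mul, zero_mul]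

theorem Wick1_phase {N : ℕ} [NeZero N] (t : ZMod N) (m n : ℕ) :
    ZMod.stdAddChar (t * ((m : ZMod N) - (n : ZMod N))) =
      ZMod.stdAddChar t ^ m * ZMod.stdAddChar (-t) ^ n := by
  rw [← AddChar.map_nsmul_eq_pow, ← AddChar.map_nsmul_eq_pow, ← AddChar.map_add_eq_mul]
  congr 1
  rw [nsmul_eq_mul, nsmul_eq_mul]
  ring

theorem Wick1_sum {N : ℕ} [NeZero N] {m n : ℕ} (hm : m < N) (hn : n < N) :
    ∑ t : ZMod N, ZMod.stdAddChar (t * ((m : ZMod N) - (n : ZMod N))) = if m = n then (N : ℂ) else 0 := by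
  rw [AddChar.sum_mulShift _ (ZMod.isPrimitive_stdAddChar N), ZMod.card]
  simp only [sub_eq_zero, ZMod.natCast_eq_natCast_iff', Nat.mod_eq_of_lt hm, Nat.mod_eq_of_lt hn,
    Nat.cast_ite, Nat.cast_zero]

theorem phase_avg {ι E : Type} [Fintype ι] [DecidableEq ι] [Fintype E] [DecidableEq E]
    (v : E → ι → ℂ) (N : ℕ) [NeZero N] (hN : Fintype.card ι < N) (x : E → ℝ) (hx : ∀ e, 0 ≤ x e) :
    ((∑ θ : E → ZMod N, ∏ i,
        ‖∑ e, ((√(x e) : ℝ) : ℂ) * ZMod.stdAddChar (θ e) * v e i‖ ^ 2 : ℝ) : ℂ) =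
      (N : ℂ) ^ Fintype.card E * ∑ a : ι → E, ∑ b : ι → E, (if ∀ e, cnt a e = cnt b e then
        (∏ i, v (a i) i * (starRingEnd ℂ) (v (b i) i)) else 0) *
          ∏ e, ((x e : ℂ)) ^ cnt a e := by
  have h1 : ∀ θ : E → ZMod N,
      ((∏ i, ‖∑ e, ((√(x e) : ℝ) : ℂ) * ZMod.stdAddChar (θ e) * v e i‖ ^ 2 : ℝ) : ℂ) =
      ∑ a : ι → E, ∑ b : ι → E, ((∏ i, v (a i) i * (starRingEnd ℂ) (v (b i) i)) *
        ∏ e, ((√(x e) : ℝ) : ℂ) ^ cnt a e * ((√(x e) : ℝ) : ℂ) ^ cnt b e) *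
        ∏ e, ZMod.stdAddChar (θ e * ((cnt a e : ZMod N) - (cnt b e : ZMod N))) := fun θ => by
    simp only [Complex.ofReal_prod, Complex.ofReal_pow, ← Complex.mul_conj']
    rw [prod_mul_distrib]
    simp only [map_sum]
    rw [Fintype.prod_sum, Fintype.prod_sum, sum_mul_sum]
    refine sum_congr rfl fun a _ => sum_congr rfl fun b _ => ?_
    simp only [map_mul, Complex.conj_ofReal, ← AddChar.map_neg_eq_conj, prod_mul_distrib,
      Wick1_phase]
    rw [prod_eq_prod_cnt a fun e => ((√(x e) : ℝ) : ℂ),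
      prod_eq_prod_cnt b fun e => ((√(x e) : ℝ) : ℂ),
      prod_eq_prod_cnt a fun e => ZMod.stdAddChar (θ e),
      prod_eq_prod_cnt b fun e => ZMod.stdAddChar (-θ e)]
    ring
  rw [Complex.ofReal_sum]
  simp only [h1]
  rw [sum_comm, mul_sum]
  refine sum_congr rfl fun a _ => ?_
  rw [sum_comm, mul_sum]
  refine sum_congr rfl fun b _ => ?_
  rw [← mul_sum, ← Fintype.prod_sum fun e (t : ZMod N) =>
    ZMod.stdAddChar (t * ((cnt a e : ZMod N) - (cnt b e : ZMod N)))]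
  simp only [Wick1_sum ((cnt_le a _).trans_lt hN) ((cnt_le b _).trans_lt hN)]
  rw [prod_ite_zero, prod_const, card_univ]
  simp only [mem_univ, forall_true_left]
  split_ifs with h
  · have h2 : ∀ e, ((√(x e) : ℝ) : ℂ) ^ cnt a e * ((√(x e) : ℝ) : ℂ) ^ cnt b e =
        (x e : ℂ) ^ cnt a e := fun e => by
      rw [← h e, ← mul_pow, ← Complex.ofReal_mul, Real.mul_self_sqrt (hx e)]
    simp only [h2]
    ring
  · rw [mul_zero, zero_mul, mul_zero]

end Pool.Agent.Work.MP_66fdf3_co.Full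
end

-- merged part: Pool.Agent.Work.MP_66fdf3_co.Full.Lag
section
/-!
Positivity of the functional `s ^ n ↦ n !`.
`lag_one`: integrate against `exp (-x)` on `Ioi 0`: `Real.Gamma_eq_integral`,
`Real.Gamma_nat_eq_factorial`, `Real.GammaIntegral_convergent`, `integral_finset_sum`,
`setIntegral_nonneg`.
`lag_pos`: induction on a finset `J` of integrated variables: for all `x ≥ 0`,
`0 ≤ ∑ t, b t * (∏ i ∈ J, (n t i)!) * ∏ i ∈ Jᶜ, x i ^ n t i`; the step applies `lag_one` to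
`r ↦ Function.update x i0 r`.
`lag_le`: apply `lag_pos` on the sum type (`Finset.disjSum`) with coefficients `b'` and `-b`.
-/

namespace Pool.Agent.Work.MP_66fdf3_co.Full

open Finset Matrix

theorem lag_one {T : Type} (s : Finset T) (b : T → ℝ) (n : T → ℕ)
    (h : ∀ r : ℝ, 0 ≤ r → 0 ≤ ∑ t ∈ s, b t * r ^ n t) :
    0 ≤ ∑ t ∈ s, b t * ((n t).factorial : ℝ) := by
  have hp : ∀ k : ℕ, (0 : ℝ) < k + 1 := fun k => by positivity
  have h1 : ∀ k : ℕ, MeasureTheory.IntegrableOn (fun x : ℝ => Real.exp (-x) * x ^ k)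
      (Set.Ioi 0) := fun k => by
    simpa using Real.GammaIntegral_convergent (hp k)
  have h2 : ∀ k : ℕ, (k.factorial : ℝ) = ∫ x in Set.Ioi (0 : ℝ), Real.exp (-x) * x ^ k :=
    fun k => by
      rw [← Real.Gamma_nat_eq_factorial, Real.Gamma_eq_integral (hp k)]
      simp
  simp only [h2, ← MeasureTheory.integral_const_mul]
  rw [← MeasureTheory.integral_finsetSum _ fun t _ => (h1 (n t)).const_mul (b t)]
  refine MeasureTheory.setIntegral_nonneg measurableSet_Ioi fun x hx => ?_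
  simp only [mul_left_comm _ (Real.exp (-x)), ← mul_sum]
  exact mul_nonneg (Real.exp_pos _).le (h x (le_of_lt hx))

theorem lag_one_le {T T' : Type} (s : Finset T) (b : T → ℝ) (n : T → ℕ) (s' : Finset T')
    (b' : T' → ℝ) (n' : T' → ℕ)
    (h : ∀ r : ℝ, 0 ≤ r → ∑ t ∈ s, b t * r ^ n t ≤ ∑ t ∈ s', b' t * r ^ n' t) :
    ∑ t ∈ s, b t * ((n t).factorial : ℝ) ≤ ∑ t ∈ s', b' t * ((n' t).factorial : ℝ) := by
  have := lag_one (s'.disjSum s) (Sum.elim b' fun t => -b t) (Sum.elim n' n) fun r hr => by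
    simpa [sum_disjSum] using h r hr
  simpa [sum_disjSum] using this

theorem lag_pos {I T : Type} [Fintype I] (s : Finset T) (b : T → ℝ) (n : T → I → ℕ)
    (h : ∀ x : I → ℝ, (∀ i, 0 ≤ x i) → 0 ≤ ∑ t ∈ s, b t * ∏ i, x i ^ n t i) :
    0 ≤ ∑ t ∈ s, b t * ∏ i, ((n t i).factorial : ℝ) := by
  classical
  have key : ∀ (J : Finset I) (x : I → ℝ), (∀ i, 0 ≤ x i) →
      0 ≤ ∑ t ∈ s, b t * ∏ i, if i ∈ J then ((n t i).factorial : ℝ) else x i ^ n t i := by
    intro J
    induction J using Finset.induction_on with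
    | empty => simpa using h
    | insert j J hj ih =>
      intro x hx
      have := lag_one s (fun t => b t * ∏ i ∈ univ.erase j,
        if i ∈ J then ((n t i).factorial : ℝ) else x i ^ n t i) (fun t => n t j) fun r hr => by
          refine (ih (Function.update x j r) fun i => ?_).trans_eq (sum_congr rfl fun t _ => ?_)
          · rw [Function.update_apply]
            split_ifs
            exacts [hr, hx i]
          · rw [← prod_erase_mul _ _ (mem_univ j), if_neg hj, Function.update_self, ← mul_assoc]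
            congr 2
            exact prod_congr rfl fun i hi => by rw [Function.update_of_ne (ne_of_mem_erase hi)]
      refine this.trans_eq (sum_congr rfl fun t _ => ?_)
      rw [← prod_erase_mul _ _ (mem_univ j), if_pos (mem_insert_self j J), ← mul_assoc]
      congr 2
      exact prod_congr rfl fun i hi => by simp only [mem_insert, ne_of_mem_erase hi, false_or]
  simpa using key univ 0 fun _ => le_rfl

theorem lag_le {I T T' : Type} [Fintype I] (s : Finset T) (b : T → ℝ) (n : T → I → ℕ)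
    (s' : Finset T') (b' : T' → ℝ) (n' : T' → I → ℕ)
    (h : ∀ x : I → ℝ, (∀ i, 0 ≤ x i) →
      ∑ t ∈ s, b t * ∏ i, x i ^ n t i ≤ ∑ t ∈ s', b' t * ∏ i, x i ^ n' t i) :
    ∑ t ∈ s, b t * ∏ i, ((n t i).factorial : ℝ) ≤
      ∑ t ∈ s', b' t * ∏ i, ((n' t i).factorial : ℝ) := by
  have := lag_pos (s'.disjSum s) (Sum.elim b' fun t => -b t) (Sum.elim n' n) fun x hx => by
    simpa [sum_disjSum] using h x hx
  simpa [sum_disjSum] using this

end Pool.Agent.Work.MP_66fdf3_co.Full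
end

-- merged part: Pool.Agent.Work.MP_66fdf3_co.Full.Wick
section
/-!
The Wick principle.  Expand `∏ α, (τ + ‖g α‖ ^ 2)` with `Finset.prod_add` into subsets `S`, use
`phase_avg` on the subtype `S`, take real parts: the average is
`∑ over (S, a, b) of coefficient * ∏ e, x e ^ cnt a e` (index set: a sigma type over `S`).  Apply
`lag_le`; the left side is the real part of the permanent by `per_add_smul_one` and `per_gram`.
-/

namespace Pool.Agent.Work.MP_66fdf3_co.Full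

open Finset Matrix

/-- The coefficient of a pair of words on the subset `S`. -/
noncomputable def WickC {Ω E : Type} [Fintype E] [DecidableEq E] (v : E → Ω → ℂ) (S : Finset Ω)
    (a b : S → E) : ℂ :=
  if ∀ e, cnt a e = cnt b e then
    (∏ i : S, v (a i) i * (starRingEnd ℂ) (v (b i) i)) else 0

theorem Wick_sigma {Ω E : Type} [Fintype Ω] [DecidableEq Ω] [Fintype E] [DecidableEq E]
    (v : E → Ω → ℂ) (τ : ℝ) (F : (E → ℕ) → ℝ) :
    ∑ t : (Σ S : Finset Ω, (S → E) × (S → E)),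
        (τ ^ (Fintype.card Ω - t.1.card) * (WickC v t.1 t.2.1 t.2.2).re) * F (cnt t.2.1) =
      ∑ S : Finset Ω, τ ^ (Fintype.card Ω - S.card) *
        (∑ a : S → E, ∑ b : S → E, WickC v S a b * (F (cnt a) : ℂ)).re := by
  rw [Fintype.sum_sigma]
  refine sum_congr rfl fun S _ => ?_
  rw [Fintype.sum_prod_type, Complex.re_sum, mul_sum]
  refine sum_congr rfl fun a _ => ?_
  rw [Complex.re_sum, mul_sum]
  refine sum_congr rfl fun b _ => ?_
  rw [Complex.re_mul_ofReal]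
  ring

theorem Wick_avg {Ω E : Type} [Fintype Ω] [DecidableEq Ω] [Fintype E] [DecidableEq E]
    (v : E → Ω → ℂ) (τ : ℝ) (N : ℕ) [NeZero N] (hN : Fintype.card Ω < N)
    (x : E → ℝ) (hx : ∀ e, 0 ≤ x e) :
    ∑ θ : E → ZMod N, ∏ α,
        (τ + ‖∑ e, ((√(x e) : ℝ) : ℂ) * ZMod.stdAddChar (θ e) * v e α‖ ^ 2) =
      (N : ℝ) ^ Fintype.card E * ∑ S : Finset Ω, τ ^ (Fintype.card Ω - S.card) *
        (∑ a : S → E, ∑ b : S → E, WickC v S a b * ((∏ e, x e ^ cnt a e : ℝ) : ℂ)).re := by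
  have h1 : ∀ θ : E → ZMod N, ∏ α,
      (τ + ‖∑ e, ((√(x e) : ℝ) : ℂ) * ZMod.stdAddChar (θ e) * v e α‖ ^ 2) =
      ∑ S : Finset Ω, τ ^ (Fintype.card Ω - S.card) *
        ∏ i : S, ‖∑ e, ((√(x e) : ℝ) : ℂ) * ZMod.stdAddChar (θ e) * v e i‖ ^ 2 := by
    intro θ
    rw [prod_congr rfl fun α _ => add_comm τ _, prod_add, powerset_univ]
    refine sum_congr rfl fun S _ => ?_
    rw [prod_const, card_univ_sdiff, mul_comm,
      ← prod_coe_sort S
        (fun α => ‖∑ e, ((√(x e) : ℝ) : ℂ) * ZMod.stdAddChar (θ e) * v e α‖ ^ 2)]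
  rw [sum_congr rfl fun θ _ => h1 θ, sum_comm, mul_sum]
  refine sum_congr rfl fun S _ => ?_
  have hS : Fintype.card S < N := by
    rw [Fintype.card_coe]
    exact lt_of_le_of_lt (card_le_univ S) hN
  have h2 := congrArg Complex.re (phase_avg (fun e (i : S) => v e i) N hS x hx)
  rw [Complex.ofReal_re] at h2
  rw [← mul_sum, h2]
  have h3 : ((N : ℂ)) ^ Fintype.card E = (((N : ℝ) ^ Fintype.card E : ℝ) : ℂ) := by
    push_cast; rfl
  rw [h3, Complex.re_ofReal_mul]
  simp only [WickC, Complex.ofReal_prod, Complex.ofReal_pow]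
  ring

theorem wick {Ω E T : Type} [Fintype Ω] [DecidableEq Ω] [Fintype E] [DecidableEq E]
    (v : E → Ω → ℂ) (τ : ℝ) (N : ℕ) [NeZero N] (hN : Fintype.card Ω < N)
    (s : Finset T) (q : T → ℝ) (n : T → E → ℕ)
    (h : ∀ x : E → ℝ, (∀ e, 0 ≤ x e) →
      ∑ θ : E → ZMod N, ∏ α,
          (τ + ‖∑ e, ((√(x e) : ℝ) : ℂ) * ZMod.stdAddChar (θ e) * v e α‖ ^ 2) ≤
        (N : ℝ) ^ Fintype.card E * ∑ t ∈ s, q t * ∏ e, x e ^ n t e) :
    (((τ : ℂ) • (1 : Matrix Ω Ω ℂ) +
        Matrix.of fun x y : Ω => ∑ e, v e x * (starRingEnd ℂ) (v e y)).permanent).re ≤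
      ∑ t ∈ s, q t * ∏ e, ((n t e).factorial : ℝ) := by
  have hpos : (0 : ℝ) < (N : ℝ) ^ Fintype.card E :=
    pow_pos (Nat.cast_pos.2 (Nat.pos_of_ne_zero (NeZero.ne N))) _
  have key := lag_le (univ : Finset (Σ S : Finset Ω, (S → E) × (S → E)))
    (fun t => τ ^ (Fintype.card Ω - t.1.card) * (WickC v t.1 t.2.1 t.2.2).re)
    (fun t => cnt t.2.1) s q n (fun x hx => by
      have h1 := h x hx
      rw [Wick_avg v τ N hN x hx] at h1
      have h2 := le_of_mul_le_mul_left h1 hpos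
      rw [← Wick_sigma v τ (fun k => ∏ e, x e ^ k e)] at h2
      exact h2)
  refine le_trans (le_of_eq ?_) key
  rw [Wick_sigma v τ (fun k => ∏ e, ((k e).factorial : ℝ)), per_add_smul_one, Complex.re_sum]
  refine sum_congr rfl fun S _ => ?_
  have h3 : ((τ : ℂ)) ^ (Fintype.card Ω - S.card) =
      ((τ ^ (Fintype.card Ω - S.card) : ℝ) : ℂ) := by
    push_cast; rfl
  rw [h3, Complex.re_ofReal_mul]
  have h4 : (Matrix.of fun x y : Ω => ∑ e, v e x * (starRingEnd ℂ) (v e y)).submatrix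
      (fun i : S => (i : Ω)) (fun i : S => (i : Ω)) =
      Matrix.of fun x y : S => ∑ e, v e x * (starRingEnd ℂ) (v e y) := rfl
  rw [h4, per_gram (fun e (i : S) => v e i)]
  simp only [WickC, Complex.ofReal_prod, Complex.ofReal_natCast]

end Pool.Agent.Work.MP_66fdf3_co.Full
end

-- merged part: Pool.Agent.Work.MP_66fdf3_co.Full.Z2
section
/-!
Permanent bound from the Wick principle and AM-GM.
Apply `wick` with modes `Option E`, vectors `√(lam o) • v o` (`lam none = y`), `N = card Ω + 1`.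
Pointwise: `∏ α, (τ + ‖g α‖²) ≤ (τ + (∑ α, ‖g α‖²)/m) ^ m` (AM-GM,
`Real.geom_mean_le_arith_mean_weighted` with weights `1 / m`, raised to the power `m`),
and `∑ ‖g α‖² ≤ y x_none + ∑ e, lam e * x e` by `hv` (`‖stdAddChar _‖ = 1`).
Expand `(τ + y x0 / m + Σ / m) ^ m` by two binomial theorems (`add_pow`) and
`Finset.sum_pow_eq_sum_piAntidiag`; index set: triples `(N, i, k)` with `N ≤ m`, `i ≤ m - N`,
`k ∈ piAntidiag univ N`, exponent `none ↦ i`, `some e ↦ k e`; `Nat.multinomial_spec` removes the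
factorials.
-/

namespace Pool.Agent.Work.MP_66fdf3_co.Full

open Finset Matrix

theorem Z2_amgm {Ω : Type} [Fintype Ω] [Nonempty Ω] (z : Ω → ℝ) (hz : ∀ a, 0 ≤ z a) {b : ℝ}
    (h : ∑ a, z a ≤ Fintype.card Ω * b) : ∏ a, z a ≤ b ^ Fintype.card Ω := by
  have hm : (0 : ℝ) < Fintype.card Ω := Nat.cast_pos.2 Fintype.card_pos
  have h1 := Real.geom_mean_le_arith_mean univ (fun _ => 1) z (fun _ _ => zero_le_one)
    (by simpa using hm) fun a _ => hz a
  simp only [Real.rpow_one, one_mul, sum_const, card_univ, nsmul_eq_mul, mul_one] at h1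
  have h2 := (div_le_iff₀' hm).2 h
  rw [← Real.rpow_natCast]
  exact (Real.rpow_inv_le_iff_of_pos (prod_nonneg fun a _ => hz a)
    ((div_nonneg (sum_nonneg fun a _ => hz a) hm.le).trans h2) hm).1 (h1.trans h2)

theorem Z2_exp {E : Type} [Fintype E] [DecidableEq E] (m : ℕ) (τ y : ℝ) (l : E → ℝ)
    (x : Option E → ℝ) : (∑ e, l e * x (some e) + (y * x none + τ)) ^ m =
      ∑ t ∈ (range (m + 1)).sigma fun N => range (m - N + 1) ×ˢ piAntidiag (univ : Finset E) N,
        ((m.choose t.1 : ℝ) * ((m - t.1).choose t.2.1 : ℝ) * τ ^ (m - t.1 - t.2.1) * y ^ t.2.1 *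
          (Nat.multinomial univ t.2.2 : ℝ) * ∏ e, l e ^ t.2.2 e) *
            ∏ o, x o ^ o.elim t.2.1 t.2.2 := by
  rw [add_pow, sum_sigma]
  refine sum_congr rfl fun N _ => ?_
  rw [add_pow, sum_pow_eq_sum_piAntidiag, sum_product, mul_comm (∑ k ∈ piAntidiag _ _, _),
    sum_mul_sum, sum_mul]
  refine sum_congr rfl fun i _ => ?_
  rw [sum_mul]
  refine sum_congr rfl fun k _ => ?_
  simp only [Fintype.prod_option, Option.elim, mul_pow, prod_mul_distrib]
  ring

theorem Z2_term {m N i : ℕ} (hm : 0 < m) (h1 : N ≤ m) (h2 : i ≤ m - N) (τ y : ℝ) :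
    (m.choose N : ℝ) * ((m - N).choose i : ℝ) * τ ^ (m - N - i) * (y / m) ^ i * (N.factorial : ℝ) *
      (i.factorial : ℝ) / (m : ℝ) ^ N = (m.factorial : ℝ) / (m : ℝ) ^ m *
        (((m : ℝ) * τ) ^ (m - N - i) * y ^ i / ((m - N - i).factorial : ℝ)) := by
  have e1 := congrArg (Nat.cast (R := ℝ)) (Nat.choose_mul_factorial_mul_factorial h1)
  have e2 := congrArg (Nat.cast (R := ℝ)) (Nat.choose_mul_factorial_mul_factorial h2)
  have e3 : (m : ℝ) ^ m = (m : ℝ) ^ N * (m : ℝ) ^ i * (m : ℝ) ^ (m - N - i) := by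
    rw [← pow_add, ← pow_add]
    congr 1
    omega
  push_cast at e1 e2
  have := (m - N - i).factorial_pos
  rw [← e1, ← e2, e3, mul_pow, div_pow]
  field_simp

theorem per_le_cN {Ω E : Type} [Fintype Ω] [DecidableEq Ω] [Nonempty Ω] [Fintype E] [DecidableEq E]
    (v : Option E → Ω → ℂ)
    (hv : ∀ c : Option E → ℂ, ∑ α, ‖∑ o, c o * v o α‖ ^ 2 ≤ ∑ o, ‖c o‖ ^ 2)
    {τ y : ℝ} (hτ : 0 ≤ τ) (hy : 0 ≤ y) (lam : E → ℝ) (hl : ∀ e, 0 ≤ lam e) :
    (((τ : ℂ) • (1 : Matrix Ω Ω ℂ) + Matrix.of fun a b : Ω =>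
        (y : ℂ) * (v none a * (starRingEnd ℂ) (v none b)) +
          ∑ e, (lam e : ℂ) * (v (some e) a * (starRingEnd ℂ) (v (some e) b))).permanent).re ≤
      ((Fintype.card Ω).factorial : ℝ) / (Fintype.card Ω : ℝ) ^ Fintype.card Ω *
        ∑ N ∈ range (Fintype.card Ω + 1), cN (Fintype.card Ω) τ y N *
          ∑ k ∈ piAntidiag (univ : Finset E) N, ∏ e, lam e ^ k e := by
  have hm := Fintype.card_pos (α := Ω)
  have hm' : (0 : ℝ) < Fintype.card Ω := Nat.cast_pos.2 hm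
  have hL : ∀ o : Option E, 0 ≤ o.elim y lam := fun o => by cases o <;> simp [hy, hl]
  have e : ∀ (o : Option E) (a b : Ω), ((√(o.elim y lam) : ℝ) : ℂ) * v o a *
      (starRingEnd ℂ) (((√(o.elim y lam) : ℝ) : ℂ) * v o b) =
        ((o.elim y lam : ℝ) : ℂ) * (v o a * (starRingEnd ℂ) (v o b)) := fun o a b => by
    rw [map_mul, Complex.conj_ofReal, mul_mul_mul_comm, ← Complex.ofReal_mul,
      Real.mul_self_sqrt (hL o)]
  have key := wick (fun o a => ((√(o.elim y lam) : ℝ) : ℂ) * v o a) τ (Fintype.card Ω + 1)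
    (Nat.lt_succ_self _) ((range (Fintype.card Ω + 1)).sigma fun N =>
      range (Fintype.card Ω - N + 1) ×ˢ piAntidiag (univ : Finset E) N)
    (fun t => ((Fintype.card Ω).choose t.1 : ℝ) * ((Fintype.card Ω - t.1).choose t.2.1 : ℝ) *
      τ ^ (Fintype.card Ω - t.1 - t.2.1) * (y / Fintype.card Ω) ^ t.2.1 *
      (Nat.multinomial univ t.2.2 : ℝ) * ∏ e, (lam e / Fintype.card Ω) ^ t.2.2 e)
    (fun t o => o.elim t.2.1 t.2.2) fun x hx => by
      rw [← Z2_exp]
      refine (sum_le_card_nsmul _ _ _ fun θ _ => Z2_amgm _ (fun a => by positivity) ?_).trans_eq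
        (by rw [card_univ, Fintype.card_fun, ZMod.card, nsmul_eq_mul, Nat.cast_pow])
      have h1 := hv fun o =>
        ((√(x o) : ℝ) : ℂ) * ZMod.stdAddChar (θ o) * ((√(o.elim y lam) : ℝ) : ℂ)
      simp only [norm_mul, mul_pow, AddChar.norm_apply, Complex.norm_real, Real.norm_eq_abs, sq_abs,
        Real.sq_sqrt (hx _), Real.sq_sqrt (hL _), mul_assoc, one_mul] at h1
      rw [Fintype.sum_option (fun o => x o * o.elim y lam)] at h1
      simp only [sum_add_distrib, sum_const, card_univ, nsmul_eq_mul, mul_assoc, mul_add, mul_sum,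
        div_mul_eq_mul_div, mul_div_cancel₀ _ hm'.ne']
      simp only [Option.elim_none, Option.elim_some, mul_comm (x _)] at h1
      linarith only [h1]
  simp only [e] at key
  simp only [Fintype.sum_option, Option.elim_none, Option.elim_some] at key
  refine key.trans_eq ?_
  rw [sum_sigma, mul_sum]
  refine sum_congr rfl fun N hN => ?_
  have h1 := Nat.lt_succ_iff.1 (mem_range.1 hN)
  rw [cN, if_pos h1, sum_product, sum_mul_sum, mul_sum]
  refine sum_congr rfl fun i hi => ?_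
  rw [mul_sum]
  refine sum_congr rfl fun k hk => ?_
  have e1 := congrArg (Nat.cast (R := ℝ)) (Nat.multinomial_spec univ k)
  have e2 : ∑ e, k e = N := (mem_piAntidiag.1 hk).1
  rw [e2] at e1
  push_cast at e1
  rw [← mul_assoc, ← Z2_term hm h1 (Nat.lt_succ_iff.1 (mem_range.1 hi)), ← e1]
  simp only [Fintype.prod_option, Option.elim, div_pow, prod_div_distrib, prod_pow_eq_pow_sum, e2]
  ring

end Pool.Agent.Work.MP_66fdf3_co.Full
end

-- merged part: Pool.Agent.Work.MP_66fdf3_co.Full.Z3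
section
/-!
Product bound.  Choose `(B χ, η χ)` from `PsiOK`.  For `k ∈ piAntidiag univ N` with `N ≤ m` put
`n χ = ∑ e with cls e = χ, k e`; by induction on a finset `s` of classes
`cN (∑ χ ∈ s, n χ) ≤ cN 0 * ∏ χ ∈ s, B χ * η χ ^ n χ` (`cN_add_le`, `n χ ≤ N ≤ m`).  Then all the `k` lie in
`Fintype.piFinset fun _ => range (m+1)` (the sets `piAntidiag univ N` are disjoint), the sum of
`∏ e, (η x) ^ k e` over this set is a product of finite geometric sums (`Finset.prod_univ_sum`), each at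
most `(1 - η x)⁻¹`; regroup with `prod_eq_prod_cnt`.  Note `1 ≤ B` (case `N = 0`).
-/

namespace Pool.Agent.Work.MP_66fdf3_co.Full

open Finset Matrix

theorem Z3_ind {X : Type} [DecidableEq X] {m : ℕ} {τ y : ℝ} (hτ : 0 < τ) (hy : 0 < y) (n : X → ℕ)
    (R : X → ℝ) (hn : ∀ χ, n χ ≤ m) (hR : ∀ χ, Rho m τ y (n χ) ≤ R χ) (s : Finset X) :
    cN m τ y (∑ χ ∈ s, n χ) ≤ cN m τ y 0 * ∏ χ ∈ s, R χ := by
  induction s using Finset.induction_on with
  | empty => simp
  | insert a s ha ih =>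
    rw [sum_insert ha, prod_insert ha, add_comm, mul_comm (R a), ← mul_assoc]
    refine (cN_add_le hτ hy _ (hn a)).trans ?_
    exact mul_le_mul ih (hR a) (Rho_nonneg hτ hy (hn a)) ((cN_nonneg m hτ.le hy.le _).trans ih)

theorem Z3_key {E X : Type} [Fintype E] [Fintype X] [DecidableEq X] (cls : E → X) {m : ℕ} {τ y : ℝ}
    (hτ : 0 < τ) (hy : 0 < y) (B η : X → ℝ) (hR : ∀ χ N, N ≤ m → Rho m τ y N ≤ B χ * η χ ^ N)
    (k : E → ℕ) (hk : ∑ e, k e ≤ m) :
    cN m τ y (∑ e, k e) ≤ (cN m τ y 0 * ∏ χ, B χ) * ∏ e, η (cls e) ^ k e := by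
  have hn : ∀ χ, ∑ e ∈ univ.filter (fun e => cls e = χ), k e ≤ m := fun χ =>
    (sum_le_sum_of_subset (filter_subset _ _)).trans hk
  have h1 := Z3_ind hτ hy (fun χ => ∑ e ∈ univ.filter (fun e => cls e = χ), k e) _ hn
    (fun χ => hR χ _ (hn χ)) univ
  rw [sum_fiberwise, prod_mul_distrib, ← mul_assoc] at h1
  refine h1.trans (le_of_eq ?_)
  rw [← prod_fiberwise univ cls fun e => η (cls e) ^ k e]
  refine congrArg _ (prod_congr rfl fun χ _ => ?_)
  rw [← prod_pow_eq_pow_sum]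
  exact prod_congr rfl fun e he => by rw [(mem_filter.1 he).2]

theorem Z3_geom {E : Type} [Fintype E] [DecidableEq E] (m : ℕ) (q : E → ℝ) (h0 : ∀ e, 0 ≤ q e)
    (h1 : ∀ e, q e < 1) :
    ∑ N ∈ range (m + 1), ∑ k ∈ piAntidiag (univ : Finset E) N, ∏ e, q e ^ k e ≤
      ∏ e, (1 - q e)⁻¹ := by
  have p0 : ∀ k : E → ℕ, 0 ≤ ∏ e, q e ^ k e := fun k => prod_nonneg fun e _ => pow_nonneg (h0 e) _
  calc ∑ N ∈ range (m + 1), ∑ k ∈ piAntidiag (univ : Finset E) N, ∏ e, q e ^ k e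
      ≤ ∑ N ∈ range (m + 1), ∑ k ∈ (Fintype.piFinset fun _ : E => range (m + 1)).filter
          (fun k => ∑ e, k e = N), ∏ e, q e ^ k e := by
        refine sum_le_sum fun N hN => sum_le_sum_of_subset_of_nonneg (fun k hk => ?_)
          fun k _ _ => p0 k
        have e1 := (mem_piAntidiag.1 hk).1
        refine mem_filter.2 ⟨Fintype.mem_piFinset.2 fun e => mem_range.2 ?_, e1⟩
        exact (single_le_sum (f := k) (fun _ _ => Nat.zero_le _) (mem_univ e)).trans_lt
          (e1.trans_lt (mem_range.1 hN))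
    _ ≤ ∑ k ∈ Fintype.piFinset fun _ : E => range (m + 1), ∏ e, q e ^ k e :=
        sum_fiberwise_le_sum_of_sum_fiber_nonneg fun _ _ => sum_nonneg fun k _ => p0 k
    _ = ∏ e, ∑ i ∈ range (m + 1), q e ^ i := (prod_univ_sum _ fun e i => q e ^ i).symm
    _ ≤ ∏ e, (1 - q e)⁻¹ := by
        refine prod_le_prod (fun e _ => sum_nonneg fun i _ => pow_nonneg (h0 e) i) fun e _ => ?_
        rw [← tsum_geometric_of_lt_one (h0 e) (h1 e)]
        exact (summable_geometric_of_lt_one (h0 e) (h1 e)).sum_le_tsum _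
          fun i _ => pow_nonneg (h0 e) i

theorem cN_sum_le {E X : Type} [Fintype E] [DecidableEq E] [Fintype X] [DecidableEq X]
    (cls : E → X) {m : ℕ} {τ y : ℝ} (hτ : 0 < τ) (hy : 0 < y) (x Ψ : X → ℝ) (hx : ∀ χ, 0 ≤ x χ)
    (h : ∀ χ, PsiOK m τ y (cnt cls χ) (x χ) (Ψ χ)) :
    ∑ N ∈ range (m + 1), cN m τ y N * ∑ k ∈ piAntidiag (univ : Finset E) N, ∏ e, x (cls e) ^ k e ≤
      Gs m τ y * ∏ χ, Ψ χ := by
  choose B η h0 h1 hR hΨ using h
  have hB : ∀ χ, 0 ≤ B χ := fun χ => by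
    have := hR χ 0 (Nat.zero_le m)
    rw [Rho, prod_range_zero, pow_zero, mul_one] at this
    linarith
  have hG : 0 ≤ Gs m τ y := Gs_nonneg m hτ.le hy.le
  have hC : 0 ≤ Gs m τ y * ∏ χ, B χ := mul_nonneg hG (prod_nonneg fun χ _ => hB χ)
  calc ∑ N ∈ range (m + 1), cN m τ y N * ∑ k ∈ piAntidiag (univ : Finset E) N, ∏ e, x (cls e) ^ k e
      ≤ ∑ N ∈ range (m + 1), (Gs m τ y * ∏ χ, B χ) *
          ∑ k ∈ piAntidiag (univ : Finset E) N, ∏ e, (η (cls e) * x (cls e)) ^ k e := by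
        refine sum_le_sum fun N hN => ?_
        rw [mul_sum, mul_sum]
        refine sum_le_sum fun k hk => ?_
        have e1 := (mem_piAntidiag.1 hk).1
        have a1 := Z3_key cls hτ hy B η hR k (e1.trans_le (Nat.lt_succ_iff.1 (mem_range.1 hN)))
        rw [e1, cN_zero] at a1
        refine (mul_le_mul_of_nonneg_right a1
          (prod_nonneg fun e _ => pow_nonneg (hx _) _)).trans (le_of_eq ?_)
        rw [mul_assoc, ← prod_mul_distrib]
        simp only [mul_pow]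
    _ ≤ (Gs m τ y * ∏ χ, B χ) * ∏ e, (1 - η (cls e) * x (cls e))⁻¹ := by
        rw [← mul_sum]
        exact mul_le_mul_of_nonneg_left (Z3_geom m (fun e => η (cls e) * x (cls e))
          (fun e => mul_nonneg (h0 _) (hx _)) fun e => h1 _) hC
    _ ≤ Gs m τ y * ∏ χ, Ψ χ := by
        rw [prod_eq_prod_cnt cls fun χ => (1 - η χ * x χ)⁻¹, mul_assoc, ← prod_mul_distrib]
        refine mul_le_mul_of_nonneg_left (prod_le_prod (fun χ _ => ?_) fun χ _ => hΨ χ) hG
        exact mul_nonneg (hB χ) (pow_nonneg (inv_nonneg.2 (sub_nonneg.2 (h1 χ).le)) _)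

end Pool.Agent.Work.MP_66fdf3_co.Full
end

-- merged part: Pool.Agent.Work.MP_66fdf3_co.Full.Z4
section
/-!
Bound for `Zf`.  Put `x χ = max (t χ - τ) 0`; by `Zf_mono` replace `t χ` by `τ + x χ` off `x0`.
`∑ χ, t' χ • F χ = τ • 1 + y • E0 + ∑ χ ≠ x0, x χ • F χ` (`sum_F`, `F_x0`).  Factor `F χ = B χ * (B χ)ᴴ`
(`proj_factor`, `r χ = mu χ * d χ` by `trace_F`).  Modes: `E = Σ χ : {χ // χ ≠ x0}, Fin (r χ)`,
`v none = fun _ => 1 / √m`, `v (some ⟨χ, s⟩) = fun α => B χ α s`.  They are orthonormal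
(`(B χ)ᴴ * B χ' = (B χ)ᴴ F χ F χ' B χ' = 0`, and `E0 * B χ = 0`), which gives `hv` of `per_le_cN` with
equality.  Finish with `cN_sum_le` for `cls = Sigma.fst` (`cnt cls χ = r χ`).
-/

namespace Pool.Agent.Work.MP_66fdf3_co.Full

open Finset Matrix

theorem Z4_contr {Ω O : Type} [Fintype Ω] [DecidableEq Ω] [Fintype O] (V : Matrix Ω O ℂ)
    (h : V * Vᴴ = 1) (c : O → ℂ) : nsq (V *ᵥ c) ≤ nsq c := by
  have h1 := nsq_proj_le (Vᴴ * V) (by simp)
    (by rw [Matrix.mul_assoc, ← Matrix.mul_assoc V, h, Matrix.one_mul]) c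
  have h2 : (nsq ((Vᴴ * V) *ᵥ c) : ℂ) = nsq (V *ᵥ c) := by
    rw [← ip_self, ← ip_self]
    change star ((Vᴴ * V) *ᵥ c) ⬝ᵥ (Vᴴ * V) *ᵥ c = star (V *ᵥ c) ⬝ᵥ V *ᵥ c
    rw [← mulVec_mulVec, star_mulVec Vᴴ, conjTranspose_conjTranspose, ← dotProduct_mulVec,
      mulVec_mulVec, h, one_mulVec]
  rwa [Complex.ofReal_injective h2] at h1

theorem Z4_cnt {X : Type} [Fintype X] [DecidableEq X] (r : X → ℕ) (χ : X) :
    cnt (Sigma.fst : (Σ χ : X, Fin (r χ)) → X) χ = r χ := by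
  unfold cnt
  rw [card_filter, Fintype.sum_sigma, sum_eq_single χ]
  · simp
  · intro b _ hb
    simp [hb]
  · simp

namespace Spec

variable {Ω A X : Type} [Fintype Ω] [DecidableEq Ω] [Fintype A] [DecidableEq A] [Fintype X]
  [DecidableEq X] (S : Spec Ω A X)

theorem Zf_le [Nonempty Ω] {τ y : ℝ} (hτ : 0 < τ) (hy : 0 < y) (t : X → ℝ) (ht : ∀ χ, 0 ≤ t χ)
    (h0 : t S.x0 = τ + y) (Ψ : {χ // χ ≠ S.x0} → ℝ)
    (hΨ : ∀ χ : {χ // χ ≠ S.x0},
      PsiOK (Fintype.card Ω) τ y (S.mu χ * S.d χ) (max (t χ - τ) 0) (Ψ χ)) :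
    S.Zf t ≤ ((Fintype.card Ω).factorial : ℝ) ^ 2 / (Fintype.card Ω : ℝ) ^ Fintype.card Ω *
      (Gs (Fintype.card Ω) τ y * ∏ χ, Ψ χ) := by
  classical
  choose r B hB _ hr using fun χ : {χ // χ ≠ S.x0} =>
    proj_factor (S.F χ) (S.F_star χ) (S.F_mul_self χ)
  have hr' : ∀ χ, r χ = S.mu χ * S.d χ := fun χ =>
    Nat.cast_injective (R := ℂ) ((hr χ).symm.trans (S.trace_F χ))
  have hm : (0 : ℝ) < Fintype.card Ω := by exact_mod_cast Fintype.card_pos
  obtain ⟨v, v0, v1⟩ : ∃ v : Option (Σ χ : {χ // χ ≠ S.x0}, Fin (r χ)) → Ω → ℂ,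
      (∀ a b, v none a * (starRingEnd ℂ) (v none b) = E0 Ω a b) ∧
        ∀ e a, v (some e) a = B e.1 a e.2 := by
    refine ⟨fun o a => o.elim (((√(Fintype.card Ω : ℝ))⁻¹ : ℝ) : ℂ) fun e => B e.1 a e.2,
      fun a b => ?_, fun _ _ => rfl⟩
    simp only [Option.elim_none, Complex.conj_ofReal, E0, of_apply]
    rw [← Complex.ofReal_mul, ← mul_inv, Real.mul_self_sqrt hm.le]
    simp
  have hsum : ∀ (g : {χ // χ ≠ S.x0} → ℂ) (a b : Ω),
      ∑ e : (Σ χ : {χ // χ ≠ S.x0}, Fin (r χ)),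
        g e.1 * (v (some e) a * (starRingEnd ℂ) (v (some e) b)) = ∑ χ, g χ * S.F χ a b := by
    intro g a b
    rw [Fintype.sum_sigma]
    refine sum_congr rfl fun χ _ => ?_
    rw [← hB χ, mul_apply, mul_sum]
    simp only [v1, conjTranspose_apply, RCLike.star_def]
  have hone : ∀ a b, (1 : Matrix Ω Ω ℂ) a b =
      E0 Ω a b + ∑ χ : {χ // χ ≠ S.x0}, S.F χ a b := by
    intro a b
    rw [← S.sum_F, Matrix.sum_apply, Fintype.sum_eq_add_sum_subtype_ne _ S.x0, S.F_x0]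
  have hv : ∀ c : Option (Σ χ : {χ // χ ≠ S.x0}, Fin (r χ)) → ℂ,
      ∑ α, ‖∑ o, c o * v o α‖ ^ 2 ≤ ∑ o, ‖c o‖ ^ 2 := by
    intro c
    have := Z4_contr (Matrix.of fun α o => v o α) (by
      ext a b
      have := hsum (fun _ => 1) a b
      simp only [one_mul] at this
      rw [hone, ← this, mul_apply, Fintype.sum_option, ← v0]
      simp only [conjTranspose_apply, of_apply, RCLike.star_def]) c
    simpa only [nsq, mulVec, dotProduct, of_apply, mul_comm] using this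
  have hx : ∀ χ : {χ // χ ≠ S.x0}, 0 ≤ max (t χ - τ) 0 := fun χ => le_max_right _ _
  have h1 := per_le_cN v hv hτ.le hy.le (fun e => max (t e.1 - τ) 0) fun e => hx e.1
  have h2 := cN_sum_le (Sigma.fst : (Σ χ : {χ // χ ≠ S.x0}, Fin (r χ)) → {χ // χ ≠ S.x0}) hτ hy
    (fun χ => max (t χ - τ) 0) Ψ hx fun χ => by
      rw [Z4_cnt, hr']
      exact hΨ χ
  have h3 : S.Zf t ≤ S.Zf fun χ => τ + max (t χ - τ) 0 := S.Zf_mono ht fun χ => by
    have := le_max_left (t χ - τ) 0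
    linarith only [this]
  have e : ∑ χ, ((τ + max (t χ - τ) 0 : ℝ) : ℂ) • S.F χ =
      (τ : ℂ) • (1 : Matrix Ω Ω ℂ) + Matrix.of fun a b : Ω =>
        (y : ℂ) * (v none a * (starRingEnd ℂ) (v none b)) +
          ∑ e : (Σ χ : {χ // χ ≠ S.x0}, Fin (r χ)), ((max (t e.1 - τ) 0 : ℝ) : ℂ) *
            (v (some e) a * (starRingEnd ℂ) (v (some e) b)) := by
    ext a b
    rw [Matrix.add_apply, of_apply, hsum (fun χ => ((max (t χ - τ) 0 : ℝ) : ℂ)), v0,
      Matrix.smul_apply, hone, Matrix.sum_apply, Fintype.sum_eq_add_sum_subtype_ne _ S.x0, S.F_x0,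
      h0, add_sub_cancel_left, max_eq_left hy.le]
    simp only [Matrix.smul_apply, smul_eq_mul, Complex.ofReal_add, add_mul, sum_add_distrib,
      mul_add, mul_sum]
    ring
  rw [S.Zf_eq (fun χ => τ + max (t χ - τ) 0), e] at h3
  refine h3.trans ((mul_le_mul_of_nonneg_left (h1.trans
    (mul_le_mul_of_nonneg_left h2 (by positivity))) (Nat.cast_nonneg _)).trans (le_of_eq ?_))
  ring

end Spec

end Pool.Agent.Work.MP_66fdf3_co.Full
end

-- merged part: Pool.Agent.Work.MP_66fdf3_co.Full.SP1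
section
/-!
Combinatorial recursions for `Dop`, `Gop`.
`sum_inj_insert`: bijection `f ↦ (f i0, Function.update f i0 ω)`, inverse `(b, f) ↦ Function.update f i0 b`
(`Finset.sum_bij'` after `Finset.sum_sigma'`).
`Dop_insert`: `sum_inj_insert` and `tens` congruence.
`Gop_rec`: split the sum over all `(b, f)` into `b ∉ f(S)` and `b = f i` for a unique `i ∈ S`
(injectivity on `S`); for fixed `i` write `S = insert i (S.erase i)` and use `sum_inj_insert`:
`∑ f ∈ Inj S, φ (f i) f = ∑ b, ∑ f ∈ (Inj (S.erase i)).filter .., φ b (update f i b)`.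
-/

namespace Pool.Agent.Work.MP_66fdf3_co.Full

open Finset Matrix

variable {Ω : Type} [Fintype Ω] [DecidableEq Ω]

theorem SP1_mem {ω : Ω} {S : Finset Ω} {f : Ω → Ω} : f ∈ Inj ω S ↔
    (∀ i, i ∉ S → f i = ω) ∧ ∀ i ∈ S, ∀ j ∈ S, f i = f j → i = j := by
  simp only [Inj, mem_filter, mem_univ, true_and]

theorem Inj_empty (ω : Ω) : Inj ω ∅ = {fun _ => ω} := by
  ext f
  simp [SP1_mem, funext_iff]

theorem sum_inj_insert {R : Type} [AddCommMonoid R] (ω : Ω) {S : Finset Ω} {i0 : Ω} (h : i0 ∉ S)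
    (φ : (Ω → Ω) → R) :
    ∑ f ∈ Inj ω (insert i0 S), φ f =
      ∑ b, ∑ f ∈ (Inj ω S).filter (fun f => ∀ i ∈ S, f i ≠ b), φ (Function.update f i0 b) := by
  rw [← sum_fiberwise (Inj ω (insert i0 S)) fun f => f i0]
  refine sum_congr rfl fun b _ => ?_
  have hu : ∀ (f : Ω → Ω) (c : Ω), ∀ i ∈ S, Function.update f i0 c i = f i := fun f c i hi =>
    Function.update_of_ne (ne_of_mem_of_not_mem hi h) _ _
  refine sum_nbij' (fun f => Function.update f i0 ω) (fun f => Function.update f i0 b)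
    (fun f hf => ?_) (fun f hf => ?_) (fun f hf => ?_) (fun f hf => ?_) fun f hf => ?_
  · obtain ⟨h1, h2⟩ := mem_filter.1 hf
    obtain ⟨h3, h4⟩ := SP1_mem.1 h1
    refine mem_filter.2 ⟨SP1_mem.2 ⟨fun i hi => ?_, fun i hi j hj e => ?_⟩, fun i hi e => ?_⟩
    · by_cases a : i = i0
      · rw [a, Function.update_self]
      · rw [Function.update_of_ne a]
        exact h3 i (by simp [a, hi])
    · rw [hu _ _ i hi, hu _ _ j hj] at e
      exact h4 i (mem_insert_of_mem hi) j (mem_insert_of_mem hj) e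
    · rw [hu _ _ i hi, ← h2] at e
      exact h (h4 i (mem_insert_of_mem hi) i0 (mem_insert_self _ _) e ▸ hi)
  · obtain ⟨h1, h2⟩ := mem_filter.1 hf
    obtain ⟨h3, h4⟩ := SP1_mem.1 h1
    refine mem_filter.2 ⟨SP1_mem.2 ⟨fun i hi => ?_, fun i hi j hj e => ?_⟩,
      Function.update_self _ _ _⟩
    · rw [mem_insert, not_or] at hi
      rw [Function.update_of_ne hi.1]
      exact h3 i hi.2
    · rcases mem_insert.1 hi with a | a <;> rcases mem_insert.1 hj with a' | a'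
      · rw [a, a']
      · rw [hu _ _ j a', a, Function.update_self] at e
        exact absurd e.symm (h2 j a')
      · rw [hu _ _ i a, a', Function.update_self] at e
        exact absurd e (h2 i a)
      · rw [hu _ _ i a, hu _ _ j a'] at e
        exact h4 i a j a' e
  · rw [Function.update_idem, ← (mem_filter.1 hf).2, Function.update_eq_self]
  · rw [Function.update_idem, ← (SP1_mem.1 (mem_filter.1 hf).1).1 i0 h, Function.update_eq_self]
  · rw [Function.update_idem, ← (mem_filter.1 hf).2, Function.update_eq_self]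

theorem Dop_empty (H : Ω → Matrix Ω Ω ℂ) (ω : Ω) : Dop H ω ∅ = 1 := by
  rw [Dop, Inj_empty, sum_singleton, ← tens_one]
  simp

theorem Dop_insert (H : Ω → Matrix Ω Ω ℂ) (ω : Ω) {S : Finset Ω} {i0 : Ω} (h : i0 ∉ S) :
    Dop H ω (insert i0 S) = Gop H ω {i0} S := by
  rw [Dop, sum_inj_insert ω h, Gop]
  refine sum_congr rfl fun b _ => sum_congr rfl fun f _ => congrArg tens (funext fun i => ?_)
  by_cases a : i = i0
  · simp [a]
  · simp [a]

theorem Gop_rec (H : Ω → Matrix Ω Ω ℂ) (ω : Ω) {A S : Finset Ω} (h : Disjoint A S) :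
    Gop H ω A S = (∑ b, tens (fun i => if i ∈ A then H b else 1) * Dop H ω S) -
      ∑ i ∈ S, Gop H ω (insert i A) (S.erase i) := by
  obtain ⟨T, hT⟩ : ∃ T : Ω → (Ω → Ω) → Matrix (Ω → Ω) (Ω → Ω) ℂ, ∀ b f,
    T b f = tens fun i => if i ∈ A then H b else if i ∈ S then H (f i) else 1 :=
    ⟨_, fun _ _ => rfl⟩
  have a1 : ∀ b, tens (fun i => if i ∈ A then H b else 1) * Dop H ω S = ∑ f ∈ Inj ω S, T b f := by
    intro b
    rw [Dop, Matrix.mul_sum]
    refine sum_congr rfl fun f _ => ?_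
    rw [tens_mul, hT]
    refine congrArg tens (funext fun i => ?_)
    by_cases a : i ∈ A
    · simp [a, disjoint_left.1 h a]
    · simp [a]
  have a2 : ∀ i ∈ S, Gop H ω (insert i A) (S.erase i) = ∑ f ∈ Inj ω S, T (f i) f := by
    intro i hi
    conv_rhs => rw [← insert_erase hi, sum_inj_insert ω (notMem_erase i S)]
    refine sum_congr rfl fun b _ => sum_congr rfl fun f _ => ?_
    rw [hT, Function.update_self]
    refine congrArg tens (funext fun j => ?_)
    by_cases a : j = i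
    · simp [a, hi]
    · simp [a]
  rw [sum_congr rfl a2, eq_sub_iff_add_eq, sum_congr rfl fun b _ => a1 b, Gop]
  simp only [← hT, sum_filter]
  rw [sum_comm, sum_comm (s := S), sum_comm (t := Inj ω S), ← sum_add_distrib]
  refine sum_congr rfl fun f hf => ?_
  rw [← sum_image (s := S) (g := f) (f := fun b => T b f) (SP1_mem.1 hf).2, ← sum_filter,
    ← sum_compl_add_sum (S.image f)]
  congr 2
  ext b
  simp

theorem tens_split (K : Matrix Ω Ω ℂ) (H : Ω → Matrix Ω Ω ℂ) (ω : Ω) {A S : Finset Ω}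
    (h : Disjoint A S) {i i' : Ω} (hi : i ∈ A) (hi' : i' ∈ A) (hne : i ≠ i') :
    tens (fun j => if j ∈ A then K else 1) * Dop H ω S =
      lift i K * (tens (fun j => if j ∈ (A.erase i).erase i' then K else 1) *
        (Dop H ω S * lift i' K)) := by
  simp only [Dop, lift, Matrix.mul_sum, Matrix.sum_mul, tens_mul]
  refine sum_congr rfl fun f _ => congrArg tens (funext fun j => ?_)
  by_cases a : j = i
  · simp [a, hi, hne, disjoint_left.1 h hi]
  · by_cases b : j = i'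
    · simp [b, hi', hne.symm, disjoint_left.1 h hi']
    · simp [a, b]

theorem tens_single (K : Matrix Ω Ω ℂ) (i : Ω) :
    tens (fun j => if j ∈ ({i} : Finset Ω) then K else 1) = lift i K := by
  simp only [lift, mem_singleton]

end Pool.Agent.Work.MP_66fdf3_co.Full
end

-- merged part: Pool.Agent.Work.MP_66fdf3_co.Full.SP3
section
/-!
Norm recursion.  Put `gS a s = a * dS a s + dS a (s+1)`, so `gS a (s+1) = a * dS a (s+1) + (s+1) * gS a s`
and `dS a (s+2) = (s+1) * gS a s`.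
`block_bound`: `tens_split`, `ip_mulVec`, `ip_cs'`, the contraction and the bound for `Dop`, then
Cauchy-Schwarz in `b` (`Finset.sum_mul_sq_le_sq_mul_sq` or `Real.sum_sqrt_mul_sqrt_le`).
`Gop_bound`: induction on `S.card` generalising `A, S` with `Gop_rec`.
`Dop_ip`: `S = insert i0 S'`, `Dop_insert`, `Gop_rec` (the first sum vanishes by `tens_single`,
`lift_sum`, `h0`), then `Gop_bound` with `A = {i, i0}`.
`Dop_nsq`: strong induction on the cardinality, `Dop_ip` with `θ = 1` and `nsq_le_of_ip`.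
-/

namespace Pool.Agent.Work.MP_66fdf3_co.Full

open Finset Matrix

variable {Ω : Type} [Fintype Ω] [DecidableEq Ω]

theorem block_bound (H : Ω → Matrix Ω Ω ℂ) (ω : Ω)
    (hc : ∀ (b : Ω) (A : Finset Ω) (v : (Ω → Ω) → ℂ),
      nsq (tens (fun i => if i ∈ A then H b else 1) *ᵥ v) ≤ nsq v)
    {A S : Finset Ω} (h : Disjoint A S) (hA : 2 ≤ A.card) {δ a1 : ℝ} (hδ : 0 ≤ δ) (ha1 : 0 ≤ a1)
    (hD : ∀ w, nsq (Dop H ω S *ᵥ w) ≤ δ ^ 2 * nsq w) (v w : (Ω → Ω) → ℂ)
    (hv : ∀ i ∈ A, ∑ b, nsq ((lift i (H b))ᴴ *ᵥ v) ≤ a1 * nsq v)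
    (hw : ∀ i ∈ A, ∑ b, nsq (lift i (H b) *ᵥ w) ≤ a1 * nsq w) :
    ‖ip v ((∑ b, tens (fun i => if i ∈ A then H b else 1) * Dop H ω S) *ᵥ w)‖ ≤
      δ * a1 * (√(nsq v) * √(nsq w)) := by
  obtain ⟨i, hi, i', hi', hne⟩ := Finset.one_lt_card.1 hA
  rw [ip_sum_mulVec]
  refine (norm_sum_le _ _).trans ?_
  have h1 : ∀ b, ‖ip v ((tens (fun i => if i ∈ A then H b else 1) * Dop H ω S) *ᵥ w)‖ ≤
      δ * (√(nsq ((lift i (H b))ᴴ *ᵥ v)) * √(nsq (lift i' (H b) *ᵥ w))) := by
    intro b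
    rw [tens_split (H b) H ω h hi hi' hne, ← Matrix.mulVec_mulVec, ip_mulVec,
      ← Matrix.mulVec_mulVec, ← Matrix.mulVec_mulVec, mul_left_comm]
    refine (ip_cs' _ _).trans (mul_le_mul_of_nonneg_left ?_ (Real.sqrt_nonneg _))
    refine (Real.sqrt_le_sqrt ((hc b _ _).trans (hD _))).trans_eq ?_
    rw [Real.sqrt_mul (sq_nonneg δ), Real.sqrt_sq hδ]
  refine (Finset.sum_le_sum fun b _ => h1 b).trans ?_
  rw [← Finset.mul_sum, mul_assoc]
  refine mul_le_mul_of_nonneg_left ?_ hδ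
  refine (Real.sum_sqrt_mul_sqrt_le _ (fun _ => nsq_nonneg _) fun _ => nsq_nonneg _).trans ?_
  refine (mul_le_mul (Real.sqrt_le_sqrt (hv i hi)) (Real.sqrt_le_sqrt (hw i' hi'))
    (Real.sqrt_nonneg _) (Real.sqrt_nonneg _)).trans_eq ?_
  rw [Real.sqrt_mul ha1, Real.sqrt_mul ha1, mul_mul_mul_comm, Real.mul_self_sqrt ha1]

theorem Gop_bound (H : Ω → Matrix Ω Ω ℂ) (ω : Ω)
    (hc : ∀ (b : Ω) (A : Finset Ω) (v : (Ω → Ω) → ℂ),
      nsq (tens (fun i => if i ∈ A then H b else 1) *ᵥ v) ≤ nsq v)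
    {a θ : ℝ} (ha : 0 ≤ a) (hθ : 0 ≤ θ) {A S : Finset Ω} (h : Disjoint A S) (hA : 2 ≤ A.card)
    (hD : ∀ S' ⊆ S, ∀ w, nsq (Dop H ω S' *ᵥ w) ≤ dS a S'.card ^ 2 * nsq w) (v w : (Ω → Ω) → ℂ)
    (hv : ∀ i ∈ A ∪ S, ∑ b, nsq ((lift i (H b))ᴴ *ᵥ v) ≤ θ * a * nsq v)
    (hw : ∀ i ∈ A ∪ S, ∑ b, nsq (lift i (H b) *ᵥ w) ≤ θ * a * nsq w) :
    ‖ip v (Gop H ω A S *ᵥ w)‖ ≤
      θ * (a * dS a S.card + dS a (S.card + 1)) * (√(nsq v) * √(nsq w)) := by
  induction hn : S.card generalizing A S with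
  | zero =>
    obtain rfl := Finset.card_eq_zero.1 hn
    rw [Gop_rec H ω h, Finset.sum_empty, sub_zero]
    refine (block_bound H ω hc h hA (dS_nonneg ha _) (mul_nonneg hθ ha) (hD ∅ subset_rfl) v w
      (fun i hi => hv i (mem_union_left _ hi)) fun i hi => hw i (mem_union_left _ hi)).trans_eq ?_
    simp [dS]
  | succ s ih =>
    rw [Gop_rec H ω h, ip_sub_mulVec]
    have h1 := block_bound H ω hc h hA (dS_nonneg ha _) (mul_nonneg hθ ha) (hD S subset_rfl) v w
      (fun i hi => hv i (mem_union_left _ hi)) fun i hi => hw i (mem_union_left _ hi)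
    have h2 : ‖ip v ((∑ i ∈ S, Gop H ω (insert i A) (S.erase i)) *ᵥ w)‖ ≤
        ∑ _i ∈ S, θ * (a * dS a s + dS a (s + 1)) * (√(nsq v) * √(nsq w)) := by
      rw [ip_sum_mulVec]
      refine (norm_sum_le _ _).trans (Finset.sum_le_sum fun i hi => ?_)
      have hs : insert i A ∪ S.erase i ⊆ A ∪ S := by
        intro j hj
        simp only [mem_union, mem_insert, mem_erase] at hj ⊢
        rcases hj with (rfl | hj) | hj
        exacts [Or.inr hi, Or.inl hj, Or.inr hj.2]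
      refine ih ?_ (hA.trans (card_le_card (subset_insert _ _)))
        (fun S' hS' => hD S' (hS'.trans (erase_subset _ _))) (fun j hj => hv j (hs hj))
        (fun j hj => hw j (hs hj)) (by rw [card_erase_of_mem hi, hn]; rfl)
      rw [disjoint_insert_left]
      exact ⟨notMem_erase _ _, h.mono_right (erase_subset _ _)⟩
    refine (norm_sub_le _ _).trans ((add_le_add h1 h2).trans_eq ?_)
    rw [Finset.sum_const, hn, nsmul_eq_mul, dS]
    push_cast
    ring

theorem Dop_ip (H : Ω → Matrix Ω Ω ℂ) (ω : Ω) (h0 : ∑ b, H b = 0)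
    (hc : ∀ (b : Ω) (A : Finset Ω) (v : (Ω → Ω) → ℂ),
      nsq (tens (fun i => if i ∈ A then H b else 1) *ᵥ v) ≤ nsq v)
    {a θ : ℝ} (ha : 0 ≤ a) (hθ : 0 ≤ θ) {S : Finset Ω} (hS : S.Nonempty)
    (hD : ∀ S' ⊆ S, S'.card < S.card → ∀ w, nsq (Dop H ω S' *ᵥ w) ≤ dS a S'.card ^ 2 * nsq w)
    (v w : (Ω → Ω) → ℂ)
    (hv : ∀ i ∈ S, ∑ b, nsq ((lift i (H b))ᴴ *ᵥ v) ≤ θ * a * nsq v)
    (hw : ∀ i ∈ S, ∑ b, nsq (lift i (H b) *ᵥ w) ≤ θ * a * nsq w) :
    ‖ip v (Dop H ω S *ᵥ w)‖ ≤ θ * dS a S.card * (√(nsq v) * √(nsq w)) := by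
  obtain ⟨i0, hi0⟩ := hS
  obtain ⟨S', h1, rfl⟩ : ∃ S', i0 ∉ S' ∧ S = insert i0 S' :=
    ⟨S.erase i0, notMem_erase _ _, (insert_erase hi0).symm⟩
  have hz : ∑ b, tens (fun i => if i ∈ ({i0} : Finset Ω) then H b else 1) * Dop H ω S' = 0 := by
    simp only [tens_single]
    rw [← Finset.sum_mul, ← lift_sum, h0, ← zero_smul ℂ (0 : Matrix Ω Ω ℂ), lift_smul, zero_smul,
      zero_mul]
  rw [card_insert_of_notMem h1] at hD ⊢
  rw [Dop_insert H ω h1, Gop_rec H ω (disjoint_singleton_left.2 h1), ip_sub_mulVec, hz]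
  have h2 : ip v ((0 : Matrix (Ω → Ω) (Ω → Ω) ℂ) *ᵥ w) = 0 := by simp [ip]
  rw [h2, zero_sub, norm_neg, ip_sum_mulVec]
  refine (norm_sum_le _ _).trans ?_
  have h3 : ∀ i ∈ S', ‖ip v (Gop H ω (insert i {i0}) (S'.erase i) *ᵥ w)‖ ≤
      θ * (a * dS a (S'.card - 1) + dS a (S'.card - 1 + 1)) * (√(nsq v) * √(nsq w)) := by
    intro i hi
    have hne : i ≠ i0 := fun e => h1 (e ▸ hi)
    have hs : insert i {i0} ∪ S'.erase i ⊆ insert i0 S' := by
      intro j hj
      simp only [mem_union, mem_insert, mem_erase, mem_singleton] at hj ⊢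
      rcases hj with (rfl | hj) | hj
      exacts [Or.inr hi, Or.inl hj, Or.inr hj.2]
    rw [← card_erase_of_mem hi]
    refine Gop_bound H ω hc ha hθ ?_ (card_pair hne).ge (fun T hT => hD T ?_ ?_) v w
      (fun j hj => hv j (hs hj)) fun j hj => hw j (hs hj)
    · rw [disjoint_insert_left, disjoint_singleton_left]
      exact ⟨notMem_erase _ _, fun h => h1 (mem_of_mem_erase h)⟩
    · exact hT.trans ((erase_subset _ _).trans (subset_insert _ _))
    · exact Nat.lt_succ_of_le (card_le_card (hT.trans (erase_subset _ _)))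
  refine (Finset.sum_le_sum h3).trans_eq ?_
  rw [Finset.sum_const, nsmul_eq_mul]
  rcases S'.card with _ | s
  · simp [dS]
  · rw [Nat.add_sub_cancel, dS]
    push_cast
    ring

theorem Dop_nsq (H : Ω → Matrix Ω Ω ℂ) (ω : Ω) (h0 : ∑ b, H b = 0)
    (hc : ∀ (b : Ω) (A : Finset Ω) (v : (Ω → Ω) → ℂ),
      nsq (tens (fun i => if i ∈ A then H b else 1) *ᵥ v) ≤ nsq v)
    {a : ℝ} (ha : 0 ≤ a)
    (hv : ∀ i v, ∑ b, nsq ((lift i (H b))ᴴ *ᵥ v) ≤ a * nsq v)
    (hw : ∀ i w, ∑ b, nsq (lift i (H b) *ᵥ w) ≤ a * nsq w) (S : Finset Ω) (w : (Ω → Ω) → ℂ) :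
    nsq (Dop H ω S *ᵥ w) ≤ dS a S.card ^ 2 * nsq w := by
  induction hn : S.card using Nat.strong_induction_on generalizing S w with
  | _ n ih =>
    subst hn
    rcases S.eq_empty_or_nonempty with rfl | hS
    · simp [Dop_empty, dS]
    · refine nsq_le_of_ip _ w (dS_nonneg ha _) fun v => ?_
      have := Dop_ip H ω h0 hc ha zero_le_one hS (fun S' _ h w => ih _ h S' w rfl) v w
        (fun i _ => by rw [one_mul]; exact hv i v) fun i _ => by rw [one_mul]; exact hw i w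
      rwa [one_mul] at this

end Pool.Agent.Work.MP_66fdf3_co.Full
end

-- merged part: Pool.Agent.Work.MP_66fdf3_co.Full.SP4
section
/-!
The norm of `vS`.
`Nf_succ`: Pascal (`Finset.sum_choose_succ_mul` or `sum_range_succ'`), and
`(M-k).descFactorial (j+1-k) = (M-j) * (M-k).descFactorial (j-k)`.
`Nf_shift`: `(n+1).descFactorial r = n.descFactorial r + r * n.descFactorial (r-1)` and
`choose (j+1) k * (j+1-k) = (j+1) * choose j k`.
`Nf_eq`: two-step induction from the two identities (see section 5 of the write-up).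
`nsq_vS`: `br_proj`; `br = ∑ σ π, ∏ i ∈ S, (δ - 1/m) * (1/m) ^ (m - j)`; expand with `Finset.prod_add` (or
`prod_sub`) over `T ⊆ S`, the number of pairs agreeing on `T` is `m! * (m - |T|)!` (`card_perm_ext`),
group by `|T| = k` (`Finset.sum_powerset_apply_card`), `(m-k)! = (m-j)! * (m-k).descFactorial (j-k)`,
`(m-j)! * m.descFactorial j = m!`.
-/

namespace Pool.Agent.Work.MP_66fdf3_co.Full

open Finset Matrix

noncomputable def Nf (x : ℝ) (j M : ℕ) : ℝ :=
  ∑ k ∈ range (j + 1), (j.choose k : ℝ) * (-1) ^ (j - k) * x ^ k *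
    ((M - k).descFactorial (j - k) : ℝ)

theorem Nf_succ (x : ℝ) {j M : ℕ} (h : j ≤ M) :
    Nf x (j + 1) (M + 1) = x * Nf x j M - ((M : ℝ) + 1 - j) * Nf x j (M + 1) := by
  have key := Finset.sum_choose_succ_mul (R := ℝ)
    (fun i r => (-1 : ℝ) ^ r * x ^ i * ((M + 1 - i).descFactorial r : ℝ)) j
  have e1 : Nf x (j + 1) (M + 1) = ∑ i ∈ range (j + 2), ((j + 1).choose i : ℝ) *
      ((-1 : ℝ) ^ (j + 1 - i) * x ^ i * ((M + 1 - i).descFactorial (j + 1 - i) : ℝ)) := by
    unfold Nf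
    refine Finset.sum_congr rfl fun i _ => ?_
    ring
  rw [e1, key, add_comm, sub_eq_add_neg]
  unfold Nf
  congr 1
  · rw [Finset.mul_sum]
    refine Finset.sum_congr rfl fun i _ => ?_
    rw [show M + 1 - (i + 1) = M - i by omega]
    ring
  · rw [Finset.mul_sum, ← Finset.sum_neg_distrib]
    refine Finset.sum_congr rfl fun i hi => ?_
    have hi' : i ≤ j := Nat.lt_succ_iff.mp (Finset.mem_range.mp hi)
    rw [show j + 1 - i = (j - i) + 1 by omega, Nat.descFactorial_succ,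
      show M + 1 - i - (j - i) = M + 1 - j by omega, Nat.cast_mul,
      Nat.cast_sub (by omega : j ≤ M + 1)]
    push_cast
    ring

theorem Nf_shift (x : ℝ) {j M : ℕ} (h : j ≤ M) :
    Nf x (j + 1) (M + 1) = Nf x (j + 1) (M + 2) + ((j : ℝ) + 1) * Nf x j (M + 1) := by
  unfold Nf
  rw [Finset.sum_range_succ _ (j + 1), Finset.sum_range_succ _ (j + 1), Finset.mul_sum,
    add_right_comm, ← Finset.sum_add_distrib]
  congr 1
  · refine Finset.sum_congr rfl fun i hi => ?_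
    have hi' : i ≤ j := Nat.lt_succ_iff.mp (Finset.mem_range.mp hi)
    have h1 : ((j + 1).choose i : ℝ) * ((j : ℝ) + 1 - i) = ((j : ℝ) + 1) * (j.choose i : ℝ) := by
      have h2 := Nat.choose_mul_succ_eq j i
      have h3 : ((j.choose i * (j + 1) : ℕ) : ℝ) = (((j + 1).choose i * (j + 1 - i) : ℕ) : ℝ) := by
        rw [h2]
      rw [Nat.cast_mul, Nat.cast_mul, Nat.cast_sub (by omega : i ≤ j + 1)] at h3
      push_cast at h3
      linarith only [h3]
    rw [show j + 1 - i = (j - i) + 1 by omega, show M + 2 - i = (M + 1 - i) + 1 by omega,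
      Nat.succ_descFactorial_succ, Nat.descFactorial_succ,
      show M + 1 - i - (j - i) = M + 1 - j by omega, Nat.cast_mul, Nat.cast_mul,
      Nat.cast_sub (by omega : j ≤ M + 1), Nat.cast_add, Nat.cast_add,
      Nat.cast_sub (by omega : i ≤ M + 1)]
    push_cast
    linear_combination ((-1 : ℝ) ^ (j - i) * x ^ i *
      ((M + 1 - i).descFactorial (j - i) : ℝ)) * h1
  · simp

theorem Nf_eq {m j : ℕ} (h : j ≤ m) : Nf (m : ℝ) j m = (m.descFactorial j : ℝ) * nuS m j := by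
  induction j using Nat.twoStepInduction with
  | zero => simp [Nf, nuS]
  | one => simp [Nf, nuS, Finset.sum_range_succ]
  | more j ih1 ih2 =>
    obtain ⟨M, rfl⟩ : ∃ M, m = M + 2 := ⟨m - 2, by omega⟩
    have a1 := Nf_succ ((M + 2 : ℕ) : ℝ) (j := j + 1) (M := M + 1) (by omega)
    have a2 := Nf_shift ((M + 2 : ℕ) : ℝ) (j := j) (M := M) (by omega)
    have a3 := Nf_succ ((M + 2 : ℕ) : ℝ) (j := j) (M := M + 1) (by omega)
    have b1 := ih1 (by omega)
    have b2 := ih2 (by omega)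
    have c1 : (((M + 2).descFactorial (j + 1) : ℕ) : ℝ) =
        ((M : ℝ) + 2 - j) * ((M + 2).descFactorial j : ℝ) := by
      rw [Nat.descFactorial_succ, Nat.cast_mul, Nat.cast_sub (by omega : j ≤ M + 2)]
      push_cast
      ring
    have c2 : (((M + 2).descFactorial (j + 2) : ℕ) : ℝ) =
        ((M : ℝ) + 2 - (j + 1)) * ((M + 2).descFactorial (j + 1) : ℝ) := by
      rw [Nat.descFactorial_succ (M + 2) (j + 1), Nat.cast_mul,
        Nat.cast_sub (by omega : j + 1 ≤ M + 2)]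
      push_cast
      ring
    have hne : ((M : ℝ) + 2 - (j + 1)) ≠ 0 := by
      have : (j : ℝ) ≤ M := by exact_mod_cast (by omega : j ≤ M)
      linarith only [this]
    have hrec : Nf ((M + 2 : ℕ) : ℝ) (j + 2) (M + 2) = ((j : ℝ) + 1) *
        (2 * Nf ((M + 2 : ℕ) : ℝ) (j + 1) (M + 2) +
          ((M : ℝ) + 2 - j) * Nf ((M + 2 : ℕ) : ℝ) j (M + 2)) := by
      change Nf _ (j + 2) (M + 2) = _ * Nf _ (j + 1) (M + 1) - _ * Nf _ (j + 1) (M + 2) at a1
      change Nf _ (j + 1) (M + 2) = _ * Nf _ j (M + 1) - _ * Nf _ j (M + 2) at a3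
      rw [a1, a2]
      push_cast at a3 ⊢
      linear_combination (-((j : ℝ) + 1)) * a3
    rw [hrec, b1, b2, c2, c1, nuS]
    push_cast
    field_simp

theorem SP4_pairs {Ω : Type} [Fintype Ω] [DecidableEq Ω] (T : Finset Ω) :
    ∑ σ : Equiv.Perm Ω, ∑ π : Equiv.Perm Ω, ∏ i ∈ T, (if σ i = π i then (1 : ℝ) else 0) =
      ((Fintype.card Ω).factorial : ℝ) * ((Fintype.card Ω - T.card).factorial : ℝ) := by
  have h1 : ∀ σ : Equiv.Perm Ω, ∑ π : Equiv.Perm Ω, ∏ i ∈ T, (if σ i = π i then (1 : ℝ) else 0) =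
      ((Fintype.card Ω - T.card).factorial : ℝ) := by
    intro σ
    rw [← card_perm_ext T σ (fun i _ j _ hij => σ.injective hij), Finset.card_filter]
    push_cast
    refine Finset.sum_congr rfl fun π _ => ?_
    rw [Finset.prod_boole]
    by_cases h : ∀ i ∈ T, π i = σ i
    · rw [if_pos h, if_pos (fun i hi => (h i hi).symm)]
    · rw [if_neg h, if_neg (fun h' => h fun i hi => (h' i hi).symm)]
  rw [Finset.sum_congr rfl fun σ _ => h1 σ, Finset.sum_const, Finset.card_univ, Fintype.card_perm,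
    nsmul_eq_mul]

theorem SP4_real {Ω : Type} [Fintype Ω] [DecidableEq Ω] (S : Finset Ω) (c : ℝ) :
    ∑ σ : Equiv.Perm Ω, ∑ π : Equiv.Perm Ω,
      ∏ i, (if i ∈ S then (if σ i = π i then (1 : ℝ) else 0) - c else c) =
      ∑ k ∈ range (S.card + 1), (S.card.choose k : ℝ) * (c ^ (Fintype.card Ω - S.card) *
        (-c) ^ (S.card - k) * (((Fintype.card Ω).factorial : ℝ) *
          ((Fintype.card Ω - k).factorial : ℝ))) := by
  have h1 : ∀ σ π : Equiv.Perm Ω,
      ∏ i, (if i ∈ S then (if σ i = π i then (1 : ℝ) else 0) - c else c) =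
        ∑ T ∈ S.powerset, c ^ (Fintype.card Ω - S.card) * (-c) ^ (S.card - T.card) *
          ∏ i ∈ T, (if σ i = π i then (1 : ℝ) else 0) := by
    intro σ π
    rw [Finset.prod_ite, Finset.prod_const, Finset.filter_mem_eq_inter, Finset.univ_inter]
    have hc : (univ.filter fun i => i ∉ S).card = Fintype.card Ω - S.card := by
      rw [← Finset.card_compl]
      congr 1
      ext i
      simp
    rw [hc]
    simp only [sub_eq_add_neg]
    rw [Finset.prod_add, Finset.sum_mul]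
    refine Finset.sum_congr rfl fun T hT => ?_
    rw [Finset.prod_const, Finset.card_sdiff_of_subset (Finset.mem_powerset.mp hT)]
    ring
  simp only [h1]
  have h2 : ∀ σ : Equiv.Perm Ω, ∑ π : Equiv.Perm Ω, ∑ T ∈ S.powerset,
      c ^ (Fintype.card Ω - S.card) * (-c) ^ (S.card - T.card) *
        ∏ i ∈ T, (if σ i = π i then (1 : ℝ) else 0) =
      ∑ T ∈ S.powerset, ∑ π : Equiv.Perm Ω,
        c ^ (Fintype.card Ω - S.card) * (-c) ^ (S.card - T.card) *
          ∏ i ∈ T, (if σ i = π i then (1 : ℝ) else 0) := fun σ => Finset.sum_comm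
  simp only [h2]
  rw [Finset.sum_comm]
  have h3 : ∀ T ∈ S.powerset, ∑ σ : Equiv.Perm Ω, ∑ π : Equiv.Perm Ω,
      c ^ (Fintype.card Ω - S.card) * (-c) ^ (S.card - T.card) *
        ∏ i ∈ T, (if σ i = π i then (1 : ℝ) else 0) =
      (fun k => c ^ (Fintype.card Ω - S.card) * (-c) ^ (S.card - k) *
        (((Fintype.card Ω).factorial : ℝ) * ((Fintype.card Ω - k).factorial : ℝ))) T.card := by
    intro T _
    simp only [← Finset.mul_sum]
    rw [SP4_pairs]
  rw [Finset.sum_congr rfl h3]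
  refine (Finset.sum_powerset_apply_card (fun k => c ^ (Fintype.card Ω - S.card) *
    (-c) ^ (S.card - k) * (((Fintype.card Ω).factorial : ℝ) *
      ((Fintype.card Ω - k).factorial : ℝ)))).trans ?_
  refine Finset.sum_congr rfl fun k _ => ?_
  rw [nsmul_eq_mul]

theorem nsq_vS {Ω : Type} [Fintype Ω] [DecidableEq Ω] [Nonempty Ω] (S : Finset Ω) :
    nsq (vS S) = ((Fintype.card Ω).factorial : ℝ) ^ 2 / (Fintype.card Ω : ℝ) ^ Fintype.card Ω *
      nuS (Fintype.card Ω) S.card := by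
  have hm : 0 < Fintype.card Ω := Fintype.card_pos
  have hj : S.card ≤ Fintype.card Ω := Finset.card_le_univ S
  have hp := br_proj (fun i => if i ∈ S then 1 - E0 Ω else E0 Ω)
    (fun i => by
      split_ifs
      · rw [Matrix.conjTranspose_sub, Matrix.conjTranspose_one, E0_star]
      · exact E0_star)
    (fun i => by
      split_ifs
      · rw [sub_mul, mul_sub, mul_sub, E0_mul_self]
        simp
      · exact E0_mul_self)
  have hb : br (fun i => if i ∈ S then 1 - E0 Ω else E0 Ω) =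
      ((∑ σ : Equiv.Perm Ω, ∑ π : Equiv.Perm Ω, ∏ i, (if i ∈ S then
        (if σ i = π i then (1 : ℝ) else 0) - (Fintype.card Ω : ℝ)⁻¹
          else (Fintype.card Ω : ℝ)⁻¹) : ℝ) : ℂ) := by
    unfold br
    push_cast
    refine Finset.sum_congr rfl fun σ _ => Finset.sum_congr rfl fun π _ =>
      Finset.prod_congr rfl fun i _ => ?_
    by_cases hi : i ∈ S
    · by_cases h : σ i = π i <;> simp [hi, h, E0]
    · simp [hi, E0]
  have hr : nsq (vS S) = ∑ σ : Equiv.Perm Ω, ∑ π : Equiv.Perm Ω, ∏ i, (if i ∈ S then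
        (if σ i = π i then (1 : ℝ) else 0) - (Fintype.card Ω : ℝ)⁻¹
          else (Fintype.card Ω : ℝ)⁻¹) := by
    rw [hb] at hp
    exact (Complex.ofReal_injective hp).symm
  rw [hr, SP4_real]
  set m := Fintype.card Ω with hmdef
  set j := S.card with hjdef
  have hm0 : (m : ℝ) ≠ 0 := by exact_mod_cast hm.ne'
  have hf : ((m - j).factorial : ℝ) * (m.descFactorial j : ℝ) = (m.factorial : ℝ) := by
    exact_mod_cast Nat.factorial_mul_descFactorial hj
  have hN : ∑ k ∈ range (j + 1), (j.choose k : ℝ) * ((m : ℝ)⁻¹ ^ (m - j) *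
        (-(m : ℝ)⁻¹) ^ (j - k) * ((m.factorial : ℝ) * ((m - k).factorial : ℝ))) =
      (m.factorial : ℝ) * ((m - j).factorial : ℝ) / (m : ℝ) ^ m * Nf (m : ℝ) j m := by
    unfold Nf
    rw [Finset.mul_sum]
    refine Finset.sum_congr rfl fun k hk => ?_
    have hk' : k ≤ j := Nat.lt_succ_iff.mp (Finset.mem_range.mp hk)
    have h1 : ((m - k).factorial : ℝ) =
        ((m - j).factorial : ℝ) * ((m - k).descFactorial (j - k) : ℝ) := by
      have := Nat.factorial_mul_descFactorial (show j - k ≤ m - k by omega)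
      rw [show m - k - (j - k) = m - j by omega] at this
      exact_mod_cast this.symm
    have h2 : (m : ℝ) ^ m = (m : ℝ) ^ (m - j) * (m : ℝ) ^ (j - k) * (m : ℝ) ^ k := by
      rw [← pow_add, ← pow_add]
      congr 1
      omega
    rw [h1, h2, neg_pow, inv_pow, inv_pow]
    field_simp
  rw [hN, Nf_eq hj, sq]
  rw [div_mul_eq_mul_div, div_mul_eq_mul_div]
  congr 1
  linear_combination ((m.factorial : ℝ) * nuS m j) * hf

end Pool.Agent.Work.MP_66fdf3_co.Full
end

-- merged part: Pool.Agent.Work.MP_66fdf3_co.Full.N7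
section
/-!
The geometric measure, `q = 16 / 17`, `K = 34 m`.
`mom_geo`: `hasSum_choose_mul_geometric_of_norm_lt_one` gives `∑ k, choose (k + n) n * q ^ k = 17 ^ (n+1)`,
that is `∑ k, (1/17) q ^ k * k.descFactorial n = n! * 16 ^ n`; `descFactorial ≤ pow`.  The tail `k ≥ K`:
consecutive terms of `q ^ k * k ^ n` have ratio at most `q * (1 + 1/K) ^ m ≤ (16/17) * (34/33) = 32/33`
(Bernoulli `one_add_mul_le_pow` applied to `(1 - 1/(K+1)) ^ m` or `(1+1/K)^m ≤ exp (1/34) ≤ 34/33`), so the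
tail is at most `(33/17) * q ^ K * (K/16) ^ n`.  The case `m = 0` is direct.
`sum_pG_le`: finite geometric sum.  `sum_pG_geo`: `∑ k ≥ k0, r ^ k ≤ r ^ k0 / (1 - r)`.
-/

namespace Pool.Agent.Work.MP_66fdf3_co.Full

open Finset

noncomputable def pG (m : ℕ) (k : Fin (34 * m + 1)) : ℝ :=
  if (k : ℕ) < 34 * m then 1 / 17 * (16 / 17) ^ (k : ℕ) else 2 * (16 / 17) ^ (k : ℕ)

noncomputable def zG (m : ℕ) (k : Fin (34 * m + 1)) : ℝ := ((k : ℕ) : ℝ) / 16

theorem N7_sum (m : ℕ) (φ : ℕ → ℝ) : ∑ k : Fin (34 * m + 1), pG m k * φ k =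
    ∑ k ∈ range (34 * m), 1 / 17 * (16 / 17) ^ k * φ k + 2 * (16 / 17) ^ (34 * m) * φ (34 * m) := by
  unfold pG
  rw [Fin.sum_univ_eq_sum_range (fun k => (if k < 34 * m then 1 / 17 * (16 / 17 : ℝ) ^ k
    else 2 * (16 / 17) ^ k) * φ k), sum_range_succ, if_neg (lt_irrefl _),
    sum_congr rfl fun k hk => by rw [if_pos (mem_range.1 hk)]]

theorem N7_ratio {k n : ℕ} (h : 34 * n ≤ k) : 33 * ((k : ℝ) + 1) ^ n ≤ 34 * (k : ℝ) ^ n := by
  have h0 : (0 : ℝ) < (k : ℝ) + 1 := by positivity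
  have h1 : (34 : ℝ) * n ≤ k := by exact_mod_cast h
  have h2 : (1 : ℝ) / ((k : ℝ) + 1) ≤ 1 := by
    rw [div_le_one h0]
    linarith only [(Nat.cast_nonneg k : (0 : ℝ) ≤ k)]
  have h3 := one_add_mul_le_pow (a := -(1 / ((k : ℝ) + 1))) (by linarith only [h2]) n
  have h4 : 1 + -(1 / ((k : ℝ) + 1)) = k / ((k : ℝ) + 1) := by
    field_simp
    ring
  have h5 : (n : ℝ) * (1 / ((k : ℝ) + 1)) ≤ 1 / 34 := by
    rw [mul_one_div, div_le_div_iff₀ h0 (by norm_num)]
    linarith only [h1]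
  rw [h4, div_pow, le_div_iff₀ (pow_pos h0 n)] at h3
  linarith only [h3, h5, h0, pow_pos h0 n, mul_nonneg_of_nonpos_of_nonpos (Mathlib.Tactic.Linarith.sub_nonpos_of_le h5) (le_of_lt (Mathlib.Tactic.Linarith.sub_neg_of_lt (pow_pos h0 n)))]

theorem N7_tail {K n : ℕ} (h : 34 * n ≤ K) (j : ℕ) :
    ((j + K : ℕ) : ℝ) ^ n * (16 / 17) ^ (j + K) ≤ (K : ℝ) ^ n * (16 / 17) ^ K * (32 / 33) ^ j := by
  induction j with
  | zero => simp
  | succ j ih =>
    have h1 := N7_ratio (k := j + K) (n := n) (by omega)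
    have h2 : (0 : ℝ) < (16 / 17) ^ (j + K) := by positivity
    have h3 := mul_le_mul_of_nonneg_right h1 h2.le
    have e1 : j + 1 + K = j + K + 1 := by omega
    rw [e1, pow_succ, pow_succ, Nat.cast_succ]
    linarith only [ih, h3]

theorem N7_mom {K n : ℕ} (h : 34 * n ≤ K) : 17 * ((n.factorial : ℝ) * 16 ^ n) ≤
    ∑ k ∈ range K, (k : ℝ) ^ n * (16 / 17) ^ k + 33 * ((K : ℝ) ^ n * (16 / 17) ^ K) := by
  have hq : ‖(16 / 17 : ℝ)‖ < 1 := by
    rw [Real.norm_of_nonneg (by norm_num)]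
    norm_num
  have s1 := (hasSum_choose_mul_geometric_of_norm_lt_one n hq).mul_left
    ((n.factorial : ℝ) * (16 / 17) ^ n)
  have s2 : Summable fun k : ℕ => (k : ℝ) ^ n * (16 / 17 : ℝ) ^ k :=
    summable_pow_mul_geometric_of_norm_lt_one n hq
  have s3 := hasSum_le_inj (fun j : ℕ => j + n) (add_left_injective n)
    (fun c _ => by positivity) (fun j => ?_) s1 s2.hasSum
  · have s4 := (hasSum_geometric_of_lt_one (r := (32 / 33 : ℝ)) (by norm_num) (by norm_num)).mul_left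
      ((K : ℝ) ^ n * (16 / 17) ^ K)
    have s5 := hasSum_le (N7_tail h) ((summable_nat_add_iff K).2 s2).hasSum s4
    rw [← s2.sum_add_tsum_nat_add K] at s3
    have e1 : (n.factorial : ℝ) * (16 / 17) ^ n * (1 / (1 - 16 / 17) ^ (n + 1)) =
        17 * ((n.factorial : ℝ) * 16 ^ n) := by
      rw [show (1 - 16 / 17 : ℝ) = 1 / 17 by norm_num, div_pow, div_pow, one_pow, pow_succ]
      field_simp
    rw [e1] at s3
    norm_num at s5 s3 ⊢
    linarith only [s5, s3]
  · have a1 : ((n.factorial : ℝ) * ((j + n).choose n : ℝ)) ≤ ((j + n : ℕ) : ℝ) ^ n := by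
      have := Nat.descFactorial_le_pow (j + n) n
      rw [Nat.descFactorial_eq_factorial_mul_choose] at this
      exact_mod_cast this
    have a2 := mul_le_mul_of_nonneg_right a1 (by positivity : (0 : ℝ) ≤ (16 / 17) ^ (j + n))
    refine le_trans (le_of_eq ?_) a2
    rw [pow_add]
    ring

theorem pG_nonneg (m : ℕ) (k : Fin (34 * m + 1)) : 0 ≤ pG m k := by
  unfold pG
  split_ifs <;> positivity

theorem pG_le (m : ℕ) (k : Fin (34 * m + 1)) : pG m k ≤ 2 * Real.exp (-(24 / 25) * zG m k) := by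
  have h1 : (16 / 17 : ℝ) ≤ Real.exp (-(3 / 50)) := by
    have h2 := Real.add_one_le_exp (-(3 / 200) : ℝ)
    have h3 : Real.exp (-(3 / 50)) = Real.exp (-(3 / 200)) ^ 4 := by
      rw [← Real.exp_nat_mul]
      norm_num
    rw [h3]
    exact le_trans (by norm_num) (pow_le_pow_left₀ (by norm_num) h2 4)
  have h2 : Real.exp (-(24 / 25) * zG m k) = Real.exp (-(3 / 50)) ^ (k : ℕ) := by
    rw [← Real.exp_nat_mul, zG]
    exact congrArg _ (by ring)
  have h3 := pow_le_pow_left₀ (by norm_num) h1 k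
  have h4 : (0 : ℝ) < (16 / 17) ^ (k : ℕ) := by positivity
  rw [h2, pG]
  split_ifs <;> linarith only [h3, h4]

theorem mom_geo (m : ℕ) : MomDom m (pG m) (zG m) := by
  refine ⟨pG_nonneg m, fun k => by unfold zG; positivity, fun n hn => ?_⟩
  have h1 := N7_mom (K := 34 * m) (n := n) (by omega)
  have h2 := N7_sum m fun k => ((k : ℝ) / 16) ^ n
  have h3 : ∑ k ∈ range (34 * m), 1 / 17 * (16 / 17 : ℝ) ^ k * ((k : ℝ) / 16) ^ n =
      (∑ k ∈ range (34 * m), (k : ℝ) ^ n * (16 / 17) ^ k) / (17 * 16 ^ n) := by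
    rw [sum_div]
    refine sum_congr rfl fun k _ => ?_
    rw [div_pow (k : ℝ)]
    field_simp
  have h4 : (0 : ℝ) ≤ ((34 * m : ℕ) : ℝ) ^ n * (16 / 17) ^ (34 * m) := by positivity
  have h5 : 2 * (16 / 17 : ℝ) ^ (34 * m) * (((34 * m : ℕ) : ℝ) / 16) ^ n =
      34 * (((34 * m : ℕ) : ℝ) ^ n * (16 / 17) ^ (34 * m)) / (17 * 16 ^ n) := by
    rw [div_pow ((34 * m : ℕ) : ℝ)]
    field_simp
    ring
  unfold zG
  rw [h2, h3, h5, ← add_div, le_div_iff₀ (by positivity)]
  linarith only [h1, h4]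

theorem sum_pG_le (m : ℕ) : ∑ k, pG m k ≤ 1 + (16 / 17) ^ (34 * m) := by
  have h1 := N7_sum m fun _ => 1
  simp only [mul_one] at h1
  rw [h1, ← mul_sum, geom_sum_eq (by norm_num)]
  refine le_of_eq ?_
  ring

theorem sum_pG_geo (m k0 : ℕ) {g : ℝ} (hg : 0 ≤ g) (h1 : 16 / 17 * g < 1) :
    ∑ k ∈ univ.filter (fun k : Fin (34 * m + 1) => k0 ≤ (k : ℕ)), pG m k * g ^ (k : ℕ) ≤
      (16 / 17 * g) ^ k0 / (17 * (1 - 16 / 17 * g)) + 2 * (16 / 17 * g) ^ (34 * m) := by
  have h0 : (0 : ℝ) ≤ 16 / 17 * g := by positivity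
  have h2 := N7_sum m fun k => if k0 ≤ k then g ^ k else 0
  have h3 : ∑ k ∈ range (34 * m), 1 / 17 * (16 / 17 : ℝ) ^ k * (if k0 ≤ k then g ^ k else 0) =
      1 / 17 * ∑ k ∈ Ico k0 (34 * m), (16 / 17 * g) ^ k := by
    have : Ico k0 (34 * m) = (range (34 * m)).filter fun k => k0 ≤ k := by
      ext k
      rw [mem_Ico, mem_filter, mem_range, and_comm]
    rw [this, sum_filter, mul_sum]
    refine sum_congr rfl fun k _ => ?_
    split_ifs
    · rw [mul_pow, mul_assoc]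
    · rw [mul_zero, mul_zero]
  have h4 := geom_sum_Ico_le_of_lt_one (m := k0) (n := 34 * m) h0 h1
  have h5 : 2 * (16 / 17 : ℝ) ^ (34 * m) * (if k0 ≤ 34 * m then g ^ (34 * m) else 0) ≤
      2 * (16 / 17 * g) ^ (34 * m) := by
    split_ifs
    · rw [mul_pow, mul_assoc]
    · rw [mul_zero]
      positivity
  have h6 : (16 / 17 * g) ^ k0 / (17 * (1 - 16 / 17 * g)) =
      1 / 17 * ((16 / 17 * g) ^ k0 / (1 - 16 / 17 * g)) := by
    rw [div_mul_div_comm, one_mul]
  rw [h3] at h2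
  simp only [mul_ite, mul_zero] at h2 h5
  rw [sum_filter, h2, h6]
  linarith only [h4, h5]

end Pool.Agent.Work.MP_66fdf3_co.Full
end

-- merged part: Pool.Agent.Work.MP_66fdf3_co.Full.N8
section
/-!
Class factors for `m ≥ 10000`, `τ = 1`, `y = √(m / 8) ≥ 35.35`, `s = √m ≥ 100`.
`psi_mid`: `B = 1`, `η = 1 / y` (`Rho_le_pow`); for `a = x / y ≤ 1/2`, `(1 - a)⁻¹ ≤ exp (a + a²)` (from
`exp u ≥ 1 + u + u²/2`), and `4 (y - 1) (x y + x²) ≤ y² (x + 1)²` because `((y - 2) x - y)² ≥ 0`.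
`psi_tail`: `η = min (1/y) (0.9 / x)`, `B = max 1 (x / (0.9 y)) ^ m`, `(1 - η x)⁻¹ ≤ 10`;
`max 1 u ^ (2 m) ≤ exp (m u² / e)` from `log v ≤ v / e` (`Real.add_one_le_exp (v / e - 1)`), `e > 2.7182`.
`tail_term`: with `z = d (x+1)² ≥ d x² + 2 d x`, `x > y / 2`, `log 100 < 4.606`: if `14 μ ≤ s` the linear term
pays for `100 ^ w` and `(0.96 d - 3.634) x² ≥ 0.206 m / 32 ≥ 0.64 s`; otherwise `μ ≥ 8`, `d ≥ 24`, `μ ≤ s / 2`
and `(0.96 - 3.634 / 24) d m / 32 - 2.303 s d ≥ 0.2 s d`.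
`eps_big`: define `Ψ k` by cases on `x k = max (√(z k / d) - 1) 0`: `1` if `x = 0`, `psi_mid` if
`0 < x ≤ y/2`, `psi_tail` otherwise.  For `x > 0`, `z = d (x + 1)²` and `k ≥ 16 d + 1`.  Then
`p Ψ² ≤ p + [k ≥ 16 d + 1] p * exp (θ / 16) ^ k + 2 exp (-0.64 s)`, `θ = μ / (2 (y - 1))`.
`μ ≤ 4`: `θ ≤ 0.0583`, `r = (16/17) exp (θ/16) ≤ 0.9447`, middle sum `≤ r ^ 65 / (17 (1 - r)) ≤ 0.027`.
`μ ≥ 5`: `θ ≤ 0.73`, `r ≤ 0.9862`, `d ≥ 15`, middle sum `≤ r ^ 241 / (17 (1 - r)) ≤ 0.2`, `1.04 ^ 25 ≥ 2`.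
Monotone in `g`: bound `exp (θ/16) ≤ g` by a rational `g` first (`exp x ≤ 1 / (1 - x)`).
-/

namespace Pool.Agent.Work.MP_66fdf3_co.Full

open Finset

theorem psi_mid {m : ℕ} {y x : ℝ} (hy : 2 < y) (h0 : 0 ≤ x) (h1 : x ≤ y / 2) (w : ℕ) :
    ∃ Ψ, PsiOK m 1 y w x Ψ ∧ Ψ ^ 2 ≤ Real.exp (w * (x + 1) ^ 2 / (2 * (y - 1))) := by
  have hy0 : 0 < y := by linarith only [hy]
  obtain ⟨a, ha⟩ : ∃ a, a = 1 / y * x := ⟨_, rfl⟩
  have hx : x = a * y := by
    rw [ha]
    field_simp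
  have a0 : 0 ≤ a := by
    rw [ha]
    positivity
  have a1 : a ≤ 1 / 2 := by
    rw [hx] at h1
    (refine le_of_not_gt fun h_nl => ?_; linarith only [h_nl, h1, hy, mul_pos_of_neg_of_neg (Mathlib.Tactic.Linarith.sub_neg_of_lt hy) (Mathlib.Tactic.Linarith.sub_neg_of_lt h_nl)])
  have b0 : 0 < 1 - a := by linarith only [a1]
  have b1 : (1 - a)⁻¹ ≤ Real.exp (a + a ^ 2) := by
    refine le_trans ?_ (Real.quadratic_le_exp_of_nonneg (by positivity))
    rw [inv_eq_one_div, div_le_iff₀ b0]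
    have h2 : 0 ≤ (1 - a) * (1 + a) ^ 2 / 2 - a := by (refine le_of_not_gt fun h_nl => ?_; linarith only [h_nl, hy, h1, hx, a1, a0, mul_nonneg_of_nonpos_of_nonpos (Mathlib.Tactic.Linarith.sub_nonpos_of_le (sq_nonneg ((1 : ℝ) * (1 : ℝ) + (1 : ℝ) * a))) (Mathlib.Tactic.Linarith.sub_nonpos_of_le h1), Mathlib.Tactic.Linarith.mul_zero_eq (Mathlib.Tactic.Linarith.sub_nonpos_of_le (sq_nonneg ((1 : ℝ) * (1 : ℝ) + (1 : ℝ) * a))) (sub_eq_zero_of_eq hx), mul_pos_of_neg_of_neg (Mathlib.Tactic.Linarith.sub_neg_of_lt hy) (Mathlib.Tactic.Linarith.sub_neg_of_lt h_nl), mul_nonneg_of_nonpos_of_nonpos (Mathlib.Tactic.Linarith.sub_nonpos_of_le h1) (Mathlib.Tactic.Linarith.sub_nonpos_of_le a1), Mathlib.Tactic.Linarith.zero_mul_eq (sub_eq_zero_of_eq hx) (Mathlib.Tactic.Linarith.sub_nonpos_of_le a0)])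
    linarith only [h2, mul_nonneg (sq_nonneg a) h2, sq_nonneg a]
  refine ⟨((1 - a)⁻¹) ^ w, ⟨1, 1 / y, by positivity, by rw [← ha]; linarith only [a1], fun N hN => ?_,
    by rw [← ha, one_mul]⟩, ?_⟩
  · rw [one_mul]
    exact Rho_le_pow m one_pos hy0 hN
  · calc (((1 - a)⁻¹) ^ w) ^ 2 ≤ (Real.exp (a + a ^ 2) ^ w) ^ 2 := by gcongr
      _ = Real.exp (w * (2 * (a + a ^ 2))) := by
        rw [← Real.exp_nat_mul, ← Real.exp_nat_mul]
        congr 1
        push_cast
        ring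
      _ ≤ _ := by
        rw [Real.exp_le_exp, mul_div_assoc]
        refine mul_le_mul_of_nonneg_left ?_ (Nat.cast_nonneg _)
        rw [le_div_iff₀ (by linarith only [hy]), hx]
        linarith only [sq_nonneg ((y - 2) * a - 1), sq_nonneg ((y - (2 : ℝ)) * a - (1 : ℝ))]

theorem psi_tail {m : ℕ} {y x : ℝ} (hy : 0 < y) (hm : y ^ 2 = (m : ℝ) / 8) (h0 : 0 < x) (w : ℕ) :
    ∃ Ψ, PsiOK m 1 y w x Ψ ∧ Ψ ^ 2 ≤ Real.exp (3634 / 1000 * x ^ 2) * 100 ^ w := by
  obtain ⟨u, hu⟩ : ∃ u, u = x / (9 / 10 * y) := ⟨_, rfl⟩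
  have u0 : 0 < u := by
    rw [hu]
    positivity
  obtain ⟨η, hη⟩ : ∃ η, η = min (1 / y) (9 / 10 / x) := ⟨_, rfl⟩
  have η0 : 0 ≤ η := by
    rw [hη]
    exact le_min (by positivity) (by positivity)
  have η1 : η * x ≤ 9 / 10 := by
    rw [← le_div_iff₀ h0, hη]
    exact min_le_right _ _
  have g1 : 1 ≤ max 1 u := le_max_left _ _
  have g2 : 1 / y ≤ max 1 u * η := by
    rw [hη, mul_min_of_nonneg _ _ (zero_le_one.trans g1)]
    refine le_min (le_mul_of_one_le_left (by positivity) g1) ?_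
    refine le_trans (le_of_eq ?_) (mul_le_mul_of_nonneg_right (le_max_right 1 u) (by positivity))
    rw [hu]
    field_simp
  have g3 : max 1 u ^ 2 ≤ Real.exp (u ^ 2 / Real.exp 1) := by
    rcases le_total 1 u with h | h
    · rw [max_eq_right h]
      have h2 := Real.add_one_le_exp (u ^ 2 / Real.exp 1 - 1)
      rw [Real.exp_sub, sub_add_cancel, div_le_div_iff_of_pos_right (Real.exp_pos 1)] at h2
      exact h2
    · rw [max_eq_left h, one_pow]
      exact Real.one_le_exp (by positivity)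
  have b1 : (1 - η * x)⁻¹ ≤ 10 := by
    rw [inv_eq_one_div, div_le_iff₀ (by linarith only [η1])]
    linarith only [η1]
  have b0 : 0 ≤ (1 - η * x)⁻¹ := inv_nonneg.2 (by linarith only [η1])
  refine ⟨max 1 u ^ m * 10 ^ w, ⟨max 1 u ^ m, η, η0, by linarith only [η1], fun N hN => ?_, by gcongr⟩, ?_⟩
  · refine (Rho_le_pow m one_pos hy hN).trans ((pow_le_pow_left₀ (by positivity) g2 N).trans ?_)
    rw [mul_pow]
    exact mul_le_mul_of_nonneg_right (pow_le_pow_right₀ g1 hN) (by positivity)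
  · have e1 : (max 1 u ^ m * 10 ^ w) ^ 2 = (max 1 u ^ 2) ^ m * 100 ^ w := by
      rw [mul_pow, ← pow_mul, ← pow_mul, mul_comm m 2, mul_comm w 2, pow_mul, pow_mul]
      norm_num
    rw [e1]
    refine mul_le_mul_of_nonneg_right ((pow_le_pow_left₀ (by positivity) g3 m).trans ?_)
      (by positivity)
    rw [← Real.exp_nat_mul, Real.exp_le_exp, ← mul_div_assoc, div_le_iff₀ (Real.exp_pos 1)]
    have e2 : (m : ℝ) * u ^ 2 = 800 / 81 * x ^ 2 := by
      have : (m : ℝ) = 8 * y ^ 2 := by linarith only [hm]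
      rw [this, hu]
      field_simp
      norm_num
    rw [e2]
    have := Real.exp_one_gt_d9
    linarith only [this, sq_nonneg x, sq_nonneg x, mul_nonneg_of_nonpos_of_nonpos (Mathlib.Tactic.Linarith.sub_nonpos_of_le (sq_nonneg x)) (le_of_lt (Mathlib.Tactic.Linarith.sub_neg_of_lt this))]

theorem N8_s {m : ℕ} (hm : 10000 ≤ m) : 100 ≤ √(m : ℝ) := by
  refine Real.le_sqrt_of_sq_le ?_
  have : (10000 : ℝ) ≤ m := by exact_mod_cast hm
  linarith

theorem N8_y (m : ℕ) : 35355 / 100000 * √(m : ℝ) ≤ √((m : ℝ) / 8) := by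
  refine Real.le_sqrt_of_sq_le ?_
  rw [mul_pow, Real.sq_sqrt (Nat.cast_nonneg _)]
  have : (0 : ℝ) ≤ m := Nat.cast_nonneg _
  linarith only []

theorem N8_mu {m μ : ℕ} (hμ : 4 * μ ^ 2 + 1 ≤ m) : 2 * (μ : ℝ) ≤ √(m : ℝ) := by
  refine Real.le_sqrt_of_sq_le ?_
  have : ((4 * μ ^ 2 + 1 : ℕ) : ℝ) ≤ m := by exact_mod_cast hμ
  push_cast at this
  linarith only [this]

theorem N8_log : (100 : ℝ) ≤ Real.exp (4606 / 1000) := by
  refine le_trans ?_ (Real.sum_le_exp_of_nonneg (by norm_num) 16)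
  norm_num [sum_range_succ, Nat.factorial]

theorem tail_term {m μ d : ℕ} (hm : 10000 ≤ m) (h4 : 4 ≤ d) (h3 : 3 * μ ≤ d)
    (hμ : 4 * μ ^ 2 + 1 ≤ m) {x : ℝ} (hx : √((m : ℝ) / 8) / 2 < x) :
    Real.exp (-(24 / 25) * (d * (x + 1) ^ 2)) * (Real.exp (3634 / 1000 * x ^ 2) * 100 ^ (μ * d)) ≤
      Real.exp (-(16 / 25) * √(m : ℝ)) := by
  have hs := N8_s hm
  have hy := N8_y m
  have hmu := N8_mu hμ
  generalize √((m : ℝ) / 8) = y at hx hy
  generalize √(m : ℝ) = s at hs hy hmu ⊢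
  have x1 : 17677 / 100000 * s ≤ x := by linarith only [hx, hs, hy]
  have x0 : 0 ≤ x := by linarith only [hx, hs, hy]
  have x2 : 3124 / 1000 * s ≤ x ^ 2 := by linarith only [hx, hs, hy, mul_pos_of_neg_of_neg (Mathlib.Tactic.Linarith.sub_neg_of_lt hx) (Mathlib.Tactic.Linarith.sub_neg_of_lt hx), mul_nonneg_of_nonpos_of_nonpos (le_of_lt (Mathlib.Tactic.Linarith.sub_neg_of_lt hx)) (Mathlib.Tactic.Linarith.sub_nonpos_of_le hs), mul_nonneg_of_nonpos_of_nonpos (le_of_lt (Mathlib.Tactic.Linarith.sub_neg_of_lt hx)) (Mathlib.Tactic.Linarith.sub_nonpos_of_le hy), mul_nonneg_of_nonpos_of_nonpos (Mathlib.Tactic.Linarith.sub_nonpos_of_le hs) (Mathlib.Tactic.Linarith.sub_nonpos_of_le hs), mul_nonneg_of_nonpos_of_nonpos (Mathlib.Tactic.Linarith.sub_nonpos_of_le hs) (Mathlib.Tactic.Linarith.sub_nonpos_of_le hy), mul_nonneg_of_nonpos_of_nonpos (Mathlib.Tactic.Linarith.sub_nonpos_of_le hy) (Mathlib.Tactic.Linarith.sub_nonpos_of_le hy)]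
  have d4 : (4 : ℝ) ≤ d := by exact_mod_cast h4
  have μ0 : (0 : ℝ) ≤ μ := Nat.cast_nonneg _
  have e1 : (100 : ℝ) ^ (μ * d) ≤ Real.exp ((μ * d : ℕ) * (4606 / 1000)) := by
    rw [Real.exp_nat_mul]
    exact pow_le_pow_left₀ (by norm_num) N8_log _
  refine le_trans (mul_le_mul_of_nonneg_left (mul_le_mul_of_nonneg_left e1 (Real.exp_pos _).le)
    (Real.exp_pos _).le) ?_
  rw [← Real.exp_add, ← Real.exp_add, Real.exp_le_exp]
  push_cast
  by_cases hc : 14 * (μ : ℝ) ≤ s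
  · have a1 : (μ : ℝ) * (4606 / 1000) ≤ 48 / 25 * x := by linarith only [hx, hs, hy, hc]
    have a2 := mul_le_mul_of_nonneg_left a1 (by linarith only [d4] : (0 : ℝ) ≤ d)
    have a3 : 4 * x ^ 2 ≤ d * x ^ 2 := by linarith only [d4, sq_nonneg x, mul_nonneg_of_nonpos_of_nonpos (Mathlib.Tactic.Linarith.sub_nonpos_of_le (sq_nonneg x)) (Mathlib.Tactic.Linarith.sub_nonpos_of_le d4)]
    linarith only [hs, x2, d4, a2, a3]
  · have μ8 : 8 ≤ μ := by
      by_contra hh
      have : (μ : ℝ) ≤ 7 := by exact_mod_cast (by omega : μ ≤ 7)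
      linarith only [hs, hc, this]
    have d24 : (24 : ℝ) ≤ d := by exact_mod_cast (by omega : 24 ≤ d)
    have a1 : (μ : ℝ) * (4606 / 1000) ≤ 2303 / 1000 * s := by linarith only [hmu]
    have a2 := mul_le_mul_of_nonneg_left a1 (by linarith only [d24] : (0 : ℝ) ≤ d)
    have a3 : 24 * x ^ 2 ≤ d * x ^ 2 := by linarith only [d24, sq_nonneg x, mul_nonneg_of_nonpos_of_nonpos (Mathlib.Tactic.Linarith.sub_nonpos_of_le (sq_nonneg x)) (Mathlib.Tactic.Linarith.sub_nonpos_of_le d24)]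
    have a4 := mul_le_mul_of_nonneg_left x2 (by linarith only [d24] : (0 : ℝ) ≤ d)
    have a5 : 24 * s ≤ d * s := by linarith only [d24, hs, mul_nonneg_of_nonpos_of_nonpos (Mathlib.Tactic.Linarith.sub_nonpos_of_le hs) (Mathlib.Tactic.Linarith.sub_nonpos_of_le d24)]
    have a6 : 0 ≤ d * x := by positivity
    linarith only [hs, x2, d24, a2, a3, a4, a6]

theorem N8_node {m μ d : ℕ} (hm : 10000 ≤ m) (h4 : 4 ≤ d) (h3 : 3 * μ ≤ d)
    (hμ : 4 * μ ^ 2 + 1 ≤ m) {g : ℝ} (hg : Real.exp (μ / (32 * (√((m : ℝ) / 8) - 1))) ≤ g)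
    (k : Fin (34 * m + 1)) :
    ∃ Ψ, PsiOK m 1 (√((m : ℝ) / 8)) (μ * d) (max (√(zG m k / d) - 1) 0) Ψ ∧
      pG m k * 1 * Ψ ^ 2 ≤ pG m k + (if 16 * d + 1 ≤ (k : ℕ) then pG m k * g ^ (k : ℕ) else 0) +
        2 * Real.exp (-(16 / 25) * √(m : ℝ)) := by
  have hs := N8_s hm
  have hy := N8_y m
  have y2 : 2 < √((m : ℝ) / 8) := by linarith only [hs, hy]
  have p0 := pG_nonneg m k
  have g0 : 0 ≤ g := (Real.exp_pos _).le.trans hg
  have i0 : 0 ≤ (if 16 * d + 1 ≤ (k : ℕ) then pG m k * g ^ (k : ℕ) else 0) := by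
    split_ifs
    · positivity
    · exact le_rfl
  have e0 := (Real.exp_pos (-(16 / 25) * √(m : ℝ))).le
  have d0 : (0 : ℝ) < d := by exact_mod_cast (by omega : 0 < d)
  have z0 : 0 ≤ zG m k / d := by
    rw [zG]
    positivity
  rcases le_or_gt (√(zG m k / d) - 1) 0 with hx | hx
  · rw [max_eq_right hx]
    exact ⟨1, psiOK_zero _ one_pos (by linarith only [hs, hy]) _, by linarith only [i0, e0]⟩
  rw [max_eq_left hx.le]
  obtain ⟨x, hxe⟩ : ∃ x, x = √(zG m k / d) - 1 := ⟨_, rfl⟩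
  rw [← hxe] at hx ⊢
  have hz : zG m k = d * (x + 1) ^ 2 := by
    rw [hxe, sub_add_cancel, Real.sq_sqrt z0]
    field_simp
  rcases le_or_gt x (√((m : ℝ) / 8) / 2) with h1 | h1
  · obtain ⟨Ψ, a1, a2⟩ := psi_mid (m := m) y2 hx.le h1 (μ * d)
    refine ⟨Ψ, a1, ?_⟩
    have hk : 16 * d + 1 ≤ (k : ℕ) := by
      have : (16 : ℝ) * d < (k : ℕ) := by
        rw [zG] at hz
        linarith only [hz, d0, hx, mul_pos d0 hx, mul_nonneg d0.le (sq_nonneg x), sq_nonneg x]
      have : 16 * d < (k : ℕ) := by exact_mod_cast this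
      omega
    rw [if_pos hk]
    have a3 : Ψ ^ 2 ≤ g ^ (k : ℕ) := by
      refine a2.trans (le_trans (le_of_eq ?_) (pow_le_pow_left₀ (Real.exp_pos _).le hg _))
      rw [← Real.exp_nat_mul]
      congr 1
      have : (((k : ℕ) : ℝ)) = 16 * (d * (x + 1) ^ 2) := by
        rw [← hz, zG]
        ring
      rw [this]
      have : √((m : ℝ) / 8) - 1 ≠ 0 := by linarith only [hs, hy]
      push_cast
      field_simp
      ring
    have := mul_le_mul_of_nonneg_left a3 p0
    linarith only [p0, e0, this]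
  · obtain ⟨Ψ, a1, a2⟩ := psi_tail (m := m) (by linarith only [hs, hy] : 0 < √((m : ℝ) / 8))
      (Real.sq_sqrt (by positivity)) hx (μ * d)
    refine ⟨Ψ, a1, ?_⟩
    have a3 := tail_term hm h4 h3 hμ h1
    have a4 := pG_le m k
    rw [hz] at a4
    have a5 := mul_le_mul a4 a2 (sq_nonneg _) (by positivity)
    linarith only [p0, i0, a3, a5]

theorem N8_small {m : ℕ} (hm : 10000 ≤ m) :
    ((34 * m + 1 : ℕ) : ℝ) * (2 * Real.exp (-(16 / 25) * √(m : ℝ))) ≤ 1 / 1000 := by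
  have m0 : (10000 : ℝ) ≤ m := by exact_mod_cast hm
  have h := Real.pow_div_factorial_le_exp (16 / 25 * √(m : ℝ)) (by positivity) 8
  have e : (16 / 25 * √(m : ℝ)) ^ 8 = (16 / 25) ^ 8 * (m : ℝ) ^ 4 := by
    rw [mul_pow, show (8 : ℕ) = 2 * 4 from rfl, pow_mul (√(m : ℝ)), Real.sq_sqrt (Nat.cast_nonneg _)]
  rw [e] at h
  rw [neg_mul, Real.exp_neg, ← div_eq_mul_inv, ← mul_div_assoc, div_le_iff₀ (Real.exp_pos _)]
  have h3 : (10000 : ℝ) ^ 3 ≤ (m : ℝ) ^ 3 := by gcongr
  have h4 : (10000 : ℝ) ^ 3 * m ≤ (m : ℝ) ^ 4 := by linarith only [h3, mul_nonneg_of_nonpos_of_nonpos (Mathlib.Tactic.Linarith.sub_nonpos_of_le (Mathlib.Tactic.Linarith.natCast_nonneg ℝ m)) (Mathlib.Tactic.Linarith.sub_nonpos_of_le h3)]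
  norm_num [Nat.factorial] at h h4 ⊢
  linarith only [m0, h, h4]

theorem N8_sum {m μ d : ℕ} (hm : 10000 ≤ m) (h4 : 4 ≤ d) (h3 : 3 * μ ≤ d)
    (hμ : 4 * μ ^ 2 + 1 ≤ m) {g : ℝ} (hg : Real.exp (μ / (32 * (√((m : ℝ) / 8) - 1))) ≤ g)
    (h1 : 16 / 17 * g < 1) {k1 : ℕ} (hk : k1 ≤ 16 * d + 1) {A : ℝ}
    (hA : 1 + (16 / 17) ^ 200 + ((16 / 17 * g) ^ k1 / (17 * (1 - 16 / 17 * g)) +
      2 * (16 / 17 * g) ^ 200) + 1 / 1000 ≤ A) :
    ∃ Ψ : Fin (34 * m + 1) → ℝ, (∀ c, (1 : ℝ) ≠ 0 →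
      PsiOK m 1 (√((m : ℝ) / 8)) (μ * d) (max (√(zG m c / d) - 1) 0) (Ψ c)) ∧
      ∑ c, pG m c * 1 * Ψ c ^ 2 ≤ A := by
  choose Ψ a1 a2 using N8_node hm h4 h3 hμ hg
  have g0 : 0 ≤ g := (Real.exp_pos _).le.trans hg
  refine ⟨Ψ, fun c _ => a1 c, (sum_le_sum fun c _ => a2 c).trans (le_trans ?_ hA)⟩
  rw [sum_add_distrib, sum_add_distrib, ← sum_filter, sum_const, card_univ, Fintype.card_fin,
    nsmul_eq_mul]
  have r0 : 0 ≤ 16 / 17 * g := by positivity
  refine add_le_add (add_le_add ((sum_pG_le m).trans ?_) ((sum_pG_geo m _ g0 h1).trans ?_))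
    (N8_small hm)
  · exact add_le_add le_rfl (pow_le_pow_of_le_one (by norm_num) (by norm_num) (by omega))
  · refine add_le_add (div_le_div_of_nonneg_right (pow_le_pow_of_le_one r0 h1.le hk) (by linarith only [h1]))
      (mul_le_mul_of_nonneg_left (pow_le_pow_of_le_one r0 h1.le (by omega)) (by norm_num))

theorem N8_exp {t c g : ℝ} (h : t ≤ c) (h1 : c < 1) (h2 : 1 ≤ g * (1 - c)) : Real.exp t ≤ g := by
  have a1 := Real.add_one_le_exp (-c)
  have a2 : Real.exp c * Real.exp (-c) = 1 := by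
    rw [← Real.exp_add]
    simp
  have a3 := Real.exp_pos c
  have a4 : Real.exp c * (1 - c) ≤ g * (1 - c) := by linarith only [h2, a2, a1, a3, mul_nonneg_of_nonpos_of_nonpos (Mathlib.Tactic.Linarith.sub_nonpos_of_le a1) (le_of_lt (Mathlib.Tactic.Linarith.sub_neg_of_lt a3))]
  exact (Real.exp_le_exp.2 h).trans (le_of_mul_le_mul_right a4 (by linarith))

theorem eps_big {m : ℕ} (hm : 10000 ≤ m) :
    EpsOK m (pG m) (zG m) 1 (√((m : ℝ) / 8)) (fun _ => 1) (26 / 25) := by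
  intro μ d h1 h4 h3 hμ _
  have hs := N8_s hm
  have hy := N8_y m
  have hmu := N8_mu hμ
  by_cases hc : μ ≤ 4
  · have μ4 : (μ : ℝ) ≤ 4 := by exact_mod_cast hc
    refine N8_sum hm h4 h3 hμ (g := 10037 / 10000) (k1 := 65)
      (N8_exp (c := 364 / 100000) ?_ (by norm_num) (by norm_num)) (by norm_num) (by omega) ?_
    · rw [div_le_iff₀ (by linarith only [hs, hy])]
      linarith only [hs, hy, μ4]
    · refine le_trans ?_ (pow_le_pow_right₀ (by norm_num) (Nat.one_le_pow 2 μ h1))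
      norm_num
  · refine N8_sum hm h4 h3 hμ (g := 10479 / 10000) (k1 := 241)
      (N8_exp (c := 45625 / 1000000) ?_ (by norm_num) (by norm_num)) (by norm_num) (by omega) ?_
    · rw [div_le_iff₀ (by linarith only [hs, hy])]
      linarith only [hs, hy, hmu]
    · refine le_trans ?_ (pow_le_pow_right₀ (by norm_num) (by nlinarith only [hc] : 25 ≤ μ ^ 2))
      norm_num

end Pool.Agent.Work.MP_66fdf3_co.Full
end

-- merged part: Pool.Agent.Work.MP_66fdf3_co.Full.N9
section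
/-!
Sparse levels for `m ≥ 10000`.  With `s = √m`, two-step induction from `j = 3, 4` (explicit values
`nuS m 2 = 1/(m-1)`, `nuS m 3 = 4/((m-1)(m-2))`, `nuS m 4 = 3 (2 nuS 3 + nuS 2)/(m-3)`, `dS a 2 = a`,
`dS a 3 = 2a`, `dS a 4 = 3a² + 6a`).  Step: `√((j+2)!) = √(j+2) √((j+1)!)`, `(j+1) ≤ √(j+1) √(j+2)`,
`√(j+1) / s ≤ 0.2237`, `m - (j+1) ≥ 0.95 m`, and `0.95 * 1.29² ≥ 2 * 0.2237 * 1.29 + 1`,
`1.22² ≥ 0.3875 * 1.22 + 1` (`√3 * 0.2237 ≤ 0.3875`).
Then the `j`-th term is at most `0.2215 * 0.2767 * (1.29 * 1.22 / √3) ^ j ≤ 0.0613 * 0.9087 ^ j` for `j ≥ 3`;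
the geometric series from `j = 3` is at most `0.504`, the term `j = 2` is at most `0.1667`, `j = 1` is zero.
-/

namespace Pool.Agent.Work.MP_66fdf3_co.Full

open Finset

theorem N9_two {P : ℕ → Prop} (h3 : P 3) (h4 : P 4)
    (hs : ∀ j, 3 ≤ j → P j → P (j + 1) → P (j + 2)) {j : ℕ} (hj : 3 ≤ j) : P j := by
  have h : ∀ n, P (n + 3) ∧ P (n + 4) := by
    intro n
    induction n with
    | zero => exact ⟨h3, h4⟩
    | succ n ih => exact ⟨ih.2, hs (n + 3) (by omega) ih.1 ih.2⟩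
  obtain ⟨n, rfl⟩ := Nat.exists_eq_add_of_le' hj
  exact (h n).1

theorem N9_fac1 (j : ℕ) : √((j + 1).factorial : ℝ) = √((j : ℝ) + 1) * √(j.factorial : ℝ) := by
  rw [Nat.factorial_succ, ← Real.sqrt_mul (by positivity)]
  push_cast
  rfl

theorem N9_fac2 (j : ℕ) : ((j : ℝ) + 1) * √(j.factorial : ℝ) ≤ √((j + 2).factorial : ℝ) := by
  have h1 : √((j : ℝ) + 1) ≤ √(((j + 1 : ℕ) : ℝ) + 1) := Real.sqrt_le_sqrt (by push_cast; linarith)
  have h2 : √((j : ℝ) + 1) * √((j : ℝ) + 1) = (j : ℝ) + 1 := Real.mul_self_sqrt (by positivity)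
  rw [N9_fac1 (j + 1), N9_fac1 j, ← mul_assoc]
  refine mul_le_mul_of_nonneg_right ?_ (Real.sqrt_nonneg _)
  linarith only [h2, h1, Real.sqrt_nonneg ((j : ℝ) + 1), mul_nonneg_of_nonpos_of_nonpos (Mathlib.Tactic.Linarith.sub_nonpos_of_le h1) (Mathlib.Tactic.Linarith.sub_nonpos_of_le (Real.sqrt_nonneg (↑j + (1 : ℝ))))]

theorem N9_sq {x y c : ℝ} (hc : 0 ≤ c) (h : x ≤ c ^ 2 * y) : √x ≤ c * √y := by
  refine (Real.sqrt_le_sqrt h).trans_eq ?_
  rw [Real.sqrt_mul (sq_nonneg c), Real.sqrt_sq hc]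

theorem N9_r3 : (2 : ℝ) ≤ √((Nat.factorial 3 : ℕ) : ℝ) :=
  Real.le_sqrt_of_sq_le (by norm_num [Nat.factorial])

theorem N9_r4 : (48989 / 10000 : ℝ) ≤ √((Nat.factorial 4 : ℕ) : ℝ) :=
  Real.le_sqrt_of_sq_le (by norm_num [Nat.factorial])

theorem N9_nu2 (m : ℕ) : nuS m 2 = 1 / ((m : ℝ) - 1) := by
  simp [nuS]

theorem N9_nu3 (m : ℕ) : nuS m 3 = 2 * (2 * (1 / ((m : ℝ) - 1))) / ((m : ℝ) - 2) := by
  have h : nuS m 3 = (((1 : ℕ) : ℝ) + 1) * (2 * nuS m 2 + nuS m 1) /
      ((m : ℝ) - (((1 : ℕ) : ℝ) + 1)) := rfl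
  rw [h, N9_nu2]
  norm_num [nuS]

theorem N9_nu4 (m : ℕ) : nuS m 4 = 3 * (2 * nuS m 3 + nuS m 2) / ((m : ℝ) - 3) := by
  have h : nuS m 4 = (((2 : ℕ) : ℝ) + 1) * (2 * nuS m 3 + nuS m 2) /
      ((m : ℝ) - (((2 : ℕ) : ℝ) + 1)) := rfl
  rw [h]
  norm_num

theorem nuS_big {m j : ℕ} (hm : 10000 ≤ m) (h3 : 3 ≤ j) (hj : 20 * j ≤ m) :
    nuS m j * √(m : ℝ) ^ j ≤ 2215 / 10000 * (129 / 100) ^ j * √(j.factorial : ℝ) := by
  have hM : (10000 : ℝ) ≤ m := by exact_mod_cast hm
  have hs2 : √(m : ℝ) ^ 2 = m := Real.sq_sqrt (by linarith only [hM])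
  have hs : (100 : ℝ) ≤ √(m : ℝ) := Real.le_sqrt_of_sq_le (by linarith only [hM])
  have a1 : (0 : ℝ) < (m : ℝ) - 1 := by linarith only [hM]
  have a2 : (0 : ℝ) < (m : ℝ) - 2 := by linarith only [hM]
  have a3 : (0 : ℝ) < (m : ℝ) - 3 := by linarith only [hM]
  revert hj
  refine N9_two (P := fun j => 20 * j ≤ m → nuS m j * √(m : ℝ) ^ j ≤
    2215 / 10000 * (129 / 100) ^ j * √(j.factorial : ℝ)) (fun _ => ?_) (fun _ => ?_)
    (fun j _ i1 i2 hj => ?_) h3
  · have e : nuS m 3 * √(m : ℝ) ^ 3 = 4 * (m * √(m : ℝ)) / (((m : ℝ) - 1) * ((m : ℝ) - 2)) := by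
      rw [N9_nu3, pow_succ, hs2]
      field_simp
      ring
    have h1 : 4 * (m * √(m : ℝ)) / (((m : ℝ) - 1) * ((m : ℝ) - 2)) ≤ 1 / 2 := by
      rw [div_le_iff₀ (mul_pos a1 a2)]
      have : 100 * √(m : ℝ) ≤ m := by linarith only [hM, hs2, hs, mul_nonneg_of_nonpos_of_nonpos (Mathlib.Tactic.Linarith.sub_nonpos_of_le hs) (Mathlib.Tactic.Linarith.sub_nonpos_of_le hs)]
      linarith only [hM, this, mul_nonneg_of_nonpos_of_nonpos (Mathlib.Tactic.Linarith.sub_nonpos_of_le (Mathlib.Tactic.Linarith.natCast_nonneg ℝ m)) (Mathlib.Tactic.Linarith.sub_nonpos_of_le hM), mul_nonneg_of_nonpos_of_nonpos (Mathlib.Tactic.Linarith.sub_nonpos_of_le (Mathlib.Tactic.Linarith.natCast_nonneg ℝ m)) (Mathlib.Tactic.Linarith.sub_nonpos_of_le this)]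
    rw [e]
    refine h1.trans (le_trans ?_ (mul_le_mul_of_nonneg_left N9_r3 (by positivity)))
    norm_num
  · have e : nuS m 4 * √(m : ℝ) ^ 4 = 3 * (m : ℝ) ^ 2 * (m + 6) /
        (((m : ℝ) - 1) * ((m : ℝ) - 2) * ((m : ℝ) - 3)) := by
      rw [N9_nu4, N9_nu3, N9_nu2, show √(m : ℝ) ^ 4 = (√(m : ℝ) ^ 2) ^ 2 by ring, hs2]
      field_simp
      ring
    have h1 : 3 * (m : ℝ) ^ 2 * (m + 6) / (((m : ℝ) - 1) * ((m : ℝ) - 2) * ((m : ℝ) - 3)) ≤
        30047 / 10000 := by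
      rw [div_le_iff₀ (mul_pos (mul_pos a1 a2) a3)]
      have h2 : 0 ≤ (m : ℝ) ^ 2 * ((m : ℝ) - 10000) := mul_nonneg (sq_nonneg _) (by linarith only [hM])
      nlinarith only [hM, h2]
    rw [e]
    linarith only [h1, N9_r4]
  · have hJ : 20 * ((j : ℝ) + 2) ≤ m := by exact_mod_cast hj
    have b1 := i1 (by omega)
    have b2 := i2 (by omega)
    have hj0 : (0 : ℝ) ≤ j := Nat.cast_nonneg j
    have ht : √((j : ℝ) + 1) ≤ 2237 / 10000 * √(m : ℝ) := N9_sq (by norm_num) (by linarith only [hM, hJ])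
    have hd : (0 : ℝ) < (m : ℝ) - ((j : ℝ) + 1) := by linarith only [hM, hJ]
    have e : nuS m (j + 2) * √(m : ℝ) ^ (j + 2) = ((j : ℝ) + 1) *
        (2 * (nuS m (j + 1) * √(m : ℝ) ^ (j + 1)) * √(m : ℝ) + nuS m j * √(m : ℝ) ^ j * m) /
          ((m : ℝ) - ((j : ℝ) + 1)) := by
      have e1 : 2 * (nuS m (j + 1) * √(m : ℝ) ^ (j + 1)) * √(m : ℝ) =
          2 * nuS m (j + 1) * √(m : ℝ) ^ j * √(m : ℝ) ^ 2 := by ring
      rw [e1, nuS, pow_add, hs2]
      ring
    rw [N9_fac1] at b2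
    set B := 2215 / 10000 * (129 / 100 : ℝ) ^ j * √(j.factorial : ℝ) with hB
    have hB0 : 0 ≤ B := by positivity
    have b3 : nuS m (j + 1) * √(m : ℝ) ^ (j + 1) ≤ B * (129 / 100 * (2237 / 10000 * √(m : ℝ))) := by
      refine b2.trans ?_
      calc _ = B * (129 / 100 * √((j : ℝ) + 1)) := by rw [hB]; ring
        _ ≤ _ := by gcongr
    have b4 : 2 * (nuS m (j + 1) * √(m : ℝ) ^ (j + 1)) * √(m : ℝ) + nuS m j * √(m : ℝ) ^ j * m ≤
        B * (129 / 100) ^ 2 * ((m : ℝ) - ((j : ℝ) + 1)) := by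
      have c1 := mul_le_mul_of_nonneg_right b3 (Real.sqrt_nonneg (m : ℝ))
      have c2 := mul_le_mul_of_nonneg_right b1 (show (0 : ℝ) ≤ m by linarith only [hM])
      have c3 : B * (129 / 100 * (2237 / 10000 * √(m : ℝ))) * √(m : ℝ) =
          B * (129 / 100 * (2237 / 10000)) * m := by
        nth_rewrite 3 [← hs2]
        ring
      have c4 := mul_le_mul_of_nonneg_left (show (2 * (129 / 100 * (2237 / 10000)) + 1) * (m : ℝ) ≤
        (129 / 100) ^ 2 * ((m : ℝ) - ((j : ℝ) + 1)) by linarith only [hM, hJ]) hB0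
      linarith only [c1, c2, c3, c4]
    rw [e, div_le_iff₀ hd]
    calc _ ≤ ((j : ℝ) + 1) * (B * (129 / 100) ^ 2 * ((m : ℝ) - ((j : ℝ) + 1))) := by gcongr
      _ = 2215 / 10000 * (129 / 100) ^ (j + 2) * (((j : ℝ) + 1) * √(j.factorial : ℝ)) *
          ((m : ℝ) - ((j : ℝ) + 1)) := by rw [hB]; ring
      _ ≤ _ := by gcongr; exact N9_fac2 j

theorem N9_d2 (a : ℝ) : dS a 2 = a := by
  simp [dS]

theorem N9_d3 (a : ℝ) : dS a 3 = 2 * a := by
  have h : dS a 3 = (((1 : ℕ) : ℝ) + 1) * (dS a 2 + a * dS a 1) := rfl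
  rw [h, N9_d2]
  norm_num [dS]

theorem N9_d4 (a : ℝ) : dS a 4 = 3 * (2 * a + a * a) := by
  have h : dS a 4 = (((2 : ℕ) : ℝ) + 1) * (dS a 3 + a * dS a 2) := rfl
  rw [h, N9_d3, N9_d2]
  norm_num

theorem dS_big {m j : ℕ} (hm : 10000 ≤ m) (h3 : 3 ≤ j) (hj : 20 * j ≤ m) :
    dS ((m : ℝ) / 3) j ≤
      2767 / 10000 * (122 / 100) ^ j * √(j.factorial : ℝ) * √((m : ℝ) / 3) ^ j := by
  have hM : (10000 : ℝ) ≤ m := by exact_mod_cast hm
  set a := (m : ℝ) / 3 with ha
  have hA : 3333 ≤ a := by linarith only [hM, ha]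
  have hs2 : √a ^ 2 = a := Real.sq_sqrt (by linarith only [hM, ha])
  have hs : (50 : ℝ) ≤ √a := Real.le_sqrt_of_sq_le (by linarith only [hM, ha])
  revert hj
  refine N9_two (P := fun j => 20 * j ≤ m → dS a j ≤
    2767 / 10000 * (122 / 100) ^ j * √(j.factorial : ℝ) * √a ^ j) (fun _ => ?_) (fun _ => ?_)
    (fun j _ i1 i2 hj => ?_) h3
  · rw [N9_d3, pow_succ √a, hs2]
    have h1 : 2 * 50 ≤ √((Nat.factorial 3 : ℕ) : ℝ) * √a :=
      mul_le_mul N9_r3 hs (by norm_num) (Real.sqrt_nonneg _)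
    have h2 := mul_le_mul_of_nonneg_left h1 (show (0 : ℝ) ≤ a by linarith only [hM, ha])
    generalize √((Nat.factorial 3 : ℕ) : ℝ) = r at h2 ⊢
    linarith only [hM, ha, h2]
  · rw [N9_d4, show √a ^ 4 = (√a ^ 2) ^ 2 by ring, hs2]
    have h1 := mul_le_mul_of_nonneg_right N9_r4 (sq_nonneg a)
    linarith only [hM, ha, h1, mul_nonneg_of_nonpos_of_nonpos (Mathlib.Tactic.Linarith.sub_nonpos_of_le (Mathlib.Tactic.Linarith.natCast_nonneg ℝ m)) (Mathlib.Tactic.Linarith.sub_nonpos_of_le hM), Mathlib.Tactic.Linarith.mul_zero_eq (Mathlib.Tactic.Linarith.sub_nonpos_of_le (Mathlib.Tactic.Linarith.natCast_nonneg ℝ m)) (sub_eq_zero_of_eq ha), Mathlib.Tactic.Linarith.zero_mul_eq (sub_eq_zero_of_eq ha) (sub_eq_zero_of_eq ha)]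
  · have hJ : 20 * ((j : ℝ) + 2) ≤ m := by exact_mod_cast hj
    have b1 := i1 (by omega)
    have b2 := i2 (by omega)
    have hj0 : (0 : ℝ) ≤ j := Nat.cast_nonneg j
    have ht : √((j : ℝ) + 1) ≤ 3875 / 10000 * √a := N9_sq (by norm_num) (by linarith only [hM, ha, hJ])
    rw [N9_fac1] at b2
    set B := 2767 / 10000 * (122 / 100 : ℝ) ^ j * √(j.factorial : ℝ) * √a ^ j with hB
    have hB0 : 0 ≤ B := by positivity
    have b3 : dS a (j + 1) ≤ B * (122 / 100 * (3875 / 10000)) * a := by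
      refine b2.trans ?_
      calc _ = B * (122 / 100 * √((j : ℝ) + 1) * √a) := by rw [hB]; ring
        _ ≤ B * (122 / 100 * (3875 / 10000 * √a) * √a) := by gcongr
        _ = B * (122 / 100 * (3875 / 10000)) * √a ^ 2 := by ring
        _ = _ := by rw [hs2]
    have b4 : dS a (j + 1) + a * dS a j ≤ B * (122 / 100) ^ 2 * a := by
      have c2 := mul_le_mul_of_nonneg_left b1 (show (0 : ℝ) ≤ a by linarith only [hM, ha])
      have c3 : 0 ≤ B * a := mul_nonneg hB0 (by linarith only [hM, ha])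
      linarith only [b3, c2, c3]
    rw [dS]
    calc _ ≤ ((j : ℝ) + 1) * (B * (122 / 100) ^ 2 * a) := by gcongr
      _ = 2767 / 10000 * (122 / 100) ^ (j + 2) * (((j : ℝ) + 1) * √(j.factorial : ℝ)) *
          √a ^ (j + 2) := by rw [hB, pow_add √a, hs2]; ring
      _ ≤ _ := by gcongr; exact N9_fac2 j

theorem N9_term {m j : ℕ} (hm : 10000 ≤ m) (h3 : 3 ≤ j) (hj : 20 * j ≤ m) :
    nuS m j * dS ((m : ℝ) / 3) j / (j.factorial : ℝ) ≤ 613 / 10000 * (9087 / 10000) ^ j := by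
  have hM : (10000 : ℝ) ≤ m := by exact_mod_cast hm
  have hs : 0 < √(m : ℝ) := Real.sqrt_pos.2 (by linarith only [hM])
  have hf : (0 : ℝ) < j.factorial := by exact_mod_cast j.factorial_pos
  have h1 := nuS_big hm h3 hj
  have h2 := dS_big hm h3 hj
  have h4 : √((m : ℝ) / 3) ≤ 57736 / 100000 * √(m : ℝ) := N9_sq (by norm_num) (by linarith only [hM])
  have h5 : 0 ≤ nuS m j := nuS_nonneg (by omega)
  have h6 : √(j.factorial : ℝ) * √(j.factorial : ℝ) = j.factorial := Real.mul_self_sqrt hf.le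
  rw [div_le_iff₀ hf]
  calc nuS m j * dS ((m : ℝ) / 3) j
      ≤ nuS m j * (2767 / 10000 * (122 / 100) ^ j * √(j.factorial : ℝ) *
          (57736 / 100000 * √(m : ℝ)) ^ j) := by
        refine mul_le_mul_of_nonneg_left (h2.trans ?_) h5
        gcongr
    _ = nuS m j * √(m : ℝ) ^ j * (2767 / 10000 * (122 / 100) ^ j * √(j.factorial : ℝ) *
          (57736 / 100000) ^ j) := by rw [mul_pow]; ring
    _ ≤ 2215 / 10000 * (129 / 100) ^ j * √(j.factorial : ℝ) * (2767 / 10000 * (122 / 100) ^ j *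
          √(j.factorial : ℝ) * (57736 / 100000) ^ j) := by gcongr
    _ = 2215 / 10000 * (2767 / 10000) * (129 / 100 * (122 / 100) * (57736 / 100000)) ^ j *
          (√(j.factorial : ℝ) * √(j.factorial : ℝ)) := by rw [mul_pow, mul_pow]; ring
    _ ≤ _ := by
        rw [h6]
        gcongr <;> norm_num

theorem N9_geo (J : ℕ) : ∑ j ∈ Icc 1 J, (9087 / 10000 : ℝ) ^ j ≤
    10 * (1 - (9087 / 10000 : ℝ) ^ J) := by
  induction J with
  | zero => simp
  | succ J ih =>
    rw [sum_Icc_succ_top (by omega), pow_succ]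
    have : 0 ≤ (9087 / 10000 : ℝ) ^ J := by positivity
    linarith only [ih, this]

theorem sparse_big {m : ℕ} (hm : 10000 ≤ m) : sparseS m (m / 20) ≤ 3 / 5 := by
  have hM : (10000 : ℝ) ≤ m := by exact_mod_cast hm
  have h1 : ∀ j ∈ Icc 1 (m / 20), nuS m j * dS ((m : ℝ) / 3) j / (j.factorial : ℝ) ≤
      613 / 10000 * (9087 / 10000) ^ j + if j = 2 then 1667 / 10000 else 0 := by
    intro j hj
    rw [mem_Icc] at hj
    by_cases h3 : 3 ≤ j
    · rw [if_neg (by omega), add_zero]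
      exact N9_term hm h3 (by omega)
    obtain rfl | rfl : j = 1 ∨ j = 2 := by omega
    · norm_num [nuS]
    · have a1 : (0 : ℝ) < (m : ℝ) - 1 := by linarith only [hM]
      have e : nuS m 2 * dS ((m : ℝ) / 3) 2 / ((Nat.factorial 2 : ℕ) : ℝ) = m / (6 * ((m : ℝ) - 1)) := by
        rw [N9_nu2, N9_d2]
        norm_num [Nat.factorial]
        field_simp
        ring
      have h2 : (m : ℝ) / (6 * ((m : ℝ) - 1)) ≤ 1667 / 10000 := by
        rw [div_le_iff₀ (by linarith only [hM])]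
        linarith only [hM]
      rw [e, if_pos rfl]
      linarith only [h2, show (0 : ℝ) ≤ 613 / 10000 * (9087 / 10000) ^ 2 by positivity]
  have h2 := sum_le_sum h1
  rw [sum_add_distrib, ← mul_sum, sum_ite_eq'] at h2
  have h3 := N9_geo (m / 20)
  have h4 : 0 ≤ (9087 / 10000 : ℝ) ^ (m / 20) := by positivity
  unfold sparseS
  split_ifs at h2 <;> linarith only [h3, h4, h2]

end Pool.Agent.Work.MP_66fdf3_co.Full
end
end
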