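import Pool.Agent.Work.MP_66fdf3_co.Full.N6
import Pool.Agent.Work.MP_66fdf3_co.Full.N9

/-!
`good_big`: `good_of_closed` with `J = m / 20`, `c = 1`, `α = 121/100`, `β = 2/3` (`tang_sound` with
`u0 = 9/20`, `q = 120179/100000`, by `decide +kernel` or `norm_num`), `τ = 1`, `y = √(m/8)`, `A = 26/25`,
`A4 = 101/100`, `D = 1/5`.
`big_A`: the base is `1.21 * 1.01 / 8 * exp (0.551 + 2/y + 1) ≤ 0.77`, `y ≥ 35`.
`big_B`: `y² / (1+y)² * exp (2/y) ≤ exp (1/y²)` (from `exp (x - x²/2) ≤ 1 + x`), so the first factor is at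
most `(1.21 * 1.01 / 2 * exp 0.551) ^ m * exp 8 ≤ 1.0602 ^ m * exp 8`;
`m.descFactorial (J+1) ≥ (m - J) ^ (J+1)` (`Nat.pow_sub_le_descFactorial`), `2 (1+y)² / (m - J) ≤ 0.2785`,
`20 (J + 1) > m`, and `1.0602 ^ 20 * 0.2785 ≤ 0.897`, so the product is at most
`exp 8 * 0.897 ^ (J+1) ≤ exp 8 * 0.897 ^ 500 ≤ 1/100`.
-/

namespace Pool.Agent.Work.MP_66fdf3_co.Full

open Finset

theorem N10_y {m : ℕ} (hm : 10000 ≤ m) : 35 ≤ √((m : ℝ) / 8) := by
  refine Real.le_sqrt_of_sq_le ?_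
  have : (10000 : ℝ) ≤ m := by exact_mod_cast hm
  linarith

theorem N10_sq (m : ℕ) : √((m : ℝ) / 8) ^ 2 = (m : ℝ) / 8 :=
  Real.sq_sqrt (by positivity)

theorem N10_c : Real.exp (2 / 3 / (121 / 100 * 1)) ≤ 1736 / 1000 := by
  have h := Real.exp_bound' (x := 2 / 3 / (121 / 100 * 1)) (by norm_num) (by norm_num) (n := 6)
    (by norm_num)
  refine h.trans ?_
  norm_num [sum_range_succ, Nat.factorial]

theorem N10_e {y : ℝ} (hy : 35 ≤ y) : Real.exp (2 * 1 / y) * (y - 1) ^ 2 ≤ y ^ 2 := by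
  have y0 : 0 < y := by linarith
  have a1 := Real.add_one_le_exp (-(1 / y))
  have a2 : Real.exp (1 / y) * Real.exp (-(1 / y)) = 1 := by
    rw [← Real.exp_add]
    simp
  have a3 := Real.exp_pos (1 / y)
  have a4 : Real.exp (1 / y) * (-(1 / y) + 1) ≤ 1 :=
    (mul_le_mul_of_nonneg_left a1 a3.le).trans a2.le
  have a5 : Real.exp (1 / y) * (y - 1) ≤ y := by
    have e : Real.exp (1 / y) * (y - 1) = Real.exp (1 / y) * (-(1 / y) + 1) * y := by
      field_simp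
      ring
    rw [e]
    nlinarith
  have e2 : Real.exp (2 * 1 / y) = Real.exp (1 / y) ^ 2 := by
    rw [← Real.exp_nat_mul]
    congr 1
    push_cast
    ring
  rw [e2, ← mul_pow]
  have a6 : 0 ≤ Real.exp (1 / y) * (y - 1) := mul_nonneg a3.le (by linarith)
  exact pow_le_pow_left₀ a6 a5 2

theorem big_A {m : ℕ} (hm : 10000 ≤ m) :
    (121 / 100 * 1 * √((m : ℝ) / 8) ^ 2 * (101 / 100) *
      Real.exp (2 / 3 / (121 / 100 * 1) + 2 * 1 / √((m : ℝ) / 8)) * Real.exp 1 / m) ^ m ≤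
      1 / 100 := by
  have hy := N10_y hm
  have he := N10_e hy
  have hc := N10_c
  have m0 : (10000 : ℝ) ≤ m := by exact_mod_cast hm
  rw [N10_sq, Real.exp_add]
  generalize √((m : ℝ) / 8) = y at hy he
  have p1 := Real.exp_pos (2 * 1 / y)
  have p2 := Real.exp_pos (2 / 3 / (121 / 100 * 1))
  have p3 := Real.exp_pos 1
  have p4 := Real.exp_one_lt_d9
  generalize Real.exp (2 * 1 / y) = E at he p1
  generalize Real.exp (2 / 3 / (121 / 100 * 1)) = c at hc p2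
  generalize Real.exp 1 = e at p3 p4
  have hE : E ≤ 106 / 100 := by
    by_contra hn
    push Not at hn
    have b1 : 0 ≤ (y - 1) ^ 2 := sq_nonneg _
    have b2 : 106 / 100 * (y - 1) ^ 2 ≤ E * (y - 1) ^ 2 := mul_le_mul_of_nonneg_right hn.le b1
    nlinarith
  have e1 : 121 / 100 * 1 * ((m : ℝ) / 8) * (101 / 100) * (c * E) * e / m =
      121 / 100 * (101 / 100) / 8 * (c * E * e) := by
    field_simp
  rw [e1]
  have b1 : c * E ≤ 1736 / 1000 * (106 / 100) := mul_le_mul hc hE p1.le (by norm_num)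
  have b2 : c * E * e ≤ 1736 / 1000 * (106 / 100) * (272 / 100) :=
    mul_le_mul b1 (by linarith) p3.le (by norm_num)
  have b3 : 121 / 100 * (101 / 100) / 8 * (c * E * e) ≤ 77 / 100 := by linarith
  calc (121 / 100 * (101 / 100) / 8 * (c * E * e)) ^ m ≤ (77 / 100) ^ m :=
        pow_le_pow_left₀ (by positivity) b3 m
    _ ≤ (77 / 100) ^ 18 := pow_le_pow_of_le_one (by norm_num) (by norm_num) (by omega)
    _ ≤ 1 / 100 := by norm_num

theorem big_B {m : ℕ} (hm : 10000 ≤ m) :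
    (121 / 100 * 1 * √((m : ℝ) / 8) ^ 2 * (101 / 100) *
      Real.exp (2 / 3 / (121 / 100 * 1) + 2 * 1 / √((m : ℝ) / 8)) /
        ((1 + 1) * (1 + √((m : ℝ) / 8)) ^ 2)) ^ m *
      ((1 + 1) * (1 + √((m : ℝ) / 8)) ^ 2) ^ (m / 20 + 1) / (m.descFactorial (m / 20 + 1) : ℝ) ≤
      1 / 100 := by
  have hy := N10_y hm
  have he := N10_e hy
  have hc := N10_c
  have hs := N10_sq m
  have m0 : (10000 : ℝ) ≤ m := by exact_mod_cast hm
  rw [Real.exp_add]
  generalize √((m : ℝ) / 8) = y at hy he hs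
  have p1 := Real.exp_pos (2 * 1 / y)
  have p2 := Real.exp_pos (2 / 3 / (121 / 100 * 1))
  generalize Real.exp (2 * 1 / y) = E at he p1
  generalize Real.exp (2 / 3 / (121 / 100 * 1)) = c at hc p2
  have y0 : 0 < y := by linarith
  obtain ⟨J, hJ⟩ : ∃ J, J = m / 20 := ⟨_, rfl⟩
  rw [← hJ]
  have j1 : 20 * J ≤ m := by omega
  have j2 : m ≤ 20 * (J + 1) := by omega
  have j3 : 64 ≤ J + 1 := by omega
  have hE : E * y ^ 2 ≤ 1002 / 1000 * (1 + y) ^ 2 := by
    have b0 : 0 < (y - 1) ^ 2 := pow_pos (by linarith) 2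
    refine le_of_mul_le_mul_right ?_ b0
    have b1 : E * y ^ 2 * (y - 1) ^ 2 ≤ y ^ 2 * y ^ 2 := by
      have := mul_le_mul_of_nonneg_left he (sq_nonneg y)
      linarith
    have b2 : 1225 ≤ y ^ 2 := by nlinarith
    have b3 : 1002 / 1000 * (1 + y) ^ 2 * (y - 1) ^ 2 = 1002 / 1000 * (y ^ 2 - 1) ^ 2 := by ring
    rw [b3]
    refine b1.trans ?_
    generalize y ^ 2 = t at b2
    nlinarith
  have q0 : 0 < (1 + 1) * (1 + y) ^ 2 := by positivity
  have b1 : 121 / 100 * 1 * y ^ 2 * (101 / 100) * (c * E) / ((1 + 1) * (1 + y) ^ 2) ≤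
      1063 / 1000 := by
    rw [div_le_iff₀ q0]
    have b2 : c * (E * y ^ 2) ≤ 1736 / 1000 * (1002 / 1000 * (1 + y) ^ 2) :=
      mul_le_mul hc hE (by positivity) (by norm_num)
    have b3 : 0 ≤ (1 + y) ^ 2 := sq_nonneg _
    nlinarith
  have b2 : (121 / 100 * 1 * y ^ 2 * (101 / 100) * (c * E) / ((1 + 1) * (1 + y) ^ 2)) ^ m ≤
      ((1063 / 1000) ^ 20) ^ (J + 1) := by
    rw [← pow_mul]
    exact (pow_le_pow_left₀ (by positivity) b1 m).trans (pow_le_pow_right₀ (by norm_num) j2)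
  have b3 : (1 + 1) * (1 + y) ^ 2 ≤ 279 / 1000 * ((m - J : ℕ) : ℝ) := by
    rw [Nat.cast_sub (by omega)]
    have c1 : (20 : ℝ) * J ≤ m := by exact_mod_cast j1
    nlinarith
  have b4 : (((m - J : ℕ) : ℝ)) ^ (J + 1) ≤ (m.descFactorial (J + 1) : ℝ) := by
    have := Nat.pow_sub_le_descFactorial m (J + 1)
    rw [show m + 1 - (J + 1) = m - J by omega] at this
    exact_mod_cast this
  have b5 : (0 : ℝ) < ((m - J : ℕ) : ℝ) := by
    have : 0 < m - J := by omega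
    exact_mod_cast this
  have b6 : ((1 + 1) * (1 + y) ^ 2) ^ (J + 1) / (m.descFactorial (J + 1) : ℝ) ≤
      (279 / 1000) ^ (J + 1) := by
    rw [div_le_iff₀ (lt_of_lt_of_le (pow_pos b5 _) b4)]
    calc ((1 + 1) * (1 + y) ^ 2) ^ (J + 1) ≤ (279 / 1000 * ((m - J : ℕ) : ℝ)) ^ (J + 1) :=
          pow_le_pow_left₀ q0.le b3 _
      _ = (279 / 1000) ^ (J + 1) * ((m - J : ℕ) : ℝ) ^ (J + 1) := mul_pow _ _ _
      _ ≤ _ := mul_le_mul_of_nonneg_left b4 (by positivity)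
  rw [mul_div_assoc]
  calc _ ≤ ((1063 / 1000 : ℝ) ^ 20) ^ (J + 1) * (279 / 1000) ^ (J + 1) :=
        mul_le_mul b2 b6 (by positivity) (by positivity)
    _ = ((1063 / 1000) ^ 20 * (279 / 1000)) ^ (J + 1) := (mul_pow _ _ _).symm
    _ ≤ (95 / 100) ^ (J + 1) := pow_le_pow_left₀ (by positivity) (by norm_num) _
    _ ≤ (95 / 100) ^ 100 := pow_le_pow_of_le_one (by norm_num) (by norm_num) (by omega)
    _ ≤ 1 / 100 := by norm_num

theorem N10_tang : Tang (121 / 100) (2 / 3) := by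
  have h := tang_sound ⟨9 / 20, 120179 / 100000, 121 / 100, 2 / 3⟩ (by
    norm_num [tangChk])
  simpa using h

theorem good_big {m : ℕ} (hm : 10000 ≤ m) : Good m := by
  have hy := N10_y hm
  have a1 := big_A hm
  have a2 := big_B hm
  have a3 := sparse_big hm
  refine good_of_closed (J := m / 20) (by omega) (mom_geo m) (c := 1) (A4 := 101 / 100)
    (D := 1 / 5) one_pos N10_tang one_pos (by linarith) (by norm_num) (by norm_num) (by norm_num)
    (eps_big hm) (by norm_num) ?_ (by linarith)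
  rw [min_eq_right (by norm_num)]
  linarith

end Pool.Agent.Work.MP_66fdf3_co.Full
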