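import Pool.Agent.Work.MP_66fdf3_co.Full.N9

-- merged part: Pool.Agent.Work.MP_66fdf3_co.Full.Y1
section
/-!
The polynomials `gk`.
`gk_coef`: Vandermonde (`Nat.add_choose_eq`) and Cauchy-Schwarz:
`(∑ x_j)² ≤ (∑ x_j² w_j) (∑ 1 / w_j)` with `w = a! b! / (k^a k'^b)`, and
`∑ k^a k'^b / (a! b!) = (k + k')^i / i!` (`add_pow`).
`gk_add`: sum `gk_coef` against `u ^ (k + k' - i)`; terms with `a > k` or `b > k'` vanish; compare with the
product of the two sums (`Finset.sum_mul_sum`).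
`gk_six`: `gk 6 u ^ 2 ≤ gk 4 u ^ 3` coefficientwise: `gk 4 u = u^4+4u^3+9/2u^2+3/2u+3/32`,
`gk 6 u = u^6+6u^5+25/2u^4+100/9u^3+25/6u^2+5/9u+5/324`.
`gk_le`: strong induction, `k = 4`, `k = 6`, or `k = 4 + k'` with `k' ≥ 4` even.
-/

namespace Pool.Agent.Work.MP_66fdf3_co.Full

open Finset Matrix

theorem gk_nonneg (k : ℕ) {u : ℝ} (hu : 0 ≤ u) : 0 ≤ gk k u := by
  unfold gk
  positivity

theorem gk_zero (u : ℝ) : gk 0 u = 1 := by
  simp [gk]

theorem gk_one (u : ℝ) : gk 1 u = u + 1 := by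
  simp [gk, sum_range_succ]

theorem gk_four (u : ℝ) : gk 4 u = u ^ 4 + 4 * u ^ 3 + 9 / 2 * u ^ 2 + 3 / 2 * u + 3 / 32 := by
  simp only [gk, sum_range_succ, sum_range_zero, Nat.choose, Nat.factorial]
  norm_num

theorem Y1_gk_six (u : ℝ) : gk 6 u =
    u ^ 6 + 6 * u ^ 5 + 25 / 2 * u ^ 4 + 100 / 9 * u ^ 3 + 25 / 6 * u ^ 2 + 5 / 9 * u + 5 / 324 := by
  simp only [gk, sum_range_succ, sum_range_zero, Nat.choose, Nat.factorial]
  norm_num

theorem Y1_exp_sum (x y : ℝ) (i : ℕ) :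
    ∑ q ∈ antidiagonal i, x ^ q.1 * y ^ q.2 / ((q.1.factorial : ℝ) * (q.2.factorial : ℝ)) =
      (x + y) ^ i / (i.factorial : ℝ) := by
  rw [(Commute.all x y).add_pow', sum_div]
  refine sum_congr rfl fun q hq => ?_
  have hq' := mem_antidiagonal.1 hq
  have h1 : (i.choose q.1 : ℝ) * (q.1.factorial : ℝ) * (q.2.factorial : ℝ) = i.factorial := by
    have := Nat.add_choose_mul_factorial_mul_factorial q.2 q.1
    rw [add_comm, hq'] at this
    rw [← this]
    push_cast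
    ring
  have h2 : (q.1.factorial : ℝ) ≠ 0 := by positivity
  have h3 : (q.2.factorial : ℝ) ≠ 0 := by positivity
  have h4 : (i.factorial : ℝ) ≠ 0 := by positivity
  rw [nsmul_eq_mul, div_eq_div_iff (mul_ne_zero h2 h3) h4, ← h1]
  ring

theorem gk_coef {k k' : ℕ} (hk : 0 < k) (hk' : 0 < k') (i : ℕ) :
    (((k + k').choose i : ℕ) : ℝ) ^ 2 * (i.factorial : ℝ) / ((k + k' : ℕ) : ℝ) ^ i ≤
      ∑ q ∈ antidiagonal i, ((k.choose q.1 : ℝ) ^ 2 * (q.1.factorial : ℝ) / (k : ℝ) ^ q.1) *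
        ((k'.choose q.2 : ℝ) ^ 2 * (q.2.factorial : ℝ) / (k' : ℝ) ^ q.2) := by
  have hk0 : (0 : ℝ) < k := by exact_mod_cast hk
  have hk0' : (0 : ℝ) < k' := by exact_mod_cast hk'
  have key := sq_sum_div_le_sum_sq_div (antidiagonal i)
    (fun q : ℕ × ℕ => (k.choose q.1 : ℝ) * (k'.choose q.2 : ℝ))
    (g := fun q : ℕ × ℕ => (k : ℝ) ^ q.1 * (k' : ℝ) ^ q.2 /
      ((q.1.factorial : ℝ) * (q.2.factorial : ℝ))) (fun q _ => by positivity)
  rw [Y1_exp_sum] at key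
  have hv : (((k + k').choose i : ℕ) : ℝ) =
      ∑ q ∈ antidiagonal i, (k.choose q.1 : ℝ) * (k'.choose q.2 : ℝ) := by
    rw [Nat.add_choose_eq]
    push_cast
    rfl
  rw [← hv] at key
  refine le_of_eq_of_le ?_ (key.trans (le_of_eq (sum_congr rfl fun q _ => ?_)))
  · push_cast
    field_simp
  · field_simp

theorem gk_add {k k' : ℕ} (hk : 0 < k) (hk' : 0 < k') {u : ℝ} (hu : 0 ≤ u) :
    gk (k + k') u ≤ gk k u * gk k' u := by
  set F : ℕ × ℕ → ℝ := fun q =>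
    ((k.choose q.1 : ℝ) ^ 2 * (q.1.factorial : ℝ) / (k : ℝ) ^ q.1 * u ^ (k - q.1)) *
      ((k'.choose q.2 : ℝ) ^ 2 * (q.2.factorial : ℝ) / (k' : ℝ) ^ q.2 * u ^ (k' - q.2)) with hF
  have hz : ∀ q : ℕ × ℕ, ¬ (q.1 ≤ k ∧ q.2 ≤ k') → F q = 0 := by
    intro q hq
    rcases not_and_or.1 hq with h | h
    · simp [hF, Nat.choose_eq_zero_of_lt (not_le.1 h)]
    · simp [hF, Nat.choose_eq_zero_of_lt (not_le.1 h)]
  have h1 : gk (k + k') u ≤ ∑ i ∈ range (k + k' + 1), ∑ q ∈ antidiagonal i, F q := by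
    unfold gk
    refine sum_le_sum fun i hi => ?_
    refine (mul_le_mul_of_nonneg_right (gk_coef hk hk' i) (pow_nonneg hu _)).trans (le_of_eq ?_)
    rw [sum_mul]
    refine sum_congr rfl fun q hq => ?_
    have hq' := mem_antidiagonal.1 hq
    by_cases h : q.1 ≤ k ∧ q.2 ≤ k'
    · have e : k + k' - i = (k - q.1) + (k' - q.2) := by omega
      rw [e, pow_add]
      simp only [hF]
      ring
    · rw [hz q h]
      rcases not_and_or.1 h with h | h
      · simp [Nat.choose_eq_zero_of_lt (not_le.1 h)]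
      · simp [Nat.choose_eq_zero_of_lt (not_le.1 h)]
  refine h1.trans (le_of_eq ?_)
  rw [← sum_biUnion]
  · unfold gk
    rw [sum_mul_sum, ← sum_product']
    symm
    refine sum_subset ?_ ?_
    · intro q hq
      rw [mem_product, mem_range, mem_range] at hq
      exact mem_biUnion.2 ⟨q.1 + q.2, mem_range.2 (by omega), mem_antidiagonal.2 rfl⟩
    · intro q _ hq
      refine hz q fun h => hq ?_
      rw [mem_product, mem_range, mem_range]
      omega
  · intro i _ j _ hij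
    refine disjoint_left.2 fun q h1 h2 => hij ?_
    rw [← mem_antidiagonal.1 h1, mem_antidiagonal.1 h2]

theorem gk_six {u : ℝ} (hu : 0 ≤ u) : gk 6 u ^ 2 ≤ gk 4 u ^ 3 := by
  rw [gk_four, Y1_gk_six, ← sub_nonneg]
  ring_nf
  positivity

theorem gk_le {α β : ℝ} (h : Tang α β) {k : ℕ} (he : Even k) (h4 : 4 ≤ k) {u : ℝ} (hu : 0 ≤ u) :
    gk k u ≤ (α * u + β) ^ k := by
  obtain ⟨hα, hβ, hT⟩ := h
  have hb : 0 ≤ α * u + β := by positivity
  induction k using Nat.strong_induction_on with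
  | _ k ih =>
    by_cases e4 : k = 4
    · rw [e4]
      exact hT u hu
    by_cases e6 : k = 6
    · rw [e6]
      have h1 : gk 6 u ^ 2 ≤ ((α * u + β) ^ 6) ^ 2 := by
        refine (gk_six hu).trans ?_
        rw [← pow_mul, show 6 * 2 = 4 * 3 by rfl, pow_mul]
        exact pow_le_pow_left₀ (gk_nonneg 4 hu) (hT u hu) 3
      exact (pow_le_pow_iff_left₀ (gk_nonneg 6 hu) (pow_nonneg hb 6) two_ne_zero).1 h1
    obtain ⟨r, hr⟩ := he
    obtain ⟨k', rfl⟩ : ∃ k', k = 4 + k' := ⟨k - 4, by omega⟩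
    refine (gk_add (by norm_num) (by omega) hu).trans ?_
    rw [pow_add]
    exact mul_le_mul (hT u hu) (ih k' (by omega) ⟨r - 2, by omega⟩ (by omega)) (gk_nonneg _ hu)
      (pow_nonneg hb 4)

end Pool.Agent.Work.MP_66fdf3_co.Full
end

-- merged part: Pool.Agent.Work.MP_66fdf3_co.Full.ChkDefs
section
/-!
Executable checker: definitions only.  Fixed point scale is `2 ^ 24 = 16777216`.
-/

namespace Pool.Agent.Work.MP_66fdf3_co.Full

/-- A node: `z = (s / 2 ^ 16) ^ 2`, weight `mant / 2 ^ e`. -/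
structure Nd where
  s : ℕ
  mant : ℕ
  e : ℕ

noncomputable def Nd.z (n : Nd) : ℝ := ((n.s : ℝ) / 65536) ^ 2
noncomputable def Nd.p (n : Nd) : ℝ := (n.mant : ℝ) / 2 ^ n.e

/-- Newton iteration for the square root (only used as a heuristic). -/
def newt (n : ℕ) : ℕ → ℕ → ℕ
  | 0, x => x
  | f + 1, x => newt n f ((x + n / x) / 2)

def isq (n : ℕ) : ℕ := newt n 7 (2 ^ (n.log2 / 2 + 1))

/-- Parameters of one class check: `τ = T / 2 ^ 24`, `y = Y / 2 ^ 24`, `A = An / 2 ^ 24`,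
weight `wlo` on nodes with `s ≤ S` and `whi` on the others. -/
structure EP where
  M : ℕ
  T : ℕ
  Y : ℕ
  mode : Bool
  S : ℕ
  wlo : ℕ
  whi : ℕ
  An : ℕ

def EP.wt (P : EP) (n : Nd) : ℕ := if n.s ≤ P.S then P.wlo else P.whi

def etaOf (P : EP) (w X : ℕ) : ℕ :=
  min (16777216 ^ 2 / P.Y + 1)
    (if P.mode then
      2 * 16777216 ^ 2 / ((16777216 + X * 16777216 / P.T + w * (X * 16777216 / P.T) / P.M) +
        isq ((16777216 + X * 16777216 / P.T + w * (X * 16777216 / P.T) / P.M) ^ 2 -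
          4 * (X * 16777216 / P.T) * 16777216)) * 16777216 / P.T
    else P.M * 16777216 ^ 2 / (X * (P.M + w)))

/-- Product over `i < n` of the rounded factors `max 1 (ρ i / η)`. -/
def bprod (P : EP) (eta : ℕ) : ℕ → ℕ
  | 0 => 1
  | i + 1 => max 16777216 (min (16777216 ^ 3 / (P.Y * eta) + 1)
      ((P.M - i) * 16777216 ^ 3 / (P.M * P.T * eta) + 1)) * bprod P eta i

/-- Upper bound for `2 ^ 24 * p * Ψ ^ 2` when `X = excess`, `eta` are given. -/
def termAux (P : EP) (w : ℕ) (n : Nd) (X eta : ℕ) : ℕ :=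
  if 16777216 ^ 2 ≤ eta * P.Y then
    n.mant * 16777216 * (16777216 ^ 3 / (16777216 ^ 2 - eta * X) + 1) ^ (2 * w) /
      2 ^ (n.e + 48 * w) + 1
  else
    n.mant * 16777216 *
      (if P.mode then bprod P eta P.M else (16777216 ^ 3 / (eta * P.Y) + 1) ^ P.M) ^ 2 *
      (16777216 ^ 3 / (16777216 ^ 2 - eta * X) + 1) ^ (2 * w) / 2 ^ (n.e + 48 * (P.M + w)) + 1

/-- Sum of the weighted terms; `none` if a side condition fails. -/
def cellSum (P : EP) (r w : ℕ) : List Nd → ℕ → Option ℕ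
  | [], acc => some acc
  | n :: l, acc =>
    if P.wt n = 0 then cellSum P r w l acc
    else if n.s * r / 65536 + 1 ≤ P.T then
      cellSum P r w l (acc + P.wt n * (n.mant * 16777216 / 2 ^ n.e + 1))
    else if 0 < etaOf P w (n.s * r / 65536 + 1 - P.T) ∧
        etaOf P w (n.s * r / 65536 + 1 - P.T) * (n.s * r / 65536 + 1 - P.T) < 16777216 ^ 2 then
      cellSum P r w l (acc + P.wt n * termAux P w n (n.s * r / 65536 + 1 - P.T)
        (etaOf P w (n.s * r / 65536 + 1 - P.T)))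
    else none

/-- All classes with `μ1 ≤ μ ≤ μ2`, `d1 ≤ d ≤ d2` are fine. -/
def cellOK (P : EP) (l : List Nd) (μ1 μ2 d1 d2 : ℕ) : Bool :=
  decide (16777216 ^ 2 ≤ (isq (16777216 ^ 2 / d1) + 1) ^ 2 * d1) &&
  match cellSum P (isq (16777216 ^ 2 / d1) + 1) (min (μ2 * d2) (P.M - 1)) l 0 with
  | none => false
  | some s => decide (s * 16777216 ^ (μ1 * μ1) ≤ P.An ^ (μ1 * μ1) * 16777216)

def coverD (P : EP) (l : List Nd) (μ1 μ2 : ℕ) : List ℕ → ℕ → Bool
  | [], d1 => decide (P.M ≤ μ1 * d1)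
  | d2 :: ds, d1 => cellOK P l μ1 μ2 d1 d2 && coverD P l μ1 μ2 ds (d2 + 1)

def coverM (P : EP) (l : List Nd) : List (ℕ × List ℕ) → ℕ → Bool
  | [], μ1 => decide (P.M ≤ 4 * (μ1 * μ1))
  | g :: gs, μ1 => coverD P l μ1 g.1 g.2 (max 4 (3 * μ1)) && coverM P l gs (g.1 + 1)

def epsChk (P : EP) (l : List Nd) (gs : List (ℕ × List ℕ)) : Bool :=
  decide (0 < P.T) && decide (0 < P.Y) && decide (0 < P.M) && decide (16777216 ≤ P.An) &&
    coverM P l gs 1

/-- Full moment check for `n, n + 1, …, n + f - 1`; `t` holds the running terms. -/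
def momFull (l : List Nd) : ℕ → ℕ → List ℕ → ℕ → Bool
  | 0, _, _, _ => true
  | f + 1, n, t, F => decide (F ≤ t.sum) &&
      momFull l f (n + 1) (List.zipWith (fun a (b : Nd) => a * (b.s * b.s)) t l)
        (F * ((n + 1) * 4294967296))

/-- Chain of single nodes: node `g.1` dominates `n !` for `lo ≤ n ≤ g.2`; `F = lo !`. -/
def momChain : List (Nd × ℕ) → ℕ → ℕ → ℕ → Bool
  | [], lo, _, M => decide (M ≤ lo)
  | g :: gs, lo, F, M => decide (lo ≤ g.2) &&
      decide (F * 4294967296 ^ lo * 2 ^ g.1.e ≤ g.1.mant * (g.1.s * g.1.s) ^ lo) &&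
      decide (F * (lo + 1).ascFactorial (g.2 - lo) * 4294967296 ^ g.2 * 2 ^ g.1.e ≤
        g.1.mant * (g.1.s * g.1.s) ^ g.2) &&
      momChain gs g.2 (F * (lo + 1).ascFactorial (g.2 - lo)) M

/-- `G` handles `n ≤ n0` together, the single nodes handle `n0 ≤ n ≤ M`. -/
def momChk (G : List Nd) (n0 E : ℕ) (S : List (Nd × ℕ)) (M : ℕ) : Bool :=
  G.all (fun n => decide (n.e ≤ E)) &&
    momFull G (n0 + 1) 0 (G.map fun n => n.mant * 2 ^ (E - n.e)) (2 ^ E) &&
    momChain S n0 n0.factorial M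

/-- State `(ν j, ν (j+1), e j, e (j+1), acc)` with `e j = d j / j !`; `n` more steps. -/
def spLoop (m : ℕ) : ℕ → ℕ → ℚ → ℚ → ℚ → ℚ → ℚ → ℚ
  | 0, _, _, _, _, _, acc => acc
  | n + 1, j, a, b, c, d, acc =>
    spLoop m n (j + 1) b (((j : ℚ) + 1) * (2 * b + a) / ((m : ℚ) - ((j : ℚ) + 1))) d
      ((((j : ℚ) + 1) * d + (m : ℚ) / 3 * c) / ((j : ℚ) + 2)) (acc + b * d)

def spQ (m J : ℕ) : ℚ := 3 / 4 * spLoop m J 0 1 0 1 0 0

/-- Tangent data. -/
structure TG where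
  u0 : ℚ
  q : ℚ
  α : ℚ
  β : ℚ

def tangChk (t : TG) : Bool :=
  decide (0 ≤ t.u0) && decide (0 < t.q) &&
  decide ((t.u0 + 807 / 10000) * (t.u0 + 4365 / 10000) * (t.u0 + 11342 / 10000) *
    (t.u0 + 23488 / 10000) ≤ t.q ^ 4) &&
  decide (t.q / 4 * (1 / (t.u0 + 807 / 10000) + 1 / (t.u0 + 4365 / 10000) +
    1 / (t.u0 + 11342 / 10000) + 1 / (t.u0 + 23488 / 10000)) ≤ t.α) &&
  decide (t.q / 4 * (807 / 10000 / (t.u0 + 807 / 10000) + 4365 / 10000 / (t.u0 + 4365 / 10000) +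
    11342 / 10000 / (t.u0 + 11342 / 10000) + 23488 / 10000 / (t.u0 + 23488 / 10000)) ≤ t.β)

/-- Scalar factor of one term. -/
def termQ (m j1 j2 : ℕ) (c : ℚ) (P : EP) : ℚ :=
  max (Cf (m - j1) ((1 + c) * ((P.T : ℚ) / 16777216 + (P.Y : ℚ) / 16777216) ^ 2))
      (Cf (m - j2) ((1 + c) * ((P.T : ℚ) / 16777216 + (P.Y : ℚ) / 16777216) ^ 2)) *
    Gs m ((P.T : ℚ) / 16777216) ((P.Y : ℚ) / 16777216) ^ 2 *
    ((P.An : ℚ) / 16777216) ^ ((m - 1) / 4) / (m.factorial : ℚ)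

/-- One window with a single event. -/
def win1Chk (m j1 j2 : ℕ) (l : List Nd) (c D : ℚ) (t : TG) (P : EP) (g : List (ℕ × List ℕ)) :
    Bool :=
  decide (0 ≤ c) && decide (0 ≤ D) && tangChk t && decide (m ≤ P.M) && decide (P.wlo = 1) &&
    decide (P.whi = 1) && epsChk P l g &&
    decide (Gs m t.β (t.α * c) / min t.α t.β * termQ m j1 j2 c P ≤ D ^ 2)

/-- One window with two events. -/
def win2Chk (m j1 j2 : ℕ) (l : List Nd) (c D : ℚ) (t : TG) (P : EP) (g : List (ℕ × List ℕ))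
    (P' : EP) (g' : List (ℕ × List ℕ)) : Bool :=
  decide (0 ≤ c) && decide (0 ≤ D) && tangChk t && decide (m ≤ P.M) && decide (m ≤ P'.M) &&
    decide (P.wlo = 1) && decide (P.whi = 0) && decide (P'.wlo = 1) && decide (1 ≤ P'.whi) &&
    decide (P.S = P'.S) && epsChk P l g && epsChk P' l g' &&
    decide (Gs m t.β (t.α * c) / min t.α t.β *
      (termQ m j1 j2 c P + termQ m j1 j2 c P' / (P'.whi : ℚ)) ≤ D ^ 2)

/-- Rational upper bound for `exp x`, valid for `0 ≤ x ≤ 4`. -/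
def expUp (x : ℚ) : ℚ :=
  (∑ i ∈ Finset.range 12, (x / 4) ^ i / (i.factorial : ℚ) +
    (x / 4) ^ 12 * 13 / (479001600 * 12)) ^ 4

/-- A whole range `ma ≤ m ≤ mb` with one window and one event. -/
def rangeChk (ma mb J : ℕ) (l : List Nd) (c D A4 ρA ρB : ℚ) (t : TG) (P : EP)
    (g : List (ℕ × List ℕ)) : Bool :=
  decide (0 < c) && decide (0 ≤ D) && tangChk t && decide (mb ≤ P.M) && decide (P.wlo = 1) &&
    decide (P.whi = 1) && decide (J < ma) && decide (1 ≤ A4) &&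
    decide ((P.An : ℚ) / 16777216 ≤ A4 ^ 4) &&
    decide (t.β / (t.α * c) + 2 * (P.T : ℚ) / (P.Y : ℚ) ≤ 4) &&
    decide (t.α * c * ((P.Y : ℚ) / 16777216) ^ 2 * A4 *
      expUp (t.β / (t.α * c) + 2 * (P.T : ℚ) / (P.Y : ℚ)) * (27182818286 / 10000000000) ≤
      ρA * ma) && decide (ρA ≤ 1) &&
    decide (t.α * c * ((P.Y : ℚ) / 16777216) ^ 2 * A4 *
      expUp (t.β / (t.α * c) + 2 * (P.T : ℚ) / (P.Y : ℚ)) ≤
      ρB * ((1 + c) * ((P.T : ℚ) / 16777216 + (P.Y : ℚ) / 16777216) ^ 2)) && decide (1 ≤ ρB) &&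
    decide (ρA ^ ma + ρB ^ mb *
      ((1 + c) * ((P.T : ℚ) / 16777216 + (P.Y : ℚ) / 16777216) ^ 2) ^ (J + 1) /
        (ma.descFactorial (J + 1) : ℚ) ≤ min t.α t.β * D ^ 2) &&
    decide (spQ ma J + D < 1) && epsChk P l g

end Pool.Agent.Work.MP_66fdf3_co.Full
end

-- merged part: Pool.Agent.Work.MP_66fdf3_co.Full.N1
section
/-!
Soundness of the node sums.  Write `U = 16777216 = 2 ^ 24`, `τ = T / U`, `y = Y / U`, `x = X / U`,
`η = eta / U`.  The values of `etaOf` and `isq` are irrelevant (never unfold them).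
`bprod_sound`: every factor `f i / U` is at least `max 1 (ρ i / η)`, where `ρ i = min (1/y) ((M-i)/(M τ))`
(`Nat.lt_div_mul_add`-type bound `a / b < a / b + 1` in `ℝ`: `Nat.cast_div_le`, `Nat.lt_floor_add_one`, or
`Nat.lt_mul_div_succ`); `Rho N = η ^ N * ∏ i < N, ρ i / η ≤ η ^ N * ∏ i < M, f i / U`.
`termAux_sound`: take `B = 1` if `U² ≤ eta Y` (`Rho_le_pow`, `1 / y ≤ η`), `B = bprod / U ^ M` in mode
`true`, `B = ((U³ / (eta Y) + 1) / U) ^ M` otherwise (there `1 ≤ 1 / (η y)`), and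
`Ψ = B * (bs / U) ^ w` with `bs = U³ / (U² - eta X) + 1`; `U ^ 2 = 2 ^ 48`.
`cellSum_sound`: induction on the list; `Ψ` is a function on nodes which does not depend on the list
(choose it first with `termAux_sound`); `(n.s / 65536) * (r / U) ≤ t / U` for `t = n.s * r / 65536 + 1`,
use `PsiOK.mono`, `psiOK_zero`.
-/

namespace Pool.Agent.Work.MP_66fdf3_co.Full

open Finset

theorem N1_div (a b : ℕ) (hb : 0 < b) : (a : ℝ) / b ≤ ((a / b + 1 : ℕ) : ℝ) := by
  have h := Nat.lt_mul_div_succ a hb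
  have hb' : (0 : ℝ) < b := by exact_mod_cast hb
  rw [div_le_iff₀ hb']
  have : (a : ℝ) < b * ((a / b + 1 : ℕ) : ℝ) := by exact_mod_cast h
  linarith only [this]

theorem N1_bprod (P : EP) (eta k : ℕ) : (bprod P eta k : ℝ) / 16777216 ^ k =
    ∏ i ∈ range k, ((max 16777216 (min (16777216 ^ 3 / (P.Y * eta) + 1)
      ((P.M - i) * 16777216 ^ 3 / (P.M * P.T * eta) + 1)) : ℕ) : ℝ) / 16777216 := by
  induction k with
  | zero => simp [bprod]
  | succ k ih =>
    rw [prod_range_succ, ← ih, bprod, Nat.cast_mul, pow_succ (16777216 : ℝ) k]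
    field_simp

theorem bprod_sound (P : EP) (hT : 0 < P.T) (hY : 0 < P.Y) (hM : 0 < P.M) {eta : ℕ} (h1 : 0 < eta)
    {N : ℕ} (hN : N ≤ P.M) :
    Rho P.M ((P.T : ℝ) / 16777216) ((P.Y : ℝ) / 16777216) N ≤
      (bprod P eta P.M : ℝ) / 16777216 ^ P.M * ((eta : ℝ) / 16777216) ^ N := by
  have hT' : (0 : ℝ) < P.T := by exact_mod_cast hT
  have hY' : (0 : ℝ) < P.Y := by exact_mod_cast hY
  have hM' : (0 : ℝ) < P.M := by exact_mod_cast hM
  have he : (0 : ℝ) < eta := by exact_mod_cast h1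
  rw [N1_bprod]
  set f : ℕ → ℝ := fun i => ((max 16777216 (min (16777216 ^ 3 / (P.Y * eta) + 1)
      ((P.M - i) * 16777216 ^ 3 / (P.M * P.T * eta) + 1)) : ℕ) : ℝ) / 16777216 with hf
  have f1 : ∀ i, 1 ≤ f i := fun i => by
    rw [hf]
    simp only
    rw [le_div_iff₀ (by norm_num), one_mul]
    exact_mod_cast le_max_left _ _
  have f2 : ∀ i, i < P.M → min (1 / ((P.Y : ℝ) / 16777216))
      (((P.M : ℝ) - i) / ((P.M : ℝ) * ((P.T : ℝ) / 16777216))) ≤ f i * ((eta : ℝ) / 16777216) := by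
    intro i hi
    have a1 := N1_div (16777216 ^ 3) (P.Y * eta) (Nat.mul_pos hY h1)
    have a2 := N1_div ((P.M - i) * 16777216 ^ 3) (P.M * P.T * eta)
      (Nat.mul_pos (Nat.mul_pos hM hT) h1)
    have a3 : min (((16777216 ^ 3 / (P.Y * eta) + 1 : ℕ) : ℝ))
        ((((P.M - i) * 16777216 ^ 3 / (P.M * P.T * eta) + 1 : ℕ) : ℝ)) ≤ f i * 16777216 := by
      rw [hf]
      simp only
      rw [div_mul_cancel₀ _ (by norm_num), ← Nat.cast_min]
      exact_mod_cast le_max_right _ _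
    have a4 := (min_le_min a1 a2).trans a3
    have e1 : 1 / ((P.Y : ℝ) / 16777216) =
        ((16777216 ^ 3 : ℕ) : ℝ) / ((P.Y * eta : ℕ) : ℝ) * (eta / 16777216 ^ 2) := by
      push_cast
      field_simp
      norm_num
    have e2 : ((P.M : ℝ) - i) / ((P.M : ℝ) * ((P.T : ℝ) / 16777216)) =
        (((P.M - i) * 16777216 ^ 3 : ℕ) : ℝ) / ((P.M * P.T * eta : ℕ) : ℝ) *
          (eta / 16777216 ^ 2) := by
      rw [Nat.cast_mul, Nat.cast_sub hi.le]
      push_cast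
      field_simp
      norm_num
    rw [e1, e2, ← min_mul_of_nonneg _ _ (by positivity)]
    refine (mul_le_mul_of_nonneg_right a4 (by positivity)).trans (le_of_eq ?_)
    field_simp
  calc Rho P.M ((P.T : ℝ) / 16777216) ((P.Y : ℝ) / 16777216) N
      ≤ ∏ i ∈ range N, f i * ((eta : ℝ) / 16777216) := by
        refine prod_le_prod (fun i hi => ?_) (fun i hi => f2 i ?_)
        · have : (i : ℝ) ≤ P.M := by
            have := mem_range.1 hi
            exact_mod_cast (by omega : i ≤ P.M)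
          exact le_min (by positivity) (div_nonneg (by linarith only [this]) (by positivity))
        · have := mem_range.1 hi
          omega
    _ = (∏ i ∈ range N, f i) * ((eta : ℝ) / 16777216) ^ N := by
        rw [prod_mul_distrib, prod_const, card_range]
    _ ≤ _ := by
        refine mul_le_mul_of_nonneg_right ?_ (by positivity)
        exact prod_le_prod_of_subset_of_one_le (range_mono hN)
          (fun i _ => zero_le_one.trans (f1 i)) (fun i _ _ => f1 i)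

theorem termAux_sound (P : EP) (hT : 0 < P.T) (hY : 0 < P.Y) (hM : 0 < P.M) (w : ℕ) (n : Nd)
    {X eta : ℕ} (h1 : 0 < eta) (h2 : eta * X < 16777216 ^ 2) :
    ∃ Ψ : ℝ, PsiOK P.M ((P.T : ℝ) / 16777216) ((P.Y : ℝ) / 16777216) w ((X : ℝ) / 16777216) Ψ ∧
      n.p * Ψ ^ 2 * 16777216 ≤ (termAux P w n X eta : ℝ) := by
  have hT' : (0 : ℝ) < P.T := by exact_mod_cast hT
  have hY' : (0 : ℝ) < P.Y := by exact_mod_cast hY
  have he : (0 : ℝ) < eta := by exact_mod_cast h1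
  have hτ : (0 : ℝ) < (P.T : ℝ) / 16777216 := by positivity
  have hy : (0 : ℝ) < (P.Y : ℝ) / 16777216 := by positivity
  have h2' : (eta : ℝ) * X < 16777216 ^ 2 := by exact_mod_cast h2
  have hx : (eta : ℝ) / 16777216 * ((X : ℝ) / 16777216) < 1 := by
    rw [div_mul_div_comm, div_lt_one (by norm_num)]
    linarith only [h2']
  have hb := N1_div (16777216 ^ 3) (16777216 ^ 2 - eta * X) (by omega)
  unfold termAux
  generalize 16777216 ^ 3 / (16777216 ^ 2 - eta * X) + 1 = bs at hb ⊢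
  have hb' : (1 - (eta : ℝ) / 16777216 * ((X : ℝ) / 16777216))⁻¹ ≤ (bs : ℝ) / 16777216 := by
    rw [Nat.cast_sub h2.le] at hb
    push_cast at hb
    rw [le_div_iff₀ (by norm_num)]
    refine le_trans (le_of_eq ?_) hb
    have : (281474976710656 : ℝ) - eta * X ≠ 0 := by
      have : (0 : ℝ) < 281474976710656 - eta * X := by linarith only [h2']
      exact this.ne'
    have h3 : (1 - (eta : ℝ) / 16777216 * ((X : ℝ) / 16777216)) =
        (281474976710656 - eta * X) / 281474976710656 := by ring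
    rw [h3]
    field_simp
    norm_num
  have hi : (0 : ℝ) ≤ (1 - (eta : ℝ) / 16777216 * ((X : ℝ) / 16777216))⁻¹ :=
    inv_nonneg.2 (by linarith only [h2'])
  have key : ∀ (Bn k : ℕ), (∀ N, N ≤ P.M → Rho P.M ((P.T : ℝ) / 16777216) ((P.Y : ℝ) / 16777216) N ≤
        (Bn : ℝ) / 16777216 ^ k * ((eta : ℝ) / 16777216) ^ N) →
      ∃ Ψ : ℝ, PsiOK P.M ((P.T : ℝ) / 16777216) ((P.Y : ℝ) / 16777216) w ((X : ℝ) / 16777216) Ψ ∧
        n.p * Ψ ^ 2 * 16777216 ≤
          ((n.mant * 16777216 * Bn ^ 2 * bs ^ (2 * w) / 2 ^ (n.e + 48 * (k + w)) + 1 : ℕ) : ℝ) := by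
    intro Bn k hB
    refine ⟨(Bn : ℝ) / 16777216 ^ k * ((bs : ℝ) / 16777216) ^ w,
      ⟨(Bn : ℝ) / 16777216 ^ k, (eta : ℝ) / 16777216, by positivity, hx, hB, ?_⟩, ?_⟩
    · exact mul_le_mul_of_nonneg_left (pow_le_pow_left₀ hi hb' w) (by positivity)
    · refine le_trans (le_of_eq ?_) (N1_div _ _ (by positivity))
      have e : (2 : ℝ) ^ (n.e + 48 * (k + w)) = 2 ^ n.e * (16777216 ^ k) ^ 2 * (16777216 ^ w) ^ 2 := by
        have : (16777216 : ℝ) = 2 ^ 24 := by norm_num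
        rw [this, ← pow_mul, ← pow_mul, ← pow_mul, ← pow_mul, ← pow_add, ← pow_add]
        congr 1
        ring
      rw [Nd.p]
      push_cast
      rw [e, div_pow (bs : ℝ), mul_comm 2 w, pow_mul]
      field_simp
  split_ifs with c1 c2
  · have := key 1 0 fun N hN => by
      refine (Rho_le_pow P.M hτ hy hN).trans ?_
      simp only [Nat.cast_one, pow_zero, div_one, one_mul]
      refine pow_le_pow_left₀ (by positivity) ?_ N
      have : (16777216 : ℝ) ^ 2 ≤ eta * P.Y := by exact_mod_cast c1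
      rw [div_le_div_iff₀ hy (by norm_num)]
      rw [← mul_div_assoc, le_div_iff₀ (by norm_num)]
      linarith only [this]
    simpa only [one_pow, mul_one, zero_add] using this
  · exact key _ _ fun N hN => bprod_sound P hT hY hM h1 hN
  · refine key _ _ fun N hN => ?_
    have a1 := N1_div (16777216 ^ 3) (eta * P.Y) (Nat.mul_pos h1 hY)
    generalize 16777216 ^ 3 / (eta * P.Y) + 1 = g at a1 ⊢
    have c1' : (eta : ℝ) * P.Y < 16777216 ^ 2 := by exact_mod_cast not_le.1 c1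
    push_cast at a1 ⊢
    rw [div_le_iff₀ (by positivity)] at a1
    have g0 : (0 : ℝ) ≤ g := Nat.cast_nonneg _
    have g1 : (1 : ℝ) ≤ (g : ℝ) / 16777216 := by
      rw [le_div_iff₀ (by norm_num)]
      linarith only [a1, c1', mul_nonneg_of_nonpos_of_nonpos (Mathlib.Tactic.Linarith.sub_nonpos_of_le (Mathlib.Tactic.Linarith.natCast_nonneg ℝ g)) (le_of_lt (Mathlib.Tactic.Linarith.sub_neg_of_lt c1'))]
    have g2 : 1 / ((P.Y : ℝ) / 16777216) ≤ (g : ℝ) / 16777216 * ((eta : ℝ) / 16777216) := by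
      rw [div_le_iff₀ hy, div_mul_div_comm, div_mul_div_comm, le_div_iff₀ (by norm_num)]
      linarith only [a1]
    refine (Rho_le_pow P.M hτ hy hN).trans ((pow_le_pow_left₀ (by positivity) g2 N).trans ?_)
    rw [mul_pow, ← div_pow]
    exact mul_le_mul_of_nonneg_right (pow_le_pow_right₀ g1 hN) (by positivity)

theorem N1_step (P : EP) (hT : 0 < P.T) (hY : 0 < P.Y) (hM : 0 < P.M) (r w : ℕ) (n : Nd) :
    ∃ (Ψ : ℝ) (o : Option ℕ), (∀ l acc, cellSum P r w (n :: l) acc =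
        o.bind fun t => cellSum P r w l (acc + t)) ∧ ∀ t, o = some t → (P.wt n ≠ 0 →
        PsiOK P.M ((P.T : ℝ) / 16777216) ((P.Y : ℝ) / 16777216) w
          (max ((n.s : ℝ) / 65536 * ((r : ℝ) / 16777216) - (P.T : ℝ) / 16777216) 0) Ψ) ∧
      n.p * (P.wt n : ℝ) * Ψ ^ 2 * 16777216 ≤ t := by
  have hT' : (0 : ℝ) < P.T := by exact_mod_cast hT
  have hY' : (0 : ℝ) < P.Y := by exact_mod_cast hY
  have hτ : (0 : ℝ) < (P.T : ℝ) / 16777216 := by positivity
  have hy : (0 : ℝ) < (P.Y : ℝ) / 16777216 := by positivity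
  have a1 := N1_div (n.s * r) 65536 (by norm_num)
  have a2 : (n.s : ℝ) / 65536 * ((r : ℝ) / 16777216) ≤
      ((n.s * r / 65536 + 1 : ℕ) : ℝ) / 16777216 := by
    rw [← mul_div_assoc]
    refine div_le_div_of_nonneg_right (le_trans (le_of_eq ?_) a1) (by norm_num)
    push_cast
    ring
  by_cases c1 : P.wt n = 0
  · refine ⟨0, some 0, fun l acc => ?_, fun t ht => ⟨fun h => absurd c1 h, ?_⟩⟩
    · rw [cellSum, if_pos c1]
      rfl
    · simp
  by_cases c2 : n.s * r / 65536 + 1 ≤ P.T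
  · refine ⟨1, some (P.wt n * (n.mant * 16777216 / 2 ^ n.e + 1)), fun l acc => ?_,
      fun t ht => ⟨fun _ => ?_, ?_⟩⟩
    · rw [cellSum, if_neg c1, if_pos c2]
      rfl
    · have c2' : ((n.s * r / 65536 + 1 : ℕ) : ℝ) ≤ P.T := by exact_mod_cast c2
      have : (n.s : ℝ) / 65536 * ((r : ℝ) / 16777216) - (P.T : ℝ) / 16777216 ≤ 0 := by
        have := div_le_div_of_nonneg_right c2' (by norm_num : (0 : ℝ) ≤ 16777216)
        linarith only [a2, c2']
      rw [max_eq_right this]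
      exact psiOK_zero _ hτ hy _
    · rw [← Option.some.inj ht, Nat.cast_mul]
      have a3 := N1_div (n.mant * 16777216) (2 ^ n.e) (by positivity)
      refine le_trans (le_of_eq ?_) (mul_le_mul_of_nonneg_left a3 (Nat.cast_nonneg _))
      rw [Nd.p]
      push_cast
      ring
  by_cases c3 : 0 < etaOf P w (n.s * r / 65536 + 1 - P.T) ∧
      etaOf P w (n.s * r / 65536 + 1 - P.T) * (n.s * r / 65536 + 1 - P.T) < 16777216 ^ 2
  · obtain ⟨Ψ, h1, h2⟩ := termAux_sound P hT hY hM w n c3.1 c3.2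
    refine ⟨Ψ, some (P.wt n * termAux P w n (n.s * r / 65536 + 1 - P.T)
      (etaOf P w (n.s * r / 65536 + 1 - P.T))), fun l acc => ?_, fun t ht => ⟨fun _ => ?_, ?_⟩⟩
    · rw [cellSum, if_neg c1, if_neg c2, if_pos c3]
      rfl
    · refine h1.mono le_rfl (le_max_right _ _) (max_le ?_ (by positivity)) le_rfl
      rw [Nat.cast_sub (not_le.1 c2).le, sub_div]
      linarith only [a2]
    · rw [← Option.some.inj ht, Nat.cast_mul]
      refine le_trans (le_of_eq ?_) (mul_le_mul_of_nonneg_left h2 (Nat.cast_nonneg _))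
      ring
  · refine ⟨0, none, fun l acc => ?_, fun t ht => absurd ht (by simp)⟩
    rw [cellSum, if_neg c1, if_neg c2, if_neg c3]
    rfl

theorem cellSum_sound (P : EP) (hT : 0 < P.T) (hY : 0 < P.Y) (hM : 0 < P.M) (r w : ℕ) (l : List Nd)
    {acc s : ℕ} (h : cellSum P r w l acc = some s) :
    ∃ Ψ : Nd → ℝ, (∀ n ∈ l, P.wt n ≠ 0 →
        PsiOK P.M ((P.T : ℝ) / 16777216) ((P.Y : ℝ) / 16777216) w
          (max ((n.s : ℝ) / 65536 * ((r : ℝ) / 16777216) - (P.T : ℝ) / 16777216) 0) (Ψ n)) ∧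
      (l.map fun n => n.p * (P.wt n : ℝ) * Ψ n ^ 2).sum * 16777216 + acc ≤ s := by
  choose Ψ o ho hs using N1_step P hT hY hM r w
  refine ⟨Ψ, ?_⟩
  induction l generalizing acc with
  | nil =>
    rw [cellSum] at h
    rw [← Option.some.inj h]
    simp
  | cons n l ih =>
    rw [ho] at h
    obtain ⟨t, ht, h⟩ := Option.bind_eq_some_iff.1 h
    obtain ⟨i1, i2⟩ := ih h
    obtain ⟨j1, j2⟩ := hs n t ht
    refine ⟨fun n' hn' => ?_, ?_⟩
    · rcases List.mem_cons.1 hn' with rfl | hn'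
      · exact j1
      · exact i1 n' hn'
    · rw [List.map_cons, List.sum_cons, add_mul]
      push_cast at i2
      linarith only [j2, i2]

end Pool.Agent.Work.MP_66fdf3_co.Full
end

-- merged part: Pool.Agent.Work.MP_66fdf3_co.Full.N2
section
/-!
Soundness of `epsChk`.  `cellOK_sound`: with `r = isq .. + 1` and `U² ≤ r² d1` we get
`√(z / d) ≤ (s / 65536) * (r / U)` for `d ≥ d1`; `μ d ≤ min (μ2 d2) (M - 1)`; `PsiOK.mono`;
`A ^ (μ1²) ≤ A ^ (μ²)`.  `d1 > 0` follows from the first check.  Sums over `Fin l.length` are list sums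
(`Fin.sum_univ_getElem`, `List.sum_ofFn`, `List.ofFn_getElem`).
`coverD_sound`, `coverM_sound`: induction on the lists.
-/

namespace Pool.Agent.Work.MP_66fdf3_co.Full

open Finset

/-- The conclusion of `EpsOK` for one class. -/
def ClsOK (P : EP) (l : List Nd) (μ d : ℕ) : Prop :=
  ∃ Ψ : Fin l.length → ℝ, (∀ c : Fin l.length, ((P.wt l[c] : ℕ) : ℝ) ≠ 0 →
      PsiOK P.M ((P.T : ℝ) / 16777216) ((P.Y : ℝ) / 16777216) (μ * d)
        (max (√(l[c].z / d) - (P.T : ℝ) / 16777216) 0) (Ψ c)) ∧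
    ∑ c : Fin l.length, l[c].p * ((P.wt l[c] : ℕ) : ℝ) * Ψ c ^ 2 ≤ ((P.An : ℝ) / 16777216) ^ (μ ^ 2)

theorem cellOK_sound (P : EP) (hT : 0 < P.T) (hY : 0 < P.Y) (hM : 0 < P.M) (hA : 16777216 ≤ P.An)
    (l : List Nd) {μ1 μ2 d1 d2 : ℕ} (h : cellOK P l μ1 μ2 d1 d2 = true) {μ d : ℕ} (h1 : μ1 ≤ μ)
    (h2 : μ ≤ μ2) (h3 : d1 ≤ d) (h4 : d ≤ d2) (h5 : μ * d + 1 ≤ P.M) : ClsOK P l μ d := by
  unfold cellOK at h
  generalize isq (16777216 ^ 2 / d1) + 1 = r at h
  rw [Bool.and_eq_true, decide_eq_true_eq] at h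
  obtain ⟨hr, h⟩ := h
  split at h
  · exact absurd h (by simp)
  rename_i s hs
  rw [decide_eq_true_eq] at h
  obtain ⟨Ψ, hΨ, hsum⟩ := cellSum_sound P hT hY hM _ _ l hs
  have hd1 : 0 < d1 := by
    rcases Nat.eq_zero_or_pos d1 with h0 | h0
    · rw [h0] at hr
      norm_num at hr
    · exact h0
  have hd : (0 : ℝ) < d := by exact_mod_cast lt_of_lt_of_le hd1 h3
  refine ⟨fun c => Ψ l[c], fun c hc => ?_, ?_⟩
  · have hw : P.wt l[c] ≠ 0 := by exact_mod_cast hc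
    refine (hΨ l[c] (List.getElem_mem _) hw).mono ?_ (le_max_right _ _) ?_ le_rfl
    · exact le_min (Nat.mul_le_mul h2 h4) (by omega)
    · refine max_le_max ?_ le_rfl
      refine sub_le_sub_right ?_ _
      refine Real.sqrt_le_iff.2 ⟨by positivity, ?_⟩
      rw [Nd.z, mul_pow, div_eq_mul_inv]
      refine mul_le_mul_of_nonneg_left ?_ (by positivity)
      have h6 : (16777216 : ℝ) ^ 2 ≤ (r : ℝ) ^ 2 * d := by
        have : 16777216 ^ 2 ≤ r ^ 2 * d := hr.trans (Nat.mul_le_mul_left _ h3)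
        exact_mod_cast this
      rw [div_pow, inv_eq_one_div, div_le_div_iff₀ hd (by positivity)]
      linarith only [h6]
  · have e1 : ∑ c : Fin l.length, l[c].p * ((P.wt l[c] : ℕ) : ℝ) * Ψ l[c] ^ 2 =
        (l.map fun n => n.p * (P.wt n : ℝ) * Ψ n ^ 2).sum :=
      Fin.sum_univ_fun_getElem l fun n => n.p * (P.wt n : ℝ) * Ψ n ^ 2
    rw [e1]
    have hA' : (1 : ℝ) ≤ (P.An : ℝ) / 16777216 := by
      rw [le_div_iff₀ (by norm_num), one_mul]
      exact_mod_cast hA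
    have h7 : (s : ℝ) * 16777216 ^ (μ1 * μ1) ≤ (P.An : ℝ) ^ (μ1 * μ1) * 16777216 := by
      exact_mod_cast h
    have h8 : (s : ℝ) ≤ ((P.An : ℝ) / 16777216) ^ (μ1 * μ1) * 16777216 := by
      rw [div_pow, div_mul_eq_mul_div, le_div_iff₀ (by positivity)]
      exact h7
    have h9 : ((P.An : ℝ) / 16777216) ^ (μ1 * μ1) ≤ ((P.An : ℝ) / 16777216) ^ (μ ^ 2) :=
      pow_le_pow_right₀ hA' (by rw [sq]; exact Nat.mul_le_mul h1 h1)
    simp only [Nat.cast_zero, add_zero] at hsum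
    linarith only [h8, h9, hsum]

theorem coverD_sound (P : EP) (hT : 0 < P.T) (hY : 0 < P.Y) (hM : 0 < P.M) (hA : 16777216 ≤ P.An)
    (l : List Nd) {μ1 μ2 : ℕ} (ds : List ℕ) {d1 : ℕ} (h : coverD P l μ1 μ2 ds d1 = true) {μ d : ℕ}
    (h1 : μ1 ≤ μ) (h2 : μ ≤ μ2) (h3 : d1 ≤ d) (h5 : μ * d + 1 ≤ P.M) : ClsOK P l μ d := by
  induction ds generalizing d1 with
  | nil =>
    rw [coverD, decide_eq_true_eq] at h
    have := Nat.mul_le_mul h1 h3
    omega
  | cons d2 ds ih =>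
    rw [coverD, Bool.and_eq_true] at h
    by_cases h4 : d ≤ d2
    · exact cellOK_sound P hT hY hM hA l h.1 h1 h2 h3 h4 h5
    · exact ih h.2 (by omega)

theorem coverM_sound (P : EP) (hT : 0 < P.T) (hY : 0 < P.Y) (hM : 0 < P.M) (hA : 16777216 ≤ P.An)
    (l : List Nd) (gs : List (ℕ × List ℕ)) {μ1 : ℕ} (h : coverM P l gs μ1 = true) {μ d : ℕ}
    (h1 : μ1 ≤ μ) (h3 : 4 ≤ d) (h4 : 3 * μ ≤ d) (h6 : 4 * μ ^ 2 + 1 ≤ P.M) (h5 : μ * d + 1 ≤ P.M) :
    ClsOK P l μ d := by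
  induction gs generalizing μ1 with
  | nil =>
    rw [coverM, decide_eq_true_eq] at h
    have := Nat.mul_le_mul h1 h1
    rw [sq] at h6
    omega
  | cons g gs ih =>
    rw [coverM, Bool.and_eq_true] at h
    by_cases h2 : μ ≤ g.1
    · exact coverD_sound P hT hY hM hA l g.2 h.1 h1 h2 (max_le h3 (by omega)) h5
    · exact ih h.2 (by omega)

theorem epsChk_sound (P : EP) (l : List Nd) (gs : List (ℕ × List ℕ)) (h : epsChk P l gs = true) :
    0 < P.T ∧ 0 < P.Y ∧ 0 < P.M ∧ 16777216 ≤ P.An ∧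
      EpsOK P.M (fun c : Fin l.length => l[c].p) (fun c : Fin l.length => l[c].z)
        ((P.T : ℝ) / 16777216) ((P.Y : ℝ) / 16777216) (fun c => ((P.wt l[c] : ℕ) : ℝ))
        ((P.An : ℝ) / 16777216) := by
  simp only [epsChk, Bool.and_eq_true, decide_eq_true_eq] at h
  obtain ⟨⟨⟨⟨hT, hY⟩, hM⟩, hA⟩, h⟩ := h
  exact ⟨hT, hY, hM, hA, fun μ d h1 h3 h4 h6 h5 =>
    coverM_sound P hT hY hM hA l gs h h1 h3 h4 h6 h5⟩

end Pool.Agent.Work.MP_66fdf3_co.Full
end

-- merged part: Pool.Agent.Work.MP_66fdf3_co.Full.N4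
section
/-!
`tang_sound`: with `r = (0.0807, 0.4365, 1.1342, 2.3488)`, `gk 4 u ≤ ∏ (u + r i)` (`gk_four`, compare
coefficients), and with `a i = (u + r i) / (u0 + r i)`, AM-GM for four numbers
`a1 a2 a3 a4 ≤ ((a1 + a2 + a3 + a4) / 4) ^ 4`, so `∏ (u + r i) ≤ (q * mean) ^ 4 ≤ (α u + β) ^ 4`.
`spLoop_eq`: induction on `n`.  `expUp_sound`: `Real.exp_bound'` with `n = 12` at `x / 4`.
`nuS_anti`, `dS_anti`: two-step induction; with `s = √m`, `a j = nuS m j * s ^ j` satisfies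
`a (j+2) = (j+1) * (2 * a (j+1) / s + a j) / (1 - (j+1) / m)`, which decreases with `m`; similarly
`b j = dS (m/3) j / s ^ j` satisfies `b (j+2) = (j+1) * (b (j+1) / s + b j / 3)`.
-/

namespace Pool.Agent.Work.MP_66fdf3_co.Full

open Finset

theorem N4_amgm {a b c d : ℝ} (ha : 0 ≤ a) (hb : 0 ≤ b) (hc : 0 ≤ c) (hd : 0 ≤ d) :
    a * b * c * d ≤ ((a + b + c + d) / 4) ^ 4 := by
  have h1 : a * b ≤ ((a + b) / 2) ^ 2 := by linarith only [sq_nonneg (a - b), sq_nonneg (a - b)]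
  have h2 : c * d ≤ ((c + d) / 2) ^ 2 := by linarith only [sq_nonneg (c - d), sq_nonneg (c - d)]
  have h3 : (a + b) / 2 * ((c + d) / 2) ≤ ((a + b + c + d) / 4) ^ 2 := by
    linarith only [sq_nonneg (a + b - c - d), sq_nonneg (a + b - c - d)]
  calc a * b * c * d = (a * b) * (c * d) := by ring
    _ ≤ ((a + b) / 2) ^ 2 * ((c + d) / 2) ^ 2 :=
      mul_le_mul h1 h2 (mul_nonneg hc hd) (sq_nonneg _)
    _ = ((a + b) / 2 * ((c + d) / 2)) ^ 2 := by ring
    _ ≤ (((a + b + c + d) / 4) ^ 2) ^ 2 := pow_le_pow_left₀ (by positivity) h3 2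
    _ = _ := by ring

theorem N4_tang {u0 q α β r1 r2 r3 r4 : ℝ} (h0 : 0 ≤ u0) (hq : 0 < q) (p1 : 0 < r1) (p2 : 0 < r2)
    (p3 : 0 < r3) (p4 : 0 < r4) (h1 : (u0 + r1) * (u0 + r2) * (u0 + r3) * (u0 + r4) ≤ q ^ 4)
    (h2 : q / 4 * (1 / (u0 + r1) + 1 / (u0 + r2) + 1 / (u0 + r3) + 1 / (u0 + r4)) ≤ α)
    (h3 : q / 4 * (r1 / (u0 + r1) + r2 / (u0 + r2) + r3 / (u0 + r3) + r4 / (u0 + r4)) ≤ β) :
    0 < α ∧ 0 < β ∧ ∀ u, 0 ≤ u → (u + r1) * (u + r2) * (u + r3) * (u + r4) ≤ (α * u + β) ^ 4 := by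
  refine ⟨lt_of_lt_of_le (by positivity) h2, lt_of_lt_of_le (by positivity) h3, fun u hu => ?_⟩
  have k1 : 0 < u0 + r1 := by positivity
  have k2 : 0 < u0 + r2 := by positivity
  have k3 : 0 < u0 + r3 := by positivity
  have k4 : 0 < u0 + r4 := by positivity
  have key := N4_amgm (a := (u + r1) / (u0 + r1)) (b := (u + r2) / (u0 + r2))
    (c := (u + r3) / (u0 + r3)) (d := (u + r4) / (u0 + r4)) (by positivity) (by positivity)
    (by positivity) (by positivity)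
  set M := ((u + r1) / (u0 + r1) + (u + r2) / (u0 + r2) + (u + r3) / (u0 + r3) +
    (u + r4) / (u0 + r4)) / 4 with hM
  have hM0 : 0 ≤ M := by positivity
  have hqM : q * M ≤ α * u + β := by
    have e : q * M = q / 4 * (1 / (u0 + r1) + 1 / (u0 + r2) + 1 / (u0 + r3) + 1 / (u0 + r4)) * u +
        q / 4 * (r1 / (u0 + r1) + r2 / (u0 + r2) + r3 / (u0 + r3) + r4 / (u0 + r4)) := by
      rw [hM]
      ring
    rw [e]
    exact add_le_add (mul_le_mul_of_nonneg_right h2 hu) h3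
  calc (u + r1) * (u + r2) * (u + r3) * (u + r4)
      = ((u0 + r1) * (u0 + r2) * (u0 + r3) * (u0 + r4)) * ((u + r1) / (u0 + r1) *
        ((u + r2) / (u0 + r2)) * ((u + r3) / (u0 + r3)) * ((u + r4) / (u0 + r4))) := by
        field_simp
    _ ≤ q ^ 4 * M ^ 4 := mul_le_mul h1 key (by positivity) (by positivity)
    _ = (q * M) ^ 4 := by ring
    _ ≤ _ := pow_le_pow_left₀ (by positivity) hqM 4

theorem tang_sound (t : TG) (h : tangChk t = true) : Tang (t.α : ℝ) (t.β : ℝ) := by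
  simp only [tangChk, Bool.and_eq_true, decide_eq_true_eq] at h
  obtain ⟨⟨⟨⟨h0, hq⟩, h1⟩, h2⟩, h3⟩ := h
  have h1' := (Rat.cast_le (K := ℝ)).2 h1
  have h2' := (Rat.cast_le (K := ℝ)).2 h2
  have h3' := (Rat.cast_le (K := ℝ)).2 h3
  push_cast at h1' h2' h3'
  obtain ⟨a, b, c⟩ := N4_tang (u0 := t.u0) (q := t.q) (by exact_mod_cast h0) (by exact_mod_cast hq)
    (by norm_num) (by norm_num) (by norm_num) (by norm_num) h1' h2' h3'
  refine ⟨a, b, fun u hu => le_trans ?_ (c u hu)⟩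
  rw [gk_four, ← sub_nonneg]
  ring_nf
  positivity

theorem spLoop_eq (m n j : ℕ) (a b c d acc : ℚ) (ha : (a : ℝ) = nuS m j) (hb : (b : ℝ) = nuS m (j + 1))
    (hc : (c : ℝ) = dS ((m : ℝ) / 3) j / (j.factorial : ℝ))
    (hd : (d : ℝ) = dS ((m : ℝ) / 3) (j + 1) / ((j + 1).factorial : ℝ)) :
    ((spLoop m n j a b c d acc : ℚ) : ℝ) = (acc : ℝ) + ∑ i ∈ range n,
      nuS m (j + 1 + i) * dS ((m : ℝ) / 3) (j + 1 + i) / ((j + 1 + i).factorial : ℝ) := by
  induction n generalizing j a b c d acc with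
  | zero => simp [spLoop]
  | succ n ih =>
    rw [spLoop, ih (j + 1) _ _ _ _ _ hb ?_ hd ?_, sum_range_succ']
    · push_cast
      rw [hb, hd, add_assoc, add_comm (∑ _ ∈ _, _), mul_div_assoc]
      congr 2
      refine sum_congr rfl fun i _ => ?_
      rw [show j + 1 + 1 + i = j + 1 + (i + 1) by ring]
    · push_cast
      rw [ha, hb, nuS]
    · push_cast
      rw [hc, hd, dS, Nat.factorial_succ (j + 1), Nat.factorial_succ j]
      push_cast
      field_simp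
      ring

theorem spQ_sound (m J : ℕ) : ((spQ m J : ℚ) : ℝ) = sparseS m J := by
  unfold spQ sparseS
  push_cast
  rw [spLoop_eq m J 0 1 0 1 0 0 (by simp [nuS]) (by simp [nuS]) (by simp [dS]) (by simp [dS]),
    ← Finset.Ico_add_one_right_eq_Icc, sum_Ico_eq_sum_range]
  simp

theorem expUp_sound {x : ℚ} (h0 : 0 ≤ x) (h4 : x ≤ 4) : Real.exp (x : ℝ) ≤ ((expUp x : ℚ) : ℝ) := by
  have h0' : (0 : ℝ) ≤ x := by exact_mod_cast h0
  have h4' : (x : ℝ) ≤ 4 := by exact_mod_cast h4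
  have key := Real.exp_bound' (x := (x : ℝ) / 4) (by positivity) (by linarith only [h4']) (n := 12) (by norm_num)
  have e : Real.exp (x : ℝ) = Real.exp ((x : ℝ) / 4) ^ 4 := by
    rw [← Real.exp_nat_mul]
    congr 1
    push_cast
    ring
  rw [e]
  unfold expUp
  push_cast
  refine pow_le_pow_left₀ (Real.exp_pos _).le (key.trans (le_of_eq ?_)) 4
  norm_num [Nat.factorial]

theorem nuS_anti {ma m j : ℕ} (h : ma ≤ m) (hj : j ≤ ma) :
    nuS m j * √(m : ℝ) ^ j ≤ nuS ma j * √(ma : ℝ) ^ j := by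
  have hm : (ma : ℝ) ≤ m := by exact_mod_cast h
  have hs : √(ma : ℝ) ≤ √(m : ℝ) := Real.sqrt_le_sqrt hm
  have s0 : 0 ≤ √(ma : ℝ) := Real.sqrt_nonneg _
  have e1 : √(m : ℝ) ^ 2 = m := Real.sq_sqrt (by positivity)
  have e2 : √(ma : ℝ) ^ 2 = ma := Real.sq_sqrt (by positivity)
  induction j using Nat.strong_induction_on with
  | _ j ih =>
    match j, ih, hj with
    | 0, _, _ => simp [nuS]
    | 1, _, _ => simp [nuS]
    | j + 2, ih, hj =>
      have i0 := ih j (by omega) (by omega)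
      have i1 := ih (j + 1) (by omega) (by omega)
      have c1 : (j : ℝ) + 1 < ma := by exact_mod_cast (by omega : j + 1 < ma)
      have d1 : 0 < (ma : ℝ) - (j + 1) := by linarith only [c1]
      have d2 : 0 < (m : ℝ) - (j + 1) := by linarith only [hm, c1]
      have c0 : (0 : ℝ) ≤ (j : ℝ) + 1 := by positivity
      have r1 : √(m : ℝ) / ((m : ℝ) - (j + 1)) ≤ √(ma : ℝ) / ((ma : ℝ) - (j + 1)) := by
        rw [div_le_div_iff₀ d2 d1]
        have t1 : 0 ≤ √(m : ℝ) * √(ma : ℝ) * (√(m : ℝ) - √(ma : ℝ)) :=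
          mul_nonneg (mul_nonneg (s0.trans hs) s0) (sub_nonneg.2 hs)
        have t2 : 0 ≤ ((j : ℝ) + 1) * (√(m : ℝ) - √(ma : ℝ)) := mul_nonneg c0 (sub_nonneg.2 hs)
        generalize √(m : ℝ) = s at *
        generalize √(ma : ℝ) = t at *
        rw [← e1, ← e2]
        linarith only [t1, t2]
      have r2 : (m : ℝ) / ((m : ℝ) - (j + 1)) ≤ (ma : ℝ) / ((ma : ℝ) - (j + 1)) := by
        rw [div_le_div_iff₀ d2 d1]
        linarith only [c0, hm, mul_nonneg c0 (sub_nonneg.2 hm)]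
      have form : ∀ n : ℕ, nuS n (j + 2) * √(n : ℝ) ^ (j + 2) = ((j : ℝ) + 1) *
          (2 * (nuS n (j + 1) * √(n : ℝ) ^ (j + 1) * (√(n : ℝ) / ((n : ℝ) - (j + 1)))) +
            nuS n j * √(n : ℝ) ^ j * ((n : ℝ) / ((n : ℝ) - (j + 1)))) := by
        intro n
        have e : √(n : ℝ) ^ 2 = n := Real.sq_sqrt (by positivity)
        rw [nuS]
        generalize √(n : ℝ) = s at *
        rw [show (n : ℝ) / ((n : ℝ) - (j + 1)) = s ^ 2 / ((n : ℝ) - (j + 1)) by rw [e]]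
        ring
      rw [form, form]
      have n0 : 0 ≤ nuS ma j * √(ma : ℝ) ^ j := mul_nonneg (nuS_nonneg (by omega)) (by positivity)
      have n1 : 0 ≤ nuS ma (j + 1) * √(ma : ℝ) ^ (j + 1) :=
        mul_nonneg (nuS_nonneg (by omega)) (by positivity)
      refine mul_le_mul_of_nonneg_left (add_le_add (mul_le_mul_of_nonneg_left ?_ (by norm_num)) ?_) c0
      · exact mul_le_mul i1 r1 (by positivity) n1
      · exact mul_le_mul i0 r2 (by positivity) n0

theorem dS_anti {ma m : ℕ} (h0 : 0 < ma) (h : ma ≤ m) (j : ℕ) :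
    dS ((m : ℝ) / 3) j / √(m : ℝ) ^ j ≤ dS ((ma : ℝ) / 3) j / √(ma : ℝ) ^ j := by
  have hm : (ma : ℝ) ≤ m := by exact_mod_cast h
  have hm0 : (0 : ℝ) < ma := by exact_mod_cast h0
  have hs : √(ma : ℝ) ≤ √(m : ℝ) := Real.sqrt_le_sqrt hm
  have s0 : 0 < √(ma : ℝ) := Real.sqrt_pos.2 hm0
  induction j using Nat.strong_induction_on with
  | _ j ih =>
    match j, ih with
    | 0, _ => simp [dS]
    | 1, _ => simp [dS]
    | j + 2, ih =>
      have i0 := ih j (by omega)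
      have i1 := ih (j + 1) (by omega)
      have form : ∀ x : ℝ, 0 < x → dS (x / 3) (j + 2) / √x ^ (j + 2) = ((j : ℝ) + 1) *
          (dS (x / 3) (j + 1) / √x ^ (j + 1) / √x + dS (x / 3) j / √x ^ j / 3) := by
        intro x hx
        have e : √x ^ 2 = x := Real.sq_sqrt hx.le
        have s1 : √x ≠ 0 := (Real.sqrt_pos.2 hx).ne'
        rw [dS]
        generalize dS (x / 3) (j + 1) = A
        generalize dS (x / 3) j = B
        generalize √x = s at *
        rw [← e]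
        field_simp
        ring
      rw [form _ hm0, form _ (hm0.trans_le hm)]
      refine mul_le_mul_of_nonneg_left (add_le_add ?_ ?_) (by positivity)
      · exact div_le_div₀ (div_nonneg (dS_nonneg (by positivity) _) (by positivity)) i1 s0 hs
      · exact div_le_div_of_nonneg_right i0 (by norm_num)

theorem sparse_anti {ma m J : ℕ} (h : ma ≤ m) (hJ : J < ma) : sparseS m J ≤ sparseS ma J := by
  unfold sparseS
  have h0 : 0 < ma := by omega
  have hm0 : (0 : ℝ) < ma := by exact_mod_cast h0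
  have hm1 : (0 : ℝ) < m := by exact_mod_cast (by omega : 0 < m)
  refine mul_le_mul_of_nonneg_left (sum_le_sum fun j hj => ?_) (by norm_num)
  have hj' : j ≤ ma := by
    have := (mem_Icc.1 hj).2
    omega
  refine div_le_div_of_nonneg_right ?_ (by positivity)
  have form : ∀ n : ℕ, (0 : ℝ) < n → nuS n j * dS ((n : ℝ) / 3) j =
      nuS n j * √(n : ℝ) ^ j * (dS ((n : ℝ) / 3) j / √(n : ℝ) ^ j) := by
    intro n hn
    have s1 : √(n : ℝ) ≠ 0 := (Real.sqrt_pos.2 hn).ne'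
    field_simp
  rw [form _ hm0, form _ hm1]
  exact mul_le_mul (nuS_anti h hj') (dS_anti h0 h j)
    (div_nonneg (dS_nonneg (by positivity) _) (by positivity))
    (mul_nonneg (nuS_nonneg hj') (by positivity))

end Pool.Agent.Work.MP_66fdf3_co.Full
end

-- merged part: Pool.Agent.Work.MP_66fdf3_co.Full.N6
section
/-!
Closed forms.  `closed_form`: `Gs_le_exp` three times, `A ^ ((m-1)/4) ≤ A4 ^ m`, `max a 1 ≤ 1 + a`
(`Cf 0 q = 1`), `m ^ m / m! ≤ exp m` (`Real.pow_div_factorial_le_exp`),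
`(m - (J+1))! * m.descFactorial (J+1) = m!` (`Nat.factorial_mul_descFactorial`).
`good_of_closed`: `k = m`, `D2 = 0`, `T = Unit`.
`range_sound`: `Real.exp_one_lt_d9`, `expUp_sound`; `(base e / m) ^ m ≤ ρA ^ m ≤ ρA ^ ma`,
`(base / q) ^ m ≤ ρB ^ mb`, `Nat.descFactorial_le`, `sparse_anti`, `spQ_sound`, `EpsOK.of_le`, `MomDom.of_le`.
-/

namespace Pool.Agent.Work.MP_66fdf3_co.Full

open Finset

theorem N6_core {m J : ℕ} (hJ : J < m) {b q : ℝ} (hb : 0 ≤ b) (hq : 0 < q) :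
    b ^ m * (max (Cf (m - (J + 1)) q) (Cf (m - m) q) / (m.factorial : ℝ)) ≤
      (b * Real.exp 1 / m) ^ m + (b / q) ^ m * q ^ (J + 1) / (m.descFactorial (J + 1) : ℝ) := by
  have hm : (0 : ℝ) < m := by exact_mod_cast (by omega : 0 < m)
  have hf : (0 : ℝ) < m.factorial := by positivity
  have h1 : max (Cf (m - (J + 1)) q) (Cf (m - m) q) ≤ 1 + Cf (m - (J + 1)) q := by
    have := Cf_nonneg (m - (J + 1)) hq
    refine max_le (by linarith only []) ?_
    have e : Cf (m - m) q = 1 := by simp [Cf]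
    linarith
  have h2 : 1 / (m.factorial : ℝ) ≤ (Real.exp 1 / m) ^ m := by
    have := Real.pow_div_factorial_le_exp (m : ℝ) hm.le m
    rw [div_pow, Real.exp_one_pow, le_div_iff₀ (by positivity), one_div_mul_eq_div]
    exact this
  have h3 : ((m - (J + 1)).factorial : ℝ) * (m.descFactorial (J + 1) : ℝ) = m.factorial := by
    exact_mod_cast Nat.factorial_mul_descFactorial (by omega : J + 1 ≤ m)
  have hd : (0 : ℝ) < m.descFactorial (J + 1) := by
    exact_mod_cast Nat.descFactorial_pos.2 (by omega : J + 1 ≤ m)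
  have h4 : q ^ m = q ^ (m - (J + 1)) * q ^ (J + 1) := by
    rw [← pow_add]; congr 1; omega
  have h5 : b ^ m * (Cf (m - (J + 1)) q / (m.factorial : ℝ)) =
      (b / q) ^ m * q ^ (J + 1) / (m.descFactorial (J + 1) : ℝ) := by
    rw [Cf, div_pow, h4, ← h3]
    field_simp
  calc b ^ m * (max (Cf (m - (J + 1)) q) (Cf (m - m) q) / (m.factorial : ℝ))
      ≤ b ^ m * ((1 + Cf (m - (J + 1)) q) / (m.factorial : ℝ)) := by gcongr
    _ = b ^ m * (1 / (m.factorial : ℝ)) + b ^ m * (Cf (m - (J + 1)) q / (m.factorial : ℝ)) := by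
        ring
    _ ≤ b ^ m * (Real.exp 1 / m) ^ m + b ^ m * (Cf (m - (J + 1)) q / (m.factorial : ℝ)) := by
        gcongr
    _ = _ := by rw [h5, ← mul_pow, ← mul_div_assoc]

theorem closed_form {m J : ℕ} (hJ : J < m) {c α β τ y A A4 : ℝ} (hc : 0 < c) (hα : 0 < α)
    (hβ : 0 < β) (hτ : 0 < τ) (hy : 0 < y) (hA : 1 ≤ A) (hA4 : 1 ≤ A4) (h4 : A ≤ A4 ^ 4) :
    Gs m β (α * c) / min α β *
        (max (Cf (m - (J + 1)) ((1 + c) * (τ + y) ^ 2)) (Cf (m - m) ((1 + c) * (τ + y) ^ 2)) *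
          Gs m τ y ^ 2 * A ^ ((m - 1) / 4) / (m.factorial : ℝ)) ≤
      ((α * c * y ^ 2 * A4 * Real.exp (β / (α * c) + 2 * τ / y) * Real.exp 1 / m) ^ m +
        (α * c * y ^ 2 * A4 * Real.exp (β / (α * c) + 2 * τ / y) / ((1 + c) * (τ + y) ^ 2)) ^ m *
          ((1 + c) * (τ + y) ^ 2) ^ (J + 1) / (m.descFactorial (J + 1) : ℝ)) / min α β := by
  have hac : 0 < α * c := mul_pos hα hc
  have g1 := Gs_le_exp m hβ.le hac
  have g2 := Gs_le_exp m hτ.le hy
  have n1 := Gs_nonneg m hβ.le hac.le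
  have n2 := Gs_nonneg m hτ.le hy.le
  have g3 : A ^ ((m - 1) / 4) ≤ A4 ^ m := by
    refine (pow_le_pow_left₀ (by linarith only [hA]) h4 _).trans ?_
    rw [← pow_mul]
    exact pow_le_pow_right₀ hA4 (by omega)
  have hq : 0 < (1 + c) * (τ + y) ^ 2 := by positivity
  have hb : Gs m β (α * c) * Gs m τ y ^ 2 * A ^ ((m - 1) / 4) ≤
      (α * c * y ^ 2 * A4 * Real.exp (β / (α * c) + 2 * τ / y)) ^ m := by
    calc Gs m β (α * c) * Gs m τ y ^ 2 * A ^ ((m - 1) / 4)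
        ≤ (α * c * Real.exp (β / (α * c))) ^ m * ((y * Real.exp (τ / y)) ^ m) ^ 2 * A4 ^ m := by
          gcongr
      _ = _ := by
          rw [← pow_mul, mul_comm m 2, pow_mul, ← mul_pow, ← mul_pow, Real.exp_add,
            show 2 * τ / y = τ / y + τ / y by ring, Real.exp_add]
          congr 1
          ring
  have hM : 0 ≤ max (Cf (m - (J + 1)) ((1 + c) * (τ + y) ^ 2))
      (Cf (m - m) ((1 + c) * (τ + y) ^ 2)) / (m.factorial : ℝ) :=
    div_nonneg ((Cf_nonneg _ hq).trans (le_max_left _ _)) (Nat.cast_nonneg _)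
  have key := (mul_le_mul_of_nonneg_right hb hM).trans (N6_core hJ (by positivity) hq)
  refine le_trans (le_of_eq ?_) (div_le_div_of_nonneg_right key (lt_min hα hβ).le)
  ring

theorem good_of_closed {m J : ℕ} (hJ : J < m) {C : Type} [Fintype C] {p z : C → ℝ}
    (hm : MomDom m p z) {c α β τ y A A4 D : ℝ} (hc : 0 < c) (hT : Tang α β) (hτ : 0 < τ)
    (hy : 0 < y) (hA : 1 ≤ A) (hA4 : 1 ≤ A4) (h4 : A ≤ A4 ^ 4)
    (hE : EpsOK m p z τ y (fun _ => 1) A) (hD : 0 ≤ D)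
    (hb : (α * c * y ^ 2 * A4 * Real.exp (β / (α * c) + 2 * τ / y) * Real.exp 1 / m) ^ m +
        (α * c * y ^ 2 * A4 * Real.exp (β / (α * c) + 2 * τ / y) / ((1 + c) * (τ + y) ^ 2)) ^ m *
          ((1 + c) * (τ + y) ^ 2) ^ (J + 1) / (m.descFactorial (J + 1) : ℝ) ≤ min α β * D ^ 2)
    (hs : sparseS m J + D < 1) : Good m := by
  refine ⟨J, m, D, 0, hJ, le_rfl, ⟨hD, C, inferInstance, p, z, c, α, β, Unit, inferInstance,
    fun _ => τ, fun _ => y, fun _ => 1, fun _ => A, fun _ _ => 1, hm, hc.le, hT,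
    fun _ => ⟨hτ, hy, zero_le_one, hA, fun _ => zero_le_one, hE⟩, fun X _ f => ⟨(), by simp⟩, ?_⟩,
    Or.inl ⟨rfl, rfl⟩, by linarith only [hs]⟩
  rw [Fintype.sum_unique, one_mul]
  refine (closed_form hJ hc hT.1 hT.2.1 hτ hy hA hA4 h4).trans ?_
  rw [div_le_iff₀' (lt_min hT.1 hT.2.1)]
  exact hb

theorem range_sound {ma mb J : ℕ} {l : List Nd} {c D A4 ρA ρB : ℚ} {t : TG} {P : EP}
    {g : List (ℕ × List ℕ)} (h : rangeChk ma mb J l c D A4 ρA ρB t P g = true)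
    (hm : MomDom mb (fun c : Fin l.length => l[c].p) (fun c : Fin l.length => l[c].z)) {m : ℕ}
    (h1 : ma ≤ m) (h2 : m ≤ mb) : Good m := by
  simp only [rangeChk, Bool.and_eq_true, decide_eq_true_eq] at h
  obtain ⟨⟨⟨⟨⟨⟨⟨⟨⟨⟨⟨⟨⟨⟨⟨⟨c1, c2⟩, c3⟩, c4⟩, c5⟩, c6⟩, c7⟩, c8⟩, c9⟩, c10⟩, c11⟩, c12⟩, c13⟩, c14⟩,
    c15⟩, c16⟩, c17⟩ := h
  obtain ⟨hT, hY, -, hA, hE⟩ := epsChk_sound P l g c17
  have tg := tang_sound t c3
  have hα : 0 < t.α := by exact_mod_cast tg.1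
  have hβ : 0 < t.β := by exact_mod_cast tg.2.1
  have hw : (fun c : Fin l.length => ((P.wt l[c] : ℕ) : ℝ)) = fun _ => 1 := by
    funext c
    simp [EP.wt, c5, c6]
  rw [hw] at hE
  have hτ : (0 : ℝ) < (P.T : ℝ) / 16777216 := by positivity
  have hy : (0 : ℝ) < (P.Y : ℝ) / 16777216 := by positivity
  have hc : (0 : ℝ) < c := by exact_mod_cast c1
  have hA4 : (1 : ℝ) ≤ A4 := by exact_mod_cast c8
  have ex := expUp_sound (by positivity) c10
  have ee : ((t.β / (t.α * c) + 2 * (P.T : ℚ) / (P.Y : ℚ) : ℚ) : ℝ) =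
      (t.β : ℝ) / (t.α * c) + 2 * ((P.T : ℝ) / 16777216) / ((P.Y : ℝ) / 16777216) := by
    push_cast
    congr 1
    field_simp
  rw [ee] at ex
  have r9 := (Rat.cast_le (K := ℝ)).2 c9
  have r11 := (Rat.cast_le (K := ℝ)).2 c11
  have r12 := (Rat.cast_le (K := ℝ)).2 c12
  have r13 := (Rat.cast_le (K := ℝ)).2 c13
  have r14 := (Rat.cast_le (K := ℝ)).2 c14
  have r15 := (Rat.cast_le (K := ℝ)).2 c15
  have r16 := (Rat.cast_lt (K := ℝ)).2 c16
  push_cast at r9 r11 r12 r13 r14 r15 r16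
  rw [spQ_sound] at r16
  refine good_of_closed (J := J) (D := D) (by omega) (hm.of_le h2) hc tg hτ hy ?_ hA4 r9
    (hE.of_le (h2.trans c4) hτ hy) (by exact_mod_cast c2) (le_trans ?_ r15)
    (by linarith only [r16, h1, c7, sparse_anti h1 c7])
  · rw [one_le_div (by norm_num)]
    exact_mod_cast hA
  have hα' := tg.1
  have hq : (0 : ℝ) < (1 + c) * ((P.T : ℝ) / 16777216 + (P.Y : ℝ) / 16777216) ^ 2 := by positivity
  have hb := mul_le_mul_of_nonneg_left ex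
    (by positivity : (0 : ℝ) ≤ t.α * c * ((P.Y : ℝ) / 16777216) ^ 2 * A4)
  have hb0 : (0 : ℝ) < t.α * c * ((P.Y : ℝ) / 16777216) ^ 2 * A4 * Real.exp
      ((t.β : ℝ) / (t.α * c) + 2 * ((P.T : ℝ) / 16777216) / ((P.Y : ℝ) / 16777216)) := by positivity
  generalize (t.α : ℝ) * c * ((P.Y : ℝ) / 16777216) ^ 2 * A4 * Real.exp
      ((t.β : ℝ) / (t.α * c) + 2 * ((P.T : ℝ) / 16777216) / ((P.Y : ℝ) / 16777216)) = b at hb hb0 ⊢
  generalize (t.α : ℝ) * c * ((P.Y : ℝ) / 16777216) ^ 2 * A4 *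
    ((expUp (t.β / (t.α * c) + 2 * (P.T : ℚ) / (P.Y : ℚ)) : ℚ) : ℝ) = b' at hb r11 r13
  generalize (1 + (c : ℝ)) * ((P.T : ℝ) / 16777216 + (P.Y : ℝ) / 16777216) ^ 2 = q at hq r13 ⊢
  have hma : (0 : ℝ) < ma := by exact_mod_cast (by omega : 0 < ma)
  have hmm : (ma : ℝ) ≤ m := by exact_mod_cast h1
  have he := Real.exp_one_lt_d9
  have a1 : b * Real.exp 1 ≤ ρA * ma :=
    (mul_le_mul hb (by linarith only [he]) (Real.exp_pos 1).le (by linarith only [hb0, hb])).trans r11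
  have a0 : (0 : ℝ) < ρA := pos_of_mul_pos_left ((by positivity : 0 < b * Real.exp 1).trans_le a1)
    hma.le
  have a2 : b * Real.exp 1 / m ≤ ρA := by
    rw [div_le_iff₀ (by linarith only [hma, hmm])]
    exact a1.trans (mul_le_mul_of_nonneg_left hmm a0.le)
  have a3 : (b * Real.exp 1 / m) ^ m ≤ (ρA : ℝ) ^ ma :=
    (pow_le_pow_left₀ (by positivity) a2 m).trans (pow_le_pow_of_le_one a0.le r12 h1)
  have a4 : (b / q) ^ m ≤ (ρB : ℝ) ^ mb :=
    (pow_le_pow_left₀ (by positivity) ((div_le_iff₀ hq).2 (hb.trans r13)) m).trans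
      (pow_le_pow_right₀ r14 h2)
  have a5 : (0 : ℝ) < ma.descFactorial (J + 1) := by
    exact_mod_cast Nat.descFactorial_pos.2 (by omega : J + 1 ≤ ma)
  have a6 : (ma.descFactorial (J + 1) : ℝ) ≤ m.descFactorial (J + 1) := by
    exact_mod_cast Nat.descFactorial_le _ h1
  gcongr

end Pool.Agent.Work.MP_66fdf3_co.Full
end
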