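import Pool.Agent.Work.MP_66fdf3_co.Full.N9
import Pool.Agent.Work.MP_66fdf3_co.Full.N6
import Pool.Agent.Work.MP_66fdf3_co.CertS
import Pool.Agent.Work.MP_66fdf3_co.Defs
import Pool.Agent.Work.MP_66fdf3_co.Full.N10
import Pool.Agent.Work.MP_66fdf3_co.Full.CertEx1
import Pool.Agent.Work.MP_66fdf3_co.Full.CertEx2
import Pool.Agent.Work.MP_66fdf3_co.Full.CertRg
import Pool.Agent.Work.MP_66fdf3_co.HexD0
import Pool.Agent.Work.MP_66fdf3_co.HexD1
import Pool.Agent.Work.MP_66fdf3_co.HexD2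
import Pool.Agent.Work.MP_66fdf3_co.Cert16
import Pool.Agent.Work.MP_66fdf3_co.Full.DelD
import Pool.Agent.Work.MP_66fdf3_co.Full.HallP

-- merged part: Pool.Agent.Work.MP_66fdf3_co.Full.AN
section
-- merged part: Pool.Agent.Work.MP_66fdf3_co.Full.SM5
section
/-!
From the group to `HallProp`.  Put `W i j = decide (∀ d, Rel (e (i, 0)) (e (j, d)))` (classical).
`Rel (e (i, x)) (e (j, y)) ↔ Rel (e (i, 0)) (e (j, y - x))` by invariance under powers of `z` (`shift_rel`).
So `W` is symmetric, the number `nb u l` of neighbours of a point of block `u` in block `l` does not depend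
on the point, `nb u l = nb l u`, `∑ l, nb u l = k`, `nb u l = p` if `W u l`, `≤ p - 1` otherwise, `nb u u ≥ 1`.
This gives `hlo`, and `nb u l ≤ ubW p k W u l`.  The number of common neighbours of points in the blocks
`u`, `v` is at most `bdW p k W u v` (count block by block).  For `hconn` use `Prim0.conn` with
`r x y := p * cW W i0 ≤ card {w | Rel x w ∧ Rel y w}`, `a = e (i0, 0)`, `b = e (i0, 1)`, and the set of the
points whose block lies in `Z`.
-/

namespace Pool.Agent.Work.MP_66fdf3_co.Full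

open Finset Matrix

variable {G Ω : Type} [Group G] [Finite G] [MulAction G Ω] [Fintype Ω] [DecidableEq Ω]

theorem shift_pow {s p : ℕ} [Fact p.Prime] {z : G} {e : Fin s × ZMod p ≃ Ω}
    (hz : ∀ i x, z • e (i, x) = e (i, x + 1)) (c : ZMod p) (i : Fin s) (x : ZMod p) :
    z ^ c.val • e (i, x) = e (i, x + c) := by
  have key : ∀ n : ℕ, z ^ n • e (i, x) = e (i, x + (n : ZMod p)) := by
    intro n
    induction n with
    | zero => simp
    | succ n ih => rw [pow_succ', mul_smul, ih, hz, Nat.cast_succ, add_assoc]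
  rw [key, ZMod.natCast_zmod_val]

theorem SM5_shift_rel {s p : ℕ} [Fact p.Prime] {z : G} {e : Fin s × ZMod p ≃ Ω}
    (hz : ∀ i x, z • e (i, x) = e (i, x + 1)) (Rel : Ω → Ω → Prop)
    (hi : ∀ (g : G) x y, Rel x y → Rel (g • x) (g • y)) (i j : Fin s) (x y : ZMod p) :
    Rel (e (i, x)) (e (j, y)) ↔ Rel (e (i, 0)) (e (j, y - x)) := by
  constructor
  · intro h
    have := hi (z ^ (-x).val) _ _ h
    rw [shift_pow hz, shift_pow hz] at this
    simpa [sub_eq_add_neg] using this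
  · intro h
    have := hi (z ^ x.val) _ _ h
    rw [shift_pow hz, shift_pow hz] at this
    simpa using this

theorem SM5_card_blocks {s p : ℕ} [Fact p.Prime] (e : Fin s × ZMod p ≃ Ω) (Q : Ω → Prop)
    [DecidablePred Q] :
    (univ.filter Q).card = ∑ l : Fin s, (univ.filter fun y : ZMod p => Q (e (l, y))).card := by
  simp only [card_filter]
  rw [← Equiv.sum_comp e, Fintype.sum_prod_type]

/-- The purely numerical part. -/
theorem SM5_num {s p k : ℕ} (W : Fin s → Fin s → Bool) (nb : Fin s → Fin s → ℕ)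
    (hW : ∀ i j, W i j = W j i) (hsym : ∀ u l, nb u l = nb l u) (hsum : ∀ u, ∑ l, nb u l = k)
    (hp : ∀ u l, W u l = true → nb u l = p) (hnp : ∀ u l, ¬ W u l = true → nb u l ≤ p - 1) :
    (∀ u, p * cW W u + ∑ l ∈ univ.filter (fun l => ¬ W u l = true), nb u l = k) ∧
      ∀ u l, nb u l ≤ ubW p k W u l := by
  have h1 : ∀ u, p * cW W u + ∑ l ∈ univ.filter (fun l => ¬ W u l = true), nb u l = k := by
    intro u
    rw [← hsum u, ← sum_filter_add_sum_filter_not univ (fun l => W u l = true)]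
    congr 1
    rw [cW, mul_comm, ← smul_eq_mul, ← sum_const]
    exact sum_congr rfl fun l hl => (hp u l (mem_filter.1 hl).2).symm
  have h2 : ∀ u l, ¬ W u l = true → nb u l ≤ k - p * cW W u := by
    intro u l hl
    have := h1 u
    have h3 : nb u l ≤ ∑ l ∈ univ.filter (fun l => ¬ W u l = true), nb u l :=
      single_le_sum (f := fun l => nb u l) (fun _ _ => Nat.zero_le _) (mem_filter.2 ⟨mem_univ _, hl⟩)
    omega
  refine ⟨h1, fun u l => ?_⟩
  unfold ubW
  split_ifs with hl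
  · exact (hp u l hl).le
  · refine le_min (hnp u l hl) (le_min (h2 u l hl) ?_)
    rw [hsym]
    exact h2 l u (by rwa [hW])

theorem SM5_bd {s p k : ℕ} (W : Fin s → Fin s → Bool) (nb : Fin s → Fin s → ℕ)
    (h1 : ∀ u, p * cW W u + ∑ l ∈ univ.filter (fun l => ¬ W u l = true), nb u l = k)
    (h2 : ∀ u l, nb u l ≤ ubW p k W u l) (hp : ∀ u l, W u l = true → nb u l = p)
    (u v : Fin s) (c : Fin s → ℕ) (hu : ∀ l, c l ≤ nb u l) (hv : ∀ l, c l ≤ nb v l) :
    ∑ l, c l ≤ bdW p k W u v := by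
  unfold bdW
  refine le_min ?_ (sum_le_sum fun l _ => le_min ((hu l).trans (h2 u l)) ((hv l).trans (h2 v l)))
  have e1 : k - p * cW W u = ∑ l ∈ univ.filter (fun l => ¬ W u l = true), nb u l := by
    have := h1 u
    omega
  have e2 : k - p * cW W v = ∑ l ∈ univ.filter (fun l => ¬ W v l = true), nb v l := by
    have := h1 v
    omega
  rw [e1, e2, card_filter, mul_sum, sum_filter, sum_filter, ← sum_add_distrib, ← sum_add_distrib]
  refine sum_le_sum fun l _ => ?_
  have := hu l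
  have := hv l
  by_cases a : W u l = true
  · by_cases b : W v l = true
    · have := hp u l a
      simp [a, b]
      omega
    · simp [a, b]
      omega
  · by_cases b : W v l = true
    · simp [a, b]
      omega
    · simp [a, b]
      omega

open Classical in
theorem hall_cond (h : Prim0 G Ω) {s p : ℕ} [Fact p.Prime] {z : G} {e : Fin s × ZMod p ≃ Ω}
    (hz : ∀ i x, z • e (i, x) = e (i, x + 1)) (Rel : Ω → Ω → Prop) (hr : ∀ x, Rel x x)
    (hs : ∀ x y, Rel x y → Rel y x) (hi : ∀ (g : G) x y, Rel x y → Rel (g • x) (g • y)) {k : ℕ}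
    (hk : ∀ x, (univ.filter fun y => Rel x y).card = k) (ho : Odd k) (h5 : 5 ≤ k)
    (h4 : k + 4 ≤ s * p) {sl : List (Fin s × Fin s)} (hH : HallProp p sl) :
    2 * (sl.filter fun q => decide (∀ d, Rel (e (q.1, 0)) (e (q.2, d)))).length + 1 ≤ k := by
  have hrel := SM5_shift_rel hz Rel hi
  set W : Fin s → Fin s → Bool := fun i j => decide (∀ d, Rel (e (i, 0)) (e (j, d))) with hWdef
  set nb : Fin s → Fin s → ℕ :=
    fun u l => (univ.filter fun y : ZMod p => Rel (e (u, 0)) (e (l, y))).card with hnb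
  have hflip : ∀ i j d, Rel (e (i, 0)) (e (j, d)) → Rel (e (j, 0)) (e (i, -d)) := by
    intro i j d hd
    have := (hrel j i d 0).1 (hs _ _ hd)
    simpa using this
  have hWt : ∀ i j, W i j = true ↔ ∀ d, Rel (e (i, 0)) (e (j, d)) := by
    intro i j
    simp [hWdef]
  have hW : ∀ i j, W i j = W j i := by
    intro i j
    rw [Bool.eq_iff_iff, hWt, hWt]
    constructor
    · intro H d
      simpa using hflip i j (-d) (H _)
    · intro H d
      simpa using hflip j i (-d) (H _)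
  have hsym : ∀ u l, nb u l = nb l u := by
    intro u l
    refine card_bij (fun y _ => -y) ?_ ?_ ?_
    · intro y hy
      exact mem_filter.2 ⟨mem_univ _, hflip _ _ _ (mem_filter.1 hy).2⟩
    · intro a _ b _ hab
      exact neg_injective hab
    · intro y hy
      exact ⟨-y, mem_filter.2 ⟨mem_univ _, hflip _ _ _ (mem_filter.1 hy).2⟩, neg_neg y⟩
  have hpt : ∀ u l x, (univ.filter fun y : ZMod p => Rel (e (u, x)) (e (l, y))).card = nb u l := by
    intro u l x
    refine card_bij (fun y _ => y - x) ?_ ?_ ?_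
    · intro y hy
      exact mem_filter.2 ⟨mem_univ _, (hrel _ _ _ _).1 (mem_filter.1 hy).2⟩
    · intro a _ b _ hab
      exact sub_left_injective hab
    · intro y hy
      refine ⟨y + x, mem_filter.2 ⟨mem_univ _, (hrel _ _ _ _).2 ?_⟩, by simp⟩
      simpa using (mem_filter.1 hy).2
  have hsum : ∀ u, ∑ l, nb u l = k := by
    intro u
    rw [← hk (e (u, 0)), SM5_card_blocks e]
  have hp : ∀ u l, W u l = true → nb u l = p := by
    intro u l hl
    have : (univ.filter fun y : ZMod p => Rel (e (u, 0)) (e (l, y))) = univ :=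
      filter_true_of_mem fun y _ => (hWt u l).1 hl y
    simp only [hnb]
    rw [this, card_univ, ZMod.card]
  have hnp : ∀ u l, ¬ W u l = true → nb u l ≤ p - 1 := by
    intro u l hl
    rw [hWt] at hl
    push Not at hl
    obtain ⟨d, hd⟩ := hl
    have : (univ.filter fun y : ZMod p => Rel (e (u, 0)) (e (l, y))).card <
        (univ : Finset (ZMod p)).card :=
      card_lt_card ⟨subset_univ _, fun hsub => hd (mem_filter.1 (hsub (mem_univ d))).2⟩
    rw [card_univ, ZMod.card] at this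
    simp only [hnb]
    omega
  have hone : ∀ u, 1 ≤ nb u u := fun u =>
    card_pos.2 ⟨0, mem_filter.2 ⟨mem_univ _, hr _⟩⟩
  obtain ⟨h1, h2⟩ := SM5_num W nb hW hsym hsum hp hnp
  refine hH W k hW ho h5 h4 ?_ ?_
  · intro i
    have := h1 i
    split_ifs with hii
    · omega
    · have h3 : nb i i ≤ ∑ l ∈ univ.filter (fun l => ¬ W i l = true), nb i l :=
        single_le_sum (f := fun l => nb i l) (fun _ _ => Nat.zero_le _)
          (mem_filter.2 ⟨mem_univ _, hii⟩)
      have := hone i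
      omega
  · intro i0 _ Z hZ hZu
    obtain ⟨u0, hu0⟩ := hZ
    obtain ⟨v0, hv0⟩ : ∃ v0, v0 ∉ Z := by
      by_contra hc
      push Not at hc
      exact hZu (eq_univ_iff_forall.2 hc)
    have hab : e (i0, 0) ≠ e (i0, 1) := by
      intro hc
      have := e.injective hc
      simp at this
    obtain ⟨x, hx, y, hy, hxy⟩ := h.conn
      (fun x y => p * cW W i0 ≤ (univ.filter fun w => Rel x w ∧ Rel y w).card)
      (by
        intro x y hxy
        simpa only [and_comm] using hxy)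
      (by
        intro g x y hxy
        refine hxy.trans (card_le_card_of_injOn (fun w => g • w) ?_ ?_)
        · intro w hw
          have hw' := (mem_filter.1 (mem_coe.1 hw)).2
          exact mem_coe.2 (mem_filter.2 ⟨mem_univ _, hi g _ _ hw'.1, hi g _ _ hw'.2⟩)
        · intro a _ b _ hab
          exact MulAction.injective g hab)
      hab
      (by
        rw [SM5_card_blocks e, ← sum_filter_add_sum_filter_not univ (fun l => W i0 l = true)]
        refine le_trans ?_ (Nat.le_add_right _ _)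
        rw [cW, mul_comm, ← smul_eq_mul, ← sum_const]
        refine sum_le_sum fun l hl => ?_
        have hl' := (hWt i0 l).1 (mem_filter.1 hl).2
        have : (univ.filter fun y : ZMod p =>
            Rel (e (i0, 0)) (e (l, y)) ∧ Rel (e (i0, 1)) (e (l, y))) = univ :=
          filter_true_of_mem fun y _ => ⟨hl' y, (hrel _ _ _ _).2 (hl' _)⟩
        rw [this, card_univ, ZMod.card])
      {x | (e.symm x).1 ∈ Z} (u0 := e (u0, 0)) (v0 := e (v0, 0)) (by simpa using hu0)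
      (by simpa using hv0)
    obtain ⟨⟨u, a⟩, rfl⟩ := e.surjective x
    obtain ⟨⟨v, b⟩, rfl⟩ := e.surjective y
    refine ⟨u, by simpa using hx, v, by simpa using hy, hxy.trans ?_⟩
    rw [SM5_card_blocks e]
    refine SM5_bd W nb h1 h2 hp u v _ (fun l => ?_) (fun l => ?_)
    · rw [← hpt u l a]
      exact card_le_card fun w hw => mem_filter.2 ⟨mem_univ _, (mem_filter.1 hw).2.1⟩
    · rw [← hpt v l b]
      exact card_le_card fun w hw => mem_filter.2 ⟨mem_univ _, (mem_filter.1 hw).2.2⟩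

end Pool.Agent.Work.MP_66fdf3_co.Full
end

-- merged part: Pool.Agent.Work.MP_66fdf3_co.Full.SM6
section
/-!
The marriage.  `SCol` is an equivalence relation on pairs, invariant under `G` and under flips.
`nS ω b = card {w | SCol ω b ω w}` is `kd ω b` or `2 * kd ω b` (`card_col`, `card_col'`), so it is even and
at least `4` for `b ≠ ω`.  Let `cls b = univ.filter (SCol ω b ω ·) : Finset Ω` and let the units be the pairs
`(C, r)` with `C = cls b` for some `b ≠ ω` and `r < C.card / 2` (a `Finset (Finset Ω × ℕ)` or a sigma type); twice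
their number is `m - 1 = 2 * sl.length`.  The slot `l` sees `(C, r)` if for some `d` the points `e (i, 0)`,
`e (j, d)` are distinct and `C` is the class of this pair (`C = filter (SCol (e (i,0)) (e (j,d)) ω ·)`).
Hall condition (`Finset.all_card_le_biUnion_card_iff_exists_injective`) for a nonempty set `L` of slots:
`Rel x y := x = y ∨ ∃ l ∈ L, ∃ d, distinct ∧ SCol x y (e (i l, 0)) (e (j l, d))`, valency
`k = 1 + 2 * (number of units seen)` at `ω` and at every point; if `Rel` is total then all units are seen;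
otherwise a class of size `≥ 4` is missing, `k + 4 ≤ m`, `5 ≤ k` (`p ≥ 2` gives a distinct pair), and
`hall_cond` applies since the slots of `L` pass the filter.  The injection is a bijection by counting.
-/

namespace Pool.Agent.Work.MP_66fdf3_co.Full

open Finset Matrix

variable {G Ω : Type} [Group G] [Finite G] [MulAction G Ω] [Fintype Ω] [DecidableEq Ω]

/-- Colours up to a flip. -/
def SCol (G : Type) {Ω : Type} [Group G] [MulAction G Ω] (x y x' y' : Ω) : Prop :=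
  Col G x y x' y' ∨ Col G x y y' x'

section Aux

omit [Finite G] [Fintype Ω] [DecidableEq Ω]

theorem SM6_refl (x y : Ω) : SCol G x y x y := Or.inl (Col.refl x y)

theorem SM6_symm {x y x' y' : Ω} (h : SCol G x y x' y') : SCol G x' y' x y :=
  h.imp Col.symm fun h => h.symm.flip

theorem SM6_trans {x y x' y' x'' y'' : Ω} (h : SCol G x y x' y') (h' : SCol G x' y' x'' y'') :
    SCol G x y x'' y'' := by
  rcases h with h | h <;> rcases h' with h' | h'
  exacts [Or.inl (h.trans h'), Or.inr (h.trans h'), Or.inr (h.trans h'.flip),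
    Or.inl (h.trans h'.flip)]

theorem SM6_flip {x y x' y' : Ω} (h : SCol G x y x' y') : SCol G x y y' x' := Or.symm h

theorem SM6_smul {x y x' y' : Ω} (h : SCol G x y x' y') (g : G) :
    SCol G x y (g • x') (g • y') := SM6_trans h (Or.inl (Col.smul g x' y'))

theorem SM6_ne {x y x' y' : Ω} (h : SCol G x y x' y') (hne : x ≠ y) : y' ≠ x' := by
  rcases h with h | h
  exacts [fun e => hne (h.eq_iff.2 e.symm), fun e => hne (h.eq_iff.2 e)]

theorem SM6_len {α : Type} (sl : List α) (Q : α → Bool) (L : Finset (Fin sl.length))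
    (hL : ∀ l ∈ L, Q sl[l] = true) : L.card ≤ (sl.filter Q).length := by
  have h1 : (sl.filter Q).length = ((List.finRange sl.length).filter (Q ∘ sl.get)).length := by
    conv_lhs => rw [← List.map_get_finRange sl, List.filter_map, List.length_map]
  rw [h1]
  refine le_trans (card_le_card fun l hl => ?_) (List.toFinset_card_le _)
  rw [List.mem_toFinset, List.mem_filter]
  exact ⟨List.mem_finRange l, hL l hl⟩

end Aux

open Classical in
/-- The class of `b`. -/
noncomputable def SM6_cls (G : Type) {Ω : Type} [Group G] [MulAction G Ω] [Fintype Ω] (ω b : Ω) :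
    Finset Ω := univ.filter fun w => SCol G ω b ω w

omit [Finite G] [DecidableEq Ω] in
theorem SM6_mem {ω b w : Ω} : w ∈ SM6_cls G ω b ↔ SCol G ω b ω w := by
  simp [SM6_cls]

omit [Finite G] [DecidableEq Ω] in
theorem SM6_eq {ω b w : Ω} : SM6_cls G ω w = SM6_cls G ω b ↔ SCol G ω b ω w := by
  constructor
  · intro h
    exact SM6_mem.1 (h ▸ SM6_mem.2 (SM6_refl ω w))
  · intro h
    ext v
    rw [SM6_mem, SM6_mem]
    exact ⟨SM6_trans h, SM6_trans (SM6_symm h)⟩

theorem SM6_card (h : Prim0 G Ω) (h4 : ∀ x y : Ω, x ≠ y → 4 ≤ kd G x y) {ω b : Ω} (hb : b ≠ ω) :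
    Even (SM6_cls G ω b).card ∧ 4 ≤ (SM6_cls G ω b).card := by
  classical
  have h1 := card_col h.trans ω b ω
  have h2 := card_col' h.trans ω b ω
  have h3 := h.even ω b hb.symm
  have h5 := h4 ω b hb.symm
  have hU : SM6_cls G ω b =
      (univ.filter fun z => Col G ω b ω z) ∪ univ.filter fun z => Col G ω b z ω := by
    ext w
    simp [SM6_mem, SCol]
  by_cases hf : Col G ω b b ω
  · have : SM6_cls G ω b = univ.filter fun z => Col G ω b ω z := by
      ext w
      simp only [SM6_mem, SCol, mem_filter, mem_univ, true_and]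
      exact ⟨fun k => k.elim id fun k => hf.trans k.flip, Or.inl⟩
    rw [this, h1]
    exact ⟨h3, h5⟩
  · rw [hU, card_union_of_disjoint (disjoint_left.2 fun w k1 k2 => hf ?_), h1, h2]
    · exact ⟨⟨_, rfl⟩, by omega⟩
    · exact (mem_filter.1 k1).2.trans (mem_filter.1 k2).2.flip.symm

/-- The units over the classes that meet `A`. -/
noncomputable def SM6_un (G : Type) {Ω : Type} [Group G] [MulAction G Ω] [Fintype Ω]
    [DecidableEq Ω] (ω : Ω) (A : Finset Ω) : Finset (Σ _ : Finset Ω, ℕ) :=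
  (A.image (SM6_cls G ω)).sigma fun C => range (C.card / 2)

theorem SM6_un_card (h : Prim0 G Ω) (h4 : ∀ x y : Ω, x ≠ y → 4 ≤ kd G x y) {ω : Ω} {A : Finset Ω}
    (h1 : ∀ b ∈ A, b ≠ ω) (h2 : ∀ b ∈ A, ∀ w, SCol G ω b ω w → w ∈ A) :
    2 * (SM6_un G ω A).card = A.card := by
  rw [SM6_un, card_sigma, card_eq_sum_card_image (SM6_cls G ω) A, mul_sum]
  refine sum_congr rfl fun C hC => ?_
  obtain ⟨b, hb, rfl⟩ := mem_image.1 hC
  have : A.filter (fun w => SM6_cls G ω w = SM6_cls G ω b) = SM6_cls G ω b := by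
    ext w
    rw [mem_filter, SM6_eq, SM6_mem]
    exact ⟨fun k => k.2, fun k => ⟨h2 b hb w k, k⟩⟩
  rw [this, card_range]
  obtain ⟨c, hc⟩ := (SM6_card h h4 (h1 b hb)).1
  omega

open Classical in
theorem hall_match (h : Prim0 G Ω) (h4 : ∀ x y : Ω, x ≠ y → 4 ≤ kd G x y) {s p : ℕ} [Fact p.Prime]
    {z : G} {e : Fin s × ZMod p ≃ Ω} (hz : ∀ i x, z • e (i, x) = e (i, x + 1))
    {sl : List (Fin s × Fin s)} (hl : 2 * sl.length + 1 = s * p) (hH : HallProp p sl) (ω : Ω) :
    ∃ dd : Fin sl.length → ZMod p, (∀ l, e (sl[l].1, 0) ≠ e (sl[l].2, dd l)) ∧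
      ∀ b, b ≠ ω → 2 * (univ.filter fun l : Fin sl.length =>
          SCol G ω b (e (sl[l].1, 0)) (e (sl[l].2, dd l))).card =
        (univ.filter fun w => SCol G ω b ω w).card := by
  have hm : Fintype.card Ω = s * p := by
    rw [← Fintype.card_congr e, Fintype.card_prod, Fintype.card_fin, ZMod.card]
  have hE : (univ.erase ω).card = 2 * sl.length := by
    rw [card_erase_of_mem (mem_univ ω), card_univ, hm]
    omega
  set Sees : Fin sl.length → Ω → Ω → Prop := fun l x y =>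
    ∃ d, e (sl[l].1, 0) ≠ e (sl[l].2, d) ∧ SCol G (e (sl[l].1, 0)) (e (sl[l].2, d)) x y with hS
  set A : Finset (Fin sl.length) → Finset Ω := fun L =>
    univ.filter fun w => ∃ l ∈ L, Sees l ω w with hA
  have hA0 : ∀ L w, w ∈ A L ↔ ∃ l ∈ L, Sees l ω w := fun L w => by simp [hA]
  have hA1 : ∀ L, ∀ b ∈ A L, b ≠ ω := fun L b hb => by
    obtain ⟨l, -, d, k1, k2⟩ := (hA0 L b).1 hb
    exact SM6_ne k2 k1
  have hA2 : ∀ L, ∀ b ∈ A L, ∀ w, SCol G ω b ω w → w ∈ A L := fun L b hb w hw => by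
    obtain ⟨l, k0, d, k1, k2⟩ := (hA0 L b).1 hb
    exact (hA0 L w).2 ⟨l, k0, d, k1, SM6_trans k2 hw⟩
  have hall : ∀ L : Finset (Fin sl.length),
      L.card ≤ (L.biUnion fun l => SM6_un G ω (A {l})).card := by
    intro L
    have hsub : SM6_un G ω (A L) ⊆ L.biUnion fun l => SM6_un G ω (A {l}) := fun u hu => by
      obtain ⟨k1, k2⟩ := mem_sigma.1 hu
      obtain ⟨b, hb, k3⟩ := mem_image.1 k1
      obtain ⟨l, k0, k4⟩ := (hA0 L b).1 hb
      exact mem_biUnion.2 ⟨l, k0, mem_sigma.2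
        ⟨mem_image.2 ⟨b, (hA0 _ b).2 ⟨l, mem_singleton_self l, k4⟩, k3⟩, k2⟩⟩
    refine le_trans ?_ (card_le_card hsub)
    have hc := SM6_un_card h h4 (hA1 L) (hA2 L)
    rcases L.eq_empty_or_nonempty with rfl | ⟨l0, hl0⟩
    · exact Nat.zero_le _
    by_cases hall : ∀ b, b ≠ ω → b ∈ A L
    · have k1 : (univ.erase ω).card ≤ (A L).card :=
        card_le_card fun b hb => hall b (mem_erase.1 hb).1
      have k2 : L.card ≤ sl.length := by simpa using card_le_univ L
      omega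
    push Not at hall
    obtain ⟨b, hb, hbA⟩ := hall
    have k1 : (A L).card + 4 ≤ 2 * sl.length := by
      have k2 : Disjoint (A L) (SM6_cls G ω b) := disjoint_left.2 fun w k3 k4 =>
        hbA (hA2 L w k3 b (SM6_symm (SM6_mem.1 k4)))
      have k3 : A L ∪ SM6_cls G ω b ⊆ univ.erase ω := fun w hw => by
        refine mem_erase.2 ⟨?_, mem_univ _⟩
        rcases mem_union.1 hw with k | k
        exacts [hA1 L w k, SM6_ne (SM6_mem.1 k) hb.symm]
      have k4 := card_le_card k3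
      rw [card_union_of_disjoint k2] at k4
      have := (SM6_card h h4 hb).2
      omega
    have k2 : 4 ≤ (A L).card := by
      obtain ⟨d, hd⟩ : ∃ d, e (sl[l0].1, 0) ≠ e (sl[l0].2, d) := by
        by_cases k : e (sl[l0].1, 0) = e (sl[l0].2, 0)
        · exact ⟨1, fun k' => zero_ne_one (congrArg Prod.snd (e.injective k'))⟩
        · exact ⟨0, k⟩
      obtain ⟨g, hg⟩ := h.trans (e (sl[l0].1, 0)) ω
      have k3 : g • e (sl[l0].2, d) ∈ A L :=
        (hA0 L _).2 ⟨l0, hl0, d, hd, hg ▸ SM6_smul (SM6_refl _ _) g⟩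
      exact (SM6_card h h4 (hA1 L _ k3)).2.trans
        (card_le_card fun w hw => hA2 L _ k3 w (SM6_mem.1 hw))
    obtain ⟨Rel, hRel⟩ : ∃ Rel : Ω → Ω → Prop, ∀ x y, Rel x y ↔ (x = y ∨ ∃ l ∈ L, Sees l x y) :=
      ⟨_, fun _ _ => Iff.rfl⟩
    have hinv : ∀ (g : G) x y, Rel x y → Rel (g • x) (g • y) := fun g x y k =>
      (hRel _ _).2 (((hRel _ _).1 k).imp (congrArg _)
        fun ⟨l, k0, d, k1, k2⟩ => ⟨l, k0, d, k1, SM6_smul k2 g⟩)
    have k3 := hall_cond h hz Rel (fun x => (hRel _ _).2 (Or.inl rfl))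
      (fun x y k => (hRel _ _).2 (((hRel _ _).1 k).imp Eq.symm
        fun ⟨l, k0, d, k1, k2⟩ => ⟨l, k0, d, k1, SM6_flip k2⟩)) hinv
      (k := (A L).card + 1) (fun x => ?_) ⟨_, by rw [hc]⟩ (by omega) (by omega) hH
    · have k4 := le_trans (Nat.succ_le_succ (Nat.mul_le_mul_left 2
        (SM6_len sl _ L fun l hl' => ?_))) k3
      · omega
      · rw [decide_eq_true_eq]
        intro d
        rw [hRel]
        by_cases k : e (sl[l].1, 0) = e (sl[l].2, d)
        exacts [Or.inl k, Or.inr ⟨l, hl', d, k, SM6_refl _ _⟩]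
    · obtain ⟨g, rfl⟩ := h.trans ω x
      rw [← card_insert_of_notMem (fun k => hA1 L ω k rfl)]
      refine (card_equiv (MulAction.toPerm g) fun y => ?_).symm
      rw [mem_insert, hA0, mem_filter, MulAction.toPerm_apply]
      refine ⟨fun k => ⟨mem_univ _, hinv g ω y ((hRel _ _).2 (k.imp Eq.symm id))⟩, fun k => ?_⟩
      have := hinv g⁻¹ _ _ k.2
      rw [inv_smul_smul, inv_smul_smul, hRel] at this
      exact this.imp Eq.symm id
  obtain ⟨f, hf, hft⟩ := (all_card_le_biUnion_card_iff_exists_injective _).1 hall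
  have hd : ∀ l, ∃ w d, SM6_cls G ω w = (f l).1 ∧ e (sl[l].1, 0) ≠ e (sl[l].2, d) ∧
      SCol G (e (sl[l].1, 0)) (e (sl[l].2, d)) ω w := fun l => by
    obtain ⟨w, hw, k⟩ := mem_image.1 (mem_sigma.1 (hft l)).1
    obtain ⟨l', k0, d, k1, k2⟩ := (hA0 _ w).1 hw
    obtain rfl := mem_singleton.1 k0
    exact ⟨w, d, k, k1, k2⟩
  choose w dd hw1 hw2 hw3 using hd
  refine ⟨dd, hw2, fun b hb => ?_⟩
  have hU : 2 * (SM6_un G ω (univ.erase ω)).card = (univ.erase ω).card :=
    SM6_un_card h h4 (fun b hb => (mem_erase.1 hb).1)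
      fun b hb v hv => mem_erase.2 ⟨SM6_ne hv (mem_erase.1 hb).1.symm, mem_univ _⟩
  have him : univ.image f = SM6_un G ω (univ.erase ω) := by
    refine eq_of_subset_of_card_le (fun u hu => ?_) ?_
    · obtain ⟨l, -, rfl⟩ := mem_image.1 hu
      exact mem_sigma.2 ⟨mem_image.2 ⟨w l, mem_erase.2 ⟨SM6_ne (hw3 l) (hw2 l), mem_univ _⟩,
        hw1 l⟩, (mem_sigma.1 (hft l)).2⟩
    · rw [card_image_of_injective _ hf, card_univ, Fintype.card_fin]
      omega
  have hiff : ∀ l, SCol G ω b (e (sl[l].1, 0)) (e (sl[l].2, dd l)) ↔ (f l).1 = SM6_cls G ω b :=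
    fun l => by
      rw [← hw1, SM6_eq]
      exact ⟨fun k => SM6_trans k (hw3 l), fun k => SM6_trans k (SM6_symm (hw3 l))⟩
  have hcnt : (univ.filter fun l : Fin sl.length =>
      SCol G ω b (e (sl[l].1, 0)) (e (sl[l].2, dd l))).card =
        (range ((SM6_cls G ω b).card / 2)).card := by
    refine card_bij (fun l _ => (f l).2) (fun l k => ?_) (fun l k l' k' k2 => hf ?_) fun r hr => ?_
    · rw [← (hiff l).1 (mem_filter.1 k).2]
      exact (mem_sigma.1 (hft l)).2
    · exact Sigma.ext (((hiff l).1 (mem_filter.1 k).2).trans ((hiff l').1 (mem_filter.1 k').2).symm)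
        (heq_of_eq k2)
    · have : (⟨SM6_cls G ω b, r⟩ : Σ _ : Finset Ω, ℕ) ∈ univ.image f := by
        rw [him]
        exact mem_sigma.2 ⟨mem_image.2 ⟨b, mem_erase.2 ⟨hb, mem_univ _⟩, rfl⟩, hr⟩
      obtain ⟨l, -, k⟩ := mem_image.1 this
      exact ⟨l, mem_filter.2 ⟨mem_univ _, (hiff l).2 (by rw [k])⟩, by rw [k]⟩
  rw [hcnt, card_range]
  change _ = (SM6_cls G ω b).card
  obtain ⟨c, hc⟩ := (SM6_card h h4 hb).1
  omega

end Pool.Agent.Work.MP_66fdf3_co.Full
end

-- merged part: Pool.Agent.Work.MP_66fdf3_co.Full.SM7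
section
/-!
Assembly of the small cases.  `T = Option (Fin sl.length × Bool)`; types `none ↦ (i0, i0, 0)`,
`some (l, true) ↦ (i, j, dd l)`, `some (l, false) ↦ (j, i, - dd l)`; the sum of the differences is zero
(`Fintype.sum_option`, `Fintype.sum_prod_type`, `Fintype.sum_bool`) and
`cnt (fun t => (I t, J t)) (i, j) = patOf i0 sl i j` (`List.count` as a sum over `Fin sl.length`).
Colour labels in `Finset (Ω × Ω)`: `lab x y = univ.filter fun q => Col G x y q.1 q.2`; `f b = lab ω b`,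
`g t = lab (e (I t, 0)) (e (J t, D t))`; equal counts for every label (section 2.3 of the write-up: every label
of a pair is some `lab ω b` by transitivity; self paired case `2 * n = kd`, otherwise `2 * n = 2 * kd`;
`Col (e (j, 0)) (e (i, -d)) (e (j, d)) (e (i, 0))` by `shift_pow`).  `exists_equiv_fib` gives `E : Ω ≃ T`,
`multi_hall` gives `x`; `σ b = e (I t, x t)`, `π b = e (J t, x t + D t)` for `t = E b`
(`Equiv.ofBijective`, `Finite.injective_iff_bijective`), `g = z ^ (x t).val * g0`.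
-/

namespace Pool.Agent.Work.MP_66fdf3_co.Full

open Finset Matrix

variable {G Ω : Type} [Group G] [Finite G] [MulAction G Ω] [Fintype Ω] [DecidableEq Ω]

/-- The three components of a type. -/
def SM7_pick {A : Type} {n : ℕ} (a : A) (f g : Fin n → A) : Option (Fin n × Bool) → A
  | none => a
  | some (l, true) => f l
  | some (l, false) => g l

theorem SM7_sum {R : Type} [AddCommMonoid R] {n : ℕ} (φ : Option (Fin n × Bool) → R) :
    ∑ t, φ t = φ none + (∑ l, φ (some (l, true)) + ∑ l, φ (some (l, false))) := by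
  rw [Fintype.sum_option, Fintype.sum_prod_type, ← sum_add_distrib]
  simp only [Fintype.sum_bool]

theorem SM7_card {n : ℕ} (P : Option (Fin n × Bool) → Prop) [DecidablePred P] :
    (univ.filter P).card = (if P none then 1 else 0) +
      ((univ.filter fun l => P (some (l, true))).card +
        (univ.filter fun l => P (some (l, false))).card) := by
  rw [card_filter, card_filter, card_filter, SM7_sum]

theorem SM7_count {A : Type} [DecidableEq A] [BEq A] [LawfulBEq A] (sl : List A) (a : A) :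
    (univ.filter fun l : Fin sl.length => sl[l] = a).card = sl.count a := by
  rw [card_filter]
  induction sl with
  | nil => simp
  | cons b tl ih =>
    rw [List.count_cons, ← ih]
    simp only [List.length_cons, Fin.sum_univ_succ, beq_iff_eq]
    simp [add_comm]

theorem SM7_cnt {s : ℕ} (i0 : Fin s) (sl : List (Fin s × Fin s)) (i j : Fin s) :
    cnt (fun t => (SM7_pick i0 (fun l : Fin sl.length => sl[l].1) (fun l => sl[l].2) t,
      SM7_pick i0 (fun l : Fin sl.length => sl[l].2) (fun l => sl[l].1) t)) (i, j) =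
      patOf i0 sl i j := by
  rw [cnt, SM7_card, patOf, add_assoc, ← SM7_count, ← SM7_count]
  have e1 : ((i0, i0) = (i, j)) ↔ (i = i0 ∧ j = i0) := by
    rw [Prod.mk.injEq, eq_comm, eq_comm (a := i0)]
  have e2 : ∀ q : Fin s × Fin s, ((q.2, q.1) = (i, j)) ↔ q = (j, i) := by
    rintro ⟨a, b⟩
    rw [Prod.mk.injEq, Prod.mk.injEq, and_comm]
  simp only [SM7_pick, e1, e2]

omit [Finite G] [Fintype Ω] [DecidableEq Ω] in
open Classical in
theorem SM7_fib {α β : Type} [Fintype α] [Fintype β] (f1 f2 : α → Ω) (g1 g2 : β → Ω)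
    (h : ∀ x y : Ω, (univ.filter fun a => Col G x y (f1 a) (f2 a)).card =
      (univ.filter fun b => Col G x y (g1 b) (g2 b)).card) :
    ∃ E : α ≃ β, ∀ a, Col G (f1 a) (f2 a) (g1 (E a)) (g2 (E a)) := by
  have key : ∀ x y x' y' : Ω, ((fun q : Ω × Ω => Col G x' y' q.1 q.2) =
      fun q : Ω × Ω => Col G x y q.1 q.2) ↔ Col G x y x' y' := by
    intro x y x' y'
    constructor
    · intro hh
      have h1 := congrFun hh (x', y')
      exact h1 ▸ Col.refl x' y'
    · intro hh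
      funext q
      exact propext ⟨fun k => hh.trans k, fun k => hh.symm.trans k⟩
  obtain ⟨E, hE⟩ := exists_equiv_fib (fun a => fun q : Ω × Ω => Col G (f1 a) (f2 a) q.1 q.2)
    (fun b => fun q : Ω × Ω => Col G (g1 b) (g2 b) q.1 q.2) (by
      intro k
      by_cases hk : ∃ x y : Ω, k = fun q : Ω × Ω => Col G x y q.1 q.2
      · obtain ⟨x, y, rfl⟩ := hk
        rw [cnt, cnt, filter_congr fun a _ => key x y (f1 a) (f2 a),
          filter_congr fun b _ => key x y (g1 b) (g2 b)]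
        exact h x y
      · rw [cnt, cnt, filter_eq_empty_iff.2 fun a _ ha => hk ⟨_, _, ha.symm⟩,
          filter_eq_empty_iff.2 fun b _ hb => hk ⟨_, _, hb.symm⟩]
        rfl)
  exact ⟨E, fun a => (key _ _ _ _).1 (hE a)⟩

omit [Finite G] [Fintype Ω] [DecidableEq Ω] in
open Classical in
theorem SM7_two {ι : Type} [Fintype ι] (P Q : ι → Ω) (x y : Ω) :
    (univ.filter fun l => Col G x y (P l) (Q l)).card +
      (univ.filter fun l => Col G x y (Q l) (P l)).card =
      (if Col G x y y x then 2 else 1) * (univ.filter fun l => SCol G x y (P l) (Q l)).card := by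
  rw [card_filter, card_filter, card_filter, ← sum_add_distrib, mul_sum]
  refine sum_congr rfl fun l _ => ?_
  by_cases h1 : Col G x y (P l) (Q l) <;> by_cases h2 : Col G x y (Q l) (P l)
  · have h3 : Col G x y y x := h1.trans h2.flip.symm
    simp [SCol, h1, h2, h3]
  · have h3 : ¬ Col G x y y x := fun k => h2 (k.trans h1.flip)
    simp [SCol, h1, h2, h3]
  · have h3 : ¬ Col G x y y x := fun k => h1 (k.trans h2.flip)
    simp [SCol, h1, h2, h3]
  · simp [SCol, h1, h2]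

omit [DecidableEq Ω] in
open Classical in
theorem SM7_col (ht : ∀ x y : Ω, ∃ g : G, g • x = y) {n : ℕ} (c ω : Ω) (P Q P' Q' : Fin n → Ω)
    (hne : ∀ l, P l ≠ Q l) (hf : ∀ l, Col G (P' l) (Q' l) (Q l) (P l))
    (hm : ∀ b, b ≠ ω → 2 * (univ.filter fun l => SCol G ω b (P l) (Q l)).card =
      (univ.filter fun w => SCol G ω b ω w).card) (x y : Ω) :
    (univ.filter fun w => Col G x y ω w).card =
      (univ.filter fun t => Col G x y (SM7_pick c P P' t) (SM7_pick c Q Q' t)).card := by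
  obtain ⟨g, hg⟩ := ht x ω
  have hb : Col G x y ω (g • y) := ⟨g, hg, rfl⟩
  generalize g • y = b at hb
  have e0 : ∀ u v, Col G x y u v ↔ Col G ω b u v :=
    fun u v => ⟨fun k => hb.symm.trans k, fun k => hb.trans k⟩
  have e1 : ∀ l, Col G ω b (P' l) (Q' l) ↔ Col G ω b (Q l) (P l) :=
    fun l => ⟨fun k => k.trans (hf l), fun k => k.trans (hf l).symm⟩
  rw [filter_congr fun w _ => e0 ω w, filter_congr fun t _ => e0 _ _, SM7_card, card_col ht]
  simp only [SM7_pick]
  rw [filter_congr fun l _ => e1 l]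
  by_cases hbω : b = ω
  · subst hbω
    obtain ⟨k, hk⟩ := ht b c
    rw [kd_self, if_pos ⟨k, hk, hk⟩,
      filter_eq_empty_iff.2 fun l _ hl => hne l (hl.eq_iff.1 rfl),
      filter_eq_empty_iff.2 fun l _ hl => hne l (hl.eq_iff.1 rfl).symm]
    rfl
  · have a1 := hm b hbω
    have a2 := SM7_two (G := G) P Q ω b
    have a3 := SM7_two (G := G) (fun _ => ω) (fun w => w) ω b
    rw [card_col ht, card_col' ht, ← a1] at a3
    rw [if_neg fun k => hbω (k.eq_iff.2 rfl).symm, a2]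
    split_ifs at a3 ⊢ <;> omega

theorem small_bp (h : Prim0 G Ω) (h4 : ∀ x y : Ω, x ≠ y → 4 ≤ kd G x y) {s p : ℕ} [Fact p.Prime]
    {z : G} {e : Fin s × ZMod p ≃ Ω} (hz : ∀ i x, z • e (i, x) = e (i, x + 1)) (i0 : Fin s)
    {sl : List (Fin s × Fin s)} (hl : 2 * sl.length + 1 = s * p) (hH : HallProp p sl)
    (hlt : ∀ i j, patOf i0 sl i j < p) (hδ : ¬ (p : ℤ) ^ 2 ∣ delta (ZMod p) (patOf i0 sl))
    (ω : Ω) : BP G ω := by
  obtain ⟨dd, hne, hm⟩ := hall_match h h4 hz hl hH ω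
  have hf : ∀ l : Fin sl.length, Col G (e (sl[l].2, 0)) (e (sl[l].1, -dd l)) (e (sl[l].2, dd l))
      (e (sl[l].1, 0)) := fun l =>
    ⟨z ^ (dd l).val, by rw [shift_pow hz, zero_add], by rw [shift_pow hz, neg_add_cancel]⟩
  obtain ⟨E, hE⟩ := SM7_fib (G := G) (fun _ => ω) (fun w => w) _ _
    (SM7_col h.trans (e (i0, 0)) ω (fun l : Fin sl.length => e (sl[l].1, 0))
      (fun l => e (sl[l].2, dd l)) (fun l => e (sl[l].2, 0)) (fun l => e (sl[l].1, -dd l)) hne hf hm)
  obtain ⟨x, hx1, hx2⟩ := multi_hall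
    (SM7_pick i0 (fun l : Fin sl.length => sl[l].1) (fun l => sl[l].2))
    (SM7_pick i0 (fun l : Fin sl.length => sl[l].2) (fun l => sl[l].1))
    (SM7_pick 0 dd fun l => -dd l)
    (by rw [Fintype.card_option, Fintype.card_prod, Fintype.card_fin, Fintype.card_bool]; omega)
    (by rw [SM7_sum]; simp [SM7_pick])
    (fun i j => by rw [SM7_cnt]; exact hlt i j)
    (by simp only [SM7_cnt]; exact hδ)
  refine ⟨Equiv.ofBijective _ (Finite.injective_iff_bijective.1
      (e.injective.comp (hx1.comp E.injective))),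
    Equiv.ofBijective _ (Finite.injective_iff_bijective.1
      (e.injective.comp (hx2.comp E.injective))), fun b => ?_⟩
  obtain ⟨g, hg1, hg2⟩ := hE b
  refine ⟨z ^ (x (E b)).val * g, ?_, ?_⟩
  · rw [mul_smul, hg1, Equiv.ofBijective_apply, Function.comp_apply, Function.comp_apply]
    rcases E b with _ | ⟨l, _ | _⟩ <;> simp only [SM7_pick, shift_pow hz, zero_add]
  · rw [mul_smul, hg2, Equiv.ofBijective_apply, Function.comp_apply, Function.comp_apply]
    rcases E b with _ | ⟨l, _ | _⟩ <;> simp only [SM7_pick, shift_pow hz, add_comm]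

end Pool.Agent.Work.MP_66fdf3_co.Full
end

-- merged part: Pool.Agent.Work.MP_66fdf3_co.Full.S2
section
/-!
Fix `a` with `cl a ≠ x0`.  For a point `x` and coefficients `c`, `w x c = fun z => ∑ b, c b * U a b z x` is fixed by
the stabiliser of `x` (invariance) and has sum zero (`E0_mul_U`), so it vanishes if it is constant.
`col_indep`: multiply by `U b a`: `∑ b', c b' * U b b' x x = c b * d / m`.
`two_indep`: `w x c = - w y c'` is fixed by the stabiliser of `x` and by an element of the stabiliser of `y`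
moving `x` (`Prim0.move`, `Prim0.fixed_vec`).
`three_mu`: the `3 μ` vectors `U a b · x`, `x ∈ {α, β, γ}`, `cl b = cl a`, are independent; factor
`U a a = B * Bᴴ` (`proj_factor`, `r = d` by `trace_U`); `v ↦ Bᴴ *ᵥ v` is injective on vectors with
`U a a *ᵥ v = v`; `LinearIndependent.fintype_card_le_finrank` in `Fin r → ℂ` with index type
`Fin 3 × {b // cl b = χ}` (`Fintype.linearIndependent_iff`).
-/

namespace Pool.Agent.Work.MP_66fdf3_co.Full

open Finset Matrix

variable {G Ω : Type} [Group G] [Finite G] [MulAction G Ω] [Fintype Ω] [DecidableEq Ω]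

variable {A X : Type} [Fintype A] [DecidableEq A] [Fintype X] [DecidableEq X] (S : Spec Ω A X)

theorem col_indep (a : A) (x : Ω) (c : A → ℂ) (h0 : ∀ z, ∑ b, c b * S.U a b z x = 0) {b : A}
    (hb : S.cl b = S.cl a) : c b = 0 := by
  have : Nonempty Ω := ⟨x⟩
  have h1 : ∑ z, S.U b a x z * ∑ b', c b' * S.U a b' z x = ∑ b', c b' * S.U b b' x x := by
    simp only [Finset.mul_sum]
    rw [Finset.sum_comm]
    refine Finset.sum_congr rfl fun b' _ => ?_
    rw [← S.mul b a b' hb, Matrix.mul_apply, Finset.mul_sum]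
    exact Finset.sum_congr rfl fun z _ => by ring
  simp only [h0, mul_zero, Finset.sum_const_zero] at h1
  rw [Finset.sum_eq_single b (fun b' _ hb' => by rw [S.diag0 b b' x hb'.symm, mul_zero])
    (fun hb' => absurd (mem_univ b) hb'), S.diag] at h1
  refine (mul_eq_zero.1 h1.symm).resolve_right (div_ne_zero ?_ ?_)
  · exact Nat.cast_ne_zero.2 (S.dpos _).ne'
  · exact Nat.cast_ne_zero.2 Fintype.card_ne_zero

theorem S2_inv (hI : ∀ a b, Inv G (S.U a b)) (a : A) (c : A → ℂ) {x : Ω} {g : G} (hg : g • x = x)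
    (z : Ω) : ∑ b, c b * S.U a b (g • z) x = ∑ b, c b * S.U a b z x := by
  refine Finset.sum_congr rfl fun b _ => ?_
  rw [← hI a b g z x, hg]

theorem S2_zero (h : Prim0 G Ω) (hI : ∀ a b, Inv G (S.U a b)) {a : A} (ha : a ≠ S.a0) (c : A → ℂ)
    {x : Ω} {k : G} (hk : k • x ≠ x)
    (h2 : ∀ z, ∑ b, c b * S.U a b (k • z) x = ∑ b, c b * S.U a b z x) (z : Ω) :
    ∑ b, c b * S.U a b z x = 0 := by
  have : Nonempty Ω := ⟨x⟩
  have hm : (Fintype.card Ω : ℂ) ≠ 0 := Nat.cast_ne_zero.2 Fintype.card_ne_zero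
  have h1 := h.fixed_vec (fun z => ∑ b, c b * S.U a b z x) x
    (fun g hg z => S2_inv S hI a c hg z) hk h2
  have h3 : ∀ b, ∑ z, S.U a b z x = 0 := by
    intro b
    have h4 := congrFun (congrFun (S.E0_mul_U (a := a) (b := b) (Or.inl ha)) x) x
    rw [Matrix.mul_apply] at h4
    simp only [E0, Matrix.of_apply, Matrix.zero_apply] at h4
    rw [← Finset.mul_sum] at h4
    exact (mul_eq_zero.1 h4).resolve_left (inv_ne_zero hm)
  have h4 : ∑ z', ∑ b, c b * S.U a b z' x = 0 := by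
    rw [Finset.sum_comm]
    simp only [← Finset.mul_sum, h3, mul_zero, Finset.sum_const_zero]
  rw [Finset.sum_congr rfl fun z' _ => h1 z' z, Finset.sum_const, Finset.card_univ,
    nsmul_eq_mul] at h4
  exact (mul_eq_zero.1 h4).resolve_left hm

theorem two_indep (h : Prim0 G Ω) (hI : ∀ a b, Inv G (S.U a b)) {a : A} (ha : a ≠ S.a0) {x y : Ω}
    (hne : x ≠ y) (c c' : A → ℂ)
    (h0 : ∀ z, ∑ b, c b * S.U a b z x + ∑ b, c' b * S.U a b z y = 0) (z : Ω) :
    ∑ b, c b * S.U a b z x = 0 := by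
  obtain ⟨k, h1, h2⟩ := h.move hne.symm
  refine S2_zero S h hI ha c h2 (fun z => ?_) z
  have h3 := S2_inv S hI a c' h1 z
  linear_combination h0 (k • z) - h0 z - h3

theorem three_mu (h : Prim0 G Ω) (hI : ∀ a b, Inv G (S.U a b)) {k : G} {α β γ : Ω} (hne : α ≠ β)
    (h1 : k • α = α) (h2 : k • β = β) (h3 : k • γ ≠ γ) {χ : X} (hχ : χ ≠ S.x0) :
    3 * S.mu χ ≤ S.d χ := by
  have : Nonempty Ω := ⟨α⟩
  obtain ⟨a, rfl⟩ := S.surj χ
  have ha : a ≠ S.a0 := fun e => hχ (by rw [e]; rfl)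
  obtain ⟨r, B, hB, -, hr⟩ := proj_factor (S.U a a) (S.star a a) (S.mul a a a rfl)
  rw [S.trace_U, Nat.cast_inj] at hr
  have hli : LinearIndependent ℂ fun q : Fin 3 × {b // S.cl b = S.cl a} =>
      Bᴴ *ᵥ fun z => S.U a q.2 z (![α, β, γ] q.1) := by
    rw [Fintype.linearIndependent_iff]
    intro g hg
    let c : Fin 3 → A → ℂ := fun i b => if hb : S.cl b = S.cl a then g (i, ⟨b, hb⟩) else 0
    have hc : ∀ (i : Fin 3) (x z : Ω), ∑ b, c i b * S.U a b z x =
        ∑ b : {b // S.cl b = S.cl a}, g (i, b) * S.U a b z x := by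
      intro i x z
      rw [← Fintype.sum_subtype_add_sum_subtype (fun b => S.cl b = S.cl a)]
      have e1 : ∀ b : {b // S.cl b = S.cl a}, c i b = g (i, b) := fun b => dif_pos b.2
      have e2 : ∀ b : {b // ¬ S.cl b = S.cl a}, c i b = 0 := fun b => dif_neg b.2
      simp only [e1, e2, zero_mul, Finset.sum_const_zero, add_zero]
    have h0 : ∀ z, ∑ b, c 0 b * S.U a b z α + ∑ b, c 1 b * S.U a b z β +
        ∑ b, c 2 b * S.U a b z γ = 0 := by
      intro z
      have h4 := congrFun (congrArg (B *ᵥ ·) hg) z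
      have h5 : ∀ (b : A) (x : Ω), (S.U a a *ᵥ fun z => S.U a b z x) = fun z => S.U a b z x := by
        intro b x
        funext z
        conv_rhs => rw [← S.mul a a b rfl]
        rfl
      simp only [Matrix.mulVec_sum, Matrix.mulVec_smul, Matrix.mulVec_mulVec, hB, h5,
        Matrix.mulVec_zero, Finset.sum_apply, Pi.smul_apply, smul_eq_mul, Pi.zero_apply] at h4
      rw [Fintype.sum_prod_type, Fin.sum_univ_three] at h4
      rw [hc, hc, hc]
      exact h4
    have z2 : ∀ z, ∑ b, c 2 b * S.U a b z γ = 0 := by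
      refine S2_zero S h hI ha (c 2) h3 fun z => ?_
      have e1 := S2_inv S hI a (c 0) h1 z
      have e2 := S2_inv S hI a (c 1) h2 z
      linear_combination h0 (k • z) - h0 z - e1 - e2
    have z0 : ∀ z, ∑ b, c 0 b * S.U a b z α = 0 :=
      two_indep S h hI ha hne (c 0) (c 1) fun z => by linear_combination h0 z - z2 z
    have z1 : ∀ z, ∑ b, c 1 b * S.U a b z β = 0 := fun z => by
      linear_combination h0 z - z2 z - z0 z
    rintro ⟨i, b, hb⟩
    have e : c i b = g (i, ⟨b, hb⟩) := dif_pos hb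
    rw [← e]
    fin_cases i
    · exact col_indep S a α (c 0) z0 hb
    · exact col_indep S a β (c 1) z1 hb
    · exact col_indep S a γ (c 2) z2 hb
  have h4 := hli.fintype_card_le_finrank
  rw [Fintype.card_prod, Fintype.card_fin, Fintype.card_subtype, Module.finrank_fin_fun, ← hr] at h4
  exact h4

end Pool.Agent.Work.MP_66fdf3_co.Full
end

-- merged part: Pool.Agent.Work.MP_66fdf3_co.Full.S3
section
/-!
`unitary_three`: `N = M - 1` kills `u` and `v`.  One way: let `w` be a nonzero vector orthogonal to `u, v`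
(conjugate of the cross product); `M w` is orthogonal to `u, v`, so `M w = l w`; with the invertible matrix
`T = [u | v | w]` we get `M * T = T * diagonal (1, 1, l)`, so `l = det M = 1` and `M = 1`.
`d_three`: `E = U a a = B * Bᴴ` with `B : Matrix Ω (Fin 3) ℂ`; `ρ g = Bᴴ * Pm g * B` is multiplicative and
unitary because `Pm g` commutes with `E`; `N = {g | det (ρ g) = 1}` is the kernel of a homomorphism to `ℂˣ`
(or define the subgroup by hand).  If `g ∈ N` fixes `x ≠ y` then `ρ g` fixes the columns `Bᴴ · x`, `Bᴴ · y`,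
which are independent by `two_indep` and `col_indep` (coefficients supported at `a`), so `ρ g = 1`,
`E z (g • x') = E z x'` for all `x'`, so `g • x' = x'` by `two_indep` again, `g = 1`.  By `normal_trans` either
`N` is transitive (`bp_of_frob`), or `N` is trivial, `G` is commutative, and `Prim0.move` gives an element
fixing one point, hence all points, and moving another one (two distinct points exist since `E ≠ 0` and
`E * E0 = 0`).
-/

namespace Pool.Agent.Work.MP_66fdf3_co.Full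

open Finset Matrix

variable {G Ω : Type} [Group G] [Finite G] [MulAction G Ω] [Fintype Ω] [DecidableEq Ω]

variable {A X : Type} [Fintype A] [DecidableEq A] [Fintype X] [DecidableEq X] (S : Spec Ω A X)

theorem crossS3 (M : Matrix (Fin 3) (Fin 3) ℂ) (u v : Fin 3 → ℂ) :
    crossProduct (M *ᵥ u) (M *ᵥ v) = M.adjugateᵀ *ᵥ crossProduct u v := by
  ext i
  fin_cases i <;>
    simp [Matrix.adjugate_fin_three, cross_apply, Matrix.mulVec, dotProduct, Fin.sum_univ_three] <;>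
    ring

theorem unitary_three (M : Matrix (Fin 3) (Fin 3) ℂ) (hM : Mᴴ * M = 1) (hd : M.det = 1)
    (u v : Fin 3 → ℂ) (hu : M *ᵥ u = u) (hv : M *ᵥ v = v)
    (hi : ∀ c c' : ℂ, c • u + c' • v = 0 → c = 0 ∧ c' = 0) : M = 1 := by
  have hadj : M.adjugate = Mᴴ := by
    have h1 : M * M.adjugate = 1 := by rw [Matrix.mul_adjugate, hd, one_smul]
    calc M.adjugate = (Mᴴ * M) * M.adjugate := by rw [hM, Matrix.one_mul]
      _ = Mᴴ := by rw [Matrix.mul_assoc, h1, Matrix.mul_one]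
  set n : Fin 3 → ℂ := crossProduct u v with hn
  have hn1 : n = (Mᴴ)ᵀ *ᵥ n := by
    have := crossS3 M u v
    rwa [hu, hv, hadj] at this
  have hw : M *ᵥ (fun i => (starRingEnd ℂ) (n i)) = fun i => (starRingEnd ℂ) (n i) := by
    funext i
    have h1 := congrArg (starRingEnd ℂ) (congrFun hn1 i)
    rw [h1]
    simp [Matrix.mulVec, dotProduct]
  have hn0 : n ≠ 0 := by
    intro h0
    have e0 := congrFun h0 0
    have e1 := congrFun h0 1
    have e2 := congrFun h0 2
    simp only [hn, cross_apply, Pi.zero_apply, Matrix.cons_val_zero, Matrix.cons_val_one,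
      Matrix.cons_val] at e0 e1 e2
    have key : ∀ i, u i = 0 := by
      intro i
      have := (hi (v i) (-(u i)) ?_).2
      · simpa using this
      · funext j
        fin_cases i <;> fin_cases j <;> simp <;>
          first
            | linear_combination e0
            | linear_combination e1
            | linear_combination e2
            | linear_combination -e0
            | linear_combination -e1
            | linear_combination -e2
            | ring
    have := (hi 1 0 (by funext j; simp [key j])).1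
    exact one_ne_zero this
  let T : Matrix (Fin 3) (Fin 3) ℂ :=
    Matrix.of fun i j => ![u, v, fun i => (starRingEnd ℂ) (n i)] j i
  have hT : M * T = T := by
    ext i j
    fin_cases j
    · exact congrFun hu i
    · exact congrFun hv i
    · exact congrFun hw i
  have hdet : T.det = ((∑ i, Complex.normSq (n i) : ℝ) : ℂ) := by
    simp only [Fin.sum_univ_three, Complex.ofReal_add, ← Complex.mul_conj]
    simp [T, Matrix.det_fin_three, hn, cross_apply]
    ring
  have hne : T.det ≠ 0 := by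
    rw [hdet, Complex.ofReal_ne_zero]
    intro h0
    rw [Finset.sum_eq_zero_iff_of_nonneg (fun i _ => Complex.normSq_nonneg _)] at h0
    exact hn0 (funext fun i => Complex.normSq_eq_zero.1 (h0 i (mem_univ _)))
  have hu' : IsUnit T.det := isUnit_iff_ne_zero.2 hne
  calc M = M * T * T⁻¹ := by rw [Matrix.mul_assoc, Matrix.mul_nonsing_inv _ hu', Matrix.mul_one]
    _ = 1 := by rw [hT, Matrix.mul_nonsing_inv _ hu']

theorem indepS3 (h : Prim0 G Ω) (hI : ∀ a b, Inv G (S.U a b)) {a : A} (ha : a ≠ S.a0) {x y : Ω}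
    (hne : x ≠ y) (c c' : ℂ) (h0 : ∀ z, c * S.U a a z x + c' * S.U a a z y = 0) : c = 0 := by
  have h1 := two_indep S h hI ha hne (fun b => if b = a then c else 0)
    (fun b => if b = a then c' else 0) (by intro z; simpa using h0 z)
  have h2 := col_indep S a x (fun b => if b = a then c else 0) h1 (b := a) rfl
  simpa using h2

theorem d_three (h : Prim G Ω) (hI : ∀ a b, Inv G (S.U a b)) {χ : X} (hχ : χ ≠ S.x0)
    (h3 : S.d χ = 3) (ω : Ω) : BP G ω := by
  have : Nonempty Ω := ⟨ω⟩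
  obtain ⟨a, rfl⟩ := S.surj χ
  have ha : a ≠ S.a0 := fun e => hχ (by rw [e]; rfl)
  obtain ⟨r, B, hB1, hB2, hr⟩ := proj_factor (S.U a a) (S.star a a) (S.mul a a a rfl)
  rw [S.trace_U, h3] at hr
  have hr3 : 3 = r := by exact_mod_cast hr
  subst hr3
  have hc : ∀ g : G, Pm Ω g * (B * Bᴴ) = B * Bᴴ * Pm Ω g := by
    intro g
    rw [hB1]
    exact (inv_iff_comm _).1 (hI a a) g
  have hρB : ∀ g : G, Bᴴ * Pm Ω g * B * Bᴴ = Bᴴ * Pm Ω g := by
    intro g
    rw [Matrix.mul_assoc, Matrix.mul_assoc, hc, ← Matrix.mul_assoc, ← Matrix.mul_assoc, hB2,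
      Matrix.one_mul]
  have hmul : ∀ g k : G, Bᴴ * Pm Ω (g * k) * B = (Bᴴ * Pm Ω g * B) * (Bᴴ * Pm Ω k * B) := by
    intro g k
    rw [← Matrix.mul_assoc, ← Matrix.mul_assoc, hρB, Pm_mul, ← Matrix.mul_assoc]
  have hone : Bᴴ * Pm Ω (1 : G) * B = 1 := by rw [Pm_one, Matrix.mul_one, hB2]
  let φ : G →* ℂ :=
    { toFun := fun g => (Bᴴ * Pm Ω g * B).det
      map_one' := by rw [hone, Matrix.det_one]
      map_mul' := fun g k => by rw [hmul, Matrix.det_mul] }
  let N : Subgroup G := φ.toHomUnits.ker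
  have hN : ∀ g ∈ N, (Bᴴ * Pm Ω g * B).det = 1 := by
    intro g hg
    exact congrArg Units.val (MonoidHom.mem_ker.1 hg)
  have h2 : ∀ g ∈ N, ∀ x y : Ω, x ≠ y → g • x = x → g • y = y → g = 1 := by
    intro g hg x y hxy hx hy
    have hfix : ∀ x : Ω, g • x = x →
        (Bᴴ * Pm Ω g * B) *ᵥ (fun j => Bᴴ j x) = fun j => Bᴴ j x := by
      intro x hx
      funext i
      have e1 := congrFun (congrFun (hρB g) i) x
      rw [mul_Pm_apply, hx] at e1
      exact e1
    have hE : ∀ (c c' : ℂ) (x y : Ω), c • (fun j => Bᴴ j x) + c' • (fun j => Bᴴ j y) = 0 →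
        ∀ z, c * S.U a a z x + c' * S.U a a z y = 0 := by
      intro c c' x y h0 z
      rw [← hB1, Matrix.mul_apply, Matrix.mul_apply, Finset.mul_sum, Finset.mul_sum,
        ← Finset.sum_add_distrib]
      refine Finset.sum_eq_zero fun j _ => ?_
      have e1 := congrFun h0 j
      simp only [Pi.add_apply, Pi.smul_apply, smul_eq_mul, Pi.zero_apply] at e1
      linear_combination B z j * e1
    have hun : (Bᴴ * Pm Ω g * B)ᴴ * (Bᴴ * Pm Ω g * B) = 1 := by
      rw [Matrix.conjTranspose_mul, Matrix.conjTranspose_mul, Matrix.conjTranspose_conjTranspose,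
        Pm_star, ← Matrix.mul_assoc Bᴴ, ← hmul, inv_mul_cancel, hone]
    have h1 : Bᴴ * Pm Ω g * B = 1 := by
      refine unitary_three _ hun (hN g hg) _ _ (hfix x hx) (hfix y hy) fun c c' h0 => ⟨?_, ?_⟩
      · exact indepS3 S h.toPrim0 hI ha hxy c c' (hE c c' x y h0)
      · exact indepS3 S h.toPrim0 hI ha hxy.symm c' c (hE c' c y x (by rw [add_comm]; exact h0))
    have h4 : Bᴴ * Pm Ω g = Bᴴ := by rw [← hρB, h1, Matrix.one_mul]
    refine h.faith g fun x' => ?_
    by_contra hx'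
    have h5 := indepS3 S h.toPrim0 hI ha hx' 1 (-1) (hE 1 (-1) _ _ ?_)
    · exact one_ne_zero h5
    · funext j
      have e1 := congrFun (congrFun h4 j) x'
      rw [mul_Pm_apply] at e1
      simp only [Pi.add_apply, Pi.smul_apply, smul_eq_mul, Pi.zero_apply, e1]
      ring
  rcases h.toPrim0.normal_trans N with h6 | h6
  · by_cases hy : ∃ y : Ω, ω ≠ y
    · obtain ⟨y, hy⟩ := hy
      obtain ⟨g, hg1, hg2⟩ := h.toPrim0.move hy
      obtain ⟨k, rfl⟩ := h.trans ω y
      have hm : (k * g)⁻¹ * (g * k) ∈ N := by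
        rw [MonoidHom.mem_ker, map_mul, map_inv, map_mul, map_mul, mul_comm (φ.toHomUnits g),
          inv_mul_cancel]
      have hcomm : k * g = g * k := inv_mul_eq_one.1 (h.faith _ (h6 _ hm))
      exact absurd (by rw [← mul_smul, ← hcomm, mul_smul, hg1]) hg2
    · push Not at hy
      exact ⟨1, 1, fun b => ⟨1, by simpa using hy b, by simp⟩⟩
  · exact bp_of_frob ω N h6 h2 h.odd

end Pool.Agent.Work.MP_66fdf3_co.Full
end

-- merged part: Pool.Agent.Work.MP_66fdf3_co.Full.X2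
section
/-!
Abstract measure step.  For each word `w`: `1 ≤ ∏ χ, (∑ c, p c * z c ^ n w χ / (n w χ)!)`; expand with
`Finset.prod_univ_sum` into a sum over `f : X → C`.  For each `t, χ` choose `Ψ t χ : C → ℝ` from `EpsOK`.
For `f` take the term `t` given by `hcov`; all weights `wt t (f χ)` are nonzero, so `hK` applies and the
inner sum is at most `coef t * (∏ wt) * K t * ∏ Ψ ^ 2`, which is at most the sum of these nonnegative
expressions over all `t`.  Exchange the sums, factor the sum over `f` again, use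
`∏ A ^ (μ ^ 2) = A ^ (∑ μ ^ 2) ≤ A ^ ((m - 1) / 4)`.
-/

namespace Pool.Agent.Work.MP_66fdf3_co.Full

open Finset Matrix

theorem meas_step {W X C T : Type} [Fintype X] [DecidableEq X] [Fintype C] [Fintype T]
    (s : Finset W) (a : W → ℝ) (ha : ∀ w ∈ s, 0 ≤ a w) (n : W → X → ℕ) {m : ℕ}
    (hn : ∀ w χ, n w χ ≤ m) (μ d : X → ℕ)
    (hadm : ∀ χ, 1 ≤ μ χ ∧ 4 ≤ d χ ∧ 3 * μ χ ≤ d χ ∧ μ χ * d χ + 1 ≤ m)
    (hsum : 4 * (∑ χ, μ χ ^ 2) + 1 ≤ m) {p z : C → ℝ} (hm : MomDom m p z)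
    (τ y coef A K : T → ℝ) (wt : T → C → ℝ)
    (ht : ∀ t, 0 ≤ coef t ∧ 1 ≤ A t ∧ 0 ≤ K t ∧ (∀ c, 0 ≤ wt t c) ∧
      EpsOK m p z (τ t) (y t) (wt t) (A t))
    (hcov : ∀ f : X → C, ∃ t, 1 ≤ coef t * ∏ χ, wt t (f χ))
    (hK : ∀ (t : T) (f : X → C) (Ψ : X → ℝ),
      (∀ χ, PsiOK m (τ t) (y t) (μ χ * d χ) (max (√(z (f χ) / d χ) - τ t) 0) (Ψ χ)) →
      ∑ w ∈ s, a w * ∏ χ, (z (f χ) / d χ) ^ n w χ / ((n w χ).factorial : ℝ) ≤
        K t * ∏ χ, Ψ χ ^ 2) :
    ∑ w ∈ s, a w / ∏ χ, (d χ : ℝ) ^ n w χ ≤ ∑ t, coef t * K t * A t ^ ((m - 1) / 4) := by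
  classical
  obtain ⟨hp, hz, hmom⟩ := hm
  have hμ : ∀ χ, 4 * μ χ ^ 2 + 1 ≤ m := by
    intro χ
    have : μ χ ^ 2 ≤ ∑ χ, μ χ ^ 2 :=
      Finset.single_le_sum (f := fun χ => μ χ ^ 2) (fun _ _ => Nat.zero_le _) (Finset.mem_univ χ)
    omega
  have hex : ∀ t χ, ∃ Ψ : C → ℝ,
      (∀ c, wt t c ≠ 0 → PsiOK m (τ t) (y t) (μ χ * d χ) (max (√(z c / d χ) - τ t) 0) (Ψ c)) ∧
      ∑ c, p c * wt t c * Ψ c ^ 2 ≤ A t ^ (μ χ ^ 2) := by
    intro t χ
    obtain ⟨h1, h2, h3, h4⟩ := hadm χ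
    exact (ht t).2.2.2.2 (μ χ) (d χ) h1 h2 h3 (hμ χ) h4
  choose Ψ hΨ1 hΨ2 using hex
  have hdpos : ∀ χ, (0 : ℝ) < d χ := by
    intro χ
    have := (hadm χ).2.1
    exact_mod_cast (by omega : 0 < d χ)
  -- step 1
  have step1 : ∀ w ∈ s, a w / ∏ χ, (d χ : ℝ) ^ n w χ ≤
      ∑ f : X → C, (∏ χ, p (f χ)) *
        (a w * ∏ χ, (z (f χ) / d χ) ^ n w χ / ((n w χ).factorial : ℝ)) := by
    intro w hw
    have h1 : ∀ χ, ((d χ : ℝ) ^ n w χ)⁻¹ ≤
        ∑ c, p c * ((z c / d χ) ^ n w χ / ((n w χ).factorial : ℝ)) := by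
      intro χ
      have hf : (0 : ℝ) < ((n w χ).factorial : ℝ) := by exact_mod_cast Nat.factorial_pos _
      have hd : (0 : ℝ) < (d χ : ℝ) ^ n w χ := pow_pos (hdpos χ) _
      have h2 := hmom (n w χ) (hn w χ)
      have h3 : ∑ c, p c * ((z c / d χ) ^ n w χ / ((n w χ).factorial : ℝ)) =
          (∑ c, p c * z c ^ n w χ) / ((n w χ).factorial : ℝ) * ((d χ : ℝ) ^ n w χ)⁻¹ := by
        rw [Finset.sum_div, Finset.sum_mul]
        refine Finset.sum_congr rfl fun c _ => ?_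
        rw [div_pow]
        field_simp
      rw [h3]
      have h4 : 1 ≤ (∑ c, p c * z c ^ n w χ) / ((n w χ).factorial : ℝ) := by
        rw [le_div_iff₀ hf]; linarith
      exact le_mul_of_one_le_left (inv_nonneg.2 hd.le) h4
    have h2 : ∏ χ, ((d χ : ℝ) ^ n w χ)⁻¹ ≤
        ∏ χ, ∑ c, p c * ((z c / d χ) ^ n w χ / ((n w χ).factorial : ℝ)) :=
      Finset.prod_le_prod (fun χ _ => inv_nonneg.2 (pow_pos (hdpos χ) _).le) fun χ _ => h1 χ
    rw [Finset.prod_univ_sum, Fintype.piFinset_univ] at h2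
    calc a w / ∏ χ, (d χ : ℝ) ^ n w χ = a w * ∏ χ, ((d χ : ℝ) ^ n w χ)⁻¹ := by
          rw [Finset.prod_inv_distrib, div_eq_mul_inv]
      _ ≤ a w * ∑ f : X → C, ∏ χ, p (f χ) *
            ((z (f χ) / d χ) ^ n w χ / ((n w χ).factorial : ℝ)) :=
          mul_le_mul_of_nonneg_left h2 (ha w hw)
      _ = _ := by
          rw [Finset.mul_sum]
          refine Finset.sum_congr rfl fun f _ => ?_
          rw [Finset.prod_mul_distrib]
          ring
  -- step 2
  have step2 : ∀ f : X → C,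
      ∑ w ∈ s, a w * ∏ χ, (z (f χ) / d χ) ^ n w χ / ((n w χ).factorial : ℝ) ≤
        ∑ t, coef t * K t * ∏ χ, wt t (f χ) * Ψ t χ (f χ) ^ 2 := by
    intro f
    obtain ⟨t, htf⟩ := hcov f
    have hne : ∀ χ, wt t (f χ) ≠ 0 := by
      intro χ h0
      rw [Finset.prod_eq_zero (Finset.mem_univ χ) h0] at htf
      linarith
    have h1 := hK t f (fun χ => Ψ t χ (f χ)) fun χ => hΨ1 t χ (f χ) (hne χ)
    have hnn : ∀ t', 0 ≤ coef t' * K t' * ∏ χ, wt t' (f χ) * Ψ t' χ (f χ) ^ 2 := by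
      intro t'
      obtain ⟨h2, -, h3, h4, -⟩ := ht t'
      exact mul_nonneg (mul_nonneg h2 h3)
        (Finset.prod_nonneg fun χ _ => mul_nonneg (h4 _) (sq_nonneg _))
    have h2 : K t * ∏ χ, Ψ t χ (f χ) ^ 2 ≤
        coef t * K t * ∏ χ, wt t (f χ) * Ψ t χ (f χ) ^ 2 := by
      have h3 : 0 ≤ K t * ∏ χ, Ψ t χ (f χ) ^ 2 :=
        mul_nonneg (ht t).2.2.1 (Finset.prod_nonneg fun χ _ => sq_nonneg _)
      calc K t * ∏ χ, Ψ t χ (f χ) ^ 2
          ≤ (coef t * ∏ χ, wt t (f χ)) * (K t * ∏ χ, Ψ t χ (f χ) ^ 2) :=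
            le_mul_of_one_le_left h3 htf
        _ = _ := by rw [Finset.prod_mul_distrib]; ring
    exact h1.trans (h2.trans
      (Finset.single_le_sum
        (f := fun t' => coef t' * K t' * ∏ χ, wt t' (f χ) * Ψ t' χ (f χ) ^ 2)
        (fun t' _ => hnn t') (Finset.mem_univ t)))
  -- step 3
  have step3 : ∀ t, ∑ f : X → C, (∏ χ, p (f χ)) *
      (coef t * K t * ∏ χ, wt t (f χ) * Ψ t χ (f χ) ^ 2) ≤
      coef t * K t * A t ^ ((m - 1) / 4) := by
    intro t
    obtain ⟨h2, hA, h3, h4, -⟩ := ht t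
    have e1 : ∑ f : X → C, (∏ χ, p (f χ)) *
        (coef t * K t * ∏ χ, wt t (f χ) * Ψ t χ (f χ) ^ 2) =
        coef t * K t * ∏ χ, ∑ c, p c * wt t c * Ψ t χ c ^ 2 := by
      rw [Finset.prod_univ_sum, Fintype.piFinset_univ, Finset.mul_sum]
      refine Finset.sum_congr rfl fun f _ => ?_
      simp only [Finset.prod_mul_distrib]
      ring
    rw [e1]
    refine mul_le_mul_of_nonneg_left ?_ (mul_nonneg h2 h3)
    calc ∏ χ, ∑ c, p c * wt t c * Ψ t χ c ^ 2 ≤ ∏ χ, A t ^ (μ χ ^ 2) :=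
          Finset.prod_le_prod (fun χ _ => Finset.sum_nonneg fun c _ =>
            mul_nonneg (mul_nonneg (hp c) (h4 c)) (sq_nonneg _)) fun χ _ => hΨ2 t χ
      _ = A t ^ (∑ χ, μ χ ^ 2) := Finset.prod_pow_eq_pow_sum _ _ _
      _ ≤ A t ^ ((m - 1) / 4) := pow_le_pow_right₀ hA (by omega)
  calc ∑ w ∈ s, a w / ∏ χ, (d χ : ℝ) ^ n w χ
      ≤ ∑ w ∈ s, ∑ f : X → C, (∏ χ, p (f χ)) *
        (a w * ∏ χ, (z (f χ) / d χ) ^ n w χ / ((n w χ).factorial : ℝ)) :=
        Finset.sum_le_sum step1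
    _ = ∑ f : X → C, (∏ χ, p (f χ)) *
        ∑ w ∈ s, a w * ∏ χ, (z (f χ) / d χ) ^ n w χ / ((n w χ).factorial : ℝ) := by
        rw [Finset.sum_comm]
        exact Finset.sum_congr rfl fun f _ => (Finset.mul_sum _ _ _).symm
    _ ≤ ∑ f : X → C, (∏ χ, p (f χ)) *
        ∑ t, coef t * K t * ∏ χ, wt t (f χ) * Ψ t χ (f χ) ^ 2 :=
        Finset.sum_le_sum fun f _ =>
          mul_le_mul_of_nonneg_left (step2 f) (Finset.prod_nonneg fun χ _ => hp _)
    _ = ∑ t, ∑ f : X → C, (∏ χ, p (f χ)) *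
        (coef t * K t * ∏ χ, wt t (f χ) * Ψ t χ (f χ) ^ 2) := by
        rw [Finset.sum_comm]
        exact Finset.sum_congr rfl fun f _ => Finset.mul_sum _ _ _
    _ ≤ _ := Finset.sum_le_sum fun t _ => step3 t

end Pool.Agent.Work.MP_66fdf3_co.Full
end

-- merged part: Pool.Agent.Work.MP_66fdf3_co.Full.X3
section
/-!
For a fixed vector `t` with `t x0 = ψ`.  With `P w = Mw w * ∏ i, t (w i)`, `n0 = cnt w x0 = m - lev w`:
the term equals `P w ^ 2 / ((φ ψ²) ^ n0 * ∏ χ ≠ x0, n χ !)` (`prod_eq_prod_cnt`,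
`Fintype.prod_eq_mul_prod_subtype_ne`), and `P w ≤ n0 ! * (∏ χ ≠ x0, n χ !) * Zf / m !` by `orbit_le`.
So the term is at most `P w * Cf n0 (φ ψ²) * Zf / m !`; `Cf_le_max` with `m - j2 ≤ n0 ≤ m - j1`
(`lev_add_cnt`); sum the `P w`.
-/

namespace Pool.Agent.Work.MP_66fdf3_co.Full

open Finset Matrix

namespace Spec

variable {Ω A X : Type} [Fintype Ω] [DecidableEq Ω] [Fintype A] [DecidableEq A] [Fintype X]
  [DecidableEq X] (S : Spec Ω A X)

theorem X_fixed {φ : ℝ} (hφ : 0 < φ) (t : X → ℝ) (ht : ∀ χ, 0 ≤ t χ) (h0 : 0 < t S.x0) (j1 j2 : ℕ) :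
    ∑ w ∈ univ.filter (fun w : Ω → X => j1 ≤ S.lev w ∧ S.lev w ≤ j2),
        S.Mw w ^ 2 / φ ^ cnt w S.x0 *
          ∏ χ : {χ // χ ≠ S.x0}, (t χ ^ 2) ^ cnt w χ / ((cnt w χ).factorial : ℝ) ≤
      max (Cf (Fintype.card Ω - j1) (φ * t S.x0 ^ 2)) (Cf (Fintype.card Ω - j2) (φ * t S.x0 ^ 2)) *
        S.Zf t ^ 2 / ((Fintype.card Ω).factorial : ℝ) := by
  have hq : 0 < φ * t S.x0 ^ 2 := by positivity
  have hm : (0 : ℝ) < (Fintype.card Ω).factorial := by positivity
  have hZ := S.Zf_nonneg t ht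
  obtain ⟨C, hC⟩ : ∃ C, C = max (Cf (Fintype.card Ω - j1) (φ * t S.x0 ^ 2))
    (Cf (Fintype.card Ω - j2) (φ * t S.x0 ^ 2)) := ⟨_, rfl⟩
  have C0 : 0 ≤ C := hC ▸ le_max_of_le_left (Cf_nonneg _ hq)
  have hP : ∀ w : Ω → X, 0 ≤ S.Mw w * ∏ i, t (w i) := fun w =>
    mul_nonneg (S.Mw_nonneg w) (prod_nonneg fun i _ => ht _)
  rw [← hC]
  calc _ ≤ ∑ w ∈ univ.filter (fun w : Ω → X => j1 ≤ S.lev w ∧ S.lev w ≤ j2),
        (S.Mw w * ∏ i, t (w i)) * (C * S.Zf t / ((Fintype.card Ω).factorial : ℝ)) := by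
        refine sum_le_sum fun w hw => ?_
        obtain ⟨h1, h2⟩ := (mem_filter.1 hw).2
        have a1 := S.lev_add_cnt w
        have a2 : Cf (cnt w S.x0) (φ * t S.x0 ^ 2) ≤ C :=
          hC ▸ (Cf_le_max (by omega) (by omega) hq).trans_eq (max_comm _ _)
        have a3 := S.orbit_le t ht w
        have a4 := hP w
        rw [Fintype.prod_eq_mul_prod_subtype_ne _ S.x0, ← le_div_iff₀' hm] at a3
        have a5 : (0 : ℝ) < ∏ χ : {χ // χ ≠ S.x0}, ((cnt w χ).factorial : ℝ) :=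
          prod_pos fun χ _ => by positivity
        have e : S.Mw w ^ 2 / φ ^ cnt w S.x0 *
            ∏ χ : {χ // χ ≠ S.x0}, (t χ ^ 2) ^ cnt w χ / ((cnt w χ).factorial : ℝ) =
            (S.Mw w * ∏ i, t (w i)) * ((S.Mw w * ∏ i, t (w i)) / ((φ * t S.x0 ^ 2) ^ cnt w S.x0 *
              ∏ χ : {χ // χ ≠ S.x0}, ((cnt w χ).factorial : ℝ))) := by
          rw [prod_eq_prod_cnt, Fintype.prod_eq_mul_prod_subtype_ne _ S.x0, prod_div_distrib]
          simp only [← pow_mul, mul_comm 2]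
          simp only [pow_mul, prod_pow, mul_pow]
          rw [pow_right_comm]
          field_simp
        rw [e]
        refine mul_le_mul_of_nonneg_left ?_ a4
        calc _ ≤ ((cnt w S.x0).factorial : ℝ) *
              (∏ χ : {χ // χ ≠ S.x0}, ((cnt w χ).factorial : ℝ)) * S.Zf t /
              ((Fintype.card Ω).factorial : ℝ) / ((φ * t S.x0 ^ 2) ^ cnt w S.x0 *
              ∏ χ : {χ // χ ≠ S.x0}, ((cnt w χ).factorial : ℝ)) := by gcongr
          _ = Cf (cnt w S.x0) (φ * t S.x0 ^ 2) * S.Zf t / ((Fintype.card Ω).factorial : ℝ) := by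
            rw [Cf]
            field_simp
          _ ≤ _ := by gcongr
    _ ≤ ∑ w : Ω → X, (S.Mw w * ∏ i, t (w i)) * (C * S.Zf t / ((Fintype.card Ω).factorial : ℝ)) :=
        sum_le_sum_of_subset_of_nonneg (filter_subset _ _) fun w _ _ =>
          mul_nonneg (hP w) (by positivity)
    _ = _ := by
        rw [← sum_mul, ← Zf]
        ring

end Spec

end Pool.Agent.Work.MP_66fdf3_co.Full
end

-- merged part: Pool.Agent.Work.MP_66fdf3_co.Full.X4
section
/-!
Assembly of the bound for the class words: `meas_step` with `X := {χ // χ ≠ x0}`,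
`a w = Mw w ^ 2 / φ ^ cnt w x0`, `n w χ = cnt w χ`, `K t = max (Cf ..) (Cf ..) * (m!² / m^m * Gs)² / m!`.
For `hK` use `X_fixed` and `Zf_le` with `t χ = if χ = x0 then τ + y else √(z (f χ) / d χ)` (a `dite`).
`∏ i, d (w i) = ∏ χ ≠ x0, d χ ^ cnt w χ` because `d x0 = 1`.
-/

namespace Pool.Agent.Work.MP_66fdf3_co.Full

open Finset Matrix

namespace Spec

variable {Ω A X : Type} [Fintype Ω] [DecidableEq Ω] [Fintype A] [DecidableEq A] [Fintype X]
  [DecidableEq X] (S : Spec Ω A X)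

variable {ω : Ω} {Bk : Type} [Fintype Bk] [DecidableEq Bk] {bl : Ω → Bk} {R : Ω → Ω → Ω → ℝ}

theorem X_bound (h : S.Hyp ω bl R) {φ : ℝ} (hφ : 0 < φ) (j1 j2 : ℕ) {C T : Type} [Fintype C]
    [Fintype T] {p z : C → ℝ} (hm : MomDom (Fintype.card Ω) p z) (τ y coef A' : T → ℝ)
    (wt : T → C → ℝ)
    (ht : ∀ t, 0 < τ t ∧ 0 < y t ∧ 0 ≤ coef t ∧ 1 ≤ A' t ∧ (∀ c, 0 ≤ wt t c) ∧
      EpsOK (Fintype.card Ω) p z (τ t) (y t) (wt t) (A' t))
    (hcov : ∀ (Y : Type) [Fintype Y] (f : Y → C), ∃ t, 1 ≤ coef t * ∏ χ, wt t (f χ)) :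
    ∑ w ∈ univ.filter (fun w : Ω → X => j1 ≤ S.lev w ∧ S.lev w ≤ j2),
        S.Mw w ^ 2 / φ ^ cnt w S.x0 / ∏ i, (S.d (w i) : ℝ) ≤
      (((Fintype.card Ω).factorial : ℝ) ^ 2 / (Fintype.card Ω : ℝ) ^ Fintype.card Ω) ^ 2 *
        ∑ t, coef t * max (Cf (Fintype.card Ω - j1) (φ * (τ t + y t) ^ 2))
            (Cf (Fintype.card Ω - j2) (φ * (τ t + y t) ^ 2)) *
          Gs (Fintype.card Ω) (τ t) (y t) ^ 2 * A' t ^ ((Fintype.card Ω - 1) / 4) /
            ((Fintype.card Ω).factorial : ℝ) := by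
  have : Nonempty Ω := ⟨ω⟩
  have hd : ∀ w : Ω → X, ∏ i, (S.d (w i) : ℝ) =
      ∏ χ : {χ // χ ≠ S.x0}, (S.d χ : ℝ) ^ cnt w χ := fun w => by
    rw [prod_eq_prod_cnt w fun χ => (S.d χ : ℝ), Fintype.prod_eq_mul_prod_subtype_ne _ S.x0, S.d_x0,
      Nat.cast_one, one_pow, one_mul]
  have hs : ∑ χ : {χ // χ ≠ S.x0}, S.mu χ ^ 2 = ∑ χ ∈ univ.erase S.x0, S.mu χ ^ 2 :=
    (sum_subtype _ (fun χ => by simp) fun χ => S.mu χ ^ 2).symm
  have hC : ∀ t, 0 ≤ max (Cf (Fintype.card Ω - j1) (φ * (τ t + y t) ^ 2))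
      (Cf (Fintype.card Ω - j2) (φ * (τ t + y t) ^ 2)) := fun t =>
    le_max_of_le_left (Cf_nonneg _ (mul_pos hφ (pow_pos (add_pos (ht t).1 (ht t).2.1) 2)))
  simp only [hd]
  refine (meas_step (X := {χ // χ ≠ S.x0}) _ (fun w => S.Mw w ^ 2 / φ ^ cnt w S.x0)
    (fun w _ => by positivity) (fun w χ => cnt w χ) (fun w χ => card_le_univ _)
    (fun χ => S.mu χ) (fun χ => S.d χ)
    (fun χ => ⟨S.mu_pos χ, (h.d4 χ χ.2).1, (h.d4 χ χ.2).2, S.mu_d_le χ.2⟩)
    (hs ▸ h.mu_sq) hm τ y coef A'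
    (fun t => max (Cf (Fintype.card Ω - j1) (φ * (τ t + y t) ^ 2))
      (Cf (Fintype.card Ω - j2) (φ * (τ t + y t) ^ 2)) *
      (((Fintype.card Ω).factorial : ℝ) ^ 2 / (Fintype.card Ω : ℝ) ^ Fintype.card Ω *
        Gs (Fintype.card Ω) (τ t) (y t)) ^ 2 / ((Fintype.card Ω).factorial : ℝ)) wt
    (fun t => ⟨(ht t).2.2.1, (ht t).2.2.2.1, div_nonneg (mul_nonneg (hC t) (sq_nonneg _))
      (Nat.cast_nonneg _), (ht t).2.2.2.2⟩) (hcov _) fun t f Ψ hΨ => ?_).trans_eq ?_
  · set u : X → ℝ := fun χ => if hχ : χ = S.x0 then τ t + y t else √(z (f ⟨χ, hχ⟩) / S.d χ) with hu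
    have h0 : u S.x0 = τ t + y t := dif_pos rfl
    have h1 : ∀ χ : {χ // χ ≠ S.x0}, u χ = √(z (f χ) / S.d χ) := fun χ => dif_neg χ.2
    have hp := add_pos (ht t).1 (ht t).2.1
    have hu0 : ∀ χ, 0 ≤ u χ := fun χ => by
      simp only [hu]
      split_ifs
      exacts [hp.le, Real.sqrt_nonneg _]
    have h2 := S.X_fixed hφ u hu0 (h0 ▸ hp) j1 j2
    have h3 := pow_le_pow_left₀ (S.Zf_nonneg u hu0)
      (S.Zf_le (ht t).1 (ht t).2.1 u hu0 h0 Ψ fun χ => h1 χ ▸ hΨ χ) 2
    have h4 : ∀ χ : {χ // χ ≠ S.x0}, u χ ^ 2 = z (f χ) / S.d χ := fun χ => by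
      rw [h1, Real.sq_sqrt (div_nonneg (hm.2.1 _) (Nat.cast_nonneg _))]
    simp only [h4, h0] at h2
    refine h2.trans ((div_le_div_of_nonneg_right (mul_le_mul_of_nonneg_left h3 (hC t))
      (Nat.cast_nonneg _)).trans_eq ?_)
    rw [prod_pow]
    ring
  · rw [mul_sum]
    exact sum_congr rfl fun t _ => by ring

end Spec

end Pool.Agent.Work.MP_66fdf3_co.Full
end

-- merged part: Pool.Agent.Work.MP_66fdf3_co.Full.Y2
section
/-!
The permanent of a block projection plus a constant, via `wick` with `τ = 0`, modes `Option Bk`,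
`v none = fun _ => √(c / m)`, `v (some B) = fun α => if bl α = B then 1 / √(k B) else 0`, `k B = cnt bl B`.
`circle_avg`: `‖a ζ + b‖ ^ (2k) = (a ζ + b) ^ k * conj (..) ^ k`, two binomial expansions and character
orthogonality (`AddChar.sum_mulShift`, `ZMod.isPrimitive_stdAddChar`, `k < N`).
The product over `α` is `∏ B, ‖..‖ ^ (2 k B)` (`prod_eq_prod_cnt`); split `θ` into `θ none` and the rest
(`Equiv.piOptionEquivProd`), the sum over the rest factorises (`Finset.prod_univ_sum`); expanding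
`∏ B, ∑ i ∈ range (k B + 1)` gives the index set `Fintype.piFinset fun B => range (k B + 1)` with exponents
`none ↦ ∑ B, (k B - i B)`, `some B ↦ i B`.
-/

namespace Pool.Agent.Work.MP_66fdf3_co.Full

open Finset Matrix

theorem Y2_char_sum (N : ℕ) [NeZero N] {k i j : ℕ} (hk : k < N) (hi : i ≤ k) (hj : j ≤ k) :
    ∑ θ : ZMod N, (ZMod.stdAddChar θ : ℂ) ^ i * (starRingEnd ℂ) (ZMod.stdAddChar θ) ^ j =
      if i = j then (N : ℂ) else 0 := by
  have h1 : ∀ θ : ZMod N, (ZMod.stdAddChar θ : ℂ) ^ i * (starRingEnd ℂ) (ZMod.stdAddChar θ) ^ j =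
      ZMod.stdAddChar (θ * ((i : ZMod N) - (j : ZMod N))) := by
    intro θ
    have h2 : (starRingEnd ℂ) (ZMod.stdAddChar θ) = ZMod.stdAddChar (-θ) := by
      rw [AddChar.map_neg_eq_conj]
    rw [h2, ← AddChar.map_nsmul_eq_pow, ← AddChar.map_nsmul_eq_pow, ← AddChar.map_add_eq_mul]
    congr 1
    simp only [nsmul_eq_mul]
    ring
  simp_rw [h1]
  rw [AddChar.sum_mulShift _ (ZMod.isPrimitive_stdAddChar N)]
  have h3 : ((i : ZMod N) - (j : ZMod N) = 0) ↔ i = j := by
    rw [sub_eq_zero, ZMod.natCast_eq_natCast_iff', Nat.mod_eq_of_lt (by omega),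
      Nat.mod_eq_of_lt (by omega)]
  by_cases h : i = j
  · simp [h]
  · simp [h3, h]

theorem Y2_norm_sq (z : ℂ) : ((‖z‖ ^ 2 : ℝ) : ℂ) = z * (starRingEnd ℂ) z := by
  rw [Complex.mul_conj, Complex.normSq_eq_norm_sq]

theorem circle_avg (N : ℕ) [NeZero N] {k : ℕ} (hk : k < N) (a b : ℂ) :
    ∑ θ : ZMod N, ‖a * ZMod.stdAddChar θ + b‖ ^ (2 * k) =
      (N : ℝ) * ∑ i ∈ range (k + 1),
        (k.choose i : ℝ) ^ 2 * (‖a‖ ^ 2) ^ i * (‖b‖ ^ 2) ^ (k - i) := by
  apply Complex.ofReal_injective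
  have h1 : ∀ θ : ZMod N, ((‖a * ZMod.stdAddChar θ + b‖ ^ (2 * k) : ℝ) : ℂ) =
      ∑ i ∈ range (k + 1), ∑ j ∈ range (k + 1),
        (a ^ i * b ^ (k - i) * (k.choose i : ℂ) *
          ((starRingEnd ℂ) a ^ j * (starRingEnd ℂ) b ^ (k - j) * (k.choose j : ℂ))) *
          ((ZMod.stdAddChar θ : ℂ) ^ i * (starRingEnd ℂ) (ZMod.stdAddChar θ) ^ j) := by
    intro θ
    rw [pow_mul, Complex.ofReal_pow, Y2_norm_sq, mul_pow, map_add, map_mul, add_pow, add_pow,
      Finset.sum_mul_sum]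
    refine Finset.sum_congr rfl fun i _ => Finset.sum_congr rfl fun j _ => ?_
    ring
  rw [Complex.ofReal_sum]
  simp_rw [h1]
  rw [Finset.sum_comm, Complex.ofReal_mul, Complex.ofReal_sum, Finset.mul_sum]
  refine Finset.sum_congr rfl fun i hi => ?_
  rw [Finset.sum_comm]
  have hi' : i ≤ k := Nat.lt_succ_iff.mp (mem_range.mp hi)
  rw [Finset.sum_eq_single i]
  · rw [← Finset.mul_sum, Y2_char_sum N hk hi' hi', if_pos rfl]
    simp only [Complex.ofReal_mul, Complex.ofReal_pow (‖a‖ ^ 2), Complex.ofReal_pow (‖b‖ ^ 2),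
      Y2_norm_sq]
    push_cast
    ring
  · intro j hj hne
    have hj' : j ≤ k := Nat.lt_succ_iff.mp (mem_range.mp hj)
    rw [← Finset.mul_sum, Y2_char_sum N hk hi' hj', if_neg (Ne.symm hne), mul_zero]
  · intro h
    exact absurd hi h

theorem Y2_norm_a (x : ℝ) (hx : 0 ≤ x) (k : ℕ) :
    ‖((√x : ℝ) : ℂ) * (((√(k : ℝ))⁻¹ : ℝ) : ℂ)‖ ^ 2 = x / k := by
  rw [← Complex.ofReal_mul, Complex.norm_real, Real.norm_eq_abs, sq_abs, mul_pow, inv_pow,
    Real.sq_sqrt hx, Real.sq_sqrt (Nat.cast_nonneg k), div_eq_mul_inv]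

theorem Y2_norm_b (N : ℕ) [NeZero N] (x y : ℝ) (hx : 0 ≤ x) (hy : 0 ≤ y) (θ : ZMod N) :
    ‖((√x : ℝ) : ℂ) * ZMod.stdAddChar θ * ((√y : ℝ) : ℂ)‖ ^ 2 = x * y := by
  have h : ‖(ZMod.stdAddChar θ : ℂ)‖ = 1 := by
    rw [ZMod.stdAddChar_apply, Circle.norm_coe]
  rw [norm_mul, norm_mul, h, mul_one, Complex.norm_real, Complex.norm_real, Real.norm_eq_abs,
    Real.norm_eq_abs, mul_pow, sq_abs, sq_abs, Real.sq_sqrt hx, Real.sq_sqrt hy]

theorem per_block_le {Ω Bk : Type} [Fintype Ω] [DecidableEq Ω] [Fintype Bk] [DecidableEq Bk]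
    (bl : Ω → Bk) {c : ℝ} (hc : 0 ≤ c) :
    ((Matrix.of fun x y : Ω => (((if bl y = bl x then ((cnt bl (bl x) : ℕ) : ℝ)⁻¹ else 0) +
        c / (Fintype.card Ω : ℝ) : ℝ) : ℂ)).permanent).re ≤
      ∑ i ∈ Fintype.piFinset (fun B => range (cnt bl B + 1)),
        ((∏ B, ((cnt bl B).choose (i B) : ℝ) ^ 2 * ((i B).factorial : ℝ) /
            ((cnt bl B : ℕ) : ℝ) ^ i B) *
          (c / (Fintype.card Ω : ℝ)) ^ (∑ B, (cnt bl B - i B))) *
          ((∑ B, (cnt bl B - i B)).factorial : ℝ) := by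
  have hy : 0 ≤ c / (Fintype.card Ω : ℝ) := div_nonneg hc (Nat.cast_nonneg _)
  set y : ℝ := c / (Fintype.card Ω : ℝ) with hydef
  let v : Option Bk → Ω → ℂ := fun e α =>
    e.elim ((√y : ℝ) : ℂ) fun B => if bl α = B then (((√(cnt bl B : ℝ))⁻¹ : ℝ) : ℂ) else 0
  have key := wick (Ω := Ω) (E := Option Bk) v 0 (Fintype.card Ω + 1) (Nat.lt_succ_self _)
    (Fintype.piFinset fun B => range (cnt bl B + 1))
    (fun i => (∏ B, ((cnt bl B).choose (i B) : ℝ) ^ 2 / ((cnt bl B : ℕ) : ℝ) ^ i B) *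
      y ^ (∑ B, (cnt bl B - i B)))
    (fun i e => e.elim (∑ B, (cnt bl B - i B)) fun B => i B) ?_
  · have hM : ((0 : ℝ) : ℂ) • (1 : Matrix Ω Ω ℂ) +
        (Matrix.of fun x y : Ω => ∑ e, v e x * (starRingEnd ℂ) (v e y)) =
        Matrix.of fun x z : Ω => (((if bl z = bl x then ((cnt bl (bl x) : ℕ) : ℝ)⁻¹ else 0) +
          y : ℝ) : ℂ) := by
      ext x z
      simp only [Complex.ofReal_zero, zero_smul, zero_add, Matrix.of_apply, Fintype.sum_option, v,
        Option.elim_none, Option.elim_some, Complex.conj_ofReal]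
      rw [Finset.sum_eq_single (bl x)]
      · rw [← Complex.ofReal_mul, Real.mul_self_sqrt hy, if_pos rfl]
        by_cases h : bl z = bl x
        · rw [if_pos h, if_pos h, Complex.conj_ofReal, ← Complex.ofReal_mul, ← mul_inv,
            Real.mul_self_sqrt (Nat.cast_nonneg _)]
          push_cast
          ring
        · rw [if_neg h, if_neg h]
          simp
      · intro B _ hB
        rw [if_neg (Ne.symm hB), zero_mul]
      · intro h
        exact absurd (mem_univ _) h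
    rw [hM] at key
    refine key.trans (le_of_eq ?_)
    refine Finset.sum_congr rfl fun i _ => ?_
    rw [Fintype.prod_option]
    simp only [Option.elim_none, Option.elim_some]
    have h2 : (∏ B, ((cnt bl B).choose (i B) : ℝ) ^ 2 * ((i B).factorial : ℝ) /
        ((cnt bl B : ℕ) : ℝ) ^ i B) =
        (∏ B, ((cnt bl B).choose (i B) : ℝ) ^ 2 / ((cnt bl B : ℕ) : ℝ) ^ i B) *
          ∏ B, ((i B).factorial : ℝ) := by
      rw [← Finset.prod_mul_distrib]
      refine Finset.prod_congr rfl fun B _ => ?_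
      ring
    rw [h2]
    ring
  · intro x hx
    apply le_of_eq
    set N := Fintype.card Ω + 1 with hN
    have h1 : ∀ θ : Option Bk → ZMod N, ∏ α,
        (0 + ‖∑ e, ((√(x e) : ℝ) : ℂ) * ZMod.stdAddChar (θ e) * v e α‖ ^ 2) =
        ∏ B, ‖(((√(x (some B)) : ℝ) : ℂ) * (((√(cnt bl B : ℝ))⁻¹ : ℝ) : ℂ)) *
          ZMod.stdAddChar (θ (some B)) +
          ((√(x none) : ℝ) : ℂ) * ZMod.stdAddChar (θ none) * ((√y : ℝ) : ℂ)‖ ^ (2 * cnt bl B) := by
      intro θ
      simp_rw [pow_mul]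
      rw [← prod_eq_prod_cnt bl]
      refine Finset.prod_congr rfl fun α _ => ?_
      rw [zero_add, Fintype.sum_option, Finset.sum_eq_single (bl α)]
      · simp only [v, Option.elim_none, Option.elim_some, if_true]
        congr 2
        ring
      · intro B _ hB
        simp only [v, Option.elim_some]
        rw [if_neg (Ne.symm hB), mul_zero]
      · intro h
        exact absurd (mem_univ _) h
    simp_rw [h1]
    rw [← (Equiv.piOptionEquivProd (β := fun _ : Option Bk => ZMod N)).symm.sum_comp,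
      Fintype.sum_prod_type]
    simp only [Equiv.piOptionEquivProd_symm_apply]
    have h2 : ∀ θ0 : ZMod N, ∑ θ : Bk → ZMod N,
        ∏ B, ‖(((√(x (some B)) : ℝ) : ℂ) * (((√(cnt bl B : ℝ))⁻¹ : ℝ) : ℂ)) *
          ZMod.stdAddChar (θ B) +
          ((√(x none) : ℝ) : ℂ) * ZMod.stdAddChar θ0 * ((√y : ℝ) : ℂ)‖ ^ (2 * cnt bl B) =
        (N : ℝ) ^ Fintype.card Bk * ∑ i ∈ Fintype.piFinset (fun B => range (cnt bl B + 1)),
          ∏ B, ((cnt bl B).choose (i B) : ℝ) ^ 2 * (x (some B) / cnt bl B) ^ i B *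
            (x none * y) ^ (cnt bl B - i B) := by
      intro θ0
      rw [← Fintype.piFinset_univ, ← Finset.prod_univ_sum (fun _ : Bk => (univ : Finset (ZMod N)))
        (fun B t => ‖(((√(x (some B)) : ℝ) : ℂ) * (((√(cnt bl B : ℝ))⁻¹ : ℝ) : ℂ)) *
          ZMod.stdAddChar t +
          ((√(x none) : ℝ) : ℂ) * ZMod.stdAddChar θ0 * ((√y : ℝ) : ℂ)‖ ^ (2 * cnt bl B)),
        ← Finset.prod_univ_sum (fun B : Bk => range (cnt bl B + 1))
        (fun B i => ((cnt bl B).choose i : ℝ) ^ 2 * (x (some B) / cnt bl B) ^ i *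
            (x none * y) ^ (cnt bl B - i)), ← Finset.card_univ (α := Bk), ← Finset.prod_const,
        ← Finset.prod_mul_distrib]
      refine Finset.prod_congr rfl fun B _ => ?_
      rw [circle_avg N (Nat.lt_succ_of_le (cnt_le bl B)), Y2_norm_a _ (hx _),
        Y2_norm_b N _ _ (hx _) hy]
    simp_rw [h2]
    rw [Finset.sum_const, Finset.card_univ, ZMod.card, nsmul_eq_mul, Fintype.card_option, pow_succ',
      ← mul_assoc]
    congr 1
    refine Finset.sum_congr rfl fun i _ => ?_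
    rw [Fintype.prod_option]
    simp only [Option.elim_none, Option.elim_some]
    rw [← Finset.prod_pow_eq_pow_sum, ← Finset.prod_pow_eq_pow_sum, ← Finset.prod_mul_distrib,
      ← Finset.prod_mul_distrib, ← Finset.prod_mul_distrib]
    refine Finset.prod_congr rfl fun B _ => ?_
    rw [div_pow, mul_pow]
    ring

end Pool.Agent.Work.MP_66fdf3_co.Full
end

-- merged part: Pool.Agent.Work.MP_66fdf3_co.Full.Y3
section
/-!
`per_block_le'`: apply `lag_one_le` to the right side of `per_block_le`: at the point `r` it equals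
`∏ B, gk (k B) (c r / m)` (`Finset.prod_univ_sum`, `prod_pow_eq_pow_sum`), blocks have size `0`, `1` (only
`bl ω`) or even `≥ 4`, so it is at most `(α u + β) ^ m / min α β` (`gk_le`, `u + 1 ≤ (α u + β) / min α β`,
`sum_cnt`); expand by `add_pow` and use `Gs_binom` with `b = α * c`.
`Y_eq`: `‖Aw‖² = Aw * conj Aw`, a double sum over `f, f'`; exchange with the sum over words, and use
`Finset.prod_univ_sum` twice (or once over `A × A`): each factor is
`∑ a b, (m / d) * (if a = a0 then φ else 1) * conj (U a b ω x) * U a b ω y = Hh ω x ω y + c / m`.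
Here `φ ^ cnt (cl ∘ a) x0 = ∏ i, if a i = a0 then φ else 1`.  Then `br_const`.
-/

namespace Pool.Agent.Work.MP_66fdf3_co.Full

open Finset Matrix

theorem Y3_block {Ω Bk : Type} [Fintype Ω] [DecidableEq Ω] [Fintype Bk] [DecidableEq Bk]
    (bl : Ω → Bk) (ω : Ω) (k1 : cnt bl (bl ω) = 1)
    (k4 : ∀ y, y ≠ ω → Even (cnt bl (bl y)) ∧ 4 ≤ cnt bl (bl y)) {α β : ℝ}
    (hT : Tang α β) {u : ℝ} (hu : 0 ≤ u) :
    ∏ B, gk (cnt bl B) u ≤ (α * u + β) ^ Fintype.card Ω / min α β := by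
  have hα := hT.1
  have hβ := hT.2.1
  have hmin : 0 < min α β := lt_min hα hβ
  have h1 : ∀ B, gk (cnt bl B) u ≤
      (α * u + β) ^ cnt bl B * (if B = bl ω then (min α β)⁻¹ else 1) := by
    intro B
    by_cases hB : B = bl ω
    · subst hB
      rw [k1, gk_one, if_pos rfl, pow_one, ← div_eq_mul_inv, le_div_iff₀ hmin]
      have h2 : u * min α β ≤ u * α := mul_le_mul_of_nonneg_left (min_le_left _ _) hu
      have h3 : min α β ≤ β := min_le_right _ _
      nlinarith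
    · rw [if_neg hB, mul_one]
      by_cases h0 : cnt bl B = 0
      · rw [h0, gk_zero, pow_zero]
      · have hne : (univ.filter fun i => bl i = B).Nonempty := Finset.card_ne_zero.mp h0
        obtain ⟨y, hy⟩ := hne
        have hy' : bl y = B := (Finset.mem_filter.mp hy).2
        have hyω : y ≠ ω := by
          rintro rfl
          exact hB hy'.symm
        have h4 := k4 y hyω
        rw [hy'] at h4
        exact gk_le hT h4.1 h4.2 hu
  calc ∏ B, gk (cnt bl B) u
      ≤ ∏ B, ((α * u + β) ^ cnt bl B * (if B = bl ω then (min α β)⁻¹ else 1)) :=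
        Finset.prod_le_prod (fun B _ => gk_nonneg _ hu) (fun B _ => h1 B)
    _ = (α * u + β) ^ Fintype.card Ω / min α β := by
        rw [Finset.prod_mul_distrib, Finset.prod_pow_eq_pow_sum, sum_cnt, Finset.prod_ite_eq',
          if_pos (Finset.mem_univ _), div_eq_mul_inv]

theorem per_block_le' {Ω Bk : Type} [Fintype Ω] [DecidableEq Ω] [Fintype Bk] [DecidableEq Bk]
    (bl : Ω → Bk) (ω : Ω) (k1 : cnt bl (bl ω) = 1)
    (k4 : ∀ y, y ≠ ω → Even (cnt bl (bl y)) ∧ 4 ≤ cnt bl (bl y)) {c α β : ℝ} (hc : 0 ≤ c)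
    (hT : Tang α β) :
    ((Matrix.of fun x y : Ω => (((if bl y = bl x then ((cnt bl (bl x) : ℕ) : ℝ)⁻¹ else 0) +
        c / (Fintype.card Ω : ℝ) : ℝ) : ℂ)).permanent).re ≤
      ((Fintype.card Ω).factorial : ℝ) / (Fintype.card Ω : ℝ) ^ Fintype.card Ω *
        (Gs (Fintype.card Ω) β (α * c) / min α β) := by
  have hm : 0 < Fintype.card Ω := Fintype.card_pos_iff.mpr ⟨ω⟩
  have hm' : (0 : ℝ) < Fintype.card Ω := by exact_mod_cast hm
  refine (per_block_le bl hc).trans ?_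
  have hR : ((Fintype.card Ω).factorial : ℝ) / (Fintype.card Ω : ℝ) ^ Fintype.card Ω *
        (Gs (Fintype.card Ω) β (α * c) / min α β) =
      ∑ j ∈ range (Fintype.card Ω + 1), (((Fintype.card Ω).choose j : ℝ) *
        (α * c / (Fintype.card Ω : ℝ)) ^ j * β ^ (Fintype.card Ω - j) / min α β) *
          ((id j : ℕ).factorial : ℝ) := by
    rw [← mul_div_assoc, ← Gs_binom hm, Finset.sum_div]
    refine Finset.sum_congr rfl fun j _ => ?_
    simp only [id]
    ring
  rw [hR]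
  refine lag_one_le _ _ (fun i : Bk → ℕ => ∑ B, (cnt bl B - i B)) _ _ id ?_
  intro r hr
  have hu : 0 ≤ c / (Fintype.card Ω : ℝ) * r := by positivity
  have hL : ∑ i ∈ Fintype.piFinset (fun B => range (cnt bl B + 1)),
        ((∏ B, ((cnt bl B).choose (i B) : ℝ) ^ 2 * ((i B).factorial : ℝ) /
            ((cnt bl B : ℕ) : ℝ) ^ i B) *
          (c / (Fintype.card Ω : ℝ)) ^ (∑ B, (cnt bl B - i B))) * r ^ (∑ B, (cnt bl B - i B)) =
      ∏ B, gk (cnt bl B) (c / (Fintype.card Ω : ℝ) * r) := by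
    unfold gk
    rw [Finset.prod_univ_sum]
    refine Finset.sum_congr rfl fun i _ => ?_
    rw [Finset.prod_mul_distrib (f := fun B => ((cnt bl B).choose (i B) : ℝ) ^ 2 *
      ((i B).factorial : ℝ) / ((cnt bl B : ℕ) : ℝ) ^ i B), Finset.prod_pow_eq_pow_sum, mul_pow,
      mul_assoc]
  rw [hL]
  refine (Y3_block bl ω k1 k4 hT hu).trans (le_of_eq ?_)
  rw [add_pow, Finset.sum_div]
  refine Finset.sum_congr rfl fun j _ => ?_
  simp only [id]
  rw [show α * (c / (Fintype.card Ω : ℝ) * r) = α * c / (Fintype.card Ω : ℝ) * r by ring, mul_pow]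
  ring

namespace Spec

variable {Ω A X : Type} [Fintype Ω] [DecidableEq Ω] [Fintype A] [DecidableEq A] [Fintype X]
  [DecidableEq X] (S : Spec Ω A X)

variable {ω : Ω} {Bk : Type} [Fintype Bk] [DecidableEq Bk] {bl : Ω → Bk} {R : Ω → Ω → Ω → ℝ}

theorem Y3_pow (φ : ℂ) (a : Ω → A) :
    φ ^ cnt (S.cl ∘ a) S.x0 = ∏ i, if a i = S.a0 then φ else 1 := by
  rw [Finset.prod_ite, Finset.prod_const_one, mul_one, Finset.prod_const]
  unfold cnt
  congr 2
  refine Finset.filter_congr fun i _ => ⟨fun hi => S.cl0 _ hi, fun hi => ?_⟩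
  simp only [Function.comp, hi, x0]

/-- One summand of the kernel. -/
noncomputable def Y3K (ω : Ω) (φ : ℂ) (a b : A) : Matrix Ω Ω ℂ :=
  ((Fintype.card Ω : ℂ) / (S.d (S.cl a) : ℂ) * if a = S.a0 then φ else 1) •
    Matrix.of fun x y => (starRingEnd ℂ) (S.U a b ω x) * S.U a b ω y

theorem Y3_br (ω : Ω) (φ : ℝ) (a b : Ω → A) :
    br (fun i => S.Y3K ω φ (a i) (b i)) =
      ((S.cw a * φ ^ cnt (S.cl ∘ a) S.x0 * ‖S.Aw ω a b‖ ^ 2 : ℝ) : ℂ) := by
  unfold Y3K
  rw [br_smul, Finset.prod_mul_distrib, ← S.Y3_pow]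
  have h1 : br (fun i => Matrix.of fun x y =>
      (starRingEnd ℂ) (S.U (a i) (b i) ω x) * S.U (a i) (b i) ω y) =
      S.Aw ω a b * (starRingEnd ℂ) (S.Aw ω a b) := by
    unfold br Aw
    rw [map_sum, Finset.sum_mul_sum]
    refine Finset.sum_congr rfl fun σ _ => Finset.sum_congr rfl fun π _ => ?_
    rw [map_prod, ← Finset.prod_mul_distrib]
    refine Finset.prod_congr rfl fun i _ => ?_
    simp only [Matrix.of_apply, Complex.conj_conj]
  rw [h1, Complex.mul_conj, Complex.normSq_eq_norm_sq]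
  unfold cw
  push_cast
  ring

theorem Y3_sum (ω : Ω) (c : ℝ) (x y : Ω) :
    (∑ a, ∑ b, S.Y3K ω ((1 + c : ℝ) : ℂ) a b) x y =
      S.Hh ω x ω y + (c : ℂ) / (Fintype.card Ω : ℂ) := by
  have : Nonempty Ω := ⟨ω⟩
  have hm : (Fintype.card Ω : ℂ) ≠ 0 := by exact_mod_cast Fintype.card_ne_zero
  have h0 : ∀ a b, S.Y3K ω ((1 + c : ℝ) : ℂ) a b x y =
      ((Fintype.card Ω : ℂ) / (S.d (S.cl a) : ℂ) * (starRingEnd ℂ) (S.U a b ω x)) * S.U a b ω y +
        if a = S.a0 then (if b = S.a0 then (c : ℂ) / (Fintype.card Ω : ℂ) else 0) else 0 := by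
    intro a b
    simp only [Y3K, Matrix.smul_apply, Matrix.of_apply, smul_eq_mul]
    by_cases ha : a = S.a0
    · rw [if_pos ha, if_pos ha]
      by_cases hb : b = S.a0
      · have hd : S.d (S.cl S.a0) = 1 := S.d_x0
        rw [if_pos hb, ha, hb, S.U0, hd]
        simp only [E0, Matrix.of_apply, map_inv₀, map_natCast]
        push_cast
        field_simp
      · have hz : S.U a b = 0 := S.zero _ _ fun hh => hb (S.cl0 _ (by rw [← hh, ha]))
        rw [if_neg hb, hz]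
        simp
    · rw [if_neg ha, if_neg ha]
      ring
  unfold Hh
  simp only [Matrix.sum_apply, h0, Finset.sum_add_distrib, Matrix.smul_apply, smul_eq_mul]
  congr 1
  rw [Finset.sum_eq_single S.a0]
  · simp
  · intro a _ ha
    simp [ha]
  · simp

theorem Y_eq (h : S.Hyp ω bl R) (c : ℝ) :
    ∑ a : Ω → A, ∑ b : Ω → A, S.cw a * (1 + c) ^ cnt (S.cl ∘ a) S.x0 * ‖S.Aw ω a b‖ ^ 2 =
      ((Fintype.card Ω).factorial : ℝ) *
        ((Matrix.of fun x y : Ω => (((if bl y = bl x then ((cnt bl (bl x) : ℕ) : ℝ)⁻¹ else 0) +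
          c / (Fintype.card Ω : ℝ) : ℝ) : ℂ)).permanent).re := by
  have hM : (Matrix.of fun x y : Ω =>
      (((if bl y = bl x then ((cnt bl (bl x) : ℕ) : ℝ)⁻¹ else 0) +
          c / (Fintype.card Ω : ℝ) : ℝ) : ℂ)) = ∑ a, ∑ b, S.Y3K ω ((1 + c : ℝ) : ℂ) a b := by
    ext x y
    rw [S.Y3_sum, h.eq, h.blk, Matrix.of_apply]
    push_cast
    rfl
  have h2 : br (fun _ : Ω => ∑ a, ∑ b, S.Y3K ω ((1 + c : ℝ) : ℂ) a b) =
      ((∑ a : Ω → A, ∑ b : Ω → A,
        S.cw a * (1 + c) ^ cnt (S.cl ∘ a) S.x0 * ‖S.Aw ω a b‖ ^ 2 : ℝ) : ℂ) := by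
    rw [br_sum (fun _ a => ∑ b, S.Y3K ω ((1 + c : ℝ) : ℂ) a b), Complex.ofReal_sum]
    refine Finset.sum_congr rfl fun a _ => ?_
    rw [br_sum (fun i b => S.Y3K ω ((1 + c : ℝ) : ℂ) (a i) b), Complex.ofReal_sum]
    exact Finset.sum_congr rfl fun b _ => S.Y3_br ω (1 + c) a b
  rw [br_const, ← hM] at h2
  have h3 := congrArg Complex.re h2
  rw [Complex.ofReal_re] at h3
  rw [← h3, ← Complex.ofReal_natCast, Complex.re_ofReal_mul]

end Spec

end Pool.Agent.Work.MP_66fdf3_co.Full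
end

-- merged part: Pool.Agent.Work.MP_66fdf3_co.Full.Win
section
/-!
`Lev_eq`: in each position write the matrix as
`∑ q : A × A, (if (i ∈ T ↔ q.1 ≠ a0) then (m / d) * conj (U q.1 q.2 ω (f i)) else 0) • U q.1 q.2`
(`H_eq` for `i ∈ T`; for `i ∉ T` only `(a0, a0)` contributes and gives `E0`); `br_sum`, `br_smul`.
`Win_eq`: sum over `T`; for each word exactly `T = {i | a i ≠ a0}` survives, its size is `lev (cl ∘ a)`.
`win_bound`: weighted Cauchy-Schwarz with weights `cw a * φ ^ n0` and `cw a / φ ^ n0`, `φ = 1 + c`;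
first factor `≤ Y_eq, per_block_le'`; second factor by `X_le_class` with
`g w = if window then m ^ m / φ ^ cnt w x0 / ∏ i, d (w i) else 0` and `X_bound`.
The product of the bounds is `mainT m ^ 2` times the left side of the last clause of `NumWin`.
-/

namespace Pool.Agent.Work.MP_66fdf3_co.Full

open Finset Matrix

namespace Spec

variable {Ω A X : Type} [Fintype Ω] [DecidableEq Ω] [Fintype A] [DecidableEq A] [Fintype X]
  [DecidableEq X] (S : Spec Ω A X)

variable {ω : Ω} {Bk : Type} [Fintype Bk] [DecidableEq Bk] {bl : Ω → Bk} {R : Ω → Ω → Ω → ℝ}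

theorem Win_pos (ω b : Ω) (P : Prop) [Decidable P] :
    (if P then S.H ω b else E0 Ω) = ∑ q : A × A,
      (if (P ↔ q.1 ≠ S.a0) then (Fintype.card Ω : ℂ) / (S.d (S.cl q.1) : ℂ) *
        (starRingEnd ℂ) (S.U q.1 q.2 ω b) else 0) • S.U q.1 q.2 := by
  have : Nonempty Ω := ⟨ω⟩
  rw [Fintype.sum_prod_type]
  by_cases hP : P
  · rw [if_pos hP, S.H_eq, ← Finset.sum_erase (a := S.a0) univ (by simp [hP])]
    refine sum_congr rfl fun a ha => sum_congr rfl fun c _ => ?_
    have : a ≠ S.a0 := (mem_erase.1 ha).1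
    simp [hP, this]
  · rw [if_neg hP, Finset.sum_eq_single S.a0]
    · rw [Finset.sum_eq_single S.a0]
      · have h1 : S.d (S.cl S.a0) = 1 := S.d_x0
        have h2 : (Fintype.card Ω : ℂ) ≠ 0 := by exact_mod_cast Fintype.card_ne_zero
        have h3 : S.U S.a0 S.a0 ω b = (Fintype.card Ω : ℂ)⁻¹ := by rw [S.U0]; rfl
        rw [if_pos (by simp [hP]), h3, h1, S.U0]
        simp [h2]
      · intro c _ hc
        rw [S.zero S.a0 c fun h => hc (S.cl0 c h.symm), smul_zero]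
      · simp
    · intro a _ ha
      refine sum_eq_zero fun c _ => ?_
      simp [hP, ha]
    · simp

theorem Win_card (a : Ω → A) :
    (univ.filter fun i => a i ≠ S.a0).card = S.lev (S.cl ∘ a) := by
  unfold lev
  congr 1
  ext i
  simp only [mem_filter, mem_univ, true_and, Function.comp]
  constructor
  · exact fun h => S.ne_x0 h
  · intro h h'
    exact h (by rw [h']; rfl)

theorem Win_cw (a : Ω → A) :
    S.cw a = (Fintype.card Ω : ℝ) ^ Fintype.card Ω / ∏ i, (S.d (S.cl (a i)) : ℝ) := by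
  unfold cw
  rw [Finset.prod_div_distrib, Finset.prod_const, Finset.card_univ]

theorem Win_cw_nonneg (a : Ω → A) : 0 ≤ S.cw a := by
  unfold cw
  exact Finset.prod_nonneg fun i _ => by positivity

theorem Lev_eq (ω : Ω) (T : Finset Ω) :
    S.Lev ω T = ∑ a : Ω → A, ∑ b : Ω → A, if ∀ i, i ∈ T ↔ a i ≠ S.a0 then
      (S.cw a : ℂ) * S.Aw ω a b * S.Bw a b else 0 := by
  unfold Lev
  have h1 : ∀ f : Equiv.Perm Ω, (br fun i => if i ∈ T then S.H ω (f i) else E0 Ω) =
      ∑ a : Ω → A, ∑ b : Ω → A, if ∀ i, i ∈ T ↔ a i ≠ S.a0 then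
        (S.cw a : ℂ) * (∏ i, (starRingEnd ℂ) (S.U (a i) (b i) ω (f i))) * S.Bw a b else 0 := by
    intro f
    simp_rw [S.Win_pos ω]
    rw [br_sum, ← Fintype.sum_prod_type']
    refine Fintype.sum_equiv (Equiv.arrowProdEquivProdArrow Ω (fun _ => A) (fun _ => A)) _ _ ?_
    intro w
    rw [br_smul]
    simp only [Equiv.arrowProdEquivProdArrow_apply]
    by_cases hw : ∀ i, i ∈ T ↔ (w i).1 ≠ S.a0
    · rw [if_pos hw]
      unfold Bw cw
      congr 1
      push_cast
      rw [← Finset.prod_mul_distrib]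
      exact prod_congr rfl fun i _ => by rw [if_pos (hw i)]
    · rw [if_neg hw]
      push Not at hw
      obtain ⟨i, hi⟩ := hw
      rw [Finset.prod_eq_zero (mem_univ i), zero_mul]
      rw [if_neg]
      tauto
  simp_rw [h1]
  rw [Finset.sum_comm]
  refine sum_congr rfl fun a _ => ?_
  rw [Finset.sum_comm]
  refine sum_congr rfl fun b _ => ?_
  by_cases hw : ∀ i, i ∈ T ↔ a i ≠ S.a0
  · simp only [if_pos hw]
    unfold Aw
    rw [Finset.mul_sum, Finset.sum_mul]
  · simp only [if_neg hw, sum_const_zero]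

theorem Win_eq (ω : Ω) (j1 j2 : ℕ) :
    S.Win ω j1 j2 = ∑ a : Ω → A, ∑ b : Ω → A,
      if j1 ≤ S.lev (S.cl ∘ a) ∧ S.lev (S.cl ∘ a) ≤ j2 then
        (S.cw a : ℂ) * S.Aw ω a b * S.Bw a b else 0 := by
  unfold Win
  simp_rw [S.Lev_eq]
  rw [Finset.sum_comm]
  refine sum_congr rfl fun a _ => ?_
  rw [Finset.sum_comm]
  refine sum_congr rfl fun b _ => ?_
  have h1 : ∀ T : Finset Ω, (∀ i, i ∈ T ↔ a i ≠ S.a0) ↔ T = univ.filter fun i => a i ≠ S.a0 := by
    intro T
    rw [Finset.ext_iff]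
    simp
  simp_rw [h1]
  rw [Finset.sum_ite_eq']
  simp only [mem_filter, mem_univ, true_and, S.Win_card a]

theorem win_bound (h : S.Hyp ω bl R) {j1 j2 : ℕ} {D : ℝ} (hw : NumWin (Fintype.card Ω) j1 j2 D) :
    ‖S.Win ω j1 j2‖ ≤ D * mainT (Fintype.card Ω) := by
  have : Nonempty Ω := ⟨ω⟩
  obtain ⟨hD, C, _, p, z, c, α, β, T, _, τ, y, coef, A', wt, hm, hc, hT, ht, hcov, hfin⟩ := hw
  set m := Fintype.card Ω with hmdef
  have hφ : (0 : ℝ) < 1 + c := by linarith
  have hm0 : (0 : ℝ) < (m : ℝ) := by exact_mod_cast Fintype.card_pos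
  have hf0 : (0 : ℝ) < (m.factorial : ℝ) := by exact_mod_cast m.factorial_pos
  set r : (Ω → A) × (Ω → A) → ℝ := fun q =>
    if j1 ≤ S.lev (S.cl ∘ q.1) ∧ S.lev (S.cl ∘ q.1) ≤ j2 then
      S.cw q.1 * ‖S.Aw ω q.1 q.2‖ * ‖S.Bw q.1 q.2‖ else 0 with hr
  set f : (Ω → A) × (Ω → A) → ℝ := fun q =>
    S.cw q.1 * (1 + c) ^ cnt (S.cl ∘ q.1) S.x0 * ‖S.Aw ω q.1 q.2‖ ^ 2 with hf
  set g0 : (Ω → X) → ℝ := fun w => if j1 ≤ S.lev w ∧ S.lev w ≤ j2 then
    (m : ℝ) ^ m / (1 + c) ^ cnt w S.x0 / ∏ i, (S.d (w i) : ℝ) else 0 with hg0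
  set g : (Ω → A) × (Ω → A) → ℝ := fun q => g0 (S.cl ∘ q.1) * ‖S.Bw q.1 q.2‖ ^ 2 with hg
  have hg0n : ∀ w, 0 ≤ g0 w := by
    intro w
    simp only [hg0]
    split_ifs
    · have : 0 ≤ ∏ i, (S.d (w i) : ℝ) := Finset.prod_nonneg fun i _ => by positivity
      positivity
    · exact le_rfl
  have h1 : ‖S.Win ω j1 j2‖ ≤ ∑ q, r q := by
    rw [S.Win_eq, ← Fintype.sum_prod_type']
    refine (norm_sum_le _ _).trans (sum_le_sum fun q _ => ?_)
    simp only [hr]
    split_ifs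
    · rw [norm_mul, norm_mul, Complex.norm_real, Real.norm_of_nonneg (S.Win_cw_nonneg _)]
    · simp
  have h2 : (∑ q, r q) ^ 2 ≤ (∑ q, f q) * ∑ q, g q := by
    refine Finset.sum_sq_le_sum_mul_sum_of_sq_eq_mul univ (fun q _ => ?_) (fun q _ => ?_)
      (fun q _ => ?_)
    · have := S.Win_cw_nonneg q.1
      simp only [hf]
      positivity
    · have := hg0n (S.cl ∘ q.1)
      simp only [hg]
      positivity
    · simp only [hr, hf, hg, hg0]
      split_ifs
      · have h3 : (1 + c) ^ cnt (S.cl ∘ q.1) S.x0 ≠ 0 := by positivity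
        have h4 : (m : ℝ) ^ m / (1 + c) ^ cnt (S.cl ∘ q.1) S.x0 / ∏ i, (S.d ((S.cl ∘ q.1) i) : ℝ) =
            S.cw q.1 / (1 + c) ^ cnt (S.cl ∘ q.1) S.x0 := by
          rw [S.Win_cw, div_div, div_div, mul_comm]
          rfl
        rw [h4]
        field_simp
      · simp
  have h3 : ∑ q, f q ≤ (m.factorial : ℝ) * ((m.factorial : ℝ) / (m : ℝ) ^ m *
      (Gs m β (α * c) / min α β)) := by
    rw [Fintype.sum_prod_type]
    simp only [hf]
    rw [S.Y_eq h c]
    exact mul_le_mul_of_nonneg_left (per_block_le' bl ω h.k1 h.k4 hc hT) hf0.le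
  have h4 : ∑ q, g q ≤ (m : ℝ) ^ m * ((((m.factorial : ℝ) ^ 2 / (m : ℝ) ^ m) ^ 2) *
      ∑ t, coef t * max (Cf (m - j1) ((1 + c) * (τ t + y t) ^ 2))
        (Cf (m - j2) ((1 + c) * (τ t + y t) ^ 2)) * Gs m (τ t) (y t) ^ 2 * A' t ^ ((m - 1) / 4) /
          (m.factorial : ℝ)) := by
    rw [Fintype.sum_prod_type]
    simp only [hg]
    refine (S.X_le_class g0 hg0n).trans ?_
    refine le_trans (le_of_eq ?_) (mul_le_mul_of_nonneg_left
      (S.X_bound h hφ j1 j2 hm τ y coef A' wt ht hcov) (by positivity))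
    rw [Finset.mul_sum, Finset.sum_filter]
    refine sum_congr rfl fun w _ => ?_
    simp only [hg0]
    split_ifs
    · ring
    · simp
  have hG : 0 ≤ Gs m β (α * c) / min α β :=
    div_nonneg (Gs_nonneg m hT.2.1.le (mul_nonneg hT.1.le hc)) (lt_min hT.1 hT.2.1).le
  have hgn : 0 ≤ ∑ q, g q := sum_nonneg fun q _ => by
    have := hg0n (S.cl ∘ q.1)
    simp only [hg]
    positivity
  have h5 : (∑ q, r q) ^ 2 ≤ (D * mainT m) ^ 2 := by
    refine h2.trans ((mul_le_mul h3 h4 hgn (by positivity)).trans ?_)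
    have h6 := mul_le_mul_of_nonneg_left hfin (sq_nonneg (mainT m))
    refine le_trans (le_of_eq ?_) (h6.trans (le_of_eq (by ring)))
    unfold mainT
    field_simp
  have hM : 0 ≤ D * mainT m := by
    unfold mainT
    positivity
  exact h1.trans ((pow_le_pow_iff_left₀ (sum_nonneg fun q _ => by
    have := S.Win_cw_nonneg q.1
    simp only [hr]
    split_ifs
    · positivity
    · exact le_rfl) hM two_ne_zero).1 h5)

end Spec

end Pool.Agent.Work.MP_66fdf3_co.Full
end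

-- merged part: Pool.Agent.Work.MP_66fdf3_co.Full.SP6
section
/-!
Sparse levels.
`H_contr`: `H = Hh * (1 - E0)` (from `H_mul_E0`, `E0_mul_self`); the tensor is a doubly stochastic matrix
(entries `∏ i, if i ∈ A then R b (x i) (y i) else δ`, `Finset.prod_univ_sum`) times a projection.
`sum_nsq_lift`, `sum_nsq_lift'`: `nsq_mulVec`, `lift_mul`, `lift_sum`, `sum_H_mul_star`.
`Lam_le`: `ip v (lift i Lam v) = ∑ a ≠ a0, (m μ / d) * nsq (lift i (U a a) v)`, `m μ / d ≤ m / 3`, and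
`∑ a, nsq (lift i (U a a) v) = nsq v`.
`Lev_eq_ip`: `sum_perm_eq_inj`, `br_eq_ip`; with `Q = tens (P on T, E0 off T)`,
`Q * tens (H (f i) on T, 1 off T) * Q = tens (H (f i) on T, E0 off T)`.
`Lev_bound`: `Dop_ip` with `θ = 3/4`, `a = m/3`, `v = w = vS T`; `red_trace`, `trace_Lam`, `Hyp.mu_sq`
give `ip v (lift i Lam v) ≤ m / 4 * nsq v` (`m ≥ 2` unless `Lam`-sum is empty; if `m = 1` then
`nuS 1 1 = 0`).  `sparse_bound`: `Finset.sum_fiberwise` by cardinality, `card_powersetCard`.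
-/

namespace Pool.Agent.Work.MP_66fdf3_co.Full

open Finset Matrix

namespace Spec

variable {Ω A X : Type} [Fintype Ω] [DecidableEq Ω] [Fintype A] [DecidableEq A] [Fintype X]
  [DecidableEq X] (S : Spec Ω A X)

variable {ω : Ω} {Bk : Type} [Fintype Bk] [DecidableEq Bk] {bl : Ω → Bk} {R : Ω → Ω → Ω → ℝ}

theorem SP6_P_star : (1 - E0 Ω)ᴴ = 1 - E0 Ω := by
  rw [conjTranspose_sub, conjTranspose_one, E0_star]

theorem SP6_P_mul [Nonempty Ω] : (1 - E0 Ω) * (1 - E0 Ω) = 1 - E0 Ω := by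
  rw [mul_sub, mul_one, sub_mul, one_mul, E0_mul_self, sub_self, sub_zero]

theorem SP6_H (ω b : Ω) : S.Hh ω b * (1 - E0 Ω) = S.H ω b := by
  have : Nonempty Ω := ⟨ω⟩
  have h1 := S.H_mul_E0 ω b
  rw [H, sub_mul, E0_mul_self, sub_eq_zero] at h1
  rw [mul_sub, mul_one, h1, H]

theorem H_contr (h : S.Hyp ω bl R) (b : Ω) (T : Finset Ω) (v : (Ω → Ω) → ℂ) :
    nsq (tens (fun i => if i ∈ T then S.H ω b else 1) *ᵥ v) ≤ nsq v := by
  have : Nonempty Ω := ⟨ω⟩
  have e1 : tens (fun i => if i ∈ T then S.H ω b else 1) =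
      tens (fun i => if i ∈ T then S.Hh ω b else 1) *
        tens (fun i => if i ∈ T then 1 - E0 Ω else 1) := by
    rw [tens_mul]
    refine congrArg tens (funext fun i => ?_)
    split_ifs
    · rw [SP6_H]
    · rw [one_mul]
  have e2 : tens (fun i => if i ∈ T then S.Hh ω b else 1) = Matrix.of fun x y : Ω → Ω =>
      ((∏ i, if i ∈ T then R b (x i) (y i) else if x i = y i then 1 else 0 : ℝ) : ℂ) := by
    ext x y
    simp only [tens, of_apply, Complex.ofReal_prod]
    refine prod_congr rfl fun i _ => ?_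
    split_ifs with h1 h2
    · exact h.eq b _ _
    · rw [h2, one_apply_eq, Complex.ofReal_one]
    · simp [h2]
  rw [e1, ← mulVec_mulVec, e2]
  refine (nsq_stoch_le _ (fun x y => prod_nonneg fun i _ => ?_) (fun x => ?_) (fun y => ?_) _).trans
    (nsq_proj_le _ ?_ ?_ v)
  · split_ifs
    · exact h.nonneg b _ _
    · exact zero_le_one
    · exact le_rfl
  · rw [← Fintype.prod_sum fun i t => if i ∈ T then R b (x i) t else if x i = t then 1 else 0]
    refine prod_eq_one fun i _ => ?_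
    split_ifs
    · exact h.row b _
    · simp
  · rw [← Fintype.prod_sum fun i t => if i ∈ T then R b t (y i) else if t = y i then 1 else 0]
    refine prod_eq_one fun i _ => ?_
    split_ifs
    · exact h.col b _
    · simp
  · rw [tens_conjTranspose]
    refine congrArg tens (funext fun i => ?_)
    split_ifs
    · exact SP6_P_star
    · exact conjTranspose_one
  · rw [tens_mul]
    refine congrArg tens (funext fun i => ?_)
    split_ifs
    · exact SP6_P_mul
    · exact one_mul _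

theorem sum_nsq_lift (ω i : Ω) (v : (Ω → Ω) → ℂ) :
    ∑ b, nsq ((lift i (S.H ω b))ᴴ *ᵥ v) = (ip v (lift i S.Lam *ᵥ v)).re := by
  rw [← S.sum_H_mul_star ω, lift_sum, ip_sum_mulVec, Complex.re_sum]
  refine sum_congr rfl fun b _ => ?_
  rw [← lift_mul, ← lift_conjTranspose, ← Complex.ofReal_re (nsq _), nsq_mulVec,
    conjTranspose_conjTranspose]

theorem sum_nsq_lift' (ω i : Ω) (v : (Ω → Ω) → ℂ) :
    ∑ b, nsq (lift i (S.H ω b) *ᵥ v) = (ip v (lift i S.Lam *ᵥ v)).re := by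
  rw [← S.sum_star_mul_H ω, lift_sum, ip_sum_mulVec, Complex.re_sum]
  refine sum_congr rfl fun b _ => ?_
  rw [← lift_mul, ← lift_conjTranspose, ← Complex.ofReal_re (nsq _), nsq_mulVec]

theorem Lam_le (h : S.Hyp ω bl R) (i : Ω) (v : (Ω → Ω) → ℂ) :
    (ip v (lift i S.Lam *ᵥ v)).re ≤ (Fintype.card Ω : ℝ) / 3 * nsq v := by
  have e : ∀ a, ip v (lift i (S.U a a) *ᵥ v) = (nsq (lift i (S.U a a) *ᵥ v) : ℂ) := fun a => by
    rw [nsq_mulVec, lift_conjTranspose, lift_mul, S.star, S.mul a a a rfl]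
  have e1 : ∑ a, nsq (lift i (S.U a a) *ᵥ v) = nsq v := by
    refine Complex.ofReal_injective ?_
    rw [Complex.ofReal_sum, ← ip_self v]
    simp only [← e]
    rw [← ip_sum_mulVec, ← lift_sum, S.sum, lift_one, one_mulVec]
  rw [Lam, lift_sum, ip_sum_mulVec, Complex.re_sum, ← e1, mul_sum]
  refine le_trans (sum_le_sum fun a ha => ?_) (sum_le_sum_of_subset_of_nonneg (erase_subset S.a0 _)
    fun a _ _ => mul_nonneg (by positivity) (nsq_nonneg _))
  rw [lift_smul, ip_smul_mulVec, e, ← Complex.ofReal_natCast, ← Complex.ofReal_natCast,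
    ← Complex.ofReal_natCast, ← Complex.ofReal_mul, ← Complex.ofReal_div, ← Complex.ofReal_mul,
    Complex.ofReal_re]
  refine mul_le_mul_of_nonneg_right ?_ (nsq_nonneg _)
  have h1 : (3 : ℝ) * S.mu (S.cl a) ≤ S.d (S.cl a) := by
    exact_mod_cast (h.d4 _ (S.ne_x0 (ne_of_mem_erase ha))).2
  have h2 : (0 : ℝ) < S.d (S.cl a) := by exact_mod_cast S.dpos _
  rw [div_le_div_iff₀ h2 (by norm_num), mul_assoc, mul_comm _ (3 : ℝ)]
  exact mul_le_mul_of_nonneg_left h1 (Nat.cast_nonneg _)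

theorem Lev_eq_ip (ω : Ω) (T : Finset Ω) :
    S.Lev ω T = ((Fintype.card Ω - T.card).factorial : ℂ) *
      ip (vS T) (Dop (S.H ω) ω T *ᵥ vS T) := by
  have : Nonempty Ω := ⟨ω⟩
  rw [Lev, sum_perm_eq_inj ω T (fun f => br fun i => if i ∈ T then S.H ω (f i) else E0 Ω)
    fun f g hfg => congrArg br (funext fun i => by
      split_ifs with hi
      · rw [hfg i hi]
      · rfl), nsmul_eq_mul, Dop, ip_sum_mulVec]
  refine congrArg _ (sum_congr rfl fun f _ => ?_)
  have e : (tens fun i => if i ∈ T then 1 - E0 Ω else E0 Ω)ᴴ =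
      tens fun i => if i ∈ T then 1 - E0 Ω else E0 Ω := by
    rw [tens_conjTranspose]
    refine congrArg tens (funext fun i => ?_)
    split_ifs
    · exact SP6_P_star
    · exact E0_star
  rw [vS, mulVec_mulVec, ← e, ← ip_mulVec, e, mulVec_mulVec, tens_mul, tens_mul, br_eq_ip]
  refine congrArg (fun K => ip (ub Ω) (tens K *ᵥ ub Ω)) (funext fun i => ?_)
  split_ifs
  · rw [mul_sub, mul_one, H_mul_E0, sub_zero, sub_mul, one_mul, E0_mul_H, sub_zero]
  · rw [one_mul, E0_mul_self]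

theorem SP6_quarter (h : S.Hyp ω bl R) {T : Finset Ω} {i : Ω} (hi : i ∈ T) :
    (ip (vS T) (lift i S.Lam *ᵥ vS T)).re ≤
      3 / 4 * ((Fintype.card Ω : ℝ) / 3) * nsq (vS T) := by
  have : Nonempty Ω := ⟨ω⟩
  have h0 := nsq_nonneg (vS T)
  rcases (Nat.succ_le_of_lt (Fintype.card_pos (α := Ω))).eq_or_lt with hm | hm
  · have h1 : T.card = 1 := le_antisymm ((card_le_univ T).trans hm.ge) (card_pos.2 ⟨i, hi⟩)
    have h2 : nsq (vS T) = 0 := by rw [nsq_vS, h1, nuS, mul_zero]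
    have h3 := S.Lam_le h i (vS T)
    rw [h2, mul_zero] at h3 ⊢
    exact h3
  · have h1 := congrArg Complex.re (red_trace T hi S.Lam S.Lam_mul_E0 S.E0_mul_Lam)
    have h2 := h.mu_sq
    rw [S.trace_Lam] at h1
    generalize ∑ χ ∈ univ.erase S.x0, S.mu χ ^ 2 = s at h1 h2
    have h3 : (4 : ℝ) * s + 1 ≤ Fintype.card Ω := by exact_mod_cast h2
    have h4 : (1 : ℝ) < Fintype.card Ω := by exact_mod_cast hm
    simp only [Complex.mul_re, Complex.mul_im, Complex.sub_re, Complex.sub_im, Complex.natCast_re,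
      Complex.natCast_im, Complex.one_re, Complex.one_im, Complex.ofReal_re, Complex.ofReal_im,
      sub_zero, zero_mul, mul_zero] at h1
    refine le_of_mul_le_mul_left ?_ (sub_pos.2 h4)
    rw [h1]
    have h5 := mul_le_mul_of_nonneg_left h3 (mul_nonneg (Nat.cast_nonneg (Fintype.card Ω)) h0)
    linarith

theorem Lev_bound (h : S.Hyp ω bl R) {T : Finset Ω} (hT : T.Nonempty) :
    ‖S.Lev ω T‖ ≤ ((Fintype.card Ω - T.card).factorial : ℝ) *
      (3 / 4 * dS ((Fintype.card Ω : ℝ) / 3) T.card * nsq (vS T)) := by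
  have ha : (0 : ℝ) ≤ (Fintype.card Ω : ℝ) / 3 := by positivity
  rw [Lev_eq_ip, norm_mul, Complex.norm_natCast]
  refine mul_le_mul_of_nonneg_left ?_ (Nat.cast_nonneg _)
  have k := Dop_ip (S.H ω) ω (S.sum_H ω) (S.H_contr h) ha (θ := 3 / 4) (by norm_num) hT
    (fun S' _ _ w => Dop_nsq (S.H ω) ω (S.sum_H ω) (S.H_contr h) ha
      (fun i v => (S.sum_nsq_lift ω i v).trans_le (S.Lam_le h i v))
      (fun i v => (S.sum_nsq_lift' ω i v).trans_le (S.Lam_le h i v)) S' w) (vS T) (vS T)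
    (fun i hi => (S.sum_nsq_lift ω i _).trans_le (S.SP6_quarter h hi))
    fun i hi => (S.sum_nsq_lift' ω i _).trans_le (S.SP6_quarter h hi)
  rwa [Real.mul_self_sqrt (nsq_nonneg _)] at k

theorem sparse_bound (h : S.Hyp ω bl R) {J : ℕ} (hJ : J ≤ Fintype.card Ω) :
    ‖S.Win ω 1 J‖ ≤ sparseS (Fintype.card Ω) J * mainT (Fintype.card Ω) := by
  have : Nonempty Ω := ⟨ω⟩
  rw [Win]
  refine (norm_sum_le _ _).trans ((sum_le_sum fun T hT =>
    S.Lev_bound h (card_pos.1 (mem_filter.1 hT).2.1)).trans (le_of_eq ?_))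
  rw [← sum_fiberwise_of_maps_to (t := Icc 1 J) (g := card)
    fun T hT => mem_Icc.2 (mem_filter.1 hT).2, sparseS, mul_sum, sum_mul]
  refine sum_congr rfl fun j hj => ?_
  have e : (univ.filter fun T : Finset Ω => 1 ≤ T.card ∧ T.card ≤ J).filter
      (fun T => T.card = j) = powersetCard j univ := by
    ext T
    simp only [mem_filter, mem_univ, true_and, mem_powersetCard, subset_univ]
    exact ⟨fun k => k.2, fun k => ⟨k ▸ mem_Icc.1 hj, k⟩⟩
  rw [e, sum_congr rfl fun T hT => by rw [nsq_vS, (mem_powersetCard.1 hT).2], sum_const,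
    card_powersetCard, card_univ, nsmul_eq_mul, mainT]
  have e2 : ((Fintype.card Ω).choose j : ℝ) * j.factorial * (Fintype.card Ω - j).factorial =
      (Fintype.card Ω).factorial := by
    exact_mod_cast Nat.choose_mul_factorial_mul_factorial ((mem_Icc.1 hj).2.trans hJ)
  have e3 : (j.factorial : ℝ) ≠ 0 := by positivity
  rw [pow_succ ((Fintype.card Ω).factorial : ℝ) 2]
  generalize ((Fintype.card Ω).factorial : ℝ) ^ 2 = c
  rw [← e2]
  field_simp

end Spec

end Pool.Agent.Work.MP_66fdf3_co.Full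
end

-- merged part: Pool.Agent.Work.MP_66fdf3_co.Full.AN
section
/-!
The analytic theorem.  `total_eq`: `Hh = H + E0`, `Finset.prod_add`.  `Lev_empty`: `br_const` is not
needed, every product is `(1 / m) ^ m`.  `analytic`: if no pair works then for all `f σ π` the product
`∏ i, Hh (f i) (σ i) (π i)` vanishes (use `σ * f⁻¹`, `π * f⁻¹`), so
`0 = Lev ∅ + Win 1 J + Win (J+1) k + Win (k+1) m` (split the sum over `T` by cardinality); the last window
is empty if `k = m`.
-/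

namespace Pool.Agent.Work.MP_66fdf3_co.Full

open Finset Matrix

namespace Spec

variable {Ω A X : Type} [Fintype Ω] [DecidableEq Ω] [Fintype A] [DecidableEq A] [Fintype X]
  [DecidableEq X] (S : Spec Ω A X)

variable {ω : Ω} {Bk : Type} [Fintype Bk] [DecidableEq Bk] {bl : Ω → Bk} {R : Ω → Ω → Ω → ℝ}

theorem total_eq (ω : Ω) :
    ∑ f : Equiv.Perm Ω, br (fun i => S.Hh ω (f i)) = ∑ T : Finset Ω, S.Lev ω T := by
  unfold Lev br
  rw [sum_comm (s := (univ : Finset (Finset Ω)))]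
  refine sum_congr rfl fun f _ => ?_
  rw [sum_comm (s := (univ : Finset (Finset Ω)))]
  refine sum_congr rfl fun σ _ => ?_
  rw [sum_comm (s := (univ : Finset (Finset Ω)))]
  refine sum_congr rfl fun π _ => ?_
  have e : ∀ i, S.Hh ω (f i) (σ i) (π i) = S.H ω (f i) (σ i) (π i) + E0 Ω (σ i) (π i) := fun i => by
    rw [H, Matrix.sub_apply, sub_add_cancel]
  simp only [e]
  rw [Fintype.prod_add]
  refine sum_congr rfl fun T _ => ?_
  rw [← prod_mul_prod_compl T]
  congr 1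
  · exact prod_congr rfl fun i hi => by rw [if_pos hi]
  · exact prod_congr rfl fun i hi => by rw [if_neg (mem_compl.1 hi)]

theorem Lev_empty (ω : Ω) : S.Lev ω ∅ = (mainT (Fintype.card Ω) : ℂ) := by
  simp only [Lev, br, notMem_empty, if_false, E0, Matrix.of_apply, prod_const, sum_const, card_univ,
    Fintype.card_perm, nsmul_eq_mul, mainT]
  push_cast
  rw [inv_pow]
  ring

theorem AN_split (ω : Ω) {J k : ℕ} (h : J < k) :
    ∑ T : Finset Ω, S.Lev ω T = S.Lev ω ∅ + S.Win ω 1 J + S.Win ω (J + 1) k +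
      S.Win ω (k + 1) (Fintype.card Ω) := by
  have e : S.Lev ω ∅ = ∑ T : Finset Ω, if T = ∅ then S.Lev ω T else 0 := by
    rw [sum_ite_eq' univ ∅, if_pos (mem_univ _)]
  rw [e]
  simp only [Win, sum_filter, ← sum_add_distrib]
  refine sum_congr rfl fun T _ => ?_
  have h1 : T.card ≤ Fintype.card Ω := card_le_univ T
  simp only [← card_eq_zero]
  split_ifs <;> first | omega | simp

theorem analytic (h : S.Hyp ω bl R) (hg : Good (Fintype.card Ω)) :
    ∃ σ π : Equiv.Perm Ω, ∀ b, R b (σ b) (π b) ≠ 0 := by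
  by_contra hc
  push Not at hc
  obtain ⟨J, k, D1, D2, h1, h2, h3, h4, h5⟩ := hg
  have h0 : ∑ f : Equiv.Perm Ω, br (fun i => S.Hh ω (f i)) = 0 := by
    refine sum_eq_zero fun f _ => sum_eq_zero fun σ _ => sum_eq_zero fun π _ => ?_
    obtain ⟨b, hb⟩ := hc (σ * f⁻¹) (π * f⁻¹)
    refine prod_eq_zero (mem_univ (f⁻¹ b)) ?_
    show S.Hh ω (f (f⁻¹ b)) (σ (f⁻¹ b)) (π (f⁻¹ b)) = 0
    rw [h.eq, show f (f⁻¹ b) = b from f.apply_symm_apply b]
    exact Complex.ofReal_eq_zero.2 hb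
  rw [total_eq, AN_split S ω h1, Lev_empty] at h0
  have hm : 0 < mainT (Fintype.card Ω) := by
    have : 0 < Fintype.card Ω := by omega
    unfold mainT
    positivity
  have b1 := S.sparse_bound h (J := J) (by omega)
  have b2 := S.win_bound h h3
  have b3 : ‖S.Win ω (k + 1) (Fintype.card Ω)‖ ≤ D2 * mainT (Fintype.card Ω) := by
    rcases h4 with ⟨e1, e2⟩ | ⟨-, e2⟩
    · rw [Win, filter_false_of_mem fun T _ => by omega, sum_empty, norm_zero, e2, zero_mul]
    · exact S.win_bound h e2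
  have e : (mainT (Fintype.card Ω) : ℂ) = -(S.Win ω 1 J + S.Win ω (J + 1) k +
      S.Win ω (k + 1) (Fintype.card Ω)) := by linear_combination h0
  have b4 := congrArg norm e
  rw [norm_neg, Complex.norm_real, Real.norm_of_nonneg hm.le] at b4
  have b5 := norm_add₃_le (a := S.Win ω 1 J) (b := S.Win ω (J + 1) k)
    (c := S.Win ω (k + 1) (Fintype.card Ω))
  nlinarith

end Spec

end Pool.Agent.Work.MP_66fdf3_co.Full
end
end

-- merged part: Pool.Agent.Work.MP_66fdf3_co.Nec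
section
-- merged part: Pool.Agent.Work.MP_66fdf3_co.Rel
section
namespace Pool.Agent.Work.MP_66fdf3_co

open Function

variable {G : Type*} [Group G]

/-- Two distinct commuting involutions. -/
structure K4 (d e : G) : Prop where
  d1 : d ≠ 1
  d2 : d * d = 1
  e1 : e ≠ 1
  e2 : e * e = 1
  ne : e ≠ d
  cm : e * d = d * e

namespace K4

variable {d e : G} (h : K4 d e)

include h in
theorem s1 : Stp ⊥ d := stp_bot h.d1 h.d2

theorem s2 : Stp h.s1.ext e := by
  refine ⟨fun a => ?_, by rw [h.e2]; exact Subgroup.one_mem _, fun x hx => ?_⟩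
  · rcases h.s1.cases a with a | ⟨a, ha, b⟩
    · exact h.e1 (Subgroup.mem_bot.1 a)
    · rw [Subgroup.mem_bot.1 ha, mul_one] at b; exact h.ne b
  · rw [mul_assoc, comm_of_stp h.s1 h.cm x hx]; simpa using hx

/-- The four-group. -/
def V : Subgroup G := h.s2.ext

theorem mdl : Mdl h.V 4 (m2 0) (p2 d e) :=
  (mdl1 h.s1).ext h.s2.nm (fun _ => h.s2.mem)
    (Cj.of_comm (mdl1 h.s1) (comm_of_stp h.s1 h.cm)) (by omega) (by simp [h.e2])

theorem mem_V (x : G) : x ∈ h.V ↔ x = 1 ∨ x = d ∨ x = e ∨ x = e * d := by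
  constructor
  · intro hx
    obtain ⟨u, hu, rfl⟩ := h.mdl.surj x hx
    interval_cases u <;> simp [p2_0, p2_1, p2_2, p2_3]
  · rintro (rfl | rfl | rfl | rfl)
    · exact Subgroup.one_mem _
    · exact h.s2.le h.s1.self
    · exact h.s2.self
    · exact Subgroup.mul_mem _ h.s2.self (h.s2.le h.s1.self)

theorem dm : d ∈ h.V := (h.mem_V _).2 (by simp)
theorem em : e ∈ h.V := (h.mem_V _).2 (by simp)

theorem V_le {A : Subgroup G} (hd : d ∈ A) (he : e ∈ A) : h.V ≤ A :=
  h.s2.ext_le (h.s1.ext_le bot_le hd) he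

theorem card : Nat.card h.V = 4 := h.mdl.card

theorem sq : ∀ x ∈ h.V, x * x = 1 := by
  intro x hx
  rcases (h.mem_V x).1 hx with rfl | rfl | rfl | rfl
  · simp
  · exact h.d2
  · exact h.e2
  · rw [mul_assoc, ← mul_assoc d, ← h.cm, mul_assoc, h.d2, mul_one, h.e2]

theorem pp : PP h.V d e := by
  have := h.mdl.pp (d := 1) (by omega) cp4.1 cp4.2.1
  rwa [cp4.2.2, p2_1, p2_2] at this

include h in
theorem symm : K4 e d := ⟨h.e1, h.e2, h.d1, h.d2, h.ne.symm, h.cm.symm⟩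

include h in
theorem mul : K4 d (e * d) :=
  ⟨h.d1, h.d2, fun a => h.ne (mul_right_cancel (a.trans h.d2.symm)),
    h.sq _ ((h.mem_V _).2 (by simp)), by simpa using h.e1, by rw [← mul_assoc d, ← h.cm]⟩

end K4

theorem NV4.k4 {z v : G} (h : NV4 z v) : K4 z v := ⟨h.z1, h.z2, h.v1, h.v2, h.vz, h.zc v⟩

theorem NV4.V_eq {z v : G} (h : NV4 z v) : h.V = h.k4.V := by
  ext x; rw [h.mem_V, h.k4.mem_V]

theorem NV4.V_le {z v : G} (h : NV4 z v) {A : Subgroup G} (hz : z ∈ A) (hv : v ∈ A) : h.V ≤ A :=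
  h.V_eq ▸ h.k4.V_le hz hv

theorem NV4.zm {z v : G} (h : NV4 z v) : z ∈ h.V := (h.mem_V _).2 (by simp)
theorem NV4.vm {z v : G} (h : NV4 z v) : v ∈ h.V := (h.mem_V _).2 (by simp)

theorem NV4.tw2 {z v : G} (h : NV4 z v) : Tw2 h.V 0 (p2 z v) := by
  rw [h.V_eq]
  refine ⟨h.k4.mdl, fun g => ?_⟩
  obtain ⟨e, h3, -, h4⟩ := Cj.step (mdl1 h.k4.s1) h.k4.mdl
    (Cj.of_comm (mdl1 h.k4.s1) (comm_of_stp h.k4.s1 (h.zc g))) (by
      have := h.conj g⁻¹
      rw [inv_inv] at this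
      rcases this with e | e <;> rw [e]
      · simp
      · simpa using h.k4.s1.self)
  exact ⟨e, h3, h4⟩

theorem K4.nv4 {d e : G} (h : K4 d e) {A : Subgroup G} (hd : d ∈ A) (he : e ∈ A)
    (c1 : ∀ g ∈ A, g * d = d * g) (c2 : ∀ g ∈ A, g * e * g⁻¹ = e ∨ g * e * g⁻¹ = e * d) :
    NV4 (⟨d, hd⟩ : A) ⟨e, he⟩ :=
  ⟨fun a => h.d1 (congrArg Subtype.val a), Subtype.ext h.d2, fun g => Subtype.ext (c1 g g.2),
    Subtype.ext h.e2, fun a => h.e1 (congrArg Subtype.val a), fun a => h.ne (congrArg Subtype.val a),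
    fun g => (c2 g g.2).imp (fun a => Subtype.ext a) fun a => Subtype.ext a⟩

theorem K4.nv4c {d e : G} (h : K4 d e) {A : Subgroup G} (hd : d ∈ A) (he : e ∈ A)
    (c : ∀ x ∈ A, ∀ y ∈ A, x * y = y * x) : NV4 (⟨d, hd⟩ : A) ⟨e, he⟩ :=
  h.nv4 hd he (fun g hg => c g hg d hd) fun g hg => Or.inl (by rw [c g hg e he]; simp)

theorem K4.cmIn [Finite G] {d e : G} (h : K4 d e) {A : Subgroup G} (hA : IsPGroup 2 A)
    (hd : d ∈ A) (he : e ∈ A) (c : ∀ x ∈ A, ∀ y ∈ A, x * y = y * x) : CMin A := by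
  obtain ⟨θ, hθ⟩ := (h.nv4c hd he c).cm hA
  exact cmIn_of_sub hθ

theorem Mdl.h0 {n mul π} (M : Mdl (⊤ : Subgroup G) n mul π) {x : ℕ × ℕ} (h : h0B n mul x = true) :
    ∃ φ σ, HP2 ({1} : Set G) {1} {1} φ σ :=
  M.hp2 h (by simp [M.zero]) (by simp [M.zero]) (by simp [M.zero])

theorem Mdl.nas {K : Subgroup G} {n mul π} (M : Mdl K n mul π) {a b c : ℕ} :
    nasB n mul a b c ≠ true := by
  intro h
  simp only [nasB, Bool.and_eq_true, Bool.not_eq_eq_eq_not, Bool.not_true] at h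
  have l := allLt_spec h.1
  exact Nat.ne_of_beq_eq_false h.2 (M.assoc (l _ (by simp)) (l _ (by simp)) (l _ (by simp)))

theorem hp2_hole [Finite G] (hG : IsPGroup 2 G) (hc : Nat.card G = 4 ∨ Nat.card G = 8) :
    ∃ φ σ, HP2 ({1} : Set G) {1} {1} φ σ := by
  rcases hc with hc | hc
  · obtain ⟨s, hs, π, M⟩ := mdl_4 hG hc
    exact M.h0 (allR_spec ch4 hs)
  · obtain ⟨s2, h1, s3, h2, e, h3, π, M⟩ := mdl_8 hG hc
    rcases Bool.or_eq_true_iff.1 (allR_spec (allR_spec (allR_spec ch8 h1) h2) h3) with h | h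
    · exact absurd h M.nas
    · exact M.h0 h

theorem rel_norm [Finite G] (hG : IsPGroup 2 G) {z v : G} (h : NV4 z v) {K : Subgroup G}
    [K.Normal] (hz : z ∈ K) (hv : v ∈ K)
    (hc : Nat.card G = 4 * Nat.card K ∨ Nat.card G = 8 * Nat.card K) : RelIn ⊤ K := by
  have e := Subgroup.card_eq_card_quotient_mul_card_subgroup K
  have p : 0 < Nat.card K := Nat.card_pos
  obtain ⟨φ, σ, hP⟩ := hp2_hole (hG.to_quotient K)
    (hc.imp (fun a => Nat.eq_of_mul_eq_mul_right p (e.symm.trans a))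
      fun a => Nat.eq_of_mul_eq_mul_right p (e.symm.trans a))
  obtain ⟨θ, hθ⟩ := h.lift' (QuotientGroup.mk' K) (QuotientGroup.mk'_surjective K)
    (by rw [QuotientGroup.ker_mk']; exact h.V_le hz hv) (hG.to_subgroup _) hP
  have : (QuotientGroup.mk' K) ⁻¹' {1} = K := by
    ext x; simp
  rw [this] at hθ
  exact ⟨θ, HTin.top.2 hθ⟩

theorem rel_in [Finite G] {L N : Subgroup G} (hL : IsPGroup 2 L) (hNL : N ≤ L)
    (c : ∀ x ∈ L, ∀ y ∈ L, x * y = y * x) {d e : G} (h : K4 d e) (hd : d ∈ N) (he : e ∈ N)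
    (hc : Nat.card L = 4 * Nat.card N ∨ Nat.card L = 8 * Nat.card N) : RelIn L N := by
  have : (N.subgroupOf L).Normal := ⟨fun x hx g => by
    rw [Subgroup.mem_subgroupOf] at hx ⊢
    simpa [c g g.2 x x.2] using hx⟩
  have e : Nat.card (N.subgroupOf L) = Nat.card N :=
    Nat.card_congr (Subgroup.subgroupOfEquivOfLe hNL).toEquiv
  obtain ⟨θ, hθ⟩ := rel_norm hL (h.nv4c (hNL hd) (hNL he) c) (K := N.subgroupOf L) hd he
    (by rwa [e])
  exact relIn_of_sub hNL (HTin.top.1 hθ)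

theorem sq_step {A N : Subgroup G} (hA : IsPGroup 2 A) (h : ¬A ≤ N) :
    ∃ y ∈ A, y ∉ N ∧ y * y ∈ N := by
  classical
  obtain ⟨x, hx, hxN⟩ := SetLike.not_le_iff_exists.1 h
  obtain ⟨k, hk⟩ := hA ⟨x, hx⟩
  have ex : ∃ j, x ^ 2 ^ j ∈ N := ⟨k, by
    have := congrArg Subtype.val hk
    simp only [SubmonoidClass.mk_pow, OneMemClass.coe_one] at this
    rw [this]; exact N.one_mem⟩
  have h0 : Nat.find ex ≠ 0 := fun e => hxN (by simpa [e] using Nat.find_spec ex)
  obtain ⟨j, hj⟩ := Nat.exists_eq_succ_of_ne_zero h0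
  refine ⟨x ^ 2 ^ j, A.pow_mem hx _, Nat.find_min ex (by omega), ?_⟩
  have := Nat.find_spec ex
  rwa [hj, pow_succ, mul_two, pow_add] at this

theorem ab_step {A N : Subgroup G} (hA : IsPGroup 2 A) (hNA : N ≤ A)
    (c : ∀ x ∈ A, ∀ y ∈ A, x * y = y * x) (h : ¬A ≤ N) : ∃ y ∈ A, Stp N y := by
  obtain ⟨y, hy, h1, h2⟩ := sq_step hA h
  exact ⟨y, hy, h1, h2, fun x hx => by rw [mul_assoc, c x (hNA hx) y hy]; simpa using hx⟩

theorem card_lt_of_not_le [Finite G] {A N : Subgroup G} (hNA : N ≤ A) (h : ¬A ≤ N) :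
    Nat.card N < Nat.card A := by
  refine lt_of_le_of_ne (Subgroup.card_le_of_le hNA) fun e => h ?_
  exact (Subgroup.eq_of_le_of_card_ge hNA e.ge).ge

theorem rel_ab [Finite G] {A : Subgroup G} (hA : IsPGroup 2 A)
    (c : ∀ x ∈ A, ∀ y ∈ A, x * y = y * x) {d e : G} (h : K4 d e) (k : ℕ) :
    ∀ N ≤ A, Nat.card A - Nat.card N = k → d ∈ N → e ∈ N → Nat.card A ≠ 2 * Nat.card N →
      RelIn A N := by
  induction k using Nat.strong_induction_on with
  | _ k ih =>
  intro N hNA hk hd he hc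
  by_cases a0 : A ≤ N
  · rw [le_antisymm hNA a0]; exact RelIn.refl A
  obtain ⟨y1, m1, s1⟩ := ab_step hA hNA c a0
  have l1 := s1.ext_le hNA m1
  have c1 := s1.card
  by_cases a1 : A ≤ s1.ext
  · rw [← le_antisymm a1 l1] at c1; exact absurd c1 hc
  obtain ⟨y2, m2, s2⟩ := ab_step hA l1 c a1
  have l2 := s2.ext_le l1 m2
  have c2 := s2.card
  by_cases a2 : A ≤ s2.ext
  · rw [← le_antisymm a2 l2] at c2
    exact rel_in hA hNA c h hd he (by omega)
  obtain ⟨y3, m3, s3⟩ := ab_step hA l2 c a2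
  have l3 := s3.ext_le l2 m3
  have c3 := s3.card
  by_cases a3 : A ≤ s3.ext
  · rw [← le_antisymm a3 l3] at c3
    exact rel_in hA hNA c h hd he (by omega)
  have := card_lt_of_not_le l3 a3
  have p : 0 < Nat.card N := Nat.card_pos
  have l := s1.le.trans s2.le
  refine RelIn.trans l2 l (ih _ (by omega) _ l2 rfl (l hd) (l he) (by omega)) ?_
  exact rel_in (hA.to_le l2) l (fun x hx y hy => c x (l2 hx) y (l2 hy)) h hd he (by omega)

theorem rel_ab' [Finite G] {A N : Subgroup G} (hA : IsPGroup 2 A)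
    (c : ∀ x ∈ A, ∀ y ∈ A, x * y = y * x) {d e : G} (h : K4 d e) (hNA : N ≤ A) (hd : d ∈ N)
    (he : e ∈ N) (hc : Nat.card A ≠ 2 * Nat.card N) : RelIn A N :=
  rel_ab hA c h _ N hNA rfl hd he hc

theorem PP.lift {A K : Subgroup G} (hKA : K ≤ A) (h₁ : RelIn A K) {d e : G} (hd : d ∈ K)
    (h : PP K d e) : PP A d e := by
  classical
  obtain ⟨θ, h₁⟩ := h₁
  obtain ⟨φ, h₂, h3, h4⟩ := h
  exact ⟨_, HTin.trans hKA (by simp) (by simp) (by simp) h₁ h₂, by simp [h3], by simp [hd, h4]⟩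

theorem K4.pp_ab [Finite G] {A : Subgroup G} (hA : IsPGroup 2 A)
    (c : ∀ x ∈ A, ∀ y ∈ A, x * y = y * x) {d e : G} (h : K4 d e) (hd : d ∈ A) (he : e ∈ A)
    (hc : Nat.card A ≠ 8) : PP A d e :=
  h.pp.lift (h.V_le hd he) (rel_ab' hA c h (h.V_le hd he) h.dm h.em (by rw [h.card]; omega)) h.dm

theorem K4.mdl8 {A : Subgroup G} (c : ∀ x ∈ A, ∀ y ∈ A, x * y = y * x) {d e x : G} (h : K4 d e)
    (hd : d ∈ A) (he : e ∈ A) (hx : x ∈ A) (x1 : x ∉ h.V) (x2 : x * x = 1) :
    ∃ K ≤ A, ∃ π, Mdl K 8 (c3 0 0) π ∧ π 1 = d ∧ π 2 = e := by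
  have l := h.V_le hd he
  have s : Stp h.V x := ⟨x1, by rw [x2]; exact Subgroup.one_mem _,
    fun y hy => by rw [mul_assoc, c y (l hy) x hx]; simpa using hy⟩
  exact ⟨s.ext, s.ext_le l hx, _, h.mdl.ext s.nm (fun _ => s.mem)
    (Cj.of_comm h.mdl fun y hy => c y (l hy) x hx) (by omega) (by rw [x2, p2_0]),
    by rw [xpi_lo (by omega), p2_1], by rw [xpi_lo (by omega), p2_2]⟩

theorem K4.pp_rank3 [Finite G] {A : Subgroup G} (hA : IsPGroup 2 A)
    (c : ∀ x ∈ A, ∀ y ∈ A, x * y = y * x) {d e x : G} (h : K4 d e) (hd : d ∈ A) (he : e ∈ A)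
    (hx : x ∈ A) (x1 : x ∉ h.V) (x2 : x * x = 1) : PP A d e := by
  by_cases hc : Nat.card A = 8
  · obtain ⟨K, hK, π, M, e1, e2⟩ := h.mdl8 c hd he hx x1 x2
    obtain rfl : K = A := Subgroup.eq_of_le_of_card_ge hK (by rw [M.card, hc])
    have := M.pp (d := 1) (by omega) cp8.1 cp8.2.1
    rwa [cp8.2.2, e1, e2] at this
  · exact h.pp_ab hA c hd he hc

theorem K4.sb16 [Finite G] {A : Subgroup G} (hA : IsPGroup 2 A)
    (c : ∀ x ∈ A, ∀ y ∈ A, x * y = y * x) {d e : G} (h : K4 d e) (hd : d ∈ A) (he : e ∈ A)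
    (hc : Nat.card A = 16) : SBin A d e := by
  have l := h.V_le hd he
  obtain ⟨y1, m1, s1⟩ := ab_step hA l c (fun a => by
    have := Subgroup.card_le_of_le a; rw [h.card] at this; omega)
  obtain ⟨s3, h3, -, M3⟩ := h.mdl.step s1 (Cj.of_comm h.mdl fun y hy => c y (l hy) _ m1)
  have l1 := s1.ext_le l m1
  obtain ⟨y2, m2, s2⟩ := ab_step hA l1 c (fun a => by
    have := Subgroup.card_le_of_le a; rw [M3.card] at this; omega)
  obtain ⟨s4, h4, -, M4⟩ := M3.step s2 (Cj.of_comm M3 fun y hy => c y (l1 hy) _ m2)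
  have e : s2.ext = A := Subgroup.eq_of_le_of_card_ge (s2.ext_le l1 m2) (by rw [M4.card, hc])
  have := M4.sb (allR_spec (allR_spec csb16 h3) h4)
  rwa [e, xpi_lo (by omega), xpi_lo (by omega), xpi_lo (by omega), xpi_lo (by omega), p2_1,
    p2_2] at this

theorem K4.sb_rank3 [Finite G] {A : Subgroup G} (hA : IsPGroup 2 A)
    (c : ∀ x ∈ A, ∀ y ∈ A, x * y = y * x) {d e x : G} (h : K4 d e) (hd : d ∈ A) (he : e ∈ A)
    (hx : x ∈ A) (x1 : x ∉ h.V) (x2 : x * x = 1) : SBin A d e := by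
  by_cases hc : Nat.card A = 16
  · exact h.sb16 hA c hd he hc
  obtain ⟨K, hK, π, M, e1, e2⟩ := h.mdl8 c hd he hx x1 x2
  have sb := M.sb csb8
  rw [e1, e2] at sb
  have hd' : d ∈ K := e1 ▸ M.mem _ (by omega)
  have he' : e ∈ K := e2 ▸ M.mem _ (by omega)
  exact sb.lift hK (rel_ab' hA c h hK hd' he' (by rw [M.card]; omega))
    (sb.cm (by rw [M.card]; omega)) hd' he'

theorem idx4 [Finite G] {K : Subgroup G} {x y : G} (s : Stp K x) (s' : Stp s.ext y)
    (ht : s'.ext = ⊤) (hK : CMin K) {k : G} (hk : k ∈ K) (hk' : y⁻¹ * k * y ∉ K) : RelIn ⊤ K := by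
  have mk : y⁻¹ * k * y ∈ s.ext := s'.cj _ (s.le hk)
  obtain ⟨a, a1, a2⟩ : ∃ a, x⁻¹ * a ∈ K ∧ y⁻¹ * a * y ∈ K := by
    by_cases h : y⁻¹ * x * y ∈ K
    · exact ⟨x, by simp, h⟩
    · refine ⟨x * k, by simpa using hk, ?_⟩
      have := (s.par (s'.cj _ s.self) mk).2 (by simp [h, hk'])
      simpa [mul_assoc] using this
  have myy : ∀ u ∈ s.ext, y * u * y ∈ s.ext := fun u hu => by
    have := s.ext.mul_mem s'.sq (s'.cj u hu)
    simpa [mul_assoc] using this
  obtain ⟨b, b1, b2⟩ : ∃ b, x⁻¹ * b ∈ K ∧ y * b * y ∈ K := by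
    by_cases h : y * x * y ∈ K
    · exact ⟨x, by simp, h⟩
    · refine ⟨x * k, by simpa using hk, ?_⟩
      have := (s.par (myy _ s.self) mk).2 (by simp [h, hk'])
      simpa [mul_assoc] using this
  have am : a ∈ s.ext := Or.inr a1
  have bm : b ∈ s.ext := Or.inr b1
  have ny : ∀ u ∈ s.ext, ∀ w ∈ s.ext, u * y * w ∉ K := fun u hu w hw e =>
    s'.nm ((s.ext.mul_mem_cancel_left hu).1 ((s.ext.mul_mem_cancel_right hw).1 (s.le e)))
  have nx : ∀ u ∈ K, ∀ w ∈ K, u * x * w ∉ K := fun u hu w hw e =>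
    s.nm ((K.mul_mem_cancel_left hu).1 ((K.mul_mem_cancel_right hw).1 e))
  have cls : ∀ (u : Fin 4 → G) (τ : Fin 4 → Fin 4), Injective τ →
      (∀ j, ((![1, x, y, y * x] : Fin 4 → G) (τ j))⁻¹ * u j ∈ K) →
      ∀ j j', (u j)⁻¹ * u j' ∈ K → j = j' := by
    intro u τ hτ hu j j' e
    apply hτ
    have : ((![1, x, y, y * x] : Fin 4 → G) (τ j))⁻¹ * (![1, x, y, y * x] : Fin 4 → G) (τ j') ∈ K := by
      have := K.mul_mem (K.mul_mem (hu j) e) (K.inv_mem (hu j'))
      simpa [mul_assoc] using this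
    have o := K.one_mem
    have o' := s.ext.one_mem
    have xi := s.ext.inv_mem s.self
    have n1 := s.nm
    have n2 : x⁻¹ ∉ K := by simpa using s.nm
    have n3 : y ∉ K := by simpa using ny 1 o' 1 o'
    have n4 : y * x ∉ K := by simpa using ny 1 o' x s.self
    have n5 : x⁻¹ * y ∉ K := by simpa using ny _ xi 1 o'
    have n6 : x⁻¹ * (y * x) ∉ K := by simpa [mul_assoc] using ny _ xi x s.self
    have n7 : y⁻¹ ∉ K := by simpa using n3
    have n8 : x⁻¹ * y⁻¹ ∉ K := fun h => n4 (by simpa using K.inv_mem h)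
    have n9 : y⁻¹ * x ∉ K := fun h => n5 (by simpa using K.inv_mem h)
    have n10 : x⁻¹ * (y⁻¹ * x) ∉ K := fun h => n6 (by simpa [mul_assoc] using K.inv_mem h)
    generalize τ j = i at this ⊢
    generalize τ j' = i' at this ⊢
    fin_cases i <;> fin_cases i' <;> simp_all [mul_assoc]
  refine hp_system le_rfl hK (![1, a, y, y * b] : Fin 4 → G) ![1, y, x, y * x] (fun g => ?_)
    (cls _ ![0, 2, 1, 3] (by decide) fun j => ?_) (cls _ ![0, 2, 3, 1] (by decide) fun j => ?_)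
    fun j => ?_
  · have hg : g ∈ s'.ext := ht ▸ trivial
    have key : ∀ c, x⁻¹ * c ∈ K → ∀ u ∈ s.ext, u ∈ K ∨ c⁻¹ * u ∈ K := by
      rintro c hc u (hu | hu)
      · exact Or.inl hu
      · exact Or.inr (by simpa [mul_assoc] using K.mul_mem (K.inv_mem hc) hu)
    rcases hg with hg | hg
    · rcases key a a1 g hg with h | h
      · exact ⟨0, by simpa using h⟩
      · exact ⟨1, by simpa using h⟩
    · rcases key b b1 _ hg with h | h
      · exact ⟨2, by simpa using h⟩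
      · exact ⟨3, by simpa [mul_assoc] using h⟩
  · fin_cases j <;> simp
  · fin_cases j
    · simp
    · simpa [mul_assoc] using a2
    · simp
    · simpa [mul_assoc] using s.cj _ b2
  · fin_cases j
    · simp
    · intro _
      exact ⟨by simpa using ny 1 (one_mem _) 1 (one_mem _), by simpa using ny a am 1 (one_mem _)⟩
    · intro _
      exact ⟨by simpa using s.nm, by simpa using ny 1 (one_mem _) x s.self⟩
    · intro _
      exact ⟨by simpa using ny 1 (one_mem _) x s.self,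
        by simpa [mul_assoc] using nx _ b2 1 (one_mem _)⟩

theorem rel4 [Finite G] (hG : IsPGroup 2 G) {z v : G} (h : NV4 z v) {K : Subgroup G} {x y : G}
    (s : Stp K x) (s' : Stp s.ext y) (ht : s'.ext = ⊤) (hK : CMin K) (hz : z ∈ K) (hv : v ∈ K) :
    RelIn ⊤ K := by
  by_cases hn : ∀ k ∈ K, y⁻¹ * k * y ∈ K
  · have : K.Normal := ⟨fun k hk g => by
      have hg : g⁻¹ ∈ s'.ext := ht ▸ trivial
      rcases s'.cases hg with a | ⟨a, ha, e⟩
      · simpa using s.cjm a hk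
      · have := s.cjm ha (hn k hk)
        rw [← inv_inv g, e]
        simpa [mul_assoc] using this⟩
    refine rel_norm hG h hz hv (Or.inl ?_)
    rw [← Subgroup.card_top, ← ht, s'.card, s.card]; ring
  · push Not at hn
    obtain ⟨k, hk, hk'⟩ := hn
    exact idx4 s s' ht hK hk hk'

theorem Mdl.outer [Finite G] (hG : IsPGroup 2 G) {z v : G} (h : NV4 z v) {N : Subgroup G}
    [hN : N.Normal] (hz : z ∈ N) (hv : v ∈ N) {n mul} {π : ℕ → G ⧸ N}
    (M : Mdl (⊤ : Subgroup (G ⧸ N)) n mul π) {D F : G} {d f c1 c2 : ℕ} {x : ℕ × ℕ}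
    (hx : h6B n mul d f c1 c2 x = true) (hd : π d = D) (hf : π f = F) :
    ∃ θ, HT (cos N (hr D F)) (cos N (hc D F)) (cos N fun p => hr D F p * hc D F p) θ := by
  simp only [h6B, Bool.and_eq_true, Nat.beq_eq] at hx
  obtain ⟨⟨⟨h1, h2⟩, h3⟩, h4⟩ := hx
  have l := allLt_spec h1
  have ld : d < n := l _ (by simp)
  have lf : f < n := l _ (by simp)
  have l1 : c1 < n := l _ (by simp)
  have l2 : c2 < n := l _ (by simp)
  have e1 : π c1 = ((D⁻¹ * F⁻¹ : G) : G ⧸ N) := by
    have := M.hom _ (M.lt _ lf _ ld) _ l1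
    rw [h2, M.zero, M.hom _ lf _ ld, hd, hf] at this
    rw [← mul_inv_rev]
    exact (eq_inv_of_mul_eq_one_right this.symm)
  have e2 : π c2 = ((F⁻¹ : G) : G ⧸ N) := by
    have := M.hom _ lf _ l2
    rw [h3, M.zero, hf] at this
    exact (eq_inv_of_mul_eq_one_right this.symm)
  have e3 : π (mul d f) = ((D * F : G) : G ⧸ N) := by rw [M.hom _ ld _ lf, hd, hf]; rfl
  have pre : ∀ r : Fin 3 → G, (QuotientGroup.mk' N) ⁻¹' {q | ∃ p, (r p : G ⧸ N) = q} = cos N r := by
    intro r; ext x; simp [cos, QuotientGroup.eq]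
  suffices hP : ∃ φ σ, HP2 {q | ∃ p, ((hr D F p : G) : G ⧸ N) = q}
      {q | ∃ p, ((hc D F p : G) : G ⧸ N) = q}
      {q | ∃ p, ((hr D F p * hc D F p : G) : G ⧸ N) = q} φ σ by
    obtain ⟨φ, σ, hP⟩ := hP
    obtain ⟨θ, hθ⟩ := h.lift' (QuotientGroup.mk' N) (QuotientGroup.mk'_surjective N)
      (by rw [QuotientGroup.ker_mk']; exact h.V_le hz hv) (hG.to_subgroup _) hP
    rw [pre, pre, pre] at hθ
    exact ⟨θ, hθ⟩
  refine M.hp2 h4 ?_ ?_ ?_
  · intro u hu
    simp only [List.mem_cons, List.not_mem_nil, or_false] at hu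
    rcases hu with rfl | rfl | rfl
    · exact ⟨0, by simp [hr, M.zero]⟩
    · exact ⟨1, by simp [hr, hd]⟩
    · exact ⟨2, by simp [hr, e3]⟩
  · rintro _ ⟨p, rfl⟩
    fin_cases p
    · exact ⟨0, by simp, by simp [hc, M.zero]⟩
    · exact ⟨c1, by simp, by simp [hc, e1]⟩
    · exact ⟨c2, by simp, by simp [hc, e2]⟩
  · rintro _ ⟨p, rfl⟩
    fin_cases p
    · exact ⟨0, by simp, by simp [hr, hc, M.zero]⟩
    · exact ⟨c2, by simp, by simp [hr, hc, e2]⟩
    · exact ⟨d, by simp, by simp [hr, hc, hd]⟩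

end Pool.Agent.Work.MP_66fdf3_co
end

-- merged part: Pool.Agent.Work.MP_66fdf3_co.Cyc
section
namespace Pool.Agent.Work.MP_66fdf3_co

open Function

variable {G : Type*} [Group G]

/-- Conjugation by a power. -/
def cjp (g : G) (i : ℤ) (x : G) : G := g ^ i * x * (g ^ i)⁻¹

theorem cjp_zero (g x : G) : cjp g 0 x = x := by simp [cjp]
theorem cjp_add (g : G) (i j : ℤ) (x : G) : cjp g i (cjp g j x) = cjp g (i + j) x := by
  simp only [cjp]; group
theorem cjp_mul (g : G) (i : ℤ) (x y : G) : cjp g i (x * y) = cjp g i x * cjp g i y := by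
  simp only [cjp]; group
theorem cjp_one (g : G) (i : ℤ) : cjp g i 1 = 1 := by simp [cjp]
theorem cjp_inj (g : G) (i : ℤ) : Injective (cjp g i) := fun x y e => by simpa [cjp] using e
theorem cjp_mem {N : Subgroup G} [hN : N.Normal] (g : G) (i : ℤ) {x : G} (h : x ∈ N) :
    cjp g i x ∈ N := hN.conj_mem x h _
theorem cjp_ne (g : G) (i : ℤ) {x : G} (h : x ≠ 1) : cjp g i x ≠ 1 := fun e =>
  h (cjp_inj g i (e.trans (cjp_one g i).symm))

theorem K4.cjp {d e : G} (h : K4 d e) (g : G) (i : ℤ) : K4 (cjp g i d) (cjp g i e) :=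
  ⟨cjp_ne g i h.d1, by rw [← cjp_mul, h.d2, cjp_one], cjp_ne g i h.e1,
    by rw [← cjp_mul, h.e2, cjp_one], fun a => h.ne (cjp_inj g i a),
    by rw [← cjp_mul, ← cjp_mul, h.cm]⟩

/-- An abelian normal subgroup with cyclic quotient of odd order. -/
structure CycS (N : Subgroup G) (g : G) (m : ℕ) : Prop where
  comm : ∀ x ∈ N, ∀ y ∈ N, x * y = y * x
  card : 2 < Nat.card N
  odd : m % 2 = 1
  one : 1 < m
  mem : ∀ i : ℤ, g ^ i ∈ N ↔ (m : ℤ) ∣ i
  gen : ∀ x, ∃ i : ℤ, (g ^ i)⁻¹ * x ∈ N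

theorem CycS.congr {N : Subgroup G} [hN : N.Normal] {g : G} {m : ℕ} (C : CycS N g m) {i j : ℤ}
    (h : (i : ZMod m) = j) {x : G} (hx : x ∈ N) : cjp g i x = cjp g j x := by
  have : g ^ (i - j) ∈ N := (C.mem _).2 ((ZMod.intCast_zmod_eq_zero_iff_dvd _ _).1 (by simp [h]))
  have e := C.comm _ this _ (cjp_mem g j hx)
  rw [show i = (i - j) + j by ring, ← cjp_add, cjp, e]; simp

theorem cyc_cfg [Finite G] {N : Subgroup G} [hN : N.Normal] {g : G} {m : ℕ} (C : CycS N g m)
    {τ t α : G} (hτ : τ ∈ N) (τ2 : τ * τ = 1) (ht : t = τ * cjp g (-1) τ) (t1 : t ≠ 1)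
    (hα : α ∈ N) (α1 : α ≠ 1) (hSB : SBin N t α) (i k : ℤ)
    (flow : ∀ p h : ℤ, ((h + h : ℤ) : ZMod m) = (1 : ℤ) →
      cjp g ((1 + i) * p) α * cjp g (p + k * (p + 1)) t =
        cjp g ((1 + i) * (p + h)) α * cjp g ((1 + k) * (p + h)) t)
    (pp : ∀ p : ℤ, PP N (cjp g (i * p) α) (cjp g (k * (p + 1)) t))
    (np : ∀ p : ℤ, ∃ e₁ e₂, e₁ ≠ e₂ ∧ PP N (cjp g (i * p) α) e₁ ∧ PP N (cjp g (i * p) α) e₂) :
    NO G := by
  classical
  have m1 := C.one
  have : Fact (1 < m) := ⟨m1⟩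
  have : NeZero m := ⟨by omega⟩
  let v : ZMod m → ℤ := fun p => (p.val : ℤ)
  have hv : ∀ p, (v p : ZMod m) = p := fun p => by simp [v]
  have v0 : v 0 = 0 := by simp [v]
  obtain ⟨h, hh⟩ : ∃ h : ZMod m, h + h = 1 := ⟨((m + 1) / 2 : ℕ), by
    rw [← Nat.cast_add, show (m + 1) / 2 + (m + 1) / 2 = m + 1 by have := C.odd; omega]; simp⟩
  have h0 : h ≠ 0 := by rintro rfl; simp at hh
  have h1 : h ≠ 1 := by rintro rfl; simp at hh
  let R : ZMod m → ℤ := fun p => v (p + h) - v h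
  have hR : ∀ p, (R p : ZMod m) = p := fun p => by simp [R, hv]
  have mem : ∀ i j : ℤ, (g ^ i)⁻¹ * g ^ j ∈ N ↔ (i : ZMod m) = j := fun i j => by
    rw [← zpow_neg, ← zpow_add, C.mem, ← ZMod.intCast_zmod_eq_zero_iff_dvd]
    push_cast
    rw [neg_add_eq_zero]
  have dbl : ∀ p q : ZMod m, p + p = q + q → p = q := fun p q e => by
    linear_combination h * e - (p - q) * hh
  have K : Config N (fun p => g ^ R p) (fun p => g ^ v p) (fun p => p + 1) 0 := by
    refine ⟨add_left_injective 1, fun p e => by simp at e, by simp [R], by simp [v0],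
      fun p q e => ?_, fun p q e => ?_, fun p q e => ?_, fun p q e => ?_, fun p => ⟨p + h, ?_⟩⟩
    · simpa [hR] using (mem _ _).1 e
    · simpa [hv] using (mem _ _).1 e
    · rw [← zpow_add, ← zpow_add, mem] at e
      exact dbl _ _ (by simpa [hR, hv] using e)
    · rw [← zpow_add, ← zpow_add, mem] at e
      simp only [Int.cast_add, hR, hv] at e
      exact dbl _ _ (by linear_combination e)
    · rw [← zpow_add, ← zpow_add, mem]
      simp only [Int.cast_add, hR, hv]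
      linear_combination hh
  have hθ : HT (cos N fun p => g ^ R p) (cos N fun p => g ^ v p)
      (cos N fun p => g ^ R p * g ^ v p) id := by
    have : ∀ x, x ∈ cos N fun p => g ^ R p := fun x => by
      obtain ⟨j, hj⟩ := C.gen x
      refine ⟨j, ?_⟩
      have := N.mul_mem ((mem (R j) j).2 (hR _)) hj
      simpa [mul_assoc] using this
    constructor <;> simp [this]
  have ex : ∀ p, g ^ R p * g ^ v (p + 1) = g ^ R (p + h) * g ^ v (p + h) := fun p => by
    rw [← zpow_add, ← zpow_add]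
    simp only [R, add_assoc, hh]
    congr 1; ring
  have fac : ∀ (p q : ZMod m) (x y : G), x ∈ N → y ∈ N →
      g ^ R p * x * (y * g ^ v q) = cjp g (v p) (x * y) * (g ^ R p * g ^ v q) := by
    intro p q x y hx hy
    rw [← C.congr ((hR p).trans (hv p).symm) (N.mul_mem hx hy), cjp]; group
  let u := cjp g (-1) τ
  have uN : u ∈ N := cjp_mem g _ hτ
  have tN : t ∈ N := ht ▸ N.mul_mem hτ uN
  let a : ZMod m → G := fun p => if p = -h then cjp g (v h) u else 1
  let b : ZMod m → G := fun q => if q = 0 then τ else 1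
  have ha : ∀ p, a p ∈ N := fun p => by
    simp only [a]; split_ifs; exacts [cjp_mem g _ uN, N.one_mem]
  have hb : ∀ p, b p ∈ N := fun p => by simp only [b]; split_ifs; exacts [hτ, N.one_mem]
  have au : cjp g (v (-h)) (cjp g (v h) u) = u := by
    rw [cjp_add, C.congr (j := 0) (by simp [hv]) uN, cjp_zero]
  have base : ∀ p, p + h ≠ 0 →
      cjp g (v p) (a p * b (p + 1)) = cjp g (v (p + h)) (a (p + h) * b (p + h)) := by
    intro p hp
    have e1 : p ≠ -h := fun e => hp (by simp [e])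
    by_cases e : p + 1 = 0
    · have e2 : p + h = -h := by linear_combination e + hh
      simp only [a, b, e1, hp, e, if_true, if_false, one_mul, mul_one]
      simp only [e2, if_true, au]
      exact C.congr (by rw [hv]; push_cast; linear_combination e) hτ
    · have e2 : p + h ≠ -h := fun e2 => e (by linear_combination e2 - hh)
      simp [a, b, e1, hp, e, e2, cjp_one]
  have base0 : ∀ p, p + h = 0 → cjp g (v p) (a p * b (p + 1)) = a 0 * b 0 * t := by
    intro p hp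
    have e1 : p = -h := by linear_combination hp
    have e2 : -h + 1 ≠ 0 := fun e => h1 (by linear_combination -e)
    have e3 : (0 : ZMod m) ≠ -h := fun e => h0 (by linear_combination e)
    simp only [a, b, e1, e2, e3, if_true, if_false, one_mul, mul_one, au]
    rw [ht, ← mul_assoc, τ2, one_mul]
  let δ : ZMod m → G := fun p => cjp g (i * v p) α
  let ε : ZMod m → G := fun p => cjp g (k * v p) t
  have hδ : ∀ p, δ p ∈ N := fun p => cjp_mem g _ hα
  have hε : ∀ p, ε p ∈ N := fun p => cjp_mem g _ tN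
  have ε1 : ∀ p, ε (p + 1) = cjp g (k * (v p + 1)) t := fun p => C.congr (by simp [hv]) tN
  have fl : ∀ p, cjp g (v p) (δ p * ε (p + 1)) = cjp g (v (p + h)) (δ (p + h) * ε (p + h)) := by
    intro p
    have := flow (v p) (v h) (by simp [hv, hh])
    rw [cjp_mul, cjp_mul, ε1, cjp_add, cjp_add, cjp_add, cjp_add,
      show v p + i * v p = (1 + i) * v p by ring, this]
    congr 1
    · exact C.congr (by simp only [Int.cast_add, Int.cast_mul, hv]; push_cast; ring) hα
    · exact C.congr (by simp only [Int.cast_add, Int.cast_mul, hv]; push_cast; ring) tN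
  have δ0 : δ 0 = α := by simp [δ, v0, cjp_zero]
  have ε0 : ε 0 = t := by simp [ε, v0, cjp_zero]
  have sw : ∀ x y z w : G, x ∈ N → y ∈ N → z ∈ N → w ∈ N → x * y * (z * w) = x * w * (y * z) := by
    intro x y z w _ hy hz hw
    rw [mul_assoc, mul_assoc, ← mul_assoc y, C.comm _ (N.mul_mem hy hz) _ hw]
  have z0 : g ^ R 0 * g ^ v 0 = 1 := by simp [R, v0]
  refine unit_cfg N K hθ C.comm C.card t1 ?_ (fun p => p + h) (add_left_injective h) a b δ ε ha hb
    hδ hε (fun p => cjp_ne g _ α1) ε0 (δ0 ▸ hSB) (fun p hp => ?_) (fun p hp => ?_)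
    (fun p hp => ?_) (fun p hp => ?_) (fun p => ε1 p ▸ pp _) (fun p _ => ?_)
  · rw [ht, sw _ _ _ _ hτ uN hτ uN, C.comm _ hτ _ uN, mul_assoc, ← mul_assoc τ, C.comm _ hτ _ uN,
      mul_assoc, τ2, mul_one, ← cjp_mul, τ2, cjp_one]
  · rw [fac _ _ _ _ (ha _) (hb _), fac _ _ _ _ (ha _) (hb _), base p hp, ex]
  · rw [fac _ _ _ _ (ha _) (hb _), base0 p hp, ex, hp, z0, mul_one]
  · rw [fac _ _ _ _ (N.mul_mem (ha _) (hδ _)) (N.mul_mem (hε _) (hb _)),
      fac _ _ _ _ (N.mul_mem (ha _) (hδ _)) (N.mul_mem (hε _) (hb _)),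
      sw _ _ _ _ (ha _) (hδ _) (hε _) (hb _), sw _ _ _ _ (ha _) (hδ _) (hε _) (hb _), cjp_mul,
      base p hp, fl, ← cjp_mul, ex]
  · rw [fac _ _ _ _ (N.mul_mem (ha _) (hδ _)) (N.mul_mem (hε _) (hb _)),
      sw _ _ _ _ (ha _) (hδ _) (hε _) (hb _), cjp_mul, base0 p hp, fl, ex, hp, z0, mul_one, v0,
      cjp_zero, ε0, sw _ _ _ _ (ha _) (hδ _) tN (hb _), mul_assoc _ t, mul_assoc (a 0 * b 0),
      C.comm _ tN _ (N.mul_mem (hδ _) tN)]
  · obtain ⟨e₁, e₂, n, p1, p2⟩ := np (v p)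
    by_cases e : e₁ = ε p
    · exact ⟨e₂, fun a => n (e.trans a.symm), p2⟩
    · exact ⟨e₁, e, p1⟩

theorem cyc_c [Finite G] {N : Subgroup G} [hN : N.Normal] {g : G} {m : ℕ} (C : CycS N g m)
    {τ t n : G} (hτ : τ ∈ N) (τ2 : τ * τ = 1) (ht : t = τ * cjp g (-1) τ) (t1 : t ≠ 1)
    (t2 : cjp g 1 t ≠ t) (hn : n ∈ N) (n1 : n ≠ 1) (hSB : SBin N t n)
    (pp : ∀ j l : ℤ, PP N (cjp g j n) (cjp g l t)) : NO G := by
  refine cyc_cfg C hτ τ2 ht t1 hn n1 hSB (-1) 1 (fun p h hh => ?_) (fun p => pp _ _)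
    (fun p => ⟨_, _, by rwa [cjp_zero], pp _ 1, pp _ 0⟩)
  simp only [add_neg_cancel, zero_mul]
  congr 1
  refine C.congr ?_ (ht ▸ N.mul_mem hτ (cjp_mem g _ hτ))
  push_cast at hh ⊢
  linear_combination -hh

theorem cyc_b [Finite G] {N : Subgroup G} [hN : N.Normal] {g : G} {m : ℕ} (C : CycS N g m)
    {τ : G} (hτ : τ ∈ N) (τ2 : τ * τ = 1) (h3 : cjp g 3 τ ≠ τ)
    (pp : ∀ d ∈ N, ∀ e ∈ N, K4 d e → PP N d e) (sb : ∀ d ∈ N, ∀ e ∈ N, K4 d e → SBin N d e) :
    NO G := by
  let T : ℤ → G := fun i => cjp g i τ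
  have TN : ∀ i, T i ∈ N := fun i => cjp_mem g i hτ
  have T2 : ∀ i, T i * T i = 1 := fun i => by simp only [T]; rw [← cjp_mul, τ2, cjp_one]
  have Tc : ∀ i j, T i * T j = T j * T i := fun i j => C.comm _ (TN i) _ (TN j)
  have Ta : ∀ i j, cjp g i (T j) = T (i + j) := fun i j => cjp_add g i j τ
  have T0 : T 0 = τ := cjp_zero g τ
  have per : ∀ d : ℤ, T d = τ → ∀ n : ℤ, T (n * d) = τ := by
    intro d hd n
    have inv : T (-d) = τ := by
      apply cjp_inj g d; rw [Ta, add_neg_cancel, T0]; exact hd.symm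
    induction n using Int.induction_on with
    | zero => simpa using T0
    | succ n ih => rw [add_mul, one_mul, ← Ta, hd]; exact ih
    | pred n ih => rw [sub_mul, one_mul, sub_eq_add_neg, ← Ta, inv]; exact ih
  have ne : ∀ d : ℤ, (d = 1 ∨ d = 2 ∨ d = 3) → ∀ i j, j = i + d → T j ≠ T i := by
    rintro d hd i _ rfl e
    have e : T d = τ := cjp_inj g i (by rw [Ta]; exact e)
    have p1 : T 1 = τ → False := fun a => h3 (per 1 a 3)
    rcases hd with rfl | rfl | rfl
    · exact p1 e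
    · apply p1
      rw [← per 2 e ((m + 1) / 2 : ℕ)]
      refine C.congr ?_ hτ
      have : ((m + 1) / 2 : ℕ) * (2 : ℤ) = m + 1 := by have := C.odd; omega
      rw [this]; simp
    · exact h3 e
  have q1 : ∀ i j, T i * T j = 1 → T i = T j := fun i j e =>
    mul_right_cancel (e.trans (T2 j).symm)
  have sq2 : ∀ i j, T i * T j * (T i * T j) = 1 := fun i j => by
    rw [mul_assoc, ← mul_assoc (T j), ← Tc, mul_assoc, T2, mul_one, T2]
  have N2 : ∀ i j, T i * T j ∈ N := fun i j => N.mul_mem (TN i) (TN j)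
  have t1 : T 0 * T (-1) ≠ 1 := fun e => ne 1 (by simp) _ _ (by simp) (q1 _ _ e)
  have a1 : T (-1) * T (-3) ≠ 1 := fun e => ne 2 (by simp) _ _ (by simp) (q1 _ _ e)
  have k1 : K4 (T 0 * T (-1)) (T (-1) * T (-3)) :=
    ⟨t1, sq2 _ _, a1, sq2 _ _, fun e => ne 3 (by simp) (-3) 0 (by simp) (by
      rw [Tc 0] at e; exact (mul_left_cancel e).symm), C.comm _ (N2 _ _) _ (N2 _ _)⟩
  have k2 : K4 (T (-1) * T (-3)) (cjp g (-3) (T 0 * T (-1))) := by
    refine ⟨a1, sq2 _ _, cjp_ne g _ t1, by rw [← cjp_mul, sq2, cjp_one], fun e => ?_,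
      C.comm _ (cjp_mem g _ (N2 _ _)) _ (N2 _ _)⟩
    rw [cjp_mul, Ta, Ta, Tc (-1)] at e
    exact ne 3 (by simp) _ _ (by simp) (mul_left_cancel e).symm
  have k3 : ∀ p : ℤ, K4 (cjp g (-3 * p) (T (-1) * T (-3))) (cjp g (-3 * (p + 1)) (T 0 * T (-1))) :=
    fun p => by
      have := k2.cjp g (-3 * p)
      rwa [cjp_add, show -3 * p + -3 = -3 * (p + 1) by ring] at this
  refine cyc_cfg C hτ τ2 (t := T 0 * T (-1)) (α := T (-1) * T (-3)) (by rw [T0]) t1 (N2 _ _) a1
    (sb _ (N2 _ _) _ (N2 _ _) k1) (-3) (-3) (fun p h hh => ?_)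
    (fun p => pp _ (cjp_mem g _ (N2 _ _)) _ (cjp_mem g _ (N2 _ _)) (k3 p))
    (fun p => ⟨_, _, by simpa using (k3 p).d1,
      pp _ (cjp_mem g _ (N2 _ _)) _ (cjp_mem g _ (N2 _ _)) (k3 p),
      pp _ (cjp_mem g _ (N2 _ _)) _
        (N.mul_mem (cjp_mem g _ (N2 _ _)) (cjp_mem g _ (N2 _ _))) (k3 p).mul⟩)
  have e : (1 + -3) * (p + h) = -2 * p - (h + h) := by ring
  have c : ∀ x ∈ N, cjp g ((1 + -3) * (p + h)) x = cjp g (-2 * p - 1) x := fun x hx =>
    C.congr (by rw [e]; push_cast at hh ⊢; rw [hh]) hx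
  rw [c _ (N2 _ _), c _ (N2 _ _)]
  simp only [cjp_mul, Ta]
  rw [show (1 + -3) * p + -1 = -2 * p - 1 by ring, show (1 + -3) * p + -3 = -2 * p - 3 by ring,
    show p + -3 * (p + 1) + 0 = -2 * p - 3 by ring, show p + -3 * (p + 1) + -1 = -2 * p - 4 by ring,
    show -2 * p - 1 + -1 = -2 * p - 2 by ring, show -2 * p - 1 + -3 = -2 * p - 4 by ring, add_zero,
    mul_assoc, ← mul_assoc (T (-2 * p - 3)), T2, one_mul, Tc (-2 * p - 1) (-2 * p - 2),
    Tc (-2 * p - 2) (-2 * p - 4), mul_assoc, ← mul_assoc (T (-2 * p - 2)), T2, one_mul, Tc]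

end Pool.Agent.Work.MP_66fdf3_co
end

-- merged part: Pool.Agent.Work.MP_66fdf3_co.Nec
section
namespace Pool.Agent.Work.MP_66fdf3_co

open Function

variable {G : Type*} [Group G]

theorem nec_aux [Finite G] (hn : Nat.card G ≠ 2) (L : G → G → G) (hL : IsLatin L)
    (r₁ r₂ c₁ c₂ : G) (hr : r₁ ≠ r₂) (hc : c₁ ≠ c₂)
    (ha : r₁ * c₁ = r₂ * c₂) (hb : r₁ * c₂ = r₂ * c₁)
    (ha' : L r₁ c₁ = L r₂ c₂) (hb' : L r₁ c₂ = L r₂ c₁)
    (hcard : (Set.range fun p : G × G => (p.1 * p.2, L p.1 p.2)).ncard + 2 = Nat.card G ^ 2) :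
    Even (Nat.card (commutator G)) := by
  classical
  have := Fintype.ofFinite G
  set f : G × G → G × G := fun p => (p.1 * p.2, L p.1 p.2) with hf
  let D : Set (G × G) := {(r₂, c₂), (r₂, c₁)}
  have hD : D.ncard = 2 := Set.ncard_pair (by simp [hc.symm])
  have hrange : Set.range f = f '' Dᶜ := by
    apply Set.Subset.antisymm _ (Set.image_subset_range _ _)
    rintro _ ⟨p, rfl⟩
    by_cases hp : p ∈ D
    · rcases hp with rfl | hp
      · exact ⟨(r₁, c₁), by simp [D, hr], by simp [hf, ha, ha']⟩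
      · rw [Set.mem_singleton_iff] at hp; subst hp
        exact ⟨(r₁, c₂), by simp [D, hr], by simp [hf, hb, hb']⟩
    · exact ⟨p, hp, rfl⟩
  have hinj : Set.InjOn f Dᶜ := by
    have h1 := Set.ncard_add_ncard_compl D
    rw [hD, Nat.card_prod] at h1
    rw [hrange, sq] at hcard
    exact (Set.ncard_image_iff (Set.toFinite _)).1 (by omega)
  -- columns of the classes
  let σ : G → G → G := fun s x => (Equiv.ofBijective _ (hL.1 x)).symm s
  have hσ : ∀ s x, L x (σ s x) = s := fun s x => (Equiv.ofBijective _ (hL.1 x)).apply_symm_apply s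
  have hσ' : ∀ x y, σ (L x y) x = y := fun x y => (Equiv.ofBijective _ (hL.1 x)).symm_apply_apply y
  have hσi : ∀ s, Bijective (σ s) := by
    intro s
    refine Finite.injective_iff_bijective.1 fun x x' e => (hL.2 (σ s x)).1 ?_
    show L x (σ s x) = L x' (σ s x)
    rw [hσ, e, hσ]
  let π : G →* Abelianization G := Abelianization.of
  set P : Abelianization G := ∏ g, π g with hP
  have hprod : ∀ s, ∏ x, π (x * σ s x) = P * P := by
    intro s
    simp only [map_mul, Finset.prod_mul_distrib]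
    rw [(hσi s).prod_comp (fun g => π g)]
  set s₁ := L r₁ c₁ with hs₁
  set s₂ := L r₁ c₂ with hs₂
  have hs12 : s₁ ≠ s₂ := fun e => hc ((hL.1 r₁).1 e)
  have hmem : ∀ s x, (x ≠ r₂ ∨ (s ≠ s₁ ∧ s ≠ s₂)) → (x, σ s x) ∈ Dᶜ := by
    intro s x h hD
    rcases hD with e | e
    · obtain ⟨e1, e2⟩ := Prod.mk.inj e
      rcases h with h | h
      · exact h e1
      · apply h.1; rw [← hσ s x, e2, e1, ha']
    · obtain ⟨e1, e2⟩ := Prod.mk.inj (Set.mem_singleton_iff.1 e)
      rcases h with h | h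
      · exact h e1
      · apply h.2; rw [← hσ s x, e2, e1, hb']
  have hinj' : ∀ s x x', (x ≠ r₂ ∨ (s ≠ s₁ ∧ s ≠ s₂)) → (x' ≠ r₂ ∨ (s ≠ s₁ ∧ s ≠ s₂)) →
      x * σ s x = x' * σ s x' → x = x' := by
    intro s x x' h h' e
    have := hinj (hmem s x h) (hmem s x' h') (by simp [hf, e, hσ])
    exact (Prod.mk.inj this).1
  -- a third symbol
  obtain ⟨s₃, h31, h32⟩ : ∃ s₃, s₃ ≠ s₁ ∧ s₃ ≠ s₂ := by
    by_contra hcon
    push Not at hcon
    apply hn
    have : (Set.univ : Set G) = {s₁, s₂} := by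
      ext s; by_cases h : s = s₁
      · simp [h]
      · simp [hcon s h]
    rw [← Set.ncard_univ, this, Set.ncard_pair hs12]
  have hP1 : P = 1 := by
    have hb3 : Bijective fun x => x * σ s₃ x := Finite.injective_iff_bijective.1
      fun x x' e => hinj' s₃ x x' (Or.inr ⟨h31, h32⟩) (Or.inr ⟨h31, h32⟩) e
    have := hprod s₃
    rw [hb3.prod_comp (fun g => π g)] at this
    exact (mul_eq_left.1 this.symm)
  set a := r₁ * c₁ with hA
  set b := r₁ * c₂ with hB
  have hab : a ≠ b := fun e => hc (mul_left_cancel e)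
  have v11 : σ s₁ r₁ = c₁ := hσ' _ _
  have v12 : σ s₁ r₂ = c₂ := by rw [ha']; exact hσ' _ _
  have v21 : σ s₂ r₁ = c₂ := hσ' _ _
  have v22 : σ s₂ r₂ = c₁ := by rw [hb']; exact hσ' _ _
  -- the symbol b does not occur in the class s₁
  have hmiss : ∀ x, x * σ s₁ x ≠ b := by
    intro x₀ hx₀
    -- every class contains b, and class s₂ contains it twice
    have hex : ∀ s, ∃ x, x ≠ r₂ ∧ x * σ s x = b := by
      intro s
      by_cases e1 : s = s₁
      · subst e1
        refine ⟨x₀, ?_, hx₀⟩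
        rintro rfl
        rw [v12, ← ha] at hx₀; exact hab hx₀
      by_cases e2 : s = s₂
      · subst e2; exact ⟨r₁, hr, by rw [v21]⟩
      have hb3 : Bijective fun x => x * σ s x := Finite.injective_iff_bijective.1
        fun x x' e => hinj' s x x' (Or.inr ⟨e1, e2⟩) (Or.inr ⟨e1, e2⟩) e
      obtain ⟨x, hx⟩ := hb3.2 b
      refine ⟨x, ?_, hx⟩
      rintro rfl
      have hx : x * σ s x = b := hx
      rw [hb] at hx
      apply e2
      rw [← hσ s x, mul_left_cancel hx, hb']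
    choose ξ hξ1 hξ2 using hex
    have hξi : Injective ξ := by
      intro s s' e
      have h1 := hξ2 s
      have h2 := hξ2 s'
      rw [← e, ← h1] at h2
      rw [← hσ s (ξ s), ← mul_left_cancel h2, hσ]
    obtain ⟨s, hs⟩ := (Finite.injective_iff_bijective.1 hξi).2 r₂
    exact hξ1 s hs
  -- modified symbol map is a bijection
  have hbij : Bijective (update (fun x => x * σ s₁ x) r₂ b) := by
    refine Finite.injective_iff_bijective.1 fun x x' e => ?_
    by_cases h : x = r₂ <;> by_cases h' : x' = r₂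
    · rw [h, h']
    · subst h; rw [update_self, update_of_ne h'] at e; exact absurd e.symm (hmiss _)
    · subst h'; rw [update_self, update_of_ne h] at e; exact absurd e (hmiss _)
    · rw [update_of_ne h, update_of_ne h'] at e
      exact hinj' s₁ x x' (Or.inl h) (Or.inl h') e
  have hπ : π a = π b := by
    have h1 := hbij.prod_comp (fun g => π g)
    have h2 := hprod s₁
    rw [← hP, hP1] at h1
    rw [hP1, one_mul] at h2
    rw [← Finset.mul_prod_erase _ _ (Finset.mem_univ r₂)] at h1 h2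
    rw [update_self] at h1
    rw [v12, ← ha] at h2
    rw [Finset.prod_congr rfl (g := fun x => π (x * σ s₁ x))
      (fun x hx => by rw [update_of_ne (Finset.ne_of_mem_erase hx)])] at h1
    exact mul_right_cancel (h2.trans h1.symm)
  have hmem' : a * b⁻¹ ∈ commutator G := by
    rw [← Abelianization.ker_of, MonoidHom.mem_ker, map_mul, map_inv]
    exact mul_inv_eq_one.2 hπ
  have hsq : (a * b⁻¹) ^ 2 = 1 := by
    have e1 : a * b⁻¹ = r₁ * r₂⁻¹ := by rw [hb, hA]; group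
    have e2 : a * b⁻¹ = r₂ * r₁⁻¹ := by rw [ha, hB]; group
    rw [sq]; nth_rewrite 1 [e1]; rw [e2]; group
  have hne : a * b⁻¹ ≠ 1 := fun e => hab (mul_inv_eq_one.1 e)
  have ho : orderOf (⟨a * b⁻¹, hmem'⟩ : commutator G) = 2 := by
    rw [← Subgroup.orderOf_coe]
    exact orderOf_eq_prime hsq hne
  exact even_iff_two_dvd.2 (ho ▸ orderOf_dvd_natCard _)

theorem necessity [Finite G] (hn : Nat.card G ≠ 2) (h : HasNearOrthogonalMate G) :
    Even (Nat.card (commutator G)) := by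
  obtain ⟨L, hL, ⟨r₁, r₂, c₁, c₂, a, b, hr, hc, -, h1, h2⟩, hcard⟩ := h
  refine nec_aux hn L hL r₁ r₂ c₁ c₂ hr hc ?_ ?_ ?_ ?_ hcard
  · rcases h1 with ⟨e1, e2, e3, e4⟩ | ⟨e1, e2, e3, e4⟩ <;> exact e1.trans e4.symm
  · rcases h1 with ⟨e1, e2, e3, e4⟩ | ⟨e1, e2, e3, e4⟩ <;> exact e2.trans e3.symm
  · rcases h2 with ⟨e1, e2, e3, e4⟩ | ⟨e1, e2, e3, e4⟩ <;> exact e1.trans e4.symm
  · rcases h2 with ⟨e1, e2, e3, e4⟩ | ⟨e1, e2, e3, e4⟩ <;> exact e2.trans e3.symm

end Pool.Agent.Work.MP_66fdf3_co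
end
end

-- merged part: Pool.Agent.Work.MP_66fdf3_co.Full.G9
section
-- merged part: Pool.Agent.Work.MP_66fdf3_co.Full.N3
section
/-!
Soundness of the moment check.  `4294967296 = 65536 ^ 2`.
`momFull_sound`: induction on `f`; invariant `t = l.map fun b => c b * (b.s * b.s) ^ n` and
`F = K * n! * 4294967296 ^ n` (`List.zipWith_map_left`, `List.zipWith_self` or a direct induction).
`momChain_sound`: induction on the list; for `lo ≤ n ≤ g.2` use `Cf_le_max` with `q = g.1.z` (`z > 0` as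
soon as `g.2 > 0`, otherwise the checked inequality fails; if `n = lo` use the first inequality directly);
`Nat.factorial_mul_ascFactorial`.
-/

namespace Pool.Agent.Work.MP_66fdf3_co.Full

open Finset

theorem N3_z_nonneg (b : Nd) : 0 ≤ b.z := by
  unfold Nd.z; positivity

theorem N3_p_nonneg (b : Nd) : 0 ≤ b.p := by
  unfold Nd.p; positivity

theorem N3_z_eq (b : Nd) : b.z = (b.s : ℝ) * b.s / 4294967296 := by
  unfold Nd.z; ring

theorem N3_real (b : Nd) (k : ℕ)
    (h : k.factorial * 4294967296 ^ k * 2 ^ b.e ≤ b.mant * (b.s * b.s) ^ k) :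
    (k.factorial : ℝ) ≤ b.p * b.z ^ k := by
  have h' : ((k.factorial * 4294967296 ^ k * 2 ^ b.e : ℕ) : ℝ) ≤
      ((b.mant * (b.s * b.s) ^ k : ℕ) : ℝ) := Nat.cast_le.2 h
  push_cast at h'
  rw [N3_z_eq, Nd.p, div_pow, div_mul_div_comm, le_div_iff₀ (by positivity)]
  refine le_of_eq_of_le ?_ h'
  ring

theorem N3_term (b : Nd) (E n : ℕ) (h : b.e ≤ E) :
    ((b.mant * 2 ^ (E - b.e) * (b.s * b.s) ^ n : ℕ) : ℝ) =
      2 ^ E * 4294967296 ^ n * (b.p * b.z ^ n) := by
  obtain ⟨r, rfl⟩ := Nat.exists_eq_add_of_le h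
  rw [Nat.add_sub_cancel_left, N3_z_eq, Nd.p, div_pow]
  push_cast
  field_simp
  ring

theorem momFull_sound (l : List Nd) (c : Nd → ℕ) (K f n : ℕ)
    (h : momFull l f n (l.map fun b => c b * (b.s * b.s) ^ n)
      (K * (n.factorial * 4294967296 ^ n)) = true) {k : ℕ} (h1 : n ≤ k) (h2 : k < n + f) :
    K * (k.factorial * 4294967296 ^ k) ≤ (l.map fun b => c b * (b.s * b.s) ^ k).sum := by
  induction f generalizing n with
  | zero => omega
  | succ f ih =>
    simp only [momFull, Bool.and_eq_true, decide_eq_true_eq] at h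
    rcases h1.eq_or_lt with rfl | h3
    · exact h.1
    · refine ih (n + 1) ?_ h3 (by omega)
      have e1 : List.zipWith (fun a (b : Nd) => a * (b.s * b.s))
          (l.map fun b => c b * (b.s * b.s) ^ n) l =
          l.map fun b => c b * (b.s * b.s) ^ (n + 1) := by
        rw [List.zipWith_map_left, List.zipWith_self]
        exact List.map_congr_left fun b _ => by ring
      have e2 : K * (n.factorial * 4294967296 ^ n) * ((n + 1) * 4294967296) =
          K * ((n + 1).factorial * 4294967296 ^ (n + 1)) := by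
        rw [Nat.factorial_succ]; ring
      rw [← e1, ← e2]
      exact h.2

theorem momChain_sound (S : List (Nd × ℕ)) (lo M : ℕ) (h : momChain S lo lo.factorial M = true)
    {n : ℕ} (h1 : lo < n) (h2 : n ≤ M) : ∃ g ∈ S, (n.factorial : ℝ) ≤ g.1.p * g.1.z ^ n := by
  induction S generalizing lo with
  | nil =>
    simp only [momChain, decide_eq_true_eq] at h
    omega
  | cons g gs ih =>
    simp only [momChain, Bool.and_eq_true, decide_eq_true_eq] at h
    obtain ⟨⟨⟨a1, a2⟩, a3⟩, a4⟩ := h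
    have e : lo.factorial * (lo + 1).ascFactorial (g.2 - lo) = g.2.factorial := by
      rw [Nat.factorial_mul_ascFactorial, Nat.add_sub_cancel' a1]
    rw [e] at a3 a4
    rcases le_or_gt n g.2 with b | b
    · refine ⟨g, List.mem_cons_self, ?_⟩
      have c1 := N3_real g.1 lo a2
      have c2 := N3_real g.1 g.2 a3
      have hz : 0 < g.1.z := by
        rcases (N3_z_nonneg g.1).eq_or_lt with z | z
        · rw [← z, zero_pow (by omega), mul_zero] at c2
          have : (0 : ℝ) < (g.2.factorial : ℝ) := by exact_mod_cast Nat.factorial_pos _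
          linarith
        · exact z
      have c3 := Cf_le_max h1.le b hz
      have c4 : max (Cf lo g.1.z) (Cf g.2 g.1.z) ≤ g.1.p := by
        refine max_le ?_ ?_
        · unfold Cf; rw [div_le_iff₀ (pow_pos hz _)]; exact c1
        · unfold Cf; rw [div_le_iff₀ (pow_pos hz _)]; exact c2
      have c5 := c3.trans c4
      unfold Cf at c5
      rwa [div_le_iff₀ (pow_pos hz _)] at c5
    · obtain ⟨g', hg, hh⟩ := ih g.2 a4 b
      exact ⟨g', List.mem_cons_of_mem _ hg, hh⟩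

theorem momChk_sound (G : List Nd) (n0 E : ℕ) (S : List (Nd × ℕ)) (M : ℕ)
    (h : momChk G n0 E S M = true) (l : List Nd) (hl : l = G ++ S.map Prod.fst) :
    MomDom M (fun c : Fin l.length => l[c].p) (fun c : Fin l.length => l[c].z) := by
  simp only [momChk, Bool.and_eq_true, List.all_eq_true, decide_eq_true_eq] at h
  obtain ⟨⟨a1, a2⟩, a3⟩ := h
  refine ⟨fun c => N3_p_nonneg _, fun c => N3_z_nonneg _, fun n hn => ?_⟩
  have e : ∑ c : Fin l.length, l[c].p * l[c].z ^ n = (l.map fun b => b.p * b.z ^ n).sum :=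
    Fin.sum_univ_fun_getElem l fun b => b.p * b.z ^ n
  have nn : ∀ (L : List Nd), ∀ x ∈ L.map fun b => b.p * b.z ^ n, 0 ≤ x := by
    intro L x hx
    obtain ⟨b, -, rfl⟩ := List.mem_map.1 hx
    exact mul_nonneg (N3_p_nonneg b) (pow_nonneg (N3_z_nonneg b) n)
  rw [e]
  rcases le_or_gt n n0 with b | b
  · have c1 := momFull_sound G (fun b => b.mant * 2 ^ (E - b.e)) (2 ^ E) (n0 + 1) 0
      (by simpa using a2) (k := n) (Nat.zero_le _) (by omega)
    have c2 : (((G.map fun b => b.mant * 2 ^ (E - b.e) * (b.s * b.s) ^ n).sum : ℕ) : ℝ) =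
        2 ^ E * 4294967296 ^ n * (G.map fun b => b.p * b.z ^ n).sum := by
      rw [Nat.cast_list_sum, List.map_map, ← List.sum_map_mul_left]
      refine congrArg _ (List.map_congr_left fun b hb => ?_)
      exact N3_term b E n (a1 b hb)
    have c3 : ((2 ^ E * (n.factorial * 4294967296 ^ n) : ℕ) : ℝ) ≤ _ := Nat.cast_le.2 c1
    rw [c2] at c3
    push_cast at c3
    have c4 : (n.factorial : ℝ) ≤ (G.map fun b => b.p * b.z ^ n).sum := by
      have p : (0 : ℝ) < 2 ^ E * 4294967296 ^ n := by positivity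
      refine le_of_mul_le_mul_left (le_of_eq_of_le ?_ c3) p
      ring
    rw [hl, List.map_append, List.sum_append]
    have := List.sum_nonneg (nn (S.map Prod.fst))
    linarith
  · obtain ⟨g, hg, hh⟩ := momChain_sound S n0 M a3 b hn
    refine hh.trans (List.single_le_sum (nn l) _ ?_)
    exact List.mem_map.2 ⟨g.1, by
      rw [hl]; exact List.mem_append_right _ (List.mem_map.2 ⟨g, hg, rfl⟩), rfl⟩

end Pool.Agent.Work.MP_66fdf3_co.Full
end

-- merged part: Pool.Agent.Work.MP_66fdf3_co.Full.N5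
section
/-!
Windows.  `win1_sound`: `T = Unit`, `coef = 1`, all weights are `1` (`EP.wt`), so the covering condition is
trivial.  `win2_sound`: `T = Bool`, `coef = 1` and `1 / whi'`; if all nodes `f χ` have `s ≤ S` take the first
term, otherwise the second product is at least `whi'` (all factors `≥ 1`, `Finset.single_le_prod'`-type
argument).  Cast the rational inequality with `Gs_cast`, `Cf_cast`, `Rat.cast_max`, `Rat.cast_min`;
`EpsOK.of_le`.
-/

namespace Pool.Agent.Work.MP_66fdf3_co.Full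

open Finset

theorem termQ_castN5 (m j1 j2 : ℕ) (c : ℚ) (P : EP) : ((termQ m j1 j2 c P : ℚ) : ℝ) =
    max (Cf (m - j1) ((1 + (c : ℝ)) * ((P.T : ℝ) / 16777216 + (P.Y : ℝ) / 16777216) ^ 2))
      (Cf (m - j2) ((1 + (c : ℝ)) * ((P.T : ℝ) / 16777216 + (P.Y : ℝ) / 16777216) ^ 2)) *
    Gs m ((P.T : ℝ) / 16777216) ((P.Y : ℝ) / 16777216) ^ 2 *
    ((P.An : ℝ) / 16777216) ^ ((m - 1) / 4) / (m.factorial : ℝ) := by
  unfold termQ
  rw [Rat.cast_div, Rat.cast_mul, Rat.cast_mul, Rat.cast_max, Rat.cast_pow, Cf_cast, Cf_cast,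
    Gs_cast]
  push_cast
  rfl

theorem epsN5 {m : ℕ} {P : EP} {l : List Nd} {g : List (ℕ × List ℕ)} (h : epsChk P l g = true)
    (hM : m ≤ P.M) :
    0 < (P.T : ℝ) / 16777216 ∧ 0 < (P.Y : ℝ) / 16777216 ∧ 1 ≤ (P.An : ℝ) / 16777216 ∧
      EpsOK m (fun c : Fin l.length => l[c].p) (fun c : Fin l.length => l[c].z)
        ((P.T : ℝ) / 16777216) ((P.Y : ℝ) / 16777216) (fun c => ((P.wt l[c] : ℕ) : ℝ))
        ((P.An : ℝ) / 16777216) := by
  obtain ⟨hT, hY, -, hA, hE⟩ := epsChk_sound P l g h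
  have hT' : 0 < (P.T : ℝ) / 16777216 := by positivity
  have hY' : 0 < (P.Y : ℝ) / 16777216 := by positivity
  refine ⟨hT', hY', ?_, hE.of_le hM hT' hY'⟩
  rw [le_div_iff₀ (by norm_num), one_mul]
  exact_mod_cast hA

theorem win1_sound {m j1 j2 : ℕ} {l : List Nd} {c D : ℚ} {t : TG} {P : EP}
    {g : List (ℕ × List ℕ)} (h : win1Chk m j1 j2 l c D t P g = true)
    (hm : MomDom m (fun c : Fin l.length => l[c].p) (fun c : Fin l.length => l[c].z)) :
    NumWin m j1 j2 (D : ℝ) := by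
  simp only [win1Chk, Bool.and_eq_true, decide_eq_true_eq] at h
  obtain ⟨⟨⟨⟨⟨⟨⟨hc, hD⟩, ht⟩, hM⟩, hlo⟩, hhi⟩, he⟩, hq⟩ := h
  obtain ⟨hT, hY, hA, hE⟩ := epsN5 he hM
  refine ⟨by exact_mod_cast hD, Fin l.length, inferInstance, _, _, (c : ℝ), (t.α : ℝ), (t.β : ℝ),
    Unit, inferInstance, fun _ => (P.T : ℝ) / 16777216, fun _ => (P.Y : ℝ) / 16777216,
    fun _ => 1, fun _ => (P.An : ℝ) / 16777216, fun _ c => ((P.wt l[c] : ℕ) : ℝ), hm,
    by exact_mod_cast hc, tang_sound t ht,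
    fun _ => ⟨hT, hY, zero_le_one, hA, fun _ => Nat.cast_nonneg _, hE⟩, ?_, ?_⟩
  · intro X _ f
    refine ⟨(), ?_⟩
    have : ∀ n, P.wt n = 1 := fun n => by
      unfold EP.wt
      split <;> assumption
    simp [this]
  · have hq' : (((Gs m t.β (t.α * c) / min t.α t.β * termQ m j1 j2 c P : ℚ)) : ℝ) ≤
        ((D ^ 2 : ℚ) : ℝ) := Rat.cast_le.2 hq
    rw [Rat.cast_mul, Rat.cast_div, Gs_cast, termQ_castN5, Rat.cast_min, Rat.cast_mul,
      Rat.cast_pow] at hq'
    rw [Fintype.sum_unique]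
    simp only [one_mul]
    exact hq'

theorem win2_sound {m j1 j2 : ℕ} {l : List Nd} {c D : ℚ} {t : TG} {P P' : EP}
    {g g' : List (ℕ × List ℕ)} (h : win2Chk m j1 j2 l c D t P g P' g' = true)
    (hm : MomDom m (fun c : Fin l.length => l[c].p) (fun c : Fin l.length => l[c].z)) :
    NumWin m j1 j2 (D : ℝ) := by
  simp only [win2Chk, Bool.and_eq_true, decide_eq_true_eq] at h
  obtain ⟨⟨⟨⟨⟨⟨⟨⟨⟨⟨⟨⟨hc, hD⟩, ht⟩, hM⟩, hM'⟩, hlo⟩, hhi⟩, hlo'⟩, hhi'⟩, hS⟩, he⟩, he'⟩, hq⟩ := h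
  obtain ⟨hT, hY, hA, hE⟩ := epsN5 he hM
  obtain ⟨hT', hY', hA', hE'⟩ := epsN5 he' hM'
  have hw : (1 : ℝ) ≤ P'.whi := by exact_mod_cast hhi'
  refine ⟨by exact_mod_cast hD, Fin l.length, inferInstance, _, _, (c : ℝ), (t.α : ℝ), (t.β : ℝ),
    Bool, inferInstance, fun b => ((bif b then P else P').T : ℝ) / 16777216,
    fun b => ((bif b then P else P').Y : ℝ) / 16777216,
    fun b => bif b then 1 else (P'.whi : ℝ)⁻¹, fun b => ((bif b then P else P').An : ℝ) / 16777216,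
    fun b c => (((bif b then P else P').wt l[c] : ℕ) : ℝ), hm,
    by exact_mod_cast hc, tang_sound t ht, ?_, ?_, ?_⟩
  · intro b
    cases b
    · exact ⟨hT', hY', by simp, hA', fun _ => Nat.cast_nonneg _, hE'⟩
    · exact ⟨hT, hY, by simp, hA, fun _ => Nat.cast_nonneg _, hE⟩
  · intro X _ f
    by_cases hall : ∀ χ, l[f χ].s ≤ P.S
    · refine ⟨true, ?_⟩
      have : ∀ χ, P.wt l[f χ] = 1 := fun χ => by
        unfold EP.wt
        rw [if_pos (hall χ), hlo]
      simp only [cond_true, this, Nat.cast_one, Finset.prod_const_one, mul_one, le_refl]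
    · refine ⟨false, ?_⟩
      obtain ⟨χ, hχ⟩ := not_forall.1 hall
      have h1 : ∀ n, 1 ≤ P'.wt n := fun n => by
        unfold EP.wt
        split
        · exact hlo'.ge
        · exact hhi'
      have h2 : P'.wt l[f χ] = P'.whi := by
        unfold EP.wt
        rw [← hS, if_neg hχ]
      have h3 : P'.wt l[f χ] ≤ ∏ x, P'.wt l[f x] :=
        Finset.single_le_prod' (f := fun x => P'.wt l[f x]) (fun x _ => h1 _) (Finset.mem_univ χ)
      rw [h2] at h3
      have h4 : (P'.whi : ℝ) ≤ ∏ x, ((P'.wt l[f x] : ℕ) : ℝ) := by exact_mod_cast h3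
      simp only [cond_false]
      rw [← div_eq_inv_mul, le_div_iff₀ (by linarith), one_mul]
      exact h4
  · have hq' : (((Gs m t.β (t.α * c) / min t.α t.β *
        (termQ m j1 j2 c P + termQ m j1 j2 c P' / (P'.whi : ℚ)) : ℚ)) : ℝ) ≤
        ((D ^ 2 : ℚ) : ℝ) := Rat.cast_le.2 hq
    rw [Rat.cast_mul, Rat.cast_div, Gs_cast, Rat.cast_add, Rat.cast_div, termQ_castN5,
      termQ_castN5, Rat.cast_min, Rat.cast_mul, Rat.cast_pow, Rat.cast_natCast] at hq'
    rw [Fintype.sum_bool]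
    simp only [cond_true, cond_false]
    refine le_trans (le_of_eq ?_) hq'
    congr 1
    ring

theorem good_of_exact {m J k : ℕ} {D1 D2 : ℚ} (h1 : J < k) (h2 : k < m)
    (w1 : NumWin m (J + 1) k (D1 : ℝ)) (w2 : NumWin m (k + 1) m (D2 : ℝ))
    (hs : spQ m J + D1 + D2 < 1) : Good m := by
  refine ⟨J, k, D1, D2, h1, h2.le, w1, Or.inr ⟨h2, w2⟩, ?_⟩
  rw [← spQ_sound]
  exact_mod_cast hs

end Pool.Agent.Work.MP_66fdf3_co.Full
end

-- merged part: Pool.Agent.Work.MP_66fdf3_co.Full.N11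
section
/-!
All odd degrees from 45 on are good.
-/

namespace Pool.Agent.Work.MP_66fdf3_co.Full

open Finset

theorem mdA : MomDom 45 (fun c : Fin nodesA.length => nodesA[c].p)
    (fun c : Fin nodesA.length => nodesA[c].z) :=
  momChk_sound _ _ _ _ _ momA nodesA (by simp)

theorem mdB0 : MomDom 59 (fun c : Fin (nodesB 0).length => (nodesB 0)[c].p)
    (fun c : Fin (nodesB 0).length => (nodesB 0)[c].z) :=
  momChk_sound _ _ _ _ _ momB0 (nodesB 0) rfl

theorem mdB1 : MomDom 100 (fun c : Fin (nodesB 1).length => (nodesB 1)[c].p)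
    (fun c : Fin (nodesB 1).length => (nodesB 1)[c].z) :=
  momChk_sound _ _ _ _ _ momB1 (nodesB 1) rfl

theorem mdB2 : MomDom 144 (fun c : Fin (nodesB 2).length => (nodesB 2)[c].p)
    (fun c : Fin (nodesB 2).length => (nodesB 2)[c].z) :=
  momChk_sound _ _ _ _ _ momB2 (nodesB 2) rfl

theorem mdB3 : MomDom 230 (fun c : Fin (nodesB 3).length => (nodesB 3)[c].p)
    (fun c : Fin (nodesB 3).length => (nodesB 3)[c].z) :=
  momChk_sound _ _ _ _ _ momB3 (nodesB 3) rfl

theorem mdB4 : MomDom 299 (fun c : Fin (nodesB 4).length => (nodesB 4)[c].p)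
    (fun c : Fin (nodesB 4).length => (nodesB 4)[c].z) :=
  momChk_sound _ _ _ _ _ momB4 (nodesB 4) rfl

theorem mdB5 : MomDom 420 (fun c : Fin (nodesB 5).length => (nodesB 5)[c].p)
    (fun c : Fin (nodesB 5).length => (nodesB 5)[c].z) :=
  momChk_sound _ _ _ _ _ momB5 (nodesB 5) rfl

theorem mdB7 : MomDom 600 (fun c : Fin (nodesB 7).length => (nodesB 7)[c].p)
    (fun c : Fin (nodesB 7).length => (nodesB 7)[c].z) :=
  momChk_sound _ _ _ _ _ momB7 (nodesB 7) rfl

theorem mdB9 : MomDom 900 (fun c : Fin (nodesB 9).length => (nodesB 9)[c].p)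
    (fun c : Fin (nodesB 9).length => (nodesB 9)[c].z) :=
  momChk_sound _ _ _ _ _ momB9 (nodesB 9) rfl

theorem mdB12 : MomDom 1499 (fun c : Fin (nodesB 12).length => (nodesB 12)[c].p)
    (fun c : Fin (nodesB 12).length => (nodesB 12)[c].z) :=
  momChk_sound _ _ _ _ _ momB12 (nodesB 12) rfl

theorem mdB15 : MomDom 2400 (fun c : Fin (nodesB 15).length => (nodesB 15)[c].p)
    (fun c : Fin (nodesB 15).length => (nodesB 15)[c].z) :=
  momChk_sound _ _ _ _ _ momB15 (nodesB 15) rfl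

theorem mdB20 : MomDom 3900 (fun c : Fin (nodesB 20).length => (nodesB 20)[c].p)
    (fun c : Fin (nodesB 20).length => (nodesB 20)[c].z) :=
  momChk_sound _ _ _ _ _ momB20 (nodesB 20) rfl

theorem mdB26 : MomDom 6300 (fun c : Fin (nodesB 26).length => (nodesB 26)[c].p)
    (fun c : Fin (nodesB 26).length => (nodesB 26)[c].z) :=
  momChk_sound _ _ _ _ _ momB26 (nodesB 26) rfl

theorem mdB32 : MomDom 10000 (fun c : Fin (nodesB 32).length => (nodesB 32)[c].p)
    (fun c : Fin (nodesB 32).length => (nodesB 32)[c].z) :=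
  momChk_sound _ _ _ _ _ momB32 (nodesB 32) rfl

theorem good45 : Good 45 :=
  good_of_exact (by norm_num) (by norm_num) (win2_sound ex45a mdA)
    (win1_sound ex45b mdA) ex45c

theorem good47 : Good 47 :=
  good_of_exact (by norm_num) (by norm_num) (win2_sound ex47a (mdB0.of_le (by norm_num)))
    (win1_sound ex47b (mdB0.of_le (by norm_num))) ex47c

theorem good49 : Good 49 :=
  good_of_exact (by norm_num) (by norm_num) (win2_sound ex49a (mdB0.of_le (by norm_num)))
    (win1_sound ex49b (mdB0.of_le (by norm_num))) ex49c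

theorem good51 : Good 51 :=
  good_of_exact (by norm_num) (by norm_num) (win2_sound ex51a (mdB0.of_le (by norm_num)))
    (win1_sound ex51b (mdB0.of_le (by norm_num))) ex51c

theorem good53 : Good 53 :=
  good_of_exact (by norm_num) (by norm_num) (win1_sound ex53a (mdB0.of_le (by norm_num)))
    (win1_sound ex53b (mdB0.of_le (by norm_num))) ex53c

theorem good55 : Good 55 :=
  good_of_exact (by norm_num) (by norm_num) (win1_sound ex55a (mdB0.of_le (by norm_num)))
    (win1_sound ex55b (mdB0.of_le (by norm_num))) ex55c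

theorem good57 : Good 57 :=
  good_of_exact (by norm_num) (by norm_num) (win1_sound ex57a (mdB0.of_le (by norm_num)))
    (win1_sound ex57b (mdB0.of_le (by norm_num))) ex57c

theorem good59 : Good 59 :=
  good_of_exact (by norm_num) (by norm_num) (win1_sound ex59a (mdB0.of_le (by norm_num)))
    (win1_sound ex59b (mdB0.of_le (by norm_num))) ex59c

theorem good61 : Good 61 :=
  good_of_exact (by norm_num) (by norm_num) (win1_sound ex61a (mdB1.of_le (by norm_num)))
    (win1_sound ex61b (mdB1.of_le (by norm_num))) ex61c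

theorem good63 : Good 63 :=
  good_of_exact (by norm_num) (by norm_num) (win1_sound ex63a (mdB1.of_le (by norm_num)))
    (win1_sound ex63b (mdB1.of_le (by norm_num))) ex63c

theorem good65 : Good 65 :=
  good_of_exact (by norm_num) (by norm_num) (win1_sound ex65a (mdB1.of_le (by norm_num)))
    (win1_sound ex65b (mdB1.of_le (by norm_num))) ex65c

theorem good67 : Good 67 :=
  good_of_exact (by norm_num) (by norm_num) (win1_sound ex67a (mdB1.of_le (by norm_num)))
    (win1_sound ex67b (mdB1.of_le (by norm_num))) ex67c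

theorem good69 : Good 69 :=
  good_of_exact (by norm_num) (by norm_num) (win1_sound ex69a (mdB1.of_le (by norm_num)))
    (win1_sound ex69b (mdB1.of_le (by norm_num))) ex69c

theorem good71 : Good 71 :=
  good_of_exact (by norm_num) (by norm_num) (win1_sound ex71a (mdB1.of_le (by norm_num)))
    (win1_sound ex71b (mdB1.of_le (by norm_num))) ex71c

theorem good73 : Good 73 :=
  good_of_exact (by norm_num) (by norm_num) (win1_sound ex73a (mdB1.of_le (by norm_num)))
    (win1_sound ex73b (mdB1.of_le (by norm_num))) ex73c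

theorem good75 : Good 75 :=
  good_of_exact (by norm_num) (by norm_num) (win1_sound ex75a (mdB1.of_le (by norm_num)))
    (win1_sound ex75b (mdB1.of_le (by norm_num))) ex75c

theorem good77 : Good 77 :=
  good_of_exact (by norm_num) (by norm_num) (win1_sound ex77a (mdB1.of_le (by norm_num)))
    (win1_sound ex77b (mdB1.of_le (by norm_num))) ex77c

theorem good79 : Good 79 :=
  good_of_exact (by norm_num) (by norm_num) (win1_sound ex79a (mdB1.of_le (by norm_num)))
    (win1_sound ex79b (mdB1.of_le (by norm_num))) ex79c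

theorem good_all {m : ℕ} (ho : Odd m) (h : 45 ≤ m) : Good m := by
  by_cases h0 : m ≤ 80
  · obtain ⟨k, rfl⟩ := ho
    have h1 : 22 ≤ k := by omega
    have h2 : k ≤ 39 := by omega
    interval_cases k
    · exact good45
    · exact good47
    · exact good49
    · exact good51
    · exact good53
    · exact good55
    · exact good57
    · exact good59
    · exact good61
    · exact good63
    · exact good65
    · exact good67
    · exact good69
    · exact good71
    · exact good73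
    · exact good75
    · exact good77
    · exact good79
  by_cases g89 : m ≤ 89
  · exact range_sound rg81 (mdB1.of_le (by norm_num)) (by omega) g89
  by_cases g100 : m ≤ 100
  · exact range_sound rg90 (mdB1.of_le (by norm_num)) (by omega) g100
  by_cases g110 : m ≤ 110
  · exact range_sound rg101 (mdB2.of_le (by norm_num)) (by omega) g110
  by_cases g121 : m ≤ 121
  · exact range_sound rg111 (mdB2.of_le (by norm_num)) (by omega) g121
  by_cases g144 : m ≤ 144
  · exact range_sound rg122 (mdB2.of_le (by norm_num)) (by omega) g144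
  by_cases g180 : m ≤ 180
  · exact range_sound rg145 (mdB3.of_le (by norm_num)) (by omega) g180
  by_cases g230 : m ≤ 230
  · exact range_sound rg181 (mdB3.of_le (by norm_num)) (by omega) g230
  by_cases g299 : m ≤ 299
  · exact range_sound rg231 (mdB4.of_le (by norm_num)) (by omega) g299
  by_cases g420 : m ≤ 420
  · exact range_sound rg300 (mdB5.of_le (by norm_num)) (by omega) g420
  by_cases g600 : m ≤ 600
  · exact range_sound rg421 (mdB7.of_le (by norm_num)) (by omega) g600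
  by_cases g900 : m ≤ 900
  · exact range_sound rg601 (mdB9.of_le (by norm_num)) (by omega) g900
  by_cases g1499 : m ≤ 1499
  · exact range_sound rg901 (mdB12.of_le (by norm_num)) (by omega) g1499
  by_cases g2400 : m ≤ 2400
  · exact range_sound rg1500 (mdB15.of_le (by norm_num)) (by omega) g2400
  by_cases g3900 : m ≤ 3900
  · exact range_sound rg2401 (mdB20.of_le (by norm_num)) (by omega) g3900
  by_cases g6300 : m ≤ 6300
  · exact range_sound rg3901 (mdB26.of_le (by norm_num)) (by omega) g6300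
  by_cases g10000 : m ≤ 10000
  · exact range_sound rg6301 (mdB32.of_le (by norm_num)) (by omega) g10000
  exact good_big (by omega)

end Pool.Agent.Work.MP_66fdf3_co.Full
end

-- merged part: Pool.Agent.Work.MP_66fdf3_co.Full.G8
section
/-!
`prim_range`: the elements of the range are the permutations `toPermHom g`; `Col` and `kd` agree for `G` and for
the range; for `max` pull the subgroup back with `Subgroup.comap (toPermHom ..).rangeRestrict`.
`prim0_quot`: the stabiliser of `gK` is a conjugate of `K` (reduce to `x = K` by conjugating `H`, or use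
`MulAction.stabilizer_quotient`, `MulAction.stabilizer_smul_eq_stabilizer_map_conj`); `even`: by `kd_congr`
assume `x = K`; if `kd` is odd then `K ⊓ G_y` has odd index in `K` (`kd_mul`), so `P` fixes a point of the orbit
(`IsPGroup.card_modEq_card_fixedPoints` for `P` acting on the orbit, or a Sylow subgroup of `K ⊓ G_y`);
if `P` fixes `gK` then `P` and `g⁻¹ P g` are Sylow subgroups inside `K`, conjugate by some `k ∈ K`
(`Sylow.subtype`, `MulAction.exists_smul_eq`), so `g k` or `g k⁻¹` normalises `P` and `g ∈ K`.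
`odd`: the index of `K` divides the index of `P` (`Sylow.not_dvd_index`).
-/

namespace Pool.Agent.Work.MP_66fdf3_co.Full

open Finset Matrix

theorem G8_col {G Ω : Type} [Group G] [MulAction G Ω] {x y x' y' : Ω} :
    Col (MulAction.toPermHom G Ω).range x y x' y' ↔ Col G x y x' y' := by
  constructor
  · rintro ⟨a, h⟩
    obtain ⟨g, rfl⟩ := (MulAction.toPermHom G Ω).rangeRestrict_surjective a
    exact ⟨g, h⟩
  · rintro ⟨g, h⟩
    exact ⟨(MulAction.toPermHom G Ω).rangeRestrict g, h⟩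

theorem prim_range {G Ω : Type} [Group G] [MulAction G Ω] (h : Prim0 G Ω) :
    Prim (MulAction.toPermHom G Ω).range Ω := by
  refine ⟨⟨fun x y => ?_, fun x H hH a ha hx => ?_, fun x y hxy => ?_, h.odd⟩, fun g hg => ?_⟩
  · obtain ⟨g, hg⟩ := h.trans x y
    exact ⟨(MulAction.toPermHom G Ω).rangeRestrict g, hg⟩
  · obtain ⟨b, rfl⟩ := (MulAction.toPermHom G Ω).rangeRestrict_surjective a
    have h1 := h.max x (H.comap (MulAction.toPermHom G Ω).rangeRestrict)
      (fun g hg => hH (x := (MulAction.toPermHom G Ω).rangeRestrict g) hg) b ha hx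
    refine eq_top_iff.2 fun c _ => ?_
    obtain ⟨g, rfl⟩ := (MulAction.toPermHom G Ω).rangeRestrict_surjective c
    have : g ∈ H.comap (MulAction.toPermHom G Ω).rangeRestrict := h1 ▸ Subgroup.mem_top g
    exact this
  · have : kd (MulAction.toPermHom G Ω).range x y = kd G x y := by
      unfold kd
      simp only [G8_col]
    rw [this]
    exact h.even x y hxy
  · exact Subtype.ext (Equiv.ext hg)

theorem BP.of_range {G Ω : Type} [Group G] [MulAction G Ω] {ω : Ω}
    (h : BP (MulAction.toPermHom G Ω).range ω) : BP G ω := by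
  obtain ⟨σ, π, h⟩ := h
  exact ⟨σ, π, fun b => G8_col.1 (h b)⟩

theorem prim0_quot {G : Type} [Group G] [Finite G] (P : Sylow 2 G) {K : Subgroup G}
    (hK : IsCoatom K) (hN : Subgroup.normalizer ((P : Subgroup G) : Set G) ≤ K) :
    Prim0 G (G ⧸ K) := by
  have hPK : (P : Subgroup G) ≤ K := Subgroup.le_normalizer.trans hN
  set o : G ⧸ K := ((1 : G) : G ⧸ K) with ho
  have hst : MulAction.stabilizer G o = K := MulAction.stabilizer_quotient K
  have hmem : ∀ g : G, g • o = o ↔ g ∈ K := fun g => by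
    rw [← MulAction.mem_stabilizer_iff, hst]
  have htr : ∀ x y : G ⧸ K, ∃ g : G, g • x = y := fun x y => MulAction.exists_smul_eq G x y
  refine ⟨htr, fun x H hH h hh hx => ?_, fun x y hxy => ?_, ?_⟩
  · obtain ⟨a, rfl⟩ := htr o x
    have h1 : K ≤ H.comap (MulAut.conj a).toMonoidHom := fun k hk => by
      refine hH (x := a * k * a⁻¹) ?_
      rw [MulAction.mem_stabilizer_iff, mul_smul, inv_smul_smul, mul_smul, (hmem k).2 hk]
    have h2 : a⁻¹ * h * a ∈ H.comap (MulAut.conj a).toMonoidHom := by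
      have : a * (a⁻¹ * h * a) * a⁻¹ = h := by group
      change a * (a⁻¹ * h * a) * a⁻¹ ∈ H
      rwa [this]
    have h3 : a⁻¹ * h * a ∉ K := fun e => hx (by
      have := (hmem _).2 e
      rwa [mul_smul, mul_smul, inv_smul_eq_iff] at this)
    have h4 := hK.2 _ (lt_of_le_of_ne h1 fun e => h3 (e ▸ h2))
    refine eq_top_iff.2 fun g _ => ?_
    have h5 : a⁻¹ * g * a ∈ H.comap (MulAut.conj a).toMonoidHom := h4 ▸ Subgroup.mem_top _
    have : a * (a⁻¹ * g * a) * a⁻¹ = g := by group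
    change a * (a⁻¹ * g * a) * a⁻¹ ∈ H at h5
    rwa [this] at h5
  · obtain ⟨a, rfl⟩ := htr o x
    obtain ⟨y, rfl⟩ : ∃ y', y = a • y' := ⟨a⁻¹ • y, (smul_inv_smul a y).symm⟩
    have hy : o ≠ y := fun e => hxy (e ▸ rfl)
    rw [← kd_congr (Col.smul a o y), kd_eq_orbit]
    by_contra hodd
    have hP : (P : Subgroup G) ≤ MulAction.stabilizer G o := hPK.trans hst.ge
    obtain ⟨⟨z, s, rfl⟩, hz⟩ := (P.subtype hP).isPGroup'.nonempty_fixed_point_of_prime_not_dvd_card
      (MulAction.orbit (MulAction.stabilizer G o) y) fun e => hodd (even_iff_two_dvd.2 e)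
    obtain ⟨g, hg⟩ := htr o (s • y)
    have hfix : ∀ p ∈ (P : Subgroup G), p • g • o = g • o := fun p hp => by
      have := congrArg Subtype.val (hz ⟨⟨p, hP hp⟩, hp⟩)
      rw [hg]
      exact this
    have hQ : ((g⁻¹ • P : Sylow 2 G) : Subgroup G) ≤ K := fun x hx => by
      rw [Sylow.coe_subgroup_smul, Subgroup.mem_pointwise_smul_iff_inv_smul_mem] at hx
      have h1 : g * x * g⁻¹ ∈ (P : Subgroup G) := by simpa using hx
      have h2 := hfix _ h1
      rw [mul_smul, inv_smul_smul, mul_smul, smul_left_cancel_iff] at h2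
      exact (hmem x).1 h2
    obtain ⟨k, hk⟩ := MulAction.exists_smul_eq K ((g⁻¹ • P).subtype hQ) (P.subtype hPK)
    rw [Sylow.smul_subtype] at hk
    have h1 : ((k : G) * g⁻¹) • P = P := by
      rw [mul_smul]
      exact Sylow.subtype_injective hk
    have h2 : g ∈ K := K.inv_mem_iff.1
      ((K.mul_mem_cancel_left k.2).1 (hN (Sylow.smul_eq_iff_mem_normalizer.1 h1)))
    rw [(hmem g).2 h2] at hg
    have h3 : (s : G) • y = (s : G) • o := hg.symm.trans s.2.symm
    exact hy (smul_left_cancel _ h3).symm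
  · exact Nat.not_even_iff_odd.1 fun e => P.not_dvd_index
      ((even_iff_two_dvd.1 e).trans (Subgroup.index_dvd_of_le hPK))

end Pool.Agent.Work.MP_66fdf3_co.Full
end

-- merged part: Pool.Agent.Work.MP_66fdf3_co.Ab
section
namespace Pool.Agent.Work.MP_66fdf3_co

open Function

variable {G : Type*} [Group G]

theorem sq_inj_odd (h : Odd (Nat.card G)) {x y : G} (e : x * x = y * y) : x = y :=
  (powCoprime (G := G) (n := 2) ((Nat.coprime_two_right).2 h)).injective
    (by simpa [powCoprime, sq] using e)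

theorem cm_odd {C : Subgroup G} (h : Odd (Nat.card C)) : CMin C :=
  cmIn_of_sub (θ := id) ⟨by simp, by simp, fun _ _ _ _ e => e, fun _ _ _ _ e => sq_inj_odd h e⟩

theorem rel_odd {K : Subgroup G} [K.Normal] (h : Odd (Nat.card (G ⧸ K))) (hK : CMin K) :
    RelIn ⊤ K := by
  have : HT ({1} : Set (G ⧸ K)) {1} {1} id :=
    ⟨fun x hx => hx, fun x hx e => hx (sq_inj_odd h (by simpa using e)), fun _ _ _ _ e => e,
      fun _ _ _ _ e => sq_inj_odd h e⟩
  obtain ⟨θ, hθ⟩ := this.lift (QuotientGroup.mk' K) (QuotientGroup.mk'_surjective K)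
    (by rwa [QuotientGroup.ker_mk'])
  have : (QuotientGroup.mk' K) ⁻¹' {1} = K := by ext x; simp
  rw [this] at hθ
  exact ⟨θ, HTin.top.2 hθ⟩

theorem CMin.norm {S : Subgroup G} (h : CMin S) : ∃ φ, HTin S ∅ ∅ ∅ φ ∧ φ 1 = 1 := by
  obtain ⟨φ, hφ⟩ := h
  exact ⟨_, hφ.shiftN S.one_mem (S.inv_mem (hφ.mem S.one_mem (by simp))), by simp⟩

theorem rel_semi [Finite G] {S C : Subgroup G} (h1 : ∀ x ∈ S, x ∈ C → x = 1)
    (h2 : ∀ x, ∃ s ∈ S, s⁻¹ * x ∈ C) (hS : CMin S) (hC : CMin C) : RelIn ⊤ C := by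
  obtain ⟨φ, hφ, φ1⟩ := hS.norm
  have m : ∀ j : S, (j : G) ∉ ∅ ∪ (S : Set G)ᶜ := fun j => by simp
  have φS : ∀ j : S, φ j ∈ S := fun j => hφ.mem j.2 (by simp)
  have k : ∀ x ∈ S, ∀ y ∈ S, x⁻¹ * y ∈ C → x = y := fun x hx y hy e =>
    inv_mul_eq_one.1 (h1 _ (S.mul_mem (S.inv_mem hx) hy) e)
  refine hp_system le_rfl hC (J := S) (fun j => j) (fun j => φ j) (fun g => ?_)
    (fun j j' e => Subtype.ext (hφ.inj _ (m j) _ (m j') (k _ (φS j) _ (φS j') e)))
    (fun j j' e => Subtype.ext (hφ.injs _ (m j) _ (m j')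
      (k _ (S.mul_mem j.2 (φS j)) _ (S.mul_mem j'.2 (φS j')) e))) fun j hj => ⟨fun e => ?_, fun e => ?_⟩
  · obtain ⟨s, hs, e⟩ := h2 g; exact ⟨⟨s, hs⟩, e⟩
  · have := hφ.inj _ (m j) _ (m 1) ((h1 _ (φS j) e).trans φ1.symm)
    exact hj (this ▸ C.one_mem)
  · have := hφ.injs _ (m j) _ (m 1) ((h1 _ (S.mul_mem j.2 (φS j)) e).trans (by simp [φ1]))
    exact hj (this ▸ C.one_mem)

theorem odd_two {S : Subgroup G} (hS : IsPGroup 2 S) {g x : G} (hg : Odd (orderOf g))
    (h1 : x ∈ S) (h2 : x ∈ Subgroup.zpowers g) : x = 1 := by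
  obtain ⟨k, hk⟩ := hS ⟨x, h1⟩
  have a : orderOf x ∣ 2 ^ k := orderOf_dvd_of_pow_eq_one (congrArg Subtype.val hk)
  have b : orderOf x ∣ orderOf g := orderOf_dvd_of_mem_zpowers h2
  have c : (2 ^ k).Coprime (orderOf g) := Nat.Coprime.pow_left k ((Nat.coprime_two_left).2 hg)
  exact orderOf_eq_one_iff.1 (Nat.eq_one_of_dvd_coprimes c a b)

/-- The subgroup generated by a normal subgroup and one element. -/
def adj (W : Subgroup G) [W.Normal] (c : G) : Subgroup G :=
  (Subgroup.zpowers (c : G ⧸ W)).comap (QuotientGroup.mk' W)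

theorem mem_adj {W : Subgroup G} [W.Normal] {c x : G} :
    x ∈ adj W c ↔ ∃ i : ℤ, (c ^ i)⁻¹ * x ∈ W :=
  exists_congr fun i => by rw [← QuotientGroup.eq, QuotientGroup.mk_zpow]; rfl

theorem le_adj {W : Subgroup G} [W.Normal] {c : G} : W ≤ adj W c :=
  fun x hx => mem_adj.2 ⟨0, by simpa using hx⟩

theorem self_adj {W : Subgroup G} [W.Normal] {c : G} : c ∈ adj W c := mem_adj.2 ⟨1, by simp⟩

theorem K4.mdl12 {d e c : G} (h : K4 d e) {W : Subgroup G} [W.Normal] (hW : h.V = W)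
    (c1 : c ≠ 1) (c3 : c ^ 3 = 1) {α : ℕ → ℕ} (hα : Cj (p2 d e) 4 α c) :
    ∃ π, Mdl (adj W c) (4 * 3) (ymul 4 (m2 0) α 0) π ∧ π 1 = d ∧ π 4 = c := by
  subst hW
  refine ⟨_, h.mdl.ext3 (g := c) (fun a => c1 ?_) (fun a => c1 ?_) (fun x => ?_) hα (by omega)
    (by rw [c3, p2_0]), by simp [p2_1], by simp [p2_0]⟩
  · have := h.sq _ a
    rwa [pow_three', this, one_mul] at c3
  · have := h.sq _ a
    rwa [← mul_assoc, ← pow_three', c3, one_mul] at this
  · rw [mem_adj]
    constructor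
    · rintro ⟨i, hi⟩
      refine ⟨(i % 3).toNat, by omega, ?_⟩
      rwa [← zpow_natCast, Int.toNat_of_nonneg (by omega),
        ← zpow_eq_zpow_emod i (n := 3) (by exact_mod_cast c3)]
    · rintro ⟨i, -, hi⟩
      exact ⟨i, by rwa [zpow_natCast]⟩

theorem K4.other {d e x : G} (h : K4 d e) (hx : x ∈ h.V) (x1 : x ≠ 1) :
    ∃ y, ∃ k : K4 x y, k.V = h.V := by
  have key : ∀ {x y} (k : K4 x y), x ∈ h.V → y ∈ h.V → k.V = h.V := fun k a b =>
    have : Finite h.V := Nat.finite_of_card_ne_zero (by rw [h.card]; omega)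
    Subgroup.eq_of_le_of_card_ge (k.V_le a b) (by rw [h.card, k.card])
  rcases (h.mem_V x).1 hx with rfl | rfl | rfl | rfl
  · exact absurd rfl x1
  · exact ⟨_, h, rfl⟩
  · exact ⟨_, h.symm, key _ h.em h.dm⟩
  · exact ⟨_, h.mul.symm, key _ hx h.dm⟩

theorem comm_quot {W : Subgroup G} [W.Normal] {g : G} (hg : ∀ x, ∃ i : ℤ, (g ^ i)⁻¹ * x ∈ W)
    (x y : G) : x⁻¹ * (y⁻¹ * x * y) ∈ W := by
  obtain ⟨i, hi⟩ := hg x
  obtain ⟨j, hj⟩ := hg y
  rw [← QuotientGroup.eq] at hi hj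
  rw [← QuotientGroup.eq]
  simp only [QuotientGroup.mk_mul, QuotientGroup.mk_inv, ← hi, ← hj, QuotientGroup.mk_zpow]
  group

theorem normal_of_comm' {A M : Subgroup G} (h : ∀ x g : G, x⁻¹ * (g⁻¹ * x * g) ∈ A)
    (hM : A ≤ M) : M.Normal := ⟨fun x hx g => by
  have := M.mul_mem hx (hM (h x g⁻¹))
  simpa using this⟩

theorem K4.comm {d e : G} (h : K4 d e) : ∀ x ∈ h.V, ∀ y ∈ h.V, x * y = y * x := by
  intro x hx y hy
  have iv : ∀ u ∈ h.V, u⁻¹ = u := fun u hu => inv_eq_of_mul_eq_one_right (h.sq u hu)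
  rw [← iv _ (h.V.mul_mem hx hy), mul_inv_rev, iv x hx, iv y hy]

theorem K4.pgroup {d e : G} (h : K4 d e) : IsPGroup 2 h.V :=
  IsPGroup.of_card (n := 2) h.card

theorem caseD [Finite G] {τ σ g : G} (h : K4 τ σ) [hV : h.V.Normal] (hg : Odd (orderOf g))
    (e1 : cjp g (-1) τ = σ) (e2 : cjp g (-1) σ = σ * τ)
    (gen : ∀ x, ∃ i : ℤ, (g ^ i)⁻¹ * x ∈ h.V) : NO G := by
  have e3 : cjp g (-1) (σ * τ) = τ := by
    rw [cjp_mul, e1, e2, h.cm, mul_assoc, h.e2, mul_one]
  have p3 : ∀ x ∈ h.V, cjp g (-3) x = x := by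
    intro x hx
    rw [show (-3 : ℤ) = -1 + (-1 + -1) by ring, ← cjp_add, ← cjp_add]
    rcases (h.mem_V x).1 hx with rfl | rfl | rfl | rfl <;> simp only [cjp_one, e1, e2, e3]
  have p3' : ∀ x ∈ h.V, ∀ j : ℤ, cjp g (3 * j) x = x := by
    intro x hx j
    induction j using Int.induction_on with
    | zero => exact cjp_zero g x
    | succ n ih =>
      apply cjp_inj g (-3)
      rw [cjp_add, p3 x hx, show -3 + 3 * (n + 1 : ℤ) = 3 * n by ring, ih]
    | pred n ih => rw [show 3 * (-(n : ℤ) - 1) = -3 + 3 * -n by ring, ← cjp_add, ih, p3 x hx]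
  have nfix : ∀ x ∈ h.V, x ≠ 1 → cjp g (-1) x ≠ x := by
    intro x hx x1
    rcases (h.mem_V x).1 hx with rfl | rfl | rfl | rfl
    · exact absurd rfl x1
    · rw [e1]; exact h.ne
    · rw [e2]; simpa using h.d1
    · rw [e3]; simpa using h.e1
  obtain ⟨m, hm⟩ : ∃ m, orderOf g = m := ⟨_, rfl⟩
  have gm : ∀ i : ℤ, g ^ i = 1 ↔ (m : ℤ) ∣ i := fun i => by rw [← hm, orderOf_dvd_iff_zpow_eq_one]
  have gV : ∀ i : ℤ, g ^ i ∈ h.V → (m : ℤ) ∣ i := fun i a =>
    (gm i).1 (odd_two h.pgroup hg a ⟨i, rfl⟩)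
  have m0 : 0 < m := hm ▸ orderOf_pos g
  rw [hm] at hg
  obtain ⟨n, rfl⟩ : 3 ∣ m := by
    have a : cjp g (-m) τ = τ := by rw [cjp, (gm _).2 (by simp)]; simp
    by_contra b
    have : (m : ℤ) % 3 = 1 ∨ (m : ℤ) % 3 = 2 := by omega
    rcases this with c | c
    · rw [show -(m : ℤ) = -1 + 3 * (-(m / 3)) by omega, ← cjp_add, p3' _ h.dm] at a
      exact nfix _ h.dm h.d1 a
    · rw [show -(m : ℤ) = -1 + (-1 + 3 * (-(m / 3))) by omega, ← cjp_add, ← cjp_add, p3' _ h.dm,
        e1, e2] at a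
      exact h.e1 (by simpa using a)
  have n0 : 0 < n := by omega
  by_cases n3 : 3 ∣ n
  · obtain ⟨l, hl⟩ := n3
    let c := g ^ (n : ℤ)
    have c1 : c ≠ 1 := fun a => by
      have := Int.le_of_dvd (by omega) ((gm _).1 a); omega
    have c3 : c ^ 3 = 1 := by
      rw [← zpow_natCast, ← zpow_mul, gm]; exact ⟨1, by push_cast; ring⟩
    have cc : ∀ x ∈ h.V, x * c = c * x := fun x hx => by
      have := p3' x hx l
      rw [cjp, mul_inv_eq_iff_eq_mul, show 3 * (l : ℤ) = n by omega] at this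
      exact this.symm
    have hN := normal_of_comm' (comm_quot gen) (le_adj (c := c))
    have M : ∀ x ∈ h.V, x ≠ 1 → ∃ π, Mdl (adj h.V c) (4 * 3) (ymul 4 (m2 0) (fun u => u) 0) π ∧
        π 1 = x ∧ π 4 = c := fun x hx x1 => by
      obtain ⟨y, k, e⟩ := h.other hx x1
      exact k.mdl12 e c1 c3 (Cj.of_comm k.mdl (e ▸ cc))
    have C : CycS (adj h.V c) g n := by
      refine ⟨fun x hx y hy => ?_, ?_, ?_, by omega, fun i => ⟨fun a => ?_, ?_⟩, fun x => ?_⟩
      · obtain ⟨i, hi⟩ := mem_adj.1 hx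
        obtain ⟨j, hj⟩ := mem_adj.1 hy
        have a : ∀ i : ℤ, ∀ x ∈ h.V, Commute x (c ^ i) := fun i x hx => Commute.zpow_right (cc x hx) i
        have := (((Commute.zpow_zpow_self c i j).mul_right (a i _ hj).symm).mul_left
          ((a j _ hi).mul_right (h.comm _ hi _ hj)))
        simpa using this.eq
      · obtain ⟨π, M, -⟩ := M _ h.dm h.d1
        rw [M.card]; omega
      · rw [Nat.odd_mul] at hg; exact Nat.odd_iff.1 hg.2
      · obtain ⟨j, hj⟩ := mem_adj.1 a
        rw [← zpow_mul, ← zpow_neg, ← zpow_add] at hj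
        obtain ⟨q, hq⟩ := gV _ hj
        exact ⟨j + 3 * q, by push_cast at hq; linarith⟩
      · rintro ⟨j, rfl⟩
        rw [zpow_mul]; exact Subgroup.zpow_mem _ self_adj _
      · obtain ⟨i, hi⟩ := gen x; exact ⟨i, le_adj hi⟩
    have tV : τ * σ ∈ h.V := h.V.mul_mem h.dm h.em
    have t1 : τ * σ ≠ 1 := h.cm ▸ h.mul.e1
    refine cyc_c C (le_adj h.dm) h.d2 (t := τ * σ) (by rw [e1]) t1 (fun a => ?_) self_adj c1 ?_
      fun j l => ?_
    · apply nfix _ tV t1
      nth_rewrite 1 [← a]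
      rw [cjp_add]; exact cjp_zero _ _
    · obtain ⟨π, M, a, b⟩ := M _ tV t1
      exact a ▸ b ▸ M.sb csb12
    · obtain ⟨π, M, a, b⟩ := M _ (cjp_mem g l tV) (cjp_ne g l t1)
      have := M.pp (d := 4) (by omega) cp12.1 cp12.2.1
      rw [cp12.2.2, a, b] at this
      rwa [show cjp g j c = c by simp only [cjp, c]; group]
  · let c := g ^ ((n : ℤ) * n)
    have c1 : c ≠ 1 := fun a => by
      have : (3 : ℤ) ∣ n * n := Dvd.dvd.trans ⟨n, by push_cast; ring⟩ ((gm _).1 a)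
      have := Int.prime_three.dvd_mul.1 this
      omega
    have c3 : c ^ 3 = 1 := by
      rw [← zpow_natCast, ← zpow_mul, gm]; exact ⟨n, by push_cast; ring⟩
    have ca : ∀ x ∈ h.V, c⁻¹ * x * c = cjp g (-1) x := by
      intro x hx
      obtain ⟨q, hq⟩ : ∃ q : ℤ, -((n : ℤ) * n) = -1 + 3 * q := by
        have : (n : ℤ) % 3 = 1 ∨ (n : ℤ) % 3 = 2 := by omega
        have : ((n : ℤ) * n) % 3 = 1 := by rcases this with a | a <;> rw [Int.mul_emod, a] <;> rfl
        exact ⟨-((n : ℤ) * n / 3), by omega⟩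
      rw [← p3' x hx q, cjp_add, ← hq, p3' x hx q, cjp]
      simp [c]
    obtain ⟨π, M, -⟩ := h.mdl12 rfl c1 c3 (α := tb 2 0 0x78 0) (fun u hu => by
      rw [ca _ (h.mdl.mem u hu)]
      interval_cases u
      · exact ⟨by decide, (p2_0 τ σ).trans (by rw [p2_0, cjp_one])⟩
      · exact ⟨by decide, (p2_2 τ σ).trans (by rw [p2_1, e1])⟩
      · exact ⟨by decide, (p2_3 τ σ).trans (by rw [p2_2, e2])⟩
      · exact ⟨by decide, (p2_1 τ σ).trans (by rw [p2_3, e3])⟩)
    have hN := normal_of_comm' (comm_quot gen) (le_adj (c := c))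
    have no := M.no cA4
    have cm := no.cm (by rw [M.card]; omega)
    refine (no.lift le_top (rel_odd ?_ cm) cm).top
    have : Subgroup.zpowers (g : G ⧸ adj h.V c) = ⊤ := by
      rw [eq_top_iff]
      rintro ⟨x⟩ -
      obtain ⟨i, hi⟩ := gen x
      exact ⟨i, QuotientGroup.eq.2 (le_adj hi)⟩
    rw [← Subgroup.card_top, ← this, Nat.card_zpowers]
    exact Odd.of_dvd_nat hg (hm ▸ orderOf_map_dvd (QuotientGroup.mk' _) g)

theorem exists_tau {S : Subgroup G} [hN : S.Normal] (hS : IsPGroup 2 S)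
    (c : ∀ x ∈ S, ∀ y ∈ S, x * y = y * x) {g : G} (hg : Odd (orderOf g))
    (hn : ∃ s ∈ S, s * g ≠ g * s) : ∃ τ ∈ S, τ * τ = 1 ∧ cjp g (-1) τ ≠ τ := by
  by_contra hh
  push Not at hh
  have key : ∀ k : ℕ, ∀ x ∈ S, x ^ 2 ^ k = 1 → cjp g (-1) x = x := by
    intro k
    induction k with
    | zero => intro x _ e; rw [pow_zero, pow_one] at e; rw [e, cjp_one]
    | succ k ih =>
      intro x hx e
      have a := ih (x * x) (S.mul_mem hx hx) (by rw [← sq, ← pow_mul, ← pow_succ', e])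
      have m := cjp_mem g (-1) hx
      have m' := S.mul_mem (S.inv_mem hx) m
      have b : x⁻¹ * cjp g (-1) x * (x⁻¹ * cjp g (-1) x) = 1 := by
        rw [mul_assoc, ← mul_assoc (cjp g (-1) x), c _ m _ (S.inv_mem hx), mul_assoc, ← cjp_mul, a]
        group
      have f := hh _ m' b
      generalize hη : x⁻¹ * cjp g (-1) x = η at *
      have it : ∀ j : ℕ, cjp g (-j) x = x * η ^ j ∧ cjp g (-j) η = η := by
        intro j
        induction j with
        | zero => simp [cjp_zero]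
        | succ j ih =>
          rw [show -((j + 1 : ℕ) : ℤ) = -j + -1 by push_cast; ring, ← cjp_add, ← cjp_add, f, ih.2,
            show cjp g (-1) x = x * η by rw [← hη]; simp, cjp_mul, ih.1, ih.2, pow_succ, mul_assoc]
          exact ⟨rfl, rfl⟩
      have := (it (orderOf g)).1
      obtain ⟨q, hq⟩ := hg
      rw [cjp, zpow_neg, zpow_natCast, pow_orderOf_eq_one, hq, pow_succ, pow_mul, sq, b] at this
      have : η = 1 := by simpa using this
      rw [this, inv_mul_eq_one] at hη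
      exact hη.symm
  obtain ⟨s, hs, n⟩ := hn
  obtain ⟨k, hk⟩ := hS ⟨s, hs⟩
  have := key k s hs (congrArg Subtype.val hk)
  apply n
  rw [cjp] at this
  nth_rewrite 2 [← this]
  group

theorem ab_case [Finite G] {S : Subgroup G} [hN : S.Normal] (hS : IsPGroup 2 S)
    (c : ∀ x ∈ S, ∀ y ∈ S, x * y = y * x) {g : G} (hg : Odd (orderOf g))
    (gen : ∀ x, ∃ i : ℤ, (g ^ i)⁻¹ * x ∈ S) (hn : ∃ s ∈ S, s * g ≠ g * s) : NO G := by
  obtain ⟨τ, hτ, τ2, τ1⟩ := exists_tau hS c hg hn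
  have fix2 : ∀ x, cjp g (-2) x = x → cjp g (-1) x = x := by
    intro x e
    have : ∀ j : ℕ, cjp g (-2 * j) x = x := fun j => by
      induction j with
      | zero => exact cjp_zero g x
      | succ j ih => rw [show -2 * ((j + 1 : ℕ) : ℤ) = -2 + -2 * j by push_cast; ring, ← cjp_add, ih, e]
    obtain ⟨q, hq⟩ := hg
    have a := this (q + 1)
    rw [show -2 * ((q + 1 : ℕ) : ℤ) = -1 + -(orderOf g : ℤ) by rw [hq]; push_cast; ring,
      ← cjp_add] at a
    rwa [show cjp g (-(orderOf g : ℤ)) x = x by simp [cjp]] at a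
  let σ := cjp g (-1) τ
  have σS : σ ∈ S := cjp_mem g _ hτ
  have τ0 : τ ≠ 1 := by rintro rfl; exact τ1 (cjp_one _ _)
  have k : K4 τ σ := ⟨τ0, τ2, cjp_ne g _ τ0, by rw [← cjp_mul, τ2, cjp_one], τ1, c _ σS _ hτ⟩
  have C : CycS S g (orderOf g) := by
    refine ⟨c, ?_, Nat.odd_iff.1 hg, ?_, fun i => ⟨fun a => ?_, fun a => ?_⟩, gen⟩
    · have := Subgroup.card_le_of_le (k.V_le hτ σS); rw [k.card] at this; omega
    · have := orderOf_pos g
      have : orderOf g ≠ 1 := fun e => τ1 (by simp [cjp, orderOf_eq_one_iff.1 e])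
      omega
    · exact orderOf_dvd_iff_zpow_eq_one.2 (odd_two hS hg a ⟨i, rfl⟩)
    · rw [orderOf_dvd_iff_zpow_eq_one.1 a]; exact S.one_mem
  by_cases R3 : ∀ d e (h : K4 d e), ∃ x ∈ S, x ∉ h.V ∧ x * x = 1
  · have pp : ∀ d ∈ S, ∀ e ∈ S, K4 d e → PP S d e := fun d hd e he h => by
      obtain ⟨x, hx, x1, x2⟩ := R3 d e h
      exact h.pp_rank3 hS c hd he hx x1 x2
    have sb : ∀ d ∈ S, ∀ e ∈ S, K4 d e → SBin S d e := fun d hd e he h => by
      obtain ⟨x, hx, x1, x2⟩ := R3 d e h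
      exact h.sb_rank3 hS c hd he hx x1 x2
    by_cases h3 : cjp g 3 τ = τ
    swap
    · exact cyc_b C hτ τ2 h3 pp sb
    have tS := S.mul_mem hτ σS
    have t1 : τ * σ ≠ 1 := k.cm ▸ k.mul.e1
    have t2 : τ * σ * (τ * σ) = 1 := k.cm ▸ k.mul.e2
    have t3 : cjp g (-1) (τ * σ) ≠ τ * σ := fun e => by
      rw [cjp_mul, cjp_add, c _ hτ _ σS] at e
      exact τ1 (fix2 _ (mul_left_cancel e))
    have k' : K4 (τ * σ) (cjp g (-1) (τ * σ)) := ⟨t1, t2, cjp_ne g _ t1,
      by rw [← cjp_mul, t2, cjp_one], t3, c _ (cjp_mem g _ tS) _ tS⟩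
    have h3' : cjp g (-3) τ = τ := by
      nth_rewrite 1 [← h3]; rw [cjp_add]; exact cjp_zero _ _
    have inv : ∀ x ∈ k'.V, cjp g (-1) x ∈ k'.V := by
      have : cjp g (-1) (cjp g (-1) (τ * σ)) = cjp g (-1) (τ * σ) * (τ * σ) := by
        simp only [σ, cjp_mul, cjp_add]
        norm_num
        rw [h3', c _ (cjp_mem g (-1) hτ) _ (cjp_mem g (-2) hτ), mul_assoc,
          c _ hτ _ (cjp_mem g (-1) hτ), ← mul_assoc (cjp g (-1) τ), k.e2, one_mul]
      intro x hx
      rcases (k'.mem_V x).1 hx with rfl | rfl | rfl | rfl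
      · rw [cjp_one]; exact hx
      · exact k'.em
      · rw [this]; exact k'.V.mul_mem k'.em k'.dm
      · rw [cjp_mul g (-1) (cjp g (-1) (τ * σ)), this]
        exact k'.V.mul_mem (k'.V.mul_mem k'.em k'.dm) k'.em
    have orb : ∀ l : ℤ, cjp g l (τ * σ) ∈ k'.V := by
      have a : ∀ l : ℕ, cjp g (-l) (τ * σ) ∈ k'.V := fun l => by
        induction l with
        | zero => simpa [cjp_zero] using k'.dm
        | succ l ih =>
          rw [show -((l + 1 : ℕ) : ℤ) = -1 + -l by push_cast; ring, ← cjp_add]; exact inv _ ih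
      intro l
      have : NeZero (orderOf g) := ⟨(orderOf_pos g).ne'⟩
      rw [C.congr (i := l) (j := -(((-l : ℤ) : ZMod (orderOf g)).val : ℤ)) (by simp) tS]
      exact a _
    obtain ⟨n, nS, n1, n2⟩ := R3 _ _ k'
    have n0 : n ≠ 1 := fun e => n1 (e ▸ Subgroup.one_mem _)
    refine cyc_c C hτ τ2 rfl t1 (fun a => t3 ?_) nS n0 (sb _ tS _ nS ⟨t1, t2, n0, n2,
      fun e => n1 (e ▸ k'.dm), c _ nS _ tS⟩) fun j l => pp _ (cjp_mem g _ nS) _ (cjp_mem g _ tS)
        ⟨cjp_ne g _ n0, by rw [← cjp_mul, n2, cjp_one], cjp_ne g _ t1,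
          by rw [← cjp_mul, t2, cjp_one], fun e => n1 ?_, c _ (cjp_mem g _ tS) _ (cjp_mem g _ nS)⟩
    · nth_rewrite 1 [← a]
      rw [cjp_add]; exact cjp_zero _ _
    · have := orb (-j + l)
      rwa [← cjp_add, e, cjp_add, neg_add_cancel, cjp_zero] at this
  push Not at R3
  obtain ⟨d, e, h, hh⟩ := R3
  have all : ∀ x ∈ S, x * x = 1 → x ∈ k.V := by
    have a : ∀ x ∈ S, x * x = 1 → x ∈ h.V := fun x hx x2 => by
      by_contra b; exact hh x hx b x2
    have : k.V = h.V := Subgroup.eq_of_le_of_card_ge (k.V_le (a _ hτ τ2) (a _ σS k.e2))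
      (by rw [h.card, k.card])
    rwa [this]
  have VS := k.V_le hτ σS
  have hV : k.V.Normal := ⟨fun x hx y => all _ (hN.conj_mem _ (VS hx) y) (by
    rw [show y * x * y⁻¹ * (y * x * y⁻¹) = y * (x * x) * y⁻¹ by group, k.sq x hx]; simp)⟩
  have e2 : cjp g (-1) σ = σ * τ := by
    rcases (k.mem_V _).1 (cjp_mem g (-1) k.em) with a | a | a | a
    · exact absurd a (cjp_ne g _ k.e1)
    · rw [cjp_add] at a; exact absurd (fix2 _ a) τ1
    · exact absurd (cjp_inj g _ a) τ1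
    · exact a
  have noH : NO (adj k.V g) := by
    let H := adj k.V g
    have a : τ ∈ H := le_adj k.dm
    have b : σ ∈ H := le_adj k.em
    have k₁ : K4 (⟨τ, a⟩ : H) ⟨σ, b⟩ := ⟨fun e => k.d1 (congrArg Subtype.val e), Subtype.ext k.d2,
      fun e => k.e1 (congrArg Subtype.val e), Subtype.ext k.e2,
      fun e => k.ne (congrArg Subtype.val e), Subtype.ext k.cm⟩
    have mV : ∀ x : H, x ∈ k₁.V ↔ (x : G) ∈ k.V := fun x => by
      rw [k₁.mem_V, k.mem_V]; simp only [Subtype.ext_iff]; rfl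
    have : k₁.V.Normal := ⟨fun x hx y => (mV _).2 (hV.conj_mem _ ((mV _).1 hx) y)⟩
    refine caseD k₁ (g := ⟨g, self_adj⟩) (by rwa [← Subgroup.orderOf_coe])
      (Subtype.ext rfl) (Subtype.ext e2) fun x => ?_
    obtain ⟨i, hi⟩ := mem_adj.1 x.2
    exact ⟨i, (mV _).2 (by simpa using hi)⟩
  have cH : 2 < Nat.card (adj k.V g) := by
    have := Subgroup.card_le_of_le (le_adj (W := k.V) (c := g)); rw [k.card] at this; omega
  refine noH.of_sub ?_ cH
  by_cases SV : S ≤ k.V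
  · have : adj k.V g = ⊤ := by
      rw [eq_top_iff]; intro x _
      obtain ⟨i, hi⟩ := gen x
      exact mem_adj.2 ⟨i, SV hi⟩
    rw [this]; exact RelIn.refl _
  obtain ⟨y, yS, y1, y2⟩ := sq_step hS SV
  let π := QuotientGroup.mk' k.V
  have hπ : ∀ x, π x = 1 ↔ x ∈ k.V := fun x => QuotientGroup.eq_one_iff x
  have y'S := cjp_mem g (-1) yS
  have kq : K4 (π y) (π (cjp g (-1) y)) := by
    refine ⟨fun a => y1 ((hπ _).1 a), by rw [← map_mul, hπ]; exact y2, fun a => y1 ?_,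
      by rw [← map_mul, hπ, ← cjp_mul]; exact cjp_mem g _ y2, fun a => ?_,
      by rw [← map_mul, ← map_mul, c _ y'S _ yS]⟩
    · have := cjp_mem g 1 ((hπ _).1 a)
      rwa [cjp_add, add_neg_cancel, cjp_zero] at this
    · have b : y⁻¹ * cjp g (-1) y ∈ k.V := (hπ _).1 (by rw [map_mul, a]; simp)
      have b2 := k.sq _ b
      rw [mul_assoc, ← mul_assoc (cjp g (-1) y), c _ y'S _ (S.inv_mem yS), mul_assoc, ← cjp_mul,
        ← mul_assoc, ← mul_inv_rev, inv_mul_eq_one] at b2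
      rcases (k.mem_V _).1 y2 with a | a | a | a
      · exact y1 (all y yS a)
      · rw [a] at b2; exact τ1 b2.symm
      · rw [a, e2] at b2; exact τ0 (by simpa using b2)
      · rw [a, cjp_mul, e2, mul_assoc] at b2
        exact k.e1 (by simpa using mul_left_cancel b2)
  have odd : Odd (orderOf (π g)) := Odd.of_dvd_nat hg (orderOf_map_dvd π g)
  obtain ⟨θ, hθ⟩ := rel_semi (S := S.map π) (C := Subgroup.zpowers (π g))
    (fun x h1 h2 => odd_two (hS.map π) odd h1 h2) (by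
      rintro ⟨x⟩
      obtain ⟨i, hi⟩ := gen x⁻¹
      refine ⟨π ((g ^ i)⁻¹ * x⁻¹)⁻¹, ⟨_, S.inv_mem hi, rfl⟩, -i, ?_⟩
      change (π g) ^ (-i) = (π ((g ^ i)⁻¹ * x⁻¹)⁻¹)⁻¹ * π x
      simp)
    (kq.cmIn (hS.map π) ⟨y, yS, rfl⟩ ⟨_, y'S, rfl⟩ (by
      rintro _ ⟨a, ha, rfl⟩ _ ⟨b, hb, rfl⟩; rw [← map_mul, ← map_mul, c a ha b hb]))
    (cm_odd (by rwa [Nat.card_zpowers]))
  obtain ⟨θ', hθ'⟩ := (HTin.top.1 hθ).lift π (QuotientGroup.mk'_surjective _)
    (by rw [QuotientGroup.ker_mk']; exact k.cmIn k.pgroup k.dm k.em k.comm)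
  exact ⟨θ', HTin.top.2 hθ'⟩

end Pool.Agent.Work.MP_66fdf3_co
end

-- merged part: Pool.Agent.Work.MP_66fdf3_co.Two1
section
namespace Pool.Agent.Work.MP_66fdf3_co

open Function

variable {G : Type*} [Group G]

/-- The induction hypothesis. -/
def IH (G : Type*) [Group G] : Prop :=
  ∀ K : Subgroup G, K ≠ ⊤ → (∃ a ∈ K, ∃ b ∈ K, a * b ≠ b * a) → NOin K ∧ CMin K

theorem two_lt_card [Finite G] {K : Subgroup G} (h : ∃ a ∈ K, ∃ b ∈ K, a * b ≠ b * a) :
    2 < Nat.card K := by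
  obtain ⟨a, ha, b, hb, h⟩ := h
  have h1 : ({1, a, b} : Set G) ⊆ K := by
    rintro x (rfl | rfl | rfl)
    · exact K.one_mem
    · exact ha
    · exact hb
  have h2 : ({1, a, b} : Set G).ncard = 3 :=
    Set.ncard_eq_three.2 ⟨1, a, b, by rintro rfl; simp at h, by rintro rfl; simp at h,
      by rintro rfl; simp at h, rfl⟩
  have h3 := Set.ncard_le_ncard h1
  have h4 : (K : Set G).ncard = Nat.card K := rfl
  omega

theorem IH.fin (ih : IH G) {K : Subgroup G} (h1 : K ≠ ⊤) (h2 : ∃ a ∈ K, ∃ b ∈ K, a * b ≠ b * a)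
    (h3 : CMin K → RelIn ⊤ K) : NO G :=
  ((ih K h1 h2).1.lift le_top (h3 (ih K h1 h2).2) (ih K h1 h2).2).top

theorem normal_of_comm {A M : Subgroup G} (h : ∀ x g : G, x⁻¹ * (g⁻¹ * x * g) ∈ A) (hM : A ≤ M) :
    M.Normal := ⟨fun x hx g => by
  have := M.mul_mem hx (hM (h x g⁻¹))
  simpa using this⟩

/-- Power action on a cyclic subgroup. -/
def Act (a g : G) (k : ℤ) : Prop := ∀ x ∈ Subgroup.zpowers a, g⁻¹ * x * g = x ^ k

theorem Act.mul {a g g' : G} {k k' : ℤ} (h : Act a g k) (h' : Act a g' k') :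
    Act a (g * g') (k * k') := fun x hx => by
  rw [zpow_mul, ← h' _ (Subgroup.zpow_mem _ hx k), ← h x hx]; group

theorem odd_root [Finite G] (hG : IsPGroup 2 G) (a : G) {u : ℤ} (hu : u % 2 = 1) :
    ∃ c : ℤ, ∀ x ∈ Subgroup.zpowers a, x ^ (u * c) = x := by
  obtain ⟨n, hn⟩ := IsPGroup.iff_orderOf.1 hG a
  have : a ∈ Subgroup.zpowers (a ^ u) := by
    rw [mem_zpowers_zpow_iff, hn]
    have : IsCoprime u 2 := by
      refine ⟨1, -(u / 2), by omega⟩
    have := this.pow_right (n := n)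
    rw [Int.isCoprime_iff_gcd_eq_one] at this
    exact_mod_cast this
  obtain ⟨c, hc⟩ := this
  refine ⟨c, ?_⟩
  rintro _ ⟨i, rfl⟩
  have hc : a ^ (u * c) = a := by rw [zpow_mul]; exact hc
  show (a ^ i) ^ (u * c) = a ^ i
  rw [← zpow_mul, mul_comm, zpow_mul, hc]

theorem caseA [Finite G] (hG : IsPGroup 2 G) (ih : IH G) (hc : 32 ≤ Nat.card G)
    (hn : ∃ a b : G, a * b ≠ b * a) (hno : ∀ z v : G, ¬NV4 z v) : NO G := by
  classical
  obtain ⟨A, ⟨hA, a, rfl⟩, hm⟩ := Set.Finite.exists_maximal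
    (s := {X : Subgroup G | X.Normal ∧ ∃ a, X = Subgroup.zpowers a}) (Set.toFinite _)
    ⟨⊥, inferInstance, 1, by simp⟩
  set A := Subgroup.zpowers a with hAa
  have aA : a ∈ A := Subgroup.mem_zpowers a
  have cA : ∀ x ∈ A, ∀ y ∈ A, x * y = y * x := by
    rintro _ ⟨i, rfl⟩ _ ⟨j, rfl⟩; exact zpow_mul_comm a i j
  have hA1 : A ≠ ⊥ := by
    intro e
    obtain ⟨x, y, hxy⟩ := hn
    have : Nontrivial G := ⟨⟨_, _, hxy⟩⟩
    obtain ⟨c, c1, -, c3⟩ := exists_central_inv hG
    have : (Subgroup.zpowers c).Normal := ⟨by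
      rintro _ ⟨i, rfl⟩ g
      have : g * c ^ i = c ^ i * g := (Commute.zpow_right (c3 g) i)
      exact ⟨i, by simp [this]⟩⟩
    have := hm ⟨this, c, rfl⟩ (e ▸ bot_le) (Subgroup.mem_zpowers c)
    rw [e] at this
    exact c1 this
  obtain ⟨z, zA, z1, z2, zc⟩ := exists_central_in hG A hA1
  have uniq : ∀ x ∈ A, x * x = 1 → x = 1 ∨ x = z := by
    intro x hx h2
    by_contra hh
    push Not at hh
    have := Fintype.ofFinite A
    have h3 := IsCyclic.card_pow_eq_one_le (α := A) (n := 2) (by omega)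
    have h4 : ({1, ⟨z, zA⟩, ⟨x, hx⟩} : Finset A) ⊆ Finset.univ.filter fun y : A => y ^ 2 = 1 := by
      intro y hy
      simp only [Finset.mem_insert, Finset.mem_singleton] at hy
      rcases hy with rfl | rfl | rfl <;> simp [sq, Subtype.ext_iff, z2, h2]
    have h5 := Finset.card_le_card h4
    rw [Finset.card_eq_three.2 ⟨_, _, _, by simp [Subtype.ext_iff, z1.symm],
      by simp [Subtype.ext_iff, hh.1.symm], by simp [Subtype.ext_iff, hh.2.symm], rfl⟩] at h5
    omega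
  have act : ∀ g, ∃ k, k % 2 = 1 ∧ Act a g k := by
    intro g
    obtain ⟨k, hk⟩ : g⁻¹ * a * g ∈ A := by simpa using hA.conj_mem a aA g⁻¹
    have : Act a g k := by
      rintro _ ⟨i, rfl⟩
      have hk : a ^ k = g⁻¹ * a * g := hk
      show g⁻¹ * a ^ i * g = (a ^ i) ^ k
      rw [← zpow_mul, mul_comm, zpow_mul, hk]
      simpa using (conj_zpow (a := g⁻¹) (b := a) (i := i)).symm
    refine ⟨k, ?_, this⟩
    by_contra h2
    have e := this z zA
    rw [mul_assoc, ← zc, inv_mul_cancel_left, show k = 2 * (k / 2) by omega, zpow_mul,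
      zpow_two, z2, one_zpow] at e
    exact z1 e
  have X : ∀ y, y ∉ A → y * y ∈ A → (∀ g, y⁻¹ * (g⁻¹ * y * g) ∈ A) → ∀ k, Act a y k →
      k % 4 ≠ 1 := by
    intro y y1 ⟨i, hi⟩ y3 k hk k4
    have hi : a ^ i = y * y := hi
    by_cases i2 : i % 2 = 1
    · obtain ⟨c, hc⟩ := odd_root hG a i2
      have l : A ≤ Subgroup.zpowers y := by
        rw [hAa, Subgroup.zpowers_le, ← hc a aA, zpow_mul, hi]
        exact Subgroup.zpow_mem _ (Subgroup.mul_mem _ (Subgroup.mem_zpowers y)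
          (Subgroup.mem_zpowers y)) _
      have : (Subgroup.zpowers y).Normal := ⟨by
        rintro _ ⟨j, rfl⟩ g
        show g * y ^ j * g⁻¹ ∈ _
        rw [← conj_zpow]
        refine Subgroup.zpow_mem _ ?_ _
        simpa using Subgroup.mul_mem _ (Subgroup.mem_zpowers y) (l (y3 g⁻¹))⟩
      exact y1 (hm ⟨this, y, rfl⟩ l (Subgroup.mem_zpowers y))
    · obtain ⟨c, hc⟩ := odd_root hG a (u := (k + 1) / 2) (by omega)
      have sqr : ∀ w, Act a w k → ∀ x ∈ A, w * x * (w * x) = w * w * x ^ (2 * ((k + 1) / 2)) := by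
        intro w hw x hx
        rw [show 2 * ((k + 1) / 2) = k + 1 by omega, zpow_add_one, ← hw x hx]; group
      let b := a ^ (i / 2)
      have bA : b ∈ A := A.zpow_mem aA _
      have bA' : b ^ (-c) ∈ A := A.zpow_mem bA _
      have hv : Act a (y * b ^ (-c)) k := fun x hx => by
        have := hk x hx
        rw [mul_inv_rev, mul_assoc, mul_assoc, ← mul_assoc x, ← mul_assoc y⁻¹, ← mul_assoc y⁻¹,
          this, cA _ (A.zpow_mem hx _) _ bA']
        simp
      have v2 : y * b ^ (-c) * (y * b ^ (-c)) = 1 := by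
        rw [sqr y hk _ bA', ← hi, ← zpow_mul, show -c * (2 * ((k + 1) / 2)) =
          ((k + 1) / 2 * c) * (-2) by ring, zpow_mul, hc b bA, ← zpow_mul, ← zpow_add,
          show i + i / 2 * (-2) = 0 by omega, zpow_zero]
      have v1 : y * b ^ (-c) ∉ A := fun e => y1 ((A.mul_mem_cancel_right bA').1 e)
      refine hno z (y * b ^ (-c)) ⟨z1, z2, zc, v2, fun e => v1 (e ▸ A.one_mem),
        fun e => v1 (e ▸ zA), fun g => ?_⟩
      generalize hvv : y * b ^ (-c) = v at *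
      have l : v⁻¹ * (g * v * g⁻¹) ∈ A := by
        have := A.mul_mem (A.mul_mem (A.inv_mem bA') (y3 g⁻¹)) (hA.conj_mem _ bA' g)
        rw [← hvv]
        simpa [mul_assoc] using this
      have e := sqr v hv _ l
      rw [mul_inv_cancel_left, show g * v * g⁻¹ * (g * v * g⁻¹) = g * (v * v) * g⁻¹ by group, v2,
        mul_one, mul_inv_cancel, one_mul] at e
      have e2 := hc _ (A.mul_mem l l)
      rw [← zpow_two, ← zpow_mul, ← mul_assoc (2 : ℤ), zpow_mul, ← e, one_zpow, zpow_two] at e2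
      rcases uniq _ l e2.symm with h | h
      · exact Or.inl (inv_mul_eq_one.1 h).symm
      · exact Or.inr (by rw [← h]; simp)
  have cen : Subgroup.centralizer (A : Set G) ≤ A := by
    by_contra h
    obtain ⟨y, hy, y1, y2, y3⟩ := step hG h
    refine X y y1 y2 y3 1 (fun x hx => ?_) rfl
    rw [mul_assoc, Subgroup.mem_centralizer_iff.1 hy x hx]; simp
  have cm : ∀ y g : G, y⁻¹ * (g⁻¹ * y * g) ∈ A := by
    intro y g
    apply cen
    rw [Subgroup.mem_centralizer_iff]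
    intro x hx
    obtain ⟨k, -, hk⟩ := act y
    obtain ⟨k', -, hk'⟩ := act g
    have hx' : g * y * x * (g * y)⁻¹ ∈ A := hA.conj_mem x hx _
    have e1 := (hk.mul hk') _ hx'
    have e2 := (hk'.mul hk) _ hx'
    rw [mul_comm k', ← e1] at e2
    have e3 : x = (y * g)⁻¹ * (g * y * x * (g * y)⁻¹) * (y * g) := by rw [← e2]; group
    have e4 : x⁻¹ * (y⁻¹ * (g⁻¹ * y * g)) = (y⁻¹ * (g⁻¹ * y * g)) * x⁻¹ := by
      nth_rewrite 2 [e3]; group
    calc x * (y⁻¹ * (g⁻¹ * y * g)) = x * (y⁻¹ * (g⁻¹ * y * g) * x⁻¹) * x := by group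
      _ = _ := by rw [← e4]; group
  have X' : ∀ y, y ∉ A → y * y ∈ A → ∀ k, Act a y k → k % 4 ≠ 1 :=
    fun y y1 y2 => X y y1 y2 (cm y)
  obtain ⟨s, -, s1, s2, -⟩ := step hG (H := A) (L := ⊤) (by
    intro h
    obtain ⟨x, y, hxy⟩ := hn
    exact hxy (cA x (h trivial) y (h trivial)))
  have sA : Stp A s := Stp.of_normal s1 s2
  obtain ⟨k, k2, hk⟩ := act s
  have k4 := X' s s1 s2 k hk
  have top : sA.ext = ⊤ := by
    by_contra h
    have := normal_of_comm cm sA.le
    obtain ⟨s', -, t1, t2, -⟩ := step hG (H := sA.ext) (L := ⊤) (by simpa using h)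
    obtain ⟨k', k2', hk'⟩ := act s'
    by_cases t3 : s' * s' ∈ A
    · have k4' := X' s' (fun e => t1 (sA.le e)) t3 k' hk'
      refine X' (s * s') (fun e => t1 ((sA.ext.mul_mem_cancel_left sA.self).1 (sA.le e))) ?_ _
        (hk.mul hk') ?_
      · have := A.mul_mem (A.mul_mem s2 (cm s s'⁻¹)) t3
        simpa [mul_assoc] using this
      · rw [Int.mul_emod, show k % 4 = 3 by omega, show k' % 4 = 3 by omega]; rfl
    · refine X' (s' * s') t3 ((sA.par t2 t2).2 Iff.rfl) _ (hk'.mul hk') ?_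
      have : k' % 4 = 1 ∨ k' % 4 = 3 := by omega
      rw [Int.mul_emod]
      rcases this with e | e <;> rw [e] <;> rfl
  have ord : (16 : ℤ) ∣ orderOf a := by
    obtain ⟨n, hn⟩ := IsPGroup.iff_orderOf.1 hG a
    have := sA.card
    rw [top, Subgroup.card_top, Nat.card_zpowers, hn] at this
    have h4 : 4 ≤ n := by
      by_contra h
      have : n ≤ 3 := by omega
      have := Nat.pow_le_pow_right (n := 2) (by omega) this
      omega
    rw [hn]
    exact_mod_cast pow_dvd_pow 2 h4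
  have dv : ∀ i : ℤ, a ^ i = 1 → (16 : ℤ) ∣ i := fun i h =>
    ord.trans (orderOf_dvd_iff_zpow_eq_one.2 h)
  let K₀ := Subgroup.zpowers (a ^ (4 : ℤ))
  have K₀A : K₀ ≤ A := by rw [Subgroup.zpowers_le]; exact A.zpow_mem aA _
  have mK₀ : ∀ i : ℤ, a ^ i ∈ K₀ ↔ (4 : ℤ) ∣ i := by
    intro i
    constructor
    · rintro ⟨j, hj⟩
      have hj : (a ^ (4 : ℤ)) ^ j = a ^ i := hj
      have := dv (4 * j - i) (by rw [zpow_sub, zpow_mul, hj]; simp)
      omega
    · rintro ⟨j, rfl⟩; exact ⟨j, (zpow_mul _ _ _).symm⟩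
  have ak : ∀ i : ℤ, s⁻¹ * a ^ i * s = a ^ (i * k) := fun i => by
    rw [hk _ (A.zpow_mem aA i), zpow_mul]
  have sK : Stp K₀ s := by
    refine ⟨fun e => s1 (K₀A e), ?_, fun x hx => ?_⟩
    · obtain ⟨i, hi⟩ := s2
      have hi : a ^ i = s * s := hi
      have e := ak i
      rw [hi, show s⁻¹ * (s * s) * s = s * s by group, ← hi] at e
      have := dv (i * k - i) (by rw [zpow_sub, ← e]; simp)
      rw [← hi, mK₀]
      obtain ⟨u, hu⟩ : ∃ u, k = 4 * u + 3 := ⟨k / 4, by omega⟩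
      have h8 : (8 : ℤ) ∣ i * (2 * u + 1) := by
        obtain ⟨m, hm⟩ := this
        exact ⟨m, by rw [hu] at hm; linarith⟩
      have : IsCoprime (8 : ℤ) (2 * u + 1) :=
        (IsCoprime.pow_left (m := 3) (⟨-u, 1, by ring⟩ : IsCoprime (2 : ℤ) (2 * u + 1)))
      exact Dvd.dvd.trans (by norm_num) (this.dvd_of_dvd_mul_right h8)
    · rw [hk x (K₀A hx)]; exact K₀.zpow_mem hx _
  have mK : ∀ i : ℤ, a ^ i ∈ sK.ext ↔ (4 : ℤ) ∣ i := by
    intro i
    rw [← mK₀]
    refine ⟨fun h => h.resolve_right fun e => s1 ?_, fun h => sK.le h⟩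
    simpa using A.inv_mem ((A.mul_mem_cancel_right (A.zpow_mem aA i)).1 (K₀A e))
  have cs : ∀ i : ℤ, (a ^ i)⁻¹ * s * a ^ i = s * a ^ (i - i * k) := fun i => by
    rw [sub_eq_neg_add, zpow_add, ← neg_mul, ← ak, zpow_neg]; group
  have cK : ∀ (i : ℤ) (M : Subgroup G), sK.ext ≤ M → a ^ (i - i * k) ∈ M → ∀ x ∈ sK.ext,
      (a ^ i)⁻¹ * x * a ^ i ∈ M := by
    intro i M hM hi x hx
    have : ∀ x ∈ K₀, (a ^ i)⁻¹ * x * a ^ i = x := fun x hx => by
      rw [mul_assoc, cA x (K₀A hx) _ (A.zpow_mem aA i)]; simp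
    rcases sK.cases hx with h | ⟨b, hb, rfl⟩
    · rw [this x h]; exact hM hx
    · have e := M.mul_mem (M.mul_mem (hM sK.self) hi) (hM (sK.le hb))
      rw [← cs, ← this b hb] at e
      simpa [mul_assoc] using e
  have s2K : Stp sK.ext (a ^ (2 : ℤ)) :=
    ⟨by rw [mK]; omega, by rw [← zpow_add, mK]; omega, cK 2 _ le_rfl (by rw [mK]; omega)⟩
  have mM : ∀ i : ℤ, a ^ i ∈ s2K.ext ↔ (2 : ℤ) ∣ i := by
    intro i
    rw [s2K.mem, ← zpow_neg, ← zpow_add, mK, mK]; omega
  have s1K : Stp s2K.ext (a ^ (1 : ℤ)) := by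
    refine ⟨by rw [mM]; omega, by rw [← zpow_add, mM]; omega, fun x hx => ?_⟩
    have c := cK 1 _ s2K.le (by rw [mM]; omega)
    rcases s2K.cases hx with h | ⟨b, hb, rfl⟩
    · exact c x h
    · have e := s2K.ext.mul_mem s2K.self (c b hb)
      rwa [← mul_assoc, ← mul_assoc, ← zpow_neg, zpow_mul_comm, zpow_neg, mul_assoc _ _ b] at e
  refine ih.fin (K := sK.ext) (fun e => ?_) ⟨s, sK.self, a ^ (4 : ℤ), (mK 4).2 dvd_rfl, fun e => ?_⟩
    fun hK => idx4 s2K s1K ?_ hK sK.self ?_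
  · have : a ^ (1 : ℤ) ∈ sK.ext := e ▸ trivial
    rw [mK] at this; omega
  · have := ak 4
    rw [mul_assoc, ← e, inv_mul_cancel_left] at this
    have := dv (4 * k - 4) (by rw [zpow_sub, ← this]; simp)
    omega
  · rw [eq_top_iff, ← top]
    refine sA.ext_le ?_ (s1K.le (s2K.le sK.self))
    rw [Subgroup.zpowers_le]; simpa using s1K.self
  · rw [cs, sK.ext.mul_mem_cancel_left sK.self, mK]; omega

end Pool.Agent.Work.MP_66fdf3_co
end

-- merged part: Pool.Agent.Work.MP_66fdf3_co.Two2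
section
namespace Pool.Agent.Work.MP_66fdf3_co

open Function

variable {G : Type*} [Group G]

theorem hex_cert {s p1 p2 e1 e2 w : ℕ} (hs : s < 4) (h1 : p1 < 2) (h2 : p2 < 2) (h3 : e1 < 4)
    (h4 : e2 < 4) (hw : w < 4) (h : (p1 = 0 ∧ p2 = 0) ∨ (s < 2 ∧ e1 < 2 ∧ e2 < 2)) :
    ∃ x, hexC s p1 p2 e1 e2 (w + 1) x = true := by
  by_cases h0 : p1 = 0 ∧ p2 = 0
  · obtain ⟨rfl, rfl⟩ := h0
    interval_cases s
    · exact ⟨_, allR_spec (allR_spec (allR_spec ch000 h3) h4) hw⟩
    · exact ⟨_, allR_spec (allR_spec (allR_spec ch100 h3) h4) hw⟩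
    · exact ⟨_, allR_spec (allR_spec (allR_spec ch200 h3) h4) hw⟩
    · exact ⟨_, allR_spec (allR_spec (allR_spec ch300 h3) h4) hw⟩
  · obtain ⟨a, b, c⟩ := h.resolve_left h0
    interval_cases s <;> interval_cases p1 <;> interval_cases p2
    · simp at h0
    · exact ⟨_, allR_spec (allR_spec (allR_spec ch001 b) c) hw⟩
    · exact ⟨_, allR_spec (allR_spec (allR_spec ch010 b) c) hw⟩
    · exact ⟨_, allR_spec (allR_spec (allR_spec ch011 b) c) hw⟩
    · simp at h0
    · exact ⟨_, allR_spec (allR_spec (allR_spec ch101 b) c) hw⟩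
    · exact ⟨_, allR_spec (allR_spec (allR_spec ch110 b) c) hw⟩
    · exact ⟨_, allR_spec (allR_spec (allR_spec ch111 b) c) hw⟩

theorem pow_two_cases {z : G} (z1 : z ≠ 1) {e : ℕ} (he : e < 2) (h : z ^ e = 1) : e = 0 := by
  interval_cases e
  · rfl
  · exact absurd (by simpa using h) z1

theorem NV4.cj {z v : G} (h : NV4 z v) (g : G) :
    ∃ e < 2, z ^ e = v⁻¹ * (g⁻¹ * v * g) ∧ Cj (p2 z v) 4 (a2 0 e) g :=
  Cj.step (mdl1 h.k4.s1) h.k4.mdl
    (Cj.of_comm (mdl1 h.k4.s1) (comm_of_stp h.k4.s1 (h.zc g))) (by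
      have := h.conj g⁻¹
      rw [inv_inv] at this
      rcases this with e | e <;> rw [e]
      · simp
      · simpa using h.k4.s1.self)

theorem hex8 {z v y D F : G} (h : NV4 z v) (s : Stp h.k4.V y)
    (hy : ∀ g, y⁻¹ * (g⁻¹ * y * g) ∈ h.k4.V) (yv : y * v = v * y) (hD : D ∉ s.ext)
    (hF : F ∉ s.ext) (hDF : D * F ∉ s.ext) (w1 : D * F * D⁻¹ * F⁻¹ ≠ 1)
    (hw : D * F * D⁻¹ * F⁻¹ ∈ h.k4.V ∨ D * F * D⁻¹ * F⁻¹ = y)
    (hcen : ∀ u, u = y * y ∨ u = y⁻¹ * (D * y * D⁻¹) ∨ u = y⁻¹ * (F * y * F⁻¹) →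
      D * u = u * D ∧ F * u = u * F) {θ : G → G}
    (hθ : HT (cos s.ext (hr D F)) (cos s.ext (hc D F)) (cos s.ext fun p => hr D F p * hc D F p) θ) :
    NO G := by
  have hV : h.k4.V.Normal := h.V_eq ▸ h.normal
  have hN := s.normal hy
  obtain ⟨e0, l0, q0, c0⟩ := h.cj y
  obtain rfl : e0 = 0 := pow_two_cases h.z1 l0 (by rw [q0, mul_assoc, ← yv]; simp)
  obtain ⟨s3, l3, q3, M⟩ := h.k4.mdl.step s c0
  obtain ⟨p1, lp1, qp1, c1⟩ := h.cj D⁻¹
  obtain ⟨p2', lp2, qp2, c2⟩ := h.cj F⁻¹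
  obtain ⟨e1, le1, qe1, d1⟩ := Cj.step h.k4.mdl M c1 (hy _)
  obtain ⟨e2, le2, qe2, d2⟩ := Cj.step h.k4.mdl M c2 (hy _)
  rw [inv_inv] at qp1 qp2 qe1 qe2
  obtain ⟨w, lw, qw⟩ : ∃ w < 4, xpi 4 (p2 z v) y (w + 1) = D * F * D⁻¹ * F⁻¹ := by
    rcases hw with hw | hw
    · obtain ⟨u, hu, e⟩ := h.k4.mdl.surj _ hw
      have : u ≠ 0 := by rintro rfl; exact w1 (by rw [← e, p2_0])
      exact ⟨u - 1, by omega, by rw [xpi_lo (by omega), ← e]; congr 1; omega⟩
    · exact ⟨3, by omega, by rw [hw]; exact xpi_hi (u := 0).trans (by rw [p2_0, mul_one])⟩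
  have key : ∀ u < 4, (D * p2 z v u = p2 z v u * D ∧ F * p2 z v u = p2 z v u * F) →
      u < 2 ∨ (p1 = 0 ∧ p2' = 0) := by
    intro u hu ⟨a, b⟩
    by_cases u2 : u < 2
    · exact Or.inl u2
    have : ∀ g, g * p2 z v u = p2 z v u * g → v⁻¹ * (g * v * g⁻¹) = 1 := by
      intro g hg
      have : u = 2 ∨ u = 3 := by omega
      rcases this with rfl | rfl
      · rw [p2_2] at hg; rw [hg]; simp
      · rw [p2_3, mul_assoc, ← h.zc g, ← mul_assoc, ← mul_assoc] at hg
        rw [mul_right_cancel hg]; simp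
    exact Or.inr ⟨pow_two_cases h.z1 lp1 (by rw [qp1, this D a]),
      pow_two_cases h.z1 lp2 (by rw [qp2, this F b])⟩
  have k1 := key s3 l3 (hcen _ (Or.inl q3))
  have k2 := key e1 le1 (hcen _ (Or.inr (Or.inl qe1)))
  have k3 := key e2 le2 (hcen _ (Or.inr (Or.inr qe2)))
  obtain ⟨x, hx⟩ := hex_cert l3 lp1 lp2 le1 le2 lw (by tauto)
  have wN : D * F * D⁻¹ * F⁻¹ ∈ s.ext := qw ▸ M.mem _ (by omega)
  exact hex_no M (hexConfig hD hF hDF wN) d1 d2 (by omega) qw hx hθ

theorem caseB1 [Finite G] (hG : IsPGroup 2 G) (hc32 : 32 ≤ Nat.card G)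
    (hn : ∃ a b : G, a * b ≠ b * a) {z v g : G} (h : NV4 z v)
    (hg : ∀ x, ∃ i : ℤ, (g ^ i)⁻¹ * x ∈ h.k4.V) : NO G := by
  have hV : h.k4.V.Normal := h.V_eq ▸ h.normal
  set V := h.k4.V with hVV
  have cV : ∀ x ∈ V, x * v = v * x := by
    intro x hx
    rcases (h.k4.mem_V x).1 hx with rfl | rfl | rfl | rfl
    · simp
    · exact (h.zc _).symm
    · rfl
    · rw [mul_assoc, h.zc v]
  have cen : ∀ c, c * g = g * c → c * v = v * c → ∀ x, c * x = x * c := by
    intro c h1 h2 x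
    obtain ⟨i, hi⟩ := hg x
    have a : Commute c (g ^ i) := Commute.zpow_right h1 i
    have b : Commute c ((g ^ i)⁻¹ * x) := by
      rcases (h.k4.mem_V _).1 hi with e | e | e | e <;> rw [e]
      · simp
      · exact h.zc c
      · exact h2
      · exact Commute.mul_right h2 (h.zc c)
    have := a.mul_right b
    rwa [mul_inv_cancel_left] at this
  have gv : g * v * g⁻¹ = v * z := by
    refine (h.conj g).resolve_left fun e => ?_
    obtain ⟨a, b, hab⟩ := hn
    have gc := cen g rfl (mul_inv_eq_iff_eq_mul.1 e)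
    have vc := cen v (gc v).symm rfl
    exact hab (cen a (gc a).symm (vc a).symm b)
  have g2 : ∀ x, g ^ (2 : ℤ) * x = x * g ^ (2 : ℤ) := by
    refine cen _ (by group) ?_
    have e : g * v = v * z * g := mul_inv_eq_iff_eq_mul.1 gv
    rw [zpow_two, mul_assoc, e, ← mul_assoc, ← mul_assoc, e, mul_assoc _ g z, h.zc g,
      mul_assoc v, ← mul_assoc z, h.z2]
    simp [mul_assoc]
  have ge : ∀ i : ℤ, 2 ∣ i → ∀ x, g ^ i * x = x * g ^ i := by
    rintro _ ⟨j, rfl⟩ x
    rw [zpow_mul]; exact Commute.zpow_left (g2 x) j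
  have cm : ∀ x y : G, x⁻¹ * (y⁻¹ * x * y) ∈ V := by
    intro x y
    obtain ⟨i, hi⟩ := hg x
    obtain ⟨j, hj⟩ := hg y
    rw [← QuotientGroup.eq] at hi hj
    rw [← QuotientGroup.eq]
    simp only [QuotientGroup.mk_mul, QuotientGroup.mk_inv, ← hi, ← hj, QuotientGroup.mk_zpow]
    group
  obtain ⟨m, hm⟩ : ∃ m, orderOf (g : G ⧸ V) = m := ⟨_, rfl⟩
  have gm : ∀ i : ℤ, g ^ i ∈ V ↔ (m : ℤ) ∣ i := fun i => by
    rw [← hm, orderOf_dvd_iff_zpow_eq_one, ← QuotientGroup.mk_zpow, QuotientGroup.eq_one_iff]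
  have gen : ∀ (B : Subgroup G) [B.Normal], V ≤ B → Subgroup.zpowers (g : G ⧸ B) = ⊤ := by
    intro B _ hB
    rw [eq_top_iff]
    rintro ⟨x⟩ -
    obtain ⟨i, hi⟩ := hg x
    exact ⟨i, QuotientGroup.eq.2 (hB hi)⟩
  have cG : Nat.card G = m * 4 := by
    rw [Subgroup.card_eq_card_quotient_mul_card_subgroup V, h.k4.card, ← hm, ← Nat.card_zpowers,
      gen V le_rfl, Subgroup.card_top]
  obtain ⟨k, hk⟩ := IsPGroup.iff_orderOf.1 (hG.to_quotient V) g
  rw [hm] at hk
  have k3 : 3 ≤ k := by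
    by_contra a
    have := Nat.pow_le_pow_right (n := 2) (by omega) (show k ≤ 2 by omega)
    omega
  by_cases m8 : m = 8
  · subst m8
    have s1 : Stp V (g ^ (4 : ℤ)) :=
      Stp.of_normal (by rw [gm]; omega) (by rw [← zpow_add, gm]; omega)
    have m1 : ∀ i : ℤ, g ^ i ∈ s1.ext ↔ 4 ∣ i := fun i => by
      rw [s1.mem, ← zpow_neg, ← zpow_add, gm, gm]; omega
    have n1 := normal_of_comm cm s1.le
    have s2 : Stp s1.ext (g ^ (2 : ℤ)) :=
      Stp.of_normal (by rw [m1]; omega) (by rw [← zpow_add, m1]; omega)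
    have m2 : ∀ i : ℤ, g ^ i ∈ s2.ext ↔ 2 ∣ i := fun i => by
      rw [s2.mem, ← zpow_neg, ← zpow_add, m1, m1]; omega
    have n2 := normal_of_comm cm (s1.le.trans s2.le)
    have s3 : Stp s2.ext g := Stp.of_normal
      (fun e => by have := (m2 1).1 (by simpa using e); omega) (by rw [← zpow_two, m2])
    obtain ⟨e, le, qe, M3⟩ := h.k4.mdl.step s1
      (Cj.of_comm h.k4.mdl fun x _ => (ge 4 (by omega) x).symm)
    have M4 := M3.ext s2.nm (fun _ => s2.mem) (Cj.of_comm M3 fun x _ => (g2 x).symm) (s := 4)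
      (by omega) (by rw [← zpow_add]; exact xpi_hi (u := 0).trans (by rw [p2_0, mul_one]; rfl))
    obtain ⟨p, lp, qp, c2⟩ := h.cj g
    obtain rfl : p = 1 := by
      interval_cases p
      · rw [pow_zero, eq_comm, inv_mul_eq_one] at qp
        rw [qp] at gv
        have : v = g⁻¹ * v * g * z := by rw [← gv]; group
        rw [← qp] at this
        exact absurd (left_eq_mul.1 this) h.z1
      · rfl
    obtain ⟨e3, l3, q3, c3⟩ := Cj.step h.k4.mdl M3 c2 (cm _ _)
    obtain rfl : e3 = 0 := h.k4.mdl.inj _ l3 _ (by omega) (by rw [q3, p2_0]; group)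
    obtain ⟨e4, l4, q4, c4⟩ := Cj.step M3 M4 c3 (s1.le (cm _ _))
    obtain rfl : e4 = 0 := M3.inj _ l4 _ (by omega) (by rw [q4, M3.zero]; group)
    have M5 := M4.ext s3.nm (fun _ => s3.mem) c4 (s := 8) (by omega)
      (by rw [← zpow_two]; exact xpi_hi (u := 0).trans (by rw [M3.zero, mul_one]))
    have top : s3.ext = ⊤ := eq_top_of_card (by rw [M5.card, cG])
    rw [top] at M5
    have : e < 2 := by
      by_contra a
      have e1 : g * p2 z v e = p2 z v e * g := by rw [qe]; group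
      have e2 : g * v = v * g := by
        have : e = 2 ∨ e = 3 := by omega
        rcases this with rfl | rfl
        · rwa [p2_2] at e1
        · rw [p2_3, mul_assoc, ← h.zc g, ← mul_assoc, ← mul_assoc] at e1
          exact mul_right_cancel e1
      rw [e2, mul_inv_cancel_right] at gv
      exact h.z1 (left_eq_mul.1 gv)
    interval_cases e
    · exact (M5.no c32_0).top
    · exact (M5.no c32_1).top
  obtain ⟨n, hn8, hmn, hn32⟩ : ∃ n : ℕ, 8 ∣ n ∧ m = 2 * n ∧ (m = 32 → n = 16) := by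
    obtain ⟨j, rfl⟩ : ∃ j, k = j + 4 := ⟨k - 4, by
      have : k ≠ 3 := by rintro rfl; exact m8 hk
      omega⟩
    exact ⟨2 ^ (j + 3), ⟨2 ^ j, by ring⟩, by rw [hk]; ring, fun e => by
      rw [hk, pow_succ] at e; omega⟩
  have n0 : 0 < n := by omega
  have s1 : Stp V (g ^ (n : ℤ)) := Stp.of_normal
    (by rw [gm, hmn]; intro e; have := Int.le_of_dvd (by omega) e; omega)
    (by rw [← zpow_add, gm, hmn]; exact ⟨1, by push_cast; ring⟩)
  obtain ⟨j, hj, jn, jc⟩ : ∃ j : ℕ, (j = 8 ∨ j = 16) ∧ j ∣ n ∧ Nat.card G ≠ j * 16 := by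
    by_cases a : m = 32
    · exact ⟨16, Or.inr rfl, by rw [hn32 a], by omega⟩
    · exact ⟨8, Or.inl rfl, hn8, by omega⟩
  let A : Subgroup G := (Subgroup.zpowers ((g : G ⧸ V) ^ (j : ℤ))).comap (QuotientGroup.mk' V)
  have mA : ∀ x, x ∈ A ↔ ∃ i : ℤ, (g ^ (j * i))⁻¹ * x ∈ V := fun x =>
    exists_congr fun i => by
      rw [← QuotientGroup.eq, QuotientGroup.mk_zpow, zpow_mul]; rfl
  have VA : V ≤ A := fun x hx => (mA x).2 ⟨0, by simpa using hx⟩
  have hA := normal_of_comm cm VA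
  have jm : (j : ℤ) ∣ m := by rw [hmn]; exact_mod_cast jn.mul_left 2
  have gA : ∀ i : ℤ, g ^ i ∈ A ↔ (j : ℤ) ∣ i := by
    intro i
    rw [mA]
    constructor
    · rintro ⟨l, hl⟩
      rw [← zpow_neg, ← zpow_add, gm] at hl
      have := (jm.trans hl).add (Dvd.intro l rfl)
      simpa using this
    · rintro ⟨l, rfl⟩; exact ⟨l, by simp⟩
  have cA : ∀ x ∈ A, ∀ y ∈ A, x * y = y * x := by
    have : ∀ x ∈ A, x * v = v * x := by
      intro x hx
      obtain ⟨i, hi⟩ := (mA x).1 hx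
      have := Commute.mul_left (ge (j * i) (by rcases hj with rfl | rfl <;> omega) v) (cV _ hi)
      rwa [mul_inv_cancel_left] at this
    intro x hx y hy
    obtain ⟨i, hi⟩ := (mA x).1 hx
    have a : Commute (g ^ (j * i)) y := ge (j * i) (by rcases hj with rfl | rfl <;> omega) y
    have b : Commute ((g ^ (j * i))⁻¹ * x) y := by
      rcases (h.k4.mem_V _).1 hi with e | e | e | e <;> rw [e]
      · simp
      · exact (h.zc y).symm
      · exact (this y hy).symm
      · exact Commute.mul_left (this y hy).symm (h.zc y).symm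
    have := a.mul_left b
    rwa [mul_inv_cancel_left] at this
  have NA : s1.ext ≤ A := s1.ext_le VA ((gA _).2 (by exact_mod_cast jn))
  have oA : orderOf (g : G ⧸ A) = j := by
    have : ∀ i : ℕ, orderOf (g : G ⧸ A) ∣ i ↔ j ∣ i := fun i => by
      rw [orderOf_dvd_iff_pow_eq_one, ← QuotientGroup.mk_pow, QuotientGroup.eq_one_iff,
        ← zpow_natCast, gA, Int.natCast_dvd_natCast]
    exact Nat.dvd_antisymm ((this _).2 dvd_rfl) ((this _).1 dvd_rfl)
  have M := mdl_cyc (by omega) oA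
  rw [gen A VA] at M
  have vA : v ∈ A := VA h.k4.em
  have gA8 : ∀ i : ℤ, g ^ i ∈ A → 8 ∣ i := fun i e => by
    have := (gA i).1 e
    rcases hj with rfl | rfl <;> omega
  have hD : g ∉ A := fun e => by have := gA8 1 (by simpa using e); omega
  have hF : g ^ (2 : ℤ) * v ∉ A := fun e => by
    have := gA8 _ ((A.mul_mem_cancel_right vA).1 e); omega
  have hDF : g * (g ^ (2 : ℤ) * v) ∉ A := fun e => by
    rw [← mul_assoc, A.mul_mem_cancel_right vA, ← zpow_one_add] at e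
    have := gA8 _ e; omega
  have hw : g * (g ^ (2 : ℤ) * v) * g⁻¹ * (g ^ (2 : ℤ) * v)⁻¹ = z := by
    rw [show g * (g ^ (2 : ℤ) * v) * g⁻¹ = g ^ (2 : ℤ) * (g * v * g⁻¹) by group, gv,
      ← mul_assoc, mul_assoc _ z, ← h.zc]
    group
  have K := hexConfig hD hF hDF (hw ▸ VA h.k4.dm)
  have f2 : (g : G ⧸ A) ^ 2 = ((g ^ (2 : ℤ) * v : G) : G ⧸ A) := by
    rw [QuotientGroup.mk_mul_of_mem _ vA, zpow_two, sq]; rfl
  obtain ⟨θ, hθ⟩ : ∃ θ, HT (cos A (hr g (g ^ (2 : ℤ) * v))) (cos A (hc g (g ^ (2 : ℤ) * v)))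
      (cos A fun p => hr g (g ^ (2 : ℤ) * v) p * hc g (g ^ (2 : ℤ) * v) p) θ := by
    rcases hj with rfl | rfl
    · exact M.outer hG h (VA h.k4.dm) vA cz8 (pow_one _) f2
    · exact M.outer hG h (VA h.k4.dm) vA cz16 (pow_one _) f2
  have n1 := normal_of_comm cm s1.le
  obtain ⟨θ', hθ'⟩ := fill NA K.hc K.hs1 hθ (rel_ab' (hG.to_subgroup A) cA h.k4 NA
    (s1.le h.k4.dm) (s1.le h.k4.em) (by
      have := Subgroup.card_eq_card_quotient_mul_card_subgroup A
      rw [← Subgroup.card_top (G := G ⧸ A), M.card] at this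
      rw [s1.card, h.k4.card]
      intro e; rw [e] at this; exact jc this))
  have gn := ge n (by omega)
  refine hex8 h s1 (cm _) (gn v) (fun e => hD (NA e)) (fun e => hF (NA e)) (fun e => hDF (NA e))
    (hw ▸ h.z1) (Or.inl (hw ▸ h.k4.dm)) ?_ hθ'
  rintro u (rfl | rfl | rfl)
  · exact ⟨(Commute.mul_left (gn _) (gn _)).symm, (Commute.mul_left (gn _) (gn _)).symm⟩
  · rw [← gn g]; simp
  · rw [← gn, mul_inv_cancel_right]; simp

end Pool.Agent.Work.MP_66fdf3_co
end

-- merged part: Pool.Agent.Work.MP_66fdf3_co.Two3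
section
namespace Pool.Agent.Work.MP_66fdf3_co

open Function

variable {G : Type*} [Group G]

/-- A normal subgroup whose quotient is a four-group. -/
structure Quad (A : Subgroup G) (D F : G) : Prop where
  nm : A.Normal
  d1 : D ∉ A
  f1 : F ∉ A
  df : D * F ∉ A
  d2 : D * D ∈ A
  f2 : F * F ∈ A
  w : D * F * D⁻¹ * F⁻¹ ∈ A
  cov : ∀ x, ∃ a ∈ A, x = a ∨ x = D * a ∨ x = F * a ∨ x = D * (F * a)

namespace Quad

variable {A : Subgroup G} {D F : G} (q : Quad A D F)
include q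

theorem symm : Quad A F D := by
  have := q.nm
  refine ⟨q.nm, q.f1, q.d1, fun e => q.df (q.nm.mem_comm e), q.f2, q.d2,
    by simpa [mul_assoc] using A.inv_mem q.w, fun x => ?_⟩
  obtain ⟨a, ha, h | h | h | h⟩ := q.cov x
  · exact ⟨a, ha, Or.inl h⟩
  · exact ⟨a, ha, Or.inr (Or.inr (Or.inl h))⟩
  · exact ⟨a, ha, Or.inr (Or.inl h)⟩
  · refine ⟨(F * D)⁻¹ * (D * F * D⁻¹ * F⁻¹) * (F * D)⁻¹⁻¹ * a,
      A.mul_mem (q.nm.conj_mem _ q.w _) ha, Or.inr (Or.inr (Or.inr ?_))⟩
    rw [h]; group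

theorem mulF {a : G} (ha : a ∈ A) : Quad A D (F * a) := by
  have := q.nm
  refine ⟨q.nm, q.d1, fun e => q.f1 ((A.mul_mem_cancel_right ha).1 e),
    fun e => q.df ((A.mul_mem_cancel_right ha).1 (by rwa [mul_assoc])), q.d2, ?_, ?_, fun x => ?_⟩
  · have := A.mul_mem (A.mul_mem q.f2 (q.nm.conj_mem _ ha F⁻¹)) ha
    simpa [mul_assoc] using this
  · have := A.mul_mem (A.mul_mem (q.nm.conj_mem _ ha (D * F)) q.w)
      (q.nm.conj_mem _ (A.inv_mem ha) F)
    simpa [mul_assoc] using this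
  · obtain ⟨b, hb, h | h | h | h⟩ := q.cov x
    · exact ⟨b, hb, Or.inl h⟩
    · exact ⟨b, hb, Or.inr (Or.inl h)⟩
    · exact ⟨a⁻¹ * b, A.mul_mem (A.inv_mem ha) hb, Or.inr (Or.inr (Or.inl (by rw [h]; group)))⟩
    · exact ⟨a⁻¹ * b, A.mul_mem (A.inv_mem ha) hb, Or.inr (Or.inr (Or.inr (by rw [h]; group)))⟩

theorem ind {M : Subgroup G} (hA : A ≤ M) (hD : D ∈ M) (hF : F ∈ M) : M = ⊤ := by
  rw [eq_top_iff]
  intro x _
  obtain ⟨a, ha, rfl | rfl | rfl | rfl⟩ := q.cov x
  · exact hA ha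
  · exact M.mul_mem hD (hA ha)
  · exact M.mul_mem hF (hA ha)
  · exact M.mul_mem hD (M.mul_mem hF (hA ha))

theorem cen {c : G} (h1 : ∀ a ∈ A, c * a = a * c) (h2 : c * D = D * c) (h3 : c * F = F * c) :
    ∀ x, x * c = c * x := by
  have := q.ind (M := Subgroup.centralizer {c})
    (fun a ha => Subgroup.mem_centralizer_singleton_iff.2 (h1 a ha).symm)
    (Subgroup.mem_centralizer_singleton_iff.2 h2.symm)
    (Subgroup.mem_centralizer_singleton_iff.2 h3.symm)
  intro x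
  have hx : x ∈ Subgroup.centralizer {c} := this ▸ trivial
  exact Subgroup.mem_centralizer_singleton_iff.1 hx

theorem k4 [A.Normal] : K4 (F : G ⧸ A) (D : G ⧸ A) := by
  refine ⟨fun e => q.f1 ((QuotientGroup.eq_one_iff _).1 e), (QuotientGroup.eq_one_iff _).2 q.f2,
    fun e => q.d1 ((QuotientGroup.eq_one_iff _).1 e), (QuotientGroup.eq_one_iff _).2 q.d2,
    fun e => q.df ?_, ?_⟩
  · rw [← QuotientGroup.eq_one_iff, QuotientGroup.mk_mul, e]
    exact (QuotientGroup.eq_one_iff _).2 q.f2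
  · have := (QuotientGroup.eq_one_iff _).2 q.w
    simp only [QuotientGroup.mk_mul, QuotientGroup.mk_inv] at this
    rw [mul_inv_eq_one, mul_inv_eq_iff_eq_mul] at this
    exact this

theorem k4top [A.Normal] : q.k4.V = ⊤ := by
  rw [eq_top_iff]
  rintro ⟨x⟩ -
  have : q.k4.V.comap (QuotientGroup.mk' A) = ⊤ := q.ind
    (fun a ha => by
      have : QuotientGroup.mk' A a = 1 := (QuotientGroup.eq_one_iff _).2 ha
      rw [Subgroup.mem_comap, this]; exact Subgroup.one_mem _) q.k4.em q.k4.dm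
  have hx : x ∈ q.k4.V.comap (QuotientGroup.mk' A) := this ▸ trivial
  exact hx

theorem card [Finite G] : Nat.card G = 4 * Nat.card A := by
  have := q.nm
  rw [Subgroup.card_eq_card_quotient_mul_card_subgroup A, ← Subgroup.card_top (G := G ⧸ A),
    ← q.k4top, q.k4.card]

theorem cm (x y : G) : x⁻¹ * (y⁻¹ * x * y) ∈ A := by
  have := q.nm
  rw [← QuotientGroup.eq]
  have sq : ∀ u : G ⧸ A, u * u = 1 := fun u => q.k4.sq u (q.k4top ▸ trivial)
  have iv : ∀ u : G ⧸ A, u⁻¹ = u := fun u => inv_eq_of_mul_eq_one_right (sq u)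
  simp only [QuotientGroup.mk_mul, QuotientGroup.mk_inv]
  rw [← iv ((y : G ⧸ A)⁻¹ * x), mul_inv_rev, inv_inv, iv, mul_assoc, sq, mul_one]

theorem outer [Finite G] (hG : IsPGroup 2 G) {z v : G} (h : NV4 z v) (hz : z ∈ A) (hv : v ∈ A) :
    ∃ θ, HT (cos A (hr D F)) (cos A (hc D F)) (cos A fun p => hr D F p * hc D F p) θ := by
  have := q.nm
  have M := q.k4.mdl
  rw [q.k4top] at M
  exact M.outer hG h hz hv cx4 (p2_2 _ _) (p2_1 _ _)

theorem red [Finite G] (hG : IsPGroup 2 G) (ih : IH G) {z v : G} (h : NV4 z v) {A₀ : Subgroup G}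
    [hA₀ : A₀.Normal] {y : G} (s : Stp A₀ y) (e : s.ext = A) (hz : z ∈ A₀) (hv : v ∈ A₀)
    (hD : D * D ∈ A₀) {a : G} (ha : a ∈ A₀) (hna : a * D ≠ D * a) : NO G := by
  have l : A₀ ≤ A := e ▸ s.le
  have yA : y ∈ A := e ▸ s.self
  have sD : Stp A₀ D := Stp.of_normal (fun a => q.d1 (l a)) hD
  have sy : Stp sD.ext y := by
    refine ⟨fun a => ?_, sD.le s.sq, fun x hx => ?_⟩
    · rcases a with a | a
      · exact s.nm a
      · exact q.d1 (by simpa using A.inv_mem ((A.mul_mem_cancel_right yA).1 (l a)))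
    · rcases sD.cases hx with a | ⟨b, hb, rfl⟩
      · exact sD.le (s.cj x a)
      · have m : D⁻¹ * y⁻¹ * D ∈ s.ext := by
          rw [e]; simpa using q.nm.conj_mem _ (A.inv_mem yA) D⁻¹
        have n : D⁻¹ * y⁻¹ * D ∉ A₀ := fun a => s.nm (by simpa using hA₀.mem_comm a)
        have := A₀.mul_mem ((s.par m s.self).2 (by simp [n, s.nm])) (s.cj b hb)
        exact Or.inr (by simpa [mul_assoc] using this)
  have lA : A ≤ sy.ext := e ▸ s.ext_le (sD.le.trans sy.le) sy.self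
  have sA : Stp A D := have := q.nm; Stp.of_normal q.d1 q.d2
  have lM : sy.ext ≤ sA.ext := sy.ext_le (sD.ext_le (l.trans sA.le) sA.self) (sA.le yA)
  have nF : F ∉ sy.ext := fun a => by
    rcases lM a with a | a
    · exact q.f1 a
    · exact q.df (by simpa [mul_assoc] using A.mul_mem q.d2 a)
  have := normal_of_comm q.cm lA
  have sF : Stp sy.ext F := Stp.of_normal nF (lA q.f2)
  exact ih.fin (K := sD.ext) (fun t => nF (sy.le (t ▸ trivial))) ⟨a, sD.le ha, D, sD.self, hna⟩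
    fun hK => rel4 hG h sy sF (q.ind (lA.trans sF.le) (sF.le (sy.le sD.self)) sF.self) hK
      (sD.le hz) (sD.le hv)

theorem small [Finite G] (hG : IsPGroup 2 G) (ih : IH G) {z v : G} (h : NV4 z v) (hz : z ∈ A)
    (hv : v ∈ A) (cA : ∀ x ∈ A, ∀ y ∈ A, x * y = y * x) :
    NO G ∨ ∃ ε ∈ A, ε * ε = 1 ∧ (∀ g, g * ε = ε * g) ∧
      ∀ a ∈ A, a⁻¹ * (D * a * D⁻¹) = 1 ∨ a⁻¹ * (D * a * D⁻¹) = ε := by
  have hA := q.nm
  let η : G → G := fun a => a⁻¹ * (D * a * D⁻¹)
  have ηA : ∀ a ∈ A, η a ∈ A := fun a ha => A.mul_mem (A.inv_mem ha) (hA.conj_mem a ha D)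
  have ηm : ∀ a ∈ A, ∀ b ∈ A, η (a * b) = η a * η b := by
    intro a ha b hb
    have : η (a * b) = b⁻¹ * η a * (D * b * D⁻¹) := by simp only [η]; group
    rw [this, cA _ (A.inv_mem hb) _ (ηA a ha), mul_assoc]
  have ηc : ∀ a ∈ A, ∀ g, η (g * a * g⁻¹) = g * η a * g⁻¹ := by
    intro a ha g
    have e := cA _ (q.cm D g) a ha
    have : g⁻¹ * D * g * a * (g⁻¹ * D * g)⁻¹ = D * a * D⁻¹ := by
      calc _ = D * (D⁻¹ * (g⁻¹ * D * g) * a) * (g⁻¹ * D * g)⁻¹ := by group
        _ = _ := by rw [e]; group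
    simp only [η]; rw [← this]; group
  by_cases hex : ∃ a ∈ A, ∃ b ∈ A, η a ≠ 1 ∧ η b ≠ 1 ∧ η a ≠ η b
  · left
    obtain ⟨a, ha, b, hb, n1, n2, n3⟩ := hex
    let B : Subgroup G :=
      { carrier := {x | x ∈ A ∧ (η x = 1 ∨ η x = z)}
        one_mem' := ⟨A.one_mem, Or.inl (by simp [η])⟩
        mul_mem' := by
          rintro x y ⟨hx, ex⟩ ⟨hy, ey⟩
          refine ⟨A.mul_mem hx hy, ?_⟩
          rw [ηm x hx y hy]
          rcases ex with ex | ex <;> rcases ey with ey | ey <;> simp [ex, ey, h.z2]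
        inv_mem' := by
          rintro x ⟨hx, ex⟩
          refine ⟨A.inv_mem hx, ?_⟩
          have := ηm x hx _ (A.inv_mem hx)
          rw [mul_inv_cancel, show η 1 = 1 by simp [η]] at this
          rw [← inv_eq_of_mul_eq_one_right this.symm]
          rcases ex with ex | ex <;> simp [ex, inv_eq_of_mul_eq_one_right h.z2] }
    have hB : B.Normal := ⟨by
      rintro x ⟨hx, ex⟩ g
      refine ⟨hA.conj_mem x hx g, ?_⟩
      rw [ηc x hx]
      rcases ex with ex | ex <;> simp [ex, h.zc g]⟩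
    obtain ⟨A₀, y, s, hA₀, l, e⟩ := topstep hG (B := B) (A := A) (fun x hx => hx.1) (fun l => by
      exact n3 (((l ha).2.resolve_left n1).trans ((l hb).2.resolve_left n2).symm))
    have l' : A₀ ≤ A := e ▸ s.le
    obtain ⟨c, hc, hn⟩ : ∃ c ∈ A₀, c * D ≠ D * c := by
      by_contra hh
      push Not at hh
      have t : ∀ c ∈ A₀, η c = 1 := fun c hc => by simp only [η]; rw [← hh c hc]; group
      have u : ∀ x ∈ A, η x ≠ 1 → η x = η y := by
        intro x hx n
        rcases s.cases (e ▸ hx) with a | ⟨c, hc, rfl⟩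
        · exact absurd (t x a) n
        · rw [ηm y (e ▸ s.self) c (l' hc), t c hc, mul_one]
      exact n3 ((u a ha n1).trans (u b hb n2).symm)
    refine q.red hG ih h s e (l ⟨hz, Or.inl ?_⟩) (l ⟨hv, ?_⟩) (l ⟨q.d2, Or.inl ?_⟩) hc hn
    · simp [η, h.zc D]
    · rcases h.conj D with e | e <;> simp [η, e]
    · simp only [η]; group
  · right
    push Not at hex
    by_cases h1 : ∀ a ∈ A, η a = 1
    · exact ⟨1, A.one_mem, by simp, by simp, fun a ha => Or.inl (h1 a ha)⟩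
    push Not at h1
    obtain ⟨a, ha, n⟩ := h1
    have all : ∀ b ∈ A, η b = 1 ∨ η b = η a := fun b hb =>
      (em _).imp_right fun n' => hex b hb a ha n' n
    refine ⟨η a, ηA a ha, ?_, fun g => ?_, all⟩
    · rw [← ηm a ha a ha]
      refine (all _ (A.mul_mem ha ha)).resolve_right fun e => n ?_
      rw [ηm a ha a ha] at e
      simpa using e
    · have := all _ (hA.conj_mem a ha g)
      rw [ηc a ha] at this
      rcases this with e | e
      · exact absurd (by simpa using e) n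
      · exact mul_inv_eq_iff_eq_mul.1 e

end Quad

theorem pickV {A : Subgroup G} {z v a b : G} (h : NV4 z v) (hz : z ∈ A) (hv : v ∈ A) (ha : a ∈ A)
    (hb : b ∈ A) (a2 : a * a = 1) (b2 : b * b = 1) (ac : ∀ g, g * a = a * g)
    (bc : ∀ g, g * b = b * g) :
    ∃ z' v', ∃ h' : NV4 z' v', z' ∈ A ∧ v' ∈ A ∧ a ∈ h'.k4.V ∧ b ∈ h'.k4.V := by
  have mk : ∀ c d : G, c ≠ 1 → d ≠ 1 → d ≠ c → c * c = 1 → d * d = 1 → (∀ g, g * c = c * g) →
      (∀ g, g * d = d * g) → NV4 c d := fun c d h1 h2 h3 h4 h5 h6 h7 =>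
    ⟨h1, h4, h6, h5, h2, h3, fun g => Or.inl (by rw [h7]; simp)⟩
  have one : ∀ c ∈ A, c * c = 1 → (∀ g, g * c = c * g) →
      ∃ z' v', ∃ h' : NV4 z' v', z' ∈ A ∧ v' ∈ A ∧ c ∈ h'.k4.V := by
    intro c hc c2 cc
    by_cases e : c = 1 ∨ c = z
    · exact ⟨z, v, h, hz, hv, (h.k4.mem_V c).2 (by tauto)⟩
    · push Not at e
      exact ⟨z, c, mk z c h.z1 e.1 e.2 h.z2 c2 h.zc cc, hz, hc, K4.em _⟩
  by_cases a1 : a = 1
  · obtain ⟨z', v', h', e1, e2, e3⟩ := one b hb b2 bc
    exact ⟨z', v', h', e1, e2, a1 ▸ Subgroup.one_mem _, e3⟩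
  by_cases b1 : b = 1 ∨ b = a
  · obtain ⟨z', v', h', e1, e2, e3⟩ := one a ha a2 ac
    refine ⟨z', v', h', e1, e2, e3, ?_⟩
    rcases b1 with rfl | rfl
    · exact Subgroup.one_mem _
    · exact e3
  · push Not at b1
    exact ⟨a, b, mk a b a1 b1.1 b1.2 a2 b2 ac bc, ha, hb, K4.dm _, K4.em _⟩

theorem Quad.unit [Finite G] (hG : IsPGroup 2 G) {A : Subgroup G} {D F : G} (q : Quad A D F)
    {z v : G} (h : NV4 z v) (hz : z ∈ A) (hv : v ∈ A) (cA : ∀ x ∈ A, ∀ y ∈ A, x * y = y * x)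
    (hc16 : Nat.card A = 16) {w δ : G} (hw : D * F * D⁻¹ * F⁻¹ = w) (k : K4 w δ) (hδ : δ ∈ A)
    (wc : ∀ g, g * w = w * g) (δc : ∀ g, g * δ = δ * g) : NO G := by
  have := q.nm
  have hA := hG.to_subgroup A
  have wA : w ∈ A := hw ▸ q.w
  obtain ⟨θ, hθ⟩ := q.outer hG h hz hv
  have e : ∀ x y : G, x * (1 * δ) * (w * 1 * y) = x * 1 * (1 * y) * (δ * w) := by
    intro x y
    rw [one_mul, mul_one, mul_one, one_mul, ← wc, mul_assoc, mul_assoc, ← mul_assoc δ, ← δc,
      mul_assoc]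
  have r1 : ∀ p : Fin 3, p + 1 ≠ 0 → hr D F p * 1 * (1 * hc D F (p + 2)) =
      hr D F (p + 1) * 1 * (1 * hc D F (p + 1)) := by
    intro p hp
    fin_cases p
    · simp [hr, hc]
    · simp [hr, hc]
    · exact absurd rfl hp
  have r0 : ∀ p : Fin 3, p + 1 = 0 → hr D F p * 1 * (1 * hc D F (p + 2)) = 1 * 1 * w := by
    intro p hp
    fin_cases p
    · exact absurd hp (by decide)
    · exact absurd hp (by decide)
    · simp [hr, hc, ← hw, mul_assoc]
  refine unit_cfg A (hexConfig q.d1 q.f1 q.df q.w) hθ cA (by omega) k.d1 k.d2 (fun p => p + 1)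
    (add_left_injective 1) (fun _ => 1) (fun _ => 1) (fun _ => δ) (fun _ => w)
    (fun _ => A.one_mem) (fun _ => A.one_mem) (fun _ => hδ) (fun _ => wA) (fun _ => k.e1) rfl
    (k.sb16 hA cA wA hδ hc16) r1 r0 (fun p hp => ?_) (fun p hp => ?_)
    (fun _ => k.symm.pp_ab hA cA hδ wA (by omega))
    (fun _ _ => ⟨w * δ, by simpa using k.e1, k.symm.mul.pp_ab hA cA hδ (A.mul_mem wA hδ) (by omega)⟩)
  · rw [e, e, r1 p hp]
  · rw [e, r0 p hp, one_mul, one_mul, one_mul, mul_one, ← mul_assoc, δc w]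

theorem Quad.main [Finite G] (hG : IsPGroup 2 G) (ih : IH G) (hc32 : 32 ≤ Nat.card G)
    {A : Subgroup G} {D F : G} (q : Quad A D F) {z₀ v₀ : G} (h₀ : NV4 z₀ v₀) (hz₀ : z₀ ∈ A)
    (hv₀ : v₀ ∈ A) (cA : ∀ x ∈ A, ∀ y ∈ A, x * y = y * x) (hn : D * F ≠ F * D) : NO G := by
  have hA := q.nm
  have pA := hG.to_subgroup A
  rcases q.small hG ih h₀ hz₀ hv₀ cA with a | ⟨a, ha, a2, ac, ae⟩
  · exact a
  rcases q.symm.small hG ih h₀ hz₀ hv₀ cA with b | ⟨b, hb, b2, bc, be⟩
  · exact b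
  obtain ⟨z, v, h, hz, hv, aV, bV⟩ := pickV h₀ hz₀ hv₀ ha hb a2 b2 ac bc
  have hV : h.k4.V.Normal := h.V_eq ▸ h.normal
  have VA := h.k4.V_le hz hv
  have aV' : ∀ x ∈ A, x⁻¹ * (D * x * D⁻¹) ∈ h.k4.V := fun x hx => by
    rcases ae x hx with e | e <;> simp [e, aV]
  have bV' : ∀ x ∈ A, x⁻¹ * (F * x * F⁻¹) ∈ h.k4.V := fun x hx => by
    rcases be x hx with e | e <;> simp [e, bV]
  have cV : ∀ x ∈ A, ∀ g, x⁻¹ * (g⁻¹ * x * g) ∈ h.k4.V := by
    intro x hx g
    have c : ∀ u, ∀ a ∈ A, u * a * x * (u * a)⁻¹ = u * x * u⁻¹ := fun u a ha => by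
      rw [mul_assoc u, cA a ha x hx]; group
    obtain ⟨a, ha, e | e | e | e⟩ := q.cov g⁻¹ <;> rw [← inv_inv g, e, inv_inv]
    · rw [cA a ha x hx]; simp
    · rw [c D a ha]; exact aV' x hx
    · rw [c F a ha]; exact bV' x hx
    · rw [← mul_assoc D, c _ a ha]
      have := h.k4.V.mul_mem (aV' x hx) (hV.conj_mem _ (bV' x hx) D)
      simpa [mul_assoc] using this
  obtain ⟨w, hw⟩ : ∃ w, D * F * D⁻¹ * F⁻¹ = w := ⟨_, rfl⟩
  have wA : w ∈ A := hw ▸ q.w
  have w1 : w ≠ 1 := fun e => hn (by rw [← hw, mul_inv_eq_one, mul_inv_eq_iff_eq_mul] at e; exact e)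
  have w2 : w * w = (w⁻¹⁻¹ * (D * w⁻¹ * D⁻¹)) * ((D * D)⁻¹ * (F * (D * D) * F⁻¹))⁻¹ := by
    have e : F * (D * D) * F⁻¹ = w⁻¹ * (D * w⁻¹ * D⁻¹) * (D * D) := by rw [← hw]; group
    have m := hA.conj_mem _ (A.inv_mem wA) D
    rw [e, cA _ (A.mul_mem (A.inv_mem wA) m) _ q.d2]
    generalize D * w⁻¹ * D⁻¹ = u
    group
  have cc := q.card
  obtain ⟨y, hy, s, hwy⟩ : ∃ y ∈ A, Stp h.k4.V y ∧ (w ∈ h.k4.V ∨ w = y) := by
    by_cases e : w ∈ h.k4.V
    · obtain ⟨y, hy, s⟩ := ab_step pA VA cA (fun a => by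
        have := Subgroup.card_le_of_le a; rw [h.k4.card] at this; omega)
      exact ⟨y, hy, s, Or.inl e⟩
    · exact ⟨w, wA, Stp.of_normal e (w2 ▸ h.k4.V.mul_mem (aV' _ (A.inv_mem wA))
        (h.k4.V.inv_mem (bV' _ q.d2))), Or.inr rfl⟩
  have NA := s.ext_le VA hy
  have hN := s.normal (cV y hy)
  have cN : Nat.card s.ext = 8 := by rw [s.card, h.k4.card]
  have wN : w ∈ s.ext := hwy.elim (fun a => s.le a) fun a => a ▸ s.self
  have fin : ∀ θ, HT (cos s.ext (hr D F)) (cos s.ext (hc D F))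
      (cos s.ext fun p => hr D F p * hc D F p) θ → NO G := by
    intro θ hθ
    refine hex8 h s (cV y hy) (cA y hy v hv) (fun e => q.d1 (NA e)) (fun e => q.f1 (NA e))
      (fun e => q.df (NA e)) (hw ▸ w1) (hw ▸ hwy) ?_ hθ
    have sq : ∀ X ε : G, ε * ε = 1 → (∀ g, g * ε = ε * g) →
        (y⁻¹ * (X * y * X⁻¹) = 1 ∨ y⁻¹ * (X * y * X⁻¹) = ε) → X * (y * y) = y * y * X := by
      intro X ε e2 ec e
      have : ∃ u, X * y = y * u * X ∧ u * u = 1 ∧ ∀ g, g * u = u * g := by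
        rcases e with e | e
        · exact ⟨1, by rw [← e]; group, by simp, by simp⟩
        · exact ⟨ε, by rw [← e]; group, e2, ec⟩
      obtain ⟨u, u1, u2, u3⟩ := this
      rw [← mul_assoc, u1, mul_assoc, u1, ← mul_assoc, ← mul_assoc, mul_assoc y u y, ← u3,
        ← mul_assoc y, mul_assoc _ u u, u2, mul_one]
    rintro u (rfl | rfl | rfl)
    · exact ⟨sq D a a2 ac (ae y hy), sq F b b2 bc (be y hy)⟩
    · rcases ae y hy with e | e <;> simp [e, ac]
    · rcases be y hy with e | e <;> simp [e, bc]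
  by_cases c16 : Nat.card A = 16
  swap
  · obtain ⟨θ, hθ⟩ := q.outer hG h hz hv
    have K := hexConfig q.d1 q.f1 q.df q.w
    obtain ⟨θ', hθ'⟩ := fill NA K.hc K.hs1 hθ
      (rel_ab' pA cA h.k4 NA (s.le h.k4.dm) (s.le h.k4.em) (by omega))
    exact fin _ hθ'
  obtain ⟨y', hy', s'⟩ := ab_step pA NA cA (fun a => by
    have := Subgroup.card_le_of_le a; omega)
  have eA : s'.ext = A := Subgroup.eq_of_le_of_card_ge (s'.ext_le NA hy') (by rw [s'.card]; omega)
  by_cases sq : D * D ∈ s.ext ∧ F * F ∈ s.ext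
  · by_cases nD : ∃ a ∈ s.ext, a * D ≠ D * a
    · obtain ⟨a, ha, n⟩ := nD
      exact q.red hG ih h s' eA (s.le h.k4.dm) (s.le h.k4.em) sq.1 ha n
    by_cases nF : ∃ a ∈ s.ext, a * F ≠ F * a
    · obtain ⟨a, ha, n⟩ := nF
      exact q.symm.red hG ih h s' eA (s.le h.k4.dm) (s.le h.k4.em) sq.2 ha n
    push Not at nD nF
    have cen : ∀ c ∈ s.ext, ∀ g, g * c = c * g := fun c hc =>
      q.cen (fun a ha => cA c (NA hc) a ha) (nD c hc) (nF c hc)
    have ww : w * w = 1 := by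
      rw [w2, cen _ (s.ext.inv_mem wN) D, cen _ sq.1 F]; group
    by_cases e : w = z
    · exact q.unit hG h hz hv cA c16 hw (e ▸ h.k4) hv (cen w wN) (cen v (s.le h.k4.em))
    · exact q.unit hG h hz hv cA c16 hw ⟨w1, ww, h.z1, h.z2, Ne.symm e, (h.zc w).symm⟩ hz
        (cen w wN) h.zc
  let π := QuotientGroup.mk' s.ext
  have hπ : ∀ x, π x = 1 ↔ x ∈ s.ext := fun x => QuotientGroup.eq_one_iff x
  have t1 : Stp ⊥ (π y') := stp_bot (fun e => s'.nm ((hπ _).1 e)) (by
    rw [← map_mul]; exact (hπ _).2 s'.sq)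
  have yc : ∀ g, π g * π y' = π y' * π g := fun g => by
    have := (hπ _).2 (s.le (cV y' hy' g))
    simp only [map_mul, map_inv] at this
    rw [inv_mul_eq_one, mul_assoc, eq_inv_mul_iff_mul_eq] at this
    exact this
  have m1 : ∀ x, π x ∈ t1.ext ↔ x ∈ A := fun x => by
    rw [t1.mem, ← eA, s'.mem, Subgroup.mem_bot, Subgroup.mem_bot, ← map_inv, ← map_mul, hπ, hπ]
  have t2 : Stp t1.ext (π F) := ⟨by rw [m1]; exact q.f1, by rw [← map_mul, m1]; exact q.f2,
    fun x hx => by rw [mul_assoc, comm_of_stp t1 (yc F) x hx]; simpa using hx⟩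
  obtain ⟨s2, l2, q2, M2⟩ := (mdl1 t1).step t2 (Cj.of_comm (mdl1 t1) (comm_of_stp t1 (yc F)))
  have cD : ∀ x ∈ t2.ext, x * π D = π D * x := by
    have := (hπ _).2 (hw ▸ wN)
    simp only [map_mul, map_inv] at this
    rw [mul_inv_eq_one, mul_inv_eq_iff_eq_mul] at this
    intro x hx
    rcases t2.cases hx with a | ⟨a, ha, rfl⟩
    · exact comm_of_stp t1 (yc D) x a
    · rw [mul_assoc, comm_of_stp t1 (yc D) a ha, ← mul_assoc, ← this, mul_assoc]
  have t3 : Stp t2.ext (π D) := by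
    refine ⟨fun e => ?_, t2.le (by rw [← map_mul, m1]; exact q.d2),
      fun x hx => by rw [mul_assoc, cD x hx]; simpa using hx⟩
    rcases e with e | e
    · exact q.d1 ((m1 _).1 e)
    · rw [← map_inv, ← map_mul, m1] at e
      exact q.symm.df (by simpa [mul_assoc] using A.mul_mem q.f2 e)
  obtain ⟨s3, l3, q3⟩ := (mdl1 t1).surj (π D * π D) (by rw [← map_mul, m1]; exact q.d2)
  have M3 := M2.ext t3.nm (fun _ => t3.mem) (Cj.of_comm M2 cD) (s := s3) (by omega)
    (by rw [xpi_lo l3]; exact q3)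
  have top : t3.ext = ⊤ := eq_top_of_card (by
    have := Subgroup.card_eq_card_quotient_mul_card_subgroup s.ext
    rw [cN] at this
    rw [M3.card]; omega)
  rw [top] at M3
  have e4 : xpi (2 + 2) (xpi 2 (fun u => π y' ^ u) (π F)) (π D) 4 = D :=
    xpi_hi (u := 0).trans (by rw [M2.zero, mul_one]; rfl)
  have e2 : xpi (2 + 2) (xpi 2 (fun u => π y' ^ u) (π F)) (π D) 2 = F := by
    rw [xpi_lo (by omega)]
    exact xpi_hi (u := 0).trans (by rw [pow_zero, mul_one]; rfl)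
  have zN := s.le h.k4.dm
  have vN := s.le h.k4.em
  interval_cases s2 <;> interval_cases s3
  · refine absurd ⟨(hπ _).1 ?_, (hπ _).1 ?_⟩ sq
    · rw [map_mul, ← q3, pow_zero]
    · rw [map_mul, ← q2, pow_zero]
  · obtain ⟨θ, hθ⟩ := M3.outer hG h zN vN cx8_01 e4 e2; exact fin θ hθ
  · obtain ⟨θ, hθ⟩ := M3.outer hG h zN vN cx8_10 e4 e2; exact fin θ hθ
  · obtain ⟨θ, hθ⟩ := M3.outer hG h zN vN cx8_11 e4 e2; exact fin θ hθ

theorem caseB2 [Finite G] (hG : IsPGroup 2 G) (ih : IH G) (hc32 : 32 ≤ Nat.card G)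
    (hn : ∃ a b : G, a * b ≠ b * a) {A : Subgroup G} {D F : G} (q : Quad A D F) {z v : G}
    (h : NV4 z v) (hz : z ∈ A) (hv : v ∈ A) : NO G := by
  have := q.nm
  by_cases nA : ∃ a ∈ A, ∃ b ∈ A, a * b ≠ b * a
  · exact ih.fin (K := A) (fun e => q.d1 (e ▸ trivial)) nA fun _ => rel_norm hG h hz hv (Or.inl q.card)
  push Not at nA
  by_cases e : D * F = F * D
  swap
  · exact q.main hG ih hc32 h hz hv nA e
  by_cases nD : ∃ a ∈ A, a * D ≠ D * a
  · obtain ⟨a, ha, n⟩ := nD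
    refine (q.mulF ha).main hG ih hc32 h hz hv nA fun e' => n ?_
    rw [← mul_assoc, e, mul_assoc, mul_assoc] at e'
    exact (mul_left_cancel e').symm
  by_cases nF : ∃ a ∈ A, a * F ≠ F * a
  · obtain ⟨a, ha, n⟩ := nF
    refine (q.symm.mulF ha).main hG ih hc32 h hz hv nA fun e' => n ?_
    rw [← mul_assoc, ← e, mul_assoc, mul_assoc] at e'
    exact (mul_left_cancel e').symm
  push Not at nD nF
  obtain ⟨a, b, hab⟩ := hn
  have c1 : ∀ c ∈ A, ∀ x, x * c = c * x := fun c hc => q.cen (nA c hc) (nD c hc) (nF c hc)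
  have c2 := q.cen (fun a ha => (nD a ha).symm) rfl e
  have c3 := q.cen (fun a ha => (nF a ha).symm) e.symm rfl
  exact absurd (q.cen (fun x hx => c1 x hx b) (c2 b) (c3 b) a) hab

theorem two_step [Finite G] (hG : IsPGroup 2 G) (ih : IH G) (hn : ∃ a b : G, a * b ≠ b * a) :
    NO G := by
  obtain ⟨n, hc⟩ := IsPGroup.iff_card.1 hG
  have n3 : 3 ≤ n := by
    by_contra h
    obtain ⟨a, b, hab⟩ := hn
    have : n = 0 ∨ n = 1 ∨ n = 2 := by omega
    rcases this with rfl | rfl | rfl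
    · have := two_lt_card (K := (⊤ : Subgroup G)) ⟨a, trivial, b, trivial, hab⟩
      rw [Subgroup.card_top] at this; omega
    · have := two_lt_card (K := (⊤ : Subgroup G)) ⟨a, trivial, b, trivial, hab⟩
      rw [Subgroup.card_top] at this; omega
    · exact hab ((IsPGroup.isMulCommutative_of_card_eq_prime_sq hc).is_comm.comm a b)
  by_cases c8 : n = 3
  · exact no_8 hG (by rw [hc, c8]; rfl) hn
  by_cases c16 : n = 4
  · exact no_16 hG (by rw [hc, c16]; rfl) hn
  have hc32 : 32 ≤ Nat.card G := by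
    rw [hc]; exact Nat.pow_le_pow_right (n := 2) (by omega) (show 5 ≤ n by omega)
  by_cases hno : ∀ z v : G, ¬NV4 z v
  · exact caseA hG ih hc32 hn hno
  push Not at hno
  obtain ⟨z, v, h⟩ := hno
  have hV : h.k4.V.Normal := h.V_eq ▸ h.normal
  obtain ⟨M, D, s, hM, l, e⟩ := topstep hG (B := h.k4.V) (A := ⊤) le_top
    (not_top_le (by rw [h.k4.card]; omega))
  let H := (Subgroup.zpowers (D : G ⧸ h.k4.V)).comap (QuotientGroup.mk' h.k4.V)
  rcases eq_top_or_exists_le_coatom H with t | ⟨M', c, l'⟩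
  · refine caseB1 hG hc32 hn h (g := D) fun x => ?_
    obtain ⟨i, hi⟩ : x ∈ H := t ▸ trivial
    exact ⟨i, QuotientGroup.eq.1 hi⟩
  have := hG.isNilpotent
  have hM' : M'.Normal := Subgroup.NormalizerCondition.normal_of_coatom M'
    (Group.normalizerCondition_of_isNilpotent) c
  have VM' : h.k4.V ≤ M' := fun x hx => l' (by
    have : QuotientGroup.mk' h.k4.V x = 1 := (QuotientGroup.eq_one_iff _).2 hx
    rw [Subgroup.mem_comap, this]; exact Subgroup.one_mem _)
  have DM' : D ∈ M' := l' (Subgroup.mem_zpowers _)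
  obtain ⟨F, F1, F2⟩ : ∃ F ∈ M, F ∉ M' := by
    by_contra a
    push Not at a
    exact c.1 (top_le_iff.1 (e ▸ s.ext_le a DM'))
  obtain ⟨y, -, y1, y2, -⟩ := step hG (H := M') (L := ⊤) (by simpa using c.1)
  have s' : Stp M' y := Stp.of_normal y1 y2
  have e' : s'.ext = ⊤ := c.2 _ s'.lt
  have p1 : ∀ a b, a * b ∈ M ↔ (a ∈ M ↔ b ∈ M) := fun a b => s.par (e ▸ trivial) (e ▸ trivial)
  have p2 : ∀ a b, a * b ∈ M' ↔ (a ∈ M' ↔ b ∈ M') := fun a b =>
    s'.par (e' ▸ trivial) (e' ▸ trivial)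
  have D1 := s.nm
  refine caseB2 hG ih hc32 hn (A := M ⊓ M') (D := D) (F := F) ⟨inferInstance, ?_, ?_, ?_, ?_, ?_,
    ?_, fun x => ?_⟩ h ⟨l h.k4.dm, VM' h.k4.dm⟩ ⟨l h.k4.em, VM' h.k4.em⟩
  all_goals try simp [p1, p2, D1, DM', F1, F2]
  by_cases a : x ∈ M <;> by_cases b : x ∈ M'
  · exact ⟨x, ⟨a, b⟩, by simp⟩
  · exact ⟨F⁻¹ * x, by simp [p1, p2, a, b, F1, F2], by simp⟩
  · exact ⟨D⁻¹ * x, by simp [p1, p2, a, b, D1, DM'], by simp⟩
  · exact ⟨F⁻¹ * (D⁻¹ * x), by simp [p1, p2, a, b, D1, DM', F1, F2], by simp⟩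

universe u in
theorem two_aux (n : ℕ) : ∀ (G : Type u) [Group G] [Finite G], Nat.card G = n → IsPGroup 2 G →
    (∃ a b : G, a * b ≠ b * a) → NO G := by
  induction n using Nat.strong_induction_on with
  | _ n ih =>
  intro G _ _ hc hG hn
  refine two_step hG (fun K hK ⟨a, ha, b, hb, hab⟩ => ?_) hn
  have lt : Nat.card K < n := by
    rw [← hc, ← Subgroup.card_top (G := G)]
    exact card_lt_of_not_le le_top (by simpa using hK)
  have := (ih _ lt K rfl (hG.to_subgroup K)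
    ⟨⟨a, ha⟩, ⟨b, hb⟩, fun e => hab (congrArg Subtype.val e)⟩).toIn
  exact ⟨this, this.cm (two_lt_card ⟨a, ha, b, hb, hab⟩)⟩

theorem two_group [Finite G] (hG : IsPGroup 2 G) (hn : ∃ a b : G, a * b ≠ b * a) : NO G :=
  two_aux _ G rfl hG hn

end Pool.Agent.Work.MP_66fdf3_co
end

-- merged part: Pool.Agent.Work.MP_66fdf3_co.Main
section
namespace Pool.Agent.Work.MP_66fdf3_co

open Function

variable {G : Type*} [Group G]

universe u in
theorem two_compl_aux (n : ℕ) : ∀ (G : Type u) [Group G] [Finite G], Nat.card G = n →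
    Group.IsSolvable G → ∃ Q : Subgroup G, Odd (Nat.card Q) ∧ ∃ k, Nat.card G = Nat.card Q * 2 ^ k := by
  induction n using Nat.strong_induction_on with
  | _ n ih =>
  intro G _ _ hn hG
  rcases subsingleton_or_nontrivial G with h | h
  · exact ⟨⊥, by simp, 0, by simp⟩
  obtain ⟨N, ⟨hN, N1⟩, hm⟩ := Set.Finite.exists_minimal
    (s := {X : Subgroup G | X.Normal ∧ X ≠ ⊥}) (Set.toFinite _) ⟨⊤, inferInstance, top_ne_bot⟩
  have mn : ∀ X : Subgroup G, X.Normal → X ≤ N → X = ⊥ ∨ X = N := fun X a b => by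
    by_cases e : X = ⊥
    · exact Or.inl e
    · exact Or.inr (le_antisymm b (hm ⟨a, e⟩ b))
  have lt := Group.IsSolvable.commutator_lt_of_ne_bot N1
  have c : ∀ x ∈ N, ∀ y ∈ N, x * y = y * x := by
    have := (mn _ inferInstance lt.le).resolve_right lt.ne
    intro x hx y hy
    have a := Subgroup.commutator_mem_commutator hx hy
    rwa [this, Subgroup.mem_bot, commutatorElement_eq_one_iff_mul_comm] at a
  let T : Subgroup G :=
    { carrier := {x | x ∈ N ∧ x * x = 1}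
      one_mem' := ⟨N.one_mem, by simp⟩
      mul_mem' := by
        rintro x y ⟨hx, a⟩ ⟨hy, b⟩
        exact ⟨N.mul_mem hx hy, by
          rw [mul_assoc, ← mul_assoc y, c y hy x hx, mul_assoc, b, mul_one, a]⟩
      inv_mem' := by
        rintro x ⟨hx, a⟩
        exact ⟨N.inv_mem hx, by rw [← mul_inv_rev, a, inv_one]⟩ }
  have hT : T.Normal := ⟨by
    rintro x ⟨hx, a⟩ g
    exact ⟨hN.conj_mem x hx g, by
      rw [show g * x * g⁻¹ * (g * x * g⁻¹) = g * (x * x) * g⁻¹ by group, a]; simp⟩⟩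
  have e := Subgroup.card_eq_card_quotient_mul_card_subgroup N
  have hlt : Nat.card (G ⧸ N) < n := by
    rw [← hn, e]
    exact lt_mul_of_one_lt_right Nat.card_pos (N.one_lt_card_iff_ne_bot.2 N1)
  obtain ⟨Q, hQ, k, hk⟩ := ih _ hlt (G ⧸ N) rfl inferInstance
  let Q₁ := Q.comap (QuotientGroup.mk' N)
  have i1 : Q₁.index = 2 ^ k := by
    rw [Subgroup.index_comap_of_surjective _ (QuotientGroup.mk'_surjective N)]
    exact Nat.eq_of_mul_eq_mul_left Nat.card_pos (Q.card_mul_index.trans hk)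
  have c1 : Nat.card Q₁ = Nat.card Q * Nat.card N := by
    have := Q₁.card_mul_index
    rw [i1, e, hk, mul_right_comm] at this
    exact Nat.eq_of_mul_eq_mul_right (by positivity) this
  rcases mn T hT (fun x hx => hx.1) with t | t
  · refine ⟨Q₁, ?_, k, by rw [← i1, Q₁.card_mul_index]⟩
    rw [c1]
    refine hQ.mul (Nat.not_even_iff_odd.1 fun a => ?_)
    obtain ⟨x, hx⟩ := exists_prime_orderOf_dvd_card' (G := N) 2 a.two_dvd
    have : (x : G) ∈ T := ⟨x.2, by
      have := pow_orderOf_eq_one x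
      rw [hx, sq] at this
      exact congrArg Subtype.val this⟩
    rw [t, Subgroup.mem_bot] at this
    rw [show x = 1 from Subtype.ext this, orderOf_one] at hx
    omega
  · have p : IsPGroup 2 N := fun x => ⟨1, Subtype.ext (by
      have : (x : G) ∈ T := t.ge x.2
      simpa [sq] using this.2)⟩
    obtain ⟨j, hj⟩ := IsPGroup.iff_card.1 p
    have l : N ≤ Q₁ := fun x hx => by
      have : QuotientGroup.mk' N x = 1 := (QuotientGroup.eq_one_iff _).2 hx
      rw [Subgroup.mem_comap, this]; exact Q.one_mem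
    have c2 : Nat.card (N.subgroupOf Q₁) = Nat.card N :=
      Nat.card_congr (Subgroup.subgroupOfEquivOfLe l).toEquiv
    have i2 : (N.subgroupOf Q₁).index = Nat.card Q := by
      have := (N.subgroupOf Q₁).card_mul_index
      rw [c2, c1, mul_comm] at this
      exact Nat.eq_of_mul_eq_mul_right Nat.card_pos this
    obtain ⟨H, hH⟩ := Subgroup.exists_left_complement'_of_coprime (N := N.subgroupOf Q₁)
      (by rw [c2, i2, hj]; exact Nat.Coprime.pow_left j (Nat.coprime_two_left.2 hQ))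
    have c3 : Nat.card (H.map Q₁.subtype) = Nat.card Q := by
      rw [Subgroup.card_map_of_injective Q₁.subtype_injective, ← hH.index_eq_card, i2]
    exact ⟨H.map Q₁.subtype, c3 ▸ hQ, k + j, by rw [c3, e, hk, hj]; ring⟩

theorem two_compl [Finite G] (h : Group.IsSolvable G) :
    ∃ Q : Subgroup G, Odd (Nat.card Q) ∧ ∃ k, Q.index = 2 ^ k := by
  obtain ⟨Q, h1, k, h2⟩ := two_compl_aux _ G rfl h
  exact ⟨Q, h1, k, Nat.eq_of_mul_eq_mul_left Nat.card_pos (Q.card_mul_index.trans h2)⟩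

theorem compl_sylow [Finite G] {Q : Subgroup G} (hQ : Odd (Nat.card Q)) {k : ℕ}
    (hk : Q.index = 2 ^ k) (S : Sylow 2 G) : ∀ g, ∃ u ∈ Q, u⁻¹ * g ∈ S := by
  have e : Nat.card S = 2 ^ k := by
    rw [S.card_eq_multiplicity, ← Q.card_mul_index, hk,
      Nat.factorization_mul Nat.card_pos.ne' (by positivity)]
    simp [Nat.factorization_eq_zero_of_not_dvd hQ.not_two_dvd_nat, Nat.prime_two.factorization_pow]
  have := Subgroup.isComplement'_of_coprime (H := Q) (K := S)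
    (by rw [← Q.card_mul_index, hk]; exact congrArg _ e)
    (by rw [show Nat.card (S : Subgroup G) = 2 ^ k from e]
        exact Nat.Coprime.pow_right k (Nat.coprime_two_right.2 hQ))
  intro g
  obtain ⟨⟨u, s⟩, rfl, -⟩ := this.existsUnique g
  exact ⟨u, u.2, by simp⟩

theorem rel_sylow [Finite G] {Q S K : Subgroup G} (hQ : Odd (Nat.card Q)) (hS : IsPGroup 2 S)
    (h : ∀ g, ∃ u ∈ Q, u⁻¹ * g ∈ S) (cm : CMin S) (hK : S ≤ K) : RelIn ⊤ K := by
  have od : ∀ u ∈ Q, Odd (orderOf u) := fun u hu =>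
    Odd.of_dvd_nat hQ (Subgroup.orderOf_dvd_natCard Q hu)
  have k : ∀ x y : Q, (x : G)⁻¹ * y ∈ S → x = y := fun x y e => Subtype.ext
    (inv_mul_eq_one.1 (odd_two hS (od _ (Q.mul_mem (Q.inv_mem x.2) y.2)) e
      (Subgroup.mem_zpowers _)))
  refine hp_system hK cm (J := Q) (fun j => j) (fun j => j) (fun g => ?_) k
    (fun j j' e => sq_inj_odd hQ (k (j * j) (j' * j') e)) fun j hj => ⟨hj, fun e => hj ?_⟩
  · obtain ⟨u, hu, e⟩ := h g; exact ⟨⟨u, hu⟩, e⟩
  · obtain ⟨q, hq⟩ := od j j.2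
    have := K.pow_mem e (q + 1)
    rwa [← sq, ← pow_mul, show 2 * (q + 1) = orderOf (j : G) + 1 by omega, pow_succ,
      pow_orderOf_eq_one, one_mul] at this

theorem no_of_compl [Finite G] {Q : Subgroup G} (hQ : Odd (Nat.card Q)) {k : ℕ}
    (hk : Q.index = 2 ^ k) (he : Even (Nat.card (commutator G))) : NO G := by
  obtain ⟨S⟩ : Nonempty (Sylow 2 G) := inferInstance
  have hS := S.isPGroup'
  have hc := compl_sylow hQ hk S
  by_cases na : ∃ a ∈ (S : Subgroup G), ∃ b ∈ (S : Subgroup G), a * b ≠ b * a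
  · obtain ⟨a, ha, b, hb, hab⟩ := na
    have no := two_group hS ⟨⟨a, ha⟩, ⟨b, hb⟩, fun e => hab (congrArg Subtype.val e)⟩
    have c := two_lt_card ⟨a, ha, b, hb, hab⟩
    exact no.of_sub (rel_sylow hQ hS hc (no.toIn.cm c) le_rfl) c
  push Not at na
  have nb : ¬Subgroup.normalizer (S : Set G) ≤ Subgroup.centralizer (S : Set G) := by
    intro hP
    apply MonoidHom.not_dvd_card_ker_transferSylow S hP
    refine he.two_dvd.trans (Subgroup.card_dvd_of_le ?_)
    rw [commutator, Subgroup.commutator_le]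
    intro a _ b _
    rw [MonoidHom.mem_ker, map_commutatorElement, commutatorElement_eq_one_iff_mul_comm]
    exact Subtype.ext (na _ (Subtype.prop _) _ (Subtype.prop _))
  obtain ⟨g, g1, g2⟩ := SetLike.not_le_iff_exists.1 nb
  obtain ⟨u, hu, us⟩ := hc g
  have un : u ∈ Subgroup.normalizer (S : Set G) := by
    have := Subgroup.mul_mem _ g1 (Subgroup.inv_mem _ (Subgroup.le_normalizer us))
    simpa using this
  have uc : ∃ s ∈ (S : Subgroup G), s * u ≠ u * s := by
    by_contra a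
    push Not at a
    apply g2
    rw [Subgroup.mem_centralizer_iff]
    intro s hs
    rw [← mul_inv_cancel_left u g, ← mul_assoc, a s hs, mul_assoc, na s hs _ us, ← mul_assoc u]
  have cj : ∀ i : ℤ, ∀ x ∈ (S : Subgroup G), (u ^ i)⁻¹ * x * u ^ i ∈ (S : Subgroup G) := by
    intro i x hx
    have := (Subgroup.mem_normalizer_iff.1 (Subgroup.inv_mem _ (Subgroup.zpow_mem _ un i)) x).1 hx
    simpa using this
  let K : Subgroup G :=
    { carrier := {x | ∃ i : ℤ, (u ^ i)⁻¹ * x ∈ (S : Subgroup G)}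
      one_mem' := ⟨0, by simp⟩
      mul_mem' := by
        rintro x y ⟨i, hi⟩ ⟨j, hj⟩
        refine ⟨i + j, ?_⟩
        have := Subgroup.mul_mem _ (cj j _ hi) hj
        simpa [zpow_add, mul_assoc] using this
      inv_mem' := by
        rintro x ⟨i, hi⟩
        refine ⟨-i, ?_⟩
        have := cj (-i) _ (Subgroup.inv_mem _ hi)
        simpa [mul_assoc] using this }
  have SK : (S : Subgroup G) ≤ K := fun x hx => ⟨0, by simpa using hx⟩
  have uK : u ∈ K := ⟨1, by simp⟩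
  have hN : ((S : Subgroup G).subgroupOf K).Normal := ⟨fun x hx y => by
    rw [Subgroup.mem_subgroupOf] at hx ⊢
    obtain ⟨i, hi⟩ := y.2
    have := cj (-i) _ (Subgroup.mul_mem _ (Subgroup.mul_mem _ hi hx) (Subgroup.inv_mem _ hi))
    simpa [mul_assoc] using this⟩
  have od : Odd (orderOf u) := Odd.of_dvd_nat hQ (Subgroup.orderOf_dvd_natCard Q hu)
  obtain ⟨s, hs, su⟩ := uc
  have no : NO K := ab_case (S := (S : Subgroup G).subgroupOf K) (hS.comap_subtype)
    (fun x hx y hy => Subtype.ext (na _ hx _ hy)) (g := ⟨u, uK⟩) (by rwa [← Subgroup.orderOf_coe])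
    (fun x => by
      obtain ⟨i, hi⟩ := x.2
      exact ⟨i, by simpa [Subgroup.mem_subgroupOf] using hi⟩)
    ⟨⟨s, SK hs⟩, hs, fun e => su (congrArg Subtype.val e)⟩
  obtain ⟨τ, hτ, τ2, τ1⟩ := exists_tau (S := (S : Subgroup G).subgroupOf K) (hS.comap_subtype)
    (fun x hx y hy => Subtype.ext (na _ hx _ hy)) (g := ⟨u, uK⟩) (by rwa [← Subgroup.orderOf_coe])
    ⟨⟨s, SK hs⟩, hs, fun e => su (congrArg Subtype.val e)⟩
  have σS := cjp_mem (⟨u, uK⟩ : K) (-1) hτ
  have τ0 : τ ≠ 1 := by rintro rfl; exact τ1 (cjp_one _ _)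
  have k4 : K4 (τ : G) (cjp (⟨u, uK⟩ : K) (-1) τ : K) := ⟨by simpa using τ0,
    congrArg Subtype.val τ2, by simpa using cjp_ne _ _ τ0,
    by rw [← Subgroup.coe_mul, ← cjp_mul, τ2, cjp_one]; rfl, fun e => τ1 (Subtype.ext e),
    na _ σS _ hτ⟩
  exact no.of_sub (rel_sylow hQ hS hc (k4.cmIn hS hτ σS na) SK)
    (two_lt_card ⟨s, SK hs, u, uK, su⟩)

theorem main_compl [Finite G] (h2 : Nat.card G ≠ 2)
    (h : Group.IsSolvable G ∨ ∃ Q : Subgroup G, Odd (Nat.card Q) ∧ ∃ k, Q.index = 2 ^ k) :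
    HasNearOrthogonalMate G ↔ Even (Nat.card (commutator G)) := by
  obtain ⟨Q, hQ, k, hk⟩ := h.elim two_compl id
  exact ⟨necessity h2, fun he => (no_of_compl hQ hk he).mate⟩

end Pool.Agent.Work.MP_66fdf3_co
end

-- merged part: Pool.Agent.Work.MP_66fdf3_co.Full.G9
section
/-!
`rel_of_bp`: section 0 of the write-up; `hp_system` with `S = K`, `J = G ⧸ K`, `X b = h * g b`,
`W b = b.out`; `QuotientGroup.eq`.
`compl_of_odd`: for `x ∈ P`, `n ∈ N(P)` the commutator lies in `P` and in the image of `commutator K`, its order is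
a power of two and odd; so `normalizer ≤ centralizer`, `MonoidHom.ker_transferSylow_isComplement'`.
`compl_of_normal`: `Subgroup.exists_right_complement'_of_coprime`, `Sylow.card_coprime_index`.
`no_step`: strong induction is done in `Final`; here only the step.  If `N(P) = ⊤` use `compl_of_normal`;
otherwise take a coatom `K` above `N(P)` (`eq_top_or_exists_le_coatom`), `Nat.card K < Nat.card G`; if
`commutator K` has even order then `2 < Nat.card K` (a group of order `≤ 2` is cyclic).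
-/

namespace Pool.Agent.Work.MP_66fdf3_co.Full

open Finset Matrix

variable {G : Type} [Group G] [Finite G]

theorem rel_of_bp {K : Subgroup G} (hc : CMin K) (h : BP G ((1 : G) : G ⧸ K)) : RelIn ⊤ K := by
  obtain ⟨σ, π, h⟩ := h
  choose g h1 h2 using h
  obtain ⟨u, hu⟩ : ∃ u, u = (g ((1 : G) : G ⧸ K))⁻¹ := ⟨_, rfl⟩
  have key : ∀ x : G, (x : G ⧸ K) = x • ((1 : G) : G ⧸ K) := fun x => by simp
  have eX : ∀ j, ((u * g j : G) : G ⧸ K) = u • σ j := fun j => by rw [key, mul_smul, h1]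
  have eW : ∀ j : G ⧸ K, ((j.out : G) : G ⧸ K) = j := fun j => j.out_eq'
  have eZ : ∀ j, ((u * g j * j.out : G) : G ⧸ K) = u • π j := fun j => by
    rw [key, mul_smul, ← key, eW, mul_smul, h2]
  have mK : ∀ x ∈ K, (x : G ⧸ K) = ((1 : G) : G ⧸ K) := fun x hx =>
    QuotientGroup.eq.2 (by simpa using hx)
  refine hp_system le_rfl hc (fun j : G ⧸ K => u * g j) (fun j => j.out)
    (fun x => ⟨σ.symm (u⁻¹ • (x : G ⧸ K)), QuotientGroup.eq.1 ?_⟩) (fun j j' e => ?_)
    (fun j j' e => ?_) fun j hj => ?_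
  · rw [eX, Equiv.apply_symm_apply, smul_inv_smul]
  · rw [← eW j, ← eW j']
    exact QuotientGroup.eq.2 e
  · have := QuotientGroup.eq.2 e
    rw [eZ, eZ] at this
    exact π.injective (MulAction.injective u this)
  · have hne : j ≠ ((1 : G) : G ⧸ K) := by
      rintro rfl
      exact hj (by simp [hu])
    refine ⟨fun e => hne ((eW j).symm.trans (mK _ e)), fun e => hne ?_⟩
    have := mK _ e
    rw [eZ, hu, inv_smul_eq_iff, h2] at this
    exact π.injective this

theorem compl_of_odd (P : Sylow 2 G) {K : Subgroup G}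
    (hN : Subgroup.normalizer ((P : Subgroup G) : Set G) ≤ K) (ho : ¬ Even (Nat.card (commutator K))) :
    ∃ Q : Subgroup G, Odd (Nat.card Q) ∧ ∃ k, Q.index = 2 ^ k := by
  have hP : Subgroup.normalizer ((P : Subgroup G) : Set G) ≤
      Subgroup.centralizer ((P : Subgroup G) : Set G) := by
    intro n hn
    rw [Subgroup.mem_centralizer_iff]
    intro x hx
    have h1 : n * x * n⁻¹ * x⁻¹ ∈ (P : Subgroup G) :=
      Subgroup.mul_mem _ ((Subgroup.mem_normalizer_iff.1 hn x).1 hx) (Subgroup.inv_mem _ hx)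
    obtain ⟨k, hk⟩ := IsPGroup.iff_orderOf.1 P.isPGroup' ⟨_, h1⟩
    have h2 := Subgroup.orderOf_dvd_natCard (commutator K) (Subgroup.commutator_mem_commutator
      (Subgroup.mem_top (⟨n, hN hn⟩ : K)) (Subgroup.mem_top ⟨x, hN (Subgroup.le_normalizer hx)⟩))
    rw [← Subgroup.orderOf_coe] at hk h2
    have h3 : orderOf (n * x * n⁻¹ * x⁻¹) ∣ Nat.card (commutator K) := h2
    have h4 : orderOf (n * x * n⁻¹ * x⁻¹) = 2 ^ k := hk
    rcases k with _ | k
    · rw [pow_zero, orderOf_eq_one_iff, mul_inv_eq_one, mul_inv_eq_iff_eq_mul] at h4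
      exact h4.symm
    · exact absurd (even_iff_two_dvd.2 ((dvd_pow_self 2 k.succ_ne_zero).trans (h4 ▸ h3))) ho
  obtain ⟨k, hk⟩ := IsPGroup.iff_card.1 P.isPGroup'
  exact ⟨_, Nat.not_even_iff_odd.1 fun e =>
    MonoidHom.not_dvd_card_ker_transferSylow P hP e.two_dvd, k,
    (MonoidHom.ker_transferSylow_isComplement' P hP).symm.index_eq_card.trans hk⟩

theorem compl_of_normal (P : Sylow 2 G) (hN : Subgroup.normalizer ((P : Subgroup G) : Set G) = ⊤) :
    ∃ Q : Subgroup G, Odd (Nat.card Q) ∧ ∃ k, Q.index = 2 ^ k := by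
  have : (P : Subgroup G).Normal := Subgroup.normalizer_eq_top_iff.1 hN
  obtain ⟨Q, hQ⟩ := Subgroup.exists_right_complement'_of_coprime P.card_coprime_index
  obtain ⟨k, hk⟩ := IsPGroup.iff_card.1 P.isPGroup'
  exact ⟨Q, Nat.not_even_iff_odd.1 fun e => P.not_dvd_index (hQ.symm.index_eq_card ▸ e.two_dvd), k,
    hQ.index_eq_card.trans hk⟩

theorem no_step (hBP : ∀ K : Subgroup G, Prim0 G (G ⧸ K) → BP G ((1 : G) : G ⧸ K))
    (ih : ∀ K : Subgroup G, Nat.card K < Nat.card G → Even (Nat.card (commutator K)) → NO K)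
    (he : Even (Nat.card (commutator G))) : NO G := by
  obtain ⟨P⟩ : Nonempty (Sylow 2 G) := inferInstance
  rcases eq_top_or_exists_le_coatom (Subgroup.normalizer ((P : Subgroup G) : Set G)) with h | ⟨K, hK, hN⟩
  · obtain ⟨Q, h1, k, h2⟩ := compl_of_normal P h
    exact no_of_compl h1 h2 he
  by_cases ho : Even (Nat.card (commutator K))
  · have hlt : Nat.card K < Nat.card G := by
      refine lt_of_le_of_ne (Subgroup.card_le_card_group K) fun e => hK.1 ?_
      exact Subgroup.eq_top_of_card_eq K e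
    have h2 : 2 < Nat.card K := by
      refine two_lt_card ?_
      by_contra hc
      push Not at hc
      have : commutator K = ⊥ := by
        rw [eq_bot_iff, commutator, Subgroup.commutator_le]
        intro a _ b _
        rw [Subgroup.mem_bot, commutatorElement_eq_one_iff_mul_comm]
        exact Subtype.ext (hc _ a.2 _ b.2)
      rw [this, Subgroup.card_bot] at ho
      exact Nat.not_even_one ho
    have no := ih K hlt ho
    exact no.of_sub (rel_of_bp (no.toIn.cm h2) (hBP K (prim0_quot P hK hN))) h2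
  · obtain ⟨Q, h1, k, h2⟩ := compl_of_odd P hN ho
    exact no_of_compl h1 h2 he

end Pool.Agent.Work.MP_66fdf3_co.Full
end
end

-- merged part: Pool.Agent.Work.MP_66fdf3_co.Full.Two
section
-- merged part: Pool.Agent.Work.MP_66fdf3_co.Full.G3
section
/-!
`sylow_dvd_orbit`: `|R x| * |R_x| = |R|`, `|R_x|` is a power of `p` dividing `|G_x|`, and
`|R| = p ^ v(|G|)` (`Sylow.card_eq_multiplicity`), `|G| = m * |G_x|`; compare factorizations.
`bp_of_primePow`: the orbit of a Sylow subgroup has size at least `p ^ a = m`, so it is everything; if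
`a = 0` the set is a point; otherwise `p` is odd.
`four_le`: if `kd x y = 2`, then `L = G_x ⊓ G_y` has index two in `G_x` and in `G_y` (`kd_mul`, `kd_symm`), so
both normalise it (`Subgroup.normal_of_index_eq_two` for `L.subgroupOf _`); the normaliser of `L` contains
`G_x` and an element of `G_y` moving `x` (`Prim0.move`), so it is `⊤`; a normal subgroup fixing a point is
trivial (`normal_trans` or directly), so all stabilisers have order two and all two point stabilisers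
are trivial (`kd_mul` with even `kd`), contradicting `h2`.
-/

namespace Pool.Agent.Work.MP_66fdf3_co.Full

open Finset Matrix

variable {G Ω : Type} [Group G] [Finite G] [MulAction G Ω] [Fintype Ω] [DecidableEq Ω]

theorem sylow_dvd_orbit (ht : ∀ x y : Ω, ∃ g : G, g • x = y) {p : ℕ} [Fact p.Prime]
    (R : Sylow p G) {a : ℕ} (ha : p ^ a ∣ Nat.card Ω) (x : Ω) :
    p ^ a ∣ Nat.card (MulAction.orbit (R : Subgroup G) x) := by
  have : MulAction.IsPretransitive G Ω := ⟨ht⟩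
  have h1 : (MulAction.stabilizer G x).index ∣
      (MulAction.stabilizer G x ⊓ (R : Subgroup G)).index := Subgroup.index_dvd_of_le inf_le_left
  rw [MulAction.index_stabilizer_of_transitive,
    ← Subgroup.relIndex_mul_index (inf_le_right : _ ≤ (R : Subgroup G)),
    Subgroup.inf_relIndex_right] at h1
  have h2 : (MulAction.stabilizer G x).relIndex (R : Subgroup G) =
      Nat.card (MulAction.orbit (R : Subgroup G) x) :=
    MulAction.index_stabilizer (R : Subgroup G) x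
  rw [← h2]
  refine Nat.Coprime.dvd_of_dvd_mul_right (Nat.Coprime.pow_left a ?_) (ha.trans h1)
  exact (Nat.Prime.coprime_iff_not_dvd Fact.out).2 R.not_dvd_index

theorem bp_of_primePow (ω : Ω) (ht : ∀ x y : Ω, ∃ g : G, g • x = y) (ho : Odd (Nat.card Ω))
    {p a : ℕ} (hp : p.Prime) (ha : Nat.card Ω = p ^ a) : BP G ω := by
  have : Fact p.Prime := ⟨hp⟩
  rcases Nat.eq_zero_or_pos a with rfl | hpos
  · have hs : Subsingleton Ω := (Nat.card_eq_one_iff_unique.1 (by simpa using ha)).1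
    exact ⟨1, 1, fun b => ⟨1, Subsingleton.elim _ _, Subsingleton.elim _ _⟩⟩
  obtain ⟨R⟩ : Nonempty (Sylow p G) := inferInstance
  refine bp_of_odd ω R ?_ fun x y => ?_
  · rw [R.card_eq_multiplicity]
    rw [ha] at ho
    exact (Nat.odd_pow_iff hpos.ne' |>.1 ho).pow
  · have h1 := sylow_dvd_orbit ht R (ha ▸ dvd_rfl : p ^ a ∣ Nat.card Ω) x
    rw [← ha] at h1
    have h2 : MulAction.orbit (R : Subgroup G) x = Set.univ := by
      refine Set.eq_of_subset_of_ncard_le (Set.subset_univ _) ?_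
      rw [Set.ncard_univ]
      exact Nat.le_of_dvd ((Set.ncard_pos (Set.toFinite _)).2 ⟨x, MulAction.mem_orbit_self x⟩) h1
    obtain ⟨q, hq⟩ : y ∈ MulAction.orbit (R : Subgroup G) x := h2 ▸ Set.mem_univ y
    exact ⟨q, q.2, hq⟩

theorem G3_norm {H L : Subgroup G} (hL : L ≤ H) (h : 2 * Nat.card L = Nat.card H) :
    H ≤ Subgroup.normalizer (L : Set G) := by
  have h1 : (L.subgroupOf H).index = 2 := by
    have h2 := (L.subgroupOf H).index_mul_card
    rw [Nat.card_congr (Subgroup.subgroupOfEquivOfLe hL).toEquiv, ← h] at h2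
    exact Nat.eq_of_mul_eq_mul_right Nat.card_pos h2
  have := Subgroup.normal_of_index_eq_two h1
  exact Subgroup.le_normalizer_of_normal_subgroupOf hL

theorem four_le (h : Prim G Ω) (h2 : ∃ (k : G) (x y : Ω), k ≠ 1 ∧ x ≠ y ∧ k • x = x ∧ k • y = y)
    {x y : Ω} (hne : x ≠ y) : 4 ≤ kd G x y := by
  by_contra hlt
  have hk : kd G x y = 2 := by
    obtain ⟨c, hc⟩ := h.even x y hne
    have := kd_pos (G := G) x y
    omega
  set L : Subgroup G := MulAction.stabilizer G x ⊓ MulAction.stabilizer G y with hL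
  have e1 : 2 * Nat.card L = Nat.card (MulAction.stabilizer G x) := hk ▸ kd_mul x y
  have e2 : 2 * Nat.card L = Nat.card (MulAction.stabilizer G y) :=
    e1.trans (card_stab_eq h.trans x y)
  obtain ⟨g, hg1, hg2⟩ := h.toPrim0.move hne.symm
  have htop : Subgroup.normalizer (L : Set G) = ⊤ :=
    h.max x _ (G3_norm inf_le_left e1) g (G3_norm inf_le_right e2 hg1) hg2
  have : L.Normal := Subgroup.normalizer_eq_top_iff.1 htop
  have hbot : L = ⊥ := by
    rcases h.toPrim0.normal_trans L with h3 | h3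
    · exact eq_bot_iff.2 fun n hn => h.faith n (h3 n hn)
    · obtain ⟨n, hn, h4⟩ := h3 x y
      exact absurd (hn.1.symm.trans h4) hne
  rw [hbot, Subgroup.card_bot] at e1
  obtain ⟨k, u, v, hk1, huv, hu, hv⟩ := h2
  have e3 := kd_mul (G := G) u v
  rw [card_stab_eq h.trans u x, ← e1] at e3
  have hnt : 1 < Nat.card (MulAction.stabilizer G u ⊓ MulAction.stabilizer G v : Subgroup G) :=
    (Subgroup.one_lt_card_iff_ne_bot _).2 fun hb => hk1 (Subgroup.mem_bot.1 (hb ▸ ⟨hu, hv⟩))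
  obtain ⟨c, hc⟩ := h.even u v huv
  have hp := kd_pos (G := G) u v
  have h5 : 2 * 2 ≤ kd G u v *
      Nat.card (MulAction.stabilizer G u ⊓ MulAction.stabilizer G v : Subgroup G) :=
    Nat.mul_le_mul (by omega) hnt
  omega

end Pool.Agent.Work.MP_66fdf3_co.Full
end

-- merged part: Pool.Agent.Work.MP_66fdf3_co.Full.G4
section
/-!
Section 2.1 of the write-up.  All orbits of a Sylow subgroup `R` have size `p` (`sylow_dvd_orbit`, the size
is a power of `p` and at most `s p < p ^ 2`).  The stabiliser `R_x` has index `p` in the `p`-group `R`, hence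
is normal (`Subgroup.normal_of_index_eq_minFac_card`), so it fixes the whole orbit and `z ^ p` fixes every
point (`Subgroup.pow_index_mem`).  There are `s` orbits; the stabilisers of representatives cover at most
`s * |R| / p < |R|` elements; take `z` outside.  With representatives `rep i`, the map
`(i, x) ↦ z ^ x.val • rep i` is injective (`z ^ k` with `p ∤ k` has no fixed point), hence bijective.
-/

namespace Pool.Agent.Work.MP_66fdf3_co.Full

open Finset Matrix

variable {G Ω : Type} [Group G] [Finite G] [MulAction G Ω] [Fintype Ω] [DecidableEq Ω]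

theorem G4_free {R Ω : Type} [Group R] [Finite R] [MulAction R Ω] [Fintype Ω] [DecidableEq Ω]
    {s p : ℕ} [Fact p.Prime] (hR : IsPGroup p R) (hs : s < p) (hc : Nat.card Ω = s * p)
    (hd : ∀ x : Ω, p ∣ Nat.card (MulAction.orbit R x)) :
    ∃ z : R, ∀ x : Ω, MulAction.period z x = p := by
  classical
  have hp : p.Prime := Fact.out
  have hi : ∀ x : Ω, (MulAction.stabilizer R x).index = p := fun x => by
    obtain ⟨k, hk⟩ := hR.card_orbit x
    have h1 := hd x
    have h2 : Nat.card (MulAction.orbit R x) ≤ Nat.card Ω :=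
      Nat.card_le_card_of_injective _ Subtype.val_injective
    rw [MulAction.index_stabilizer, ← Nat.card_coe_set_eq, hk]
    rw [hk] at h1 h2
    have h3 : p ^ k < p ^ 2 := by
      rw [hc] at h2
      nlinarith [hp.pos]
    have h4 := (Nat.pow_lt_pow_iff_right hp.one_lt).1 h3
    interval_cases k
    · exact absurd (Nat.dvd_one.1 h1) hp.ne_one
    · exact pow_one p
  obtain ⟨n, hn⟩ := IsPGroup.iff_card.1 hR
  have hN : ∀ x : Ω, (MulAction.stabilizer R x).Normal := fun x => by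
    refine Subgroup.normal_of_index_eq_minFac_card ?_
    have h1 := (MulAction.stabilizer R x).index_dvd_card
    rw [hi, hn] at h1
    rw [hi, hn, hp.pow_minFac]
    rintro rfl
    exact hp.ne_one (Nat.dvd_one.1 h1)
  have hz : ∃ z : R, ∀ x : Ω, z • x ≠ x := by
    by_contra hcon
    push Not at hcon
    have := Fintype.ofFinite R
    have k := card_mul_le_card_mul (s := (univ : Finset R)) (t := (univ : Finset Ω)) (m := p)
      (n := Nat.card R / p) (fun g x => g • x = x) (fun g _ => ?_) fun x _ => ?_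
    · rw [card_univ, card_univ, ← Nat.card_eq_fintype_card, ← Nat.card_eq_fintype_card, hc,
        mul_assoc] at k
      have h1 := mul_le_mul_right (Nat.mul_div_le (Nat.card R) p) s
      nlinarith [Nat.card_pos (α := R)]
    · obtain ⟨x, hx⟩ := hcon g
      rw [← hi x, MulAction.index_stabilizer, ← Set.ncard_coe_finset]
      refine Set.ncard_le_ncard ?_ (Set.toFinite _)
      rintro _ ⟨h, rfl⟩
      have h1 := (hN x).conj_mem' g hx h
      rw [MulAction.mem_stabilizer_iff, mul_smul, mul_smul, inv_smul_eq_iff] at h1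
      simpa using h1
    · have h1 := (MulAction.stabilizer R x).card_mul_index
      rw [hi] at h1
      rw [← h1, Nat.mul_div_cancel _ hp.pos, ← Set.ncard_coe_finset, ← Nat.card_coe_set_eq]
      exact le_of_eq (Nat.card_congr (Equiv.subtypeEquivRight fun g => by simp))
  obtain ⟨z, hz⟩ := hz
  refine ⟨z, fun x => ?_⟩
  have := hN x
  have h1 := (MulAction.stabilizer R x).pow_index_mem z
  rw [hi, MulAction.mem_stabilizer_iff, MulAction.pow_smul_eq_iff_period_dvd] at h1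
  exact ((Nat.dvd_prime hp).1 h1).resolve_left fun h => hz x (MulAction.period_eq_one_iff.1 h)

theorem G4_coord {R Ω : Type} [Group R] [MulAction R Ω] [Fintype Ω] {s p : ℕ} [Fact p.Prime]
    (hc : Nat.card Ω = s * p) (z : R) (hz : ∀ x : Ω, MulAction.period z x = p) :
    ∃ e : Fin s × ZMod p ≃ Ω, ∀ i x, z • e (i, x) = e (i, x + 1) := by
  have hp : p.Prime := Fact.out
  let Q := Quotient (MulAction.orbitRel (Subgroup.zpowers z) Ω)
  let f : Q × ZMod p → Ω := fun q => z ^ q.2.val • q.1.out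
  have hq : ∀ q, Quotient.mk _ (f q) = q.1 := fun q =>
    (Quotient.sound (MulAction.orbitRel_apply.2
      ⟨⟨_, Subgroup.npow_mem_zpowers z q.2.val⟩, rfl⟩)).trans q.1.out_eq
  have hf : Function.Bijective f := by
    refine ⟨?_, fun y => ?_⟩
    · rintro ⟨q, a⟩ ⟨q', b⟩ h
      obtain rfl : q = q' := (hq (q, a)).symm.trans ((congrArg _ h).trans (hq (q', b)))
      have h1 : z ^ ((a.val : ℤ) - b.val) • q.out = q.out := by
        rw [sub_eq_neg_add, _root_.zpow_add, mul_smul, _root_.zpow_neg, inv_smul_eq_iff,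
          zpow_natCast, zpow_natCast]
        exact h
      rw [MulAction.zpow_smul_eq_iff_period_dvd, hz, ← ZMod.intCast_zmod_eq_zero_iff_dvd] at h1
      have h2 : a = b := by simpa [sub_eq_zero] using h1
      rw [h2]
    · obtain ⟨⟨_, n, rfl⟩, hn⟩ := MulAction.orbitRel_apply.1
        ((MulAction.orbitRel (Subgroup.zpowers z) Ω).symm' (Quotient.mk_out y))
      refine ⟨(Quotient.mk _ y, n), Eq.trans ?_ hn⟩
      change z ^ (n : ZMod p).val • (Quotient.mk _ y : Q).out = z ^ n • (Quotient.mk _ y : Q).out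
      rw [← zpow_natCast, ZMod.val_intCast, ← MulAction.zpow_mod_period_smul n, hz]
  have h1 := Nat.card_eq_of_bijective f hf
  rw [Nat.card_prod, Nat.card_zmod, hc] at h1
  let ι := Finite.equivFinOfCardEq (Nat.eq_of_mul_eq_mul_right hp.pos h1)
  refine ⟨(ι.symm.prodCongr (Equiv.refl _)).trans (Equiv.ofBijective f hf), fun i x => ?_⟩
  change z • z ^ x.val • (ι.symm i).out = z ^ (x + 1).val • (ι.symm i).out
  rw [ZMod.val_add, ZMod.val_one, ← mul_smul, ← pow_succ', ← MulAction.pow_mod_period_smul, hz]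

theorem semireg (ht : ∀ x y : Ω, ∃ g : G, g • x = y) {s p : ℕ} [Fact p.Prime] (hs : s < p)
    (hc : Nat.card Ω = s * p) :
    ∃ (z : G) (e : Fin s × ZMod p ≃ Ω), ∀ i x, z • e (i, x) = e (i, x + 1) := by
  obtain ⟨R⟩ : Nonempty (Sylow p G) := inferInstance
  obtain ⟨z, hz⟩ := G4_free (R := (R : Subgroup G)) R.isPGroup' hs hc fun x => by
    simpa using sylow_dvd_orbit ht R (a := 1) (by rw [hc, pow_one]; exact Dvd.intro_left s rfl) x
  exact ⟨z, G4_coord hc z hz⟩

end Pool.Agent.Work.MP_66fdf3_co.Full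
end

-- merged part: Pool.Agent.Work.MP_66fdf3_co.Full.Del1
section
/-!
Recursions for `delta`.
`delta_equiv`: reindex the functions by `Equiv.arrowCongr` / `Equiv.piCongrLeft`.
`delta_zero`: one function, all counts are zero.
`delta_sym`: let `f σ` be the summand of `delta (Fin (n+1)) a`.  If the pattern holds then
`a i0 j = ∑ v, if σ v i0 = j then 1 else 0`; so the left side is `∑ v, ∑ σ, if σ v i0 = j then f σ else 0`;
each `v` gives the same value as `v = 0` (precompose with `Equiv.swap 0 v`); for `v = 0` split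
`σ = Fin.cons τ σ'` (`Fin.consEquiv`, `Fin.consPiProdEquiv`, `Fin.sum_univ_succ`),
`cnt (cons ..) k = (if τ i = k then 1 else 0) + cnt ..`.
`delta_mul`: induction on `js`.  `not_dvd_delta`: if `p ^ 2 ∣ delta` then `p ^ 2 ∣ p ! * ddF`, so
`p ∣ (p - 1)! * ddF`, and `p` is coprime to `(p - 1)!`.
-/

namespace Pool.Agent.Work.MP_66fdf3_co.Full

open Finset

variable {s : ℕ}

def ddF (i0 : Fin s) : List (Fin s) → (Fin s → Fin s → ℕ) → ℤ
  | [], a => if ∀ i j, a i j = 0 then 1 else 0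
  | j :: js, a => ∑ σ ∈ univ.filter (fun σ : Equiv.Perm (Fin s) => σ i0 = j),
      if ∀ i, 0 < a i (σ i) then
        (Equiv.Perm.sign σ : ℤ) * ddF i0 js (fun i k => a i k - if σ i = k then 1 else 0) else 0

theorem cnt_Del1_sum {ι E : Type} [Fintype ι] [DecidableEq E] (a : ι → E) (e : E) :
    cnt a e = ∑ i, if a i = e then 1 else 0 := by
  unfold cnt
  rw [card_filter]

theorem cnt_Del1_comp {ι ι' E : Type} [Fintype ι] [Fintype ι'] [DecidableEq E] (e : ι ≃ ι')
    (a : ι' → E) (k : E) : cnt (fun v => a (e v)) k = cnt a k := by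
  rw [cnt_Del1_sum, cnt_Del1_sum]
  exact e.sum_comp fun v => if a v = k then 1 else 0

/-- The summand of `delta`. -/
def smDel1 {V : Type} [Fintype V] (a : Fin s → Fin s → ℕ) (σ : V → Equiv.Perm (Fin s)) : ℤ :=
  if ∀ i j, cnt (fun v => σ v i) j = a i j then ∏ v, (Equiv.Perm.sign (σ v) : ℤ) else 0

theorem smDel1_comp {V V' : Type} [Fintype V] [Fintype V'] (e : V ≃ V') (a : Fin s → Fin s → ℕ)
    (σ : V' → Equiv.Perm (Fin s)) : smDel1 a (fun v => σ (e v)) = smDel1 a σ := by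
  unfold smDel1
  have h : ∀ i j, cnt (fun v => σ (e v) i) j = cnt (fun v => σ v i) j := fun i j =>
    cnt_Del1_comp e (fun v => σ v i) j
  simp only [h]
  rw [e.prod_comp fun v => (Equiv.Perm.sign (σ v) : ℤ)]

theorem delta_equiv {V V' : Type} [Fintype V] [DecidableEq V] [Fintype V'] [DecidableEq V']
    (e : V ≃ V') (a : Fin s → Fin s → ℕ) : delta V a = delta V' a := by
  symm
  exact Fintype.sum_equiv (Equiv.arrowCongr e.symm (Equiv.refl _)) (smDel1 a) (smDel1 a)
    fun σ => (smDel1_comp e a σ).symm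

theorem delta_zero (a : Fin s → Fin s → ℕ) :
    delta (Fin 0) a = if ∀ i j, a i j = 0 then 1 else 0 := by
  unfold delta
  simp [cnt, eq_comm]

theorem smDel1_cons {n : ℕ} (a : Fin s → Fin s → ℕ) (τ : Equiv.Perm (Fin s))
    (σ : Fin n → Equiv.Perm (Fin s)) :
    smDel1 a (Fin.cons τ σ : Fin (n + 1) → Equiv.Perm (Fin s)) =
      if ∀ i, 0 < a i (τ i) then (Equiv.Perm.sign τ : ℤ) *
        smDel1 (fun i k => a i k - if τ i = k then 1 else 0) σ else 0 := by
  have hc : ∀ i k, cnt (fun v => (Fin.cons τ σ : Fin (n + 1) → Equiv.Perm (Fin s)) v i) k =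
      (if τ i = k then 1 else 0) + cnt (fun v => σ v i) k := by
    intro i k
    rw [cnt_Del1_sum, cnt_Del1_sum, Fin.sum_univ_succ]
    rfl
  unfold smDel1
  simp only [hc, Fin.prod_univ_succ, Fin.cons_zero, Fin.cons_succ]
  by_cases h1 : ∀ i, 0 < a i (τ i)
  · rw [if_pos h1, mul_ite, mul_zero]
    refine if_congr (forall₂_congr fun i k => ?_) rfl rfl
    have := h1 i
    split_ifs with h
    · subst h
      omega
    · omega
  · rw [if_neg h1, if_neg]
    intro h
    refine h1 fun i => ?_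
    have := h i (τ i)
    rw [if_pos rfl] at this
    omega

theorem delta_sym (n : ℕ) (a : Fin s → Fin s → ℕ) (i0 j : Fin s) :
    (a i0 j : ℤ) * delta (Fin (n + 1)) a =
      ((n : ℤ) + 1) * ∑ σ ∈ univ.filter (fun σ : Equiv.Perm (Fin s) => σ i0 = j),
        if ∀ i, 0 < a i (σ i) then (Equiv.Perm.sign σ : ℤ) *
          delta (Fin n) (fun i k => a i k - if σ i = k then 1 else 0) else 0 := by
  have h1 : ∀ σ : Fin (n + 1) → Equiv.Perm (Fin s), (a i0 j : ℤ) * smDel1 a σ =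
      ∑ v, if σ v i0 = j then smDel1 a σ else 0 := by
    intro σ
    by_cases h : ∀ i j, cnt (fun v => σ v i) j = a i j
    · rw [← h i0 j, cnt_Del1_sum]
      push_cast
      rw [sum_mul]
      exact sum_congr rfl fun v _ => by split_ifs <;> simp
    · simp [smDel1, h]
  have h2 : ∀ v : Fin (n + 1), (∑ σ : Fin (n + 1) → Equiv.Perm (Fin s),
      if σ v i0 = j then smDel1 a σ else 0) =
      ∑ σ : Fin (n + 1) → Equiv.Perm (Fin s), if σ 0 i0 = j then smDel1 a σ else 0 := by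
    intro v
    refine Fintype.sum_equiv (Equiv.arrowCongr (Equiv.swap 0 v).symm (Equiv.refl _)) _ _ fun σ => ?_
    have e : (Equiv.arrowCongr (Equiv.swap 0 v).symm (Equiv.refl _)) σ =
        fun w => σ (Equiv.swap 0 v w) := rfl
    rw [e, smDel1_comp]
    simp only [Equiv.swap_apply_left]
  have h3 : (∑ σ : Fin (n + 1) → Equiv.Perm (Fin s), if σ 0 i0 = j then smDel1 a σ else 0) =
      ∑ σ ∈ univ.filter (fun σ : Equiv.Perm (Fin s) => σ i0 = j),
        if ∀ i, 0 < a i (σ i) then (Equiv.Perm.sign σ : ℤ) *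
          delta (Fin n) (fun i k => a i k - if σ i = k then 1 else 0) else 0 := by
    rw [← (Fin.consEquiv fun _ : Fin (n + 1) => Equiv.Perm (Fin s)).sum_comp, Fintype.sum_prod_type,
      sum_filter]
    refine sum_congr rfl fun τ _ => ?_
    have e : ∀ σ : Fin n → Equiv.Perm (Fin s),
        (Fin.consEquiv fun _ : Fin (n + 1) => Equiv.Perm (Fin s)) (τ, σ) = Fin.cons τ σ :=
      fun _ => rfl
    simp only [e, Fin.cons_zero, smDel1_cons]
    split_ifs
    · rw [← mul_sum]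
      rfl
    · simp
    · simp
  calc (a i0 j : ℤ) * delta (Fin (n + 1)) a
      = ∑ σ : Fin (n + 1) → Equiv.Perm (Fin s), (a i0 j : ℤ) * smDel1 a σ := mul_sum _ _ _
    _ = ∑ v : Fin (n + 1), ∑ σ : Fin (n + 1) → Equiv.Perm (Fin s),
          if σ v i0 = j then smDel1 a σ else 0 := by
        simp only [h1]
        exact sum_comm
    _ = _ := by
        simp only [h2, h3]
        simp

theorem delta_mul (i0 : Fin s) (js : List (Fin s)) (a : Fin s → Fin s → ℕ)
    (h : ∀ j, a i0 j = js.count j) :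
    delta (Fin js.length) a * ∏ j, ((a i0 j).factorial : ℤ) =
      (js.length.factorial : ℤ) * ddF i0 js a := by
  induction js generalizing a with
  | nil =>
    have e : delta (Fin ([] : List (Fin s)).length) a = delta (Fin 0) a := rfl
    rw [e, delta_zero]
    simp [h, ddF]
  | cons j js ih =>
    have hp : ∏ k, ((a i0 k).factorial : ℤ) = a i0 j * ∏ k, ((js.count k).factorial : ℤ) := by
      rw [← mul_prod_erase univ _ (mem_univ j), ← mul_prod_erase univ _ (mem_univ j), h j,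
        List.count_cons_self, Nat.factorial_succ, ← mul_assoc]
      push_cast
      congr 1
      refine prod_congr rfl fun k hk => ?_
      rw [h k, List.count_cons_of_ne (ne_of_mem_erase hk).symm]
    have e : delta (Fin (j :: js).length) a = delta (Fin (js.length + 1)) a := rfl
    rw [e, hp, ← mul_assoc, mul_comm (delta _ a), delta_sym, List.length_cons, Nat.factorial_succ,
      ddF, mul_assoc, sum_mul]
    push_cast
    rw [mul_assoc, mul_sum _ _ (js.length.factorial : ℤ)]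
    congr 1
    refine sum_congr rfl fun σ hσ => ?_
    have hj : σ i0 = j := (mem_filter.1 hσ).2
    split_ifs
    · have h' : ∀ k, (a i0 k - if σ i0 = k then 1 else 0) = js.count k := by
        intro k
        rw [h k, hj, List.count_cons]
        by_cases hk : j = k <;> simp [hk]
      have := ih (fun i k => a i k - if σ i = k then 1 else 0) h'
      simp only [h'] at this
      rw [mul_assoc, this]
      ring
    · simp

theorem not_dvd_delta {p : ℕ} [Fact p.Prime] (i0 : Fin s) (js : List (Fin s))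
    (a : Fin s → Fin s → ℕ) (h : ∀ j, a i0 j = js.count j) (hl : js.length = p)
    (hd : ¬ (p : ℤ) ∣ ddF i0 js a) : ¬ (p : ℤ) ^ 2 ∣ delta (ZMod p) a := by
  intro hq
  have hp : p.Prime := Fact.out
  have e : ZMod p ≃ Fin js.length := Fintype.equivFinOfCardEq (by rw [ZMod.card, hl])
  rw [delta_equiv e] at hq
  have h1 := hq.mul_right (∏ j, ((a i0 j).factorial : ℤ))
  rw [delta_mul i0 js a h, hl, ← Nat.mul_factorial_pred hp.ne_zero, sq] at h1
  push_cast at h1
  rw [mul_assoc, mul_dvd_mul_iff_left (by exact_mod_cast hp.ne_zero)] at h1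
  rcases (Nat.prime_iff_prime_int.1 hp).dvd_or_dvd h1 with h2 | h2
  · have h3 := (hp.dvd_factorial).1 (Int.natCast_dvd_natCast.1 h2)
    have := hp.pos
    omega
  · exact hd h2

end Pool.Agent.Work.MP_66fdf3_co.Full
end

-- merged part: Pool.Agent.Work.MP_66fdf3_co.Full.Del2
section
/-!
Soundness of `runL`.  With `val js l = (l.map fun x => x.2 * ddL PJ js x.1).sum`: `insL` adds
`c * ddL js a`, `expL` adds `c * ddL (j :: js) a`, `layer` adds `val (j :: js) l`; induction gives `runL_eq`.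
`ddL_eq`: induction on `js`; turn the list sum into a sum over permutations with `hPJ`
(`Multiset.map_map`, `Multiset.sum_coe`, `Finset.sum_eq_multiset_sum`); `okL (toL a) (ofFn σ)` says
`∀ i, 0 < a i (σ i)` and `subL (toL a) (ofFn σ) = toL _` (`List.ext_getElem`, or a general lemma for
`List.ofFn` over `Fin n` by induction on `n` with `List.ofFn_succ`).
The five values: `not_dvd_delta` with `i0 = 0`, the list `js` of the corresponding `run` theorem, `ddL_eq`,
`runL_eq`, and `toL (patOf 0 sl) = literal` by `decide`.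
-/

namespace Pool.Agent.Work.MP_66fdf3_co.Full

open Finset

def toL {s : ℕ} (a : Fin s → Fin s → ℕ) : List (List ℕ) :=
  List.ofFn fun i => List.ofFn fun j => a i j

theorem Del2_ins (g : List (List ℕ) → ℤ) (a : List (List ℕ)) (c : ℤ) (l : List (List (List ℕ) × ℤ)) :
    ((insL a c l).map fun x => x.2 * g x.1).sum = (l.map fun x => x.2 * g x.1).sum + c * g a := by
  induction l with
  | nil => simp [insL]
  | cons x l ih =>
    rw [insL]
    split_ifs with h
    · simp only [List.map_cons, List.sum_cons, h]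
      ring
    · simp only [List.map_cons, List.sum_cons, ih]
      ring

theorem Del2_exp (g : List (List ℕ) → ℤ) (a : List (List ℕ)) (c : ℤ) (P : List (List ℕ × ℤ))
    (l : List (List (List ℕ) × ℤ)) : ((expL a c P l).map fun x => x.2 * g x.1).sum =
      (l.map fun x => x.2 * g x.1).sum +
        c * (P.map fun q => if okL a q.1 then q.2 * g (subL a q.1) else 0).sum := by
  induction P generalizing l with
  | nil => simp [expL]
  | cons q P ih =>
    rw [expL, List.map_cons, List.sum_cons]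
    split_ifs with h
    · rw [ih, Del2_ins]
      ring
    · rw [ih]
      ring

theorem Del2_layer (g : List (List ℕ) → ℤ) (P : List (List ℕ × ℤ))
    (l acc : List (List (List ℕ) × ℤ)) : ((layer P l acc).map fun x => x.2 * g x.1).sum =
      (acc.map fun x => x.2 * g x.1).sum + (l.map fun x =>
        x.2 * (P.map fun q => if okL x.1 q.1 then q.2 * g (subL x.1 q.1) else 0).sum).sum := by
  induction l generalizing acc with
  | nil => simp [layer]
  | cons x l ih =>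
    rw [layer, ih, Del2_exp, List.map_cons, List.sum_cons]
    ring

theorem Del2_ok {n : ℕ} (r : Fin n → List ℕ) (k : Fin n → ℕ) :
    okL (List.ofFn r) (List.ofFn k) = true ↔ ∀ i, 0 < (r i).getD (k i) 0 := by
  induction n with
  | zero => simp [okL]
  | succ n ih =>
    rw [List.ofFn_succ, List.ofFn_succ, okL, Bool.and_eq_true, ih, decide_eq_true_iff,
      Fin.forall_fin_succ]

theorem Del2_sub {s : ℕ} (a : Fin s → Fin s → ℕ) (σ : Fin s → Fin s) :
    subL (toL a) (List.ofFn fun i => (σ i).val) =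
      toL fun i k => a i k - if σ i = k then 1 else 0 := by
  refine List.ext_getElem (by simp [subL, toL]) fun i h1 h2 => ?_
  refine List.ext_getElem (by simp [subL, toL]) fun j h3 h4 => ?_
  simp only [subL, toL, List.getElem_zipWith, List.getElem_ofFn, List.getElem_set, Fin.ext_iff]
  split_ifs with h
  · subst h
    simp
  · rfl

theorem runL_eq (PJ : List (List (List ℕ × ℤ))) (js : List ℕ) (l : List (List (List ℕ) × ℤ)) :
    runL PJ js l = (l.map fun x => x.2 * ddL PJ js x.1).sum := by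
  induction js generalizing l with
  | nil => simp [runL, ddL]
  | cons j js ih => simp only [runL, ddL, ih, Del2_layer, List.map_nil, List.sum_nil, zero_add]

theorem ddL_eq {s : ℕ} (i0 : Fin s) (PJ : List (List (List ℕ × ℤ)))
    (hPJ : ∀ j : Fin s, ((univ.filter fun σ : Equiv.Perm (Fin s) => σ i0 = j).val.map
      fun σ => (List.ofFn (fun i => (σ i).val), (Equiv.Perm.sign σ : ℤ))) =
        (PJ.getD j.val [] : Multiset _))
    (js : List (Fin s)) (a : Fin s → Fin s → ℕ) :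
    ddL PJ (js.map Fin.val) (toL a) = ddF i0 js a := by
  induction js generalizing a with
  | nil => simp [ddL, ddF, toL]
  | cons j js ih =>
    rw [List.map_cons, ddL, ddF, ← Multiset.sum_coe, ← Multiset.map_coe, ← hPJ, Multiset.map_map]
    refine sum_congr rfl fun σ _ => ?_
    simp only [Function.comp, Del2_sub, ih]
    refine if_congr ((Del2_ok _ _).trans ?_) rfl rfl
    simp

theorem Del2_fin {s p : ℕ} [Fact p.Prime] (i0 : Fin s) (PJ : List (List (List ℕ × ℤ)))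
    (hPJ : ∀ j : Fin s, ((univ.filter fun σ : Equiv.Perm (Fin s) => σ i0 = j).val.map
      fun σ => (List.ofFn (fun i => (σ i).val), (Equiv.Perm.sign σ : ℤ))) =
        (PJ.getD j.val [] : Multiset _))
    (js : List (Fin s)) (a : Fin s → Fin s → ℕ) {jl : List ℕ} {al : List (List ℕ)} {v : ℤ}
    (hv : runL PJ jl [(al, 1)] = v) (h : (∀ j, a i0 j = js.count j) ∧ js.length = p ∧
      js.map Fin.val = jl ∧ toL a = al ∧ ¬ (p : ℤ) ∣ v) : ¬ (p : ℤ) ^ 2 ∣ delta (ZMod p) a := by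
  obtain ⟨h1, h2, rfl, rfl, h3⟩ := h
  refine not_dvd_delta i0 js a h1 h2 ?_
  rw [runL_eq, List.map_singleton, List.sum_singleton, one_mul, ddL_eq i0 PJ hPJ] at hv
  rwa [hv]

theorem delta5 [Fact (Nat.Prime 5)] : ¬ ((5 : ℕ) : ℤ) ^ 2 ∣ delta (ZMod 5) (patOf 0 sl5) :=
  Del2_fin 0 PJ3 tab3 [0, 0, 0, 1, 1] _ run5 (by decide)

theorem delta7 [Fact (Nat.Prime 7)] : ¬ ((7 : ℕ) : ℤ) ^ 2 ∣ delta (ZMod 7) (patOf 0 sl7) :=
  Del2_fin 0 PJ3 tab3 [0, 1, 1, 1, 2, 2, 2] _ run7 (by decide)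

theorem delta11 [Fact (Nat.Prime 11)] : ¬ ((11 : ℕ) : ℤ) ^ 2 ∣ delta (ZMod 11) (patOf 0 sl11) :=
  Del2_fin 0 PJ3 tab3 [0, 1, 1, 1, 1, 1, 1, 2, 2, 2, 2] _ run11 (by decide)

theorem delta13 [Fact (Nat.Prime 13)] : ¬ ((13 : ℕ) : ℤ) ^ 2 ∣ delta (ZMod 13) (patOf 0 sl13) :=
  Del2_fin 0 PJ3 tab3 [0, 0, 0, 1, 1, 1, 1, 1, 1, 1, 2, 2, 2] _ run13 (by decide)

theorem delta35 [Fact (Nat.Prime 7)] : ¬ ((7 : ℕ) : ℤ) ^ 2 ∣ delta (ZMod 7) (patOf 0 sl35) :=
  Del2_fin 0 PJ5 tab5 [0, 0, 0, 1, 2, 3, 4] _ run35 (by decide)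

end Pool.Agent.Work.MP_66fdf3_co.Full
end

-- merged part: Pool.Agent.Work.MP_66fdf3_co.Full.S1b
section
/-!
Matrix units.  `iso_of_ne`: for `Z = E a * X * E b ≠ 0`, `Zᴴ * Z = c • E b`, `Z * Zᴴ = c' • E a` by `min`;
`c` is a positive real (take the trace: `trace (Zᴴ * Z) = ∑ ‖Z i j‖² > 0`, `trace (E b)` is a positive integer),
`c = c'` from `Z * Zᴴ * Z`; put `V = (√c)⁻¹ • Z`.
`exists_spec`: setoid `a ~ b := ∃ V, Inv G V ∧ V * Vᴴ = E a ∧ Vᴴ * V = E b` (note `E a * V = V = V * E b`: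
`(V - V Vᴴ V)ᴴ (..) = 0`, or add this to the relation); `X` is the quotient, `rep a = (mk a).out`, choose
`V a` from `a ~ rep a`, `U a b = if mk a = mk b then V a * (V b)ᴴ else 0`, `d χ` is the integer trace of
`E χ.out` (`proj_factor`).  `diag` by `Inv.diag`; `cl0` by `Inv.mul_E0`.  Expansion:
`M = ∑ a b, E a * M * E b`, and `E a * M * E b = V a * ((V a)ᴴ * M * V b) * (V b)ᴴ` with the middle factor
a multiple of `E (rep a)`; if the classes differ it vanishes by `iso_of_ne`.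
-/

namespace Pool.Agent.Work.MP_66fdf3_co.Full

open Finset Matrix

variable {G Ω : Type} [Group G] [Finite G] [MulAction G Ω] [Fintype Ω] [DecidableEq Ω]

open scoped ComplexOrder in
theorem S1b_trace {E : Matrix Ω Ω ℂ} (h1 : Eᴴ = E) (h2 : E * E = E) (h0 : E ≠ 0) :
    ∃ r : ℕ, 0 < r ∧ E.trace = (r : ℂ) := by
  obtain ⟨r, -, -, -, hr⟩ := proj_factor E h1 h2
  refine ⟨r, Nat.pos_of_ne_zero fun e => h0 ?_, hr⟩
  rw [← Matrix.trace_conjTranspose_mul_self_eq_zero_iff, h1, h2, hr, e, Nat.cast_zero]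

open scoped ComplexOrder in
theorem iso_of_ne {n : ℕ} {E : Fin n → Matrix Ω Ω ℂ} {a0 : Fin n} (h : MinFam G E a0) {a b : Fin n}
    {X : Matrix Ω Ω ℂ} (hX : Inv G X) (hne : E a * X * E b ≠ 0) :
    ∃ V : Matrix Ω Ω ℂ, Inv G V ∧ V * Vᴴ = E a ∧ Vᴴ * V = E b ∧ E a * V = V ∧ V * E b = V := by
  obtain ⟨Z, hZ⟩ : ∃ Z, Z = E a * X * E b := ⟨_, rfl⟩
  rw [← hZ] at hne
  have iZ : Inv G Z := hZ ▸ ((h.inv a).mul hX).mul (h.inv b)
  have h1 : E a * Z = Z := by rw [hZ, ← Matrix.mul_assoc, ← Matrix.mul_assoc, h.idem]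
  have h2 : Z * E b = Z := by rw [hZ, Matrix.mul_assoc, h.idem]
  have h3 : Zᴴ * E a = Zᴴ := by rw [← h.star a, ← conjTranspose_mul, h1]
  have h4 : E b * Zᴴ = Zᴴ := by rw [← h.star b, ← conjTranspose_mul, h2]
  obtain ⟨c, hc⟩ := h.min b _ (iZ.star.mul iZ)
  obtain ⟨c', hc'⟩ := h.min a _ (iZ.mul iZ.star)
  rw [← Matrix.mul_assoc, h4, Matrix.mul_assoc, h2] at hc
  rw [← Matrix.mul_assoc, h1, Matrix.mul_assoc, h3] at hc'
  have e : c' = c := by
    have e1 : c' • Z = c • Z := by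
      calc c' • Z = Z * Zᴴ * Z := by rw [hc', Matrix.smul_mul, h1]
        _ = c • Z := by rw [Matrix.mul_assoc, hc, Matrix.mul_smul, h2]
    exact smul_left_injective ℂ hne e1
  rw [e] at hc'
  have c0 : c ≠ 0 := fun e0 => hne (by
    rw [e0, zero_smul] at hc
    exact Matrix.conjTranspose_mul_self_eq_zero.1 hc)
  obtain ⟨r, hr, hr'⟩ := S1b_trace (h.star b) (h.idem b) (h.ne b)
  have p1 : 0 ≤ c * (r : ℂ) := by
    have := (Matrix.posSemidef_conjTranspose_mul_self Z).trace_nonneg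
    rwa [hc, trace_smul, hr', smul_eq_mul] at this
  have p2 : 0 ≤ c := by
    have r0 : (r : ℂ) ≠ 0 := Nat.cast_ne_zero.2 hr.ne'
    have r1 : (0 : ℂ) ≤ (((r : ℝ)⁻¹ : ℝ) : ℂ) :=
      Complex.zero_le_real.2 (inv_nonneg.2 (Nat.cast_nonneg r))
    have r2 := mul_nonneg p1 r1
    rwa [Complex.ofReal_inv, Complex.ofReal_natCast, mul_assoc, mul_inv_cancel₀ r0, mul_one] at r2
  obtain ⟨ρ, hρ, rfl⟩ : ∃ ρ : ℝ, 0 ≤ ρ ∧ c = ρ :=
    ⟨c.re, (Complex.nonneg_iff.1 p2).1, (Complex.ext rfl (Complex.nonneg_iff.1 p2).2.symm)⟩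
  have ρ0 : ρ ≠ 0 := fun e0 => c0 (by rw [e0, Complex.ofReal_zero])
  have q : (((√ρ)⁻¹ : ℝ) : ℂ) * ((((√ρ)⁻¹ : ℝ) : ℂ) * (ρ : ℂ)) = 1 := by
    rw [← Complex.ofReal_mul, ← Complex.ofReal_mul, ← mul_assoc, ← mul_inv, Real.mul_self_sqrt hρ,
      inv_mul_cancel₀ ρ0, Complex.ofReal_one]
  have st : star (((√ρ)⁻¹ : ℝ) : ℂ) = (((√ρ)⁻¹ : ℝ) : ℂ) := Complex.conj_ofReal _
  refine ⟨(((√ρ)⁻¹ : ℝ) : ℂ) • Z, iZ.smul _, ?_, ?_, ?_, ?_⟩
  · rw [conjTranspose_smul, st, Matrix.smul_mul, Matrix.mul_smul, hc', smul_smul, smul_smul,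
      mul_assoc, q, one_smul]
  · rw [conjTranspose_smul, st, Matrix.smul_mul, Matrix.mul_smul, hc, smul_smul, smul_smul,
      mul_assoc, q, one_smul]
  · rw [Matrix.mul_smul, h1]
  · rw [Matrix.smul_mul, h2]

/-- Equivalence of minimal projections. -/
def S1b_st {n : ℕ} {E : Fin n → Matrix Ω Ω ℂ} {a0 : Fin n} (h : MinFam G E a0) :
    Setoid (Fin n) where
  r a b := ∃ V : Matrix Ω Ω ℂ, Inv G V ∧ V * Vᴴ = E a ∧ Vᴴ * V = E b ∧ E a * V = V ∧ V * E b = V
  iseqv := by
    refine ⟨fun a => ⟨E a, h.inv a, ?_, ?_, h.idem a, h.idem a⟩, ?_, ?_⟩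
    · rw [h.star, h.idem]
    · rw [h.star, h.idem]
    · rintro a b ⟨V, h0, h1, h2, h3, h4⟩
      refine ⟨Vᴴ, h0.star, ?_, ?_, ?_, ?_⟩
      · rw [conjTranspose_conjTranspose, h2]
      · rw [conjTranspose_conjTranspose, h1]
      · rw [← h.star b, ← conjTranspose_mul, h4]
      · rw [← h.star a, ← conjTranspose_mul, h3]
    · rintro a b c ⟨V, h0, h1, h2, h3, h4⟩ ⟨W, k0, k1, k2, k3, k4⟩
      refine ⟨V * W, h0.mul k0, ?_, ?_, ?_, ?_⟩
      · rw [conjTranspose_mul, Matrix.mul_assoc, ← Matrix.mul_assoc W, k1, ← Matrix.mul_assoc, h4,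
          h1]
      · rw [conjTranspose_mul, Matrix.mul_assoc, ← Matrix.mul_assoc Vᴴ, h2, k3, k2]
      · rw [← Matrix.mul_assoc, h3]
      · rw [Matrix.mul_assoc, k4]

theorem exists_spec [Nonempty Ω] (ht : ∀ x y : Ω, ∃ g : G, g • x = y) {n : ℕ}
    {E : Fin n → Matrix Ω Ω ℂ} {a0 : Fin n} (h : MinFam G E a0) :
    ∃ (X : Type) (_ : Fintype X) (_ : DecidableEq X) (S : Spec Ω (Fin n) X),
      (∀ a b, Inv G (S.U a b)) ∧
      ∀ M, Inv G M → ∃ c : Fin n → Fin n → ℂ, M = ∑ a, ∑ b, c a b • S.U a b := by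
  classical
  obtain ⟨cl, hcl⟩ : ∃ cl : Fin n → Quotient (S1b_st h), cl = Quotient.mk (S1b_st h) := ⟨_, rfl⟩
  have hex : ∀ a b, cl a = cl b ↔ (S1b_st h).r a b := fun a b => hcl ▸ Quotient.eq
  have hout : ∀ χ, cl χ.out = χ := fun χ => hcl ▸ Quotient.out_eq χ
  choose V v0 v1 v2 v3 v4 using fun a => (hex a (cl a).out).1 (hout _).symm
  choose d d0 d1 using fun χ : Quotient (S1b_st h) =>
    S1b_trace (h.star χ.out) (h.idem χ.out) (h.ne χ.out)
  have v5 : ∀ a, (V a)ᴴ * E a = (V a)ᴴ := fun a => by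
    rw [← h.star a, ← conjTranspose_mul, v3]
  have v6 : ∀ a, E (cl a).out * (V a)ᴴ = (V a)ᴴ := fun a => by
    rw [← h.star (cl a).out, ← conjTranspose_mul, v4]
  have v7 : ∀ b c, b ≠ c → (V b)ᴴ * V c = 0 := fun b c e => by
    rw [← v5 b, ← v3 c, Matrix.mul_assoc, ← Matrix.mul_assoc (E b), h.orth b c e, Matrix.zero_mul,
      Matrix.mul_zero]
  obtain ⟨U, u1, u2⟩ : ∃ U : Fin n → Fin n → Matrix Ω Ω ℂ,
      (∀ a b, cl a = cl b → U a b = V a * (V b)ᴴ) ∧ ∀ a b, cl a ≠ cl b → U a b = 0 :=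
    ⟨fun a b => if cl a = cl b then V a * (V b)ᴴ else 0, fun a b e => if_pos e,
      fun a b e => if_neg e⟩
  have u3 : ∀ a, U a a = E a := fun a => (u1 a a rfl).trans (v1 a)
  have u4 : ∀ a b, Inv G (U a b) := fun a b => by
    by_cases e : cl a = cl b
    · rw [u1 a b e]
      exact (v0 a).mul (v0 b).star
    · rw [u2 a b e]
      exact inv_zero
  refine ⟨Quotient (S1b_st h), Fintype.ofFinite _, inferInstance,
    { cl := cl
      d := d
      a0 := a0
      U := U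
      surj := fun χ => ⟨_, hout χ⟩
      cl0 := fun a e => ?_
      U0 := (u3 a0).trans h.e0
      dpos := d0
      star := fun a b => ?_
      zero := u2
      mul := fun a b c e => ?_
      orth := fun a b c e ne => ?_
      sum := by simp only [u3, h.sum]
      diag := fun a x => ?_
      diag0 := fun a b x ne => ?_ }, u4, fun M hM => ?_⟩
  · obtain ⟨W, k0, k1, -, -, k4⟩ := (hex a a0).1 e
    obtain ⟨c, hc⟩ := k0.mul_E0 ht
    rw [← h.e0, k4] at hc
    by_contra ne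
    apply h.ne a
    have e1 : E a * W = 0 := by rw [hc, Matrix.mul_smul, h.orth a a0 ne, smul_zero]
    rw [← h.idem a]
    nth_rewrite 2 [← k1]
    rw [← Matrix.mul_assoc, e1, Matrix.zero_mul]
  · by_cases e : cl a = cl b
    · rw [u1 a b e, u1 b a e.symm, conjTranspose_mul, conjTranspose_conjTranspose]
    · rw [u2 a b e, u2 b a (Ne.symm e), conjTranspose_zero]
  · by_cases e' : cl b = cl c
    · rw [u1 a b e, u1 b c e', u1 a c (e.trans e'), Matrix.mul_assoc, ← Matrix.mul_assoc (V b)ᴴ, v2,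
        e', v6]
    · rw [u2 b c e', u2 a c (e ▸ e'), Matrix.mul_zero]
  · by_cases e1 : cl a = cl b
    · by_cases e2 : cl c = cl e
      · rw [u1 a b e1, u1 c e e2, Matrix.mul_assoc, ← Matrix.mul_assoc (V b)ᴴ, v7 b c ne,
          Matrix.zero_mul, Matrix.mul_zero]
      · rw [u2 c e e2, Matrix.mul_zero]
    · rw [u2 a b e1, Matrix.zero_mul]
  · rw [(u4 a a).diag ht, u1 a a rfl, trace_mul_comm, v2, d1]
  · rw [(u4 a b).diag ht]
    by_cases e : cl a = cl b
    · rw [u1 a b e, trace_mul_comm, v7 b a (Ne.symm ne), trace_zero, zero_div]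
    · rw [u2 a b e, trace_zero, zero_div]
  · have key : ∀ a b, ∃ c : ℂ, E a * M * E b = c • U a b := fun a b => by
      by_cases e : cl a = cl b
      · obtain ⟨c, hc⟩ := h.min (cl a).out _ (((v0 a).star.mul hM).mul (v0 b))
        rw [← Matrix.mul_assoc, ← Matrix.mul_assoc, v6, Matrix.mul_assoc _ (V b)] at hc
        nth_rewrite 1 [e] at hc
        rw [v4] at hc
        refine ⟨c, ?_⟩
        calc E a * M * E b = V a * ((V a)ᴴ * M * V b) * (V b)ᴴ := by
              rw [← v1 a, ← v1 b]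
              simp only [Matrix.mul_assoc]
          _ = c • U a b := by rw [hc, Matrix.mul_smul, v4, Matrix.smul_mul, u1 a b e]
      · refine ⟨0, ?_⟩
        rw [zero_smul]
        by_contra ne
        exact e ((hex a b).2 (iso_of_ne h hM ne))
    choose c hc using key
    refine ⟨c, ?_⟩
    change M = ∑ a, ∑ b, c a b • U a b
    simp only [← hc, ← Matrix.mul_sum, ← Matrix.sum_mul, h.sum, Matrix.mul_one, Matrix.one_mul]

end Pool.Agent.Work.MP_66fdf3_co.Full
end

-- merged part: Pool.Agent.Work.MP_66fdf3_co.Full.S1c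
section
/-!
`Hh_eq`: write `M = of (Hr ω b) = ∑ c a e • U a e`.  If `cl a = cl e`, then
`trace (U e a * M) = c a e * d (cl a)` (`mul`, `orth`, `trace_U`, `diag0`), and also
`trace (U e a * M) = ∑ x y, U e a y x * M x y = m * U e a b ω` (invariance; there are `m * kd` pairs of the
colour, `card_col`), and `U e a b ω = conj (U a e ω b)` by `star`.  If the classes differ `U a e = 0`.
`spec_hyp`: `card_col`, `card_col'`, `blk_eq_iff`, `cnt_blk`, `kd_self`.
-/

namespace Pool.Agent.Work.MP_66fdf3_co.Full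

open Finset Matrix

variable {G Ω : Type} [Group G] [Finite G] [MulAction G Ω] [Fintype Ω] [DecidableEq Ω]

variable {A X : Type} [Fintype A] [DecidableEq A] [Fintype X] [DecidableEq X] (S : Spec Ω A X)

omit [Finite G] [DecidableEq Ω] in
theorem S1c_row (ht : ∀ x y : Ω, ∃ g : G, g • x = y) (ω b x : Ω) : ∑ y, Hr G ω b x y = 1 := by
  have hk : ((kd G ω b : ℕ) : ℝ) ≠ 0 := by exact_mod_cast (kd_pos ω b).ne'
  unfold Hr
  rw [← sum_filter, sum_const, card_col ht, nsmul_eq_mul, mul_inv_cancel₀ hk]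

omit [DecidableEq Ω] in
theorem S1c_col (ht : ∀ x y : Ω, ∃ g : G, g • x = y) (ω b y : Ω) : ∑ x, Hr G ω b x y = 1 := by
  have hk : ((kd G ω b : ℕ) : ℝ) ≠ 0 := by exact_mod_cast (kd_pos ω b).ne'
  unfold Hr
  rw [← sum_filter, sum_const, card_col' ht, nsmul_eq_mul, mul_inv_cancel₀ hk]

omit [DecidableEq Ω] in
theorem S1c_tr (ht : ∀ x y : Ω, ∃ g : G, g • x = y) {N : Matrix Ω Ω ℂ} (hN : Inv G N) (ω b : Ω) :
    (N * Matrix.of fun x y => ((Hr G ω b x y : ℝ) : ℂ)).trace = Fintype.card Ω * N b ω := by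
  have e : ∀ y, (N * Matrix.of fun x y => ((Hr G ω b x y : ℝ) : ℂ)) y y = N b ω := fun y => by
    have h1 : ∑ x, ((Hr G ω b x y : ℝ) : ℂ) = 1 := by exact_mod_cast S1c_col ht ω b y
    rw [Matrix.mul_apply, ← mul_one (N b ω), ← h1, mul_sum]
    refine sum_congr rfl fun x _ => ?_
    rw [Matrix.of_apply]
    by_cases h : Col G ω b x y
    · obtain ⟨g, rfl, rfl⟩ := h
      rw [hN]
    · unfold Hr
      rw [if_neg h, Complex.ofReal_zero, mul_zero, mul_zero]
  unfold Matrix.trace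
  simp only [Matrix.diag_apply, e, sum_const, card_univ, nsmul_eq_mul]

theorem S1c_coef [Nonempty Ω] (c : A → A → ℂ) {a e : A} (h : S.cl a = S.cl e) :
    (S.U e a * ∑ a', ∑ e', c a' e' • S.U a' e').trace = c a e * S.d (S.cl a) := by
  rw [Matrix.mul_sum, sum_eq_single a, Matrix.mul_sum, trace_sum, sum_eq_single e]
  · rw [Matrix.mul_smul, S.mul e a e h.symm, trace_smul, S.trace_U, h, smul_eq_mul]
  · intro e' _ he
    rw [Matrix.mul_smul, S.mul e a e' h.symm, trace_smul]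
    have : (S.U e e').trace = 0 := sum_eq_zero fun x _ => S.diag0 e e' x he.symm
    rw [this, smul_zero]
  · exact fun k => absurd (mem_univ _) k
  · intro a' _ ha
    rw [Matrix.mul_sum]
    exact sum_eq_zero fun e' _ => by rw [Matrix.mul_smul, S.orth e a a' e' ha.symm, smul_zero]
  · exact fun k => absurd (mem_univ _) k

theorem Hh_eq (ht : ∀ x y : Ω, ∃ g : G, g • x = y) (hI : ∀ a b, Inv G (S.U a b))
    (hM : ∀ M, Inv G M → ∃ c : A → A → ℂ, M = ∑ a, ∑ b, c a b • S.U a b) (ω b x y : Ω) :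
    S.Hh ω b x y = ((Hr G ω b x y : ℝ) : ℂ) := by
  have : Nonempty Ω := ⟨ω⟩
  obtain ⟨c, hc⟩ := hM _ (inv_Hr (G := G) ω b)
  have key : S.Hh ω b = Matrix.of fun x y => ((Hr G ω b x y : ℝ) : ℂ) := by
    rw [hc]
    refine sum_congr rfl fun a _ => sum_congr rfl fun e _ => ?_
    by_cases h : S.cl a = S.cl e
    · have h1 := S1c_coef S c h
      have h2 : ((S.d (S.cl a) : ℕ) : ℂ) ≠ 0 := by exact_mod_cast (S.dpos _).ne'
      have h3 : S.U e a b ω = (starRingEnd ℂ) (S.U a e ω b) := by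
        rw [← S.star a e, conjTranspose_apply]
        rfl
      rw [← hc, S1c_tr ht (hI e a), h3] at h1
      rw [div_mul_eq_mul_div, h1, mul_div_cancel_right₀ _ h2]
    · rw [S.zero a e h, smul_zero, smul_zero]
  rw [key, Matrix.of_apply]

theorem spec_hyp (h : Prim0 G Ω) (h4 : ∀ x y : Ω, x ≠ y → 4 ≤ kd G x y)
    (hI : ∀ a b, Inv G (S.U a b))
    (hM : ∀ M, Inv G M → ∃ c : A → A → ℂ, M = ∑ a, ∑ b, c a b • S.U a b)
    (hd : ∀ χ, χ ≠ S.x0 → 4 ≤ S.d χ ∧ 3 * S.mu χ ≤ S.d χ) (ω : Ω) :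
    S.Hyp ω (blk G ω) (Hr G ω) := by
  refine ⟨Hh_eq S h.trans hI hM ω, fun b x y => ?_, S1c_row h.trans ω, S1c_col h.trans ω,
    fun x y => ?_, by rw [cnt_blk, kd_self], fun y hy => ?_, hd⟩
  · unfold Hr
    split_ifs
    · positivity
    · exact le_rfl
  · unfold Hr
    rw [cnt_blk]
    by_cases k : Col G ω y ω x
    · rw [if_pos k, if_pos ((blk_eq_iff ω x y).2 k)]
    · rw [if_neg k, if_neg (mt (blk_eq_iff ω x y).1 k)]
  · rw [cnt_blk]
    exact ⟨h.even ω y hy.symm, h4 ω y hy.symm⟩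

end Pool.Agent.Work.MP_66fdf3_co.Full
end

-- merged part: Pool.Agent.Work.MP_66fdf3_co.Full.G7
section
/-!
The balanced permutation theorem.
-/

namespace Pool.Agent.Work.MP_66fdf3_co.Full

open Finset Matrix

variable {G Ω : Type} [Group G] [Finite G] [MulAction G Ω] [Fintype Ω] [DecidableEq Ω]

theorem bp_small (h : Prim0 G Ω) (h4 : ∀ x y : Ω, x ≠ y → 4 ≤ kd G x y)
    (hm : Nat.card Ω = 15 ∨ Nat.card Ω = 21 ∨ Nat.card Ω = 33 ∨ Nat.card Ω = 39 ∨ Nat.card Ω = 35)
    (ω : Ω) : BP G ω := by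
  haveI : Fact (Nat.Prime 5) := ⟨by norm_num⟩
  haveI : Fact (Nat.Prime 7) := ⟨by norm_num⟩
  haveI : Fact (Nat.Prime 11) := ⟨by norm_num⟩
  haveI : Fact (Nat.Prime 13) := ⟨by norm_num⟩
  rcases hm with hm | hm | hm | hm | hm
  · obtain ⟨z, e, hz⟩ := semireg (s := 3) (p := 5) h.trans (by norm_num) hm
    exact small_bp h h4 hz 0 (by decide) hall5 (by decide) delta5 ω
  · obtain ⟨z, e, hz⟩ := semireg (s := 3) (p := 7) h.trans (by norm_num) hm
    exact small_bp h h4 hz 0 (by decide) hall7 (by decide) delta7 ω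
  · obtain ⟨z, e, hz⟩ := semireg (s := 3) (p := 11) h.trans (by norm_num) hm
    exact small_bp h h4 hz 0 (by decide) hall11 (by decide) delta11 ω
  · obtain ⟨z, e, hz⟩ := semireg (s := 3) (p := 13) h.trans (by norm_num) hm
    exact small_bp h h4 hz 0 (by decide) hall13 (by decide) delta13 ω
  · obtain ⟨z, e, hz⟩ := semireg (s := 5) (p := 7) h.trans (by norm_num) hm
    exact small_bp h h4 hz 0 (by decide) hall35 (by decide) delta35 ω

theorem bp_large (h : Prim G Ω) {k : G} {α β : Ω} (hk : k ≠ 1) (hne : α ≠ β) (h1 : k • α = α)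
    (h2 : k • β = β) (hm : 45 ≤ Nat.card Ω) (ω : Ω) : BP G ω := by
  haveI : Nonempty Ω := ⟨ω⟩
  have h4 : ∀ x y : Ω, x ≠ y → 4 ≤ kd G x y := fun x y hxy =>
    four_le h ⟨k, α, β, hk, hne, h1, h2⟩ hxy
  obtain ⟨γ, hγ⟩ : ∃ γ : Ω, k • γ ≠ γ := by
    by_contra hh
    push Not at hh
    exact hk (h.faith k hh)
  obtain ⟨n, E, a0, hE⟩ := exists_minFam (G := G) h.trans
  obtain ⟨X, _, _, S, hI, hM⟩ := exists_spec h.trans hE
  by_cases h3 : ∃ χ, χ ≠ S.x0 ∧ S.d χ = 3
  · obtain ⟨χ, hχ, h3⟩ := h3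
    exact d_three S h hI hχ h3 ω
  push Not at h3
  have hd : ∀ χ, χ ≠ S.x0 → 4 ≤ S.d χ ∧ 3 * S.mu χ ≤ S.d χ := by
    intro χ hχ
    have a := three_mu S h.toPrim0 hI hne h1 h2 hγ hχ
    have b := S.mu_pos χ
    have c := h3 χ hχ
    omega
  have hg : Good (Fintype.card Ω) := by
    rw [← Nat.card_eq_fintype_card]
    exact good_all h.odd hm
  obtain ⟨σ, π, hσ⟩ := S.analytic (spec_hyp S h.toPrim0 h4 hI hM hd ω) hg
  refine ⟨σ, π, fun b => ?_⟩
  by_contra hc
  have hc' : ¬ Col G ω b (σ b) (π b) := hc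
  exact hσ b (by simp [Hr, hc'])

theorem bp_prim (h : Prim G Ω) (ω : Ω) : BP G ω := by
  by_cases h2 : ∃ (k : G) (x y : Ω), k ≠ 1 ∧ x ≠ y ∧ k • x = x ∧ k • y = y
  swap
  · refine bp_of_frob ω ⊤ (fun x y => ?_) (fun k _ x y a b c => ?_) h.odd
    · obtain ⟨g, hg⟩ := h.trans x y
      exact ⟨g, trivial, hg⟩
    · by_contra hk
      exact h2 ⟨k, x, y, hk, a, b, c⟩
  have h4 : ∀ x y : Ω, x ≠ y → 4 ≤ kd G x y := fun x y hxy => four_le h h2 hxy
  obtain ⟨k, α, β, hk, hne, h1, h2⟩ := h2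
  by_cases hm : 45 ≤ Nat.card Ω
  · exact bp_large h hk hne h1 h2 hm ω
  have ho := h.odd
  have pp : ∀ p a : ℕ, p.Prime → Nat.card Ω = p ^ a → BP G ω := fun p a hp ha =>
    bp_of_primePow ω h.trans h.odd hp ha
  have sm := fun hh => bp_small h.toPrim0 h4 hh ω
  obtain ⟨j, hj⟩ := ho
  have hj' : j ≤ 21 := by omega
  interval_cases j
  · exact pp 3 0 (by norm_num) hj
  · exact pp 3 1 (by norm_num) hj
  · exact pp 5 1 (by norm_num) hj
  · exact pp 7 1 (by norm_num) hj
  · exact pp 3 2 (by norm_num) hj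
  · exact pp 11 1 (by norm_num) hj
  · exact pp 13 1 (by norm_num) hj
  · exact sm (by omega)
  · exact pp 17 1 (by norm_num) hj
  · exact pp 19 1 (by norm_num) hj
  · exact sm (by omega)
  · exact pp 23 1 (by norm_num) hj
  · exact pp 5 2 (by norm_num) hj
  · exact pp 3 3 (by norm_num) hj
  · exact pp 29 1 (by norm_num) hj
  · exact pp 31 1 (by norm_num) hj
  · exact sm (by omega)
  · exact sm (by omega)
  · exact pp 37 1 (by norm_num) hj
  · exact sm (by omega)
  · exact pp 41 1 (by norm_num) hj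
  · exact pp 43 1 (by norm_num) hj

end Pool.Agent.Work.MP_66fdf3_co.Full
end

-- merged part: Pool.Agent.Work.MP_66fdf3_co.Full.Final
section
/-!
The classification.
-/

namespace Pool.Agent.Work.MP_66fdf3_co.Full

open Finset Matrix

theorem bp_main {G Ω : Type} [Group G] [MulAction G Ω] [Finite Ω] (h : Prim0 G Ω) (ω : Ω) :
    BP G ω := by
  classical
  haveI := Fintype.ofFinite Ω
  exact BP.of_range (bp_prim (prim_range h) ω)

theorem no_all (n : ℕ) : ∀ (G : Type) [Group G] [Finite G], Nat.card G = n →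
    Even (Nat.card (commutator G)) → NO G := by
  induction n using Nat.strong_induction_on with
  | _ n ih =>
    intro G _ _ hn he
    exact no_step (fun K hK => bp_main hK _) (fun K hK hK' => ih _ (hn ▸ hK) K rfl hK') he

theorem main_full (G : Type) [Group G] [Finite G] (h2 : Nat.card G ≠ 2) :
    HasNearOrthogonalMate G ↔ Even (Nat.card (commutator G)) :=
  ⟨necessity h2, fun he => (no_all _ G rfl he).mate⟩

end Pool.Agent.Work.MP_66fdf3_co.Full
end

-- merged part: Pool.Agent.Work.MP_66fdf3_co.Full.Two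
section
/-!
The degenerate order two, and the classification for all finite groups.
-/

namespace Pool.Agent.Work.MP_66fdf3_co.Full

theorem mate_of_card_two (G : Type) [Group G] [Finite G] (h : Nat.card G = 2) :
    HasNearOrthogonalMate G := by
  obtain ⟨x, hx, -⟩ := (Nat.card_eq_two_iff' (1 : G)).1 h
  have hxx : x * x = 1 := by
    have := pow_card_eq_one' (x := x)
    rwa [h, pow_two] at this
  refine ⟨fun g h => g * h, ⟨Group.mulLeft_bijective, Group.mulRight_bijective⟩,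
    ⟨1, x, 1, x, 1, x, hx.symm, hx.symm, hx.symm, Or.inl ?_, Or.inl ?_⟩, ?_⟩
  · simp [hxx]
  · simp [hxx]
  · have e : (Set.range fun p : G × G => (p.1 * p.2, p.1 * p.2)) =
        Set.range fun g : G => (g, g) := by
      ext q
      constructor
      · rintro ⟨p, rfl⟩
        exact ⟨_, rfl⟩
      · rintro ⟨g, rfl⟩
        exact ⟨(g, 1), by simp⟩
    rw [e, Set.ncard_range_of_injective fun a b hab => (Prod.ext_iff.1 hab).1, h]
    norm_num

theorem main_all (G : Type) [Group G] [Finite G] :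
    HasNearOrthogonalMate G ↔ Even (Nat.card (commutator G)) ∨ Nat.card G = 2 := by
  by_cases h2 : Nat.card G = 2
  · exact ⟨fun _ => Or.inr h2, fun _ => mate_of_card_two G h2⟩
  · rw [main_full G h2]
    exact ⟨Or.inl, fun h => h.resolve_right h2⟩

end Pool.Agent.Work.MP_66fdf3_co.Full
end
end
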